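import Pool.Agent.H429.MZQ.StmE

/-!
# Project MZQ (helper429), job ABSQ: the dimension of the universal deformation ring
-/

set_option autoImplicit false

namespace Pool.Agent.H429.MZQ

open IsLocalRing
open Pool.Agent.Q5.MZ (MinGen idn LP HL dfst)

namespace ABSQN

/-! ### Coefficient rings -/

/-- A nilpotent ideal is complete. -/
theorem complete_of_pow {B : Type} [CommRing B] (I : Ideal B) (N : ℕ) (h : I ^ N = ⊥) :
    IsAdicComplete I B := by
  have hN : ∀ x y : B, x ≡ y [SMOD (I ^ N • ⊤ : Submodule B B)] → x = y := by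
    intro x y hxy
    rw [h, Submodule.bot_smul, SModEq.bot] at hxy
    exact hxy
  exact {
    haus' := fun x hx => hN x 0 (hx N)
    prec' := fun f hf => ⟨f N, fun n => by
      rcases le_total n N with hn | hn
      · exact hf hn
      · have := hN _ _ (hf hn)
        rw [this]⟩ }

/-- Two homomorphisms from the Witt vectors to a ring with `2 = 0` are equal. -/
theorem witt_hom {B : Type} [CommRing B] (h2 : (2 : B) = 0) (g1 g2 : WittVector 2 (ZMod 2) →+* B) :
    g1 = g2 := by
  have key : ∀ x : WittVector 2 (ZMod 2), ∃ (k : ℕ) (y : WittVector 2 (ZMod 2)), x = k + y * 2 := by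
    intro x
    refine ⟨(x.coeff 0).val, ?_⟩
    set z : WittVector 2 (ZMod 2) := x - ((x.coeff 0).val : ℕ) with hz
    have h0 : z.coeff 0 = 0 := by
      have e : z.coeff 0 = WittVector.constantCoeff z := rfl
      rw [e, hz, map_sub, map_natCast]
      have e2 : WittVector.constantCoeff x = x.coeff 0 := rfl
      rw [e2, ZMod.natCast_zmod_val, sub_self]
    refine ⟨z.shift 1, ?_⟩
    have h1 := WittVector.eq_iterate_verschiebung (x := z) (n := 1) (fun i hi => by
      have : i = 0 := by omega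
      rw [this]; exact h0)
    have h3 := WittVector.verschiebung_frobenius (z.shift 1)
    rw [WittVector.frobenius_zmodp] at h3
    rw [Function.iterate_one, h3] at h1
    have h4 : z.shift 1 * ((2 : ℕ) : WittVector 2 (ZMod 2)) = z.shift 1 * 2 := by norm_num
    rw [h4] at h1
    rw [← h1, hz]
    ring
  ext x
  obtain ⟨k, y, rfl⟩ := key x
  rw [map_add, map_add, map_mul, map_mul, map_natCast, map_natCast, map_ofNat, map_ofNat, h2,
    mul_zero, mul_zero]

/-- An Artinian local ring with `2 = 0` and residue field `𝔽₂` as a coefficient ring. -/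
noncomputable def mk (B : Type) [CommRing B] [IsLocalRing B] [IsNoetherianRing B]
    (h2 : (2 : B) = 0) (N : ℕ) (hN : maximalIdeal B ^ N = ⊥) (res : B →+* ZMod 2) :
    MZ.CNL 2 (ZMod 2) :=
  haveI : CharP B 2 := CharTwo.of_one_ne_zero_of_two_eq_zero one_ne_zero h2
  letI : Algebra (WittVector 2 (ZMod 2)) B :=
    ((ZMod.castHom (dvd_refl 2) B).comp WittVector.constantCoeff).toAlgebra
  { A := B
    complete := complete_of_pow _ N hN
    res := res
    res_surj := fun x => ⟨(x.val : B), by rw [map_natCast, ZMod.natCast_zmod_val]⟩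
    res_coeff := fun x => by
      have h : res.comp (ZMod.castHom (dvd_refl 2) B) = RingHom.id (ZMod 2) := Subsingleton.elim _ _
      have h' := congrArg (fun g : ZMod 2 →+* ZMod 2 => g (WittVector.constantCoeff x)) h
      exact h' }

section

variable {G : Type} [Group G] [TopologicalSpace G] [IsTopologicalGroup G]

/-- Preimages under homomorphisms with open kernel are open. -/
theorem open_pre {H : Type} [Group H] (r : G →* H) (hr : IsOpen ((r.ker : Subgroup G) : Set G))
    (T : Set H) : IsOpen {g | r g ∈ T} := by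
  rw [isOpen_iff_mem_nhds]
  intro g hg
  have h1 : IsOpen ((fun y => g⁻¹ * y) ⁻¹' ((r.ker : Subgroup G) : Set G)) :=
    hr.preimage (continuous_const.mul continuous_id)
  refine Filter.mem_of_superset (h1.mem_nhds ?_) ?_
  · show g⁻¹ * g ∈ r.ker
    rw [inv_mul_cancel]
    exact one_mem _
  · intro y hy
    have h2 : r (g⁻¹ * y) = 1 := hy
    rw [map_mul, map_inv, inv_mul_eq_one] at h2
    show r y ∈ T
    rw [← h2]
    exact hg

variable {rbar : G →* GL (Fin 3) (ZMod 2)} {R : MZ.CNL 2 (ZMod 2)} {ru : G →* GL (Fin 3) R.A}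

theorem isLift_mk (B : Type) [CommRing B] [IsLocalRing B] [IsNoetherianRing B]
    (h2 : (2 : B) = 0) (N : ℕ) (hN : maximalIdeal B ^ N = ⊥) (res : B →+* ZMod 2)
    (rB : G →* GL (Fin 3) B) (h1 : ∀ g, Matrix.GeneralLinearGroup.map res (rB g) = rbar g)
    (ho : IsOpen ((rB.ker : Subgroup G) : Set G)) : MZ.IsLift rbar (mk B h2 N hN res) rB :=
  ⟨h1, fun j => open_pre rB ho {x | ∀ a b : Fin 3,
    ((x : Matrix (Fin 3) (Fin 3) B) - 1) a b ∈ maximalIdeal B ^ j}⟩

theorem exists_hom (hu : MZ.IsUniversal rbar R ru) (B : Type) [CommRing B] [IsLocalRing B]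
    [IsNoetherianRing B] (h2 : (2 : B) = 0) (N : ℕ) (hN : maximalIdeal B ^ N = ⊥)
    (res : B →+* ZMod 2) (rB : G →* GL (Fin 3) B)
    (h1 : ∀ g, Matrix.GeneralLinearGroup.map res (rB g) = rbar g)
    (ho : IsOpen ((rB.ker : Subgroup G) : Set G)) :
    ∃ (f : R.A →+* B) (u : GL (Fin 3) B), (∀ x, res (f x) = R.res x) ∧
      Matrix.GeneralLinearGroup.map res u = 1 ∧
      ∀ g, rB g = u * Matrix.GeneralLinearGroup.map f (ru g) * u⁻¹ := by
  obtain ⟨f, ⟨hf1, u, hu1, hu2⟩, _⟩ := hu.2 (mk B h2 N hN res) rB (isLift_mk B h2 N hN res rB h1 ho)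
  exact ⟨(f : R.A →+* (mk B h2 N hN res).A), u, hf1, hu1, hu2⟩

theorem uniq_hom (hu : MZ.IsUniversal rbar R ru) (B : Type) [CommRing B] [IsLocalRing B]
    [IsNoetherianRing B] (h2 : (2 : B) = 0) (N : ℕ) (hN : maximalIdeal B ^ N = ⊥)
    (res : B →+* ZMod 2) (rB : G →* GL (Fin 3) B)
    (h1 : ∀ g, Matrix.GeneralLinearGroup.map res (rB g) = rbar g)
    (ho : IsOpen ((rB.ker : Subgroup G) : Set G)) (f1 f2 : R.A →+* B) (u1 u2 : GL (Fin 3) B)
    (hf1 : ∀ x, res (f1 x) = R.res x) (hf2 : ∀ x, res (f2 x) = R.res x)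
    (hu1 : Matrix.GeneralLinearGroup.map res u1 = 1) (hu2 : Matrix.GeneralLinearGroup.map res u2 = 1)
    (hr1 : ∀ g, rB g = u1 * Matrix.GeneralLinearGroup.map f1 (ru g) * u1⁻¹)
    (hr2 : ∀ g, rB g = u2 * Matrix.GeneralLinearGroup.map f2 (ru g) * u2⁻¹) : f1 = f2 := by
  obtain ⟨f, _, hf⟩ := hu.2 (mk B h2 N hN res) rB (isLift_mk B h2 N hN res rB h1 ho)
  have hc : ∀ (f' : R.A →+* B) (x : WittVector 2 (ZMod 2)),
      f' (algebraMap (WittVector 2 (ZMod 2)) R.A x) =
        algebraMap (WittVector 2 (ZMod 2)) (mk B h2 N hN res).A x := by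
    intro f' x
    have h3 := witt_hom h2 (f'.comp (algebraMap (WittVector 2 (ZMod 2)) R.A))
      (algebraMap (WittVector 2 (ZMod 2)) (mk B h2 N hN res).A)
    exact congrArg (fun g : WittVector 2 (ZMod 2) →+* B => g x) h3
  let F1 : R.A →ₐ[WittVector 2 (ZMod 2)] (mk B h2 N hN res).A := { f1 with commutes' := hc f1 }
  let F2 : R.A →ₐ[WittVector 2 (ZMod 2)] (mk B h2 N hN res).A := { f2 with commutes' := hc f2 }
  have e1 : F1 = f := hf F1 ⟨hf1, u1, hu1, hr1⟩
  have e2 : F2 = f := hf F2 ⟨hf2, u2, hu2, hr2⟩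
  have e3 : F1 = F2 := e1.trans e2.symm
  ext x
  exact congrArg (fun F : R.A →ₐ[WittVector 2 (ZMod 2)] (mk B h2 N hN res).A => F x) e3

end

/-- The maximal ideal of a finite local ring is nilpotent. -/
theorem nilp (B : Type) [CommRing B] [IsLocalRing B] [Finite B] : ∃ N, maximalIdeal B ^ N = ⊥ := by
  have h := IsArtinianRing.isNilpotent_jacobson_bot (R := B)
  rw [IsLocalRing.jacobson_eq_maximalIdeal ⊥ bot_ne_top] at h
  exact h

/-- Matrices congruent to one modulo `ε` commute. -/
theorem comm_eps (P Q : Matrix (Fin 3) (Fin 3) (DualNumber (ZMod 2))) (hP : P.map dfst = 1)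
    (hQ : Q.map dfst = 1) : P * Q = Q * P := by
  have hk : ∀ x y : DualNumber (ZMod 2), dfst x = 0 → dfst y = 0 → x * y = 0 := by
    intro x y hx hy
    have hx' : TrivSqZeroExt.fst x = 0 := hx
    have hy' : TrivSqZeroExt.fst y = 0 := hy
    ext
    · rw [TrivSqZeroExt.fst_mul, hx', zero_mul, TrivSqZeroExt.fst_zero]
    · rw [TrivSqZeroExt.snd_mul, hx', hy', TrivSqZeroExt.snd_zero]
      simp
  have hP' : ∀ i j, dfst ((P - 1) i j) = 0 := by
    intro i j
    have h1 := congrFun (congrFun hP i) j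
    rw [Matrix.map_apply] at h1
    rw [Matrix.sub_apply, map_sub, h1, Matrix.one_apply, Matrix.one_apply]
    split_ifs <;> simp
  have hQ' : ∀ i j, dfst ((Q - 1) i j) = 0 := by
    intro i j
    have h1 := congrFun (congrFun hQ i) j
    rw [Matrix.map_apply] at h1
    rw [Matrix.sub_apply, map_sub, h1, Matrix.one_apply, Matrix.one_apply]
    split_ifs <;> simp
  have h1 : (P - 1) * (Q - 1) = 0 := by
    ext1 i j
    rw [Matrix.mul_apply]
    exact Finset.sum_eq_zero fun k _ => hk _ _ (hP' i k) (hQ' k j)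
  have h2 : (Q - 1) * (P - 1) = 0 := by
    ext1 i j
    rw [Matrix.mul_apply]
    exact Finset.sum_eq_zero fun k _ => hk _ _ (hQ' i k) (hP' k j)
  have h3 : P * Q = (P - 1) * (Q - 1) + P + Q - 1 := by noncomm_ring
  have h4 : Q * P = (Q - 1) * (P - 1) + P + Q - 1 := by noncomm_ring
  rw [h3, h4, h1, h2]

theorem surj_res {B : Type} [CommRing B] (res : B →+* ZMod 2) : Function.Surjective res :=
  fun x => ⟨(x.val : B), by rw [map_natCast, ZMod.natCast_zmod_val]⟩

theorem mem_max {B : Type} [CommRing B] [IsLocalRing B] (res : B →+* ZMod 2) (x : B) :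
    x ∈ maximalIdeal B ↔ res x = 0 := by
  rw [← IsLocalRing.ker_eq_maximalIdeal res (surj_res res), RingHom.mem_ker]

section

variable {G : Type} [Group G]

/-- The ideal generated by two and the entries of `ru(g) - 1`, `g ∈ Kr`. -/
def ida (R : MZ.CNL 2 (ZMod 2)) (ru : G →* GL (Fin 3) R.A) (Kr : Subgroup G) : Ideal R.A :=
  Ideal.span ({((2 : ℕ) : R.A)} ∪ {x | ∃ g ∈ Kr, ∃ i j : Fin 3,
    x = ((ru g : Matrix (Fin 3) (Fin 3) R.A) - 1) i j})

theorem ida_kill {R : MZ.CNL 2 (ZMod 2)} {ru : G →* GL (Fin 3) R.A} {Kr : Subgroup G} {B : Type}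
    [CommRing B] (h2 : (2 : B) = 0) (f : R.A →+* B)
    (hf : ∀ g ∈ Kr, Matrix.GeneralLinearGroup.map f (ru g) = 1) : ∀ a ∈ ida R ru Kr, f a = 0 := by
  have h : ida R ru Kr ≤ RingHom.ker f := by
    unfold ida
    rw [Ideal.span_le]
    rintro x (hx | ⟨g, hg, i, j, rfl⟩)
    · have hx' : x = ((2 : ℕ) : R.A) := hx
      rw [hx']
      show f ((2 : ℕ) : R.A) = 0
      rw [map_natCast]
      exact_mod_cast h2
    · show f (((ru g : Matrix (Fin 3) (Fin 3) R.A) - 1) i j) = 0
      have h1 := congrArg (fun y : GL (Fin 3) B => (y : Matrix (Fin 3) (Fin 3) B) i j) (hf g hg)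
      have h3 : f ((ru g : Matrix (Fin 3) (Fin 3) R.A) i j) = (1 : Matrix (Fin 3) (Fin 3) B) i j := h1
      rw [Matrix.sub_apply, map_sub, h3, Matrix.one_apply, Matrix.one_apply]
      split_ifs <;> simp
  exact fun a ha => h ha

end

theorem add_self_mat {B : Type} [CommRing B] (h2 : (2 : B) = 0) (Q : Matrix (Fin 3) (Fin 3) B) :
    Q + Q = 0 := by
  ext1 i j
  rw [Matrix.add_apply, Matrix.zero_apply, ← two_mul, h2, zero_mul]

theorem sq_aux {B : Type} [CommRing B] (P : Matrix (Fin 3) (Fin 3) B) :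
    (P - 1) * (P - 1) = P * P + 1 - (P + P) := by noncomm_ring

theorem sq_aux2 {B : Type} [CommRing B] (h2 : (2 : B) = 0) (X : Matrix (Fin 3) (Fin 3) B)
    (hX : X * X = 0) : (1 + X) * (1 + X) = 1 := by
  have e : (1 + X) * (1 + X) = 1 + (X + X) + X * X := by noncomm_ring
  rw [e, add_self_mat h2, hX, add_zero, add_zero]

/-- The maximal ideal of `A / m^N` is nilpotent. -/
theorem nilp_quot {A : Type} [CommRing A] [IsLocalRing A] (resA : A →+* ZMod 2) (N : ℕ)
    [IsLocalRing (A ⧸ maximalIdeal A ^ N)] (red : A ⧸ maximalIdeal A ^ N →+* ZMod 2)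
    (hred : ∀ a, red (Ideal.Quotient.mk _ a) = resA a) :
    maximalIdeal (A ⧸ maximalIdeal A ^ N) ^ N = ⊥ := by
  have h : maximalIdeal (A ⧸ maximalIdeal A ^ N) ≤
      (maximalIdeal A).map (Ideal.Quotient.mk (maximalIdeal A ^ N)) := by
    intro y hy
    obtain ⟨a, rfl⟩ := Ideal.Quotient.mk_surjective y
    rw [mem_max red, hred, ← mem_max resA] at hy
    exact Ideal.mem_map_of_mem _ hy
  rw [eq_bot_iff]
  calc _ ≤ ((maximalIdeal A).map (Ideal.Quotient.mk (maximalIdeal A ^ N))) ^ N :=
        Ideal.pow_right_mono h N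
    _ = ⊥ := by rw [← Ideal.map_pow, Ideal.map_quotient_self]

end ABSQN

open ABSQN in
theorem absq : J_ABSQ := by
  intro hRT G _ _ _ rbar Kr c hKr hc2 hc1 hHL hHT R ru hu
  have hru : ∀ g (i j : Fin 3), R.res ((ru g : Matrix (Fin 3) (Fin 3) R.A) i j) =
      (rbar g : Matrix (Fin 3) (Fin 3) (ZMod 2)) i j := fun g i j =>
    congrArg (fun y : GL (Fin 3) (ZMod 2) => (y : Matrix (Fin 3) (Fin 3) (ZMod 2)) i j) (hu.1.1 g)
  have hkres : ∀ a ∈ ida R ru Kr, R.res a = 0 := ida_kill (by decide) R.res (fun g hg => by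
    rw [hu.1.1 g, hKr g hg])
  have hne : ida R ru Kr ≠ ⊤ := by
    intro h
    have h1 := hkres 1 (by rw [h]; exact Submodule.mem_top)
    rw [map_one] at h1
    exact one_ne_zero h1
  -- the ring `A`
  have : Nontrivial (R.A ⧸ ida R ru Kr) := Ideal.Quotient.nontrivial_iff.mpr hne
  have : IsLocalRing (R.A ⧸ ida R ru Kr) :=
    IsLocalRing.of_surjective' (Ideal.Quotient.mk (ida R ru Kr)) Ideal.Quotient.mk_surjective
  have h2A : (2 : R.A ⧸ ida R ru Kr) = 0 := by
    have h1 : Ideal.Quotient.mk (ida R ru Kr) ((2 : ℕ) : R.A) = 0 :=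
      Ideal.Quotient.eq_zero_iff_mem.mpr (Ideal.subset_span (Or.inl rfl))
    rw [map_natCast] at h1
    exact_mod_cast h1
  have : CharP (R.A ⧸ ida R ru Kr) 2 := CharTwo.of_one_ne_zero_of_two_eq_zero one_ne_zero h2A
  let _ : Algebra (ZMod 2) (R.A ⧸ ida R ru Kr) := ZMod.algebra _ 2
  set A := R.A ⧸ ida R ru Kr with hA
  let resA : A →+* ZMod 2 := Ideal.Quotient.lift (ida R ru Kr) R.res hkres
  let ρA : G →* GL (Fin 3) A := (Matrix.GeneralLinearGroup.map (Ideal.Quotient.mk (ida R ru Kr))).comp ru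
  have hρA : ∀ g, Matrix.GeneralLinearGroup.map resA (ρA g) = rbar g := by
    intro g
    rw [← hu.1.1 g]
    rfl
  have hρAK : ∀ g ∈ Kr, ρA g = 1 := by
    intro g hg
    apply Units.ext
    ext1 i j
    have h3 : Ideal.Quotient.mk (ida R ru Kr) (((ru g : Matrix (Fin 3) (Fin 3) R.A) - 1) i j) = 0 :=
      Ideal.Quotient.eq_zero_iff_mem.mpr (Ideal.subset_span (Or.inr ⟨g, hg, i, j, rfl⟩))
    rw [Matrix.sub_apply, map_sub, sub_eq_zero] at h3
    show Ideal.Quotient.mk (ida R ru Kr) ((ru g : Matrix (Fin 3) (Fin 3) R.A) i j) =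
      (1 : Matrix (Fin 3) (Fin 3) A) i j
    rw [h3, Matrix.one_apply, Matrix.one_apply]
    split_ifs
    · rw [map_one]
    · rw [map_zero]
  have hmkm : ∀ a : R.A, a ∈ maximalIdeal R.A → Ideal.Quotient.mk (ida R ru Kr) a ∈ maximalIdeal A := by
    intro a ha
    rw [mem_max resA]
    exact (mem_max R.res a).mp ha
  have hdim : 5 ≤ ringKrullDim A := by
    obtain ⟨r, hr1, hr2, hr3, hr4⟩ := hHT
    -- the homomorphisms to the dual numbers
    have h2D : (2 : DualNumber (ZMod 2)) = 0 := by
      have : ((2 : ℕ) : DualNumber (ZMod 2)) = 0 := by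
        ext
        · rw [TrivSqZeroExt.fst_natCast, TrivSqZeroExt.fst_zero]; decide
        · rw [TrivSqZeroExt.snd_natCast, TrivSqZeroExt.snd_zero]
      exact_mod_cast this
    have : Finite (DualNumber (ZMod 2)) := inferInstanceAs (Finite (ZMod 2 × ZMod 2))
    obtain ⟨ND, hND⟩ := nilp (DualNumber (ZMod 2))
    choose f u hf hu1 hfr using fun i => exists_hom hu (DualNumber (ZMod 2)) h2D ND hND dfst (r i)
      (hr3 i) (hr1 i)
    have hfk : ∀ i, ∀ a ∈ ida R ru Kr, f i a = 0 := by
      intro i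
      refine ida_kill h2D (f i) fun g hg => ?_
      have h1 := hfr i g
      rw [hr2 i g hg] at h1
      exact conj_eq_one_iff.mp h1.symm
    refine hRT A ((ρA c : Matrix (Fin 3) (Fin 3) A) - 1)
      (fun i => Ideal.Quotient.lift (ida R ru Kr) (f i) (hfk i)) ?_ ?_ ?_ ?_ ?_
    · intro a
      rw [mem_max resA, mem_max resA, map_sub, map_one, sub_eq_zero]
      generalize resA a = z
      revert z
      decide
    · intro i j
      rw [mem_max resA]
      have h1 : resA ((ρA c : Matrix (Fin 3) (Fin 3) A) i j) =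
          (rbar c : Matrix (Fin 3) (Fin 3) (ZMod 2)) i j :=
        congrArg (fun y : GL (Fin 3) (ZMod 2) => (y : Matrix (Fin 3) (Fin 3) (ZMod 2)) i j) (hρA c)
      rw [Matrix.sub_apply, map_sub, h1, hc1, Units.val_one, Matrix.one_apply, Matrix.one_apply]
      split_ifs
      · rw [map_one, sub_self]
      · rw [map_zero, sub_self]
    · have hPP : (ρA c : Matrix (Fin 3) (Fin 3) A) * (ρA c : Matrix (Fin 3) (Fin 3) A) = 1 := by
        rw [← Units.val_mul, ← map_mul, ← pow_two, hc2, map_one, Units.val_one]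
      have e : ((ρA c : Matrix (Fin 3) (Fin 3) A) - 1) * ((ρA c : Matrix (Fin 3) (Fin 3) A) - 1) =
          (ρA c : Matrix (Fin 3) (Fin 3) A) * (ρA c : Matrix (Fin 3) (Fin 3) A) + 1 -
            ((ρA c : Matrix (Fin 3) (Fin 3) A) + (ρA c : Matrix (Fin 3) (Fin 3) A)) :=
        sq_aux _
      rw [e, hPP, add_self_mat h2A, add_self_mat h2A, sub_zero]
    · -- the lifting property
      intro N B _ q hN hfin hloc h2B hq hcard X hX hXX
      have hlt : maximalIdeal A ^ N ≤ maximalIdeal A := Ideal.pow_le_self (by omega)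
      have hnt : Nontrivial (A ⧸ maximalIdeal A ^ N) := Ideal.Quotient.nontrivial_iff.mpr fun h =>
        (Ideal.IsPrime.ne_top (maximalIdeal.isMaximal A).isPrime) (top_le_iff.mp (h ▸ hlt))
      have hlocA : IsLocalRing (A ⧸ maximalIdeal A ^ N) :=
        IsLocalRing.of_surjective' (Ideal.Quotient.mk (maximalIdeal A ^ N))
          Ideal.Quotient.mk_surjective
      let redA : A ⧸ maximalIdeal A ^ N →+* ZMod 2 :=
        Ideal.Quotient.lift (maximalIdeal A ^ N) resA fun a ha => (mem_max resA a).mp (hlt ha)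
      have hredA : ∀ a, redA (Ideal.Quotient.mk _ a) = resA a := fun a => rfl
      have hNA := nilp_quot resA N redA hredA
      have h2A' : (2 : A ⧸ maximalIdeal A ^ N) = 0 := by
        have h1 := congrArg (Ideal.Quotient.mk (maximalIdeal A ^ N)) h2A
        rw [map_ofNat, map_zero] at h1
        exact h1
      let rA : G →* GL (Fin 3) (A ⧸ maximalIdeal A ^ N) :=
        (Matrix.GeneralLinearGroup.map (Ideal.Quotient.mk (maximalIdeal A ^ N))).comp ρA
      have hrA : ∀ g, Matrix.GeneralLinearGroup.map redA (rA g) = rbar g := by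
        intro g
        rw [← hρA g]
        rfl
      have hrAK : ∀ g ∈ Kr, rA g = 1 := by
        intro g hg
        show Matrix.GeneralLinearGroup.map (Ideal.Quotient.mk (maximalIdeal A ^ N)) (ρA g) = 1
        rw [hρAK g hg, map_one]
      have hmkN : ∀ a : R.A, a ∈ maximalIdeal R.A ^ N →
          Ideal.Quotient.mk (ida R ru Kr) a ∈ maximalIdeal A ^ N := by
        intro a ha
        have h1 : (maximalIdeal R.A).map (Ideal.Quotient.mk (ida R ru Kr)) ≤ maximalIdeal A :=
          Ideal.map_le_iff_le_comap.mpr fun x hx => hmkm x hx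
        have h3 := Ideal.mem_map_of_mem (Ideal.Quotient.mk (ida R ru Kr)) ha
        rw [Ideal.map_pow] at h3
        exact Ideal.pow_right_mono h1 N h3
      have hopenA : IsOpen ((rA.ker : Subgroup G) : Set G) := by
        have ho := hu.1.2 N
        refine Subgroup.isOpen_of_mem_nhds _ (g := 1) (Filter.mem_of_superset (ho.mem_nhds ?_) ?_)
        · intro a b
          rw [map_one, Units.val_one, sub_self, Matrix.zero_apply]
          exact zero_mem _
        · intro g hg
          show rA g = 1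
          apply Units.ext
          ext1 i j
          have h3 : Ideal.Quotient.mk (maximalIdeal A ^ N) (Ideal.Quotient.mk (ida R ru Kr)
              (((ru g : Matrix (Fin 3) (Fin 3) R.A) - 1) i j)) = 0 :=
            Ideal.Quotient.eq_zero_iff_mem.mpr (hmkN _ (hg i j))
          rw [Matrix.sub_apply, map_sub, map_sub, sub_eq_zero] at h3
          show Ideal.Quotient.mk (maximalIdeal A ^ N) (Ideal.Quotient.mk (ida R ru Kr)
            ((ru g : Matrix (Fin 3) (Fin 3) R.A) i j)) =
              (1 : Matrix (Fin 3) (Fin 3) (A ⧸ maximalIdeal A ^ N)) i j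
          rw [h3, Matrix.one_apply, Matrix.one_apply]
          split_ifs
          · rw [map_one, map_one]
          · rw [map_zero, map_zero]
      let x : GL (Fin 3) B := ⟨1 + X, 1 + X, sq_aux2 h2B X hXX, sq_aux2 h2B X hXX⟩
      have hx2 : x ^ 2 = 1 := by
        rw [pow_two]
        apply Units.ext
        exact sq_aux2 h2B X hXX
      have hqx : Matrix.GeneralLinearGroup.map q x = rA c := by
        apply Units.ext
        ext1 i j
        have h3 := congrFun (congrFun hX i) j
        rw [Matrix.map_apply, Matrix.map_apply, Matrix.sub_apply, map_sub] at h3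
        show q ((1 + X) i j) = Ideal.Quotient.mk (maximalIdeal A ^ N)
          ((ρA c : Matrix (Fin 3) (Fin 3) A) i j)
        rw [Matrix.add_apply, map_add, h3, Matrix.one_apply, Matrix.one_apply]
        split_ifs
        · rw [map_one, map_one]; ring
        · rw [map_zero, map_zero]; ring
      obtain ⟨rB, hopenB, hKB, hqB⟩ := hHL (A ⧸ maximalIdeal A ^ N) B redA q rA x hfin hloc h2B hq
        hcard hnt hopenA hrA hrAK hqx hx2
      obtain ⟨NB, hNB⟩ := nilp B
      obtain ⟨f', u', hf', hu1', hfr'⟩ := exists_hom hu B h2B NB hNB (redA.comp q) rB (fun g => by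
        have e : Matrix.GeneralLinearGroup.map (redA.comp q) (rB g) =
            Matrix.GeneralLinearGroup.map redA (Matrix.GeneralLinearGroup.map q (rB g)) := rfl
        rw [e, hqB, hrA]) hopenB
      have hfk' : ∀ a ∈ ida R ru Kr, f' a = 0 := by
        refine ida_kill h2B f' fun g hg => ?_
        have h1 := hfr' g
        rw [hKB g hg] at h1
        exact conj_eq_one_iff.mp h1.symm
      refine ⟨Ideal.Quotient.lift (ida R ru Kr) f' hfk', ?_⟩
      have huniq := uniq_hom hu (A ⧸ maximalIdeal A ^ N) h2A' N hNA redA rA hrA hopenA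
        (q.comp f') ((Ideal.Quotient.mk (maximalIdeal A ^ N)).comp (Ideal.Quotient.mk (ida R ru Kr)))
        (Matrix.GeneralLinearGroup.map q u') 1 (fun y => hf' y) (fun y => rfl) hu1' (map_one _)
        (fun g => by
          rw [← hqB g, hfr' g, map_mul, map_mul, map_inv]
          rfl)
        (fun g => by
          rw [one_mul, inv_one, mul_one]
          rfl)
      refine RingHom.ext fun a => ?_
      obtain ⟨y, rfl⟩ := Ideal.Quotient.mk_surjective a
      exact congrArg (fun F : R.A →+* A ⧸ maximalIdeal A ^ N => F y) huniq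
    · -- injectivity
      intro i j hij
      by_contra hne'
      obtain ⟨g, hg1, hg2⟩ := hr4 i j hne'
      apply hg2
      have hfij : f i = f j := by
        refine RingHom.ext fun x => ?_
        exact congrArg (fun F : A →+* DualNumber (ZMod 2) =>
          F (Ideal.Quotient.mk (ida R ru Kr) x)) hij
      have h1 := hfr i g
      have h2 := hfr j g
      rw [← hfij] at h2
      -- `r j g = w * r i g * w⁻¹`
      have h3 : r j g = (u j * (u i)⁻¹) * r i g * (u j * (u i)⁻¹)⁻¹ := by
        rw [h2, h1]; group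
      have hw : Matrix.GeneralLinearGroup.map dfst (u j * (u i)⁻¹) = 1 := by
        rw [map_mul, map_inv, hu1, hu1, inv_one, mul_one]
      have hrg : Matrix.GeneralLinearGroup.map dfst (r i g) = 1 := by rw [hr3, hg1]
      have hcomm : (u j * (u i)⁻¹) * r i g = r i g * (u j * (u i)⁻¹) := by
        apply Units.ext
        exact comm_eps _ _ (congrArg Units.val hw) (congrArg Units.val hrg)
      rw [h3, hcomm, mul_assoc, mul_inv_cancel, mul_one]
  refine hdim.trans (ringKrullDim_le_of_surjective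
    (Ideal.Quotient.factor (S := Ideal.span {((2 : ℕ) : R.A)}) (T := ida R ru Kr) ?_) ?_)
  · rw [Ideal.span_singleton_le_iff_mem]
    exact Ideal.subset_span (Or.inl rfl)
  · exact Ideal.Quotient.factor_surjective _

end Pool.Agent.H429.MZQ
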