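import Pool.Agent.H429.MZQ.StmF

/-! # Job AIQ (helper370): absolute irreducibility -/

set_option autoImplicit false

namespace Pool.Agent.H429.MZQ

open Pool.Agent.Q5.MZ (matA matB)

namespace AIQN

variable {K : Type} [Field K] [Algebra (ZMod 2) K]

/-- the matrix preserves the subspace -/
def Pres (V : Submodule K (Fin 3 → K)) (M : Matrix (Fin 3) (Fin 3) (ZMod 2)) : Prop :=
  ∀ x ∈ V, (M.map (algebraMap (ZMod 2) K)).mulVec x ∈ V

theorem Pres.one (V : Submodule K (Fin 3 → K)) : Pres V 1 := by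
  intro x hx
  rw [Matrix.map_one _ (map_zero _) (map_one _), Matrix.one_mulVec]
  exact hx

theorem Pres.add {V : Submodule K (Fin 3 → K)} {M N : Matrix (Fin 3) (Fin 3) (ZMod 2)}
    (hM : Pres V M) (hN : Pres V N) : Pres V (M + N) := by
  intro x hx
  rw [Matrix.map_add _ (map_add _), Matrix.add_mulVec]
  exact V.add_mem (hM x hx) (hN x hx)

theorem Pres.mul {V : Submodule K (Fin 3 → K)} {M N : Matrix (Fin 3) (Fin 3) (ZMod 2)}
    (hM : Pres V M) (hN : Pres V N) : Pres V (M * N) := by
  intro x hx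
  rw [Matrix.map_mul, ← Matrix.mulVec_mulVec]
  exact hM _ (hN x hx)

theorem e00 : (!![1, 0, 0; 0, 0, 0; 0, 0, 0] : Matrix (Fin 3) (Fin 3) (ZMod 2)) =
    1 + matB + matB * matB := by decide

theorem e01 : (!![0, 1, 0; 0, 0, 0; 0, 0, 0] : Matrix (Fin 3) (Fin 3) (ZMod 2)) =
    matA * matA + matA * matB + matB * matA + matA * matB * matB := by decide

theorem e02 : (!![0, 0, 1; 0, 0, 0; 0, 0, 0] : Matrix (Fin 3) (Fin 3) (ZMod 2)) =
    matA + matB * matA + matA * matB * matB + matB * matA * matB := by decide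

theorem top_of (V : Submodule K (Fin 3 → K)) (hA : Pres V matA) (hB : Pres V matB)
    (hV : V ≠ ⊥) : V = ⊤ := by
  obtain ⟨x, hx, hx0⟩ := Submodule.exists_mem_ne_zero_of_ne_bot hV
  have h00 : Pres V !![1, 0, 0; 0, 0, 0; 0, 0, 0] := by
    rw [e00]
    exact ((Pres.one V).add hB).add (hB.mul hB)
  have h01 : Pres V !![0, 1, 0; 0, 0, 0; 0, 0, 0] := by
    rw [e01]
    exact (((hA.mul hA).add (hA.mul hB)).add (hB.mul hA)).add ((hA.mul hB).mul hB)
  have h02 : Pres V !![0, 0, 1; 0, 0, 0; 0, 0, 0] := by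
    rw [e02]
    exact ((hA.add (hB.mul hA)).add ((hA.mul hB).mul hB)).add ((hB.mul hA).mul hB)
  have hj : ∀ j : Fin 3, (fun i : Fin 3 => if i = 0 then x j else 0) ∈ V := by
    intro j
    fin_cases j
    · have h := h00 x hx
      have e : ((!![1, 0, 0; 0, 0, 0; 0, 0, 0] : Matrix (Fin 3) (Fin 3) (ZMod 2)).map
          (algebraMap (ZMod 2) K)).mulVec x = fun i : Fin 3 => if i = 0 then x 0 else 0 := by
        funext i
        fin_cases i <;> simp [Matrix.mulVec, dotProduct, Fin.sum_univ_three]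
      rw [e] at h
      exact h
    · have h := h01 x hx
      have e : ((!![0, 1, 0; 0, 0, 0; 0, 0, 0] : Matrix (Fin 3) (Fin 3) (ZMod 2)).map
          (algebraMap (ZMod 2) K)).mulVec x = fun i : Fin 3 => if i = 0 then x 1 else 0 := by
        funext i
        fin_cases i <;> simp [Matrix.mulVec, dotProduct, Fin.sum_univ_three]
      rw [e] at h
      exact h
    · have h := h02 x hx
      have e : ((!![0, 0, 1; 0, 0, 0; 0, 0, 0] : Matrix (Fin 3) (Fin 3) (ZMod 2)).map
          (algebraMap (ZMod 2) K)).mulVec x = fun i : Fin 3 => if i = 0 then x 2 else 0 := by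
        funext i
        fin_cases i <;> simp [Matrix.mulVec, dotProduct, Fin.sum_univ_three]
      rw [e] at h
      exact h
  obtain ⟨j, hj0⟩ : ∃ j, x j ≠ 0 := by
    by_contra hcon
    push Not at hcon
    exact hx0 (funext hcon)
  have f0 : (Pi.single 0 1 : Fin 3 → K) ∈ V := by
    have h := V.smul_mem (x j)⁻¹ (hj j)
    have e : (x j)⁻¹ • (fun i : Fin 3 => if i = 0 then x j else 0) = (Pi.single 0 1 : Fin 3 → K) := by
      funext i
      fin_cases i <;> simp [hj0]
    rw [e] at h
    exact h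
  have f1 : (Pi.single 1 1 : Fin 3 → K) ∈ V := by
    have h := hA _ f0
    have e : (matA.map (algebraMap (ZMod 2) K)).mulVec (Pi.single 0 1) =
        (Pi.single 1 1 : Fin 3 → K) := by
      funext i
      fin_cases i <;> simp [matA, Matrix.mulVec, dotProduct, Fin.sum_univ_three]
    rw [e] at h
    exact h
  have f2 : (Pi.single 2 1 : Fin 3 → K) ∈ V := by
    have h := hA _ f1
    have e : (matA.map (algebraMap (ZMod 2) K)).mulVec (Pi.single 1 1) =
        (Pi.single 2 1 : Fin 3 → K) := by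
      funext i
      fin_cases i <;> simp [matA, Matrix.mulVec, dotProduct, Fin.sum_univ_three]
    rw [e] at h
    exact h
  rw [eq_top_iff]
  intro y _
  have hy : y = y 0 • (Pi.single 0 1 : Fin 3 → K) + y 1 • (Pi.single 1 1 : Fin 3 → K) +
      y 2 • (Pi.single 2 1 : Fin 3 → K) := by
    funext i
    fin_cases i <;> simp
  rw [hy]
  exact V.add_mem (V.add_mem (V.smul_mem _ f0) (V.smul_mem _ f1)) (V.smul_mem _ f2)

end AIQN

theorem aiq : S_AIQ := by
  intro G _ ρ hA hB V hV
  obtain ⟨a, ha⟩ := hA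
  obtain ⟨b, hb⟩ := hB
  by_cases hbot : V = ⊥
  · exact Or.inl hbot
  · refine Or.inr (AIQN.top_of V ?_ ?_ hbot)
    · intro x hx
      have := hV a x hx
      rw [ha] at this
      exact this
    · intro x hx
      have := hV b x hx
      rw [hb] at this
      exact this

end Pool.Agent.H429.MZQ
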