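import Pool.Graph.R_pool_sql_team_seeded_3997aac3.Q5.MZ.Stm
import Pool.Graph.R_pool_sql_team_seeded_3997aac3.Q238.MZ.Inr
import Pool.Graph.R_pool_sql_team_seeded_3997aac3.Q225.AR.Q1
import Pool.Graph.R_pool_sql_team_seeded_3997aac3.Q225.AR.FR

/-!
# Project MZ, job AL: cocycles for unramified `2`-extensions split (helper280)
-/

set_option autoImplicit false
set_option linter.unusedSectionVars false

namespace Pool.Agent.H429.MZQ

open NumberField IsDedekindDomain Module
open Pool.Agent.Q92.AR (Dv prin nu Unramified)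
open Pool.Agent.Q5.MZ

namespace ALN

/-- unramified in `L`, hence in a subfield -/
lemma unr_bot {k E L : Type} [Field k] [NumberField k] [Field E] [NumberField E] [Field L]
    [NumberField L] [Algebra k E] [Algebra k L] [Algebra E L] [IsScalarTower k E L]
    {v : HeightOneSpectrum (𝓞 k)} (h : Unramified L v) : Unramified E v := by
  intro w hw hle
  obtain ⟨P, hP⟩ := Pool.Agent.Q225.AR.exists_above (E := L) w
  refine h P ?_ ?_
  · rw [← Pool.Agent.Q238.MZ.under_under (L := E) P, hP, hw]
  · rw [IsScalarTower.algebraMap_eq (𝓞 k) (𝓞 E) (𝓞 L), ← Ideal.map_map]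
    refine (Ideal.map_mono hle).trans ?_
    rw [Ideal.map_pow]
    refine Ideal.pow_right_mono ?_ 2
    rw [Ideal.map_le_iff_le_comap]
    have h1 : (P.under (𝓞 E)).asIdeal = w.asIdeal := by rw [hP]
    exact h1.symm.le

/-- the norm of a quadratic extension -/
lemma norm_two {k E L : Type} [Field k] [Field E] [Field L] [Algebra k E] [Algebra k L]
    [Algebra E L] [IsScalarTower k E L] [FiniteDimensional k E] [IsGalois k E]
    (h2 : finrank k E = 2) (g : L ≃ₐ[k] L) (hg : ¬ TrivOn E g) (y : E) :
    algebraMap k L (Algebra.norm k y) = algebraMap E L y * g (algebraMap E L y) := by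
  classical
  obtain ⟨s, hs⟩ : ∃ s : E ≃ₐ[k] E, s = g.restrictNormal E := ⟨_, rfl⟩
  have hs1 : s ≠ 1 := by
    intro h
    apply hg
    intro e
    rw [← AlgEquiv.restrictNormal_commutes, ← hs, h, AlgEquiv.one_apply]
  have hcard : Fintype.card (E ≃ₐ[k] E) = 2 := by
    rw [← Nat.card_eq_fintype_card, IsGalois.card_aut_eq_finrank, h2]
  have huniv : (Finset.univ : Finset (E ≃ₐ[k] E)) = {1, s} := by
    symm
    apply Finset.eq_univ_of_card
    rw [Finset.card_pair hs1.symm, hcard]
  rw [IsScalarTower.algebraMap_apply k E L, Algebra.norm_eq_prod_automorphisms, huniv,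
    Finset.prod_pair hs1.symm, map_mul, AlgEquiv.one_apply, hs, AlgEquiv.restrictNormal_commutes]

/-- from an element which is a norm to a splitting -/
lemma split_of_norm {k E L : Type} [Field k] [NumberField k] [Field E] [NumberField E] [Field L]
    [NumberField L] [Algebra k E] [Algebra k L] [Algebra E L] [IsScalarTower k E L]
    [IsGalois k E] [IsGalois k L] (h2 : finrank k E = 2)
    (c : (L ≃ₐ[k] L) → (L ≃ₐ[k] L) → ℤˣ) (x : kˣ) (b : (L ≃ₐ[k] L) → Lˣ) (hrel : Rel E c x b)
    (y : Eˣ) (hy : nu k E y = x) : SplitsIn c := by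
  classical
  obtain ⟨Y, hY⟩ : ∃ Y : Lˣ, Y = Units.map (algebraMap E L : E →* L) y := ⟨_, rfl⟩
  have hYv : (Y : L) = algebraMap E L (y : E) := by rw [hY]; rfl
  have hY0 : (Y : L) ≠ 0 := Y.ne_zero
  have hgY : ∀ g : L ≃ₐ[k] L, g (Y : L) ≠ 0 := fun g => by
    rw [Ne, map_eq_zero_iff g g.injective]
    exact hY0
  have htriv : ∀ g : L ≃ₐ[k] L, TrivOn E g → g (Y : L) = Y := fun g hg => by
    rw [hYv]
    exact hg _
  -- the products
  have hmul : ∀ g h : L ≃ₐ[k] L, TrivOn E g → (TrivOn E (g * h) ↔ TrivOn E h) := by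
    intro g h hg
    constructor
    · intro h1 e
      have h3 : g (h (algebraMap E L e)) = algebraMap E L e := h1 e
      exact g.injective (h3.trans (hg e).symm)
    · intro h1 e
      change g (h (algebraMap E L e)) = algebraMap E L e
      rw [h1 e, hg e]
  have hmul' : ∀ g h : L ≃ₐ[k] L, TrivOn E h → (TrivOn E (g * h) ↔ TrivOn E g) := by
    intro g h hh
    constructor
    · intro h1 e
      have h3 : g (h (algebraMap E L e)) = algebraMap E L e := h1 e
      rw [hh e] at h3
      exact h3
    · intro h1 e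
      change g (h (algebraMap E L e)) = algebraMap E L e
      rw [hh e, h1 e]
  have hnorm : ∀ g : L ≃ₐ[k] L, ¬ TrivOn E g → algebraMap k L (x : k) = Y * g (Y : L) := by
    intro g hg
    have h1 := norm_two h2 g hg (y : E)
    rw [← hYv] at h1
    rw [← h1, ← hy]
    rfl
  have hboth : ∀ g h : L ≃ₐ[k] L, ¬ TrivOn E g → ¬ TrivOn E h → TrivOn E (g * h) := by
    intro g h hg hh
    obtain ⟨s, hs⟩ : ∃ s : E ≃ₐ[k] E, s = g.restrictNormal E := ⟨_, rfl⟩
    obtain ⟨t, ht⟩ : ∃ t : E ≃ₐ[k] E, t = h.restrictNormal E := ⟨_, rfl⟩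
    have hcard : Nat.card (E ≃ₐ[k] E) = 2 := by
      rw [IsGalois.card_aut_eq_finrank, h2]
    have hs1 : s ≠ 1 := by
      intro h'
      apply hg
      intro e
      rw [← AlgEquiv.restrictNormal_commutes, ← hs, h', AlgEquiv.one_apply]
    have ht1 : t ≠ 1 := by
      intro h'
      apply hh
      intro e
      rw [← AlgEquiv.restrictNormal_commutes, ← ht, h', AlgEquiv.one_apply]
    have hst : s * t = 1 := by
      have h3 : ∀ u v : E ≃ₐ[k] E, u ≠ 1 → v ≠ 1 → u = v := by
        intro u v hu hv
        by_contra huv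
        have h4 : ({1, u, v} : Finset (E ≃ₐ[k] E)).card ≤ 2 := by
          rw [← hcard, Nat.card_eq_fintype_card]
          exact Finset.card_le_univ _
        rw [Finset.card_insert_of_notMem (by
          rw [Finset.mem_insert, Finset.mem_singleton]
          rintro (h5 | h5)
          · exact hu h5.symm
          · exact hv h5.symm), Finset.card_pair huv] at h4
        omega
      have h4 : s * s = 1 := by
        by_contra h5
        have h6 := h3 (s * s) s h5 hs1
        exact hs1 (mul_eq_left.1 h6)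
      rw [← h3 s t hs1 ht1]
      exact h4
    intro e
    change g (h (algebraMap E L e)) = algebraMap E L e
    rw [← AlgEquiv.restrictNormal_commutes, ← ht, ← AlgEquiv.restrictNormal_commutes, ← hs]
    have h5 : s (t e) = (s * t) e := rfl
    rw [h5, hst, AlgEquiv.one_apply]
  refine ⟨fun g => if TrivOn E g then b g else b g * Y⁻¹, fun g h => ?_⟩
  have hr := hrel g h
  beta_reduce
  by_cases hg : TrivOn E g
  · by_cases hh : TrivOn E h
    · have hgh : TrivOn E (g * h) := (hmul g h hg).2 hh
      rw [if_pos (Or.inl hg), mul_one] at hr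
      rw [if_pos hg, if_pos hh, if_pos hgh]
      exact hr
    · have hgh : ¬ TrivOn E (g * h) := fun h' => hh ((hmul g h hg).1 h')
      rw [if_pos (Or.inl hg), mul_one] at hr
      rw [if_pos hg, if_neg hh, if_neg hgh]
      push_cast
      rw [map_mul, map_inv₀, htriv g hg]
      linear_combination (Y : L)⁻¹ * hr
  · by_cases hh : TrivOn E h
    · have hgh : ¬ TrivOn E (g * h) := fun h' => hg ((hmul' g h hh).1 h')
      rw [if_pos (Or.inr hh), mul_one] at hr
      rw [if_neg hg, if_pos hh, if_neg hgh]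
      push_cast
      linear_combination (Y : L)⁻¹ * hr
    · have hgh : TrivOn E (g * h) := hboth g h hg hh
      rw [if_neg (by tauto)] at hr
      rw [if_neg hg, if_neg hh, if_pos hgh]
      push_cast
      rw [map_mul, map_inv₀]
      rw [hnorm g hg] at hr
      have h0 := hgY g
      field_simp
      linear_combination hr

/-- the induction -/
lemma al_aux (hLF : S_LF) (hLE : S_LE) (hQS : S_QS) (hVE : S_VE) (hRP : S_RP) (m : ℕ) :
    ∀ (k L : Type) [Field k] [NumberField k] [Field L]
      [NumberField L] [Algebra k L] [IsGalois k L] (c : (L ≃ₐ[k] L) → (L ≃ₐ[k] L) → ℤˣ),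
      finrank k L = 2 ^ m →
      (∀ v : HeightOneSpectrum (𝓞 k), Unramified L v) → Coc c → RealTriv c → SplitsIn c := by
  induction m with
  | zero =>
    intro k L _ _ _ _ _ _ c hm _ hc _
    have h1 : Nat.card (L ≃ₐ[k] L) = 1 := by
      rw [IsGalois.card_aut_eq_finrank, hm, pow_zero]
    have h2 : ∀ g : L ≃ₐ[k] L, g = 1 := by
      intro g
      have := (Nat.card_eq_one_iff_unique.1 h1).1
      exact Subsingleton.elim _ _
    refine ⟨fun _ => 1, fun g h => ?_⟩
    rw [h2 g, h2 h, hc.one]
    simp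
  | succ m ih =>
    intro k L _ _ _ _ _ _ c hm hur hc hreal
    have hcard : Nat.card (L ≃ₐ[k] L) = 2 ^ (m + 1) := by
      rw [IsGalois.card_aut_eq_finrank, hm]
    haveI : Fact (Nat.Prime 2) := ⟨Nat.prime_two⟩
    obtain ⟨H, hH⟩ := Sylow.exists_subgroup_card_pow_prime (G := L ≃ₐ[k] L) 2 (n := m) (by
      rw [hcard]
      exact pow_dvd_pow 2 (Nat.le_succ m))
    have hidx : H.index = 2 := by
      have h1 := H.card_mul_index
      rw [hH, hcard, pow_succ] at h1
      exact Nat.eq_of_mul_eq_mul_left (by positivity) h1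
    have hnorm : H.Normal := Subgroup.normal_of_index_eq_two hidx
    obtain ⟨E, hE⟩ : ∃ E : IntermediateField k L, E = IntermediateField.fixedField H := ⟨_, rfl⟩
    have hEL : finrank E L = 2 ^ m := by
      rw [hE, IntermediateField.finrank_fixedField_eq_card, hH]
    have hkE : finrank k E = 2 := by
      have h1 := Module.finrank_mul_finrank k E L
      rw [hEL, hm, pow_succ, mul_comm] at h1
      exact Nat.eq_of_mul_eq_mul_left (by positivity) h1
    have : IsGalois k E := by
      rw [hE]
      infer_instance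
    have : NumberField E := NumberField.of_intermediateField E
    -- induction hypothesis
    have hur' : ∀ v : HeightOneSpectrum (𝓞 E), Unramified L v := fun v =>
      Pool.Agent.Q225.AR.fr.2.2.1 k E L v (hur _)
    have h1 := ih E L (fun g h => c (g.restrictScalars k) (h.restrictScalars k)) hEL hur'
      ⟨hc.one, fun g h j => hc.coc _ _ _⟩ (fun σ hσ => hreal _ hσ)
    obtain ⟨x, b, hrel⟩ := hQS k E L c hkE hc h1
    have hLoc : ∀ v : HeightOneSpectrum (𝓞 k), LocN E v x := fun v =>
      hLE k E v x hkE (unr_bot (hur v)) (fun hns => hVE k E L c x b v hkE hrel (hur v) hns)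
    have hpos : PosRam E x := hRP k E L c x b hc hreal hrel
    obtain ⟨w⟩ : Nonempty (HeightOneSpectrum (𝓞 k)) := by
      obtain ⟨P, hP, hPm⟩ := Ring.not_isField_iff_exists_prime.1 (RingOfIntegers.not_isField k)
      exact ⟨⟨P, hPm, hP⟩⟩
    obtain ⟨y, hy⟩ := hLF k E w x hkE (fun v _ => hLoc v) hpos
    exact split_of_norm hkE c x b hrel y hy

end ALN

theorem al : Pool.Agent.Q5.MZ.J_AL := by
  intro hLF hLE hQS hVE hRP k L _ _ _ _ _ _ c hm hur hc hreal
  obtain ⟨m, hm⟩ := hm
  exact ALN.al_aux hLF hLE hQS hVE hRP m k L c hm hur hc hreal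

end Pool.Agent.H429.MZQ
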