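import Pool.Graph.R_pool_sql_team_seeded_3997aac3.Q5.MZ.Stm
import Pool.Graph.R_pool_sql_team_seeded_3997aac3.Q238.MZ.Inr
import Pool.Graph.R_pool_sql_team_seeded_3997aac3.Q285.MZ.LE
import Pool.Graph.R_pool_sql_team_seeded_3997aac3.Q285.MZ.VE

/-!
# Project MZ, job BE: cocycles that are trivial at the real places split, one dyadic prime
-/

set_option autoImplicit false
set_option linter.unusedSectionVars false

namespace Pool.Agent.H429.MZQ

open NumberField IsDedekindDomain Module
open Pool.Agent.Q92.AR (Dv prin Pr Ray RayD art nmD nu up puD Cong Pos frob IsFrobenius Unramified Ram)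
open Pool.Agent.TeamU (act Over val_act mem_act act_mul act_one)
open Pool.Agent.Q5.MZ
open Pool.Agent.Q238.MZ (InrAt inr_trivial unr_of_inr inr_res)
open Pool.Agent.Q285.MZ (split_of TSub TSub_index mem_TSub under_under over_of_under ex_above)

namespace BEN

section
variable {k L : Type} [Field k] [NumberField k] [Field L] [NumberField L] [Algebra k L]

/-- inertia elements are in the decomposition group -/
theorem act_of_inr {P : HeightOneSpectrum (𝓞 L)} {g : L ≃ₐ[k] L} (hg : InrAt P g) :
    act g P = P := by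
  have h1 : P.asIdeal ≤ (act g⁻¹ P).asIdeal := by
    intro x hx
    rw [mem_act]
    obtain ⟨y, hy, hyx⟩ := hg x
    have h4 : y + x ∈ P.asIdeal := P.asIdeal.add_mem hy hx
    have h6 : (RingOfIntegers.mapRingEquiv (g⁻¹ : L ≃ₐ[k] L).toRingEquiv).symm x = y + x := by
      apply RingOfIntegers.ext
      have h7 : ((y + x : 𝓞 L) : L) = (y : L) + (x : L) := map_add (algebraMap (𝓞 L) L) y x
      rw [h7, hyx, sub_add_cancel]
      rfl
    rw [h6]
    exact h4
  have h2 : P.asIdeal = (act g⁻¹ P).asIdeal :=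
    P.isMaximal.eq_of_le (act g⁻¹ P).isPrime.ne_top h1
  have h3 : act g⁻¹ P = P := (HeightOneSpectrum.ext h2).symm
  conv_lhs => rw [← h3]
  rw [← act_mul, mul_inv_cancel, act_one]

theorem unr_of_split [IsGalois k L] {v : HeightOneSpectrum (𝓞 k)}
    (h : Pool.Agent.Q20.EX.Split L v) : Unramified L v :=
  unr_of_inr fun P g hP hg => h P hP g (act_of_inr hg)

theorem unr_of_dec [IsGalois k L] {P : HeightOneSpectrum (𝓞 L)}
    (h : ∀ g ∈ Dec k P, g = 1) : Unramified L (P.under (𝓞 k)) := by
  refine unr_of_inr fun P' g hP' hg => ?_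
  obtain ⟨τ, hτ⟩ := Pool.Agent.TeamU.exists_act (over_of_under (rfl : P.under (𝓞 k) = _))
    (over_of_under hP')
  have h1 := act_of_inr hg
  have h2 : (τ⁻¹ * g * τ) ∈ Dec k P := by
    change act (τ⁻¹ * g * τ) P = P
    rw [act_mul, act_mul, hτ, h1, ← hτ, ← act_mul, inv_mul_cancel, act_one]
  have h3 := h _ h2
  have h4 : g = τ * (τ⁻¹ * g * τ) * τ⁻¹ := by group
  rw [h4, h3, mul_one, mul_inv_cancel]

end

section
variable {k F M : Type} [Field k] [NumberField k] [Field F] [NumberField F] [Field M]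
  [NumberField M] [Algebra k F] [Algebra k M] [Algebra F M] [IsScalarTower k F M]

theorem norm_eq [IsGalois k F] [IsGalois k M] (h2 : finrank k F = 2) (y : Fˣ) {g : M ≃ₐ[k] M}
    (hg : ¬ TrivOn F g) : algebraMap F M (y : F) * g (algebraMap F M (y : F)) =
      algebraMap k M ((nu k F y : kˣ) : k) := by
  classical
  have hcard : Nat.card (F ≃ₐ[k] F) = 2 := by rw [IsGalois.card_aut_eq_finrank, h2]
  have huniq := (Nat.card_eq_two_iff' (1 : F ≃ₐ[k] F)).1 hcard
  have hne : g.restrictNormal F ≠ 1 := by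
    intro h
    apply hg
    intro e
    rw [← AlgEquiv.restrictNormal_commutes, h, AlgEquiv.one_apply]
  have h1 : algebraMap k F ((nu k F y : kˣ) : k) = ∏ σ : F ≃ₐ[k] F, σ (y : F) :=
    Algebra.norm_eq_prod_automorphisms k (y : F)
  have h3 : ∏ σ : F ≃ₐ[k] F, σ (y : F) = (1 : F ≃ₐ[k] F) (y : F) * (g.restrictNormal F) (y : F) := by
    refine Finset.prod_eq_mul (1 : F ≃ₐ[k] F) (g.restrictNormal F) hne.symm ?_ ?_ ?_
    · rintro c - ⟨hc1, hc2⟩
      exact absurd (huniq.unique hc1 hne) hc2
    · intro h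
      exact absurd (Finset.mem_univ _) h
    · intro h
      exact absurd (Finset.mem_univ _) h
  rw [IsScalarTower.algebraMap_apply k F M, h1, h3, map_mul, AlgEquiv.one_apply,
    AlgEquiv.restrictNormal_commutes]

/-- dividing by an element of norm `x` -/
theorem split_of_norm [IsGalois k F] [IsGalois k M] (h2 : finrank k F = 2)
    (c : (M ≃ₐ[k] M) → (M ≃ₐ[k] M) → ℤˣ) (x : kˣ) (b : (M ≃ₐ[k] M) → Mˣ) (hrel : Rel F c x b)
    (y : Fˣ) (hy : nu k F y = x) : SplitsIn c := by
  classical
  have hmem : ∀ {a b : M ≃ₐ[k] M}, a * b ∈ TSub k F M ↔ (a ∈ TSub k F M ↔ b ∈ TSub k F M) :=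
    Subgroup.mul_mem_iff_of_index_two (TSub_index h2)
  have hy0 : algebraMap F M (y : F) ≠ 0 := by
    rw [Ne, map_eq_zero]
    exact y.ne_zero
  refine ⟨fun g => if TrivOn F g then b g else b g / Units.map (algebraMap F M : F →* M) y, ?_⟩
  intro g h
  have hr := hrel g h
  have hN : ∀ {g : M ≃ₐ[k] M}, ¬ TrivOn F g →
      algebraMap F M (y : F) * g (algebraMap F M (y : F)) = algebraMap k M (x : k) := by
    intro g hg
    rw [← hy]
    exact norm_eq h2 y hg
  by_cases hg : TrivOn F g
  · by_cases hh : TrivOn F h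
    · have hgh : TrivOn F (g * h) := hmem.2 ⟨fun _ => hh, fun _ => hg⟩
      rw [if_pos (Or.inl hg), mul_one] at hr
      simp only [if_pos hg, if_pos hh, if_pos hgh]
      exact hr
    · have hgh : ¬ TrivOn F (g * h) := fun h' => hh ((hmem.1 h').1 hg)
      rw [if_pos (Or.inl hg), mul_one] at hr
      simp only [if_pos hg, if_neg hh, if_neg hgh]
      rw [Units.val_div_eq_div_val, Units.val_div_eq_div_val, Units.coe_map, map_div₀]
      change (b g : M) * (g (b h : M) / g (algebraMap F M (y : F))) =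
        (b (g * h) : M) / algebraMap F M (y : F) * _
      rw [hg, ← mul_div_assoc, hr]
      ring
  · by_cases hh : TrivOn F h
    · have hgh : ¬ TrivOn F (g * h) := fun h' => hg ((hmem.1 h').2 hh)
      rw [if_pos (Or.inr hh), mul_one] at hr
      simp only [if_neg hg, if_pos hh, if_neg hgh]
      rw [Units.val_div_eq_div_val, Units.val_div_eq_div_val, Units.coe_map]
      change (b g : M) / algebraMap F M (y : F) * g (b h : M) =
        (b (g * h) : M) / algebraMap F M (y : F) * _
      rw [div_mul_eq_mul_div, hr]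
      ring
    · have hgh : TrivOn F (g * h) := hmem.2 ⟨fun h' => absurd h' hg, fun h' => absurd h' hh⟩
      rw [if_neg (not_or.2 ⟨hg, hh⟩)] at hr
      simp only [if_neg hg, if_neg hh, if_pos hgh]
      rw [Units.val_div_eq_div_val, Units.val_div_eq_div_val, Units.coe_map, map_div₀]
      change (b g : M) / algebraMap F M (y : F) * (g (b h : M) / g (algebraMap F M (y : F))) = _
      rw [div_mul_div_comm, hr, hN hg]
      have hx0 : algebraMap k M (x : k) ≠ 0 := by
        rw [Ne, map_eq_zero]
        exact x.ne_zero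
      rw [mul_div_assoc, div_self hx0, mul_one]

end

section
variable {k L M : Type} [Field k] [NumberField k] [Field L] [NumberField L] [Field M]
  [NumberField M] [Algebra k L] [Algebra k M] [Algebra L M] [IsScalarTower k L M]

/-- the inflation of a cocycle -/
theorem coc_infl [IsGalois k L] {c : (L ≃ₐ[k] L) → (L ≃ₐ[k] L) → ℤˣ} (hc : Coc c) :
    Coc (fun g h : M ≃ₐ[k] M => c (AlgEquiv.restrictNormal g L) (AlgEquiv.restrictNormal h L)) := by
  have h1 : ∀ g h : M ≃ₐ[k] M, AlgEquiv.restrictNormal (g * h) L =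
      AlgEquiv.restrictNormal g L * AlgEquiv.restrictNormal h L := fun g h =>
    map_mul (AlgEquiv.restrictNormalHom (F := k) (K₁ := M) L) g h
  have h2 : AlgEquiv.restrictNormal (1 : M ≃ₐ[k] M) L = 1 :=
    map_one (AlgEquiv.restrictNormalHom (F := k) (K₁ := M) L)
  refine ⟨?_, fun g h j => ?_⟩
  · simp only [h2]
    exact hc.one
  · simp only [h1]
    exact hc.coc _ _ _

theorem cc_res [IsGalois k L] {σ : M ≃ₐ[k] M} (h : IsCC σ) : IsCC (AlgEquiv.restrictNormal σ L) := by
  obtain ⟨φ, hφ⟩ := h
  refine ⟨φ.comp (algebraMap L M), fun x => ?_⟩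
  rw [RingHom.comp_apply, RingHom.comp_apply, AlgEquiv.restrictNormal_commutes, hφ]

theorem real_infl [IsGalois k L] {c : (L ≃ₐ[k] L) → (L ≃ₐ[k] L) → ℤˣ} (hc : RealTriv c) :
    RealTriv (fun g h : M ≃ₐ[k] M => c (AlgEquiv.restrictNormal g L)
      (AlgEquiv.restrictNormal h L)) := fun σ hσ => hc _ (cc_res hσ)

end

section
variable {k F M : Type} [Field k] [NumberField k] [Field F] [NumberField F] [Field M]
  [NumberField M] [Algebra k F] [Algebra k M] [Algebra F M] [IsScalarTower k F M]

theorem coc_res {c : (M ≃ₐ[k] M) → (M ≃ₐ[k] M) → ℤˣ} (hc : Coc c) :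
    Coc (fun g h : M ≃ₐ[F] M => c (g.restrictScalars k) (h.restrictScalars k)) :=
  ⟨hc.one, fun g h j => hc.coc (g.restrictScalars k) (h.restrictScalars k) (j.restrictScalars k)⟩

theorem real_res {c : (M ≃ₐ[k] M) → (M ≃ₐ[k] M) → ℤˣ} (hc : RealTriv c) :
    RealTriv (fun g h : M ≃ₐ[F] M => c (g.restrictScalars k) (h.restrictScalars k)) := by
  rintro σ ⟨φ, hφ⟩
  exact hc (σ.restrictScalars k) ⟨φ, hφ⟩

theorem twoPow_top (h : TwoPow k M) : TwoPow F M := by
  obtain ⟨m, hm⟩ := h
  have h1 : finrank F M ∣ 2 ^ m := ⟨finrank k F, by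
    rw [← hm, mul_comm, Module.finrank_mul_finrank k F M]⟩
  obtain ⟨j, -, hj⟩ := (Nat.dvd_prime_pow Nat.prime_two).1 h1
  exact ⟨j, hj⟩

end

section
variable {k F M M' : Type} [Field k] [NumberField k] [Field F] [NumberField F] [Field M]
  [NumberField M] [Field M'] [NumberField M'] [Algebra k F] [Algebra k M] [Algebra F M]
  [IsScalarTower k F M] [Algebra k M'] [Algebra M M'] [Algebra F M'] [IsScalarTower k M M']
  [IsScalarTower F M M']

theorem rel_infl [IsGalois k M] {c : (M ≃ₐ[k] M) → (M ≃ₐ[k] M) → ℤˣ} {x : kˣ}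
    {b : (M ≃ₐ[k] M) → Mˣ} (h : Rel F c x b) :
    Rel F (fun g h : M' ≃ₐ[k] M' => c (AlgEquiv.restrictNormal g M) (AlgEquiv.restrictNormal h M))
      x (fun g => Units.map (algebraMap M M' : M →* M') (b (AlgEquiv.restrictNormal g M))) := by
  intro g j
  have h1 : AlgEquiv.restrictNormal (g * j) M =
      AlgEquiv.restrictNormal g M * AlgEquiv.restrictNormal j M :=
    map_mul (AlgEquiv.restrictNormalHom (F := k) (K₁ := M') M) g j
  have ht : ∀ g : M' ≃ₐ[k] M', TrivOn F g ↔ TrivOn F (AlgEquiv.restrictNormal g M) := by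
    intro g
    constructor
    · intro hg e
      apply (algebraMap M M').injective
      rw [AlgEquiv.restrictNormal_commutes, ← IsScalarTower.algebraMap_apply F M M']
      exact hg e
    · intro hg e
      rw [IsScalarTower.algebraMap_apply F M M', ← AlgEquiv.restrictNormal_commutes, hg e]
  have h2 := congrArg (algebraMap M M') (h (AlgEquiv.restrictNormal g M)
    (AlgEquiv.restrictNormal j M))
  rw [map_mul, map_mul, map_mul, AlgEquiv.restrictNormal_commutes] at h2
  simp only [Units.coe_map, h1]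
  change algebraMap M M' _ * g (algebraMap M M' _) = algebraMap M M' _ * _ * _
  rw [h2]
  congr 1
  · congr 1
    rw [map_intCast]
  · by_cases h3 : TrivOn F (AlgEquiv.restrictNormal g M) ∨ TrivOn F (AlgEquiv.restrictNormal j M)
    · rw [if_pos h3, if_pos (by rwa [ht, ht]), map_one]
    · rw [if_neg h3, if_neg (by rwa [ht, ht]), ← IsScalarTower.algebraMap_apply k M M']

end

theorem res_res {k L M M' : Type} [Field k] [Field L] [Field M] [Field M'] [Algebra k L]
    [Algebra k M] [Algebra k M'] [Algebra L M] [Algebra M M'] [Algebra L M']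
    [IsScalarTower k L M] [IsScalarTower k M M'] [IsScalarTower k L M'] [IsScalarTower L M M']
    [Normal k L] [Normal k M] (g : M' ≃ₐ[k] M') :
    AlgEquiv.restrictNormal (AlgEquiv.restrictNormal g M) L = AlgEquiv.restrictNormal g L := by
  ext x
  apply (algebraMap L M').injective
  rw [AlgEquiv.restrictNormal_commutes, IsScalarTower.algebraMap_apply L M M',
    AlgEquiv.restrictNormal_commutes, AlgEquiv.restrictNormal_commutes,
    ← IsScalarTower.algebraMap_apply L M M']

/-- a big Galois extension with roots of unity -/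
theorem exists_big (K M : Type) [Field K] [NumberField K] [Field M] [NumberField M]
    [Algebra K M] {n : ℕ} (hn : 0 < n) :
    ∃ (Ω : Type) (_ : Field Ω) (_ : NumberField Ω) (_ : Algebra K Ω) (_ : Algebra M Ω)
      (_ : IsScalarTower K M Ω) (_ : IsGalois K Ω) (ζ : Ω), IsPrimitiveRoot ζ n := by
  have hne : NeZero (n : AlgebraicClosure M) := ⟨Nat.cast_ne_zero.2 hn.ne'⟩
  obtain ⟨ζ, hζ⟩ := IsAlgClosed.exists_root (Polynomial.cyclotomic n (AlgebraicClosure M)) (by
    rw [Polynomial.degree_cyclotomic]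
    have := Nat.totient_pos.2 hn
    exact_mod_cast this.ne')
  have hζ' : IsPrimitiveRoot ζ n := Polynomial.isRoot_cyclotomic_iff.1 hζ
  let M1 : IntermediateField M (AlgebraicClosure M) := IntermediateField.adjoin M {ζ}
  have hfd : FiniteDimensional M M1 := by
    refine IntermediateField.finiteDimensional_adjoin fun x _ => ?_
    exact (Algebra.IsAlgebraic.isAlgebraic x).isIntegral
  have hNF : NumberField M1 := by
    have h2 : FiniteDimensional ℚ M1 := FiniteDimensional.trans ℚ M M1
    exact ⟨⟩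
  have hζ1 : ζ ∈ M1 := IntermediateField.subset_adjoin _ _ rfl
  obtain ⟨Ω, _, _, _, _, _, hG⟩ := Pool.Agent.Q53.EX.exists_gal K M1
  let iM : Algebra M Ω := ((algebraMap M1 Ω).comp (algebraMap M M1)).toAlgebra
  have hT : IsScalarTower K M Ω := by
    refine IsScalarTower.of_algebraMap_eq fun x => ?_
    rw [IsScalarTower.algebraMap_apply K M1 Ω]
    change _ = algebraMap M1 Ω (algebraMap M M1 (algebraMap K M x))
    rfl
  refine ⟨Ω, inferInstance, inferInstance, inferInstance, iM, hT, hG,
    algebraMap M1 Ω ⟨ζ, hζ1⟩, ?_⟩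
  refine IsPrimitiveRoot.map_of_injective ?_ (algebraMap M1 Ω).injective
  have h1 : IsPrimitiveRoot (algebraMap M1 (AlgebraicClosure M) ⟨ζ, hζ1⟩) n := hζ'
  exact h1.of_map_of_injective (algebraMap M1 (AlgebraicClosure M)).injective

/-- the local norms at a ramified prime -/
theorem loc_ram (hDL : S_DL) (hEP : S_EP) (k F L M : Type) [Field k] [NumberField k] [Field F]
    [NumberField F] [Field L] [NumberField L] [Field M] [NumberField M] [Algebra k F] [Algebra k L]
    [Algebra k M] [Algebra F M] [Algebra L M] [IsScalarTower k F M] [IsScalarTower k L M]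
    [IsGalois k L] [IsGalois k M] (c : (L ≃ₐ[k] L) → (L ≃ₐ[k] L) → ℤˣ) (x : kˣ)
    (b : (M ≃ₐ[k] M) → Mˣ) (v : HeightOneSpectrum (𝓞 k)) (h2 : finrank k F = 2)
    (hrel : Rel F (fun g h : M ≃ₐ[k] M => c (AlgEquiv.restrictNormal g L)
      (AlgEquiv.restrictNormal h L)) x b) (hns : NonSplit F v) (hL : TwoPow k L) (hc : Coc c)
    (hu : Unramified L v) (h2v : (2 : 𝓞 k) ∉ v.asIdeal) : LocN F v x := by
  obtain ⟨r, hr⟩ := hEP k L c v hL hc hu h2v
  obtain ⟨M', _, _, _, _, _, _, ζ, hζ⟩ := exists_big k M (n := 2 ^ r) (by positivity)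
  let iL : Algebra L M' := ((algebraMap M M').comp (algebraMap L M)).toAlgebra
  let iF : Algebra F M' := ((algebraMap M M').comp (algebraMap F M)).toAlgebra
  have t1 : IsScalarTower L M M' := IsScalarTower.of_algebraMap_eq fun _ => rfl
  have t2 : IsScalarTower F M M' := IsScalarTower.of_algebraMap_eq fun _ => rfl
  have t3 : IsScalarTower k L M' := IsScalarTower.of_algebraMap_eq fun x => by
    rw [IsScalarTower.algebraMap_apply k M M', IsScalarTower.algebraMap_apply k L M]
    rfl
  have t4 : IsScalarTower k F M' := IsScalarTower.of_algebraMap_eq fun x => by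
    rw [IsScalarTower.algebraMap_apply k M M', IsScalarTower.algebraMap_apply k F M]
    rfl
  obtain ⟨P, hP⟩ := ex_above (L := M') v
  obtain ⟨ε, hε⟩ := hr M' ζ hζ P hP
  have h1 := rel_infl (M' := M') hrel
  simp only [res_res] at h1
  have h3 := hDL k F M' (fun g h : M' ≃ₐ[k] M' => c (AlgEquiv.restrictNormal g L)
    (AlgEquiv.restrictNormal h L)) x _ P ε h2 h1 (by rw [hP]; exact hns) hε
  rw [hP] at h3
  exact h3

end BEN

open BEN

/-- **Job BE.** -/
theorem be : Pool.Agent.Q5.MZ.J_BE := by
  intro hLF hLE hQS hVE hRP hDL hEP hIN hBC hKP hAL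
  have key : ∀ n : ℕ, ∀ (k L : Type) [Field k] [NumberField k] [Field L] [NumberField L]
      [Algebra k L] [IsGalois k L] (c : (L ≃ₐ[k] L) → (L ≃ₐ[k] L) → ℤˣ)
      (P : HeightOneSpectrum (𝓞 L)), TwoPow k L → OneDyadic k → TwoUnram k L → Coc c → RealTriv c →
      (2 : 𝓞 L) ∈ P.asIdeal → Nat.card (Dec k P) = n → SplitsIn c := by
    intro n
    induction n using Nat.strong_induction_on with
    | _ n ih =>
      intro k L _ _ _ _ _ _ c P hL hk hun hc hreal hP hn
      have hmem2 : ∀ {A B : Type} [Field A] [NumberField A] [Field B] [NumberField B]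
          [Algebra A B] (w : HeightOneSpectrum (𝓞 B)),
          (2 : 𝓞 A) ∈ (w.under (𝓞 A)).asIdeal ↔ (2 : 𝓞 B) ∈ w.asIdeal := by
        intro A B _ _ _ _ _ w
        have h := Pool.Agent.Q125.AR.mem_under (F := A) (N := 2) (w := w)
        simpa using h
      obtain ⟨w, hw, hwu⟩ := hk
      have hPw : P.under (𝓞 k) = w := hwu _ ((hmem2 P).2 hP)
      by_cases hdec : ∃ g ∈ Dec k P, g ≠ 1
      · -- the induction step
        obtain ⟨F, M, _, _, _, _, _, _, _, _, _, _, _, _, Q, h2, hM, hgen, hns, hQP, hcard⟩ :=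
          hKP k L P hL hdec
        rw [hPw] at hns
        have hGF : IsGalois F M := IsGalois.tower_top_of_isGalois k F M
        have hbc := hBC k F L M hgen
        have hQ2 : (2 : 𝓞 M) ∈ Q.asIdeal := by
          rw [← hmem2 (A := L), hQP]
          exact hP
        have hF1 : OneDyadic F := by
          refine ⟨Q.under (𝓞 F), (hmem2 Q).2 hQ2, fun w' hw' => ?_⟩
          have e1 : w'.under (𝓞 k) = w := hwu _ ((hmem2 w').2 hw')
          have e2 : (Q.under (𝓞 F)).under (𝓞 k) = w := hwu _ ((hmem2 _).2 ((hmem2 Q).2 hQ2))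
          exact hns _ _ e1 e2
        have hMun : TwoUnram F M := by
          intro u hu
          have h1 : (2 : 𝓞 k) ∉ (u.under (𝓞 k)).asIdeal := fun h => hu ((hmem2 u).1 h)
          exact (hbc (u.under (𝓞 k)) (hun _ h1)).1 u rfl
        have hc' := coc_infl (M := M) hc
        have hreal' := real_infl (M := M) hreal
        have hs := ih (Nat.card (Dec F Q)) (by rw [← hn]; exact hcard) F M _ Q (twoPow_top hM) hF1
          hMun (coc_res (F := F) hc') (real_res (F := F) hreal') hQ2 rfl
        obtain ⟨x, b, hrel⟩ := hQS k F M _ h2 hc' hs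
        have hpos := hRP k F M _ x b hc' hreal' hrel
        have hloc : ∀ v : HeightOneSpectrum (𝓞 k), v ≠ w → LocN F v x := by
          intro v hv
          have hv2 : (2 : 𝓞 k) ∉ v.asIdeal := fun h => hv (hwu v h)
          by_cases huF : Unramified F v
          · exact hLE k F v x h2 huF fun hns' =>
              hVE k F M _ x b v h2 hrel ((hbc v (hun v hv2)).2 huF) hns'
          · have hns' : NonSplit F v := by
              by_contra h
              exact huF (unr_of_split (split_of h2 h))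
            exact loc_ram hDL hEP k F L M c x b v h2 hrel hns' hL hc (hun v hv2) hv2
        obtain ⟨y, hy⟩ := hLF k F w x h2 hloc hpos
        exact hIN k L M c hc (split_of_norm h2 _ x b hrel y hy)
      · -- the unramified case
        push Not at hdec
        refine hAL k L c hL (fun v => ?_) hc hreal
        by_cases hv2 : (2 : 𝓞 k) ∈ v.asIdeal
        · rw [hwu v hv2, ← hPw]
          exact unr_of_dec hdec
        · exact hun v hv2
  intro k L _ _ _ _ _ _ c hL hk hun hc hreal
  obtain ⟨w, hw, hwu⟩ := hk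
  obtain ⟨P, hP⟩ := ex_above (L := L) w
  refine key _ k L c P hL ⟨w, hw, hwu⟩ hun hc hreal ?_ rfl
  have h := Pool.Agent.Q125.AR.mem_under (F := k) (N := 2) (w := P)
  rw [hP] at h
  have h2 := h.1 (by simpa using hw)
  simpa using h2

end Pool.Agent.H429.MZQ
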