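import Pool.Agent.H429.MZQ.StmF

/-!
# Project MZQ (helper429), job BRQ (helper36): fields unramified outside `S` lie in `MZ.FSmax S`
-/

set_option autoImplicit false
set_option linter.unusedSectionVars false

namespace Pool.Agent.H429.MZQ

open NumberField IsDedekindDomain Module
open Pool.Agent.Q92.AR (Unramified)

namespace BRQN

variable {F E L : Type} [Field F] [NumberField F] [Field E] [NumberField E] [Field L]
  [NumberField L] [Algebra F E] [Algebra F L]

/-- the isomorphism of the rings of integers -/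
noncomputable def phi (e : E ≃ₐ[F] L) : 𝓞 E ≃+* 𝓞 L :=
  RingOfIntegers.mapRingEquiv (e : E ≃+* L)

lemma phi_alg (e : E ≃ₐ[F] L) (x : 𝓞 F) :
    phi e (algebraMap (𝓞 F) (𝓞 E) x) = algebraMap (𝓞 F) (𝓞 L) x := by
  apply RingOfIntegers.ext
  show (e : E ≃+* L) (algebraMap F E (x : F)) = algebraMap F L (x : F)
  exact e.commutes _

/-- transport of a prime -/
noncomputable def pull (e : E ≃ₐ[F] L) (w : HeightOneSpectrum (𝓞 L)) :
    HeightOneSpectrum (𝓞 E) where
  asIdeal := w.asIdeal.comap (phi e : 𝓞 E →+* 𝓞 L)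
  isPrime := w.isPrime.comap _
  ne_bot := by
    intro h
    apply w.ne_bot
    rw [eq_bot_iff]
    intro x hx
    have h1 : (phi e).symm x ∈ w.asIdeal.comap (phi e : 𝓞 E →+* 𝓞 L) := by
      rw [Ideal.mem_comap]
      have h2 : (phi e : 𝓞 E →+* 𝓞 L) ((phi e).symm x) = x := (phi e).apply_symm_apply x
      rw [h2]
      exact hx
    rw [h, Ideal.mem_bot] at h1
    rw [Ideal.mem_bot]
    exact (map_eq_zero_iff _ (phi e).symm.injective).mp h1

lemma pull_under (e : E ≃ₐ[F] L) (w : HeightOneSpectrum (𝓞 L)) :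
    ((pull e w).under (𝓞 F)).asIdeal = w.asIdeal.comap (algebraMap (𝓞 F) (𝓞 L)) := by
  ext x
  show phi e (algebraMap (𝓞 F) (𝓞 E) x) ∈ w.asIdeal ↔ algebraMap (𝓞 F) (𝓞 L) x ∈ w.asIdeal
  rw [phi_alg]

lemma unr (e : E ≃ₐ[F] L) (w : HeightOneSpectrum (𝓞 L))
    (h : Unramified E ((pull e w).under (𝓞 F))) : Algebra.IsUnramifiedAt (𝓞 F) w.asIdeal := by
  have h1 := h (pull e w) rfl
  rw [pull_under] at h1
  have hle : (w.asIdeal.comap (algebraMap (𝓞 F) (𝓞 L))).map (algebraMap (𝓞 F) (𝓞 L)) ≤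
      w.asIdeal := Ideal.map_comap_le
  have hnot : ¬ (w.asIdeal.comap (algebraMap (𝓞 F) (𝓞 L))).map (algebraMap (𝓞 F) (𝓞 L)) ≤
      w.asIdeal ^ 2 := by
    intro hc
    apply h1
    have hp : (pull e w).asIdeal = w.asIdeal.map ((phi e).symm : 𝓞 L →+* 𝓞 E) := by
      show w.asIdeal.comap (phi e : 𝓞 E →+* 𝓞 L) = _
      exact (Ideal.map_comap_of_equiv (I := w.asIdeal) (phi e).symm).symm
    rw [hp, ← Ideal.map_pow, Ideal.map_le_iff_le_comap]
    intro x hx
    rw [Ideal.mem_comap]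
    have h2 : algebraMap (𝓞 F) (𝓞 L) x ∈ w.asIdeal ^ 2 := hc (Ideal.mem_map_of_mem _ hx)
    have h3 : algebraMap (𝓞 F) (𝓞 E) x =
        ((phi e).symm : 𝓞 L →+* 𝓞 E) (algebraMap (𝓞 F) (𝓞 L) x) := by
      rw [← phi_alg e x]
      exact ((phi e).symm_apply_apply _).symm
    rw [h3]
    exact Ideal.mem_map_of_mem _ h2
  have hwp : w.asIdeal.IsPrime := w.isPrime
  have h4 : Ideal.ramificationIdx' (w.asIdeal.comap (algebraMap (𝓞 F) (𝓞 L))) w.asIdeal = 1 := by
    by_contra h5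
    exact hnot ((Ideal.ramificationIdx'_ne_one_iff hle).mp h5)
  have h6 : w.asIdeal.LiesOver (w.asIdeal.comap (algebraMap (𝓞 F) (𝓞 L))) := ⟨rfl⟩
  have h7 : w.asIdeal.comap (algebraMap (𝓞 F) (𝓞 L)) ≠ ⊥ := by
    rw [← pull_under e w]
    exact ((pull e w).under (𝓞 F)).ne_bot
  rw [Ideal.ramificationIdx'_eq_ramificationIdx _ _ h7] at h4
  exact Ideal.ramificationIdx_eq_one_iff.mp h4

end BRQN

open BRQN in
theorem brq : S_BRQ := by
  intro F Ω _ _ _ _ S E _ _ _ ι hun x
  have hfE : FiniteDimensional F E := Module.Finite.of_restrictScalars_finite ℚ F E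
  have hfL : FiniteDimensional F ι.fieldRange :=
    LinearEquiv.finiteDimensional ι.equivFieldRange.toLinearEquiv
  have hNL : NumberField ι.fieldRange := NumberField.of_module_finite F ι.fieldRange
  have hU : MZ.UnramifiedOutside S ι.fieldRange := by
    intro w hw
    apply unr ι.equivFieldRange w
    apply hun
    intro hv
    exact hw _ hv (pull_under ι.equivFieldRange w).symm
  have hle : ι.fieldRange ≤ (MZ.FSmax S : IntermediateField F Ω) :=
    le_iSup (fun K : {K : IntermediateField F Ω // FiniteDimensional F K ∧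
      MZ.UnramifiedOutside S K} => K.1) ⟨ι.fieldRange, hfL, hU⟩
  exact hle ⟨x, rfl⟩

end Pool.Agent.H429.MZQ
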