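import Pool.Agent.H429.MZQ.StmE

/-!
# Project MZQ: a chain of `h + 5` primes containing the entries of `Z²` (helper113)
-/

set_option autoImplicit false
set_option linter.unusedSectionVars false

open MvPolynomial

noncomputable section

namespace Pool.Agent.H429.MZQ

namespace CHQN

/-- the variables `u`, `v`, `x` -/
abbrev Ix (h : ℕ) : Type := (Fin 3 ⊕ Fin 3) ⊕ Fin h

/-- the stage at which a variable becomes zero -/
def rk {h : ℕ} : Ix h → ℕ
  | Sum.inl (Sum.inl i) => if i = 2 then 0 else if i = 1 then 1 else h + 100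
  | Sum.inl (Sum.inr i) => if i = 1 then 2 else if i = 2 then 3 else h + 100
  | Sum.inr k => 4 + k

/-- the variables at the stage `n` -/
def yv (h n : ℕ) (w : Ix h) : MvPolynomial (Ix h) (ZMod 2) := if rk w < n then 0 else X w

/-- the components of `u` -/
def uu (h n : ℕ) (i : Fin 3) : MvPolynomial (Ix h) (ZMod 2) := yv h n (Sum.inl (Sum.inl i))

/-- the components of `v` -/
def vv (h n : ℕ) (i : Fin 3) : MvPolynomial (Ix h) (ZMod 2) := yv h n (Sum.inl (Sum.inr i))

/-- the components of `v × u` -/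
def ww (h n : ℕ) (j : Fin 3) : MvPolynomial (Ix h) (ZMod 2) :=
  vv h n (j + 1) * uu h n (j + 2) - vv h n (j + 2) * uu h n (j + 1)

/-- the homomorphism -/
def Ph (h n : ℕ) : MvPolynomial ((Fin 3 × Fin 3) ⊕ Fin h) (ZMod 2) →ₐ[ZMod 2]
    MvPolynomial (Ix h) (ZMod 2) :=
  aeval (Sum.elim (fun p => uu h n p.1 * ww h n p.2) fun k => yv h n (Sum.inr k))

theorem Ph_z (h n : ℕ) (i j : Fin 3) : Ph h n (X (Sum.inl (i, j))) = uu h n i * ww h n j := by
  unfold Ph
  rw [aeval_X]
  rfl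

theorem Ph_x (h n : ℕ) (k : Fin h) : Ph h n (X (Sum.inr k)) = yv h n (Sum.inr k) := by
  unfold Ph
  rw [aeval_X]
  rfl

theorem y_comp {h n m : ℕ} (hnm : n ≤ m) (w : Ix h) : aeval (yv h m) (yv h n w) = yv h m w := by
  unfold yv
  by_cases h1 : rk w < n
  · rw [if_pos h1, if_pos (h1.trans_le hnm), map_zero]
  · rw [if_neg h1, aeval_X]

theorem Ph_comp {h n m : ℕ} (hnm : n ≤ m) (F : MvPolynomial ((Fin 3 × Fin 3) ⊕ Fin h) (ZMod 2)) :
    aeval (yv h m) (Ph h n F) = Ph h m F := by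
  have h1 : (aeval (yv h m)).comp (Ph h n) = Ph h m := by
    refine MvPolynomial.algHom_ext fun v => ?_
    rw [AlgHom.comp_apply]
    rcases v with ⟨i, j⟩ | k
    · rw [Ph_z, Ph_z]
      unfold ww uu vv
      simp only [map_mul, map_sub, y_comp hnm]
    · rw [Ph_x, Ph_x, y_comp hnm]
  rw [← h1]
  rfl

/-- the primes -/
def Pn (h n : ℕ) : Ideal (MvPolynomial ((Fin 3 × Fin 3) ⊕ Fin h) (ZMod 2)) :=
  RingHom.ker (Ph h n).toRingHom

theorem mem_Pn {h n : ℕ} {F : MvPolynomial ((Fin 3 × Fin 3) ⊕ Fin h) (ZMod 2)} :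
    F ∈ Pn h n ↔ Ph h n F = 0 := Iff.rfl

theorem Pn_le {h n m : ℕ} (hnm : n ≤ m) : Pn h n ≤ Pn h m := by
  intro F hF
  rw [mem_Pn] at hF ⊢
  rw [← Ph_comp hnm, hF, map_zero]

theorem y_eval {h n : ℕ} (p : Ix h → ZMod 2) (w : Ix h) :
    eval p (yv h n w) = if rk w < n then 0 else p w := by
  unfold yv
  split_ifs
  · rw [map_zero]
  · rw [eval_X]

/-- a point -/
def pt (h : ℕ) (a b : Fin 3) : Ix h → ZMod 2
  | Sum.inl (Sum.inl i) => if i = a then 1 else 0
  | Sum.inl (Sum.inr i) => if i = b then 1 else 0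
  | Sum.inr _ => 0

theorem Pn_lt (h n : ℕ) (hn : n < h + 4) : Pn h n < Pn h (n + 1) := by
  refine lt_of_le_of_ne (Pn_le (Nat.le_succ n)) fun hcon => ?_
  -- the witness
  have key : ∀ (F : MvPolynomial ((Fin 3 × Fin 3) ⊕ Fin h) (ZMod 2)) (p : Ix h → ZMod 2),
      Ph h (n + 1) F = 0 → eval p (Ph h n F) ≠ 0 → False := by
    intro F p h1 h2
    have h3 : F ∈ Pn h (n + 1) := h1
    rw [← hcon] at h3
    rw [mem_Pn.1 h3, map_zero] at h2
    exact h2 rfl
  rcases lt_or_ge n 4 with h4 | h4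
  · interval_cases n
    · refine key (X (Sum.inl (2, 0))) (pt h 2 1) ?_ ?_
      · rw [Ph_z]
        simp [uu, ww, vv, yv, rk]
      · rw [Ph_z]
        simp [uu, ww, vv, y_eval, rk, pt]
    · refine key (X (Sum.inl (1, 0))) (pt h 1 2) ?_ ?_
      · rw [Ph_z]
        simp [uu, ww, vv, yv, rk]
      · rw [Ph_z]
        simp [uu, ww, vv, y_eval, rk, pt]
    · refine key (X (Sum.inl (0, 2))) (pt h 0 1) ?_ ?_
      · rw [Ph_z]
        simp [uu, ww, vv, yv, rk]
      · rw [Ph_z]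
        simp [uu, ww, vv, y_eval, rk, pt]
    · refine key (X (Sum.inl (0, 1))) (pt h 0 2) ?_ ?_
      · rw [Ph_z]
        simp [uu, ww, vv, yv, rk]
      · rw [Ph_z]
        simp [uu, ww, vv, y_eval, rk, pt]
  · obtain ⟨k, rfl⟩ : ∃ k, n = 4 + k := ⟨n - 4, by omega⟩
    have hk : k < h := by omega
    refine key (X (Sum.inr ⟨k, hk⟩)) (fun _ => 1) ?_ ?_
    · rw [Ph_x]
      unfold yv
      rw [if_pos]
      show 4 + k < 4 + k + 1
      omega
    · rw [Ph_x, y_eval, if_neg]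
      · exact one_ne_zero
      · show ¬ 4 + k < 4 + k
        omega

theorem sq_mem (h n : ℕ) (a b : Fin 3) : (Zm h * Zm h) a b ∈ Pn h n := by
  rw [mem_Pn, Matrix.mul_apply, Fin.sum_univ_three, map_add, map_add, map_mul, map_mul, map_mul]
  have e : ∀ i j, Ph h n (Zm h i j) = uu h n i * ww h n j := fun i j => Ph_z h n i j
  simp only [e]
  have e2 : ww h n 0 * uu h n 0 + ww h n 1 * uu h n 1 + ww h n 2 * uu h n 2 = 0 := by
    unfold ww
    have q1 : (0 : Fin 3) + 1 = 1 := rfl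
    have q2 : (0 : Fin 3) + 2 = 2 := rfl
    have q3 : (1 : Fin 3) + 1 = 2 := rfl
    have q4 : (1 : Fin 3) + 2 = 0 := rfl
    have q5 : (2 : Fin 3) + 1 = 0 := rfl
    have q6 : (2 : Fin 3) + 2 = 1 := rfl
    rw [q1, q2, q3, q4, q5, q6]
    ring
  linear_combination (uu h n a * ww h n b) * e2

theorem last_eq (h : ℕ) : Pn h (h + 4) =
    RingHom.ker (MvPolynomial.constantCoeff (σ := (Fin 3 × Fin 3) ⊕ Fin h) (R := ZMod 2)) := by
  have h1 : ∀ F, Ph h (h + 4) F = C (constantCoeff F) := by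
    intro F
    have h2 : Ph h (h + 4) = aeval (0 : (Fin 3 × Fin 3) ⊕ Fin h → MvPolynomial (Ix h) (ZMod 2)) := by
      refine MvPolynomial.algHom_ext fun v => ?_
      rw [aeval_X]
      rcases v with ⟨i, j⟩ | k
      · rw [Ph_z]
        have : ww h (h + 4) j = 0 := by
          fin_cases j
          · simp [uu, ww, vv, yv, rk]
          · simp [uu, ww, vv, yv, rk]
          · simp [uu, ww, vv, yv, rk]
        rw [this, mul_zero]
        rfl
      · rw [Ph_x]
        unfold yv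
        rw [if_pos]
        · rfl
        · show 4 + (k : ℕ) < h + 4
          have := k.2
          omega
    rw [h2, MvPolynomial.aeval_zero]
    rfl
  ext F
  rw [mem_Pn, h1, RingHom.mem_ker, map_eq_zero_iff _ (MvPolynomial.C_injective _ _)]

end CHQN

open CHQN

theorem chq : S_CHQ := by
  intro h
  refine ⟨fun i => Pn h i, ?_, fun i => ?_, fun i a b => sq_mem h i a b, ?_⟩
  · have h1 : ∀ i j : ℕ, i < j → j ≤ h + 4 → Pn h i < Pn h j := by
      intro i j hij hj
      exact (Pn_lt h i (by omega)).trans_le (Pn_le hij)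
    intro i j hij
    exact h1 i j hij (by have := j.2; omega)
  · show (RingHom.ker (Ph h i).toRingHom).IsPrime
    exact RingHom.ker_isPrime _
  · show Pn h ((Fin.last (h + 4) : Fin (h + 5)) : ℕ) = _
    rw [Fin.val_last]
    exact last_eq h

end Pool.Agent.H429.MZQ
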