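import Pool.Agent.H429.MZQ.StmE

/-!
# JOB CTQ: counting homomorphisms to the dual numbers (helper295)
-/

set_option autoImplicit false
set_option linter.unusedSectionVars false

namespace Pool.Agent.H429.MZQ

open IsLocalRing
open Pool.Agent.Q5.MZ (MinGen idn LP HL dfst)

namespace CTQN

/-- existence of a minimal system of generators -/
theorem exists_minGen (A : Type) [CommRing A] [IsLocalRing A] [IsNoetherianRing A]
    [Algebra (ZMod 2) A] (hres : ∀ a : A, a ∈ maximalIdeal A ∨ a - 1 ∈ maximalIdeal A) :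
    ∃ (h : ℕ) (e : Fin h → A), MinGen A e := by
  classical
  let m2 : Submodule (ZMod 2) A := ((maximalIdeal A) ^ 2).restrictScalars (ZMod 2)
  let m1 : Submodule (ZMod 2) A := (maximalIdeal A).restrictScalars (ZMod 2)
  let W : Submodule (ZMod 2) (A ⧸ m2) := m1.map m2.mkQ
  obtain ⟨S, hS⟩ := (isNoetherianRing_iff_ideal_fg A).1 inferInstance (maximalIdeal A)
  have hSm : ∀ g ∈ S, g ∈ maximalIdeal A := fun g hg => hS ▸ Ideal.subset_span hg
  -- the space is finite dimensional
  have hspan : ∀ a ∈ maximalIdeal A, m2.mkQ a ∈ Submodule.span (ZMod 2) (m2.mkQ '' (S : Set A)) := by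
    intro a ha
    rw [← hS] at ha
    induction ha using Submodule.span_induction with
    | mem x hx => exact Submodule.subset_span ⟨x, hx, rfl⟩
    | zero => rw [map_zero]; exact Submodule.zero_mem _
    | add x y _ _ hx hy => rw [map_add]; exact Submodule.add_mem _ hx hy
    | smul b x hx ihx =>
      have hxm : x ∈ maximalIdeal A := hS ▸ hx
      rcases hres b with hb | hb
      · have h1 : m2.mkQ (b • x) = 0 := by
          rw [Submodule.mkQ_apply, Submodule.Quotient.mk_eq_zero]
          show b • x ∈ (maximalIdeal A) ^ 2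
          rw [pow_two]
          exact Ideal.mul_mem_mul hb hxm
        rw [h1]
        exact Submodule.zero_mem _
      · have h1 : m2.mkQ (b • x) = m2.mkQ x := by
          rw [Submodule.mkQ_apply, Submodule.mkQ_apply, Submodule.Quotient.eq]
          show b • x - x ∈ (maximalIdeal A) ^ 2
          have h2 : b • x - x = (b - 1) * x := by rw [smul_eq_mul]; ring
          rw [h2, pow_two]
          exact Ideal.mul_mem_mul hb hxm
        rw [h1]
        exact ihx
  have hW : W = Submodule.span (ZMod 2) (m2.mkQ '' (S : Set A)) := by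
    apply le_antisymm
    · rintro _ ⟨a, ha, rfl⟩
      exact hspan a ha
    · rw [Submodule.span_le]
      rintro _ ⟨g, hg, rfl⟩
      exact ⟨g, hSm g hg, rfl⟩
  have hfd : FiniteDimensional (ZMod 2) W := by
    rw [hW]
    exact FiniteDimensional.span_of_finite _ (S.finite_toSet.image _)
  let b := Module.finBasis (ZMod 2) W
  have hlift : ∀ i, ∃ e : A, e ∈ maximalIdeal A ∧ m2.mkQ e = (b i : A ⧸ m2) := by
    intro i
    obtain ⟨e, he, h1⟩ := (b i).2
    exact ⟨e, he, h1⟩
  choose e he hb using hlift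
  have hsum : ∀ c : Fin (Module.finrank (ZMod 2) W) → ZMod 2,
      m2.mkQ (∑ i, algebraMap (ZMod 2) A (c i) * e i) = ((∑ i, c i • b i : W) : A ⧸ m2) := by
    intro c
    rw [map_sum, Submodule.coe_sum]
    refine Finset.sum_congr rfl fun i _ => ?_
    rw [← Algebra.smul_def, map_smul, hb, Submodule.coe_smul]
  refine ⟨_, e, hres, he, fun a ha => ?_, fun c hc => ?_⟩
  · have haW : m2.mkQ a ∈ W := ⟨a, ha, rfl⟩
    refine ⟨fun i => b.repr ⟨m2.mkQ a, haW⟩ i, ?_⟩
    have h1 : m2.mkQ a = m2.mkQ (∑ i, algebraMap (ZMod 2) A (b.repr ⟨m2.mkQ a, haW⟩ i) * e i) := by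
      rw [hsum, b.sum_repr]
    have h2 : a - ∑ i, algebraMap (ZMod 2) A (b.repr ⟨m2.mkQ a, haW⟩ i) * e i ∈ m2 :=
      (Submodule.Quotient.eq m2).1 h1
    exact h2
  · have h1 : m2.mkQ (∑ i, algebraMap (ZMod 2) A (c i) * e i) = 0 := by
      rw [Submodule.mkQ_apply, Submodule.Quotient.mk_eq_zero]
      exact hc
    rw [hsum] at h1
    have h2 : (∑ i, c i • b i : W) = 0 := by
      exact_mod_cast h1
    have h3 := Fintype.linearIndependent_iff.1 b.linearIndependent c h2
    exact funext h3

/-- a homomorphism to the dual numbers maps the maximal ideal to the multiples of `ε` -/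
theorem fst_zero {A : Type} [CommRing A] [IsLocalRing A] (α : A →+* DualNumber (ZMod 2)) {a : A}
    (ha : a ∈ maximalIdeal A) : TrivSqZeroExt.fst (α a) = 0 := by
  have h1 : IsUnit (1 - a) := by
    by_contra hcon
    have h2 : 1 - a ∈ maximalIdeal A := (mem_maximalIdeal _).2 hcon
    have h3 : (1 : A) ∈ maximalIdeal A := by
      have := (maximalIdeal A).add_mem h2 ha
      rwa [sub_add_cancel] at this
    exact (Ideal.ne_top_iff_one _).1 (maximalIdeal.isMaximal A).ne_top h3
  have h2 : IsUnit (TrivSqZeroExt.fst (α (1 - a))) := by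
    have h3 := h1.map α
    exact h3.map (TrivSqZeroExt.fstHom (ZMod 2) (ZMod 2) (ZMod 2))
  rw [map_sub, map_one, TrivSqZeroExt.fst_sub, TrivSqZeroExt.fst_one] at h2
  generalize TrivSqZeroExt.fst (α a) = x at h2
  revert h2
  revert x
  decide

/-- products of such elements vanish -/
theorem mul_zero' {x y : DualNumber (ZMod 2)} (hx : TrivSqZeroExt.fst x = 0)
    (hy : TrivSqZeroExt.fst y = 0) : x * y = 0 := by
  apply TrivSqZeroExt.ext
  · rw [TrivSqZeroExt.fst_mul, hx, zero_mul, TrivSqZeroExt.fst_zero]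
  · rw [TrivSqZeroExt.snd_mul, hx, hy]
    simp

theorem sq_zero {A : Type} [CommRing A] [IsLocalRing A] (α : A →+* DualNumber (ZMod 2)) {a : A}
    (ha : a ∈ (maximalIdeal A) ^ 2) : α a = 0 := by
  rw [pow_two] at ha
  have h1 : maximalIdeal A * maximalIdeal A ≤ RingHom.ker α := by
    rw [Ideal.mul_le]
    intro r hr s hs
    rw [RingHom.mem_ker, map_mul]
    exact mul_zero' (fst_zero α hr) (fst_zero α hs)
  exact RingHom.mem_ker.1 (h1 ha)

/-- a homomorphism is determined by the values at the generators -/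
theorem ext_of {A : Type} [CommRing A] [IsLocalRing A] [Algebra (ZMod 2) A] {h : ℕ} {e : Fin h → A}
    (he : MinGen A e) {α β : A →+* DualNumber (ZMod 2)}
    (hαβ : ∀ i, TrivSqZeroExt.snd (α (e i)) = TrivSqZeroExt.snd (β (e i))) : α = β := by
  have h1 : ∀ i, α (e i) = β (e i) := fun i =>
    TrivSqZeroExt.ext (by rw [fst_zero α (he.mem i), fst_zero β (he.mem i)]) (hαβ i)
  have h2 : α.comp (algebraMap (ZMod 2) A) = β.comp (algebraMap (ZMod 2) A) :=
    Subsingleton.elim _ _
  have h3 : ∀ c : ZMod 2, α (algebraMap (ZMod 2) A c) = β (algebraMap (ZMod 2) A c) := fun c =>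
    RingHom.congr_fun h2 c
  have h4 : ∀ a ∈ maximalIdeal A, α a = β a := by
    intro a ha
    obtain ⟨c, hc⟩ := he.gen a ha
    have h5 : ∀ γ : A →+* DualNumber (ZMod 2),
        γ a = ∑ i, γ (algebraMap (ZMod 2) A (c i)) * γ (e i) := by
      intro γ
      have h6 := sq_zero γ hc
      rw [map_sub, sub_eq_zero, map_sum] at h6
      rw [h6]
      exact Finset.sum_congr rfl fun i _ => map_mul γ _ _
    rw [h5 α, h5 β]
    exact Finset.sum_congr rfl fun i _ => by rw [h3, h1]
  ext1 a
  rcases he.res a with ha | ha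
  · exact h4 a ha
  · have h5 := h4 _ ha
    rw [map_sub, map_sub, map_one, map_one] at h5
    exact sub_left_inj.1 h5

end CTQN

/-- **JOB CTQ.** -/
theorem ctq : S_CTQ := by
  intro A _ _ _ _ α hres hα
  obtain ⟨h, e, he⟩ := CTQN.exists_minGen A hres
  refine ⟨h, e, ?_, he⟩
  have hinj : Function.Injective fun (j : Fin 1024) (i : Fin h) =>
      TrivSqZeroExt.snd (α j (e i)) := by
    intro j j' hjj
    exact hα (CTQN.ext_of he fun i => congrFun hjj i)
  have h1 := Fintype.card_le_of_injective _ hinj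
  rw [Fintype.card_fin, Fintype.card_fun, ZMod.card, Fintype.card_fin] at h1
  by_contra hcon
  have h2 : 2 ^ h ≤ 2 ^ 9 := Nat.pow_le_pow_right (by norm_num) (by omega)
  omega

end Pool.Agent.H429.MZQ
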