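import Pool.Agent.H429.MZQ.StmH

/-!
# Project MZQ: `S_CUBQ`, the simplest cubic extensions
-/

set_option autoImplicit false

namespace Pool.Agent.H429.MZQ

open NumberField IsDedekindDomain Module

namespace CUBQN

/-! ### Algebra of the simplest cubic polynomial -/

section alg

variable {L : Type} [Field L]

/-- the transformation of order three -/
def ph (z : L) : L := -1 / (1 + z)

lemma one_add_ne {A x : L} (h : x ^ 3 - A * x ^ 2 - (A + 3) * x - 1 = 0) : 1 + x ≠ 0 := by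
  intro h1
  have h2 : x = -1 := by linear_combination h1
  rw [h2] at h
  have h3 : (1 : L) = 0 := by linear_combination h
  exact one_ne_zero h3

lemma x_ne {A x : L} (h : x ^ 3 - A * x ^ 2 - (A + 3) * x - 1 = 0) : x ≠ 0 := by
  intro h1
  rw [h1] at h
  have h3 : (1 : L) = 0 := by linear_combination -h
  exact one_ne_zero h3

lemma ph_ph {A x : L} (h : x ^ 3 - A * x ^ 2 - (A + 3) * x - 1 = 0) : ph (ph x) = -(1 + x) / x := by
  have h1 := one_add_ne h
  have h2 := x_ne h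
  have h3 : 1 + -1 / (1 + x) = x / (1 + x) := by field_simp; ring
  rw [ph, ph, h3]
  field_simp

lemma ph_ph_ph {A x : L} (h : x ^ 3 - A * x ^ 2 - (A + 3) * x - 1 = 0) : ph (ph (ph x)) = x := by
  have h1 := one_add_ne h
  have h2 := x_ne h
  rw [ph_ph h, ph]
  have h3 : 1 + -(1 + x) / x = -1 / x := by field_simp; ring
  rw [h3]
  field_simp

lemma ph_root {A x : L} (h : x ^ 3 - A * x ^ 2 - (A + 3) * x - 1 = 0) :
    ph x ^ 3 - A * ph x ^ 2 - (A + 3) * ph x - 1 = 0 := by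
  have h1 := one_add_ne h
  rw [ph]
  field_simp
  linear_combination -h

/-- `x² + x + 1` does not vanish -/
lemma om_ne {A x : L} (h : x ^ 3 - A * x ^ 2 - (A + 3) * x - 1 = 0) (hD : A ^ 2 + 3 * A + 9 ≠ 0) :
    x ^ 2 + x + 1 ≠ 0 := by
  intro h1
  have h2 : A = 3 * x := by linear_combination h + (A + 1 - x) * h1
  apply hD
  rw [h2]
  linear_combination 9 * h1

lemma x_ne_ph {A x : L} (h : x ^ 3 - A * x ^ 2 - (A + 3) * x - 1 = 0) (hD : A ^ 2 + 3 * A + 9 ≠ 0) :
    x ≠ ph x := by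
  intro h1
  have h2 := one_add_ne h
  rw [ph, eq_div_iff h2] at h1
  exact om_ne h hD (by linear_combination h1)

/-- the discriminant -/
lemma disc {A x : L} (h : x ^ 3 - A * x ^ 2 - (A + 3) * x - 1 = 0) :
    A ^ 2 + 3 * A + 9 = -((x - ph x) * (ph x - ph (ph x)) * (ph (ph x) - x)) := by
  have h1 := one_add_ne h
  have h2 := x_ne h
  have h3 : A = (x ^ 3 - 3 * x - 1) / (x * (1 + x)) := by
    rw [eq_div_iff (mul_ne_zero h2 h1)]
    linear_combination -h
  rw [ph_ph h, ph, h3]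
  field_simp
  ring

/-- the roots -/
lemma roots {A x z : L} (h : x ^ 3 - A * x ^ 2 - (A + 3) * x - 1 = 0)
    (hz : z ^ 3 - A * z ^ 2 - (A + 3) * z - 1 = 0) : z = x ∨ z = ph x ∨ z = ph (ph x) := by
  have h1 := one_add_ne h
  have h2 := x_ne h
  have h3 : A = (x ^ 3 - 3 * x - 1) / (x * (1 + x)) := by
    rw [eq_div_iff (mul_ne_zero h2 h1)]
    linear_combination -h
  have h4 : (z - x) * ((z - ph x) * (z - ph (ph x))) = 0 := by
    rw [← hz, ph_ph h, ph, h3]
    field_simp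
    ring
  rcases mul_eq_zero.1 h4 with h5 | h5
  · left; linear_combination h5
  · rcases mul_eq_zero.1 h5 with h6 | h6
    · right; left; linear_combination h6
    · right; right; linear_combination h6

lemma iter_mod {A x : L} (h : x ^ 3 - A * x ^ 2 - (A + 3) * x - 1 = 0) (n : ℕ) : ph^[n % 3] x = ph^[n] x := by
  have h1 : Function.IsPeriodicPt ph 3 x := ph_ph_ph h
  exact h1.iterate_mod_apply n

lemma iter_root {A x : L} (h : x ^ 3 - A * x ^ 2 - (A + 3) * x - 1 = 0) (n : ℕ) :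
    (ph^[n] x) ^ 3 - A * (ph^[n] x) ^ 2 - (A + 3) * (ph^[n] x) - 1 = 0 := by
  induction n with
  | zero => exact h
  | succ n ih =>
    rw [Function.iterate_succ_apply']
    exact ph_root ih

lemma iter_inj {A x : L} (h : x ^ 3 - A * x ^ 2 - (A + 3) * x - 1 = 0) (hD : A ^ 2 + 3 * A + 9 ≠ 0)
    (i j : ZMod 3) (hij : ph^[i.val] x = ph^[j.val] x) : i = j := by
  have a0 := x_ne_ph h hD
  have a1 := x_ne_ph (ph_root h) hD
  have a2 := x_ne_ph (ph_root (ph_root h)) hD
  rw [ph_ph_ph h] at a2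
  fin_cases i <;> fin_cases j <;> first | rfl | (exfalso; revert hij; simp only [ZMod.val]; change ¬ _; first | exact a0 | exact a0.symm | exact a1 | exact a1.symm | exact a2 | exact a2.symm)

end alg

/-! ### The character -/

section chi

variable {M L : Type} [Field M] [Field L] [Algebra M L]

lemma map_ph (g : L ≃ₐ[M] L) (z : L) : g (ph z) = ph (g z) := by
  rw [ph, ph, map_div₀, map_add, map_neg, map_one]

lemma map_iter (g : L ≃ₐ[M] L) (z : L) (n : ℕ) : g (ph^[n] z) = ph^[n] (g z) := by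
  induction n with
  | zero => rfl
  | succ n ih => rw [Function.iterate_succ_apply', Function.iterate_succ_apply', map_ph, ih]

lemma map_root {a : M} {x : L} (h : x ^ 3 - algebraMap M L a * x ^ 2 - (algebraMap M L a + 3) * x - 1 = 0)
    (g : L ≃ₐ[M] L) : g x ^ 3 - algebraMap M L a * g x ^ 2 - (algebraMap M L a + 3) * g x - 1 = 0 := by
  have h1 := congrArg g h
  rw [map_sub, map_sub, map_sub, map_mul, map_mul, map_add, map_pow, map_pow, map_one, map_zero,
    AlgEquiv.commutes, map_ofNat] at h1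
  exact h1

lemma exists_idx {a : M} {x : L} (h : x ^ 3 - algebraMap M L a * x ^ 2 - (algebraMap M L a + 3) * x - 1 = 0)
    (g : L ≃ₐ[M] L) : ∃ i : ZMod 3, g x = ph^[i.val] x := by
  rcases roots h (map_root h g) with h1 | h1 | h1
  · exact ⟨0, h1⟩
  · exact ⟨1, h1⟩
  · exact ⟨2, h1⟩

theorem exists_chi {a : M} {x : L} (h : x ^ 3 - algebraMap M L a * x ^ 2 - (algebraMap M L a + 3) * x - 1 = 0)
    (hD : algebraMap M L a ^ 2 + 3 * algebraMap M L a + 9 ≠ 0) :
    ∃ χ : (L ≃ₐ[M] L) →* Multiplicative (ZMod 3), ∀ g, χ g = 1 ↔ g x = x := by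
  choose c hc using exists_idx (M := M) h
  have hmul : ∀ g g', c (g * g') = c g + c g' := by
    intro g g'
    apply iter_inj h hD
    rw [← hc, AlgEquiv.mul_apply, hc g', map_iter, hc g, ← Function.iterate_add_apply, ZMod.val_add,
      iter_mod h, add_comm]
  refine ⟨MonoidHom.mk' (fun g => Multiplicative.ofAdd (c g)) (fun g g' => by rw [hmul, ofAdd_add]), fun g => ?_⟩
  rw [MonoidHom.mk'_apply, ofAdd_eq_one]
  constructor
  · intro h1
    rw [hc g, h1]
    rfl
  · intro h1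
    apply iter_inj h hD
    rw [← hc, h1]
    rfl

end chi

/-! ### Inertia groups outside `D` -/

section two

variable {M L : Type} [Field M] [NumberField M] [Field L] [NumberField L] [Algebra M L]

omit [NumberField M] [NumberField L] in
lemma isIntegral_root (a : 𝓞 M) {x : L}
    (h : x ^ 3 - algebraMap M L (a : M) * x ^ 2 - (algebraMap M L (a : M) + 3) * x - 1 = 0) : IsIntegral ℤ x := by
  have h1 : IsIntegral (𝓞 L) x := by
    refine ⟨Polynomial.X ^ 3 - Polynomial.C (algebraMap (𝓞 M) (𝓞 L) a) * Polynomial.X ^ 2 -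
      Polynomial.C (algebraMap (𝓞 M) (𝓞 L) a + 3) * Polynomial.X - 1, ?_, ?_⟩
    · monicity!
    · have e : algebraMap (𝓞 L) L (algebraMap (𝓞 M) (𝓞 L) a) = algebraMap M L (a : M) := rfl
      simp only [Polynomial.eval₂_sub, Polynomial.eval₂_mul, Polynomial.eval₂_pow, Polynomial.eval₂_X,
        Polynomial.eval₂_C, Polynomial.eval₂_one, map_add, map_ofNat, Polynomial.eval₂_add,
        Polynomial.eval₂_ofNat]
      rw [e]
      exact h
  exact isIntegral_trans x h1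

theorem two (a : 𝓞 M) {x : L}
    (h : x ^ 3 - algebraMap M L (a : M) * x ^ 2 - (algebraMap M L (a : M) + 3) * x - 1 = 0)
    (w : HeightOneSpectrum (𝓞 L)) (g : L ≃ₐ[M] L) (hg : InIn w g)
    (hD : a ^ 2 + 3 * a + 9 ∉ (w.under (𝓞 M)).asIdeal) : g x = x := by
  obtain ⟨X, rfl⟩ : ∃ X : 𝓞 L, (X : L) = x := ⟨⟨x, isIntegral_root a h⟩, rfl⟩
  obtain ⟨Y, hY⟩ : ∃ Y : 𝓞 L, (Y : L) = ph (X : L) := ⟨⟨_, isIntegral_root a (ph_root h)⟩, rfl⟩
  obtain ⟨Z, hZ⟩ : ∃ Z : 𝓞 L, (Z : L) = ph (ph (X : L)) := ⟨⟨_, isIntegral_root a (ph_root (ph_root h))⟩, rfl⟩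
  have hdisc : algebraMap (𝓞 M) (𝓞 L) (a ^ 2 + 3 * a + 9) = -((X - Y) * (Y - Z) * (Z - X)) := by
    apply RingOfIntegers.ext
    have e : ((algebraMap (𝓞 M) (𝓞 L) (a ^ 2 + 3 * a + 9) : 𝓞 L) : L) =
        algebraMap M L (a : M) ^ 2 + 3 * algebraMap M L (a : M) + 9 := by
      have e1 : ((algebraMap (𝓞 M) (𝓞 L) (a ^ 2 + 3 * a + 9) : 𝓞 L) : L) =
        algebraMap M L ((a ^ 2 + 3 * a + 9 : 𝓞 M) : M) := rfl
      rw [e1]
      simp only [map_add, map_mul, map_pow, map_ofNat]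
    rw [e, disc h, ← hZ, ← hY]
    simp only [map_neg, map_mul, map_sub]
  by_contra hne
  apply hD
  change algebraMap (𝓞 M) (𝓞 L) (a ^ 2 + 3 * a + 9) ∈ w.asIdeal
  rw [hdisc]
  apply neg_mem
  rcases roots h (map_root h g) with h1 | h1 | h1
  · exact absurd h1 hne
  · have h2 := hg X Y (by rw [hY, h1])
    have h3 : (X - Y) * (Y - Z) * (Z - X) = (-((Y - Z) * (Z - X))) * (Y - X) := by ring
    rw [h3]
    exact w.asIdeal.mul_mem_left _ h2
  · have h2 := hg X Z (by rw [hZ, h1])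
    exact w.asIdeal.mul_mem_left _ h2

end two

/-! ### Inertia groups above the primes which divide `D` once -/

section three

variable {M L : Type} [Field M] [NumberField M] [Field L] [NumberField L] [Algebra M L]

lemma inIn_iff (w : HeightOneSpectrum (𝓞 L)) (g : L ≃ₐ[M] L) : InIn w g ↔ g ∈ w.asIdeal.inertia (L ≃ₐ[M] L) := by
  constructor
  · intro h X
    exact h X (g • X) rfl
  · intro h X Y hY
    have h1 := h X
    have h2 : g • X = Y := RingOfIntegers.ext hY.symm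
    rwa [h2] at h1

/-- the prime of the inertia field is unramified -/
theorem ram_one [IsGalois M L] (w : HeightOneSpectrum (𝓞 L)) :
    ∃ (E : IntermediateField M L), (∀ z : L, (∀ g, InIn (M := M) w g → g z = z) → z ∈ E) ∧
      (w.under (𝓞 M)).asIdeal.ramificationIdx' (w.under (𝓞 E)).asIdeal = 1 := by
  set I : Subgroup (L ≃ₐ[M] L) := w.asIdeal.inertia (L ≃ₐ[M] L) with hI
  refine ⟨FixedPoints.intermediateField I, ?_, ?_⟩
  · intro z hz
    rintro ⟨g, hg⟩
    exact hz g ((inIn_iff w g).2 hg)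
  · set E : IntermediateField M L := FixedPoints.intermediateField I with hE
    have i1 : w.asIdeal.LiesOver (w.under (𝓞 M)).asIdeal := ⟨rfl⟩
    have i2 : w.asIdeal.LiesOver (w.under (𝓞 E)).asIdeal := ⟨rfl⟩
    have i3 : (w.under (𝓞 E)).asIdeal.LiesOver (w.under (𝓞 M)).asIdeal := ⟨rfl⟩
    have f1 : Finite (𝓞 M ⧸ (w.under (𝓞 M)).asIdeal) :=
      Ring.HasFiniteQuotients.finiteQuotient (w.under (𝓞 M)).ne_bot
    have f2 : Finite (𝓞 E ⧸ (w.under (𝓞 E)).asIdeal) :=
      Ring.HasFiniteQuotients.finiteQuotient (w.under (𝓞 E)).ne_bot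
    have m1 : (w.under (𝓞 M)).asIdeal.IsMaximal := (w.under (𝓞 M)).isMaximal
    have m2 : (w.under (𝓞 E)).asIdeal.IsMaximal := (w.under (𝓞 E)).isMaximal
    have c1 : Nat.card (w.asIdeal.inertia (L ≃ₐ[M] L)) = Ideal.ramificationIdxIn (w.under (𝓞 M)).asIdeal (𝓞 L) :=
      Ideal.card_inertia_eq_ramificationIdxIn (w.under (𝓞 M)).asIdeal w.asIdeal
    have g2 : IsGaloisGroup I E L := IsGaloisGroup.subgroup (L ≃ₐ[M] L) M L I
    have g3 : IsGaloisGroup I (𝓞 E) (𝓞 L) := IsGaloisGroup.of_isFractionRing I (𝓞 E) (𝓞 L) E L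
    have c2 : Nat.card (w.asIdeal.inertia I) = Ideal.ramificationIdxIn (w.under (𝓞 E)).asIdeal (𝓞 L) :=
      Ideal.card_inertia_eq_ramificationIdxIn (G := I) (w.under (𝓞 E)).asIdeal w.asIdeal
    have c3 : w.asIdeal.inertia I = ⊤ := by
      rw [eq_top_iff]
      intro g _ X
      exact g.2 X
    rw [c3, Subgroup.card_top, hI, c1] at c2
    rw [Ideal.ramificationIdxIn_eq_ramificationIdx _ w.asIdeal (L ≃ₐ[M] L),
      Ideal.ramificationIdxIn_eq_ramificationIdx _ w.asIdeal I] at c2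
    have c4 := Ideal.ramificationIdx_tower (R := 𝓞 M) (w.under (𝓞 E)).asIdeal w.asIdeal
    rw [Ideal.ramificationIdx'_eq_ramificationIdx _ _ (w.under (𝓞 M)).ne_bot]
    rw [c2] at c4
    have c5 : 0 < w.asIdeal.ramificationIdx (𝓞 E) := Ideal.ramificationIdx_pos w.asIdeal (𝓞 E)
    exact Nat.eq_of_mul_eq_mul_right c5 (by rw [one_mul]; exact c4.symm)

open WithZero in
theorem three [IsGalois M L] (a : 𝓞 M) {x : L}
    (h : x ^ 3 - algebraMap M L (a : M) * x ^ 2 - (algebraMap M L (a : M) + 3) * x - 1 = 0)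
    (v : HeightOneSpectrum (𝓞 M)) (h3 : (3 : 𝓞 M) ∉ v.asIdeal) (hD1 : a ^ 2 + 3 * a + 9 ∈ v.asIdeal)
    (hD2 : a ^ 2 + 3 * a + 9 ∉ v.asIdeal ^ 2) (w : HeightOneSpectrum (𝓞 L)) (hw : w.under (𝓞 M) = v) :
    ∃ g : L ≃ₐ[M] L, InIn w g ∧ g x ≠ x := by
  by_contra hcon
  have hcon' : ∀ g : L ≃ₐ[M] L, InIn w g → g x = x := fun g hg => by
    by_contra hne
    exact hcon ⟨g, hg, hne⟩
  obtain ⟨E, hE, hram⟩ := ram_one (M := M) w
  rw [hw] at hram
  have hx : x ∈ E := hE x hcon'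
  obtain ⟨X, hX⟩ : ∃ X : 𝓞 E, (((X : 𝓞 E) : E) : L) = x := by
    refine ⟨⟨⟨x, hx⟩, ?_⟩, rfl⟩
    have h1 : IsIntegral ℤ (algebraMap E L ⟨x, hx⟩) := isIntegral_root a h
    exact (isIntegral_algebraMap_iff (algebraMap E L).injective).1 h1
  have i3 : (w.under (𝓞 E)).asIdeal.LiesOver v.asIdeal := by
    rw [← hw]
    exact ⟨rfl⟩
  set q : HeightOneSpectrum (𝓞 E) := w.under (𝓞 E) with hq
  set α : 𝓞 E := algebraMap (𝓞 M) (𝓞 E) a with hα
  have hroot : X ^ 3 - α * X ^ 2 - (α + 3) * X - 1 = 0 := by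
    apply RingOfIntegers.ext
    apply (algebraMap E L).injective
    have e : algebraMap E L ((α : 𝓞 E) : E) = algebraMap M L (a : M) := rfl
    have e' : algebraMap E L ((X : 𝓞 E) : E) = x := hX
    simp only [map_sub, map_mul, map_add, map_pow, map_one, map_zero, map_ofNat, e, e']
    exact h
  have hDα : algebraMap (𝓞 M) (𝓞 E) (a ^ 2 + 3 * a + 9) = α ^ 2 + 3 * α + 9 := by
    simp only [map_add, map_mul, map_pow, map_ofNat, hα]
  have hY : (3 * X - α) ^ 3 = algebraMap (𝓞 M) (𝓞 E) (a ^ 2 + 3 * a + 9) * (3 * (3 * X - α) + (2 * α + 3)) := by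
    rw [hDα]
    linear_combination 27 * hroot
  set Y : 𝓞 E := 3 * X - α with hYd
  have hDq : algebraMap (𝓞 M) (𝓞 E) (a ^ 2 + 3 * a + 9) ∈ q.asIdeal := by
    have h1 : a ^ 2 + 3 * a + 9 ∈ q.asIdeal.under (𝓞 M) := by
      rw [← i3.over]
      exact hD1
    exact h1
  have hYq : Y ∈ q.asIdeal := by
    apply q.isPrime.mem_of_pow_mem 3
    rw [hY]
    exact q.asIdeal.mul_mem_right _ hDq
  have hU : 3 * Y + (2 * α + 3) ∉ q.asIdeal := by
    intro h1
    have h2 : 2 * α + 3 ∈ q.asIdeal := by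
      have h4 := q.asIdeal.sub_mem h1 (q.asIdeal.mul_mem_left 3 hYq)
      rwa [add_sub_cancel_left] at h4
    have h4 : (2 * a + 3 : 𝓞 M) ∈ v.asIdeal := by
      rw [i3.over]
      change algebraMap (𝓞 M) (𝓞 E) (2 * a + 3) ∈ q.asIdeal
      simpa only [map_add, map_mul, map_ofNat] using h2
    have h5 : (3 : 𝓞 M) ^ 3 ∈ v.asIdeal := by
      have h6 := v.asIdeal.sub_mem (v.asIdeal.mul_mem_left 4 hD1) (v.asIdeal.mul_mem_left (2 * a + 3) h4)
      have h7 : (3 : 𝓞 M) ^ 3 = 4 * (a ^ 2 + 3 * a + 9) - (2 * a + 3) * (2 * a + 3) := by ring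
      rw [h7]
      exact h6
    exact h3 (v.isPrime.mem_of_pow_mem 3 h5)
  have hD0 : a ^ 2 + 3 * a + 9 ≠ 0 := by
    intro h1
    exact hD2 (by rw [h1]; exact zero_mem _)
  have hv : v.intValuation (a ^ 2 + 3 * a + 9) = exp (-1 : ℤ) := by
    have h1 := (v.intValuation_le_pow_iff_mem (a ^ 2 + 3 * a + 9) 1).2 (by rwa [pow_one])
    have h2 := mt (v.intValuation_le_pow_iff_mem (a ^ 2 + 3 * a + 9) 2).1 hD2
    rw [v.intValuation_eq_exp_neg_multiplicity hD0] at h1 h2 ⊢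
    rw [exp_le_exp] at h1 h2
    congr 1
    push_cast at h1 h2
    omega
  have hqD : q.intValuation (algebraMap (𝓞 M) (𝓞 E) (a ^ 2 + 3 * a + 9)) = exp (-1 : ℤ) := by
    have h1 := HeightOneSpectrum.intValuation_liesOver v q (a ^ 2 + 3 * a + 9)
    rw [hram, pow_one] at h1
    rw [← h1, hv]
  have hqU : q.intValuation (3 * Y + (2 * α + 3)) = 1 := by
    apply le_antisymm (q.intValuation_le_one _)
    rw [← not_lt, q.intValuation_lt_one_iff_mem]
    exact hU
  have hfin := congrArg q.intValuation hY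
  rw [map_mul, map_pow, hqD, hqU, mul_one] at hfin
  have hY0 : Y ≠ 0 := by
    intro h1
    rw [h1, map_zero, zero_pow (by norm_num)] at hfin
    exact exp_ne_zero hfin.symm
  rw [q.intValuation_eq_exp_neg_multiplicity hY0, ← exp_nsmul, exp_inj] at hfin
  rw [nsmul_eq_mul] at hfin
  push_cast at hfin
  omega

end three

end CUBQN

/-- **CUBQ** -/
theorem cubq : S_CUBQ := by
  intro M L _ _ _ _ _ _ a x hD h
  refine ⟨?_, fun w g hg hDw => CUBQN.two a h w g hg hDw, fun v h3 hD1 hD2 w hw =>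
    CUBQN.three a h v h3 hD1 hD2 w hw⟩
  apply CUBQN.exists_chi h
  intro h1
  apply hD
  apply RingOfIntegers.ext
  apply (algebraMap M L).injective
  simp only [map_add, map_mul, map_pow, map_ofNat, map_zero]
  exact h1

end Pool.Agent.H429.MZQ
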