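import Pool.Agent.H429.MZQ.StmH
import Pool.Graph.R_pool_sql_team_seeded_3997aac3.Q238.MZ.Inr
import Pool.Graph.R_pool_sql_team_seeded_3997aac3.Q280.AR.Unr

/-!
# Project MZQ (helper429), job CYCQ (helper728)
-/

set_option autoImplicit false
set_option linter.unusedSectionVars false

namespace Pool.Agent.H429.MZQ

namespace CYCQN

open NumberField IsDedekindDomain Module Polynomial
open Pool.Agent.Q92.AR (Unramified)

/-- the residue fields at the primes above `q ≡ 1 mod r` of a cyclotomic field -/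
lemma resid (C : Type) [Field C] [NumberField C] (r q : ℕ) [NeZero r] [Fact q.Prime]
    [IsCyclotomicExtension {r} ℚ C] (hqr : q ≡ 1 [MOD r]) (P : Ideal (𝓞 C)) (hP : P.IsMaximal)
    (hq : (q : 𝓞 C) ∈ P) (x : 𝓞 C) : ∃ n : ℤ, x - n ∈ P := by
  let _ : Field (𝓞 C ⧸ P) := Ideal.Quotient.field P
  have : CharP (𝓞 C ⧸ P) q := by
    have h0 : ((q : ℕ) : 𝓞 C ⧸ P) = 0 := by
      have := Ideal.Quotient.eq_zero_iff_mem.2 hq
      rwa [map_natCast] at this
    exact (CharP.charP_iff_prime_eq_zero (Fact.out : q.Prime)).2 h0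
  have hz := IsCyclotomicExtension.zeta_spec r ℚ C
  have hadj := IsCyclotomicExtension.Rat.adjoin_singleton_eq_top hz
  let mk : 𝓞 C →+* 𝓞 C ⧸ P := Ideal.Quotient.mk P
  have key : (((frobenius (𝓞 C ⧸ P) q).comp mk).toIntAlgHom) = mk.toIntAlgHom := by
    apply AlgHom.ext_of_adjoin_eq_top hadj
    intro y hy
    rw [Set.mem_singleton_iff] at hy
    subst hy
    show frobenius (𝓞 C ⧸ P) q (mk hz.toInteger) = mk hz.toInteger
    rw [frobenius_def, ← map_pow]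
    congr 1
    have h1 : hz.toInteger ^ r = 1 := hz.toInteger_isPrimitiveRoot.pow_eq_one
    obtain ⟨k, hk⟩ := (Nat.modEq_iff_dvd' (Nat.Prime.one_le (Fact.out : q.Prime))).1 hqr.symm
    have hk' : q = r * k + 1 := by
      have := Nat.Prime.one_le (Fact.out : q.Prime)
      omega
    rw [hk', pow_succ, pow_mul, h1, one_pow, one_mul]
  have hx : (mk x) ^ q = mk x := by
    have := congrArg (fun f => f x) key
    exact this
  rw [← Subfield.mem_bot_iff_pow_eq_self (𝓞 C ⧸ P) q] at hx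
  obtain ⟨n, hn⟩ := (mem_bot_iff_intCast q (𝓞 C ⧸ P)).1 hx
  refine ⟨n, ?_⟩
  rw [← Ideal.Quotient.eq_zero_iff_mem, map_sub, map_intCast, sub_eq_zero]
  exact hn.symm

/-- the action on the integers -/
noncomputable def act {M : Type} [Field M] [NumberField M] (g : M ≃ₐ[ℚ] M) : 𝓞 M ≃+* 𝓞 M :=
  RingOfIntegers.mapRingEquiv g.toRingEquiv

lemma act_coe {M : Type} [Field M] [NumberField M] (g : M ≃ₐ[ℚ] M) (x : 𝓞 M) :
    ((act g x : 𝓞 M) : M) = g x := rfl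

/-- the decomposition group is trivial -/
lemma triv (M C : Type) [Field M] [NumberField M] [Field C] [NumberField C] [Algebra M C]
    (r q : ℕ) [NeZero r] [Fact q.Prime]
    [IsCyclotomicExtension {r} ℚ C] (hqr : q ≡ 1 [MOD r]) (Q : HeightOneSpectrum (𝓞 M))
    (hq : (q : 𝓞 M) ∈ Q.asIdeal) (hr : (r : 𝓞 M) ∉ Q.asIdeal) :
    Unramified M (Q.under (𝓞 ℚ)) ∧
    ∀ g : M ≃ₐ[ℚ] M, (∀ x ∈ Q.asIdeal, act g x ∈ Q.asIdeal) → g = 1 := by
  have hu : Unramified M (Q.under (𝓞 ℚ)) := by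
    apply Pool.Agent.Q92.AR.Unramified.sub (M := C)
    apply Pool.Agent.Q280.AR.unr1 ℚ C r
    intro h
    apply hr
    have : algebraMap (𝓞 ℚ) (𝓞 M) (r : 𝓞 ℚ) ∈ Q.asIdeal := h
    rwa [map_natCast] at this
  refine ⟨hu, fun g hg => ?_⟩
  apply Pool.Agent.Q238.MZ.inr_trivial hu
  -- a prime of `C` above `Q`
  have hQm : Q.asIdeal.IsMaximal := Q.isMaximal
  obtain ⟨P, hP, hPQ⟩ := Ideal.exists_ideal_over_maximal_of_isIntegral (S := 𝓞 C) Q.asIdeal (by
    rw [(RingHom.injective_iff_ker_eq_bot _).1 (FaithfulSMul.algebraMap_injective (𝓞 M) (𝓞 C))]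
    exact bot_le)
  have hqP : (q : 𝓞 C) ∈ P := by
    rw [← hPQ] at hq
    have : algebraMap (𝓞 M) (𝓞 C) (q : 𝓞 M) ∈ P := hq
    rwa [map_natCast] at this
  intro x
  obtain ⟨n, hn⟩ := resid C r q hqr P hP hqP (algebraMap (𝓞 M) (𝓞 C) x)
  have hn' : x - n ∈ Q.asIdeal := by
    rw [← hPQ]
    show algebraMap (𝓞 M) (𝓞 C) (x - n) ∈ P
    rwa [map_sub, map_intCast]
  refine ⟨act g x - x, ?_, ?_⟩
  · have h1 := hg _ hn'
    rw [map_sub, map_intCast] at h1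
    have h2 := Q.asIdeal.sub_mem h1 hn'
    have h3 : act g x - n - (x - n) = act g x - x := by ring
    rwa [h3] at h2
  · rfl


lemma exists_e {M : Type} [Field M] [NumberField M] (Q : HeightOneSpectrum (𝓞 M))
    (hg : ∀ g : M ≃ₐ[ℚ] M, (∀ x ∈ Q.asIdeal, act g x ∈ Q.asIdeal) → g = 1) :
    ∃ e : 𝓞 M, e - 1 ∈ Q.asIdeal ^ 2 ∧ ∀ g : M ≃ₐ[ℚ] M, g ≠ 1 → act g e ∈ Q.asIdeal := by
  classical
  have hQm : Q.asIdeal.IsMaximal := Q.isMaximal
  have h1 : ∀ g : M ≃ₐ[ℚ] M, ∃ e : 𝓞 M, e - 1 ∈ Q.asIdeal ^ 2 ∧ (g ≠ 1 → act g e ∈ Q.asIdeal) := by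
    intro g
    by_cases h : g = 1
    · exact ⟨1, by rw [sub_self]; exact Ideal.zero_mem _, fun h' => absurd h h'⟩
    · let J : Ideal (𝓞 M) := Q.asIdeal.comap (act g)
      have hJ : J.IsMaximal := Ideal.comap_isMaximal_of_equiv (act g)
      have hne : J ≠ Q.asIdeal := by
        intro hJQ
        apply h
        apply hg
        intro x hx
        rw [← hJQ] at hx
        exact hx
      have hc : IsCoprime J (Q.asIdeal ^ 2) := by
        apply IsCoprime.pow_right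
        rw [Ideal.isCoprime_iff_sup_eq]
        exact hJ.coprime_of_ne hQm hne
      obtain ⟨i, hi, j, hj, hij⟩ := Ideal.isCoprime_iff_exists.1 hc
      refine ⟨i, ?_, fun _ => hi⟩
      have : i - 1 = -j := by rw [← hij]; ring
      rw [this]
      exact (Ideal.neg_mem_iff _).2 hj
  choose e he1 he2 using h1
  refine ⟨∏ g, e g, ?_, fun g hg1 => ?_⟩
  · rw [← Ideal.Quotient.mk_eq_mk_iff_sub_mem, map_prod, map_one]
    refine Finset.prod_eq_one fun g _ => ?_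
    rw [← map_one (Ideal.Quotient.mk (Q.asIdeal ^ 2)), Ideal.Quotient.mk_eq_mk_iff_sub_mem]
    exact he1 g
  · rw [map_prod]
    have h2 : act g (e g) ∣ ∏ h, act g (e h) := Finset.dvd_prod_of_mem _ (Finset.mem_univ g)
    exact Q.asIdeal.mem_of_dvd h2 (he2 g hg1)

lemma exists_alpha (N q : ℕ) [Fact q.Prime] (hq3 : q ≡ 1 [MOD 3]) (hNq : ¬ q ∣ N) :
    ∃ α : ℤ, (N : ℤ) ∣ α ∧ (q : ℤ) ∣ α ^ 2 + 3 * α + 9 ∧ ¬ (q : ℤ) ^ 2 ∣ α ^ 2 + 3 * α + 9 := by
  classical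
  have hq : q.Prime := Fact.out
  have hq1 : 1 ≤ q := hq.one_le
  obtain ⟨k, hk⟩ := (Nat.modEq_iff_dvd' hq1).1 hq3.symm
  have h3 : 3 ∣ Fintype.card (ZMod q)ˣ := by
    rw [ZMod.card_units q]
    exact ⟨k, hk⟩
  have : Fact (Nat.Prime 3) := ⟨Nat.prime_three⟩
  obtain ⟨u, hu⟩ := exists_prime_orderOf_dvd_card 3 h3
  have hu3 : u ^ 3 = 1 := by rw [← hu]; exact pow_orderOf_eq_one u
  have hu1 : u ≠ 1 := by
    rintro rfl
    rw [orderOf_one] at hu
    omega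
  have hv3 : (u : ZMod q) ^ 3 = 1 := by
    rw [← Units.val_pow_eq_pow_val, hu3, Units.val_one]
  have hv1 : (u : ZMod q) - 1 ≠ 0 := by
    intro h
    apply hu1
    ext
    rw [Units.val_one]
    exact sub_eq_zero.1 h
  have hv : (u : ZMod q) ^ 2 + u + 1 = 0 := by
    apply mul_left_cancel₀ hv1
    linear_combination hv3
  have hN0 : (N : ZMod q) ≠ 0 := by
    intro h
    exact hNq ((ZMod.natCast_eq_zero_iff N q).1 h)
  obtain ⟨n, hn⟩ := ZMod.intCast_surjective (3 * (u : ZMod q) * (N : ZMod q)⁻¹)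
  have hα : (((N : ℤ) * n : ℤ) : ZMod q) = 3 * u := by
    rw [Int.cast_mul, hn, Int.cast_natCast]
    field_simp
  have hd : (q : ℤ) ∣ ((N : ℤ) * n) ^ 2 + 3 * ((N : ℤ) * n) + 9 := by
    rw [← ZMod.intCast_zmod_eq_zero_iff_dvd]
    push_cast at hα ⊢
    rw [hα]
    linear_combination 9 * hv
  have hq3' : ¬ (q : ℤ) ∣ 27 := by
    intro h
    have h1 : q ∣ 27 := by exact_mod_cast h
    have h2 : q ∣ 3 ^ 3 := by norm_num; exact h1
    have h4 := hq.dvd_of_dvd_pow h2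
    have h5 := (Nat.prime_dvd_prime_iff_eq hq Nat.prime_three).1 h4
    rw [h5] at hk
    omega
  by_cases h2 : (q : ℤ) ^ 2 ∣ ((N : ℤ) * n) ^ 2 + 3 * ((N : ℤ) * n) + 9
  · refine ⟨(N : ℤ) * (n + q), dvd_mul_right _ _, ?_, ?_⟩
    · obtain ⟨c, hc⟩ := hd
      refine ⟨c + N * (2 * (N * n) + 3 + q * N), ?_⟩
      linear_combination hc
    · intro h4
      have h5 : (q : ℤ) ^ 2 ∣ q * (N * (2 * (N * n) + 3 + q * N)) := by
        have := dvd_sub h4 h2
        have e : ((N : ℤ) * (n + q)) ^ 2 + 3 * ((N : ℤ) * (n + q)) + 9 -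
          (((N : ℤ) * n) ^ 2 + 3 * ((N : ℤ) * n) + 9) = q * (N * (2 * (N * n) + 3 + q * N)) := by ring
        rwa [e] at this
      rw [pow_two] at h5
      have hq0 : (q : ℤ) ≠ 0 := by exact_mod_cast hq.ne_zero
      have h6 := (mul_dvd_mul_iff_left hq0).1 h5
      have hqp : Prime (q : ℤ) := Nat.prime_iff_prime_int.1 hq
      rcases hqp.dvd_or_dvd h6 with h7 | h7
      · exact hNq (by exact_mod_cast h7)
      · apply hq3'
        have h8 : (q : ℤ) ∣ 2 * (N * n) + 3 := by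
          have := dvd_sub h7 (dvd_mul_right (q : ℤ) N)
          rwa [add_sub_cancel_right] at this
        obtain ⟨c, hc⟩ := hd
        obtain ⟨d, hd'⟩ := h8
        refine ⟨4 * c - d * (2 * (N * n) + 3), ?_⟩
        linear_combination 4 * hc - (2 * (N * n) + 3) * hd'
  · exact ⟨(N : ℤ) * n, dvd_mul_right _ _, hd, h2⟩

lemma exists_beta (N q : ℕ) (hN : N ≠ 0) (hq3 : q ≡ 1 [MOD 3]) :
    ∃ β : ℤ, (q : ℤ) ^ 2 ∣ β ∧ IsCoprime (β ^ 2 + 3 * β + 9) (N : ℤ) := by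
  obtain ⟨k, N', h3, hN'⟩ := Nat.exists_eq_pow_mul_and_not_dvd hN 3 (by norm_num)
  have h3q : ¬ 3 ∣ q * N' := by
    intro h
    rcases (Nat.Prime.dvd_mul Nat.prime_three).1 h with h1 | h1
    · have := hq3
      unfold Nat.ModEq at this
      omega
    · exact h3 h1
  obtain ⟨c, hc⟩ : ∃ c : ℤ, ((q : ℤ) * N') ^ 2 = 1 + 3 * c := by
    obtain ⟨t, ht⟩ : ∃ t : ℤ, (q : ℤ) * N' = 3 * t + 1 ∨ (q : ℤ) * N' = 3 * t - 1 := by
      have h4 : ¬ (3 : ℤ) ∣ (q : ℤ) * N' := by exact_mod_cast h3q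
      have h5 : ((q : ℤ) * N') % 3 = 1 ∨ ((q : ℤ) * N') % 3 = 2 := by omega
      rcases h5 with h5 | h5
      · exact ⟨((q : ℤ) * N') / 3, Or.inl (by omega)⟩
      · exact ⟨((q : ℤ) * N') / 3 + 1, Or.inr (by omega)⟩
    rcases ht with ht | ht
    · exact ⟨3 * t ^ 2 + 2 * t, by rw [ht]; ring⟩
    · exact ⟨3 * t ^ 2 - 2 * t, by rw [ht]; ring⟩
  refine ⟨((q : ℤ) * N') ^ 2, ⟨(N' : ℤ) ^ 2, by ring⟩, ?_⟩
  rw [hN']
  push_cast
  apply IsCoprime.mul_right
  · apply IsCoprime.pow_right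
    rw [hc]
    refine ⟨1, -(5 * c + 3 * c ^ 2 + 4), ?_⟩
    ring
  · have h9 : IsCoprime (9 : ℤ) (N' : ℤ) := by
      have : (9 : ℤ) = 3 ^ 2 := by norm_num
      rw [this]
      apply IsCoprime.pow_left
      rw [Int.isCoprime_iff_gcd_eq_one]
      have := (Nat.Prime.coprime_iff_not_dvd Nat.prime_three).2 h3
      exact_mod_cast this
    obtain ⟨x, y, hxy⟩ := h9
    refine ⟨x, y - x * ((q : ℤ) ^ 2 * N' * (((q : ℤ) * N') ^ 2 + 3)), ?_⟩
    linear_combination hxy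


/-- the element `a` -/
lemma exists_a (M : Type) [Field M] [NumberField M] (N q : ℕ) [Fact q.Prime] (hN : N ≠ 0)
    (hq3 : q ≡ 1 [MOD 3]) (hNq : ¬ q ∣ N) (Q : HeightOneSpectrum (𝓞 M))
    (hq : (q : 𝓞 M) ∈ Q.asIdeal) (hu : Unramified M (Q.under (𝓞 ℚ)))
    (hg : ∀ g : M ≃ₐ[ℚ] M, (∀ x ∈ Q.asIdeal, act g x ∈ Q.asIdeal) → g = 1) :
    ∃ a : 𝓞 M, (3 : 𝓞 M) ∉ Q.asIdeal ∧ a ^ 2 + 3 * a + 9 ∈ Q.asIdeal ∧
      a ^ 2 + 3 * a + 9 ∉ Q.asIdeal ^ 2 ∧
      (∀ (g : M ≃ₐ[ℚ] M) (y : 𝓞 M), (y : M) = g ((a ^ 2 + 3 * a + 9 : 𝓞 M) : M) → g ≠ 1 →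
        y ∉ Q.asIdeal) ∧
      (∀ (g : M ≃ₐ[ℚ] M) (y : 𝓞 M), (y : M) = g ((a ^ 2 + 3 * a + 9 : 𝓞 M) : M) →
        ∀ w : HeightOneSpectrum (𝓞 M), ((N : ℕ) : 𝓞 M) ∈ w.asIdeal → y ∉ w.asIdeal) := by
  obtain ⟨e, he1, he2⟩ := exists_e Q hg
  obtain ⟨α, hα1, hα2, hα3⟩ := exists_alpha N q hq3 hNq
  obtain ⟨β, hβ1, hβ2⟩ := exists_beta N q hN hq3
  have hqp : q.Prime := Fact.out
  have hQp : Q.asIdeal.IsPrime := Q.isPrime
  have hQ1 : (1 : 𝓞 M) ∉ Q.asIdeal := fun h => hQp.ne_top ((Ideal.eq_top_iff_one _).2 h)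
  -- the integers in `Q`
  have hint : ∀ n : ℤ, (n : 𝓞 M) ∈ Q.asIdeal → (q : ℤ) ∣ n := by
    intro n hn
    by_contra hnd
    have hc : IsCoprime (q : ℤ) n := by
      rw [Int.isCoprime_iff_gcd_eq_one]
      have h1 : Prime (q : ℤ) := Nat.prime_iff_prime_int.1 hqp
      exact Int.isCoprime_iff_gcd_eq_one.1 ((Prime.coprime_iff_not_dvd h1).2 hnd)
    obtain ⟨x, y, hxy⟩ := hc
    apply hQ1
    have h2 : (1 : 𝓞 M) = x * q + y * n := by
      have := congrArg (fun z : ℤ => (z : 𝓞 M)) hxy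
      push_cast at this
      exact this.symm
    rw [h2]
    exact Q.asIdeal.add_mem (Q.asIdeal.mul_mem_left _ hq) (Q.asIdeal.mul_mem_left _ hn)
  have h3 : (3 : 𝓞 M) ∉ Q.asIdeal := by
    intro h
    have h1 : (q : ℤ) ∣ 3 := hint 3 (by exact_mod_cast h)
    have h2 : q ∣ 3 := by exact_mod_cast h1
    have h5 := (Nat.prime_dvd_prime_iff_eq hqp Nat.prime_three).1 h2
    rw [h5] at hq3
    exact absurd hq3 (by decide)
  have hβQ2 : (β : 𝓞 M) ∈ Q.asIdeal ^ 2 := by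
    obtain ⟨c, hc⟩ := hβ1
    rw [hc]
    push_cast
    exact Ideal.mul_mem_right _ _ (Ideal.pow_mem_pow hq 2)
  have hβQ : (β : 𝓞 M) ∈ Q.asIdeal := Ideal.pow_le_self two_ne_zero hβQ2
  -- the polynomial
  have hact : ∀ (a : 𝓞 M) (g : M ≃ₐ[ℚ] M) (y : 𝓞 M),
      (y : M) = g ((a ^ 2 + 3 * a + 9 : 𝓞 M) : M) →
        y = (act g a) ^ 2 + 3 * act g a + 9 := by
    intro a g y hy
    have h1 : y = act g (a ^ 2 + 3 * a + 9) := by
      apply RingOfIntegers.ext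
      rw [act_coe]
      exact hy
    rw [h1, map_add, map_add, map_mul, map_pow]
    have h3 : act g (3 : 𝓞 M) = 3 := map_ofNat (act g) 3
    have h9 : act g (9 : 𝓞 M) = 9 := map_ofNat (act g) 9
    rw [h3, h9]
  have hacta : ∀ g : M ≃ₐ[ℚ] M, act g (α * e + β) = α * act g e + β := by
    intro g
    rw [map_add, map_mul, map_intCast, map_intCast]
  have hdiff : ((α * e + β : 𝓞 M) ^ 2 + 3 * (α * e + β) + 9) - ((α ^ 2 + 3 * α + 9 : ℤ) : 𝓞 M) ∈
      Q.asIdeal ^ 2 := by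
    have h1 : ((α * e + β : 𝓞 M) ^ 2 + 3 * (α * e + β) + 9) - ((α ^ 2 + 3 * α + 9 : ℤ) : 𝓞 M) =
        (α * (e - 1) + β) * (α * e + β + α + 3) := by
      push_cast
      ring
    rw [h1]
    exact Ideal.mul_mem_right _ _ (Ideal.add_mem _ (Ideal.mul_mem_left _ _ he1) hβQ2)
  have hαQ : ((α ^ 2 + 3 * α + 9 : ℤ) : 𝓞 M) ∈ Q.asIdeal := by
    obtain ⟨c, hc⟩ := hα2
    rw [hc]
    push_cast
    exact Ideal.mul_mem_right _ _ hq
  refine ⟨α * e + β, h3, ?_, ?_, ?_, ?_⟩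
  · have := Q.asIdeal.add_mem (Ideal.pow_le_self two_ne_zero hdiff) hαQ
    rwa [sub_add_cancel] at this
  · intro hD
    have h1 : ((α ^ 2 + 3 * α + 9 : ℤ) : 𝓞 M) ∈ Q.asIdeal ^ 2 := by
      have := Ideal.sub_mem _ hD hdiff
      rwa [sub_sub_cancel] at this
    obtain ⟨c, hc⟩ := hα2
    rw [hc] at h1
    push_cast at h1
    rw [mul_comm] at h1
    rcases Ideal.IsPrime.mul_mem_pow Q.asIdeal h1 with h2 | h2
    · obtain ⟨d, hd⟩ := hint c h2
      apply hα3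
      rw [hc, hd]
      exact ⟨d, by ring⟩
    · apply hu Q rfl
      rw [Ideal.map_le_iff_le_comap]
      intro x hx
      have hx' : algebraMap (𝓞 ℚ) (𝓞 M) x ∈ Q.asIdeal := hx
      obtain ⟨n, hn⟩ : ∃ n : ℤ, x = n := by
        refine ⟨Rat.ringOfIntegersEquiv x, ?_⟩
        apply Rat.ringOfIntegersEquiv.injective
        rw [map_intCast]
        simp
      rw [hn, map_intCast] at hx'
      obtain ⟨d, hd⟩ := hint n hx'
      show algebraMap (𝓞 ℚ) (𝓞 M) x ∈ Q.asIdeal ^ 2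
      rw [hn, map_intCast, hd]
      push_cast
      exact Ideal.mul_mem_right _ _ h2
  · intro g y hy hg1 hyQ
    rw [hact _ g y hy, hacta] at hyQ
    have h1 : (α * act g e + β : 𝓞 M) ∈ Q.asIdeal :=
      Ideal.add_mem _ (Ideal.mul_mem_left _ _ (he2 g hg1)) hβQ
    have h2 : (9 : 𝓞 M) ∈ Q.asIdeal := by
      have h4 : (α * act g e + β : 𝓞 M) ^ 2 + 3 * (α * act g e + β) ∈ Q.asIdeal := by
        have e4 : (α * act g e + β : 𝓞 M) ^ 2 + 3 * (α * act g e + β) =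
          (α * act g e + β) * ((α * act g e + β) + 3) := by ring
        rw [e4]
        exact Ideal.mul_mem_right _ _ h1
      have := Ideal.sub_mem _ hyQ h4
      rwa [add_sub_cancel_left] at this
    have h5 : (9 : 𝓞 M) = 3 * 3 := by norm_num
    rw [h5] at h2
    rcases hQp.mem_or_mem h2 with h6 | h6 <;> exact h3 h6
  · intro g y hy w hw hyw
    rw [hact _ g y hy, hacta] at hyw
    have hαw : (α : 𝓞 M) ∈ w.asIdeal := by
      obtain ⟨c, hc⟩ := hα1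
      rw [hc]
      push_cast
      exact Ideal.mul_mem_right _ _ hw
    have h1 : ((β ^ 2 + 3 * β + 9 : ℤ) : 𝓞 M) ∈ w.asIdeal := by
      have h2 : (α : 𝓞 M) * (act g e * (α * act g e + 2 * β + 3)) ∈ w.asIdeal :=
        Ideal.mul_mem_right _ _ hαw
      have h4 := Ideal.sub_mem _ hyw h2
      have e4 : (α * act g e + β : 𝓞 M) ^ 2 + 3 * (α * act g e + β) + 9 -
          (α : 𝓞 M) * (act g e * (α * act g e + 2 * β + 3)) =
          ((β ^ 2 + 3 * β + 9 : ℤ) : 𝓞 M) := by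
        push_cast
        ring
      rwa [e4] at h4
    obtain ⟨x, z, hxz⟩ := hβ2
    have hw1 : (1 : 𝓞 M) ∈ w.asIdeal := by
      have h2 : (1 : 𝓞 M) = x * ((β ^ 2 + 3 * β + 9 : ℤ) : 𝓞 M) + z * N := by
        have := congrArg (fun z : ℤ => (z : 𝓞 M)) hxz
        push_cast at this ⊢
        exact this.symm
      rw [h2]
      exact w.asIdeal.add_mem (w.asIdeal.mul_mem_left _ h1) (w.asIdeal.mul_mem_left _ hw)
    exact w.isPrime.ne_top ((Ideal.eq_top_iff_one _).2 hw1)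

/-- the cyclic field -/
lemma exists_M (C : Type) [Field C] [NumberField C] (r m : ℕ) [NeZero r] [Fact r.Prime]
    [IsCyclotomicExtension {r} ℚ C] (hm : 0 < m) (hr : r ≡ 1 [MOD m]) :
    ∃ M : IntermediateField ℚ C, IsGalois ℚ M ∧ finrank ℚ M = m ∧
      ∃ σ : M ≃ₐ[ℚ] M, ∀ g, g ∈ Subgroup.zpowers σ := by
  have hrp : r.Prime := Fact.out
  obtain ⟨k, hk⟩ := (Nat.modEq_iff_dvd' hrp.one_le).1 hr.symm
  have hgal : IsGalois ℚ C := IsCyclotomicExtension.isGalois {r} ℚ C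
  have hcyc : IsCyclic (C ≃ₐ[ℚ] C) :=
    isCyclic_of_surjective (IsCyclotomicExtension.autEquivPow C
      (Polynomial.cyclotomic.irreducible_rat hrp.pos)).symm (MulEquiv.surjective _)
  obtain ⟨γ, hγ⟩ := hcyc.exists_generator
  have hcard : Nat.card (C ≃ₐ[ℚ] C) = m * k := by
    rw [Nat.card_congr (IsCyclotomicExtension.autEquivPow C
      (Polynomial.cyclotomic.irreducible_rat hrp.pos)).toEquiv, Nat.card_eq_fintype_card,
      ZMod.card_units, hk]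
  have hord : orderOf γ = m * k := by
    rw [← hcard]
    exact orderOf_eq_card_of_forall_mem_zpowers hγ
  have hk0 : 0 < k := by
    have := hrp.two_le
    rcases Nat.eq_zero_or_pos k with h | h
    · rw [h, mul_zero] at hk
      omega
    · exact h
  let H : Subgroup (C ≃ₐ[ℚ] C) := Subgroup.zpowers (γ ^ m)
  have hH : Nat.card H = k := by
    rw [Nat.card_zpowers, orderOf_pow, hord, Nat.gcd_comm, Nat.gcd_mul_right_right, Nat.mul_div_cancel_left _ hm]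
  have hn : H.Normal := by
    refine ⟨fun x hx g => ?_⟩
    obtain ⟨i, rfl⟩ := Subgroup.mem_zpowers_iff.1 (hγ g)
    obtain ⟨j, rfl⟩ := Subgroup.mem_zpowers_iff.1 hx
    have : γ ^ i * (γ ^ m) ^ j * (γ ^ i)⁻¹ = (γ ^ m) ^ j := by
      have hc : Commute (γ ^ i) ((γ ^ m) ^ j) :=
        (((Commute.refl γ).pow_right m).zpow_right j).zpow_left i
      rw [hc.eq, mul_inv_cancel_right]
    rw [this]
    exact Subgroup.zpow_mem_zpowers _ _
  let M : IntermediateField ℚ C := IntermediateField.fixedField H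
  have hMG : IsGalois ℚ M := IsGalois.of_fixedField_normal_subgroup H
  refine ⟨M, hMG, ?_, ?_⟩
  · have h1 : finrank ℚ M * finrank M C = finrank ℚ C := Module.finrank_mul_finrank ℚ M C
    have h2 : finrank M C = k := by
      rw [← hH]
      exact IntermediateField.finrank_fixedField_eq_card H
    have h3 : finrank ℚ C = m * k := by
      rw [← hcard]
      exact (IsGalois.card_aut_eq_finrank ℚ C).symm
    rw [h2, h3] at h1
    exact Nat.eq_of_mul_eq_mul_right hk0 h1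
  · refine ⟨AlgEquiv.restrictNormalHom M γ, fun g => ?_⟩
    obtain ⟨g', rfl⟩ := AlgEquiv.restrictNormalHom_surjective (F := ℚ) (K₁ := M) C g
    obtain ⟨i, rfl⟩ := Subgroup.mem_zpowers_iff.1 (hγ g')
    rw [map_zpow]
    exact Subgroup.zpow_mem_zpowers _ _

end CYCQN

open NumberField IsDedekindDomain Module
open Pool.Agent.Q92.AR (Unramified)

/-- JOB CYCQ (helper728).  A cyclic extension of degree `m` of `ℚ`, unramified at the primes dividing `N`, a prime `Q`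
with trivial decomposition group and an element `a`. -/
theorem cycq : S_CYCQ := by
  intro m N hmo hN
  have hm : 0 < m := hmo.pos
  obtain ⟨r, hrp, hrN, hrm⟩ := Nat.exists_prime_gt_modEq_one N hm.ne'
  have hr0 : NeZero r := ⟨hrp.ne_zero⟩
  have hrf : Fact r.Prime := ⟨hrp⟩
  obtain ⟨q, hqp, hqN, hq3r⟩ := Nat.exists_prime_gt_modEq_one (k := 3 * r) (N + r)
    (mul_ne_zero (by norm_num) hrp.ne_zero)
  have hqf : Fact q.Prime := ⟨hqp⟩
  have hq3 : q ≡ 1 [MOD 3] := Nat.ModEq.of_mul_right r hq3r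
  have hqr : q ≡ 1 [MOD r] := Nat.ModEq.of_mul_left 3 hq3r
  have hNq : ¬ q ∣ N := fun h => by
    have := Nat.le_of_dvd (Nat.pos_of_ne_zero hN) h
    omega
  have hNr : ¬ r ∣ N := fun h => by
    have := Nat.le_of_dvd (Nat.pos_of_ne_zero hN) h
    omega
  have hrQ' : NeZero ((r : ℕ) : ℚ) := ⟨by exact_mod_cast hrp.ne_zero⟩
  have hcyc : IsCyclotomicExtension {r} ℚ (CyclotomicField r ℚ) :=
    CyclotomicField.isCyclotomicExtension r ℚ
  obtain ⟨M, hMG, hMm, σ, hσ⟩ := CYCQN.exists_M (CyclotomicField r ℚ) r m hm hrm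
  -- the prime `Q`
  have hqZ : (Ideal.span {(q : ℤ)}).IsMaximal :=
    PrincipalIdealRing.isMaximal_of_irreducible (Nat.prime_iff_prime_int.1 hqp).irreducible
  obtain ⟨P, hP, hPq⟩ := Ideal.exists_ideal_over_maximal_of_isIntegral (S := 𝓞 M)
    (Ideal.span {(q : ℤ)}) (by
      rw [(RingHom.injective_iff_ker_eq_bot _).1 (FaithfulSMul.algebraMap_injective ℤ (𝓞 M))]
      exact bot_le)
  have hqP : (q : 𝓞 M) ∈ P := by
    have h1 : (q : ℤ) ∈ P.comap (algebraMap ℤ (𝓞 M)) := by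
      rw [hPq]
      exact Ideal.mem_span_singleton_self _
    have h2 : algebraMap ℤ (𝓞 M) (q : ℤ) ∈ P := h1
    simpa using h2
  have hP0 : P ≠ ⊥ := by
    rintro rfl
    rw [Ideal.mem_bot] at hqP
    exact hqp.ne_zero (by exact_mod_cast hqP)
  let Q : HeightOneSpectrum (𝓞 M) := ⟨P, hP.isPrime, hP0⟩
  have hrQ : (r : 𝓞 M) ∉ Q.asIdeal := by
    intro h
    have hc : IsCoprime (r : ℤ) (q : ℤ) := by
      rw [Int.isCoprime_iff_gcd_eq_one]
      have : Nat.Coprime r q := (Nat.coprime_primes hrp hqp).2 (by omega)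
      exact_mod_cast this
    obtain ⟨x, y, hxy⟩ := hc
    apply hP.ne_top
    rw [Ideal.eq_top_iff_one]
    have h2 : (1 : 𝓞 M) = x * r + y * q := by
      have := congrArg (fun z : ℤ => (z : 𝓞 M)) hxy
      push_cast at this
      exact this.symm
    rw [h2]
    exact P.add_mem (P.mul_mem_left _ h) (P.mul_mem_left _ hqP)
  obtain ⟨hu, hg⟩ := CYCQN.triv M (CyclotomicField r ℚ) r q hqr Q hqP hrQ
  obtain ⟨a, ha⟩ := CYCQN.exists_a M N q hN hq3 hNq Q hqP hu hg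
  refine ⟨M, inferInstance, inferInstance, σ, Q, a, hMG, hMm, hσ, ?_, ha⟩
  intro v hv
  apply Pool.Agent.Q92.AR.Unramified.sub (M := CyclotomicField r ℚ)
  apply Pool.Agent.Q280.AR.unr1 ℚ (CyclotomicField r ℚ) r
  intro h
  have hc : IsCoprime (r : ℤ) (N : ℤ) := by
    rw [Int.isCoprime_iff_gcd_eq_one]
    have : Nat.Coprime r N := (Nat.Prime.coprime_iff_not_dvd hrp).2 hNr
    exact_mod_cast this
  obtain ⟨x, y, hxy⟩ := hc
  apply v.isPrime.ne_top
  rw [Ideal.eq_top_iff_one]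
  have h2 : (1 : 𝓞 ℚ) = x * r + y * N := by
    have := congrArg (fun z : ℤ => (z : 𝓞 ℚ)) hxy
    push_cast at this
    exact this.symm
  rw [h2]
  exact v.asIdeal.add_mem (v.asIdeal.mul_mem_left _ h) (v.asIdeal.mul_mem_left _ hv)

end Pool.Agent.H429.MZQ
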