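import Pool.Agent.H429.MZQ.StmH
import Pool.Agent.H429.MZU.Delta

/-! MZQ (helper429), job DELNQ: `δ = 1` in odd dimension over totally real fields. -/

set_option autoImplicit false

namespace Pool.Agent.H429.MZQ

open NumberField IsDedekindDomain

namespace DELNQN

lemma finrank_trace (k : Type) [Field k] (n : ℕ) (hn : 0 < n) :
    Module.finrank k (LinearMap.ker (Matrix.traceLinearMap (Fin n) k k)) + 1 = n * n := by
  have : NeZero n := ⟨hn.ne'⟩
  have h1 := LinearMap.finrank_range_add_finrank_ker (Matrix.traceLinearMap (Fin n) k k)
  have h2 : LinearMap.range (Matrix.traceLinearMap (Fin n) k k) = ⊤ := by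
    rw [LinearMap.range_eq_top]
    intro c
    refine ⟨Matrix.single 0 0 c, ?_⟩
    simp
  rw [h2, finrank_top, Module.finrank_self, Module.finrank_matrix] at h1
  simp at h1
  omega

end DELNQN

/-- `δ = 1` when involutions map to `1`, `F` is totally real, and `n` is odd. -/
theorem delnq : S_DELNQ := by
  intro F Ω _ _ _ _ _ S hF k _ _ n hn ρbar hρ w hw
  have hn0 : 0 < n := hn.pos
  have hft := DELNQN.finrank_trace k n hn0
  have key : ∀ v : InfinitePlace F,
      ((Module.finrank k (MZ.ad0Inv ρbar (MulAction.stabilizer (MZ.GFS Ω S) (w v))) : ℕ) : ℤ) =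
        (n : ℤ) ^ 2 - 1 := by
    intro v
    have h0 : MZ.ad0Inv ρbar (MulAction.stabilizer (MZ.GFS Ω S) (w v)) =
        LinearMap.ker (Matrix.traceLinearMap (Fin n) k k) := by
      ext X
      constructor
      · intro hX
        exact hX.1
      · intro hX
        refine ⟨hX, ?_⟩
        intro g hg
        have hg2 : g * g = 1 := by
          rw [← InfinitePlace.mk_embedding (w v), InfinitePlace.mem_stabilizer_mk_iff] at hg
          rcases hg with rfl | hg
          · simp
          · apply AlgEquiv.ext
            intro x
            apply (InfinitePlace.embedding (w v)).injective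
            show InfinitePlace.embedding (w v) (g (g x)) = InfinitePlace.embedding (w v) x
            rw [hg.eq, hg.eq, star_star]
        rw [hρ g hg2]
        simp
    rw [h0]
    have h1 : ((Module.finrank k (LinearMap.ker (Matrix.traceLinearMap (Fin n) k k)) : ℕ) : ℤ)
        + 1 = (n : ℤ) * n := by
      exact_mod_cast hft
    linarith
  unfold MZ.delta
  rw [Finset.sum_congr rfl (fun v _ => key v), Finset.sum_const, Finset.card_univ,
    nsmul_eq_mul, Pool.Agent.H429.MZU.card_of_real F hF,
    Pool.Agent.H429.MZU.nrComplex_of_real F hF]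
  push_cast
  ring

end Pool.Agent.H429.MZQ
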