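import Pool.Agent.H429.MZQ.StmF

/-!
# JOB DEQ (helper400): the representation `ρ̄` and its complex conjugation
-/

set_option autoImplicit false
set_option linter.unusedSectionVars false

namespace Pool.Agent.H429.MZQ

open NumberField IsDedekindDomain Module
open Pool.Agent.Q92.AR (Dv prin Unramified)
open Pool.Agent.Q5.MZ (KData TwoPow TwoUnram OneDyadic OddClass matA matB S438 dfst HL S_KU S_GB S_EM S_BC)

namespace DEQN

lemma mem_of_eq' {R : Type} [CommRing R] {I : Ideal R} {a b : R} (h : a = b) (ha : a ∈ I) : b ∈ I := h ▸ ha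

/-- `K/K` is unramified everywhere -/
lemma unr_self (K : Type) [Field K] [NumberField K] (v : HeightOneSpectrum (𝓞 K)) :
    Unramified K v := by
  intro w hw hle
  have hle' : v.asIdeal ≤ w.asIdeal ^ 2 := by
    intro x hx
    exact mem_of_eq' (RingOfIntegers.ext rfl) (hle (Ideal.mem_map_of_mem _ hx))
  have h2 : w.asIdeal ≤ v.asIdeal := by
    rw [← hw]
    intro x hx
    show _ ∈ w.asIdeal
    exact mem_of_eq' (RingOfIntegers.ext rfl) hx
  exact absurd (h2.trans hle') (not_le_of_gt (Ideal.pow_lt_self w.asIdeal w.ne_bot w.isPrime.ne_top 2 le_rfl))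

/-- `(K, κ)` is in the family -/
lemma fam_self (K : Type) [Field K] [NumberField K] (hg : IsGalois ℚ K) (κ : K →ₐ[ℚ] QSm) :
    Fam K κ K κ := by
  refine ⟨hg, ?_, ?_, fun a => rfl⟩
  · exact ⟨0, by rw [Module.finrank_self, pow_zero]⟩
  · intro v hv
    exact unr_self K v

/-- complex conjugation on a normal subfield of `ℂ` -/
lemma conj_exists (M : Type) [Field M] [Algebra ℚ M] [Normal ℚ M] (φ : M →ₐ[ℚ] ℂ) :
    ∃ c : M ≃ₐ[ℚ] M, (∀ x, φ (c x) = (starRingEnd ℂ) (φ x)) ∧ c ^ 2 = 1 := by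
  let _ : Algebra M ℂ := φ.toRingHom.toAlgebra
  have : IsScalarTower ℚ M ℂ := IsScalarTower.of_algebraMap_eq fun x => (φ.commutes x).symm
  let σ : ℂ ≃ₐ[ℚ] ℂ := Complex.conjAe.restrictScalars ℚ
  have h : ∀ x, φ (σ.restrictNormal M x) = (starRingEnd ℂ) (φ x) := fun x =>
    AlgEquiv.restrictNormal_commutes σ M x
  refine ⟨σ.restrictNormal M, h, ?_⟩
  ext x
  have hi : Function.Injective φ := φ.toRingHom.injective
  apply hi
  rw [pow_two]
  show φ (σ.restrictNormal M (σ.restrictNormal M x)) = φ x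
  rw [h, h]
  exact Complex.conj_conj _

end DEQN

theorem deq : J_DEQ := by
  intro hK7 hQRQ K _ _ r hK κ
  have : IsGalois ℚ K := hK.gal
  obtain ⟨res, hsurj, hopen, hres⟩ := hQRQ K κ
  have : IsAlgClosure ℚ MZ.Om := ⟨inferInstance, inferInstance⟩
  have : IsGalois ℚ QSm := hK7 ℚ MZ.Om S438
  have hκ : Function.Injective κ := κ.toRingHom.injective
  have hcard : Nat.card (K ≃ₐ[ℚ] K) = 21 := by
    rw [IsGalois.card_aut_eq_finrank, hK.deg]
  have hpow : ∀ s : K ≃ₐ[ℚ] K, s ^ 21 = 1 := by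
    intro s
    rw [← hcard]
    exact pow_card_eq_one'
  have hker : ((r.comp res).ker : Subgroup GQ) = res.ker := by
    ext g
    rw [MonoidHom.mem_ker, MonoidHom.mem_ker, MonoidHom.comp_apply]
    constructor
    · intro h
      apply hK.inj
      rw [h, map_one]
    · intro h
      rw [h, map_one]
  refine ⟨r.comp res, ?_, ?_, ?_, ?_, ?_, ?_⟩
  · intro g s hs
    show r (res g) = r s
    have : res g = s := by
      ext x
      apply hκ
      rw [hres, hs]
    rw [this]
  · rw [hker]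
    exact hopen
  · intro g hg
    have h1 := hg K inferInstance inferInstance inferInstance κ (DEQN.fam_self K hK.gal κ)
    have : res g = 1 := by
      ext x
      apply hκ
      rw [hres, h1]
      rfl
    rw [MonoidHom.comp_apply, this, map_one]
  · intro g
    rw [← map_pow, MonoidHom.comp_apply, map_pow, hpow, map_one]
  · obtain ⟨φ⟩ : Nonempty (QSm →ₐ[ℚ] ℂ) := ⟨IsAlgClosed.lift⟩
    obtain ⟨c, hc1, hc2⟩ : ∃ c : GQ, (∀ x, φ (c x) = (starRingEnd ℂ) (φ x)) ∧ c ^ 2 = 1 :=
      DEQN.conj_exists QSm φ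
    refine ⟨φ.toRingHom, c, hc1, hc2, ?_⟩
    have h2 : (res c) ^ 2 = 1 := by rw [← map_pow, hc2, map_one]
    have h21 := hpow (res c)
    have h1 : res c = 1 := by
      have h3 : (res c) ^ 21 = ((res c) ^ 2) ^ 10 * res c := by
        rw [← pow_mul, ← pow_succ]
      rw [h2, one_pow, one_mul] at h3
      rw [← h3, h21]
    rw [MonoidHom.comp_apply, h1, map_one]
  · intro s
    obtain ⟨g, hg⟩ := hsurj s
    exact ⟨g, fun x => by rw [← hg, hres]⟩

end Pool.Agent.H429.MZQ
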