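import Pool.Agent.H429.MZQ.StmG

/-!
# Project MZQ (helper429), job DIMCQ (helper996): base change does not decrease the dimension
-/

set_option autoImplicit false
set_option linter.unusedSectionVars false

namespace Pool.Agent.H429.MZQ

open IsLocalRing

namespace DIMCQN

/-- a local homomorphism whose fibre is Artinian does not increase the dimension -/
theorem dim_fibre (A B : Type) [CommRing A] [CommRing B] [IsLocalRing A] [IsLocalRing B]
    [IsNoetherianRing A] [IsNoetherianRing B] (F : A →+* B)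
    (hloc : ∀ x ∈ maximalIdeal A, F x ∈ maximalIdeal B)
    (hcl : ∀ P : Ideal B, P.IsPrime → (∀ x ∈ maximalIdeal A, F x ∈ P) → P = maximalIdeal B) :
    ringKrullDim B ≤ ringKrullDim A := by
  let _ : Algebra A B := F.toAlgebra
  have hF : ∀ x, algebraMap A B x = F x := fun x => rfl
  have : (maximalIdeal B).LiesOver (maximalIdeal A) := by
    refine ⟨?_⟩
    rw [Ideal.under_def]
    refine (IsLocalRing.maximalIdeal.isMaximal A).eq_of_le ?_ ?_
    · exact (Ideal.IsPrime.comap (algebraMap A B)).ne_top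
    · intro x hx
      rw [Ideal.mem_comap]
      exact hloc x hx
  rw [← IsLocalRing.maximalIdeal_height_eq_ringKrullDim,
    ← IsLocalRing.maximalIdeal_height_eq_ringKrullDim]
  have h := Ideal.height_le_height_add_of_liesOver (maximalIdeal A) (maximalIdeal B)
  have h0 : ((maximalIdeal B).map (Ideal.Quotient.mk
      ((maximalIdeal A).map (algebraMap A B)))).height = 0 := by
    have hle : (maximalIdeal A).map (algebraMap A B) ≤ maximalIdeal B := by
      rw [Ideal.map_le_iff_le_comap]
      intro x hx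
      exact hloc x hx
    have hp : ((maximalIdeal B).map (Ideal.Quotient.mk
        ((maximalIdeal A).map (algebraMap A B)))).IsPrime :=
      Ideal.map_isPrime_of_surjective Ideal.Quotient.mk_surjective (by
        rw [Ideal.mk_ker]
        exact hle)
    rw [Ideal.height_eq_zero_iff]
    refine ⟨⟨hp, bot_le⟩, ?_⟩
    intro q hq _
    have := hq.1
    have h1 : q.comap (Ideal.Quotient.mk ((maximalIdeal A).map (algebraMap A B))) =
        maximalIdeal B := by
      apply hcl
      · exact Ideal.IsPrime.comap _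
      · intro x hx
        rw [Ideal.mem_comap]
        have h2 : Ideal.Quotient.mk ((maximalIdeal A).map (algebraMap A B)) (F x) = 0 := by
          rw [Ideal.Quotient.eq_zero_iff_mem]
          exact Ideal.mem_map_of_mem (algebraMap A B) hx
        rw [h2]
        exact q.zero_mem
    rw [← h1, Ideal.map_comap_of_surjective _ Ideal.Quotient.mk_surjective]
  rw [h0, add_zero] at h
  exact_mod_cast h

/-- the range of a homomorphism is finite if it is finite on a subgroup of finite index -/
theorem finite_range {G X : Type} [Group G] [Group X] (f : G →* X) (K : Subgroup G)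
    (hK : Finite (G ⧸ K)) (h : (f '' (K : Set G)).Finite) : (Set.range f).Finite := by
  have h1 : (Set.range fun q : G ⧸ K => f q.out).Finite := Set.finite_range _
  refine (h1.image2 (· * ·) h).subset ?_
  rintro _ ⟨g, rfl⟩
  rw [Set.mem_image2]
  refine ⟨f (QuotientGroup.mk g : G ⧸ K).out, ⟨_, rfl⟩,
    f ((QuotientGroup.mk g : G ⧸ K).out⁻¹ * g), ⟨_, ?_, rfl⟩, ?_⟩
  · have h2 : (QuotientGroup.mk (QuotientGroup.mk g : G ⧸ K).out : G ⧸ K) = QuotientGroup.mk g :=
      Quotient.out_eq _
    rw [QuotientGroup.eq] at h2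
    exact h2
  · rw [← map_mul, mul_inv_cancel_left]

/-- a function which is determined by a function to a finite type has a finite range -/
theorem finite_of_factor {X Y Z : Type} [Finite Y] (a : X → Y) (b : X → Z)
    (h : ∀ x x', a x = a x' → b x = b x') : (Set.range b).Finite := by
  have h1 : (Set.range fun y : Set.range a => b y.2.choose).Finite := Set.finite_range _
  refine h1.subset ?_
  rintro _ ⟨x, rfl⟩
  refine ⟨⟨a x, x, rfl⟩, h _ _ ?_⟩
  exact (⟨x, rfl⟩ : ∃ x', a x' = a x).choose_spec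

variable {p : ℕ} [Fact p.Prime] {k : Type} [Field k] [CharP k p]

theorem mem_max (R : MZ.CNL p k) (x : R.A) : x ∈ maximalIdeal R.A ↔ R.res x = 0 := by
  rw [← IsLocalRing.ker_eq_maximalIdeal R.res R.res_surj, RingHom.mem_ker]

theorem p_mem (R : MZ.CNL p k) : ((p : ℕ) : R.A) ∈ maximalIdeal R.A := by
  rw [mem_max, map_natCast, CharP.cast_eq_zero]

/-- the claim: a prime of `R` which contains the image of the maximal ideal of `R'` -/
theorem claim (h0 : S_FINBQ) [Finite k]
    {G H : Type} [Group G] [TopologicalSpace G] [IsTopologicalGroup G] [CompactSpace G]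
    [Group H] [TopologicalSpace H] [IsTopologicalGroup H] (φ : H →* G) {n : ℕ}
    (ρbar : G →* GL (Fin n) k) (hφo : IsOpen (Set.range φ)) (habs : MZ.AbsIrred ρbar)
    (R : MZ.CNL p k) (ρu : G →* GL (Fin n) R.A) (hR : MZ.IsUniversal ρbar R ρu)
    (R' : MZ.CNL p k) (ρu' : H →* GL (Fin n) R'.A) (f : R'.A →+* R.A)
    (M : GL (Fin n) R.A)
    (hM : ∀ h, ρu (φ h) = M * Matrix.GeneralLinearGroup.map f (ρu' h) * M⁻¹)
    (P : Ideal R.A) (hP : P.IsPrime) (hm : ∀ x ∈ maximalIdeal R'.A, f x ∈ P) :
    P = maximalIdeal R.A := by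
  refine h0 p k G n ρbar habs R ρu hR P hP ?_ ?_
  · have h1 := hm _ (p_mem R')
    rw [map_natCast] at h1
    exact h1
  · have hK : Finite (G ⧸ φ.range) := φ.range.quotient_finite_of_isOpen hφo
    refine finite_range ((Matrix.GeneralLinearGroup.map (Ideal.Quotient.mk P)).comp ρu)
      φ.range hK ?_
    have h1 : (((Matrix.GeneralLinearGroup.map (Ideal.Quotient.mk P)).comp ρu : G →* _) ''
        (φ.range : Set G)) = Set.range fun h : H =>
          Matrix.GeneralLinearGroup.map (Ideal.Quotient.mk P) (ρu (φ h)) := by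
      rw [MonoidHom.coe_range, ← Set.range_comp]
      rfl
    rw [h1]
    refine finite_of_factor (fun h : H => fun a b : Fin n =>
      R'.res ((ρu' h : Matrix (Fin n) (Fin n) R'.A) a b)) _ ?_
    intro h h' he
    rw [hM, hM, map_mul, map_mul, map_mul, map_mul]
    have h2 : Matrix.GeneralLinearGroup.map (Ideal.Quotient.mk P)
        (Matrix.GeneralLinearGroup.map f (ρu' h)) =
        Matrix.GeneralLinearGroup.map (Ideal.Quotient.mk P)
        (Matrix.GeneralLinearGroup.map f (ρu' h')) := by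
      apply Units.ext
      funext a b
      change Ideal.Quotient.mk P (f ((ρu' h : Matrix (Fin n) (Fin n) R'.A) a b)) =
        Ideal.Quotient.mk P (f ((ρu' h' : Matrix (Fin n) (Fin n) R'.A) a b))
      rw [Ideal.Quotient.eq, ← map_sub]
      apply hm
      rw [mem_max, map_sub, sub_eq_zero]
      exact congrFun (congrFun he a) b
    rw [h2]

/-- the local map on the quotients modulo `p` -/
theorem quot (R R' : MZ.CNL p k) (f : R'.A →+* R.A) (hf : ∀ x, R.res (f x) = R'.res x)
    (hc : ∀ P : Ideal R.A, P.IsPrime → (∀ x ∈ maximalIdeal R'.A, f x ∈ P) →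
      P = maximalIdeal R.A) :
    ringKrullDim (R.A ⧸ Ideal.span {((p : ℕ) : R.A)}) ≤
      ringKrullDim (R'.A ⧸ Ideal.span {((p : ℕ) : R'.A)}) := by
  obtain ⟨I, hI⟩ : ∃ I : Ideal R.A, I = Ideal.span {((p : ℕ) : R.A)} := ⟨_, rfl⟩
  obtain ⟨I', hI'⟩ : ∃ I' : Ideal R'.A, I' = Ideal.span {((p : ℕ) : R'.A)} := ⟨_, rfl⟩
  rw [← hI, ← hI']
  have hIm : I ≤ maximalIdeal R.A := by
    rw [hI, Ideal.span_le, Set.singleton_subset_iff]
    exact p_mem R
  have hIm' : I' ≤ maximalIdeal R'.A := by
    rw [hI', Ideal.span_le, Set.singleton_subset_iff]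
    exact p_mem R'
  have hII : ∀ x ∈ I', f x ∈ I := by
    intro x hx
    rw [hI', Ideal.mem_span_singleton] at hx
    obtain ⟨y, rfl⟩ := hx
    rw [map_mul, map_natCast, hI]
    exact Ideal.mul_mem_right _ _ (Ideal.mem_span_singleton_self _)
  have hne : Nontrivial (R.A ⧸ I) := Ideal.Quotient.nontrivial_iff.2 fun h =>
    (IsLocalRing.maximalIdeal.isMaximal R.A).ne_top (top_le_iff.1 (h ▸ hIm))
  have hne' : Nontrivial (R'.A ⧸ I') := Ideal.Quotient.nontrivial_iff.2 fun h =>
    (IsLocalRing.maximalIdeal.isMaximal R'.A).ne_top (top_le_iff.1 (h ▸ hIm'))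
  have hl : IsLocalRing (R.A ⧸ I) :=
    IsLocalRing.of_surjective' (Ideal.Quotient.mk I) Ideal.Quotient.mk_surjective
  have hl' : IsLocalRing (R'.A ⧸ I') :=
    IsLocalRing.of_surjective' (Ideal.Quotient.mk I') Ideal.Quotient.mk_surjective
  have hmx : ∀ x, Ideal.Quotient.mk I x ∈ maximalIdeal (R.A ⧸ I) ↔ x ∈ maximalIdeal R.A := by
    intro x
    rw [← Ideal.mem_comap]
    have h1 : (maximalIdeal (R.A ⧸ I)).comap (Ideal.Quotient.mk I) = maximalIdeal R.A :=
      IsLocalRing.eq_maximalIdeal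
        (Ideal.comap_isMaximal_of_surjective _ Ideal.Quotient.mk_surjective)
    rw [h1]
  have hmx' : ∀ x, Ideal.Quotient.mk I' x ∈ maximalIdeal (R'.A ⧸ I') ↔
      x ∈ maximalIdeal R'.A := by
    intro x
    rw [← Ideal.mem_comap]
    have h1 : (maximalIdeal (R'.A ⧸ I')).comap (Ideal.Quotient.mk I') = maximalIdeal R'.A :=
      IsLocalRing.eq_maximalIdeal
        (Ideal.comap_isMaximal_of_surjective _ Ideal.Quotient.mk_surjective)
    rw [h1]
  obtain ⟨F, hF⟩ : ∃ F : (R'.A ⧸ I') →+* (R.A ⧸ I), ∀ x,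
      F (Ideal.Quotient.mk I' x) = Ideal.Quotient.mk I (f x) :=
    ⟨Ideal.Quotient.lift I' ((Ideal.Quotient.mk I).comp f) (fun x hx =>
      Ideal.Quotient.eq_zero_iff_mem.2 (hII x hx)), fun x => rfl⟩
  refine dim_fibre (R'.A ⧸ I') (R.A ⧸ I) F ?_ ?_
  · intro x hx
    obtain ⟨x, rfl⟩ := Ideal.Quotient.mk_surjective x
    rw [hmx'] at hx
    rw [hF, hmx, mem_max, hf, ← mem_max]
    exact hx
  · intro P hP hx
    have h1 : P.comap (Ideal.Quotient.mk I) = maximalIdeal R.A := by
      apply hc
      · exact Ideal.IsPrime.comap _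
      · intro x hx'
        rw [Ideal.mem_comap, ← hF]
        exact hx _ ((hmx' x).2 hx')
    have h2 : (maximalIdeal (R.A ⧸ I)).comap (Ideal.Quotient.mk I) = maximalIdeal R.A :=
      IsLocalRing.eq_maximalIdeal
        (Ideal.comap_isMaximal_of_surjective _ Ideal.Quotient.mk_surjective)
    exact Ideal.comap_injective_of_surjective _ Ideal.Quotient.mk_surjective (h1.trans h2.symm)

end DIMCQN

/-- **JOB DIMCQ** -/
theorem dimcq : J_DIMCQ := by
  intro h0 p _ k _ _ _ G H _ _ _ _ _ _ _ φ n ρbar hφc hφo habs R ρu hR R' ρu' hR'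
  have hlift : MZ.IsLift (ρbar.comp φ) R (ρu.comp φ) := by
    refine ⟨fun h => hR.1.1 (φ h), fun j => ?_⟩
    exact (hR.1.2 j).preimage hφc
  obtain ⟨f, ⟨hf, M, -, hM⟩, -⟩ := hR'.2 R (ρu.comp φ) hlift
  exact DIMCQN.quot R R' (f : R'.A →+* R.A) hf (fun P hP hm =>
    DIMCQN.claim h0 φ ρbar hφo habs R ρu hR R' ρu' (f : R'.A →+* R.A) M hM P hP hm)

end Pool.Agent.H429.MZQ
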