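import Pool.Agent.H429.MZQ.StmI

/-!
# Project MZQ (helper429), DIS3Q (helper650): common subfields of number fields with disjoint ramification
-/

set_option autoImplicit false
set_option linter.unusedSectionVars false

namespace Pool.Agent.H429.MZQ

open NumberField IsDedekindDomain Module IsLocalRing
open Pool.Agent.Q92.AR (Unramified)

namespace DIS3QN

/-- an element of `𝓞 ℚ` is an integer -/
theorem exists_int (x : 𝓞 ℚ) : ∃ n : ℤ, x = (n : 𝓞 ℚ) := by
  refine ⟨Rat.ringOfIntegersEquiv x, ?_⟩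
  apply Rat.ringOfIntegersEquiv.injective
  rw [map_intCast]
  rfl

/-- if all places of `ℚ` over `N` are unramified in `E`, then no prime divisor of `N` divides the
discriminant of `E` -/
theorem not_dvd (E : Type) [Field E] [NumberField E] (N : ℕ)
    (h : ∀ v : HeightOneSpectrum (𝓞 ℚ), ((N : ℕ) : 𝓞 ℚ) ∈ v.asIdeal → Unramified E v)
    (p : ℤ) (hp : Prime p) (hpN : p ∣ (N : ℤ)) : ¬ p ∣ discr E := by
  rw [NumberField.not_dvd_discr_iff_forall_mem E (𝓞 E) hp]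
  intro P hP hpP
  have hP0 : P ≠ ⊥ := by
    rintro rfl
    rw [Ideal.mem_bot] at hpP
    exact hp.ne_zero (by exact_mod_cast hpP)
  have hlo : P.LiesOver (Ideal.span {p}) := (Ideal.liesOver_span_iff hP.ne_top hp).mpr hpP
  have hint : ∀ n : ℤ, (n : 𝓞 E) ∈ P → p ∣ n := by
    intro n hn
    rw [← Ideal.mem_span_singleton, hlo.over]
    exact hn
  let w : HeightOneSpectrum (𝓞 E) := ⟨P, hP, hP0⟩
  have hN : ((N : ℕ) : 𝓞 ℚ) ∈ (w.under (𝓞 ℚ)).asIdeal := by
    show algebraMap (𝓞 ℚ) (𝓞 E) ((N : ℕ) : 𝓞 ℚ) ∈ P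
    rw [map_natCast]
    obtain ⟨k, hk⟩ := hpN
    have h1 : ((N : ℕ) : 𝓞 E) = (p : 𝓞 E) * (k : 𝓞 E) := by
      rw [← Int.cast_mul, ← hk, Int.cast_natCast]
    rw [h1]
    exact P.mul_mem_right _ hpP
  have hv := h (w.under (𝓞 ℚ)) hN w rfl
  have h1 : ¬ (Ideal.span {p}).map (algebraMap ℤ (𝓞 E)) ≤ P ^ 2 := by
    intro hle
    apply hv
    show ((w.under (𝓞 ℚ)).asIdeal).map (algebraMap (𝓞 ℚ) (𝓞 E)) ≤ P ^ 2
    rw [Ideal.map_le_iff_le_comap]
    intro x hx
    obtain ⟨n, rfl⟩ := exists_int x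
    have hx' : algebraMap (𝓞 ℚ) (𝓞 E) (n : 𝓞 ℚ) ∈ P := hx
    rw [map_intCast] at hx'
    rw [Ideal.mem_comap, map_intCast]
    obtain ⟨k, hk⟩ := hint n hx'
    have h2 : (p : 𝓞 E) ∈ P ^ 2 := by
      have h3 : algebraMap ℤ (𝓞 E) p ∈ P ^ 2 :=
        hle (Ideal.mem_map_of_mem _ (Ideal.mem_span_singleton_self p))
      rwa [eq_intCast] at h3
    rw [hk, Int.cast_mul]
    exact (P ^ 2).mul_mem_right _ h2
  have hne : (Ideal.span {p} : Ideal ℤ) ≠ ⊥ := by
    rw [Ne, Ideal.span_singleton_eq_bot]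
    exact hp.ne_zero
  rw [← Ideal.ramificationIdx_eq_one_iff, ← Ideal.ramificationIdx'_eq_ramificationIdx
    (Ideal.span {p}) P hne]
  refine Ideal.ramificationIdx'_spec ?_ h1
  rw [pow_one, Ideal.map_le_iff_le_comap]
  exact hlo.over.le

end DIS3QN

open DIS3QN in
theorem dis3q : S_DIS3Q := by
  intro A _ _
  refine ⟨(discr A).natAbs, Int.natAbs_ne_zero.2 (discr_ne_zero A), ?_⟩
  intro E _ _ hE B _ _ hf hg
  obtain ⟨f⟩ := hf
  obtain ⟨g⟩ := hg
  by_contra hne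
  have h1 : 1 < finrank ℚ B := by
    have h0 : 0 < finrank ℚ B := finrank_pos
    omega
  have h2 := abs_discr_gt_two h1
  obtain ⟨p, hp1, hp2⟩ := (discr B).exists_prime_and_dvd (by
    intro h3
    rw [← Int.natCast_natAbs, h3] at h2
    norm_num at h2)
  have h3 : discr B ∣ discr A := by
    let _ := f.toAlgebra
    exact discr_dvd_discr B A
  have h4 : discr B ∣ discr E := by
    let _ := g.toAlgebra
    exact discr_dvd_discr B E
  exact not_dvd E _ hE p hp1 (Int.dvd_natAbs.2 (hp2.trans h3)) (hp2.trans h4)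

end Pool.Agent.H429.MZQ
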