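import Pool.Agent.H429.MZQ.Fin

/-!
# Project MZQ (helper429): the results over `ℚ` and over totally real fields
-/

set_option autoImplicit false
set_option linter.all false

namespace Pool.Agent.H429.MZQ

open NumberField IsDedekindDomain Module IsLocalRing
open Pool.Agent.Q5.MZ

/-- a place of `L` above each place of `F` -/
theorem exists_w (F L : Type) [Field F] [NumberField F] [Field L] [Algebra F L] [Algebra.IsAlgebraic F L] :
    ∃ w : InfinitePlace F → InfinitePlace L, ∀ v, (w v).comap (algebraMap F L) = v := by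
  have : ∀ v : InfinitePlace F, ∃ w : InfinitePlace L, w.comap (algebraMap F L) = v := by
    intro v
    let φ := v.embedding
    letI := φ.toAlgebra
    let f : L →ₐ[F] ℂ := IsAlgClosed.lift
    refine ⟨InfinitePlace.mk f.toRingHom, ?_⟩
    rw [InfinitePlace.comap_mk]
    have : f.toRingHom.comp (algebraMap F L) = φ := f.comp_algebraMap
    rw [this]
    exact InfinitePlace.mk_embedding v
  choose w hw using this
  exact ⟨w, hw⟩

/-- the conclusion for `F`, `S` from a representation -/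
theorem concl (F Ω : Type) [Field F] [NumberField F] [Field Ω] [Algebra F Ω] [IsAlgClosure F Ω]
    (hreal : ∀ τ : F →+* ℂ, ComplexEmbedding.IsReal τ)
    (S : Set (HeightOneSpectrum (𝓞 F))) (hS : S.Finite)
    (h438 : ∀ v : HeightOneSpectrum (𝓞 F), (438 : 𝓞 F) ∈ v.asIdeal → v ∈ S)
    (rbar : MZ.GFS Ω S →* GL (Fin 3) (ZMod 2)) (ho : IsOpen (rbar.ker : Set (MZ.GFS Ω S)))
    (hirr : MZ.AbsIrred rbar) (h21 : ∀ g, rbar g ^ 21 = 1)
    (hdim : ∀ (R : MZ.CNL 2 (ZMod 2)) (ru : MZ.GFS Ω S →* GL (Fin 3) R.A), MZ.IsUniversal rbar R ru →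
        5 ≤ ringKrullDim (R.A ⧸ Ideal.span {((2 : ℕ) : R.A)})) :
    ∃ (ρbar : MZ.GFS Ω S →* GL (Fin 3) (ZMod 2))
      (w : InfinitePlace F → InfinitePlace (MZ.FSmax S : IntermediateField F Ω)),
      MZ.IsDatum F Ω S 2 (ZMod 2) 3 ρbar w ∧ MZ.delta S ρbar w = 1 ∧
      (∃ (R : MZ.CNL 2 (ZMod 2)) (ρu : MZ.GFS Ω S →* GL (Fin 3) R.A), MZ.IsUniversal ρbar R ρu) ∧
      ∀ (R : MZ.CNL 2 (ZMod 2)) (ρu : MZ.GFS Ω S →* GL (Fin 3) R.A), MZ.IsUniversal ρbar R ρu →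
        5 ≤ ringKrullDim (R.A ⧸ Ideal.span {((2 : ℕ) : R.A)}) := by
  have h2 : ∀ v : HeightOneSpectrum (𝓞 F), (2 : 𝓞 F) ∈ v.asIdeal → v ∈ S := by
    intro v hv
    apply h438
    have : (438 : 𝓞 F) = 219 * 2 := by norm_num
    rw [this]
    exact Ideal.mul_mem_left _ _ hv
  haveI : Algebra.IsAlgebraic F Ω := IsAlgClosure.isAlgebraic
  haveI : Algebra.IsAlgebraic F (MZ.FSmax S : IntermediateField F Ω) :=
    Algebra.IsAlgebraic.tower_bot (K := F) (L := (MZ.FSmax S : IntermediateField F Ω)) (A := Ω)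
  obtain ⟨w, hw⟩ := exists_w F (MZ.FSmax S : IntermediateField F Ω)
  have hinv : ∀ g : MZ.GFS Ω S, g * g = 1 → rbar g = 1 := by
    intro g hg
    have h1 : rbar g ^ 2 = 1 := by rw [sq, ← map_mul, hg, map_one]
    have h3 := h21 g
    have h4 : rbar g ^ 21 = (rbar g ^ 2) ^ 10 * rbar g := by rw [← pow_mul, ← pow_succ]
    rw [h1, one_pow, one_mul] at h4
    rw [← h4, h3]
  refine ⟨rbar, w, ⟨by norm_num, by norm_num, hS, fun v hv => h2 v (by exact_mod_cast hv), ho, hirr, hw⟩,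
    ?_, ?_, hdim⟩
  · rw [Pool.Agent.H429.MZU.deltaR F Ω S (ZMod 2) rbar hinv w hw,
      Pool.Agent.H429.MZU.nrComplex_of_real F hreal]
    norm_num
  · exact MZEX.stmEx F Ω S hS h2 (ZMod 2) 3 (by norm_num) rbar ho hirr

/-- totally real `F ⊆ MZ.Om` with `F ∩ K = ℚ` -/
theorem core2 (K : Type) [Field K] [NumberField K] (r : (K ≃ₐ[ℚ] K) →* GL (Fin 3) (ZMod 2))
    (hK : KData K r) (κ : K →ₐ[ℚ] QSm) (F : IntermediateField ℚ MZ.Om) [NumberField F]
    (hreal : ∀ τ : F →+* ℂ, ComplexEmbedding.IsReal τ)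
    (hdis : ∀ x : K, ((κ x : QSm) : MZ.Om) ∈ F → ∃ q : ℚ, x = algebraMap ℚ K q)
    (S : Set (HeightOneSpectrum (𝓞 F))) (hS : S.Finite)
    (h438 : ∀ v : HeightOneSpectrum (𝓞 F), (438 : 𝓞 F) ∈ v.asIdeal → v ∈ S) :
    ∃ (ρbar : MZ.GFS MZ.Om S →* GL (Fin 3) (ZMod 2))
      (w : InfinitePlace F → InfinitePlace (MZ.FSmax S : IntermediateField F MZ.Om)),
      MZ.IsDatum F MZ.Om S 2 (ZMod 2) 3 ρbar w ∧ MZ.delta S ρbar w = 1 ∧
      (∃ (R : MZ.CNL 2 (ZMod 2)) (ρu : MZ.GFS MZ.Om S →* GL (Fin 3) R.A), MZ.IsUniversal ρbar R ρu) ∧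
      ∀ (R : MZ.CNL 2 (ZMod 2)) (ρu : MZ.GFS MZ.Om S →* GL (Fin 3) R.A), MZ.IsUniversal ρbar R ρu →
        5 ≤ ringKrullDim (R.A ⧸ Ideal.span {((2 : ℕ) : R.A)}) := by
  have hcl : IsAlgClosure F MZ.Om := RESQN.alg_clo F
  obtain ⟨res, hc, ho, hs⟩ := resq F S h438
  have hgal : IsGalois ℚ K := hK.gal
  obtain ⟨rbar, hro, hirr, h21, hdim⟩ := core1 K r hK κ (MZ.GFS MZ.Om S) res hc ho (hs K κ hdis)
  exact concl F MZ.Om hreal S hS h438 rbar hro hirr h21 hdim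

theorem realQ : ∀ τ : ℚ →+* ℂ, ComplexEmbedding.IsReal τ := by
  intro τ
  rw [ComplexEmbedding.isReal_iff]
  exact Subsingleton.elim _ _

theorem FSmax_mono {F Ω : Type} [Field F] [Field Ω] [Algebra F Ω] {S S' : Set (HeightOneSpectrum (𝓞 F))}
    (h : S ⊆ S') : (MZ.FSmax S : IntermediateField F Ω) ≤ MZ.FSmax S' := by
  refine iSup_le ?_
  rintro ⟨L, hfd, hun⟩
  refine le_iSup (fun K : {K : IntermediateField F Ω // FiniteDimensional F K ∧
    MZ.UnramifiedOutside S' K} => K.1) ⟨L, hfd, ?_⟩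
  intro w hw
  exact hun w fun v hv => hw v (h hv)

/-- restriction from `G_{F,S'}` to `G_{F,S}` for `S ⊆ S'` -/
theorem resGen (F Ω : Type) [Field F] [NumberField F] [Field Ω] [Algebra F Ω] [IsAlgClosure F Ω]
    (S S' : Set (HeightOneSpectrum (𝓞 F))) (hS : S ⊆ S') :
    ∃ res : MZ.GFS Ω S' →* MZ.GFS Ω S, Continuous res ∧ Function.Surjective res ∧
      ∀ g (x : (MZ.FSmax S : IntermediateField F Ω)), ((res g x : (MZ.FSmax S : IntermediateField F Ω)) : Ω) =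
        ((g ⟨x.1, FSmax_mono hS x.2⟩ : (MZ.FSmax S' : IntermediateField F Ω)) : Ω) := by
  haveI hg1 : IsGalois F (MZ.FSmax S : IntermediateField F Ω) := Pool.Agent.W178.MZK.K7 F Ω S
  haveI hg2 : IsGalois F (MZ.FSmax S' : IntermediateField F Ω) := Pool.Agent.W178.MZK.K7 F Ω S'
  let i : (MZ.FSmax S : IntermediateField F Ω) →ₐ[F] (MZ.FSmax S' : IntermediateField F Ω) :=
    IntermediateField.inclusion (FSmax_mono hS)
  letI : Algebra (MZ.FSmax S : IntermediateField F Ω) (MZ.FSmax S' : IntermediateField F Ω) :=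
    i.toRingHom.toAlgebra
  haveI t1 : IsScalarTower F (MZ.FSmax S : IntermediateField F Ω) (MZ.FSmax S' : IntermediateField F Ω) :=
    IsScalarTower.of_algebraMap_eq (fun q => (i.commutes q).symm)
  haveI : Normal F (MZ.FSmax S' : IntermediateField F Ω) := hg2.to_normal
  refine ⟨Pool.Agent.H429.MZU.resU F (MZ.FSmax S : IntermediateField F Ω) F
    (MZ.FSmax S' : IntermediateField F Ω), Pool.Agent.H429.MZU.continuous_resU F _ F _, ?_, ?_⟩
  · intro g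
    obtain ⟨g', hg'⟩ := AlgEquiv.restrictNormalHom_surjective (F := F)
      (K₁ := (MZ.FSmax S : IntermediateField F Ω)) (MZ.FSmax S' : IntermediateField F Ω) g
    refine ⟨g', ?_⟩
    ext x
    have h1 := Pool.Agent.H429.MZU.resU_apply (F₀ := F) (F := F) g' x
    have h2 := AlgEquiv.restrictNormal_commutes g' (MZ.FSmax S : IntermediateField F Ω) x
    have h3 : algebraMap (MZ.FSmax S : IntermediateField F Ω) (MZ.FSmax S' : IntermediateField F Ω)
        (Pool.Agent.H429.MZU.resU F (MZ.FSmax S : IntermediateField F Ω) F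
          (MZ.FSmax S' : IntermediateField F Ω) g' x) =
        algebraMap (MZ.FSmax S : IntermediateField F Ω) (MZ.FSmax S' : IntermediateField F Ω) (g x) := by
      rw [h1, ← hg']
      exact h2.symm
    exact congrArg Subtype.val ((algebraMap (MZ.FSmax S : IntermediateField F Ω)
      (MZ.FSmax S' : IntermediateField F Ω)).injective h3)
  · intro g x
    have := Pool.Agent.H429.MZU.resU_apply (F₀ := F) (F := F) g x
    exact congrArg Subtype.val this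

/-- the base field `ℚ` -/
theorem coreQ (K : Type) [Field K] [NumberField K] (r : (K ≃ₐ[ℚ] K) →* GL (Fin 3) (ZMod 2))
    (hK : KData K r) (κ : K →ₐ[ℚ] QSm)
    (S : Set (HeightOneSpectrum (𝓞 ℚ))) (hS : S.Finite)
    (h438 : ∀ v : HeightOneSpectrum (𝓞 ℚ), (438 : 𝓞 ℚ) ∈ v.asIdeal → v ∈ S) :
    ∃ (ρbar : MZ.GFS MZ.Om S →* GL (Fin 3) (ZMod 2))
      (w : InfinitePlace ℚ → InfinitePlace (MZ.FSmax S : IntermediateField ℚ MZ.Om)),
      MZ.IsDatum ℚ MZ.Om S 2 (ZMod 2) 3 ρbar w ∧ MZ.delta S ρbar w = 1 ∧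
      (∃ (R : MZ.CNL 2 (ZMod 2)) (ρu : MZ.GFS MZ.Om S →* GL (Fin 3) R.A), MZ.IsUniversal ρbar R ρu) ∧
      ∀ (R : MZ.CNL 2 (ZMod 2)) (ρu : MZ.GFS MZ.Om S →* GL (Fin 3) R.A), MZ.IsUniversal ρbar R ρu →
        5 ≤ ringKrullDim (R.A ⧸ Ideal.span {((2 : ℕ) : R.A)}) := by
  have hcl : IsAlgClosure ℚ MZ.Om := RESQN.alg_cloQ
  obtain ⟨res, hc, hsur, -⟩ := resGen ℚ MZ.Om S438 S h438
  obtain ⟨-, -, -, -, hs, -⟩ := core0 K r hK κ
  obtain ⟨rbar, hro, hirr, h21, hdim⟩ := core1 K r hK κ (MZ.GFS MZ.Om S) res hc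
    (by rw [hsur.range_eq]; exact isOpen_univ) (fun s => by
      obtain ⟨g, hg⟩ := hs s
      obtain ⟨g', rfl⟩ := hsur g
      exact ⟨g', hg⟩)
  exact concl ℚ MZ.Om realQ S hS h438 rbar hro hirr h21 hdim

/-- the field `K = ℚ(θ, l)` as a subfield of `MZ.Om` -/
theorem field (K : Type) [Field K] [NumberField K] (θ l : K) (hK : KF K θ l) (κ : K →ₐ[ℚ] QSm) :
    ∃ (M : IntermediateField ℚ MZ.Om) (θ' l' : MZ.Om),
      θ' ^ 7 - 8 * θ' ^ 5 - 2 * θ' ^ 4 + 16 * θ' ^ 3 + 6 * θ' ^ 2 - 6 * θ' - 2 = 0 ∧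
      l' ^ 3 + l' ^ 2 - 24 * l' - 27 = 0 ∧ M = IntermediateField.adjoin ℚ {θ', l'} ∧
      IsGalois ℚ M ∧ Module.finrank ℚ M = 21 ∧
      ∀ F : IntermediateField ℚ MZ.Om, F ⊓ M = ⊥ →
        ∀ x : K, ((κ x : QSm) : MZ.Om) ∈ F → ∃ q : ℚ, x = algebraMap ℚ K q := by
  have hgal : IsGalois ℚ K := hK.gal
  let c : K →ₐ[ℚ] MZ.Om := (IntermediateField.val _).comp κ
  have hc : ∀ x : K, c x = ((κ x : QSm) : MZ.Om) := fun _ => rfl
  have htop : IntermediateField.adjoin ℚ {θ, l} = ⊤ := by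
    have h1 : (IntermediateField.adjoin ℚ {θ, l}).fixingSubgroup = ⊥ := by
      rw [eq_bot_iff]
      intro σ hσ
      rw [IntermediateField.mem_fixingSubgroup_iff] at hσ
      rw [Subgroup.mem_bot]
      exact hK.gen σ (hσ θ (IntermediateField.subset_adjoin _ _ (by simp)))
        (hσ l (IntermediateField.subset_adjoin _ _ (by simp)))
    have h2 := IsGalois.fixedField_fixingSubgroup (IntermediateField.adjoin ℚ {θ, l})
    rw [h1, IntermediateField.fixedField_bot] at h2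
    exact h2.symm
  have hM : c.fieldRange = IntermediateField.adjoin ℚ {c θ, c l} := by
    rw [AlgHom.fieldRange_eq_map, ← htop, IntermediateField.adjoin_map]
    congr 1
    rw [Set.image_pair]
  let e : K ≃ₐ[ℚ] c.fieldRange := AlgEquiv.ofInjectiveField c
  have k1 : ∀ φ : K →+* MZ.Om,
      φ θ ^ 7 - 8 * φ θ ^ 5 - 2 * φ θ ^ 4 + 16 * φ θ ^ 3 + 6 * φ θ ^ 2 - 6 * φ θ - 2 = 0 := by
    intro φ
    have h : φ (θ ^ 7 - 8 * θ ^ 5 - 2 * θ ^ 4 + 16 * θ ^ 3 + 6 * θ ^ 2 - 6 * θ - 2) = φ 0 :=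
      congrArg φ hK.rN
    simpa only [map_sub, map_add, map_mul, map_pow, map_ofNat, map_zero] using h
  have k2 : ∀ φ : K →+* MZ.Om, φ l ^ 3 + φ l ^ 2 - 24 * φ l - 27 = 0 := by
    intro φ
    have h : φ (l ^ 3 + l ^ 2 - 24 * l - 27) = φ 0 := congrArg φ hK.rL
    simpa only [map_sub, map_add, map_mul, map_pow, map_ofNat, map_zero] using h
  refine ⟨c.fieldRange, c θ, c l, ?_, ?_, hM, ?_, ?_, ?_⟩
  · exact k1 c.toRingHom
  · exact k2 c.toRingHom
  · exact IsGalois.of_algEquiv e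
  · rw [← hK.deg]
    exact (LinearEquiv.finrank_eq e.toLinearEquiv).symm
  · intro F hF x hx
    have h1 : c x ∈ F ⊓ c.fieldRange := ⟨hx, ⟨x, rfl⟩⟩
    rw [hF, IntermediateField.mem_bot] at h1
    obtain ⟨q, hq⟩ := h1
    refine ⟨q, c.injective ?_⟩
    exact hq.symm.trans (AlgHom.commutes c q).symm

end Pool.Agent.H429.MZQ
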