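import Pool.Agent.H429.MZQ.StmI
import Pool.Agent.H429.MZQ.Fin2

/-!
# DJQ: a representation of `G_{F,S}` and a Galois number field with disjoint ramification (helper429)
-/

set_option autoImplicit false
set_option linter.all false

namespace Pool.Agent.H429.MZQ

open NumberField IsDedekindDomain Module IsLocalRing
open Pool.Agent.Q92.AR (Unramified)

namespace DJQN

theorem surTop {k Ω : Type} [Field k] [CharZero k] [Field Ω] [Algebra k Ω] [IsAlgClosed Ω]
    [Algebra.IsAlgebraic k Ω] (L F : IntermediateField k Ω) [FiniteDimensional k L]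
    [IsGalois k L] (h : F ⊓ L = ⊥) (g : Gal(L/k)) :
    ∃ γ : Gal(Ω/F), ∀ x : L, γ (x : Ω) = ((g x : L) : Ω) := by
  haveI : IsAlgClosure F Ω := ⟨inferInstance, Algebra.IsAlgebraic.tower_top (K := k) F⟩
  haveI : CharZero F := charZero_of_injective_algebraMap (algebraMap k F).injective
  haveI hG : IsGalois F Ω := inferInstance
  haveI hT : IsGalois F (⊤ : IntermediateField F Ω) :=
    IsGalois.of_algEquiv IntermediateField.topEquiv.symm
  obtain ⟨γ, hγ⟩ := Pool.Agent.H429.MZU.sur_gen L F (⊤ : IntermediateField F Ω) h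
    (fun x _ => IntermediateField.mem_top) g
  refine ⟨(IntermediateField.topEquiv.symm.trans γ).trans IntermediateField.topEquiv,
    fun x => ?_⟩
  exact hγ x x.2

theorem sur3 {k Ω : Type} [Field k] [CharZero k] [Field Ω] [Algebra k Ω] [IsAlgClosed Ω]
    [Algebra.IsAlgebraic k Ω] (L A : IntermediateField k Ω) [FiniteDimensional k L]
    [IsGalois k L] (h : A ⊓ L = ⊥) (g' : Gal(Ω/k)) (t : Gal(L/k)) :
    ∃ γ : Gal(Ω/A), ∀ x : L, g' (γ (x : Ω)) = ((t x : L) : Ω) := by
  obtain ⟨u, hu⟩ : ∃ u : Gal(L/k), ∀ x : L, ((u x : L) : Ω) = g' (x : Ω) :=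
    ⟨g'.restrictNormal L, fun x => AlgEquiv.restrictNormal_commutes g' L x⟩
  obtain ⟨γ, hγ⟩ := surTop L A h (u⁻¹ * t)
  refine ⟨γ, fun x => ?_⟩
  rw [hγ, ← hu]
  show ((u (u⁻¹ (t x)) : L) : Ω) = _
  exact congrArg Subtype.val (u.apply_symm_apply (t x))

theorem exists_N0 (F M : Type) [Field F] [NumberField F] [Field M] [NumberField M]
    [Algebra F M] :
    ∃ N : ℕ, N ≠ 0 ∧ ∀ w : HeightOneSpectrum (𝓞 M), ((N : ℕ) : 𝓞 M) ∉ w.asIdeal →
      Algebra.IsUnramifiedAt (𝓞 F) w.asIdeal := by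
  haveI : FiniteDimensional F M := Module.Finite.of_restrictScalars_finite ℚ F M
  have h0 : differentIdeal (𝓞 F) (𝓞 M) ≠ ⊥ := differentIdeal_ne_bot
  refine ⟨Ideal.absNorm (differentIdeal (𝓞 F) (𝓞 M)), ?_, ?_⟩
  · rw [Ne, Ideal.absNorm_eq_zero_iff]
    exact h0
  · intro w hw
    haveI := w.isPrime
    rw [← not_dvd_differentIdeal_iff]
    intro h
    exact hw (Ideal.dvd_iff_le.mp h (Ideal.absNorm_mem _))

theorem fin_N (F : Type) [Field F] [NumberField F] (N : ℕ) (hN : N ≠ 0) :
    {v : HeightOneSpectrum (𝓞 F) | ((N : ℕ) : 𝓞 F) ∈ v.asIdeal}.Finite := by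
  have h1 : (Ideal.span {((N : ℕ) : 𝓞 F)} : Ideal (𝓞 F)) ≠ 0 := by
    rw [Ne, Ideal.zero_eq_bot, Ideal.span_singleton_eq_bot]
    exact_mod_cast hN
  refine (Ideal.finite_factors h1).subset ?_
  intro v hv
  show v.asIdeal ∣ _
  rw [Ideal.dvd_span_singleton]
  exact hv

/-- a finite extension of `F` in `Ω` lies in some `F_S`, `S` finite -/
theorem le_FS (F Ω : Type) [Field F] [NumberField F] [Field Ω] [Algebra F Ω]
    (E : IntermediateField F Ω) [FiniteDimensional F E] :
    ∃ S₀ : Set (HeightOneSpectrum (𝓞 F)), S₀.Finite ∧ E ≤ (MZ.FSmax S₀ : IntermediateField F Ω) := by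
  haveI : CharZero Ω := charZero_of_injective_algebraMap (algebraMap F Ω).injective
  haveI : CharZero E := charZero_of_injective_algebraMap (algebraMap F E).injective
  haveI t0 : IsScalarTower ℚ F E :=
    IsScalarTower.of_algebraMap_eq (fun q => by rw [eq_ratCast, eq_ratCast, map_ratCast])
  haveI : FiniteDimensional ℚ E := FiniteDimensional.trans ℚ F E
  haveI : NumberField E := ⟨⟩
  obtain ⟨N, hN, hw⟩ := exists_N0 F E
  refine ⟨{v | ((N : ℕ) : 𝓞 F) ∈ v.asIdeal}, fin_N F N hN, ?_⟩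
  have hU : MZ.UnramifiedOutside {v : HeightOneSpectrum (𝓞 F) | ((N : ℕ) : 𝓞 F) ∈ v.asIdeal} E := by
    intro w hv
    apply hw w
    intro hNw
    refine hv (w.under (𝓞 F)) ?_ rfl
    show ((N : ℕ) : 𝓞 F) ∈ w.asIdeal.comap (algebraMap (𝓞 F) (𝓞 E))
    rw [Ideal.mem_comap, map_natCast]
    exact hNw
  exact le_iSup (fun K : {K : IntermediateField F Ω // FiniteDimensional F K ∧
    MZ.UnramifiedOutside {v : HeightOneSpectrum (𝓞 F) | ((N : ℕ) : 𝓞 F) ∈ v.asIdeal} K} => K.1)
    ⟨E, inferInstance, hU⟩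

end DJQN

open DJQN in
theorem djq : J_DJQ := by
  intro hD F Ω _ _ _ _ _ S X _ ρ hρ
  haveI : CharZero Ω := charZero_of_injective_algebraMap (algebraMap F Ω).injective
  haveI : Algebra.IsAlgebraic F Ω := IsAlgClosure.isAlgebraic
  haveI : IsAlgClosed Ω := IsAlgClosure.isAlgClosed F
  haveI t0 : IsScalarTower ℚ F Ω :=
    IsScalarTower.of_algebraMap_eq (fun q => by rw [eq_ratCast, eq_ratCast, map_ratCast])
  haveI : Algebra.IsAlgebraic ℚ Ω := Algebra.IsAlgebraic.trans ℚ F Ω
  haveI hgS : IsGalois F (MZ.FSmax S : IntermediateField F Ω) := Pool.Agent.W178.MZK.K7 F Ω S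
  have hclosed : IsClosed (ρ.ker : Set (MZ.GFS Ω S)) :=
    Subgroup.isClosed_of_isOpen _ hρ
  obtain ⟨A₁, hA₁⟩ : ∃ A₁ : IntermediateField F (MZ.FSmax S : IntermediateField F Ω),
      A₁ = IntermediateField.fixedField ρ.ker := ⟨_, rfl⟩
  have hfix : A₁.fixingSubgroup = ρ.ker := by
    rw [hA₁]
    exact InfiniteGalois.fixingSubgroup_fixedField ⟨ρ.ker, hclosed⟩
  haveI hfd : FiniteDimensional F A₁ :=
    (InfiniteGalois.isOpen_iff_finite A₁).1 (by rw [hfix]; exact hρ)
  let A₂ : IntermediateField F Ω := IntermediateField.lift A₁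
  haveI hfd2 : FiniteDimensional F A₂ := by
    exact LinearEquiv.finiteDimensional (IntermediateField.liftAlgEquiv A₁).toLinearEquiv
  let A : IntermediateField ℚ Ω := A₂.restrictScalars ℚ
  haveI hNA : NumberField A := by
    haveI t1 : IsScalarTower ℚ F A₂ :=
      IsScalarTower.of_algebraMap_eq (fun q => by rw [eq_ratCast, eq_ratCast, map_ratCast])
    have h1 : FiniteDimensional ℚ A₂ := FiniteDimensional.trans ℚ F A₂
    exact @NumberField.mk A _ _ h1
  obtain ⟨N, hN, hD2⟩ := hD A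
  refine ⟨N, hN, ?_⟩
  intro E _ _ hgE hE
  let ι : E →ₐ[ℚ] Ω := IsAlgClosed.lift
  let L : IntermediateField ℚ Ω := ι.fieldRange
  let e : E ≃ₐ[ℚ] L := AlgEquiv.ofInjectiveField ι
  have he : ∀ x : E, ((e x : L) : Ω) = ι x := fun _ => rfl
  haveI hfL : FiniteDimensional ℚ L := LinearEquiv.finiteDimensional e.toLinearEquiv
  have hGL : @IsGalois ℚ _ L _ L.algebra' := IsGalois.of_algEquiv e
  have hAL : A ⊓ L = ⊥ := by
    haveI : FiniteDimensional ℚ (A ⊓ L : IntermediateField ℚ Ω) :=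
      FiniteDimensional.of_injective (IntermediateField.inclusion (inf_le_right : A ⊓ L ≤ L)).toLinearMap
        (IntermediateField.inclusion (inf_le_right : A ⊓ L ≤ L)).toRingHom.injective
    haveI : NumberField (A ⊓ L : IntermediateField ℚ Ω) := @NumberField.mk _ _ inferInstance this
    have h1 := hD2 E hE (A ⊓ L : IntermediateField ℚ Ω)
      ⟨(IntermediateField.inclusion (inf_le_left : A ⊓ L ≤ A)).toRingHom⟩
      ⟨(e.symm : L ≃+* E).toRingHom.comp (IntermediateField.inclusion (inf_le_right : A ⊓ L ≤ L)).toRingHom⟩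
    exact IntermediateField.finrank_eq_one_iff.mp h1
  -- the set of places
  obtain ⟨α, hα⟩ := Field.exists_primitive_element ℚ E
  let E₂ : IntermediateField F Ω := IntermediateField.adjoin F {ι α}
  haveI hfE₂ : FiniteDimensional F E₂ :=
    IntermediateField.adjoin.finiteDimensional (Algebra.IsIntegral.isIntegral (ι α))
  have hι2 : ∀ x : E, ι x ∈ E₂ := by
    intro x
    have h1 : x ∈ IntermediateField.adjoin ℚ {α} := by rw [hα]; exact IntermediateField.mem_top
    have h2 : IntermediateField.adjoin ℚ {α} ≤ (E₂.restrictScalars ℚ).comap ι := by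
      rw [IntermediateField.adjoin_simple_le_iff]
      exact IntermediateField.mem_adjoin_simple_self F (ι α)
    exact h2 h1
  obtain ⟨S₀, hS₀, hle⟩ := le_FS F Ω E₂
  refine ⟨S₀, hS₀, ?_⟩
  intro S' hSS hSS₀
  have hιm : ∀ x : E, ι x ∈ (MZ.FSmax S' : IntermediateField F Ω) :=
    fun x => FSmax_mono hSS₀ (hle (hι2 x))
  haveI hg2 : IsGalois F (MZ.FSmax S' : IntermediateField F Ω) := Pool.Agent.W178.MZK.K7 F Ω S'
  obtain ⟨res, hrc, hrs, hres⟩ := resGen F Ω S S' hSS
  let j : E →+* (MZ.FSmax S' : IntermediateField F Ω) :=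
    { toFun := fun x => ⟨ι x, hιm x⟩
      map_one' := Subtype.ext (map_one ι)
      map_mul' := fun _ _ => Subtype.ext (map_mul ι _ _)
      map_zero' := Subtype.ext (map_zero ι)
      map_add' := fun _ _ => Subtype.ext (map_add ι _ _) }
  letI : Algebra E (MZ.FSmax S' : IntermediateField F Ω) := j.toAlgebra
  haveI t2 : IsScalarTower ℚ F (MZ.FSmax S' : IntermediateField F Ω) :=
    IsScalarTower.of_algebraMap_eq (fun q => by
      rw [eq_ratCast, eq_ratCast, map_ratCast])
  haveI t3 : IsScalarTower ℚ E (MZ.FSmax S' : IntermediateField F Ω) :=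
    IsScalarTower.of_algebraMap_eq (fun q => by
      rw [eq_ratCast, eq_ratCast, map_ratCast])
  refine ⟨res, Pool.Agent.H429.MZU.resU ℚ E F (MZ.FSmax S' : IntermediateField F Ω), hrc, hrs, ?_, ?_⟩
  · have h1 := Pool.Agent.H429.MZU.continuous_resU ℚ E F
      (MZ.FSmax S' : IntermediateField F Ω)
    haveI : DiscreteTopology Gal(E/ℚ) := krullTopology_discreteTopology_of_finiteDimensional ℚ E
    exact (isOpen_discrete ({1} : Set Gal(E/ℚ))).preimage h1
  · intro g t
    haveI : IsGalois F Ω := inferInstance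
    obtain ⟨g', hg'⟩ := AlgEquiv.restrictNormalHom_surjective (F := F)
      (K₁ := (MZ.FSmax S : IntermediateField F Ω)) Ω g
    have hg'' : ∀ x : (MZ.FSmax S : IntermediateField F Ω),
        ((g x : (MZ.FSmax S : IntermediateField F Ω)) : Ω) = g' (x : Ω) := by
      intro x
      rw [← hg']
      exact AlgEquiv.restrictNormal_commutes g' _ x
    obtain ⟨γ, hγ⟩ := @sur3 ℚ Ω _ _ _ _ _ _ L A hfL hGL hAL (AlgEquiv.restrictScalars ℚ g')
      ((e.symm.trans t).trans e)
    let δ : Gal(Ω/F) := AlgEquiv.ofRingEquiv (f := (γ : Ω ≃+* Ω)) (by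
      intro x
      exact γ.commutes ⟨algebraMap F Ω x, A₂.algebraMap_mem x⟩)
    have hδ : ∀ x : Ω, δ x = γ x := fun _ => rfl
    let x : MZ.GFS Ω S' := (g' * δ).restrictNormal (MZ.FSmax S' : IntermediateField F Ω)
    have hx : ∀ z : (MZ.FSmax S' : IntermediateField F Ω),
        ((x z : (MZ.FSmax S' : IntermediateField F Ω)) : Ω) = g' (δ (z : Ω)) :=
      fun z => AlgEquiv.restrictNormal_commutes (g' * δ) _ z
    refine ⟨x, ?_, ?_⟩
    · let d : MZ.GFS Ω S := δ.restrictNormal (MZ.FSmax S : IntermediateField F Ω)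
      have hd : ∀ z : (MZ.FSmax S : IntermediateField F Ω),
          ((d z : (MZ.FSmax S : IntermediateField F Ω)) : Ω) = δ (z : Ω) :=
        fun z => AlgEquiv.restrictNormal_commutes δ _ z
      have h1 : res x = g * d := by
        apply AlgEquiv.ext
        intro z
        apply Subtype.ext
        rw [hres, hx]
        show _ = ((g (d z) : (MZ.FSmax S : IntermediateField F Ω)) : Ω)
        rw [hg'', hd]
      have h2 : d ∈ ρ.ker := by
        rw [← hfix]
        rw [IntermediateField.mem_fixingSubgroup_iff]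
        intro z hz
        apply Subtype.ext
        rw [hd, hδ]
        exact γ.commutes ⟨(z : Ω), (IntermediateField.mem_lift z).2 hz⟩
      rw [h1, map_mul, (MonoidHom.mem_ker).1 h2, mul_one]
    · apply AlgEquiv.ext
      intro z
      apply ι.toRingHom.injective
      have h3 : ι (Pool.Agent.H429.MZU.resU ℚ E F (MZ.FSmax S' : IntermediateField F Ω) x z) =
          ((x (j z) : (MZ.FSmax S' : IntermediateField F Ω)) : Ω) := congrArg Subtype.val
            (Pool.Agent.H429.MZU.resU_apply (F₀ := ℚ) (E := E) x z)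
      have h4 : g' (γ (((e z : L)) : Ω)) = (((e.symm.trans t).trans e) (e z) : L) := hγ (e z)
      have h5 : ((((e.symm.trans t).trans e) (e z) : L) : Ω) = ι (t z) := by
        show ((e (t (e.symm (e z))) : L) : Ω) = _
        rw [AlgEquiv.symm_apply_apply]
        exact he _
      show ι _ = ι _
      rw [h3, hx, hδ]
      exact h4.trans h5

end Pool.Agent.H429.MZQ
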