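import Pool.Graph.R_pool_sql_team_seeded_3997aac3.Q285.MZ.VE
import Pool.Graph.R_pool_sql_team_seeded_3997aac3.Q285.MZ.LE

/-!
# Project MZQ, job DL: local norms at a prime where the cocycle is trivial on the decomposition group
-/

set_option autoImplicit false
set_option linter.unusedSectionVars false

namespace Pool.Agent.H429.MZQ

open NumberField IsDedekindDomain Module
open Pool.Agent.Q92.AR (nu)
open Pool.Agent.TeamU (act)
open Pool.Agent.Q5.MZ
open Pool.Agent.Q285.MZ (TSub TSub_index val_act_eq ex_dec ex_nat)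
open Pool.Agent.Q38.EX (val_nat_lt_one val_nat_ne_zero near_one near_inv val_g val_act_F act_inv_iff
  exists_exp_le approx)

namespace DLN

section dens

variable {k L : Type} [Field k] [NumberField k] [Field L] [NumberField L] [Algebra k L]
  [IsGalois k L]

/-- the subfield `k` is dense in the fixed field of the decomposition group -/
theorem dens (P : HeightOneSpectrum (𝓞 L)) (p : L) (hp : ∀ g : L ≃ₐ[k] L, act g P = P → g p = p)
    {r : WithZero (Multiplicative ℤ)} (hr : r ≠ 0) :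
    ∃ p' : k, P.valuation L (algebraMap k L p' - p) ≤ r := by
  classical
  set D : Finset (L ≃ₐ[k] L) := Finset.univ.filter (fun g => act g P = P) with hD
  have hmD : ∀ g, g ∈ D ↔ act g P = P := fun g => by
    rw [hD, Finset.mem_filter]
    exact ⟨fun h => h.2, fun h => ⟨Finset.mem_univ _, h⟩⟩
  have h1D : (1 : L ≃ₐ[k] L) ∈ D := (hmD 1).2 (Pool.Agent.TeamU.act_one P)
  have hcard : D.card ≠ 0 := Finset.card_ne_zero_of_mem h1D
  have hcardk : ((D.card : ℕ) : k) ≠ 0 := Nat.cast_ne_zero.2 hcard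
  have hcardL : ((D.card : ℕ) : L) ≠ 0 := Nat.cast_ne_zero.2 hcard
  obtain ⟨K₀, hK₀⟩ : ∃ K₀, ∀ g : L ≃ₐ[k] L,
      P.valuation L (((D.card : ℕ) : L)⁻¹) * P.valuation L (g p) ≤ K₀ := by
    obtain ⟨K₀, hK₀⟩ := (Set.finite_range (fun g : L ≃ₐ[k] L =>
      P.valuation L (((D.card : ℕ) : L)⁻¹) * P.valuation L (g p))).bddAbove
    exact ⟨K₀, fun g => hK₀ ⟨g, rfl⟩⟩
  set K := max K₀ 1 with hK
  have hK1 : 1 ≤ K := le_max_right _ _
  have hK0 : K ≠ 0 := (zero_lt_one.trans_le hK1).ne'
  obtain ⟨e, he⟩ := exists_exp_le (y := r / K) (div_ne_zero hr hK0)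
  obtain ⟨N, hN, hNP, hNe⟩ := ex_nat P e
  have hν : K * P.valuation L (N : L) ≤ r := by
    have h1 := hNe.trans he
    rwa [le_div_iff₀ (zero_lt_iff.2 hK0), mul_comm] at h1
  have hN1 : P.valuation L (N : L) < 1 := val_nat_lt_one hNP
  obtain ⟨η, hη⟩ := approx (K := L) hN (fun w => if w = P then 1 else
    Units.mk0 (N : L) (Nat.cast_ne_zero.2 hN))
  -- the terms
  have hterm : ∀ g : L ≃ₐ[k] L, P.valuation L (g (p * (η : L)) - if g ∈ D then p else 0) ≤
      P.valuation L (g p) * P.valuation L (N : L) := by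
    intro g
    by_cases hg : g ∈ D
    · have hgP := (hmD g).1 hg
      have hgp := hp g hgP
      have h1 : g (p * (η : L)) - p = g (p * ((η : L) - 1)) := by
        rw [mul_sub, map_sub, mul_one, hgp]
      rw [if_pos hg, h1, val_act_eq hgP, map_mul, hgp]
      refine mul_le_mul' le_rfl ?_
      have h2 := hη P hNP
      rw [if_pos rfl, Units.val_one, div_one] at h2
      exact h2
    · rw [if_neg hg, sub_zero, map_mul, map_mul]
      refine mul_le_mul' le_rfl ?_
      have hgP : act g⁻¹ P ≠ P := fun h => hg ((hmD g).2 (act_inv_iff.1 h))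
      have h3 : (act g⁻¹ P).valuation L (N : L) = P.valuation L (N : L) := by
        have := val_act_F g P (N : k)
        rwa [map_natCast] at this
      have h4 : (N : 𝓞 L) ∈ (act g⁻¹ P).asIdeal := by
        refine ((act g⁻¹ P).valuation_lt_one_iff_mem (K := L) (N : 𝓞 L)).1 ?_
        have h5 : (act g⁻¹ P).valuation L (N : L) < 1 := by
          rw [h3]
          exact hN1
        simpa using h5
      have h6 := hη (act g⁻¹ P) h4
      rw [if_neg hgP, Units.val_mk0] at h6
      have h7 := near_one _ (val_nat_lt_one h4) h6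
      rw [map_div₀, div_eq_one_iff_eq (val_nat_ne_zero hN _)] at h7
      rw [val_g, h7, h3]
  refine ⟨((D.card : ℕ) : k)⁻¹ * Algebra.trace k L (p * (η : L)), ?_⟩
  have h8 : algebraMap k L (((D.card : ℕ) : k)⁻¹ * Algebra.trace k L (p * (η : L))) - p =
      ∑ g : L ≃ₐ[k] L, ((D.card : ℕ) : L)⁻¹ * (g (p * (η : L)) - if g ∈ D then p else 0) := by
    rw [← Finset.mul_sum, Finset.sum_sub_distrib, map_mul, map_inv₀, map_natCast,
      trace_eq_sum_automorphisms, mul_sub]
    congr 1
    rw [Finset.sum_ite_mem, Finset.univ_inter, Finset.sum_const, nsmul_eq_mul, ← mul_assoc,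
      inv_mul_cancel₀ hcardL, one_mul]
  rw [h8]
  refine Valuation.map_sum_le _ fun g _ => ?_
  rw [map_mul]
  calc P.valuation L (((D.card : ℕ) : L)⁻¹) * P.valuation L (g (p * (η : L)) - if g ∈ D then p else 0)
      ≤ P.valuation L (((D.card : ℕ) : L)⁻¹) * (P.valuation L (g p) * P.valuation L (N : L)) :=
        mul_le_mul' le_rfl (hterm g)
    _ = (P.valuation L (((D.card : ℕ) : L)⁻¹) * P.valuation L (g p)) * P.valuation L (N : L) := by
        rw [mul_assoc]
    _ ≤ K * P.valuation L (N : L) := mul_le_mul' ((hK₀ g).trans (le_max_left _ _)) le_rfl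
    _ ≤ r := hν

end dens

section coc

variable {k E L : Type} [Field k] [NumberField k] [Field E] [NumberField E] [Field L]
  [NumberField L] [Algebra k E] [Algebra k L] [Algebra E L] [IsScalarTower k E L] [IsGalois k L]

open scoped Classical in
/-- the cocycle of `x`, trivial on the decomposition group, gives a local solution -/
theorem coc (c : (L ≃ₐ[k] L) → (L ≃ₐ[k] L) → ℤˣ) (x : kˣ) (b : (L ≃ₐ[k] L) → Lˣ)
    (P : HeightOneSpectrum (𝓞 L)) (ε : (L ≃ₐ[k] L) → ℤˣ) (h2 : finrank k E = 2)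
    (hrel : Rel E c x b)
    (hε : ∀ g ∈ Dec k P, ∀ h ∈ Dec k P, ε g * ε h = ε (g * h) * c g h)
    (t : L ≃ₐ[k] L) (htP : act t P = P) (htE : ¬ TrivOn E t) :
    ∃ τ : L, (∀ h : L ≃ₐ[k] L, act h P = P → TrivOn E h → h τ = τ) ∧
      τ * t τ = algebraMap k L (x : k) := by
  have hidx := TSub_index (k := k) (E := E) (L := L) h2
  have hmem : ∀ {a b : L ≃ₐ[k] L}, TrivOn E (a * b) ↔ (TrivOn E a ↔ TrivOn E b) :=
    Subgroup.mul_mem_iff_of_index_two hidx
  have hinv : ∀ {a : L ≃ₐ[k] L}, TrivOn E a → TrivOn E a⁻¹ := fun h => (TSub k E L).inv_mem h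
  have h1E : TrivOn E (1 : L ≃ₐ[k] L) := (TSub k E L).one_mem
  have hmul : ∀ {g h : L ≃ₐ[k] L}, act g P = P → act h P = P → act (g * h) P = P := by
    intro g h hg hh
    rw [Pool.Agent.TeamU.act_mul, hh, hg]
  have hinvP : ∀ {g : L ≃ₐ[k] L}, act g P = P → act g⁻¹ P = P := fun h => act_inv_iff.2 h
  have h1P : act (1 : L ≃ₐ[k] L) P = P := Pool.Agent.TeamU.act_one P
  set X : L := algebraMap k L (x : k) with hX
  set β : (L ≃ₐ[k] L) → L := fun g => (b g : L) * (((ε g : ℤˣ) : ℤ) : L) with hβ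
  have hβ0 : ∀ g, β g ≠ 0 := by
    intro g
    refine mul_ne_zero (b g).ne_zero ?_
    rcases Int.units_eq_one_or (ε g) with h | h <;> rw [h] <;> simp
  have hsq : ∀ z : ℤˣ, (((z : ℤˣ) : ℤ) : L) * (((z : ℤˣ) : ℤ) : L) = 1 := by
    intro z
    rcases Int.units_eq_one_or z with h | h <;> rw [h] <;> simp
  have hβr : ∀ g h, act g P = P → act h P = P →
      β g * g (β h) = β (g * h) * (if TrivOn E g ∨ TrivOn E h then 1 else X) := by
    intro g h hg hh
    have e1 := hrel g h
    have e2 := congrArg (fun z : ℤˣ => ((z : ℤ) : L)) (hε g hg h hh)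
    simp only [Units.val_mul, Int.cast_mul] at e2
    have e3 := hsq (c g h)
    simp only [hβ, map_mul, map_intCast]
    calc (b g : L) * (((ε g : ℤˣ) : ℤ) : L) * (g (b h : L) * (((ε h : ℤˣ) : ℤ) : L))
        = ((b g : L) * g (b h : L)) * ((((ε g : ℤˣ) : ℤ) : L) * (((ε h : ℤˣ) : ℤ) : L)) := by ring
      _ = ((b (g * h) : L) * (((c g h : ℤˣ) : ℤ) : L) *
          (if TrivOn E g ∨ TrivOn E h then 1 else X)) *
          ((((ε (g * h) : ℤˣ) : ℤ) : L) * (((c g h : ℤˣ) : ℤ) : L)) := by rw [e1, e2]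
      _ = (b (g * h) : L) * (((ε (g * h) : ℤˣ) : ℤ) : L) *
          (if TrivOn E g ∨ TrivOn E h then 1 else X) *
          ((((c g h : ℤˣ) : ℤ) : L) * (((c g h : ℤˣ) : ℤ) : L)) := by ring
      _ = _ := by rw [e3, mul_one]
  -- Hilbert 90
  set Hf : Finset (L ≃ₐ[k] L) := Finset.univ.filter (fun g => act g P = P ∧ TrivOn E g) with hHf
  have hmH : ∀ g, g ∈ Hf ↔ (act g P = P ∧ TrivOn E g) := fun g => by
    rw [hHf, Finset.mem_filter]
    exact ⟨fun h => h.2, fun h => ⟨Finset.mem_univ _, h⟩⟩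
  obtain ⟨e, he⟩ : ∃ e : L, ∑ h ∈ Hf, β h * h e ≠ 0 := by
    by_contra hcon
    push Not at hcon
    have li := (linearIndependent_monoidHom L L).comp
      (fun g : L ≃ₐ[k] L => ((g : L →* L))) (by
        intro g h hgh
        ext y
        exact DFunLike.congr_fun hgh y)
    rw [linearIndependent_iff'] at li
    have h3 := li Hf β (by
      ext y
      rw [Finset.sum_apply]
      exact hcon y) 1 ((hmH 1).2 ⟨h1P, h1E⟩)
    exact hβ0 1 h3
  set w : L := ∑ h ∈ Hf, β h * h e with hw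
  have hgw : ∀ g, act g P = P → TrivOn E g → β g * g w = w := by
    intro g hg hgE
    rw [hw, map_sum, Finset.mul_sum]
    refine Finset.sum_bij' (fun h _ => g * h) (fun h _ => g⁻¹ * h) ?_ ?_ ?_ ?_ ?_
    · intro h hh
      have := (hmH h).1 hh
      exact (hmH _).2 ⟨hmul hg this.1, hmem.2 ⟨fun _ => this.2, fun _ => hgE⟩⟩
    · intro h hh
      have := (hmH h).1 hh
      exact (hmH _).2 ⟨hmul (hinvP hg) this.1, hmem.2 ⟨fun _ => this.2, fun _ => hinv hgE⟩⟩
    · intro h _
      rw [inv_mul_cancel_left]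
    · intro h _
      rw [mul_inv_cancel_left]
    · intro h hh
      have h3 := hβr g h hg ((hmH h).1 hh).1
      rw [if_pos (Or.inl hgE), mul_one] at h3
      rw [map_mul, ← mul_assoc, h3]
      rfl
  have hg0 : ∀ g : L ≃ₐ[k] L, g w ≠ 0 := fun g h => he ((map_eq_zero_iff g g.injective).1 h)
  set γ : (L ≃ₐ[k] L) → L := fun g => β g * (g w / w) with hγ
  have hγr : ∀ g h, act g P = P → act h P = P →
      γ g * g (γ h) = γ (g * h) * (if TrivOn E g ∨ TrivOn E h then 1 else X) := by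
    intro g h hg hh
    have h3 := hβr g h hg hh
    have h4 : g (h w) = (g * h) w := rfl
    simp only [hγ, map_mul, map_div₀]
    rw [h4]
    have h5 := hg0 g
    have h6 : w ≠ 0 := he
    calc β g * (g w / w) * (g (β h) * ((g * h) w / g w))
        = (β g * g (β h)) * ((g * h) w / w) := by field_simp
      _ = _ := by rw [h3]; ring
  have hγ1 : ∀ g, act g P = P → TrivOn E g → γ g = 1 := by
    intro g hg hgE
    simp only [hγ]
    rw [← mul_div_assoc, hgw g hg hgE, div_self he]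
  refine ⟨γ t, ?_, ?_⟩
  · intro h hhP hhE
    have h3 := hγr h t hhP htP
    rw [if_pos (Or.inl hhE), mul_one, hγ1 h hhP hhE, one_mul] at h3
    have hc1 : act (t⁻¹ * h * t) P = P := hmul (hmul (hinvP htP) hhP) htP
    have hc2 : TrivOn E (t⁻¹ * h * t) := by
      have h5 : ¬ TrivOn E t⁻¹ := fun h6 => htE (by
        have := hinv h6
        rwa [inv_inv] at this)
      rw [hmem, hmem]
      tauto
    have h4 := hγr t (t⁻¹ * h * t) htP hc1
    rw [if_pos (Or.inr hc2), mul_one, hγ1 _ hc1 hc2, map_one, mul_one] at h4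
    have h7 : t * (t⁻¹ * h * t) = h * t := by group
    rw [h7] at h4
    rw [h3, ← h4]
  · have h3 := hγr t t htP htP
    rw [if_neg (not_or.2 ⟨htE, htE⟩), hγ1 (t * t) (hmul htP htP) (hmem.2 Iff.rfl), one_mul] at h3
    exact h3

/-- an element of `E` whose square is in `k`, and the norm -/
theorem quad (h2 : finrank k E = 2) (t : L ≃ₐ[k] L) (ht : ¬ TrivOn E t) :
    (∃ (s : E) (a : k), s ≠ 0 ∧ s ^ 2 = algebraMap k E a ∧ ∀ g : L ≃ₐ[k] L, ¬ TrivOn E g →
      g (algebraMap E L s) = - algebraMap E L s) ∧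
    ∀ y : E, algebraMap k L (Algebra.norm k y) = algebraMap E L y * t (algebraMap E L y) := by
  classical
  have : Algebra.IsQuadraticExtension k E := ⟨h2⟩
  have : Normal k E := inferInstance
  have hg : IsGalois k E := ⟨⟩
  have hcard : Nat.card (E ≃ₐ[k] E) = 2 := by rw [IsGalois.card_aut_eq_finrank, h2]
  obtain ⟨σ, hσ1, hσ⟩ := (Nat.card_eq_two_iff' (1 : E ≃ₐ[k] E)).1 hcard
  have hres : ∀ g : L ≃ₐ[k] L, ¬ TrivOn E g → g.restrictNormal E = σ := by
    intro g hgE
    apply hσ
    intro h1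
    apply hgE
    intro x
    rw [← AlgEquiv.restrictNormal_commutes g E x, h1]
    rfl
  have hgσ : ∀ g : L ≃ₐ[k] L, ¬ TrivOn E g → ∀ y : E,
      g (algebraMap E L y) = algebraMap E L (σ y) := by
    intro g hgE y
    rw [← hres g hgE, AlgEquiv.restrictNormal_commutes]
  have huniv : (Finset.univ : Finset (E ≃ₐ[k] E)) = {1, σ} := by
    ext g
    simp only [Finset.mem_univ, Finset.mem_insert, Finset.mem_singleton, true_iff]
    by_cases h : g = 1
    · exact Or.inl h
    · exact Or.inr (hσ g h)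
  have hσσ : ∀ y, σ (σ y) = y := by
    intro y
    have h3 : σ * σ = 1 := by
      by_contra h4
      have h5 := hσ _ h4
      exact hσ1 (mul_eq_left.1 h5)
    exact DFunLike.congr_fun h3 y
  refine ⟨?_, ?_⟩
  · obtain ⟨e₀, he₀⟩ : ∃ e₀ : E, σ e₀ ≠ e₀ := by
      by_contra hcon
      push Not at hcon
      exact hσ1 (AlgEquiv.ext hcon)
    have hσs : σ (e₀ - σ e₀) = -(e₀ - σ e₀) := by
      rw [map_sub, hσσ]
      ring
    obtain ⟨a, ha⟩ := (IsGalois.mem_range_algebraMap_iff_fixed (F := k) ((e₀ - σ e₀) ^ 2)).2 (by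
      intro g
      by_cases h : g = 1
      · rw [h]
        rfl
      · rw [hσ g h, map_pow, hσs, neg_sq])
    refine ⟨e₀ - σ e₀, a, sub_ne_zero.2 he₀.symm, ha.symm, ?_⟩
    intro g hgE
    rw [hgσ g hgE, hσs, map_neg]
  · intro y
    rw [hgσ t ht y, IsScalarTower.algebraMap_apply k E L, Algebra.norm_eq_prod_automorphisms,
      huniv, Finset.prod_pair hσ1.symm, map_mul]
    rfl

end coc

end DLN

open DLN in
/-- **DL** -/
theorem dl : Pool.Agent.Q5.MZ.S_DL := by
  intro k E L _ _ _ _ _ _ _ _ _ _ _ c x b P ε h2 hrel hns hε m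
  classical
  have hidx := TSub_index (k := k) (E := E) (L := L) h2
  have hmem : ∀ {a b : L ≃ₐ[k] L}, TrivOn E (a * b) ↔ (TrivOn E a ↔ TrivOn E b) :=
    Subgroup.mul_mem_iff_of_index_two hidx
  obtain ⟨t₀, ht₀⟩ : ∃ t : L ≃ₐ[k] L, ¬ TrivOn E t := by
    by_contra hcon
    push Not at hcon
    have : TSub k E L = ⊤ := (Subgroup.eq_top_iff' _).2 hcon
    rw [this, Subgroup.index_top] at hidx
    omega
  obtain ⟨t, htP, htE⟩ := ex_dec hns (rfl : P.under (𝓞 k) = P.under (𝓞 k)) ht₀
  obtain ⟨τ, hτ, hτx⟩ := coc c x b P ε h2 hrel hε t htP htE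
  obtain ⟨⟨s, a, hs0, hsa, hs⟩, hnorm⟩ := quad h2 t htE
  set s' : L := algebraMap E L s with hs'
  have hs'0 : s' ≠ 0 := by
    rw [hs']
    exact (map_ne_zero_iff _ (algebraMap E L).injective).2 hs0
  have hs'a : s' ^ 2 = algebraMap k L a := by
    rw [hs', ← map_pow, hsa, ← IsScalarTower.algebraMap_apply]
  have hmul : ∀ {g h : L ≃ₐ[k] L}, act g P = P → act h P = P → act (g * h) P = P := by
    intro g h hg hh
    rw [Pool.Agent.TeamU.act_mul, hh, hg]
  have hinvP : ∀ {g : L ≃ₐ[k] L}, act g P = P → act g⁻¹ P = P := fun h => act_inv_iff.2 h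
  have htinv : ¬ TrivOn E t⁻¹ := fun h6 => htE (by
    have : TrivOn E (t⁻¹)⁻¹ := (TSub k E L).inv_mem h6
    rwa [inv_inv] at this)
  -- action of the decomposition group
  have hA : ∀ d : L ≃ₐ[k] L, act d P = P → TrivOn E d → d τ = τ ∧ d (t τ) = t τ ∧ d s' = s' := by
    intro d hd hdE
    refine ⟨hτ d hd hdE, ?_, hdE s⟩
    have h3 := hτ (t⁻¹ * d * t) (hmul (hmul (hinvP htP) hd) htP) (by
      rw [hmem, hmem]
      tauto)
    have h4 : d (t τ) = t ((t⁻¹ * d * t) τ) := by
      have h5 : d * t = t * (t⁻¹ * d * t) := by group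
      exact DFunLike.congr_fun h5 τ
    rw [h4, h3]
  have hB : ∀ d : L ≃ₐ[k] L, act d P = P → ¬ TrivOn E d → d τ = t τ ∧ d (t τ) = τ ∧ d s' = -s' := by
    intro d hd hdE
    refine ⟨?_, ?_, hs d hdE⟩
    · have h3 := hτ (t⁻¹ * d) (hmul (hinvP htP) hd) (by
        rw [hmem]
        tauto)
      have h4 : d τ = t ((t⁻¹ * d) τ) := by
        have h5 : d = t * (t⁻¹ * d) := by group
        exact DFunLike.congr_fun h5 τ
      rw [h4, h3]
    · exact hτ (d * t) (hmul hd htP) (by
        rw [hmem]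
        tauto)
  set p : L := (τ + t τ) / 2 with hp
  set q : L := (τ - t τ) / (2 * s') with hq
  have hpfix : ∀ g : L ≃ₐ[k] L, act g P = P → g p = p := by
    intro g hg
    by_cases hgE : TrivOn E g
    · obtain ⟨h3, h4, -⟩ := hA g hg hgE
      rw [hp, map_div₀, map_add, h3, h4, map_ofNat]
    · obtain ⟨h3, h4, -⟩ := hB g hg hgE
      rw [hp, map_div₀, map_add, h3, h4, map_ofNat, add_comm]
  have hqfix : ∀ g : L ≃ₐ[k] L, act g P = P → g q = q := by
    intro g hg
    by_cases hgE : TrivOn E g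
    · obtain ⟨h3, h4, h5⟩ := hA g hg hgE
      rw [hq, map_div₀, map_sub, map_mul, h3, h4, h5, map_ofNat]
    · obtain ⟨h3, h4, h5⟩ := hB g hg hgE
      rw [hq, map_div₀, map_sub, map_mul, h3, h4, h5, map_ofNat]
      field_simp
      ring
  have hxpq : algebraMap k L (x : k) = p ^ 2 - algebraMap k L a * q ^ 2 := by
    rw [← hτx, ← hs'a, hp, hq]
    field_simp
    ring
  -- precision
  obtain ⟨N, hN, hNv, hNm⟩ := ex_nat (P.under (𝓞 k)) m
  have hNP : (N : 𝓞 L) ∈ P.asIdeal := by
    have h3 : algebraMap (𝓞 k) (𝓞 L) (N : 𝓞 k) ∈ P.asIdeal := hNv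
    rwa [map_natCast] at h3
  have hN1 : P.valuation L (N : L) < 1 := val_nat_lt_one hNP
  set W := P.valuation L with hW
  set X : L := algebraMap k L (x : k) with hX
  have hX0 : X ≠ 0 := (map_ne_zero_iff _ (algebraMap k L).injective).2 x.ne_zero
  have hWX : W X ≠ 0 := (Valuation.ne_zero_iff _).2 hX0
  set A : L := algebraMap k L a with hA'
  set B := max (max (W p) (W q)) 1 * max (W A) 1 with hBdef
  have hB1 : 1 ≤ max (max (W p) (W q)) 1 := le_max_right _ _
  have hA1 : 1 ≤ max (W A) 1 := le_max_right _ _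
  have hB0 : B ≠ 0 := mul_ne_zero (zero_lt_one.trans_le hB1).ne' (zero_lt_one.trans_le hA1).ne'
  set r := min 1 (W (N : L) * W X / B) with hr
  have hr0 : r ≠ 0 := by
    have h3 : 0 < W (N : L) * W X / B :=
      zero_lt_iff.2 (div_ne_zero (mul_ne_zero (val_nat_ne_zero hN _) hWX) hB0)
    exact (lt_min zero_lt_one h3).ne'
  have hr1 : r ≤ 1 := min_le_left _ _
  have hrB : r * B ≤ W (N : L) * W X := by
    have h3 : r ≤ W (N : L) * W X / B := min_le_right _ _
    rwa [le_div_iff₀ (zero_lt_iff.2 hB0)] at h3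
  obtain ⟨p', hp'⟩ := dens (k := k) P p hpfix hr0
  obtain ⟨q', hq'⟩ := dens (k := k) P q hqfix hr0
  set y : E := algebraMap k E p' + algebraMap k E q' * s with hy
  have hny : algebraMap k L (Algebra.norm k y) =
      algebraMap k L p' ^ 2 - A * algebraMap k L q' ^ 2 := by
    rw [hnorm y]
    have h3 : algebraMap E L y = algebraMap k L p' + algebraMap k L q' * s' := by
      rw [hy, map_add, map_mul, ← IsScalarTower.algebraMap_apply, ← IsScalarTower.algebraMap_apply]
    rw [h3, map_add, map_mul, t.commutes, t.commutes, hs t htE, ← hs'a]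
    ring
  -- closeness of squares
  have hsqc : ∀ (u : L) (u' : k), W (algebraMap k L u' - u) ≤ r → W u ≤ max (W p) (W q) →
      W (algebraMap k L u' ^ 2 - u ^ 2) ≤ r * max (max (W p) (W q)) 1 := by
    intro u u' h3 h4
    have h5 : algebraMap k L u' ^ 2 - u ^ 2 = (algebraMap k L u' - u) * ((algebraMap k L u' - u) + 2 * u) := by
      ring
    rw [h5, map_mul]
    refine mul_le_mul' h3 ((Valuation.map_add _ _ _).trans (max_le ?_ ?_))
    · exact (h3.trans hr1).trans (le_max_right _ _)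
    · rw [map_mul]
      have h6 : W (2 : L) ≤ 1 := by
        have h8 : ∀ n : ℕ, P.valuation L (n : L) ≤ 1 := fun n => by
          simpa using P.valuation_le_one (K := L) (n : 𝓞 L)
        have h9 := h8 2
        rwa [Nat.cast_ofNat] at h9
      calc W 2 * W u ≤ 1 * W u := mul_le_mul' h6 le_rfl
        _ = W u := one_mul _
        _ ≤ _ := h4.trans (le_max_left _ _)
  have hclose : W (algebraMap k L (Algebra.norm k y) - X) ≤ W (N : L) * W X := by
    have h3 : algebraMap k L (Algebra.norm k y) - X =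
        (algebraMap k L p' ^ 2 - p ^ 2) - A * (algebraMap k L q' ^ 2 - q ^ 2) := by
      rw [hny, hxpq]
      ring
    rw [h3]
    refine le_trans (Valuation.map_sub _ _ _) (max_le ?_ ?_)
    · refine (hsqc p p' hp' (le_max_left _ _)).trans (le_trans ?_ hrB)
      rw [hBdef, ← mul_assoc]
      exact le_mul_of_one_le_right zero_le hA1
    · rw [map_mul]
      refine le_trans (mul_le_mul' (le_max_left (W A) 1) (hsqc q q' hq' (le_max_right _ _))) (le_trans ?_ hrB)
      rw [hBdef, mul_left_comm, mul_comm (max (W A) 1)]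
  have hnear : W (algebraMap k L (Algebra.norm k y) / X - 1) ≤ W (N : L) := by
    have h3 : algebraMap k L (Algebra.norm k y) / X - 1 =
        (algebraMap k L (Algebra.norm k y) - X) / X := by
      rw [sub_div, div_self hX0]
    rw [h3, map_div₀, div_le_iff₀ (zero_lt_iff.2 hWX)]
    exact hclose
  have hone := near_one W hN1 hnear
  have hy0 : y ≠ 0 := by
    rintro h
    rw [h, Algebra.norm_zero, map_zero, zero_div, map_zero] at hone
    exact zero_ne_one hone
  refine ⟨Units.mk0 y hy0, ?_⟩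
  have h9 := near_inv W hN1 hnear
  rw [inv_div] at h9
  have h10 : ((nu k E (Units.mk0 y hy0) : kˣ) : k) = Algebra.norm k y := rfl
  rw [h10]
  refine le_trans ?_ hNm
  rw [← Pool.Agent.Q38.EX.val_nat P N, map_div₀]
  exact h9

end Pool.Agent.H429.MZQ
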