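import Pool.Graph.R_pool_sql_team_seeded_3997aac3.Q5.MZ.Stm2

/-!
# Project MZQ (helper429): solution of embedding problems
-/

set_option autoImplicit false
set_option linter.unusedSectionVars false

namespace Pool.Agent.H429.MZQ

open NumberField IsDedekindDomain Module
open Pool.Agent.Q92.AR (prin)
open Pool.Agent.Q5.MZ

namespace EMN

/-! ### Characters of an elementary abelian group -/

/-- the isomorphism between the two groups of order two -/
def sgn (a : ZMod 2) : ℤˣ := if a = 0 then 1 else -1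

lemma sgn_add : ∀ a b : ZMod 2, sgn (a + b) = sgn a * sgn b := by decide

lemma sgn_zero : sgn 0 = 1 := by decide

lemma sgn_inj : ∀ a b : ZMod 2, sgn a = sgn b → a = b := by decide

lemma sgn_surj : ∀ u : ℤˣ, ∃ a : ZMod 2, sgn a = u := by decide

theorem comm2 {V : Type} [Group V] (h : ∀ x : V, x ^ 2 = 1) (a b : V) : a * b = b * a := by
  have hinv : ∀ x : V, x⁻¹ = x := by
    intro x
    have := h x
    rw [sq] at this
    exact inv_eq_of_mul_eq_one_left this
  calc a * b = (a * b)⁻¹ := (hinv _).symm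
    _ = b⁻¹ * a⁻¹ := mul_inv_rev a b
    _ = b * a := by rw [hinv, hinv]

theorem chars (V : Type) [Group V] [Finite V] (h : ∀ x : V, x ^ 2 = 1) :
    ∃ (r : ℕ) (Φ : V →* (Fin r → ℤˣ)), Function.Bijective Φ := by
  let _ : CommGroup V := { (inferInstance : Group V) with mul_comm := comm2 h }
  let _ : Module (ZMod 2) (Additive V) := AddCommGroup.zmodModule (n := 2) (fun x => by
    show Additive.ofMul ((Additive.toMul x) ^ 2) = 0
    rw [h]
    rfl)
  have _ : Module.Finite (ZMod 2) (Additive V) := Module.Finite.of_finite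
  let b := Module.finBasis (ZMod 2) (Additive V)
  let Φ : V →* (Fin (Module.finrank (ZMod 2) (Additive V)) → ℤˣ) :=
    { toFun := fun x i => sgn (b.equivFun (Additive.ofMul x) i)
      map_one' := by
        funext i
        have e : b.equivFun (Additive.ofMul (1 : V)) = 0 := by
          rw [ofMul_one, map_zero]
        show sgn (b.equivFun (Additive.ofMul (1 : V)) i) = 1
        rw [e]
        exact sgn_zero
      map_mul' := by
        intro x y
        funext i
        have e : b.equivFun (Additive.ofMul (x * y)) =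
            b.equivFun (Additive.ofMul x) + b.equivFun (Additive.ofMul y) := by
          rw [ofMul_mul, map_add]
        show sgn (b.equivFun (Additive.ofMul (x * y)) i) = _
        rw [e]
        exact sgn_add _ _ }
  refine ⟨_, Φ, ?_, ?_⟩
  · intro x y hxy
    have e : b.equivFun (Additive.ofMul x) = b.equivFun (Additive.ofMul y) := by
      funext i
      exact sgn_inj _ _ (congrFun hxy i)
    exact Additive.ofMul.injective (b.equivFun.injective e)
  · intro u
    choose a ha using fun i => sgn_surj (u i)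
    refine ⟨Additive.toMul (b.equivFun.symm a), ?_⟩
    funext i
    show sgn (b.equivFun (Additive.ofMul (Additive.toMul (b.equivFun.symm a))) i) = u i
    rw [ofMul_toMul, LinearEquiv.apply_symm_apply]
    exact ha i

/-! ### The cocycle of a group extension -/

section ext

variable {H X : Type} [Group H] [Group X] {Q : Type} [Group Q] (π : X →* Q) (ι : H →* Q)
  (s : H → X) (hs : ∀ h, π (s h) = ι h)

/-- the cocycle of the lift `s` -/
def zz (g h : H) : π.ker :=
  ⟨s g * s h * (s (g * h))⁻¹, by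
    rw [MonoidHom.mem_ker, map_mul, map_mul, map_inv, hs, hs, hs, map_mul]
    group⟩

lemma zz_spec (g h : H) : s g * s h = (zz π ι s hs g h : X) * s (g * h) := by
  show s g * s h = s g * s h * (s (g * h))⁻¹ * s (g * h)
  group

lemma zz_one (h1 : s 1 = 1) : zz π ι s hs 1 1 = 1 := by
  apply Subtype.ext
  show s 1 * s 1 * (s (1 * 1))⁻¹ = 1
  rw [mul_one, h1]
  group

lemma zz_coc (hc : ∀ (v : π.ker) (g : H), (v : X) * s g = s g * v) (g h j : H) :
    zz π ι s hs g h * zz π ι s hs (g * h) j = zz π ι s hs h j * zz π ι s hs g (h * j) := by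
  apply Subtype.ext
  have e1 : s g * s h * s j = (zz π ι s hs g h : X) * (zz π ι s hs (g * h) j : X) * s (g * h * j) := by
    calc s g * s h * s j = (zz π ι s hs g h : X) * s (g * h) * s j := by
          rw [zz_spec π ι s hs g h]
      _ = (zz π ι s hs g h : X) * (s (g * h) * s j) := mul_assoc _ _ _
      _ = (zz π ι s hs g h : X) * ((zz π ι s hs (g * h) j : X) * s (g * h * j)) := by
          rw [zz_spec π ι s hs (g * h) j]
      _ = _ := (mul_assoc _ _ _).symm
  have e2 : s g * s h * s j = (zz π ι s hs h j : X) * (zz π ι s hs g (h * j) : X) * s (g * h * j) := by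
    calc s g * s h * s j = s g * (s h * s j) := mul_assoc _ _ _
      _ = s g * ((zz π ι s hs h j : X) * s (h * j)) := by rw [zz_spec π ι s hs h j]
      _ = s g * (zz π ι s hs h j : X) * s (h * j) := (mul_assoc _ _ _).symm
      _ = (zz π ι s hs h j : X) * s g * s (h * j) := by rw [hc]
      _ = (zz π ι s hs h j : X) * (s g * s (h * j)) := mul_assoc _ _ _
      _ = (zz π ι s hs h j : X) * ((zz π ι s hs g (h * j) : X) * s (g * (h * j))) := by
          rw [zz_spec π ι s hs g (h * j)]
      _ = (zz π ι s hs h j : X) * (zz π ι s hs g (h * j) : X) * s (g * (h * j)) :=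
          (mul_assoc _ _ _).symm
      _ = _ := by rw [mul_assoc g h j]
  have e3 := e1.symm.trans e2
  exact mul_right_cancel e3

end ext

/-! ### Glueing -/

theorem glue (hGA : S_GA) {G X Q H : Type} [Group G] [Group X] [Group Q] [Group H] [Finite G] [Finite X]
    (π : X →* Q) (res : G →* Q) (ρ : H →* G) (hρ : Function.Injective ρ) (ψ0 : H →* X)
    (hψ : ∀ τ, π (ψ0 τ) = res (ρ τ)) (hsurj : Function.Surjective π) (h2 : ∀ x ∈ π.ker, x ^ 2 = 1)
    (hodd : Odd ρ.range.index) : ∃ ψ : G →* X, ∀ g, π (ψ g) = res g := by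
  set X' : Subgroup (X × G) :=
    MonoidHom.eqLocus (π.comp (MonoidHom.fst X G)) (res.comp (MonoidHom.snd X G)) with hX'
  have hmem : ∀ p : X × G, p ∈ X' ↔ π p.1 = res p.2 := fun p => Iff.rfl
  let π' : X' →* G := (MonoidHom.snd X G).comp X'.subtype
  have hπ' : ∀ p : X', π' p = (p : X × G).2 := fun p => rfl
  let e := MonoidHom.ofInjective hρ
  have he : ∀ h : ρ.range, ρ (e.symm h) = h := by
    intro h
    have h1 : ((e (e.symm h) : ρ.range) : G) = ρ (e.symm h) := rfl
    rw [← h1, MulEquiv.apply_symm_apply]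
  let s' : ρ.range →* X' :=
    MonoidHom.codRestrict ((ψ0.comp e.symm.toMonoidHom).prod ρ.range.subtype) X' (fun h => by
      rw [hmem]
      show π (ψ0 (e.symm h)) = res (h : G)
      rw [hψ, he])
  have h3 : ∀ p : X', p ∈ π'.ker → p ^ 2 = 1 := by
    intro p hp
    rw [MonoidHom.mem_ker, hπ'] at hp
    have h4 := (hmem p).1 p.2
    rw [hp, map_one] at h4
    apply Subtype.ext
    apply Prod.ext
    · exact h2 _ h4
    · show (p : X × G).2 ^ 2 = 1
      rw [hp, one_pow]
  have h5 : ∀ p ∈ π'.ker, ∀ q ∈ π'.ker, p * q = q * p := by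
    intro p hp q hq
    have h6 := comm2 (V := π'.ker) (fun x => Subtype.ext (h3 x.1 x.2)) ⟨p, hp⟩ ⟨q, hq⟩
    exact congrArg Subtype.val h6
  obtain ⟨t, ht⟩ := hGA G X' π' ρ.range s' (by
      intro g
      obtain ⟨x, hx⟩ := hsurj (res g)
      exact ⟨⟨(x, g), (hmem _).2 hx⟩, rfl⟩) h3 h5 hodd (fun h => rfl)
  refine ⟨(MonoidHom.fst X G).comp (X'.subtype.comp t), fun g => ?_⟩
  have h6 := (hmem (t g : X × G)).1 (t g).2
  have h7 : ((t g : X') : X × G).2 = g := ht g
  rw [h7] at h6
  exact h6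

/-! ### Square roots -/

section fields

variable {K E E' : Type} [Field K] [Field E] [Field E'] [CharZero E'] [Algebra K E] [Algebra K E']
  [Algebra E E'] [IsScalarTower K E E'] [Normal K E]

lemma eps_exists (τ : E' ≃ₐ[K] E') {y b : Eˣ} {s : E'} (hs : s ^ 2 = algebraMap E E' (y : E))
    (h : (τ.restrictNormal E) (y : E) = (y : E) * (b : E) ^ 2) :
    ∃ ε : ℤˣ, τ s = (((ε : ℤˣ) : ℤ) : E') * (algebraMap E E' (b : E) * s) := by
  have h1 : (τ s) ^ 2 = (algebraMap E E' (b : E) * s) ^ 2 := by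
    rw [← map_pow, hs, ← AlgEquiv.restrictNormal_commutes, h, map_mul, map_pow, mul_pow, hs]
    ring
  rcases sq_eq_sq_iff_eq_or_eq_neg.1 h1 with h2 | h2
  · exact ⟨1, by rw [h2]; simp⟩
  · exact ⟨-1, by rw [h2]; simp⟩

lemma units_inj {u v : ℤˣ} {x : E'} (hx : x ≠ 0)
    (h : (((u : ℤˣ) : ℤ) : E') * x = (((v : ℤˣ) : ℤ) : E') * x) : u = v := by
  have h1 := mul_right_cancel₀ hx h
  have h2 : ((u : ℤˣ) : ℤ) = ((v : ℤˣ) : ℤ) := by exact_mod_cast h1
  exact Units.ext h2

end fields

end EMN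

open EMN in
theorem em : J_EM := by
  intro hBE hGM hKU hGA K E _ _ _ _ _ _ _ X _ _ π hodd hOD hOC hTP hTU hsurj hker2 hcent hcc
  classical
  have _ : IsGalois K E := IsGalois.tower_top_of_isGalois ℚ K E
  let ι : (E ≃ₐ[K] E) →* (E ≃ₐ[ℚ] E) := AlgEquiv.restrictScalarsHom ℚ
  have hι : ∀ (g : E ≃ₐ[K] E) (x : E), ι g x = g x := fun g x => rfl
  obtain ⟨r, Φ, hΦ⟩ := chars π.ker (fun x => Subtype.ext (hker2 x.1 x.2))
  -- a lift
  have hlift : ∀ g : E ≃ₐ[K] E, ∃ x : X, π x = ι g := fun g => hsurj _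
  choose s1 hs1 using hlift
  let s : (E ≃ₐ[K] E) → X := fun g => if g = 1 then 1 else s1 g
  have hs_one : s 1 = 1 := if_pos rfl
  have hs : ∀ g, π (s g) = ι g := by
    intro g
    by_cases h : g = 1
    · rw [h, hs_one, map_one, map_one]
    · have e : s g = s1 g := if_neg h
      rw [e]
      exact hs1 g
  have hfix : ∀ (x : X) (g : E ≃ₐ[K] E), π x = ι g → ∀ a : K, π x (algebraMap K E a) = algebraMap K E a := by
    intro x g h a
    rw [h, hι]
    exact g.commutes a
  have hc : ∀ (v : π.ker) (g : E ≃ₐ[K] E), (v : X) * s g = s g * v := fun v g =>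
    hcent v.1 v.2 _ (hfix _ g (hs g))
  let z := zz π ι s hs
  let c : Fin r → (E ≃ₐ[K] E) → (E ≃ₐ[K] E) → ℤˣ := fun i g h => Φ (z g h) i
  have hcoc : ∀ i, Coc (c i) := by
    intro i
    refine ⟨?_, ?_⟩
    · show Φ (z 1 1) i = 1
      have e : z 1 1 = 1 := zz_one π ι s hs hs_one
      rw [e, map_one]
      rfl
    · intro g h j
      show Φ (z g h) i * Φ (z (g * h) j) i = Φ (z h j) i * Φ (z g (h * j)) i
      have e : z g h * z (g * h) j = z h j * z g (h * j) := zz_coc π ι s hs hc g h j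
      have e2 := congrFun (congrArg Φ e) i
      rw [map_mul, map_mul] at e2
      exact e2
  have hreal : ∀ i, RealTriv (c i) := by
    intro i σ hσ
    obtain ⟨φ, hφ⟩ := hσ
    have hσ2 : σ * σ = 1 := by
      apply AlgEquiv.ext
      intro x
      apply φ.injective
      show φ (σ (σ x)) = φ x
      rw [hφ, hφ, Complex.conj_conj]
    obtain ⟨x, hx1, hx2⟩ := hcc (ι σ) ⟨φ, hφ⟩
    have hz : z σ σ = 1 := by
      apply Subtype.ext
      show s σ * s σ * (s (σ * σ))⁻¹ = 1
      rw [hσ2, hs_one, inv_one, mul_one]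
      have hv : x⁻¹ * s σ ∈ π.ker := by
        rw [MonoidHom.mem_ker, map_mul, map_inv, hx1, hs]
        group
      have hv2 := hker2 _ hv
      have hvx := hcent _ hv x (hfix x σ hx1)
      set v := x⁻¹ * s σ with hvd
      have hsv : s σ = x * v := by
        rw [hvd]
        group
      rw [hsv]
      calc x * v * (x * v) = x * (v * x) * v := by simp only [mul_assoc]
        _ = x * (x * v) * v := by rw [hvx]
        _ = x ^ 2 * v ^ 2 := by simp only [sq, mul_assoc]
        _ = 1 := by rw [hx2, hv2, one_mul]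
    show Φ (z σ σ) i = 1
    rw [hz, map_one]
    rfl
  have hsplit : ∀ i, SplitsIn (c i) := fun i => hBE K E (c i) hTP hOD hTU (hcoc i) (hreal i)
  choose b y hb hy hyev using fun i => hGM K E (c i) hOC hTU (hsplit i)
  obtain ⟨E', i1, i2, i3, i4, i5, hG', hTP', hTU', hsq⟩ := hKU K E (Finset.univ.image y) hTP hTU (by
    intro t ht w hw
    obtain ⟨i, -, rfl⟩ := Finset.mem_image.1 ht
    exact hyev i w hw)
  choose sq hsq' using fun i => hsq (y i) (Finset.mem_image_of_mem _ (Finset.mem_univ i))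
  have _ : IsGalois ℚ E' := hG'
  have _ : IsGalois K E' := IsGalois.tower_top_of_isGalois ℚ K E'
  let g : (E' ≃ₐ[K] E') →* (E ≃ₐ[K] E) := AlgEquiv.restrictNormalHom E
  have hg : ∀ (τ : E' ≃ₐ[K] E') (x : E), algebraMap E E' (g τ x) = τ (algebraMap E E' x) :=
    fun τ x => AlgEquiv.restrictNormal_commutes τ E x
  have hεe : ∀ i (τ : E' ≃ₐ[K] E'), ∃ ε : ℤˣ,
      τ (sq i) = (((ε : ℤˣ) : ℤ) : E') * (algebraMap E E' (b i (g τ) : E) * sq i) :=
    fun i τ => eps_exists τ (hsq' i) (hy i (g τ))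
  choose ε hε using hεe
  have hinj : Function.Injective (algebraMap E E') := (algebraMap E E').injective
  have hsq0 : ∀ i, sq i ≠ 0 := by
    intro i h0
    have h1 := hsq' i
    rw [h0, zero_pow two_ne_zero] at h1
    have h2 : (y i : E) = 0 := hinj (by rw [← h1, map_zero])
    exact (y i).ne_zero h2
  have hmul : ∀ i (τ τ' : E' ≃ₐ[K] E'), ε i (τ * τ') = ε i τ * ε i τ' * c i (g τ) (g τ') := by
    intro i τ τ'
    have hx0 : algebraMap E E' (b i (g (τ * τ')) : E) * sq i ≠ 0 := by
      apply mul_ne_zero _ (hsq0 i)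
      intro h0
      exact (b i (g (τ * τ'))).ne_zero (hinj (by rw [h0, map_zero]))
    apply units_inj hx0
    rw [← hε i (τ * τ')]
    have h1 : (τ * τ') (sq i) = τ (τ' (sq i)) := rfl
    rw [h1, hε i τ', map_mul, map_mul, map_intCast, ← hg, hε i τ, map_mul g]
    have h2 := congrArg (algebraMap E E') (hb i (g τ) (g τ'))
    rw [map_mul, map_mul, map_intCast] at h2
    push_cast
    linear_combination ((((ε i τ : ℤˣ) : ℤ) : E') * (((ε i τ' : ℤˣ) : ℤ) : E') * sq i) * h2
  choose v hv using fun τ => hΦ.2 (fun i => ε i τ)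
  have hvmul : ∀ τ τ' : E' ≃ₐ[K] E', v (τ * τ') = v τ * v τ' * z (g τ) (g τ') := by
    intro τ τ'
    apply hΦ.1
    rw [hv, map_mul, map_mul, hv, hv]
    funext i
    exact hmul i τ τ'
  let ψ0 : (E' ≃ₐ[K] E') →* X := MonoidHom.mk' (fun τ => (v τ : X) * s (g τ)) (by
    intro τ τ'
    have h1 : (v τ : X) * s (g τ) * ((v τ' : X) * s (g τ')) =
        (v τ : X) * (v τ' : X) * ((z (g τ) (g τ') : X) * s (g τ * g τ')) := by
      calc (v τ : X) * s (g τ) * ((v τ' : X) * s (g τ'))
          = (v τ : X) * (s (g τ) * (v τ' : X)) * s (g τ') := by simp only [mul_assoc]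
        _ = (v τ : X) * ((v τ' : X) * s (g τ)) * s (g τ') := by rw [hc]
        _ = (v τ : X) * (v τ' : X) * (s (g τ) * s (g τ')) := by simp only [mul_assoc]
        _ = _ := by rw [zz_spec π ι s hs (g τ) (g τ')]
    show (v (τ * τ') : X) * s (g (τ * τ')) = _
    rw [h1, hvmul, map_mul g]
    show (v τ : X) * (v τ' : X) * (z (g τ) (g τ') : X) * s (g τ * g τ') = _
    simp only [mul_assoc])
  have hψ0 : ∀ τ, ψ0 τ = (v τ : X) * s (g τ) := fun τ => rfl
  let ρ : (E' ≃ₐ[K] E') →* (E' ≃ₐ[ℚ] E') := AlgEquiv.restrictScalarsHom ℚ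
  have hρ : Function.Injective ρ := by
    intro τ τ' h
    apply AlgEquiv.ext
    intro x
    exact congrArg (fun f : E' ≃ₐ[ℚ] E' => f x) h
  let res : (E' ≃ₐ[ℚ] E') →* (E ≃ₐ[ℚ] E) := AlgEquiv.restrictNormalHom E
  have hcomp : ∀ τ, π (ψ0 τ) = res (ρ τ) := by
    intro τ
    have h1 : π (v τ : X) = 1 := (v τ).2
    rw [hψ0, map_mul, h1, one_mul, hs]
    apply AlgEquiv.ext
    intro x
    apply hinj
    rw [hι, hg]
    exact (AlgEquiv.restrictNormal_commutes (ρ τ) E x).symm
  have hidx : Odd ρ.range.index := by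
    have h1 := ρ.range.card_mul_index
    have h2 : Nat.card ρ.range = Nat.card (E' ≃ₐ[K] E') :=
      Nat.card_congr (MonoidHom.ofInjective hρ).toEquiv.symm
    rw [h2, IsGalois.card_aut_eq_finrank K E', IsGalois.card_aut_eq_finrank ℚ E',
      ← Module.finrank_mul_finrank ℚ K E', mul_comm] at h1
    have h3 : 0 < Module.finrank K E' := Module.finrank_pos
    have h4 := Nat.eq_of_mul_eq_mul_right h3 h1
    rw [h4]
    exact hodd
  obtain ⟨ψ, hψ⟩ := glue hGA π res ρ hρ ψ0 hcomp hsurj hker2 hidx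
  exact ⟨E', i1, i2, i3, i4, i5, hG', hTP', hTU', ψ, hψ⟩

end Pool.Agent.H429.MZQ
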