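import Pool.Graph.R_pool_sql_team_seeded_3997aac3.Q5.MZ.Stm3

/-!
# MZQ: the discriminant of the septic field `N`
-/

set_option autoImplicit false

namespace Pool.Agent.H429.MZQ

open NumberField Module
open Pool.Agent.Q5.MZ

namespace FDN

/-- the power sums -/
def tv : ℕ → ℤ
  | 0 => 7
  | 1 => 0
  | 2 => 16
  | 3 => 6
  | 4 => 64
  | 5 => 50
  | 6 => 304
  | 7 => 350
  | 8 => 1568
  | 9 => 2292
  | 10 => 8476
  | 11 => 14476
  | 12 => 47128
  | _ => 0

/-- coordinates of `θ ^ m` -/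
def rv : ℕ → List ℚ
  | 0 => [1, 0, 0, 0, 0, 0, 0]
  | 1 => [0, 1, 0, 0, 0, 0, 0]
  | 2 => [0, 0, 1, 0, 0, 0, 0]
  | 3 => [0, 0, 0, 1, 0, 0, 0]
  | 4 => [0, 0, 0, 0, 1, 0, 0]
  | 5 => [0, 0, 0, 0, 0, 1, 0]
  | 6 => [0, 0, 0, 0, 0, 0, 1]
  | 7 => [2, 6, -6, -16, 2, 8, 0]
  | 8 => [0, 2, 6, -6, -16, 2, 8]
  | 9 => [16, 48, -46, -122, 10, 48, 2]
  | 10 => [4, 28, 36, -78, -118, 26, 48]
  | 11 => [96, 292, -260, -732, 18, 266, 26]
  | 12 => [52, 252, 136, -676, -680, 226, 266]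
  | _ => []

/-- the matrix of the traces -/
def TT : Matrix (Fin 7) (Fin 7) ℚ := Matrix.of fun i j => (tv (i + j) : ℚ)

def UU : Matrix (Fin 7) (Fin 7) ℚ :=
  !![1, 0, -16/7, 182/705, 292/89, -1/6, -25/7;
    0, 1, -3/8, -897/235, 158/89, 89/12, -15/14;
    0, 0, 1, -344/705, -459/89, 17/8, 93/7;
    0, 0, 0, 1, -66/89, -25/4, 29/14;
    0, 0, 0, 0, 1, -17/24, -52/7;
    0, 0, 0, 0, 0, 1, -4/7;
    0, 0, 0, 0, 0, 0, 1]

def LL : Matrix (Fin 7) (Fin 7) ℚ :=
  !![7, 0, 0, 0, 0, 0, 0;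
    0, 16, 0, 0, 0, 0, 0;
    16, 6, 705/28, 0, 0, 0, 0;
    6, 64, 86/7, 25988/705, 0, 0, 0;
    64, 50, 3891/28, 6424/235, 3504/89, 0, 0;
    50, 304, 852/7, 58692/235, 2482/89, 511/12, 0;
    304, 350, 20773/28, 189946/705, 27448/89, 73/3, 73/7]

lemma TU : TT * UU = LL := by
  decide +kernel

lemma UU_low : ∀ i j : Fin 7, j < i → UU i j = 0 := by
  intro i j h
  fin_cases i <;> fin_cases j <;> first | rfl | exact absurd h (by decide)

lemma LL_up : ∀ i j : Fin 7, i < j → LL i j = 0 := by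
  intro i j h
  fin_cases i <;> fin_cases j <;> first | rfl | exact absurd h (by decide)

lemma det_UU : UU.det = 1 := by
  rw [Matrix.det_of_isUpperTriangular (M := UU) (fun i j h => UU_low i j h)]
  decide +kernel

lemma det_LL : LL.det = 1817487424 := by
  rw [Matrix.det_of_isLowerTriangular LL (fun i j h => LL_up i j h)]
  decide +kernel

lemma det_TT : TT.det = 1817487424 := by
  have h := congrArg Matrix.det TU
  rw [Matrix.det_mul, det_UU, mul_one, det_LL] at h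
  exact h

section
open Polynomial

/-- the septic polynomial -/
noncomputable def fZ : ℤ[X] :=
  X ^ 7 - 8 * X ^ 5 - 2 * X ^ 4 + 16 * X ^ 3 + 6 * X ^ 2 - 6 * X - 2

lemma fZ_monic : fZ.Monic := by
  unfold fZ
  monicity!

lemma fZ_deg : fZ.natDegree = 7 := by
  unfold fZ
  compute_degree!

lemma fZ_coeff (n : ℕ) (hn : n < 7) : fZ.coeff n = [-2, -6, 6, 16, -2, -8, 0].getD n 0 := by
  have e : fZ = X ^ 7 - C 8 * X ^ 5 - C 2 * X ^ 4 + C 16 * X ^ 3 + C 6 * X ^ 2 - C 6 * X - C 2 := by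
    unfold fZ
    simp
  rw [e]
  interval_cases n <;> simp [coeff_X_pow, coeff_X]

lemma fZ_irr : Irreducible fZ := by
  have h : fZ.IsEisensteinAt (Ideal.span {(2 : ℤ)}) := by
    refine ⟨?_, ?_, ?_⟩
    · rw [fZ_monic.leadingCoeff, Ideal.mem_span_singleton]
      decide
    · intro n hn
      rw [fZ_deg] at hn
      rw [fZ_coeff n hn, Ideal.mem_span_singleton]
      interval_cases n <;> simp
    · rw [fZ_coeff 0 (by norm_num), Ideal.span_singleton_pow, Ideal.mem_span_singleton]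
      simp
  refine h.irreducible ?_ fZ_monic.isPrimitive (by rw [fZ_deg]; norm_num)
  rw [Ideal.span_singleton_prime (by norm_num)]
  exact Int.prime_two

lemma minpoly_eq {N : Type} [Field N] [NumberField N] {θ : N} (hθ : RootN θ) :
    minpoly ℚ θ = fZ.map (algebraMap ℤ ℚ) := by
  symm
  refine minpoly.eq_of_irreducible_of_monic ?_ ?_ (fZ_monic.map _)
  · exact (fZ_monic.irreducible_iff_irreducible_map_fraction_map (K := ℚ)).1 fZ_irr
  · rw [aeval_map_algebraMap]
    unfold fZ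
    unfold RootN at hθ
    simp only [map_add, map_sub, map_mul, map_pow, aeval_X, map_ofNat]
    exact hθ

lemma li {N : Type} [Field N] [NumberField N] {θ : N} (hθ : RootN θ) :
    LinearIndependent ℚ (fun i : Fin 7 => θ ^ (i : ℕ)) := by
  have h := linearIndependent_pow (K := ℚ) θ
  have e : (minpoly ℚ θ).natDegree = 7 := by
    rw [minpoly_eq hθ, fZ_monic.natDegree_map, fZ_deg]
  rw [e] at h
  exact h

end

section
variable {N : Type} [Field N] [NumberField N]

/-- the power basis -/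
noncomputable def BB {θ : N} (hd : finrank ℚ N = 7) (hθ : RootN θ) : Basis (Fin 7) ℚ N :=
  basisOfLinearIndependentOfCardEqFinrank (li hθ) (by rw [hd, Fintype.card_fin])

lemma BB_apply {θ : N} (hd : finrank ℚ N = 7) (hθ : RootN θ) (i : Fin 7) :
    BB hd hθ i = θ ^ (i : ℕ) := by
  unfold BB
  rw [coe_basisOfLinearIndependentOfCardEqFinrank]

lemma pow_eq {θ : N} (hθ : RootN θ) (m : ℕ) (hm : m < 13) :
    θ ^ m = ∑ i : Fin 7, ((rv m).getD (i : ℕ) 0 : ℚ) • θ ^ (i : ℕ) := by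
  unfold RootN at hθ
  have h7 : θ ^ 7 = 2 + 6 * θ - 6 * θ ^ 2 - 16 * θ ^ 3 + 2 * θ ^ 4 + 8 * θ ^ 5 := by
    linear_combination hθ
  have h8 : θ ^ 8 = 2 * θ + 6 * θ ^ 2 - 6 * θ ^ 3 - 16 * θ ^ 4 + 2 * θ ^ 5 + 8 * θ ^ 6 := by
    linear_combination θ * h7
  have h9 : θ ^ 9 = 16 + 48 * θ - 46 * θ ^ 2 - 122 * θ ^ 3 + 10 * θ ^ 4 + 48 * θ ^ 5 + 2 * θ ^ 6 := by
    linear_combination θ * h8 + 8 * h7
  have h10 : θ ^ 10 = 4 + 28 * θ + 36 * θ ^ 2 - 78 * θ ^ 3 - 118 * θ ^ 4 + 26 * θ ^ 5 +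
      48 * θ ^ 6 := by
    linear_combination θ * h9 + 2 * h7
  have h11 : θ ^ 11 = 96 + 292 * θ - 260 * θ ^ 2 - 732 * θ ^ 3 + 18 * θ ^ 4 + 266 * θ ^ 5 +
      26 * θ ^ 6 := by
    linear_combination θ * h10 + 48 * h7
  have h12 : θ ^ 12 = 52 + 252 * θ + 136 * θ ^ 2 - 676 * θ ^ 3 - 680 * θ ^ 4 + 226 * θ ^ 5 +
      266 * θ ^ 6 := by
    linear_combination θ * h11 + 26 * h7
  rw [Fin.sum_univ_seven]
  simp only [Algebra.smul_def]
  interval_cases m
  all_goals simp [rv]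
  · linear_combination h7
  · linear_combination h8
  · linear_combination h9
  · linear_combination h10
  · linear_combination h11
  · linear_combination h12

lemma trace_pow {θ : N} (hd : finrank ℚ N = 7) (hθ : RootN θ) (k : ℕ) (hk : k < 13) :
    Algebra.trace ℚ N (θ ^ k) = (tv k : ℚ) := by
  have low : ∀ k : ℕ, k < 7 → Algebra.trace ℚ N (θ ^ k) = (tv k : ℚ) := by
    intro k hk
    rw [Algebra.trace_eq_matrix_trace (BB hd hθ), Matrix.trace]
    have e : ∀ i : Fin 7, (Algebra.leftMulMatrix (BB hd hθ) (θ ^ k)).diag i =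
        (rv (k + i)).getD (i : ℕ) 0 := by
      intro i
      rw [Matrix.diag_apply, Algebra.leftMulMatrix_eq_repr_mul, BB_apply, ← pow_add,
        pow_eq hθ (k + i) (by omega)]
      have := (BB hd hθ).repr_sum_self (fun j : Fin 7 => (rv (k + i)).getD (j : ℕ) 0)
      simp only [BB_apply] at this
      exact congrFun this i
    rw [Finset.sum_congr rfl fun i _ => e i, Fin.sum_univ_seven]
    interval_cases k <;> simp [rv, tv] <;> norm_num
  rcases lt_or_ge k 7 with h | h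
  · exact low k h
  · rw [pow_eq hθ k hk, map_sum]
    simp only [map_smul, smul_eq_mul]
    rw [Finset.sum_congr rfl fun i _ => by rw [low i i.2], Fin.sum_univ_seven]
    interval_cases k <;> simp [rv, tv] <;> norm_num

end

end FDN

theorem fd : S_FD := by
  intro N _ _ θ hd hθ
  have hint : IsIntegral ℤ θ := by
    refine ⟨FDN.fZ, FDN.fZ_monic, ?_⟩
    rw [← Polynomial.aeval_def]
    unfold FDN.fZ
    have h := hθ
    unfold RootN at h
    simp only [map_add, map_sub, map_mul, map_pow, Polynomial.aeval_X, map_ofNat]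
    exact h
  set t : 𝓞 N := ⟨θ, hint⟩ with ht
  have hcard : Fintype.card (Free.ChooseBasisIndex ℤ (𝓞 N)) = Fintype.card (Fin 7) := by
    rw [← finrank_eq_card_chooseBasisIndex, RingOfIntegers.rank, hd, Fintype.card_fin]
  set e := Fintype.equivOfCardEq hcard
  set b : Basis (Fin 7) ℤ (𝓞 N) := (RingOfIntegers.basis N).reindex e with hb
  set v : Fin 7 → 𝓞 N := fun i => t ^ (i : ℕ) with hv
  have h1 := Algebra.discr_of_matrix_vecMul (A := ℤ) (⇑b) (b.toMatrix v)
  rw [b.toMatrix_map_vecMul v, NumberField.discr_eq_discr N b] at h1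
  have h2 : Algebra.discr ℤ v = 1817487424 := by
    have h3 : ((Algebra.discr ℤ v : ℤ) : ℚ) = 1817487424 := by
      have h6 : ((Int.castRingHom ℚ) (Algebra.traceMatrix ℤ v).det : ℚ) = FDN.TT.det := by
        rw [RingHom.map_det]
        congr 1
        ext i j
        rw [RingHom.mapMatrix_apply, Matrix.map_apply, Algebra.traceMatrix_apply,
          Algebra.traceForm_apply]
        show ((Algebra.trace ℤ (𝓞 N) (v i * v j) : ℤ) : ℚ) = (FDN.tv (i + j) : ℚ)
        rw [Algebra.coe_trace_int]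
        have e1 : ((v i * v j : 𝓞 N) : N) = θ ^ ((i : ℕ) + j) := by
          have e2 : (algebraMap (𝓞 N) N) t = θ := rfl
          show (algebraMap (𝓞 N) N) (t ^ (i : ℕ) * t ^ (j : ℕ)) = _
          rw [map_mul, map_pow, map_pow, e2, pow_add]
        rw [e1, FDN.trace_pow hd hθ _ (by omega)]
      rw [Algebra.discr_def, ← FDN.det_TT, ← h6]
      rfl
    exact_mod_cast h3
  rw [h2] at h1
  set P := (b.toMatrix v).det
  have hP : P ≠ 0 := by
    intro h0
    rw [h0] at h1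
    norm_num at h1
  have h4 : (1 : ℤ) ≤ P ^ 2 := by
    have : 0 < P ^ 2 := by positivity
    omega
  have h5 : |P ^ 2 * discr N| = 1817487424 := by
    rw [← h1]
    norm_num
  rw [abs_mul, abs_of_nonneg (by positivity)] at h5
  nlinarith [abs_nonneg (discr N)]

end Pool.Agent.H429.MZQ
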