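import Pool.Agent.H429.MZQ.StmG
import Pool.Graph.R_seed8.W505.MZ.ExB

/-!
# Project MZQ (helper429): `J_FINBQ`

A prime of `R/p` at which the universal representation has finite image is the maximal ideal, proved by helper790.
-/

set_option autoImplicit false
set_option linter.unusedSectionVars false

namespace Pool.Agent.H429.MZQ

namespace FINBQN

open IsLocalRing

/-! ### Traces of matrices of finite order -/

/-- the trace of a matrix of finite order over a subring of an algebraically closed field is integral over `ℤ` -/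
theorem tr_int0 {D Ω : Type} [CommRing D] [Field Ω] [IsAlgClosed Ω] (f : D →+* Ω) (hf : Function.Injective f)
    {n : ℕ} (M : Matrix (Fin n) (Fin n) D) (m : ℕ) (hm : 0 < m) (h : M ^ m = 1) : IsIntegral ℤ M.trace := by
  have hN : (f.mapMatrix M) ^ m = 1 := by rw [← map_pow, h, map_one]
  have ht : f M.trace = (f.mapMatrix M).trace := by
    simp [Matrix.trace, map_sum]
  have hint : IsIntegral ℤ (f M.trace) := by
    rw [ht, Matrix.trace_eq_sum_roots_charpoly]
    refine IsIntegral.multiset_sum ?_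
    intro μ hμ
    have h1 : μ ∈ spectrum Ω (f.mapMatrix M) :=
      Matrix.mem_spectrum_of_isRoot_charpoly (Polynomial.isRoot_of_mem_roots hμ)
    have h2 : μ ^ m ∈ spectrum Ω ((f.mapMatrix M) ^ m) := spectrum.pow_mem_pow _ m h1
    rw [hN] at h2
    have h3 : μ ^ m = 1 := by
      by_contra hne
      refine h2 ?_
      rw [spectrum.mem_resolventSet_iff]
      have h4 : algebraMap Ω (Matrix (Fin n) (Fin n) Ω) (μ ^ m) - 1 =
          algebraMap Ω (Matrix (Fin n) (Fin n) Ω) (μ ^ m - 1) := by rw [map_sub, map_one]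
      rw [h4]
      exact (IsUnit.mk0 _ (sub_ne_zero.mpr hne)).map _
    exact IsIntegral.of_pow hm (h3 ▸ isIntegral_one)
  exact (isIntegral_algHom_iff f.toIntAlgHom hf).mp hint

/-- the trace of a matrix of finite order over a domain is integral over `ℤ` -/
theorem tr_int {D : Type} [CommRing D] [IsDomain D] {n : ℕ} (M : Matrix (Fin n) (Fin n) D) (m : ℕ) (hm : 0 < m)
    (h : M ^ m = 1) : IsIntegral ℤ M.trace :=
  tr_int0 ((algebraMap (FractionRing D) (AlgebraicClosure (FractionRing D))).comp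
      (algebraMap D (FractionRing D)))
    ((algebraMap (FractionRing D) (AlgebraicClosure (FractionRing D))).injective.comp
      (IsFractionRing.injective D (FractionRing D))) M m hm h

/-- finitely many integral elements of a domain of characteristic `p` are fixed by a power of Frobenius -/
theorem exp_fix {D : Type} [CommRing D] [IsDomain D] (p : ℕ) (hp : p.Prime) (hD : (p : D) = 0) (T : Set D)
    (hT : T.Finite) (hi : ∀ t ∈ T, IsIntegral ℤ t) : ∃ e : ℕ, 0 < e ∧ ∀ r : ℕ, ∀ t ∈ T, t ^ ((p ^ e) ^ r) = t := by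
  let B := Algebra.adjoin ℤ T
  have : Module.Finite ℤ B := Algebra.finite_adjoin_of_finite_of_isIntegral hT hi
  have : Finite B := by
    refine Module.finite_of_fg_torsion B ?_
    intro x
    refine ⟨⟨(p : ℤ), mem_nonZeroDivisors_of_ne_zero (by exact_mod_cast hp.ne_zero)⟩, ?_⟩
    apply Subtype.ext
    change (((p : ℤ) • x : B) : D) = 0
    rw [zsmul_eq_mul]
    push_cast
    rw [hD, zero_mul]
  have : Fintype B := Fintype.ofFinite B
  let _ : Field B := (Finite.isField_of_domain B).toField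
  have : CharP B p := by
    refine (CharP.charP_iff_prime_eq_zero hp).mpr ?_
    apply Subtype.ext
    push_cast
    exact hD
  have := Fact.mk hp
  obtain ⟨e, -, he⟩ := FiniteField.card B p
  refine ⟨e, e.pos, fun r t ht => ?_⟩
  have h1 := FiniteField.pow_card_pow (K := B) r ⟨t, Algebra.subset_adjoin ht⟩
  rw [he] at h1
  exact congrArg Subtype.val h1

/-! ### Quotients in the category of coefficient rings -/

section Quo

variable {p : ℕ} [Fact p.Prime] {k : Type} [Field k] [CharP k p]

/-- the kernel of the reduction is the maximal ideal -/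
theorem mem_max (R : MZ.CNL p k) (x : R.A) : x ∈ maximalIdeal R.A ↔ R.res x = 0 := by
  have h1 : RingHom.ker R.res = maximalIdeal R.A :=
    IsLocalRing.eq_maximalIdeal (RingHom.ker_isMaximal_of_surjective R.res R.res_surj)
  rw [← h1, RingHom.mem_ker]

/-- the quotient of a coefficient ring -/
noncomputable def quo (R : MZ.CNL p k) (P : Ideal R.A) (hP : P ≠ ⊤) : MZ.CNL p k :=
  have hle : P ≤ maximalIdeal R.A := IsLocalRing.le_maximalIdeal hP
  { A := R.A ⧸ P
    isLocal := (Pool.Agent.W505.MZ.ExB.main R.A P hP).choose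
    complete := (Pool.Agent.W505.MZ.ExB.main R.A P hP).choose_spec.1
    res := Ideal.Quotient.lift P R.res fun a ha => (mem_max R a).mp (hle ha)
    res_surj := by
      intro z
      obtain ⟨x, hx⟩ := R.res_surj z
      exact ⟨Ideal.Quotient.mk P x, by rw [Ideal.Quotient.lift_mk, hx]⟩
    res_coeff := by
      intro x
      have h1 : algebraMap (WittVector p k) (R.A ⧸ P) x =
        Ideal.Quotient.mk P (algebraMap (WittVector p k) R.A x) := rfl
      rw [h1, Ideal.Quotient.lift_mk, R.res_coeff] }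

/-- the projection -/
noncomputable def pr (R : MZ.CNL p k) (P : Ideal R.A) (hP : P ≠ ⊤) :
    R.A →ₐ[WittVector p k] (quo R P hP).A :=
  Ideal.Quotient.mkₐ (WittVector p k) P

theorem pr_surj (R : MZ.CNL p k) (P : Ideal R.A) (hP : P ≠ ⊤) : Function.Surjective (pr R P hP) :=
  Ideal.Quotient.mk_surjective

theorem pr_eq_zero (R : MZ.CNL p k) (P : Ideal R.A) (hP : P ≠ ⊤) (x : R.A) : pr R P hP x = 0 ↔ x ∈ P :=
  Ideal.Quotient.eq_zero_iff_mem

theorem res_pr (R : MZ.CNL p k) (P : Ideal R.A) (hP : P ≠ ⊤) (x : R.A) : (quo R P hP).res (pr R P hP x) = R.res x :=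
  rfl

theorem pr_mem (R : MZ.CNL p k) (P : Ideal R.A) (hP : P ≠ ⊤) (j : ℕ) (x : R.A) (hx : x ∈ maximalIdeal R.A ^ j) :
    pr R P hP x ∈ maximalIdeal (quo R P hP).A ^ j := by
  have h1 : (maximalIdeal R.A ^ j).map (pr R P hP) ≤ maximalIdeal (quo R P hP).A ^ j := by
    rw [Ideal.map_pow]
    refine Ideal.pow_right_mono ?_ j
    rw [Ideal.map_le_iff_le_comap]
    intro y hy
    rw [Ideal.mem_comap, mem_max, res_pr]
    exact (mem_max R y).mp hy
  exact h1 (Ideal.mem_map_of_mem _ hx)

/-- pushing a lift forward -/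
theorem lift_pr {G : Type} [Group G] [TopologicalSpace G] [IsTopologicalGroup G] {n : ℕ}
    {ρbar : G →* GL (Fin n) k} (R : MZ.CNL p k) (ρ : G →* GL (Fin n) R.A) (h : MZ.IsLift ρbar R ρ)
    (P : Ideal R.A) (hP : P ≠ ⊤) :
    MZ.IsLift ρbar (quo R P hP)
      ((Matrix.GeneralLinearGroup.map (pr R P hP : R.A →+* (quo R P hP).A)).comp ρ) := by
  refine ⟨?_, ?_⟩
  · intro g
    rw [← h.1 g]
    ext i j
    rfl
  · intro j
    rw [isOpen_iff_forall_mem_open]
    intro g hg
    let U : Set G := {u : G | ∀ a b : Fin n,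
      ((ρ u : Matrix (Fin n) (Fin n) R.A) - 1) a b ∈ maximalIdeal R.A ^ j}
    refine ⟨(fun x => g⁻¹ * x) ⁻¹' U, ?_, (h.2 j).preimage (continuous_const_mul _), ?_⟩
    · intro x hx a b
      have hx' : ∀ a b : Fin n, ((ρ (g⁻¹ * x) : Matrix (Fin n) (Fin n) R.A) - 1) a b ∈
          maximalIdeal R.A ^ j := hx
      set σ := (Matrix.GeneralLinearGroup.map (pr R P hP : R.A →+* (quo R P hP).A)).comp ρ with hσ
      have hy : ∀ a b : Fin n, ((σ (g⁻¹ * x) : Matrix (Fin n) (Fin n) (quo R P hP).A) - 1) a b ∈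
          maximalIdeal (quo R P hP).A ^ j := by
        intro a b
        have h1 := pr_mem R P hP j _ (hx' a b)
        have h2 : pr R P hP (((ρ (g⁻¹ * x) : Matrix (Fin n) (Fin n) R.A) - 1) a b) =
            ((σ (g⁻¹ * x) : Matrix (Fin n) (Fin n) (quo R P hP).A) - 1) a b := by
          rw [Matrix.sub_apply, map_sub, Matrix.sub_apply]
          congr 1
          rw [Matrix.one_apply, Matrix.one_apply]
          split_ifs
          · exact map_one _
          · exact map_zero _
        rw [← h2]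
        exact h1
      have h3 : (σ x : Matrix (Fin n) (Fin n) (quo R P hP).A) - 1 =
          (σ g : Matrix (Fin n) (Fin n) (quo R P hP).A) *
            ((σ (g⁻¹ * x) : Matrix (Fin n) (Fin n) (quo R P hP).A) - 1) +
            ((σ g : Matrix (Fin n) (Fin n) (quo R P hP).A) - 1) := by
        have h4 : (σ x : Matrix (Fin n) (Fin n) (quo R P hP).A) =
            (σ g : Matrix (Fin n) (Fin n) (quo R P hP).A) *
              (σ (g⁻¹ * x) : Matrix (Fin n) (Fin n) (quo R P hP).A) := by
          rw [← Units.val_mul, ← map_mul, mul_inv_cancel_left]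
        rw [h4]
        noncomm_ring
      rw [h3, Matrix.add_apply]
      refine Ideal.add_mem _ ?_ (hg a b)
      rw [Matrix.mul_apply]
      exact Ideal.sum_mem _ fun c _ => Ideal.mul_mem_left _ _ (hy c b)
    · change (g⁻¹ * g) ∈ U
      rw [inv_mul_cancel]
      intro a b
      rw [map_one, Units.val_one, sub_self, Matrix.zero_apply]
      exact Ideal.zero_mem _

/-- the Frobenius of a coefficient ring of characteristic `p` -/
theorem frob_alg [Finite k] (D : MZ.CNL p k) (hD : (p : D.A) = 0) (e : ℕ)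
    (hk : ∀ z : k, z ^ (p ^ e) = z) :
    ∃ Fr : D.A →ₐ[WittVector p k] D.A, (∀ x, Fr x = x ^ (p ^ e)) ∧ ∀ x, D.res (Fr x) = D.res x := by
  have hp : p.Prime := Fact.out
  have hch : CharP D.A p := (CharP.charP_iff_prime_eq_zero hp).mpr hD
  refine ⟨{ iterateFrobenius D.A p e with commutes' := ?_ }, ?_, ?_⟩
  · intro w
    change iterateFrobenius D.A p e (algebraMap (WittVector p k) D.A w) = algebraMap (WittVector p k) D.A w
    rw [iterateFrobenius_def, ← map_pow]
    have h1 : (w ^ (p ^ e) - w).coeff 0 = 0 := by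
      have h2 : WittVector.constantCoeff (w ^ (p ^ e) - w) = 0 := by
        rw [map_sub, map_pow, hk, sub_self]
      exact h2
    have h3 : w ^ (p ^ e) - w ∈ Ideal.span {(p : WittVector p k)} :=
      (WittVector.mem_span_p_iff_coeff_zero_eq_zero _).mpr h1
    obtain ⟨c, hc⟩ := Ideal.mem_span_singleton'.mp h3
    have h4 : algebraMap (WittVector p k) D.A (w ^ (p ^ e) - w) = 0 := by
      rw [← hc, map_mul, map_natCast, hD, mul_zero]
    rw [map_sub, sub_eq_zero] at h4
    exact h4
  · intro x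
    change iterateFrobenius D.A p e x = x ^ (p ^ e)
    rw [iterateFrobenius_def]
  · intro x
    change D.res (iterateFrobenius D.A p e x) = D.res x
    rw [iterateFrobenius_def, map_pow, hk]

end Quo

end FINBQN

open IsLocalRing FINBQN in
/-- **JOB FINBQ** -/
theorem finbq : J_FINBQ := by
  intro hTR p _ k _ _ _ G _ _ _ n ρbar hirr R ρu hun P hPp hpP hfin
  have hp : p.Prime := Fact.out
  have hP : P ≠ ⊤ := hPp.ne_top
  let D : MZ.CNL p k := quo R P hP
  have hdom : IsDomain D.A := by
    change IsDomain (R.A ⧸ P)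
    infer_instance
  have hD0 : (p : D.A) = 0 := by
    have h1 := (pr_eq_zero R P hP (p : R.A)).mpr hpP
    rw [map_natCast] at h1
    exact h1
  let ρD : G →* GL (Fin n) D.A := (Matrix.GeneralLinearGroup.map (pr R P hP : R.A →+* D.A)).comp ρu
  have hlift : MZ.IsLift ρbar D ρD := lift_pr R ρu hun.1 P hP
  -- the traces
  let T : Set D.A := Set.range fun g : G => ((ρD g : Matrix (Fin n) (Fin n) D.A)).trace
  have hfin' : (Set.range ρD).Finite := hfin
  have hT : T.Finite := by
    have h1 : T = (fun M : GL (Fin n) D.A => (M : Matrix (Fin n) (Fin n) D.A).trace) '' (Set.range ρD) := by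
      rw [← Set.range_comp]
      rfl
    rw [h1]
    exact hfin'.image _
  have hord : ∀ g : G, ∃ m : ℕ, 0 < m ∧ ((ρD g : Matrix (Fin n) (Fin n) D.A)) ^ m = 1 := by
    intro g
    have h1 : (Set.range ρD).Finite := hfin'
    have h2 : Finite ρD.range := by
      rw [← MonoidHom.coe_range] at h1
      exact h1
    have h3 : IsOfFinOrder (⟨ρD g, ⟨g, rfl⟩⟩ : ρD.range) := isOfFinOrder_of_finite _
    obtain ⟨m, hm, h4⟩ := isOfFinOrder_iff_pow_eq_one.mp h3
    refine ⟨m, hm, ?_⟩
    have h5 : (ρD g) ^ m = 1 := congrArg Subtype.val h4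
    rw [← Units.val_pow_eq_pow_val, h5, Units.val_one]
  have hint : ∀ t ∈ T, IsIntegral ℤ t := by
    rintro _ ⟨g, rfl⟩
    obtain ⟨m, hm, h1⟩ := hord g
    exact tr_int _ m hm h1
  obtain ⟨e, he, hfix⟩ := exp_fix p hp hD0 T hT hint
  -- the residue field
  have hfk : Fintype k := Fintype.ofFinite k
  obtain ⟨f, -, hf⟩ := FiniteField.card k p
  have hQ : ∀ z : k, z ^ (p ^ (e * f)) = z := by
    intro z
    have h1 := FiniteField.pow_card_pow (K := k) e z
    rw [hf, ← pow_mul, mul_comm] at h1
    exact h1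
  have hTQ : ∀ t ∈ T, t ^ (p ^ (e * f)) = t := by
    intro t ht
    have h1 := hfix f t ht
    rw [← pow_mul] at h1
    exact h1
  obtain ⟨Fr, hFr, hFres⟩ := frob_alg D hD0 (e * f) hQ
  -- the Frobenius twist has the same traces
  have hmapFr : ∀ g : G, Matrix.GeneralLinearGroup.map D.res
      (((Matrix.GeneralLinearGroup.map (Fr : D.A →+* D.A)).comp ρD) g) =
        Matrix.GeneralLinearGroup.map D.res (ρD g) := by
    intro g
    ext i j
    exact hFres _
  have hirr' : MZ.AbsIrred ((Matrix.GeneralLinearGroup.map D.res).comp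
      ((Matrix.GeneralLinearGroup.map (Fr : D.A →+* D.A)).comp ρD)) := by
    have h1 : (Matrix.GeneralLinearGroup.map D.res).comp
      ((Matrix.GeneralLinearGroup.map (Fr : D.A →+* D.A)).comp ρD) = ρbar := by
      refine MonoidHom.ext fun g => ?_
      exact (hmapFr g).trans (hlift.1 g)
    rw [h1]
    exact hirr
  have htr : ∀ g : G, ((((Matrix.GeneralLinearGroup.map (Fr : D.A →+* D.A)).comp ρD) g :
      GL (Fin n) D.A) : Matrix (Fin n) (Fin n) D.A).trace = (ρD g : Matrix (Fin n) (Fin n) D.A).trace := by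
    intro g
    have h1 : ((((Matrix.GeneralLinearGroup.map (Fr : D.A →+* D.A)).comp ρD) g :
      GL (Fin n) D.A) : Matrix (Fin n) (Fin n) D.A).trace = Fr ((ρD g : Matrix (Fin n) (Fin n) D.A).trace) := by
      rw [Matrix.trace, Matrix.trace, map_sum]
      rfl
    rw [h1, hFr]
    exact hTQ _ ⟨g, rfl⟩
  obtain ⟨M, hM1, hM2⟩ := hTR k D.A D.res D.res_surj G n
    ((Matrix.GeneralLinearGroup.map (Fr : D.A →+* D.A)).comp ρD) ρD hmapFr hirr' htr
  -- uniqueness
  obtain ⟨f0, -, huniq⟩ := hun.2 D ρD hlift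
  have h1 : pr R P hP = f0 := by
    refine huniq (pr R P hP) ⟨fun x => res_pr R P hP x, 1, map_one _, fun g => ?_⟩
    rw [one_mul, inv_one, mul_one]
  have h2 : Fr.comp (pr R P hP) = f0 := by
    refine huniq (Fr.comp (pr R P hP)) ⟨fun x => ?_, M, hM1, fun g => hM2 g⟩
    exact (hFres _).trans (res_pr R P hP x)
  have h3 : Fr.comp (pr R P hP) = pr R P hP := h2.trans h1.symm
  refine le_antisymm (IsLocalRing.le_maximalIdeal hP) ?_
  intro x hx
  rw [← pr_eq_zero R P hP]
  have h4 : (pr R P hP x) ^ (p ^ (e * f)) = pr R P hP x := by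
    have h5 := DFunLike.congr_fun h3 x
    rw [AlgHom.comp_apply, hFr] at h5
    exact h5
  have h6 : (pr R P hP x) ∈ maximalIdeal D.A := by
    have h7 := pr_mem R P hP 1 x (by rw [pow_one]; exact hx)
    rw [pow_one] at h7
    exact h7
  by_contra hne
  have h8 : 1 < p ^ (e * f) := Nat.one_lt_pow (Nat.mul_ne_zero he.ne' f.pos.ne') hp.one_lt
  obtain ⟨q, hq⟩ := Nat.exists_eq_add_of_lt h8
  rw [hq, pow_succ] at h4
  have h9 : (pr R P hP x) ^ (1 + q) = 1 := by
    have h10 : (pr R P hP x) ^ (1 + q) * pr R P hP x = 1 * pr R P hP x := by rw [one_mul]; exact h4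
    exact mul_right_cancel₀ hne h10
  have h11 : (1 : D.A) ∈ maximalIdeal D.A := by
    rw [← h9, add_comm, pow_succ]
    exact Ideal.mul_mem_left _ _ h6
  exact (mem_maximalIdeal _).mp h11 isUnit_one

end Pool.Agent.H429.MZQ
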