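import Pool.Graph.R_pool_sql_team_seeded_3997aac3.Q5.MZ.Stm3

/-!
# Job MZ-FK: existence of the field of degree 21 with Galois group `F_21`

`K` is the splitting field of the product of the two polynomials `f` (septic) and `g` (cubic).
With a root `l` of `g` and a root `θ` of `f`: `E = ℚ(l)` has degree 3, `F = E(θ)` has degree 7 over
`E`.  The identity `RR_root` gives another root `R(θ,l)` of `f` in `F`, so `F/E` has a nontrivial
automorphism and is Galois (of prime degree 7); so `F` contains all roots and `F = K`.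
-/

set_option autoImplicit false

/-! ## The key identity

Elements of `ℤ[x,y]/(f(x), g(y))` written in the basis `x^i y^j`, `i < 7`, `j < 3`. -/

namespace Pool.Agent.H429.MZQ.FKN

/-- `x` is a root of the septic polynomial -/
def RN {R : Type} [CommRing R] (x : R) : Prop :=
  x ^ 7 - 8 * x ^ 5 - 2 * x ^ 4 + 16 * x ^ 3 + 6 * x ^ 2 - 6 * x - 2 = 0

/-- `x` is a root of the cubic polynomial -/
def RL {R : Type} [CommRing R] (x : R) : Prop := x ^ 3 + x ^ 2 - 24 * x - 27 = 0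

/-- `219 R^1` -/
def s1 {K : Type} [CommRing K] (x y : K) : K :=
  (-354 - 432*x + 393*x^2 + 18*x^3 - 111*x^4 + 9*x^5 + 9*x^6) + (22 + 10*x - 15*x^2 - 27*x^3 - 4*x^4 + 4*x^5 + x^6)*y + (40 + 49*x - 78*x^2 - 24*x^3 + 38*x^4 + 4*x^5 - 5*x^6)*y^2

/-- `219 R^2` -/
def s2 {K : Type} [CommRing K] (x y : K) : K :=
  (588 + 1266*x - 399*x^2 - 1170*x^3 + 411*x^4 + 204*x^5 - 78*x^6) + (104 + 132*x - 219*x^2 - 132*x^3 + 94*x^4 + 24*x^5 - 12*x^6)*y + (-16 - 48*x + 87*x^2 + 60*x^3 - 59*x^4 - 12*x^5 + 9*x^6)*y^2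

/-- `219 R^3` -/
def s3 {K : Type} [CommRing K] (x y : K) : K :=
  (-222 - 1098*x - 2262*x^2 - 924*x^3 + 1878*x^4 + 294*x^5 - 297*x^6) + (90 + 120*x + 256*x^2 - 107*x^3 - 230*x^4 + 6*x^5 + 34*x^6)*y + (78 + 168*x - 44*x^2 - 35*x^3 + x^4 + x^6)*y^2

/-- `219 R^4` -/
def s4 {K : Type} [CommRing K] (x y : K) : K :=
  (2412 + 7008*x - 2208*x^2 - 7200*x^3 + 2388*x^4 + 1302*x^5 - 468*x^6) + (492 + 994*x - 734*x^2 - 854*x^3 + 227*x^4 + 136*x^5 - 26*x^6)*y + (-84 - 230*x + 442*x^2 + 334*x^3 - 298*x^4 - 68*x^5 + 46*x^6)*y^2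

/-- `219 R^5` -/
def s5 {K : Type} [CommRing K] (x y : K) : K :=
  (360 - 2352*x - 13320*x^2 - 7548*x^3 + 11190*x^4 + 2067*x^5 - 1818*x^6) + (328 + 1142*x + 2362*x^2 - 830*x^3 - 1802*x^4 + 54*x^5 + 255*x^6)*y + (226 + 650*x + 238*x^2 + 34*x^3 - 266*x^4 - 45*x^5 + 45*x^6)*y^2

/-- `219 R^7` -/
def s7 {K : Type} [CommRing K] (x y : K) : K :=
  (6042 + 2580*x - 70032*x^2 - 52872*x^3 + 61116*x^4 + 13266*x^5 - 10206*x^6) + (1676 + 8472*x + 14556*x^2 - 6006*x^3 - 10870*x^4 + 488*x^5 + 1522*x^6)*y + (728 + 2634*x + 2502*x^2 + 996*x^3 - 2158*x^4 - 400*x^5 + 352*x^6)*y^2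

theorem m11 {K : Type} [CommRing K] (x y : K) (hf : RN x) (hg : RL y) :
    s1 x y * s1 x y = 219 * s2 x y := by
  unfold s1 s2
  unfold RN at hf
  unfold RL at hg
  linear_combination ((-432 + 9*x - 1728*x^2 + 4995*x^3 + 378*x^4 - 864*x^5) + (-4344 - 822*x + 5400*x^2 + 1062*x^3 - 798*x^4 - 147*x^5)*y + (-6954 + 2490*x + 5472*x^2 - 3006*x^3 - 978*x^4 + 546*x^5)*y^2) * hf +
    ((160 - 964*x + 187*x^2 + 3318*x^3 - 6206*x^4 - 1992*x^5 + 6472*x^6 + 332*x^7 - 2750*x^8 - 50*x^9 + 512*x^10 + 8*x^11 - 35*x^12) + (1600 + 3920*x - 3839*x^2 - 9564*x^3 + 6772*x^4 + 7788*x^5 - 5360*x^6 - 2938*x^7 + 2032*x^8 + 544*x^9 - 364*x^10 - 40*x^11 + 25*x^12)*y) * hg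

theorem m21 {K : Type} [CommRing K] (x y : K) (hf : RN x) (hg : RL y) :
    s2 x y * s1 x y = 219 * s3 x y := by
  unfold s2 s1 s3
  unfold RN at hf
  unfold RL at hg
  linear_combination ((19719 + 11538*x + 14076*x^2 - 8973*x^3 - 5346*x^4 + 2376*x^5) + (-22941 + 5061*x + 17004*x^2 - 6972*x^3 - 3168*x^4 + 1335*x^5)*y + (2709 - 5001*x - 5154*x^2 + 4215*x^3 + 1161*x^4 - 735*x^5)*y^2) * hf +
    ((4448 + 11864*x - 11106*x^2 - 36252*x^3 + 20177*x^4 + 34602*x^5 - 19123*x^6 - 15006*x^7 + 8102*x^8 + 3073*x^9 - 1562*x^10 - 240*x^11 + 114*x^12) + (-640 - 2704*x + 2376*x^2 + 10791*x^3 - 5662*x^4 - 12027*x^5 + 6128*x^6 + 5661*x^7 - 2851*x^8 - 1208*x^9 + 589*x^10 + 96*x^11 - 45*x^12)*y) * hg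

theorem m22 {K : Type} [CommRing K] (x y : K) (hf : RN x) (hg : RL y) :
    s2 x y * s2 x y = 219 * s4 x y := by
  unfold s2 s4
  unfold RN at hf
  unfold RL at hg
  linear_combination ((139626 - 183366*x - 13878*x^2 + 55170*x^3 - 6552*x^4 - 1935*x^5) + (32274 - 29067*x - 41658*x^2 + 18726*x^3 + 7992*x^4 - 3069*x^5)*y + (-10062 + 13449*x + 7374*x^2 - 7608*x^3 - 1152*x^4 + 981*x^5)*y^2) * hf +
    ((-3584 - 15744*x + 12912*x^2 + 70968*x^3 - 28571*x^4 - 93600*x^5 + 28944*x^6 + 49848*x^7 - 14681*x^8 - 11400*x^9 + 3450*x^10 + 936*x^11 - 297*x^12) + (256 + 1536*x - 480*x^2 - 10272*x^3 + 3697*x^4 + 16488*x^5 - 5802*x^6 - 10032*x^7 + 3607*x^8 + 2496*x^9 - 918*x^10 - 216*x^11 + 81*x^12)*y) * hg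

theorem m41 {K : Type} [CommRing K] (x y : K) (hf : RN x) (hg : RL y) :
    s4 x y * s1 x y = 219 * s5 x y := by
  unfold s4 s1 s5
  unfold RN at hf
  unfold RL at hg
  linear_combination ((180252 + 774*x + 43506*x^2 - 3915*x^3 - 24678*x^4 + 6750*x^5) + (-112476 - 20103*x + 81675*x^2 - 8817*x^3 - 14040*x^4 + 2832*x^5)*y + (7143 - 26322*x - 22356*x^2 + 18858*x^3 + 5220*x^4 - 3198*x^5)*y^2) * hf +
    ((21192 + 71284*x - 23308*x^2 - 196954*x^3 + 43728*x^4 + 182753*x^5 - 54982*x^6 - 78280*x^7 + 25914*x^8 + 15692*x^9 - 5299*x^10 - 1192*x^11 + 406*x^12) + (-3360 - 13316*x + 12962*x^2 + 54974*x^3 - 27702*x^4 - 63058*x^5 + 30032*x^6 + 30320*x^7 - 14154*x^8 - 6550*x^9 + 2966*x^10 + 524*x^11 - 230*x^12)*y) * hg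

theorem m43 {K : Type} [CommRing K] (x y : K) (hf : RN x) (hg : RL y) :
    s4 x y * s3 x y = 219 * s7 x y := by
  unfold s4 s3 s7
  unfold RN at hf
  unfold RL at hg
  linear_combination ((424863 - 1069713*x + 2075814*x^2 - 329121*x^3 - 573750*x^4 + 179280*x^5) + (-230370 + 34338*x + 246072*x^2 - 151551*x^3 - 52380*x^4 + 28860*x^5)*y + (51492 - 22515*x - 170070*x^2 + 62739*x^3 + 39690*x^4 - 15402*x^5)*y^2) * hf +
    ((37368 + 161460*x + 79236*x^2 - 331040*x^3 + 21188*x^4 + 247494*x^5 - 175406*x^6 - 101401*x^7 + 100001*x^8 + 21822*x^9 - 20667*x^10 - 1832*x^11 + 1492*x^12) + (-6552 - 32052*x - 468*x^2 + 113368*x^3 + 21386*x^4 - 85764*x^5 - 6056*x^6 + 21254*x^7 + 500*x^8 - 1344*x^9 - 252*x^10 - 68*x^11 + 46*x^12)*y) * hg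

theorem fsum {K : Type} [CommRing K] (x y : K) :
    s7 x y - 8 * s5 x y - 2 * s4 x y + 16 * s3 x y + 6 * s2 x y - 6 * s1 x y - 2 * 219 = 0 := by
  unfold s7 s5 s4 s3 s2 s1
  ring

/-- the second root of the septic polynomial -/
noncomputable def RR {K : Type} [Field K] (x y : K) : K := s1 x y / 219

/-- the key identity -/
theorem RR_root {K : Type} [Field K] [CharZero K] (x y : K) (hf : RN x) (hg : RL y) :
    RN (RR x y) := by
  have h219 : (219 : K) ≠ 0 := by norm_num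
  have e2 : RR x y ^ 2 = s2 x y / 219 := by
    rw [RR, div_pow, eq_div_iff h219, div_mul_eq_mul_div, div_eq_iff (pow_ne_zero 2 h219)]
    linear_combination 219 * m11 x y hf hg
  have e3 : RR x y ^ 3 = s3 x y / 219 := by
    rw [pow_succ, e2, RR, div_mul_div_comm, m21 x y hf hg, mul_div_mul_left _ _ h219]
  have e4 : RR x y ^ 4 = s4 x y / 219 := by
    rw [show RR x y ^ 4 = RR x y ^ 2 * RR x y ^ 2 by ring, e2, div_mul_div_comm, m22 x y hf hg,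
      mul_div_mul_left _ _ h219]
  have e5 : RR x y ^ 5 = s5 x y / 219 := by
    rw [pow_succ, e4, RR, div_mul_div_comm, m41 x y hf hg, mul_div_mul_left _ _ h219]
  have e7 : RR x y ^ 7 = s7 x y / 219 := by
    rw [show RR x y ^ 7 = RR x y ^ 4 * RR x y ^ 3 by ring, e4, e3, div_mul_div_comm,
      m43 x y hf hg, mul_div_mul_left _ _ h219]
  have e1 : RR x y = s1 x y / 219 := rfl
  unfold RN
  rw [e7, e5, e4, e3, e2, e1]
  have h := fsum x y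
  field_simp
  linear_combination h

/-- a multiple of the inverse of `R - x` -/
theorem inv1 {K : Type} [CommRing K] (x y : K) (hf : RN x) (hg : RL y) :
    (s1 x y - 219 * x) * ((-1422 - 270*x + 3690*x^2 + 366*x^3 - 1890*x^4 - 108*x^5 + 243*x^6) + (-28 + 8*x + 6*x^2 - 20*x^3 - 8*x^4 + 4*x^5 + x^6)*y + (92 + 44*x - 246*x^2 - 44*x^3 + 130*x^4 + 10*x^5 - 17*x^6)*y^2) = 95922 := by
  unfold s1
  unfold RN at hf
  unfold RL at hg
  linear_combination ((-166257 + 61452*x + 8667*x^2 - 7695*x^3 + 2403*x^4 - 702*x^5) + (-5682 - 6*x + 6957*x^2 + 591*x^3 - 1221*x^4 - 21*x^5)*y + (-516 + 1641*x + 7254*x^2 - 4089*x^3 - 1419*x^4 + 780*x^5)*y^2) * hf +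
    ((-2776 - 5432*x + 11324*x^2 + 12424*x^3 - 23142*x^4 - 7756*x^5 + 20862*x^6 + 2168*x^7 - 8625*x^8 - 437*x^9 + 1588*x^10 + 44*x^11 - 107*x^12) + (3680 + 6268*x - 14860*x^2 - 19454*x^3 + 24672*x^4 + 18146*x^5 - 18906*x^6 - 7609*x^7 + 7080*x^8 + 1528*x^9 - 1256*x^10 - 118*x^11 + 85*x^12)*y) * hg

/-- the coefficient of `y^2` in `219 R` -/
def c2 {K : Type} [CommRing K] (x : K) : K := 40 + 49*x - 78*x^2 - 24*x^3 + 38*x^4 + 4*x^5 - 5*x^6

/-- the coefficient of `y` in `219 R` -/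
def c1 {K : Type} [CommRing K] (x : K) : K := 22 + 10*x - 15*x^2 - 27*x^3 - 4*x^4 + 4*x^5 + x^6

/-- the constant coefficient of `219 R` -/
def c0 {K : Type} [CommRing K] (x : K) : K := -354 - 432*x + 393*x^2 + 18*x^3 - 111*x^4 + 9*x^5 + 9*x^6

theorem s1_eq {K : Type} [CommRing K] (x y : K) : s1 x y = c0 x + c1 x * y + c2 x * y ^ 2 := rfl

/-- a multiple of the inverse of `c2` -/
theorem inv2 {K : Type} [CommRing K] (x : K) (hf : RN x) :
    c2 x * (41810 + 17058*x - 111632*x^2 - 8698*x^3 + 56986*x^4 + 2320*x^5 - 7461*x^6) = 462382 := by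
  unfold c2
  unfold RN at hf
  linear_combination (-605009 + 449522*x + 281716*x^2 - 260728*x^3 - 41444*x^4 + 37305*x^5) * hf

end Pool.Agent.H429.MZQ.FKN

namespace Pool.Agent.H429.MZQ.FKN

open Polynomial IntermediateField Module

/-! ## The two polynomials -/

/-- the septic polynomial over `ℤ` -/
noncomputable def fZ : ℤ[X] := X ^ 7 - 8 * X ^ 5 - 2 * X ^ 4 + 16 * X ^ 3 + 6 * X ^ 2 - 6 * X - 2

/-- the cubic polynomial over `ℤ` -/
noncomputable def gZ : ℤ[X] := X ^ 3 + X ^ 2 - 24 * X - 27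

theorem fZ_eq : fZ = X ^ 7 + (C (-8) * X ^ 5 + C (-2) * X ^ 4 + C 16 * X ^ 3 + C 6 * X ^ 2 +
    C (-6) * X + C (-2)) := by
  unfold fZ
  simp only [map_neg, map_ofNat]
  ring

theorem gZ_eq : gZ = X ^ 3 + (X ^ 2 + C (-24) * X + C (-27)) := by
  unfold gZ
  simp only [map_neg, map_ofNat]
  ring

theorem fZ_monic : fZ.Monic := by
  rw [fZ_eq]; monicity!

theorem gZ_monic : gZ.Monic := by
  rw [gZ_eq]; monicity!

theorem fZ_deg : fZ.natDegree = 7 := by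
  rw [fZ_eq]; compute_degree!

theorem gZ_deg : gZ.natDegree = 3 := by
  rw [gZ_eq]; compute_degree!

theorem fZ_coeff (n : ℕ) (hn : n < 7) : fZ.coeff n ∈ Ideal.span {(2 : ℤ)} := by
  rw [Ideal.mem_span_singleton, fZ_eq]
  interval_cases n <;> simp [coeff_X, coeff_X_pow]

theorem fZ_irr : Irreducible fZ := by
  have hp : (Ideal.span {(2 : ℤ)}).IsPrime := by
    rw [Ideal.span_singleton_prime (by norm_num)]; exact Int.prime_two
  refine IsEisensteinAt.irreducible (𝓟 := Ideal.span {(2 : ℤ)}) ⟨?_, ?_, ?_⟩ hp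
    fZ_monic.isPrimitive (by rw [fZ_deg]; norm_num)
  · rw [fZ_monic.leadingCoeff]
    exact fun h => hp.ne_top ((Ideal.eq_top_iff_one _).mpr h)
  · intro n hn
    rw [fZ_deg] at hn
    exact fZ_coeff n hn
  · rw [pow_two, Ideal.span_singleton_mul_span_singleton, Ideal.mem_span_singleton, fZ_eq]
    simp [coeff_X, coeff_X_pow]

theorem gZ_irr : Irreducible gZ := by
  refine gZ_monic.irreducible_of_irreducible_map (Int.castRingHom (ZMod 2)) _ ?_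
  have hm : (gZ.map (Int.castRingHom (ZMod 2))).Monic := gZ_monic.map _
  have hd : (gZ.map (Int.castRingHom (ZMod 2))).natDegree = 3 := by
    rw [gZ_monic.natDegree_map, gZ_deg]
  rw [hm.irreducible_iff_roots_eq_zero_of_degree_le_three (by rw [hd]; norm_num)
    (by rw [hd])]
  refine Multiset.eq_zero_of_forall_notMem fun a ha => ?_
  have h := (mem_roots hm.ne_zero).mp ha
  rw [IsRoot, eval_map, gZ, eval₂_sub, eval₂_sub, eval₂_add, eval₂_mul] at h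
  simp only [eval₂_pow, eval₂_X, eval₂_ofNat] at h
  clear ha
  revert a
  decide

/-- the septic polynomial over `ℚ` -/
noncomputable def fQ : ℚ[X] := fZ.map (Int.castRingHom ℚ)

/-- the cubic polynomial over `ℚ` -/
noncomputable def gQ : ℚ[X] := gZ.map (Int.castRingHom ℚ)

theorem fQ_irr : Irreducible fQ :=
  (IsPrimitive.Int.irreducible_iff_irreducible_map_cast fZ_monic.isPrimitive).mp fZ_irr

theorem gQ_irr : Irreducible gQ :=
  (IsPrimitive.Int.irreducible_iff_irreducible_map_cast gZ_monic.isPrimitive).mp gZ_irr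

theorem fQ_monic : fQ.Monic := fZ_monic.map _

theorem gQ_monic : gQ.Monic := gZ_monic.map _

theorem fQ_deg : fQ.natDegree = 7 := by rw [fQ, fZ_monic.natDegree_map, fZ_deg]

theorem gQ_deg : gQ.natDegree = 3 := by rw [gQ, gZ_monic.natDegree_map, gZ_deg]

theorem aeval_fQ {A : Type} [CommRing A] [Algebra ℚ A] (x : A) : aeval x fQ = 0 ↔ RN x := by
  rw [fQ, fZ, aeval_def, eval₂_map]
  simp only [eval₂_sub, eval₂_add, eval₂_mul, eval₂_pow, eval₂_X, eval₂_ofNat, RN]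

theorem aeval_gQ {A : Type} [CommRing A] [Algebra ℚ A] (x : A) : aeval x gQ = 0 ↔ RL x := by
  rw [gQ, gZ, aeval_def, eval₂_map]
  simp only [eval₂_sub, eval₂_add, eval₂_mul, eval₂_pow, eval₂_X, eval₂_ofNat, RL]

theorem minpoly_f {A : Type} [Field A] [Algebra ℚ A] (x : A) (h : RN x) : minpoly ℚ x = fQ :=
  (minpoly.eq_of_irreducible_of_monic fQ_irr ((aeval_fQ x).mpr h) fQ_monic).symm

theorem minpoly_g {A : Type} [Field A] [Algebra ℚ A] (x : A) (h : RL x) : minpoly ℚ x = gQ :=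
  (minpoly.eq_of_irreducible_of_monic gQ_irr ((aeval_gQ x).mpr h) gQ_monic).symm

theorem int_f {A : Type} [Field A] [Algebra ℚ A] (x : A) (h : RN x) : IsIntegral ℚ x :=
  ⟨fQ, fQ_monic, (aeval_fQ x).mpr h⟩

theorem int_g {A : Type} [Field A] [Algebra ℚ A] (x : A) (h : RL x) : IsIntegral ℚ x :=
  ⟨gQ, gQ_monic, (aeval_gQ x).mpr h⟩

theorem seven_dvd {A : Type} [Field A] [Algebra ℚ A] (x : A) (h : RN x) : 7 ∣ finrank ℚ A := by
  have := minpoly.degree_dvd (int_f x h)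
  rwa [minpoly_f x h, fQ_deg] at this

theorem three_dvd {A : Type} [Field A] [Algebra ℚ A] (x : A) (h : RL x) : 3 ∣ finrank ℚ A := by
  have := minpoly.degree_dvd (int_g x h)
  rwa [minpoly_g x h, gQ_deg] at this

end Pool.Agent.H429.MZQ.FKN

namespace Pool.Agent.H429.MZQ.FKN

open Polynomial IntermediateField Module

/-- existence of the splitting field as a number field -/
theorem exS (p : ℚ[X]) : ∃ (K : Type) (_ : Field K) (_ : NumberField K),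
    IsSplittingField ℚ K p := by
  have h1 : FiniteDimensional ℚ p.SplittingField := inferInstance
  have h2 : NumberField p.SplittingField :=
    { to_charZero := inferInstance, to_finiteDimensional := h1 }
  refine ⟨p.SplittingField, inferInstance, h2, ?_⟩
  convert IsSplittingField.splittingField p
  exact Subsingleton.elim _ _

theorem exists_roots (K : Type) [Field K] [NumberField K]
    (hS : IsSplittingField ℚ K (fQ * gQ)) : (∃ θ : K, RN θ) ∧ ∃ l : K, RL l := by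
  have hs : ((fQ * gQ).map (algebraMap ℚ K)).Splits := IsSplittingField.splits K _
  have h0 : (fQ * gQ).map (algebraMap ℚ K) ≠ 0 := ((fQ_monic.mul gQ_monic).map _).ne_zero
  have hf : (fQ.map (algebraMap ℚ K)).Splits :=
    hs.of_dvd h0 (by rw [Polynomial.map_mul]; exact dvd_mul_right _ _)
  have hg : (gQ.map (algebraMap ℚ K)).Splits :=
    hs.of_dvd h0 (by rw [Polynomial.map_mul]; exact dvd_mul_left _ _)
  constructor
  · obtain ⟨θ, hθ⟩ := hf.exists_eval_eq_zero (by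
      rw [degree_map, degree_eq_natDegree fQ_monic.ne_zero, fQ_deg]; norm_num)
    exact ⟨θ, (aeval_fQ θ).mp (by rwa [aeval_def, ← eval_map])⟩
  · obtain ⟨θ, hθ⟩ := hg.exists_eval_eq_zero (by
      rw [degree_map, degree_eq_natDegree gQ_monic.ne_zero, gQ_deg]; norm_num)
    exact ⟨θ, (aeval_gQ θ).mp (by rwa [aeval_def, ← eval_map])⟩

/-- the three roots of the cubic polynomial -/
theorem roots_g {K : Type} [Field K] [CharZero K] (l z : K) (hl : RL l) (hz : RL z) :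
    z = l ∨ z = 5 - (l + l ^ 2) / 3 ∨ z = -6 - l + (l + l ^ 2) / 3 := by
  have h : (z - l) * ((z - (5 - (l + l ^ 2) / 3)) * (z - (-6 - l + (l + l ^ 2) / 3))) = 0 := by
    unfold RL at hl hz
    linear_combination hz - (1 + (z - l) * (l - 2) / 9) * hl
  rcases mul_eq_zero.mp h with h | h
  · exact Or.inl (sub_eq_zero.mp h)
  · rcases mul_eq_zero.mp h with h | h
    · exact Or.inr (Or.inl (sub_eq_zero.mp h))
    · exact Or.inr (Or.inr (sub_eq_zero.mp h))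

/-! ## The tower `ℚ ⊂ E = ℚ(l) ⊂ F = E(θ)` -/

section tower

variable {K : Type} [Field K] [NumberField K] (θ l : K)

theorem finE (hl : RL l) : finrank ℚ ℚ⟮l⟯ = 3 := by
  rw [IntermediateField.adjoin.finrank (int_g l hl), minpoly_g l hl, gQ_deg]

theorem finN (hθ : RN θ) : finrank ℚ ℚ⟮θ⟯ = 7 := by
  rw [IntermediateField.adjoin.finrank (int_f θ hθ), minpoly_f θ hθ, fQ_deg]

theorem intE (E : IntermediateField ℚ K) (hθ : RN θ) : IsIntegral E θ :=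
  (int_f θ hθ).tower_top

theorem finF (hθ : RN θ) (hl : RL l) : finrank ℚ⟮l⟯ (ℚ⟮l⟯)⟮θ⟯ = 7 := by
  have h1 : finrank ℚ⟮l⟯ (ℚ⟮l⟯)⟮θ⟯ = (minpoly ℚ⟮l⟯ θ).natDegree :=
    IntermediateField.adjoin.finrank (intE θ _ hθ)
  have h2 : minpoly ℚ⟮l⟯ θ ∣ fQ.map (algebraMap ℚ ℚ⟮l⟯) := by
    apply minpoly.dvd
    rw [aeval_map_algebraMap]
    exact (aeval_fQ θ).mpr hθ
  have h3 : (minpoly ℚ⟮l⟯ θ).natDegree ≤ 7 := by
    have := natDegree_le_of_dvd h2 (fQ_monic.map _).ne_zero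
    rwa [fQ_monic.natDegree_map, fQ_deg] at this
  have h4 : 7 ∣ finrank ℚ (ℚ⟮l⟯)⟮θ⟯ := by
    refine seven_dvd (AdjoinSimple.gen ℚ⟮l⟯ θ) ?_
    exact Subtype.ext hθ
  have h5 : finrank ℚ ℚ⟮l⟯ * finrank ℚ⟮l⟯ (ℚ⟮l⟯)⟮θ⟯ = finrank ℚ (ℚ⟮l⟯)⟮θ⟯ :=
    finrank_mul_finrank ℚ ℚ⟮l⟯ (ℚ⟮l⟯)⟮θ⟯
  rw [finE l hl] at h5
  have h6 : 0 < finrank ℚ⟮l⟯ (ℚ⟮l⟯)⟮θ⟯ := finrank_pos
  omega

theorem minE (hθ : RN θ) (hl : RL l) :
    minpoly ℚ⟮l⟯ θ = fQ.map (algebraMap ℚ ℚ⟮l⟯) := by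
  have h2 : minpoly ℚ⟮l⟯ θ ∣ fQ.map (algebraMap ℚ ℚ⟮l⟯) := by
    apply minpoly.dvd
    rw [aeval_map_algebraMap]
    exact (aeval_fQ θ).mpr hθ
  have h1 : finrank ℚ⟮l⟯ (ℚ⟮l⟯)⟮θ⟯ = (minpoly ℚ⟮l⟯ θ).natDegree :=
    IntermediateField.adjoin.finrank (intE θ _ hθ)
  rw [finF θ l hθ hl] at h1
  have hm := minpoly.monic (intE θ ℚ⟮l⟯ hθ)
  refine eq_of_dvd_of_natDegree_le_of_leadingCoeff h2 ?_ ?_
  · rw [← h1, fQ_monic.natDegree_map, fQ_deg]
  · rw [hm.leadingCoeff, (fQ_monic.map _).leadingCoeff]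

/-- a nontrivial automorphism of `F/E` -/
theorem autF (hθ : RN θ) (hl : RL l) :
    ∃ σ : (ℚ⟮l⟯)⟮θ⟯ ≃ₐ[ℚ⟮l⟯] (ℚ⟮l⟯)⟮θ⟯, σ ≠ 1 := by
  set t : (ℚ⟮l⟯)⟮θ⟯ := AdjoinSimple.gen ℚ⟮l⟯ θ with ht
  set y : (ℚ⟮l⟯)⟮θ⟯ := algebraMap ℚ⟮l⟯ (ℚ⟮l⟯)⟮θ⟯ (AdjoinSimple.gen ℚ l) with hy
  have hyl : RL y := Subtype.ext hl
  have htt : RN t := Subtype.ext hθ
  have hR : RN (RR t y) := RR_root t y htt hyl
  have hm : aeval (RR t y) (minpoly ℚ⟮l⟯ θ) = 0 := by
    rw [minE θ l hθ hl, aeval_map_algebraMap]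
    exact (aeval_fQ _).mpr hR
  have hi := intE θ ℚ⟮l⟯ hθ
  have hg : (adjoin.powerBasis hi).gen = t := adjoin.powerBasis_gen hi
  have hm' : aeval (RR t y) (minpoly ℚ⟮l⟯ (adjoin.powerBasis hi).gen) = 0 := by
    rw [hg, ht, IntermediateField.minpoly_gen]; exact hm
  let φ : (ℚ⟮l⟯)⟮θ⟯ →ₐ[ℚ⟮l⟯] (ℚ⟮l⟯)⟮θ⟯ := (adjoin.powerBasis hi).lift (RR t y) hm'
  have hφ : φ t = RR t y := by
    have := (adjoin.powerBasis hi).lift_gen (RR t y) hm'
    rw [hg] at this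
    exact this
  have hb : Function.Bijective φ := Algebra.IsAlgebraic.algHom_bijective φ
  refine ⟨AlgEquiv.ofBijective φ hb, fun h => ?_⟩
  have h1 : RR t y = t := by
    rw [← hφ]
    have := congrArg (fun e : (ℚ⟮l⟯)⟮θ⟯ ≃ₐ[ℚ⟮l⟯] (ℚ⟮l⟯)⟮θ⟯ => e t) h
    exact this
  have h219 : (219 : (ℚ⟮l⟯)⟮θ⟯) ≠ 0 := by norm_num
  have h2 : s1 t y = 219 * t := by
    rw [RR, div_eq_iff h219] at h1
    rw [h1, mul_comm]
  have h3 := inv1 t y htt hyl
  rw [h2, sub_self, zero_mul] at h3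
  norm_num at h3

theorem galF (hθ : RN θ) (hl : RL l) : IsGalois ℚ⟮l⟯ (ℚ⟮l⟯)⟮θ⟯ := by
  have hfd : FiniteDimensional ℚ⟮l⟯ (ℚ⟮l⟯)⟮θ⟯ := adjoin.finiteDimensional (intE θ _ hθ)
  apply IsGalois.of_card_aut_eq_finrank
  have h7 := finF θ l hθ hl
  have h1 := finrank_mul_finrank ℚ⟮l⟯
    (fixedField (⊤ : Subgroup Gal((ℚ⟮l⟯)⟮θ⟯/ℚ⟮l⟯))) (ℚ⟮l⟯)⟮θ⟯
  rw [IntermediateField.finrank_fixedField_eq_card, Subgroup.card_top, h7] at h1
  obtain ⟨σ, hσ⟩ := autF θ l hθ hl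
  have h2 : Nat.card Gal((ℚ⟮l⟯)⟮θ⟯/ℚ⟮l⟯) ≠ 1 := by
    intro h
    have := (Nat.card_eq_one_iff_unique.mp h).1
    exact hσ (Subsingleton.elim _ _)
  rw [h7]
  have h3 : Nat.card Gal((ℚ⟮l⟯)⟮θ⟯/ℚ⟮l⟯) ∣ 7 := Dvd.intro_left _ h1
  rcases (Nat.dvd_prime (by norm_num)).mp h3 with h | h
  · exact absurd h h2
  · exact h

/-- `F = K` -/
theorem F_top (hS : IsSplittingField ℚ K (fQ * gQ)) (hθ : RN θ) (hl : RL l) :
    ∀ z : K, z ∈ (ℚ⟮l⟯)⟮θ⟯ := by
  have hE : ∀ z ∈ ℚ⟮l⟯, z ∈ (ℚ⟮l⟯)⟮θ⟯ := fun z hz => by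
    exact IntermediateField.algebraMap_mem (ℚ⟮l⟯)⟮θ⟯ (⟨z, hz⟩ : ℚ⟮l⟯)
  have hgal := galF θ l hθ hl
  have hsp : ((minpoly ℚ⟮l⟯ (AdjoinSimple.gen ℚ⟮l⟯ θ)).map
      (algebraMap ℚ⟮l⟯ (ℚ⟮l⟯)⟮θ⟯)).Splits := Normal.splits inferInstance _
  rw [IntermediateField.minpoly_gen, minE θ l hθ hl] at hsp
  have him := hsp.image_rootSet (IntermediateField.val (ℚ⟮l⟯)⟮θ⟯)
  have hroot : ∀ z ∈ (fQ * gQ).rootSet K, z ∈ (ℚ⟮l⟯)⟮θ⟯ := by
    intro z hz
    have hz0 : aeval z (fQ * gQ) = 0 := aeval_eq_zero_of_mem_rootSet hz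
    rw [map_mul, mul_eq_zero, aeval_fQ, aeval_gQ] at hz0
    rcases hz0 with hz0 | hz0
    · have h1 : z ∈ (fQ.map (algebraMap ℚ ℚ⟮l⟯)).rootSet K := by
        rw [mem_rootSet]
        refine ⟨(fQ_monic.map _).ne_zero, ?_⟩
        rw [aeval_map_algebraMap]
        exact (aeval_fQ z).mpr hz0
      rw [← him] at h1
      obtain ⟨w, -, hw⟩ := h1
      rw [← hw]
      exact w.2
    · apply hE
      have hll : l ∈ ℚ⟮l⟯ := mem_adjoin_simple_self ℚ l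
      have h3 : (3 : K) ∈ ℚ⟮l⟯ := ofNat_mem _ 3
      have h5 : (5 : K) ∈ ℚ⟮l⟯ := ofNat_mem _ 5
      have h6 : (-6 : K) ∈ ℚ⟮l⟯ := neg_mem (ofNat_mem _ 6)
      have hw : (l + l ^ 2) / 3 ∈ ℚ⟮l⟯ := div_mem (add_mem hll (pow_mem hll 2)) h3
      rcases roots_g l z hl hz0 with h | h | h
      · rw [h]; exact hll
      · rw [h]; exact sub_mem h5 hw
      · rw [h]; exact add_mem (sub_mem h6 hll) hw
  intro z
  have h1 : Algebra.adjoin ℚ ((fQ * gQ).rootSet K) = ⊤ := IsSplittingField.adjoin_rootSet K _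
  have h2 : Algebra.adjoin ℚ ((fQ * gQ).rootSet K) ≤
      ((ℚ⟮l⟯)⟮θ⟯.restrictScalars ℚ).toSubalgebra := Algebra.adjoin_le hroot
  rw [h1] at h2
  exact h2 (Algebra.mem_top (x := z))

theorem finEK (hS : IsSplittingField ℚ K (fQ * gQ)) (hθ : RN θ) (hl : RL l) :
    finrank ℚ⟮l⟯ K = 7 := by
  have h : (ℚ⟮l⟯)⟮θ⟯ = ⊤ := eq_top_iff.mpr fun z _ => F_top θ l hS hθ hl z
  have h7 := finF θ l hθ hl
  rw [h, IntermediateField.finrank_top'] at h7
  exact h7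

theorem finK (hS : IsSplittingField ℚ K (fQ * gQ)) (hθ : RN θ) (hl : RL l) :
    finrank ℚ K = 21 := by
  rw [← finrank_mul_finrank ℚ ℚ⟮l⟯ K, finE l hl, finEK θ l hS hθ hl]

theorem galK (hS : IsSplittingField ℚ K (fQ * gQ)) : IsGalois ℚ K := by
  have : Normal ℚ K := Normal.of_isSplittingField (fQ * gQ)
  exact ⟨⟩

/-- an automorphism fixing `θ` and `l` is trivial -/
theorem genK (hS : IsSplittingField ℚ K (fQ * gQ)) (hθ : RN θ) (hl : RL l) (σ : K ≃ₐ[ℚ] K)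
    (h1 : σ θ = θ) (h2 : σ l = l) : σ = 1 := by
  have hE : ∀ z ∈ ℚ⟮l⟯, σ z = z := by
    intro z hz
    refine IntermediateField.adjoin_induction ℚ (p := fun z _ => σ z = z) ?_ ?_ ?_ ?_ ?_ hz
    · intro x hx
      rw [Set.mem_singleton_iff] at hx
      rw [hx]; exact h2
    · intro x; exact σ.commutes x
    · intro x y _ _ hx hy; rw [map_add, hx, hy]
    · intro x _ hx; rw [map_inv₀, hx]
    · intro x y _ _ hx hy; rw [map_mul, hx, hy]
  have hF : ∀ z ∈ (ℚ⟮l⟯)⟮θ⟯, σ z = z := by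
    intro z hz
    refine IntermediateField.adjoin_induction ℚ⟮l⟯ (p := fun z _ => σ z = z) ?_ ?_ ?_ ?_ ?_ hz
    · intro x hx
      rw [Set.mem_singleton_iff] at hx
      rw [hx]; exact h1
    · intro x; exact hE _ x.2
    · intro x y _ _ hx hy; rw [map_add, hx, hy]
    · intro x _ hx; rw [map_inv₀, hx]
    · intro x y _ _ hx hy; rw [map_mul, hx, hy]
  ext z
  exact hF z (F_top θ l hS hθ hl z)

/-- no root of the cubic polynomial lies in `ℚ(θ)` -/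
theorem no_root (hθ : RN θ) (m : K) (hm : RL m) : m ∉ ℚ⟮θ⟯ := by
  intro h
  have h3 : 3 ∣ finrank ℚ ℚ⟮θ⟯ := three_dvd (⟨m, h⟩ : ℚ⟮θ⟯) (Subtype.ext hm)
  rw [finN θ hθ] at h3
  omega

theorem ncK (hS : IsSplittingField ℚ K (fQ * gQ)) (hθ : RN θ) (hl : RL l) :
    ∃ σ τ : K ≃ₐ[ℚ] K, σ * τ ≠ τ * σ := by
  have hG : IsGalois ℚ K := galK hS
  -- the automorphism `σ`
  have hσ : ∃ σ : K ≃ₐ[ℚ] K, σ l = l ∧ σ θ = RR θ l := by
    have hR : RN (RR θ l) := RR_root θ l hθ hl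
    have hn : Normal ℚ⟮l⟯ K := Normal.tower_top_of_normal ℚ ℚ⟮l⟯ K
    obtain ⟨s, hs⟩ := minpoly.exists_algEquiv_of_root' (K := ℚ⟮l⟯) (x := RR θ l) (y := θ)
      (intE θ ℚ⟮l⟯ hθ).isAlgebraic (by
        rw [minE θ l hθ hl, aeval_map_algebraMap]
        exact (aeval_fQ _).mpr hR)
    refine ⟨s.restrictScalars ℚ, ?_, hs⟩
    exact s.commutes (AdjoinSimple.gen ℚ l)
  -- the automorphism `τ`
  have hτ : ∃ τ : K ≃ₐ[ℚ] K, τ θ = θ ∧ τ l ≠ l := by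
    by_contra hcon
    push Not at hcon
    apply no_root θ hθ l hl
    rw [← IsGalois.fixedField_fixingSubgroup ℚ⟮θ⟯, IntermediateField.mem_fixedField_iff]
    intro f hf
    apply hcon
    exact (IntermediateField.mem_fixingSubgroup_iff _ _).mp hf θ (mem_adjoin_simple_self ℚ θ)
  obtain ⟨σ, hσl, hσθ⟩ := hσ
  obtain ⟨τ, hτθ, hτl⟩ := hτ
  refine ⟨σ, τ, fun hc => ?_⟩
  have h1 : RR θ (τ l) = RR θ l := by
    have h := congrArg (fun e : K ≃ₐ[ℚ] K => e θ) hc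
    simp only [AlgEquiv.mul_apply, hτθ, hσθ] at h
    rw [h]
    simp only [RR, s1, map_div₀, map_add, map_mul, map_pow, map_sub, map_neg, map_ofNat, hτθ]
  have h219 : (219 : K) ≠ 0 := by norm_num
  have h2 : s1 θ (τ l) = s1 θ l := by
    rw [RR, RR, div_left_inj' h219] at h1
    exact h1
  rw [s1_eq, s1_eq] at h2
  have h3 : (τ l - l) * (c1 θ + c2 θ * (l + τ l)) = 0 := by linear_combination h2
  rcases mul_eq_zero.mp h3 with h3 | h3
  · exact hτl (sub_eq_zero.mp h3)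
  have hc2 : c2 θ ≠ 0 := by
    intro h
    have := inv2 θ hθ
    rw [h, zero_mul] at this
    norm_num at this
  have hlt : RL (τ l) := by
    have : τ (l ^ 3 + l ^ 2 - 24 * l - 27) = τ 0 := congrArg τ hl
    simpa only [RL, map_sub, map_add, map_mul, map_pow, map_ofNat, map_zero] using this
  -- the third root
  have hm : RL (-1 - l - τ l) := by
    have h4 : (τ l - l) * (τ l ^ 2 + τ l * l + l ^ 2 + τ l + l - 24) = 0 := by
      unfold RL at hl hlt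
      linear_combination hlt - hl
    have h5 : τ l ^ 2 + τ l * l + l ^ 2 + τ l + l - 24 = 0 :=
      (mul_eq_zero.mp h4).resolve_left (sub_ne_zero.mpr hτl)
    unfold RL at hl ⊢
    linear_combination (-1 - 2 * l - τ l) * h5 + hl
  have h6 : -1 - l - τ l = -1 + c1 θ / c2 θ := by
    field_simp
    linear_combination -h3
  have hθm : θ ∈ ℚ⟮θ⟯ := mem_adjoin_simple_self ℚ θ
  have hc1m : c1 θ ∈ ℚ⟮θ⟯ := by
    have : c1 θ = ((c1 (AdjoinSimple.gen ℚ θ) : ℚ⟮θ⟯) : K) := rfl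
    rw [this]; exact Subtype.property _
  have hc2m : c2 θ ∈ ℚ⟮θ⟯ := by
    have : c2 θ = ((c2 (AdjoinSimple.gen ℚ θ) : ℚ⟮θ⟯) : K) := rfl
    rw [this]; exact Subtype.property _
  apply no_root θ hθ _ hm
  rw [h6]
  exact add_mem (neg_mem (one_mem _)) (div_mem hc1m hc2m)

end tower

/-- the field of degree 21 -/
theorem main : ∃ (K : Type) (_ : Field K) (_ : NumberField K) (θ l : K),
    IsGalois ℚ K ∧ finrank ℚ K = 21 ∧ RN θ ∧ RL l ∧ (∃ σ τ : K ≃ₐ[ℚ] K, σ * τ ≠ τ * σ) ∧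
      ∀ σ : K ≃ₐ[ℚ] K, σ θ = θ → σ l = l → σ = 1 := by
  obtain ⟨K, iF, iN, hS⟩ := exS (fQ * gQ)
  obtain ⟨⟨θ, hθ⟩, ⟨l, hl⟩⟩ := exists_roots K hS
  exact ⟨K, iF, iN, θ, l, galK hS, finK θ l hS hθ hl, hθ, hl, ncK θ l hS hθ hl,
    genK θ l hS hθ hl⟩

end Pool.Agent.H429.MZQ.FKN

namespace Pool.Agent.H429.MZQ

open Pool.Agent.Q5.MZ

/-- JOB MZ-FK: existence of the field `K` -/
theorem fk : Pool.Agent.Q5.MZ.S_FK := by
  obtain ⟨K, iF, iN, θ, l, h1, h2, h3, h4, h5, h6⟩ := FKN.main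
  exact ⟨K, iF, iN, θ, l, { gal := h1, deg := h2, rN := h3, rL := h4, nc := h5, gen := h6 }⟩

end Pool.Agent.H429.MZQ
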