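import Pool.Graph.R_pool_sql_team_seeded_3997aac3.Q123.MZ.FP
import Pool.Graph.R_pool_sql_team_seeded_3997aac3.Q5.MZ.Stm3

/-!
# Project MZ, job MZ-FL: class number one of the cubic field of conductor 73 (helper696)
-/

set_option autoImplicit false
set_option linter.unusedSectionVars false

namespace Pool.Agent.H429.MZQ

open Pool.Agent.Q5.MZ
open Polynomial NumberField IsDedekindDomain Module
open Pool.Agent.Q123.MZ (prinV_of_eq nu' nu'_mul nu'_ne_one)

namespace FLN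

/-- cubic polynomials -/
noncomputable def cub (b c d : ℤ) : ℤ[X] := X ^ 3 + C b * X ^ 2 + C c * X + C d

theorem cub_deg (b c d : ℤ) : (cub b c d).natDegree = 3 := by
  unfold cub
  compute_degree!

theorem cub_monic (b c d : ℤ) : (cub b c d).Monic := by
  unfold cub
  monicity!

theorem cub_eval (b c d r : ℤ) : (cub b c d).eval r = r ^ 3 + b * r ^ 2 + c * r + d := by
  unfold cub
  simp

theorem cub_coeff (b c d : ℤ) : (cub b c d).coeff 2 = b := by
  unfold cub
  simp only [coeff_add, coeff_C_mul, coeff_X_pow, coeff_X, coeff_C]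
  norm_num

theorem cub_irr (b c d : ℤ)
    (h : ∀ a : ZMod 2, a ^ 3 + (b : ZMod 2) * a ^ 2 + (c : ZMod 2) * a + (d : ZMod 2) ≠ 0) :
    Irreducible (cub b c d) := by
  have : Fact (Nat.Prime 2) := ⟨Nat.prime_two⟩
  refine (cub_monic b c d).irreducible_of_irreducible_map (Int.castRingHom (ZMod 2)) _ ?_
  have hm := (cub_monic b c d).map (Int.castRingHom (ZMod 2))
  have hd : ((cub b c d).map (Int.castRingHom (ZMod 2))).natDegree = 3 := by
    rw [(cub_monic b c d).natDegree_map, cub_deg]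
  rw [hm.irreducible_iff_roots_eq_zero_of_degree_le_three (by rw [hd]; norm_num) (by rw [hd])]
  refine Multiset.eq_zero_of_forall_notMem fun a ha => ?_
  have h1 := isRoot_of_mem_roots ha
  rw [IsRoot.def, eval_map] at h1
  unfold cub at h1
  simp only [eval₂_add, eval₂_mul, eval₂_pow, eval₂_X, eval₂_C] at h1
  exact h a h1

section

variable {L : Type} [Field L] [NumberField L]

theorem rank3 (hL : finrank ℚ L = 3) : finrank ℤ (𝓞 L) = 3 := by
  rw [RingOfIntegers.rank]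
  exact hL

theorem charpoly_eq (hL : finrank ℚ L = 3) {b c d : ℤ} (hirr : Irreducible (cub b c d))
    {θ : 𝓞 L} (ht : θ ^ 3 + (b : 𝓞 L) * θ ^ 2 + (c : 𝓞 L) * θ + (d : 𝓞 L) = 0) :
    (Algebra.lmul ℤ (𝓞 L) θ).charpoly = cub b c d := by
  have hF : aeval θ (cub b c d) = 0 := by
    unfold cub
    simp only [map_add, map_mul, map_pow, aeval_X, aeval_C]
    exact ht
  have hint : IsIntegral ℤ θ := ⟨cub b c d, cub_monic b c d, hF⟩
  have hmin : minpoly ℤ θ ∣ cub b c d := minpoly.isIntegrallyClosed_dvd hint hF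
  have hassoc : Associated (minpoly ℤ θ) (cub b c d) := by
    obtain ⟨q, hq⟩ := hmin
    rcases hirr.isUnit_or_isUnit hq with h | h
    · exact absurd h (minpoly.not_isUnit ℤ θ)
    · rw [hq]
      exact (associated_mul_unit_right _ _ h)
  set φ : Module.End ℤ (𝓞 L) := Algebra.lmul ℤ (𝓞 L) θ with hφ
  have hch : aeval θ φ.charpoly = 0 := by
    have h1 := LinearMap.aeval_self_charpoly φ
    have h2 : aeval φ φ.charpoly = Algebra.lmul ℤ (𝓞 L) (aeval θ φ.charpoly) := by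
      rw [hφ]
      exact (aeval_algHom_apply (Algebra.lmul ℤ (𝓞 L)) θ _)
    rw [h2] at h1
    have h3 := congrArg (fun L' : Module.End ℤ (𝓞 L) => L' 1) h1
    simpa using h3
  have h1 : cub b c d ∣ φ.charpoly :=
    hassoc.symm.dvd.trans (minpoly.isIntegrallyClosed_dvd hint hch)
  refine eq_of_monic_of_dvd_of_natDegree_le (cub_monic b c d) (LinearMap.charpoly_monic φ) h1 ?_
  rw [LinearMap.charpoly_natDegree, rank3 hL, cub_deg]

theorem norm_sub (hL : finrank ℚ L = 3) {b c d : ℤ} (hirr : Irreducible (cub b c d))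
    {θ : 𝓞 L} (ht : θ ^ 3 + (b : 𝓞 L) * θ ^ 2 + (c : 𝓞 L) * θ + (d : 𝓞 L) = 0) (r : ℤ) :
    Algebra.norm ℤ ((r : 𝓞 L) - θ) = r ^ 3 + b * r ^ 2 + c * r + d := by
  have h1 := LinearMap.eval_charpoly (Algebra.lmul ℤ (𝓞 L) θ) r
  rw [charpoly_eq hL hirr ht, cub_eval] at h1
  rw [h1, Algebra.norm_apply, map_sub]
  congr 2
  ext x
  simp

theorem trace_eq (hL : finrank ℚ L = 3) {b c d : ℤ} (hirr : Irreducible (cub b c d))
    {θ : 𝓞 L} (ht : θ ^ 3 + (b : 𝓞 L) * θ ^ 2 + (c : 𝓞 L) * θ + (d : 𝓞 L) = 0) :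
    Algebra.trace ℤ (𝓞 L) θ = -b := by
  set B := Module.finBasisOfFinrankEq ℤ (𝓞 L) (rank3 hL)
  rw [Algebra.trace_eq_matrix_trace B, Matrix.trace_eq_neg_charpoly_coeff]
  have h1 : (Algebra.leftMulMatrix B θ).charpoly = cub b c d := by
    rw [← charpoly_eq hL hirr ht]
    exact LinearMap.charpoly_toMatrix (Algebra.lmul ℤ (𝓞 L) θ) B
  rw [h1, Fintype.card_fin, cub_coeff]

/-- the generator of a prime ideal -/
theorem eq_span {I : Ideal (𝓞 L)} (hI : I ≠ ⊤) {x : 𝓞 L} (hx : x ∈ I) {p : ℕ} (hp : p.Prime)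
    (h2 : nu' x = p) : I = Ideal.span {x} := by
  have hle : Ideal.span {x} ≤ I := (Ideal.span_singleton_le_iff_mem _).2 hx
  obtain ⟨J, hJ⟩ := Ideal.dvd_iff_le.2 hle
  have h3 := congrArg Ideal.absNorm hJ
  rw [map_mul, Ideal.absNorm_span_singleton] at h3
  unfold nu' at h2
  rw [h2] at h3
  have h5 : Ideal.absNorm I ≠ 1 := fun h => hI (Ideal.absNorm_eq_one_iff.1 h)
  have h4 : Ideal.absNorm J = 1 := by
    rcases hp.eq_one_or_self_of_dvd _ (Dvd.intro _ h3.symm) with h6 | h6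
    · exact absurd h6 h5
    · rw [h6] at h3
      have h7 := hp.pos
      exact Nat.eq_of_mul_eq_mul_left h7 (by rw [← h3, mul_one])
  rw [Ideal.absNorm_eq_one_iff] at h4
  rw [hJ, h4, Ideal.mul_top]

theorem irrl : Irreducible (cub 1 (-24) (-27)) := cub_irr _ _ _ (by decide)

theorem irrw : Irreducible (cub (-16) 61 (-3)) := cub_irr _ _ _ (by decide)

/-- the integers `l` and `ω` -/
theorem exists_int {l : L} (hl : RootL l) : ∃ x w : 𝓞 L, 3 * w = x ^ 2 + x ∧ x * w = 8 * x + 9 ∧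
    w ^ 2 = 3 + 3 * x + 8 * w := by
  unfold RootL at hl
  set W : L := (l ^ 2 + l) / 3 with hW
  have h3 : (3 : L) ≠ 0 := by norm_num
  have e1 : 3 * W = l ^ 2 + l := by rw [hW]; field_simp
  have e2 : l * W = 8 * l + 9 := by
    apply mul_left_cancel₀ h3
    linear_combination l * e1 + hl
  have e3 : W ^ 2 = 3 + 3 * l + 8 * W := by
    apply mul_left_cancel₀ h3
    linear_combination W * e1 + (l + 1) * e2 - 8 * e1
  have e4 : W ^ 3 - 16 * W ^ 2 + 61 * W - 3 = 0 := by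
    linear_combination (W - 8) * e3 + 3 * e2
  have hil : IsIntegral ℤ l := by
    refine ⟨cub 1 (-24) (-27), cub_monic _ _ _, ?_⟩
    unfold cub
    simp only [eval₂_add, eval₂_mul, eval₂_pow, eval₂_X, eval₂_C]
    simp only [algebraMap_int_eq, eq_intCast]
    push_cast
    linear_combination hl
  have hiw : IsIntegral ℤ W := by
    refine ⟨cub (-16) 61 (-3), cub_monic _ _ _, ?_⟩
    unfold cub
    simp only [eval₂_add, eval₂_mul, eval₂_pow, eval₂_X, eval₂_C]
    simp only [algebraMap_int_eq, eq_intCast]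
    push_cast
    linear_combination e4
  obtain ⟨x, hx⟩ : ∃ x : 𝓞 L, algebraMap (𝓞 L) L x = l := ⟨⟨l, hil⟩, rfl⟩
  obtain ⟨w, hw⟩ : ∃ w : 𝓞 L, algebraMap (𝓞 L) L w = W := ⟨⟨W, hiw⟩, rfl⟩
  refine ⟨x, w, ?_, ?_, ?_⟩
  · apply FaithfulSMul.algebraMap_injective (𝓞 L) L
    simp only [map_mul, map_add, map_pow, map_ofNat, hx, hw]
    exact e1
  · apply FaithfulSMul.algebraMap_injective (𝓞 L) L
    simp only [map_mul, map_add, map_ofNat, hx, hw]
    exact e2
  · apply FaithfulSMul.algebraMap_injective (𝓞 L) L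
    simp only [map_mul, map_add, map_pow, map_ofNat, hx, hw]
    exact e3

variable {x w : 𝓞 L} (h1 : 3 * w = x ^ 2 + x) (h2 : x * w = 8 * x + 9)
  (h3 : w ^ 2 = 3 + 3 * x + 8 * w)

include h1 h2 in
theorem rootx : x ^ 3 + ((1 : ℤ) : 𝓞 L) * x ^ 2 + ((-24 : ℤ) : 𝓞 L) * x + ((-27 : ℤ) : 𝓞 L) = 0 := by
  push_cast
  linear_combination 3 * h2 - x * h1

include h2 h3 in
theorem rootw : w ^ 3 + ((-16 : ℤ) : 𝓞 L) * w ^ 2 + ((61 : ℤ) : 𝓞 L) * w + ((-3 : ℤ) : 𝓞 L) = 0 := by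
  push_cast
  linear_combination (w - 8) * h3 + 3 * h2

include h1 h2 h3 in
theorem discr_le (hL : finrank ℚ L = 3) : |discr L| ≤ 5329 := by
  have t0 : Algebra.trace ℤ (𝓞 L) 1 = 3 := by
    have := Algebra.trace_algebraMap_of_basis (Module.finBasisOfFinrankEq ℤ (𝓞 L) (rank3 hL)) 1
    rw [map_one] at this
    rw [this]
    simp
  have t1 : Algebra.trace ℤ (𝓞 L) x = -1 := trace_eq hL irrl (rootx h1 h2)
  have t2 : Algebra.trace ℤ (𝓞 L) w = 16 := by
    rw [trace_eq hL irrw (rootw h2 h3)]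
    norm_num
  have t3 : Algebra.trace ℤ (𝓞 L) (x * x) = 49 := by
    have e : x * x = (3 : ℤ) • w - x := by
      rw [zsmul_eq_mul]
      push_cast
      linear_combination -h1
    rw [e, map_sub, map_zsmul, t1, t2]
    norm_num
  have t4 : Algebra.trace ℤ (𝓞 L) (x * w) = 19 := by
    have e : x * w = (8 : ℤ) • x + (9 : ℤ) • 1 := by
      rw [zsmul_eq_mul, zsmul_eq_mul]
      push_cast
      linear_combination h2
    rw [e, map_add, map_zsmul, map_zsmul, t1, t0]
    norm_num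
  have t5 : Algebra.trace ℤ (𝓞 L) (w * w) = 134 := by
    have e : w * w = (3 : ℤ) • 1 + (3 : ℤ) • x + (8 : ℤ) • w := by
      rw [zsmul_eq_mul, zsmul_eq_mul, zsmul_eq_mul]
      push_cast
      linear_combination h3
    rw [e, map_add, map_add, map_zsmul, map_zsmul, map_zsmul, t1, t0, t2]
    norm_num
  set v : Fin 3 → 𝓞 L := ![1, x, w] with hv
  have hdet : Algebra.discr ℤ v = 5329 := by
    rw [Algebra.discr_def, Matrix.det_fin_three]
    simp only [Algebra.traceMatrix_apply, Algebra.traceForm_apply, hv, Matrix.cons_val_zero,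
      Matrix.cons_val_one, Matrix.cons_val, one_mul, mul_one, mul_comm w x]
    rw [t0, t1, t2, t3, t4, t5]
    norm_num
  set B := Module.finBasisOfFinrankEq ℤ (𝓞 L) (rank3 hL)
  have hB := Algebra.discr_of_matrix_vecMul B (B.toMatrix v)
  rw [Basis.toMatrix_map_vecMul, hdet, NumberField.discr_eq_discr L B] at hB
  set m : ℤ := (B.toMatrix v).det
  have hm : m ≠ 0 := by
    intro h
    rw [h] at hB
    norm_num at hB
  have hm1 : 1 ≤ m ^ 2 := by
    have := sq_pos_of_ne_zero hm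
    omega
  have habs : m ^ 2 * |discr L| = 5329 := by
    rw [← abs_of_nonneg (sq_nonneg m), ← abs_mul, ← hB]
    norm_num
  nlinarith [abs_nonneg (discr L)]

theorem nu'_nat (hL : finrank ℚ L = 3) (n : ℕ) : nu' ((n : ℕ) : 𝓞 L) = n ^ 3 := by
  unfold nu'
  rw [← Ideal.absNorm_span_singleton, Ideal.absNorm_span_natCast, RingOfIntegers.rank, hL]

include h1 h2 h3 in
theorem prod3 : (((0 : ℤ) : 𝓞 L) - w) * (((5 : ℤ) : 𝓞 L) - x) * (w - 11 - x) =
    ((3 : ℕ) : 𝓞 L) := by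
  push_cast
  linear_combination 8 * h1 + (13 - (11 + x - w)) * h2 - 5 * h3

include h1 h2 h3 in
theorem prod7 : (((10 : ℤ) : 𝓞 L) - w) * (((-5 : ℤ) : 𝓞 L) - x) * (1 + x - w) =
    ((7 : ℕ) : 𝓞 L) := by
  push_cast
  linear_combination 2 * h1 + (7 + (1 + x - w)) * h2 - 5 * h3

/-- three factors of prime norm -/
theorem three_factors (hL : finrank ℚ L = 3) {p : ℕ} (hp : p.Prime) {a b c : 𝓞 L}
    (hprod : a * b * c = ((p : ℕ) : 𝓞 L)) (ha : nu' a = p) (hb : nu' b = p)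
    (v : HeightOneSpectrum (𝓞 L)) (hv : ((p : ℕ) : 𝓞 L) ∈ v.asIdeal) : PrinV v := by
  have hc : nu' c = p := by
    have h4 := congrArg nu' hprod
    rw [nu'_mul, nu'_mul, ha, hb, nu'_nat hL] at h4
    have h5 := hp.pos
    exact Nat.eq_of_mul_eq_mul_left (Nat.mul_pos h5 h5) (by rw [h4]; ring)
  have hpr := v.isPrime
  rw [← hprod] at hv
  rcases hpr.mem_or_mem hv with h4 | h4
  · rcases hpr.mem_or_mem h4 with h5 | h5
    · exact prinV_of_eq v (eq_span hpr.ne_top h5 hp ha)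
    · exact prinV_of_eq v (eq_span hpr.ne_top h5 hp hb)
  · exact prinV_of_eq v (eq_span hpr.ne_top h4 hp hc)

include h1 h2 in
/-- the primes which have no divisor of degree one -/
theorem no_root {p : ℕ} (hp : p.Prime)
    (hdec : ∀ a : ZMod p, a ^ 3 + a ^ 2 - 24 * a - 27 ≠ 0) (κ : Type) [Field κ] [Fintype κ]
    [CharP κ p] (hcard : Fintype.card κ = p) (φ : 𝓞 L →+* κ) : False := by
  have : Fact p.Prime := ⟨hp⟩
  have hinj := (ZMod.castHom (dvd_refl p) κ).injective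
  have hsurj : Function.Surjective (ZMod.castHom (dvd_refl p) κ) :=
    (hinj.bijective_of_nat_card_le (by rw [Nat.card_eq_fintype_card, hcard, Nat.card_zmod])).2
  obtain ⟨z, hz⟩ := hsurj (φ x)
  apply hdec z
  apply hinj
  have h4 := congrArg φ (rootx h1 h2)
  simp only [map_add, map_mul, map_pow, map_intCast, map_zero] at h4
  rw [← hz] at h4
  simp only [map_sub, map_add, map_mul, map_pow, map_ofNat, map_zero]
  push_cast at h4
  linear_combination h4

theorem small (p : ℕ) (hp : p.Prime) (hple : p ≤ 16) (h2 : p ≠ 2) (h5 : p ≠ 5) (h11 : p ≠ 11)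
    (h13 : p ≠ 13) : p = 3 ∨ p = 7 := by
  interval_cases p <;> first | (left; rfl) | (right; rfl) | omega | exact absurd hp (by norm_num)

theorem primes (hL : finrank ℚ L = 3) {x w : 𝓞 L} (h1 : 3 * w = x ^ 2 + x)
    (h2 : x * w = 8 * x + 9) (h3 : w ^ 2 = 3 + 3 * x + 8 * w) (v : HeightOneSpectrum (𝓞 L))
    (hv2 : (2 : 𝓞 L) ∉ v.asIdeal) (hv : Ideal.absNorm v.asIdeal ≤ 16) : PrinV v := by
  have hmax : v.asIdeal.IsMaximal := v.isMaximal
  let _ := Ideal.Quotient.field v.asIdeal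
  have hcard : Ideal.absNorm v.asIdeal = Nat.card (𝓞 L ⧸ v.asIdeal) := rfl
  have hfin : Finite (𝓞 L ⧸ v.asIdeal) := by
    rw [← Ideal.absNorm_ne_zero_iff]
    intro h
    rw [Ideal.absNorm_eq_zero_iff] at h
    exact v.ne_bot h
  have := Fintype.ofFinite (𝓞 L ⧸ v.asIdeal)
  obtain ⟨p, hch, n, hp, hcd⟩ := FiniteField.card' (𝓞 L ⧸ v.asIdeal)
  rw [hcard, Nat.card_eq_fintype_card, hcd] at hv
  have hn : 1 ≤ (n : ℕ) := n.2
  have hp0 : ((p : ℕ) : 𝓞 L) ∈ v.asIdeal := by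
    rw [← Ideal.Quotient.eq_zero_iff_mem, map_natCast]
    exact CharP.cast_eq_zero (𝓞 L ⧸ v.asIdeal) p
  have hple : p ≤ 16 := by
    calc p = p ^ 1 := (pow_one p).symm
      _ ≤ p ^ (n : ℕ) := Nat.pow_le_pow_right hp.pos hn
      _ ≤ 16 := hv
  have hn1 : 5 ≤ p → (n : ℕ) = 1 := by
    intro h5
    by_contra hne
    have h6 : 2 ≤ (n : ℕ) := by omega
    have h7 : 5 ^ 2 ≤ p ^ (n : ℕ) :=
      (Nat.pow_le_pow_left h5 2).trans (Nat.pow_le_pow_right hp.pos h6)
    omega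
  have hex : p ≠ 5 ∧ p ≠ 11 ∧ p ≠ 13 := by
    refine ⟨?_, ?_, ?_⟩
    · rintro rfl
      rw [hn1 le_rfl, pow_one] at hcd
      exact no_root h1 h2 hp (by decide) _ hcd (Ideal.Quotient.mk v.asIdeal)
    · rintro rfl
      rw [hn1 (by norm_num), pow_one] at hcd
      exact no_root h1 h2 hp (by decide) _ hcd (Ideal.Quotient.mk v.asIdeal)
    · rintro rfl
      rw [hn1 (by norm_num), pow_one] at hcd
      exact no_root h1 h2 hp (by decide) _ hcd (Ideal.Quotient.mk v.asIdeal)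
  have h37 : p = 3 ∨ p = 7 := by
    have hp2 : p ≠ 2 := by
      rintro rfl
      exact hv2 (by exact_mod_cast hp0)
    exact small p hp hple hp2 hex.1 hex.2.1 hex.2.2
  rcases h37 with rfl | rfl
  · refine three_factors hL hp (prod3 h1 h2 h3) ?_ ?_ v hp0
    · unfold nu'
      rw [norm_sub hL irrw (rootw h2 h3)]
      norm_num
    · unfold nu'
      rw [norm_sub hL irrl (rootx h1 h2)]
      norm_num
  · refine three_factors hL hp (prod7 h1 h2 h3) ?_ ?_ v hp0
    · unfold nu'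
      rw [norm_sub hL irrw (rootw h2 h3)]
      norm_num
    · unfold nu'
      rw [norm_sub hL irrl (rootx h1 h2)]
      norm_num

end

end FLN

/-- **MZ-FL** -/
theorem fl : Pool.Agent.Q5.MZ.J_FL := by
  intro hFM L _ _ l hL hl htr
  obtain ⟨x, w, h1, h2, h3⟩ := FLN.exists_int hl
  refine hFM L 16 htr ?_ (fun v hv2 hv => FLN.primes hL h1 h2 h3 v hv2 hv)
  have h4 : (|(discr L : ℝ)|) ≤ 73 ^ 2 := by
    have h5 := FLN.discr_le h1 h2 h3 hL
    have h6 : ((|discr L| : ℤ) : ℝ) ≤ 5329 := by exact_mod_cast h5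
    rw [Int.cast_abs] at h6
    linarith
  have h5 : Real.sqrt |(discr L : ℝ)| ≤ 73 := by
    rw [Real.sqrt_le_left (by norm_num)]
    exact h4
  rw [hL]
  have h6 : ((Nat.factorial 3 : ℕ) : ℝ) = 6 := by norm_num [Nat.factorial]
  rw [h6]
  push_cast
  linarith

end Pool.Agent.H429.MZQ
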