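import Pool.Graph.R_pool_sql_team_seeded_3997aac3.Q5.MZ.Stm3

/-!
# Class number one of the septic field away from `2`
-/

set_option autoImplicit false

namespace Pool.Agent.H429.MZQ

open NumberField IsDedekindDomain Module Polynomial
open Pool.Agent.Q5.MZ

namespace FNN

theorem integral {N : Type} [Field N] [NumberField N] (θ : N) (h : RootN θ) : IsIntegral ℤ θ := by
  refine ⟨X ^ 7 - C 8 * X ^ 5 - C 2 * X ^ 4 + C 16 * X ^ 3 + C 6 * X ^ 2 - C 6 * X - C 2, ?_, ?_⟩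
  · monicity!
  · unfold RootN at h
    simpa [eval₂_sub, eval₂_add, eval₂_mul, eval₂_pow, eval₂_X, eval₂_C] using h

theorem lift {N : Type} [Field N] [NumberField N] (θ : N) (h : RootN θ) :
    ∃ t : 𝓞 N, RootN t := by
  refine ⟨⟨θ, integral θ h⟩, ?_⟩
  unfold RootN at h ⊢
  apply RingOfIntegers.coe_injective
  simp only [map_sub, map_add, map_mul, map_pow, map_ofNat, map_zero]
  exact h

theorem bound {x : ℝ} (hx : |x| ≤ 1817487424) :
    ((Nat.factorial 7 : ℕ) : ℝ) / ((7 : ℕ) : ℝ) ^ 7 * Real.sqrt |x| < ((260 : ℕ) : ℝ) + 1 := by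
  have h1 : Real.sqrt |x| ≤ 42632 := by
    rw [Real.sqrt_le_left (by norm_num)]
    norm_num
    exact hx
  have h2 : (Nat.factorial 7 : ℕ) = 5040 := by decide
  rw [h2]
  push_cast
  have h3 : (5040 : ℝ) / 7 ^ 7 * Real.sqrt |x| ≤ 5040 / 7 ^ 7 * 42632 :=
    mul_le_mul_of_nonneg_left h1 (by norm_num)
  refine lt_of_le_of_lt h3 ?_
  norm_num

end FNN

open FNN in
theorem fn : Pool.Agent.Q5.MZ.J_FN := by
  intro hFD hFM hFP N _ _ θ hdeg hroot hreal
  obtain ⟨t, ht⟩ := lift θ hroot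
  refine hFM N 260 hreal ?_ fun v hv hn => hFP N t v hdeg ht hv hn
  rw [hdeg]
  have h := hFD N θ hdeg hroot
  apply bound
  have h' : ((|discr N| : ℤ) : ℝ) ≤ ((1817487424 : ℤ) : ℝ) := by exact_mod_cast h
  push_cast at h'
  exact h'

end Pool.Agent.H429.MZQ
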