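import Pool.Graph.R_pool_sql_team_seeded_3997aac3.Q5.MZ.Stm3

/-!
# Project MZQ (helper429): job MZ-FO, one prime above `2` in the field of degree 21
-/

set_option autoImplicit false

namespace Pool.Agent.H429.MZQ.FON

open NumberField IsDedekindDomain Module Ideal UniqueFactorizationMonoid

variable {K : Type} [Field K] [NumberField K]

omit [NumberField K] in
theorem int_theta (x : K) (h : x ^ 7 - 8 * x ^ 5 - 2 * x ^ 4 + 16 * x ^ 3 + 6 * x ^ 2 - 6 * x - 2 = 0) :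
    IsIntegral ℤ x := by
  refine ⟨Polynomial.X ^ 7 + (- 8 * Polynomial.X ^ 5 - 2 * Polynomial.X ^ 4 + 16 * Polynomial.X ^ 3 +
    6 * Polynomial.X ^ 2 - 6 * Polynomial.X - 2), ?_, ?_⟩
  · apply Polynomial.monic_X_pow_add
    compute_degree
    norm_num
  · simp only [Polynomial.eval₂_add, Polynomial.eval₂_sub, Polynomial.eval₂_mul, Polynomial.eval₂_pow,
      Polynomial.eval₂_X, Polynomial.eval₂_neg, Polynomial.eval₂_ofNat]
    linear_combination h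

omit [NumberField K] in
theorem int_l (x : K) (h : x ^ 3 + x ^ 2 - 24 * x - 27 = 0) : IsIntegral ℤ x := by
  refine ⟨Polynomial.X ^ 3 + (Polynomial.X ^ 2 - 24 * Polynomial.X - 27), ?_, ?_⟩
  · apply Polynomial.monic_X_pow_add
    compute_degree
    norm_num
  · simp only [Polynomial.eval₂_add, Polynomial.eval₂_sub, Polynomial.eval₂_mul, Polynomial.eval₂_pow,
      Polynomial.eval₂_X, Polynomial.eval₂_ofNat]
    linear_combination h

theorem three_dvd (f : ℕ) (h : 7 ∣ 2 ^ f - 1) : 3 ∣ f := by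
  obtain ⟨q, r, hr, rfl⟩ : ∃ q r : ℕ, r < 3 ∧ f = 3 * q + r :=
    ⟨f / 3, f % 3, Nat.mod_lt _ (by norm_num), (Nat.div_add_mod f 3).symm⟩
  have h1 : 1 ≤ 2 ^ (3 * q + r) := Nat.one_le_two_pow
  have h2 : (2 ^ (3 * q + r)) % 7 = 1 := by omega
  have h3 : (2 ^ (3 * q)) % 7 = 1 := by
    rw [pow_mul, Nat.pow_mod]
    norm_num
  rw [pow_add, Nat.mul_mod, h3] at h2
  interval_cases r
  · exact dvd_mul_right _ _
  · norm_num at h2
  · norm_num at h2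

/-- the ramification index is divisible by `7` -/
theorem ram (θ : 𝓞 K)
    (h : θ ^ 7 - 8 * θ ^ 5 - 2 * θ ^ 4 + 16 * θ ^ 3 + 6 * θ ^ 2 - 6 * θ - 2 = 0)
    (P : Ideal (𝓞 K)) (hP : P.IsPrime) (h2 : (2 : 𝓞 K) ∈ P) :
    7 ∣ Multiset.count P (normalizedFactors (Ideal.span {(2 : 𝓞 K)})) := by
  have hθ0 : θ ≠ 0 := by
    rintro rfl
    have : (2 : 𝓞 K) = 0 := by linear_combination -h
    exact two_ne_zero this
  obtain ⟨u, hu⟩ : ∃ u : 𝓞 K, u = 4 * θ ^ 5 + θ ^ 4 - 8 * θ ^ 3 - 3 * θ ^ 2 + 3 * θ + 1 := ⟨_, rfl⟩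
  have hθu : θ ^ 7 = 2 * u := by rw [hu]; linear_combination h
  have hu0 : u ≠ 0 := by
    rintro rfl
    rw [mul_zero] at hθu
    exact hθ0 (pow_eq_zero_iff (by norm_num) |>.1 hθu)
  have hθP : θ ∈ P := by
    apply hP.mem_of_pow_mem 7
    rw [hθu]
    exact P.mul_mem_right u h2
  have huP : u ∉ P := by
    intro huP
    apply hP.ne_top
    rw [Ideal.eq_top_iff_one]
    have : (1 : 𝓞 K) = u - θ * (4 * θ ^ 4 + θ ^ 3 - 8 * θ ^ 2 - 3 * θ + 3) := by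
      rw [hu]; ring
    rw [this]
    exact P.sub_mem huP (P.mul_mem_right _ hθP)
  have hI : Ideal.span {θ} ^ 7 = Ideal.span {(2 : 𝓞 K)} * Ideal.span {u} := by
    rw [Ideal.span_singleton_pow, Ideal.span_singleton_mul_span_singleton, hθu]
  have hs2 : Ideal.span {(2 : 𝓞 K)} ≠ 0 := by
    rw [Ne, Ideal.zero_eq_bot, Ideal.span_singleton_eq_bot]
    exact two_ne_zero
  have hsu : Ideal.span {u} ≠ 0 := by
    rw [Ne, Ideal.zero_eq_bot, Ideal.span_singleton_eq_bot]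
    exact hu0
  have hnf := congrArg (fun I : Ideal (𝓞 K) => Multiset.count P (normalizedFactors I)) hI
  simp only [normalizedFactors_pow, normalizedFactors_mul hs2 hsu, Multiset.count_nsmul,
    Multiset.count_add] at hnf
  have h0 : Multiset.count P (normalizedFactors (Ideal.span {u})) = 0 := by
    rw [Multiset.count_eq_zero]
    intro hmem
    have h3 := dvd_of_mem_normalizedFactors hmem
    rw [Ideal.dvd_span_singleton] at h3
    exact huP h3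
  rw [h0, add_zero] at hnf
  exact ⟨_, hnf.symm⟩

/-- the residue degree is divisible by `3` -/
theorem inert (l : 𝓞 K) (h : l ^ 3 + l ^ 2 - 24 * l - 27 = 0)
    (P : Ideal (𝓞 K)) [hPm : P.IsMaximal] (hP0 : P ≠ ⊥) (h2 : (2 : 𝓞 K) ∈ P) (f : ℕ)
    (hf : Ideal.absNorm P = 2 ^ f) : 3 ∣ f := by
  let _ : Field (𝓞 K ⧸ P) := Ideal.Quotient.field P
  have hfin : Finite (𝓞 K ⧸ P) := Ideal.finiteQuotientOfFreeOfNeBot P hP0
  obtain ⟨y, hy⟩ : ∃ y : 𝓞 K ⧸ P, y = Ideal.Quotient.mk P l := ⟨_, rfl⟩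
  have e2 : (2 : 𝓞 K ⧸ P) = 0 := by
    have := Ideal.Quotient.eq_zero_iff_mem.2 h2
    rw [map_ofNat] at this
    exact this
  have hg : y ^ 3 + y ^ 2 - 24 * y - 27 = 0 := by
    have h3 := congrArg (Ideal.Quotient.mk P) h
    simp only [map_add, map_sub, map_mul, map_pow, map_ofNat, map_zero] at h3
    rw [← hy] at h3
    exact h3
  have hy7 : y ^ 7 = 1 := by
    linear_combination (y ^ 4 + y ^ 3 + y ^ 2 + 2 * y + 1) * hg +
      ((y ^ 4 + y ^ 3 + y ^ 2 + 2 * y + 1) * (12 * y + 14) -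
        (y ^ 6 + y ^ 5 + 2 * y ^ 4 + 2 * y ^ 3 + y ^ 2 + y + 1)) * e2
  have hy1 : y ≠ 1 := by
    rintro h1
    rw [h1] at hg
    have : (1 : 𝓞 K ⧸ P) = 0 := by linear_combination -hg - 24 * e2
    exact one_ne_zero this
  have hy0 : y ≠ 0 := by
    intro h0
    rw [h0] at hy7
    norm_num at hy7
  obtain ⟨z, hz⟩ : ∃ z : (𝓞 K ⧸ P)ˣ, (z : 𝓞 K ⧸ P) = y := ⟨Units.mk0 y hy0, rfl⟩
  have hz7 : z ^ 7 = 1 := by
    apply Units.ext
    push_cast
    rw [hz, hy7]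
  have hz1 : z ≠ 1 := by
    rintro rfl
    exact hy1 (by rw [← hz]; rfl)
  have : Fact (Nat.Prime 7) := ⟨by norm_num⟩
  have ho : orderOf z = 7 := orderOf_eq_prime hz7 hz1
  have hd : 7 ∣ Nat.card (𝓞 K ⧸ P)ˣ := by
    rw [← ho]
    exact orderOf_dvd_natCard z
  have hc : Nat.card (𝓞 K ⧸ P) = 2 ^ f := by
    rw [← hf, Ideal.absNorm_apply, Submodule.cardQuot_apply]
  rw [Nat.card_units, hc] at hd
  exact three_dvd f hd


theorem main [IsGalois ℚ K] (hdeg : finrank ℚ K = 21) (θ l : 𝓞 K)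
    (hθ : θ ^ 7 - 8 * θ ^ 5 - 2 * θ ^ 4 + 16 * θ ^ 3 + 6 * θ ^ 2 - 6 * θ - 2 = 0)
    (hl : l ^ 3 + l ^ 2 - 24 * l - 27 = 0) :
    ∃! v : HeightOneSpectrum (𝓞 K), (2 : 𝓞 K) ∈ v.asIdeal := by
  have hG : IsGaloisGroup (K ≃ₐ[ℚ] K) ℤ (𝓞 K) :=
    IsGaloisGroup.of_isFractionRing (K ≃ₐ[ℚ] K) ℤ (𝓞 K) ℚ K
  have hp2 : Prime (2 : ℤ) := Int.prime_two
  obtain ⟨p, hp⟩ : ∃ p : Ideal ℤ, p = Ideal.span {(2 : ℤ)} := ⟨_, rfl⟩
  have hpp : p.IsPrime := by
    rw [hp, Ideal.span_singleton_prime (by norm_num)]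
    exact hp2
  have hp0 : p ≠ ⊥ := by
    rw [hp, Ne, Ideal.span_singleton_eq_bot]
    norm_num
  have hpm : p.IsMaximal := hpp.isMaximal hp0
  have hmap : p.map (algebraMap ℤ (𝓞 K)) = Ideal.span {(2 : 𝓞 K)} := by
    rw [hp, Ideal.map_span, Set.image_singleton]
    simp
  have hcard := Ideal.ncard_primesOver_mul_ramificationIdxIn_mul_inertiaDegIn p (𝓞 K) (K ≃ₐ[ℚ] K)
  rw [IsGaloisGroup.card_eq_finrank (K ≃ₐ[ℚ] K) ℚ K, hdeg] at hcard
  have hne : (p.primesOver (𝓞 K)).ncard ≠ 0 := by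
    intro h0
    rw [h0, zero_mul] at hcard
    norm_num at hcard
  have hmem2 : ∀ P ∈ p.primesOver (𝓞 K), (2 : 𝓞 K) ∈ P := by
    rintro P ⟨_, hPl⟩
    have h1 : (2 : ℤ) ∈ P.under ℤ := by
      rw [← hPl.over, hp]
      exact Ideal.mem_span_singleton_self _
    have h2 : algebraMap ℤ (𝓞 K) 2 ∈ P := h1
    simpa using h2
  have hover : ∀ P : Ideal (𝓞 K), P.IsPrime → (2 : 𝓞 K) ∈ P → P ∈ p.primesOver (𝓞 K) := by
    intro P hP h2
    refine ⟨hP, ⟨?_⟩⟩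
    apply hpm.eq_of_le
    · exact (Ideal.IsPrime.under ℤ P).ne_top
    · rw [hp, Ideal.span_singleton_le_iff_mem]
      have : algebraMap ℤ (𝓞 K) 2 ∈ P := by simpa using h2
      exact this
  obtain ⟨P, hPo⟩ := Set.nonempty_of_ncard_ne_zero hne
  have h2P := hmem2 P hPo
  have hPp : P.IsPrime := hPo.1
  have hPl : P.LiesOver p := hPo.2
  have hP0 : P ≠ ⊥ := by
    rintro rfl
    rw [Ideal.mem_bot] at h2P
    exact two_ne_zero h2P
  have hPm : P.IsMaximal := hPp.isMaximal hP0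
  have he : 7 ∣ p.ramificationIdxIn (𝓞 K) := by
    rw [Ideal.ramificationIdxIn_eq_ramificationIdx p P (K ≃ₐ[ℚ] K),
      Ideal.IsDedekindDomain.ramificationIdx_eq_normalizedFactors_count p P
        (by rw [hmap, Ne, Ideal.span_singleton_eq_bot]; exact two_ne_zero), hmap]
    exact ram θ hθ P hPp h2P
  have hf : 3 ∣ p.inertiaDegIn (𝓞 K) := by
    rw [Ideal.inertiaDegIn_eq_inertiaDeg p P (K ≃ₐ[ℚ] K), ← Ideal.inertiaDeg'_eq_inertiaDeg p P]
    apply inert l hl P hP0 h2P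
    have hPl' : P.LiesOver (Ideal.span {(2 : ℤ)}) := by rw [← hp]; exact hPl
    have := Ideal.absNorm_eq_pow_inertiaDeg P hp2
    rw [hp, this]
    rfl
  have h1 : (p.primesOver (𝓞 K)).ncard = 1 := by
    obtain ⟨a, ha⟩ := he
    obtain ⟨b, hb⟩ := hf
    rw [ha, hb] at hcard
    have h3 : (p.primesOver (𝓞 K)).ncard * (a * b) = 1 := by
      have : (p.primesOver (𝓞 K)).ncard * (7 * a * (3 * b)) =
        21 * ((p.primesOver (𝓞 K)).ncard * (a * b)) := by ring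
      omega
    exact Nat.eq_one_of_mul_eq_one_right h3
  rw [Set.ncard_eq_one] at h1
  obtain ⟨Q, hQ⟩ := h1
  refine ⟨⟨P, hPp, hP0⟩, h2P, ?_⟩
  intro v hv
  have h4 : v.asIdeal ∈ p.primesOver (𝓞 K) := hover _ v.isPrime hv
  apply HeightOneSpectrum.ext
  rw [hQ, Set.mem_singleton_iff] at h4 hPo
  exact h4.trans hPo.symm

end Pool.Agent.H429.MZQ.FON

namespace Pool.Agent.H429.MZQ

open NumberField IsDedekindDomain Module

theorem fo : Pool.Agent.Q5.MZ.S_FO := by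
  intro K _ _ θ l h
  have hgal : IsGalois ℚ K := h.gal
  have hθ : θ ^ 7 - 8 * θ ^ 5 - 2 * θ ^ 4 + 16 * θ ^ 3 + 6 * θ ^ 2 - 6 * θ - 2 = 0 := h.rN
  have hl : l ^ 3 + l ^ 2 - 24 * l - 27 = 0 := h.rL
  obtain ⟨θ', hθ'⟩ : ∃ y : 𝓞 K, (y : K) = θ := ⟨⟨θ, FON.int_theta θ hθ⟩, rfl⟩
  obtain ⟨l', hl'⟩ : ∃ y : 𝓞 K, (y : K) = l := ⟨⟨l, FON.int_l l hl⟩, rfl⟩
  rw [← hθ'] at hθ
  rw [← hl'] at hl
  have hinj : Function.Injective (algebraMap (𝓞 K) K) := FaithfulSMul.algebraMap_injective _ _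
  refine FON.main h.deg θ' l' (hinj ?_) (hinj ?_)
  · simp only [map_add, map_sub, map_mul, map_pow, map_ofNat, map_zero]
    exact hθ
  · simp only [map_add, map_sub, map_mul, map_pow, map_ofNat, map_zero]
    exact hl

end Pool.Agent.H429.MZQ
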