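import Pool.Graph.R_pool_sql_team_seeded_3997aac3.Q5.MZ.Stm3
import Pool.Graph.R_pool_sql_team_seeded_3997aac3.Q182.AR.Base

/-!
# Project MZQ, job FQ: the prime `(p, m(θ))` is principal away from `2` (helper390)
-/

set_option autoImplicit false
set_option linter.unusedSectionVars false

namespace Pool.Agent.H429.MZQ

open NumberField IsDedekindDomain Module Polynomial
open Pool.Agent.Q5.MZ
open Pool.Agent.Q92.AR (Dv prin)

namespace FQN

/-- evaluation commutes with homomorphisms -/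
theorem evL_map {R S : Type} [CommRing R] [CommRing S] (φ : R →+* S) (t : R) (a : List ℤ) :
    φ (evL t a) = evL (φ t) a := by
  induction a with
  | nil => exact map_zero φ
  | cons x a ih => rw [evL, map_add, map_mul, ih, evL, map_intCast]

/-- the septic polynomial -/
noncomputable def fp : ℤ[X] :=
  X ^ 7 - C 8 * X ^ 5 - C 2 * X ^ 4 + C 16 * X ^ 3 + C 6 * X ^ 2 - C 6 * X - C 2

theorem fp_natDegree : fp.natDegree = 7 := by
  unfold fp
  compute_degree!

theorem fp_monic : fp.Monic := by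
  unfold fp
  monicity!

theorem fp_irr : Irreducible fp := by
  have hP : (Ideal.span {(2 : ℤ)}).IsPrime := by
    rw [Ideal.span_singleton_prime (by norm_num)]
    exact Int.prime_two
  refine Polynomial.irreducible_of_eisenstein_criterion hP ?_ ?_ ?_ ?_ fp_monic.isPrimitive
  · rw [fp_monic.leadingCoeff, Ideal.mem_span_singleton]
    norm_num
  · intro n hn
    rw [Polynomial.degree_eq_natDegree fp_monic.ne_zero, fp_natDegree] at hn
    have hn' : n < 7 := by exact_mod_cast hn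
    rw [Ideal.mem_span_singleton]
    unfold fp
    interval_cases n <;>
      simp [coeff_X, coeff_X_pow]
  · rw [Polynomial.degree_eq_natDegree fp_monic.ne_zero, fp_natDegree]
    norm_num
  · rw [Ideal.span_singleton_pow, Ideal.mem_span_singleton]
    unfold fp
    simp [coeff_X, coeff_X_pow]

section
variable {N : Type} [Field N] [NumberField N] {θ : 𝓞 N}

theorem aeval_fp (h : RootN θ) : aeval θ fp = 0 := by
  unfold RootN at h
  unfold fp
  simp only [map_sub, map_add, map_mul, map_pow, aeval_X, aeval_C]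
  simp only [eq_intCast]
  push_cast
  linear_combination h

theorem minpoly_eq (h : RootN θ) : minpoly ℤ θ = fp := by
  have hi : IsIntegral ℤ θ := RingOfIntegers.isIntegral θ
  have hd : minpoly ℤ θ ∣ fp := minpoly.isIntegrallyClosed_dvd hi (aeval_fp h)
  exact eq_of_monic_of_associated (minpoly.monic hi) fp_monic
    ((minpoly.irreducible hi).associated_of_dvd fp_irr hd)

theorem adjoin_top (hd : finrank ℚ N = 7) (h : RootN θ) :
    Algebra.adjoin ℚ {algebraMap (𝓞 N) N θ} = ⊤ := by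
  have hi : IsIntegral ℤ θ := RingOfIntegers.isIntegral θ
  have hiQ : IsIntegral ℚ (algebraMap (𝓞 N) N θ) := Algebra.IsIntegral.isIntegral _
  have h1 : minpoly ℚ (algebraMap (𝓞 N) N θ) = (minpoly ℤ θ).map (algebraMap ℤ ℚ) :=
    minpoly.isIntegrallyClosed_eq_field_fractions ℚ N hi
  have h2 : (minpoly ℚ (algebraMap (𝓞 N) N θ)).natDegree = finrank ℚ N := by
    rw [h1, minpoly_eq h, fp_monic.natDegree_map, fp_natDegree, hd]
  have h3 := (Field.primitive_element_iff_minpoly_natDegree_eq ℚ (algebraMap (𝓞 N) N θ)).2 h2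
  rw [← IntermediateField.adjoin_simple_toSubalgebra_of_isAlgebraic hiQ.isAlgebraic, h3]
  rfl

/-- `146 b` is a polynomial in `θ` -/
theorem mul_mem (hd : finrank ℚ N = 7) (h : RootN θ) (b : 𝓞 N) :
    ∃ g : ℤ[X], 146 * b = aeval θ g := by
  have h1 := conductor_mul_differentIdeal ℤ ℚ N θ (adjoin_top hd h)
  have h2 : aeval θ (derivative (minpoly ℤ θ)) ∈ conductor ℤ θ := by
    have h3 : aeval θ (derivative (minpoly ℤ θ)) ∈
        Ideal.span {aeval θ (derivative (minpoly ℤ θ))} := Ideal.mem_span_singleton_self _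
    rw [← h1] at h3
    have h4 : conductor ℤ θ * differentIdeal ℤ (𝓞 N) ≤ conductor ℤ θ := Ideal.mul_le_left
    exact h4 h3
  rw [minpoly_eq h, mem_conductor_iff] at h2
  have h3 := h2 b
  rw [Algebra.adjoin_singleton_eq_range_aeval] at h3
  obtain ⟨g, hg⟩ := h3
  have h4 : aeval θ (derivative fp) = 7 * θ ^ 6 - 40 * θ ^ 4 - 8 * θ ^ 3 + 48 * θ ^ 2 +
      12 * θ - 6 := by
    unfold fp
    simp only [derivative_mul, derivative_X_pow, derivative_C,
      derivative_X, map_sub, map_add, map_mul, map_pow, aeval_X, aeval_C, map_one, map_zero]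
    simp only [eq_intCast]
    push_cast
    ring
  refine ⟨(C (-50) - C 15 * X + C 186 * X ^ 2 + C 29 * X ^ 3 - C 104 * X ^ 4 - C 8 * X ^ 5 +
    C 14 * X ^ 6) * g, ?_⟩
  have hg' : aeval θ g = aeval θ (derivative fp) * b := hg
  rw [map_mul, hg', h4]
  simp only [map_sub, map_add, map_mul, map_pow, aeval_X, aeval_C]
  simp only [eq_intCast]
  push_cast
  unfold RootN at h
  linear_combination (77 - 486 * θ - 159 * θ ^ 2 + 504 * θ ^ 3 + 56 * θ ^ 4 - 98 * θ ^ 5) * b * h

/-- polynomials which vanish modulo `p` -/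
theorem mem_of_map {p : ℕ} {r : ℤ[X]} (hr : r.map (Int.castRingHom (ZMod p)) = 0) :
    aeval θ r ∈ Ideal.span {(p : 𝓞 N)} := by
  have h1 : C (p : ℤ) ∣ r := by
    rw [Polynomial.C_dvd_iff_dvd_coeff]
    intro i
    have h2 := congrArg (fun q : (ZMod p)[X] => q.coeff i) hr
    simp only [coeff_map, coeff_zero] at h2
    exact (ZMod.intCast_zmod_eq_zero_iff_dvd _ _).1 h2
  obtain ⟨q, hq⟩ := h1
  rw [hq, map_mul, aeval_C, Ideal.mem_span_singleton]
  refine ⟨aeval θ q, ?_⟩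
  simp

/-- the ideal `(p, m(θ))` -/
theorem ideal_le {p : ℕ} (hp : p.Prime) (hp2 : p ≠ 2) (hp73 : p ≠ 73) (hd : finrank ℚ N = 7)
    (h : RootN θ) {m : List ℤ} (hm : Irreducible (evL (X : (ZMod p)[X]) m)) {v : Ideal (𝓞 N)}
    (hv : v ≠ ⊤) (hpv : ((p : ℕ) : 𝓞 N) ∈ v) (hmv : evL θ m ∈ v) :
    ∀ x ∈ v, x ∈ Ideal.span {((p : ℕ) : 𝓞 N), evL θ m} := by
  intro x hx
  have : Fact p.Prime := ⟨hp⟩
  obtain ⟨g, hg⟩ := mul_mem hd h x
  obtain ⟨m₀, hm₀⟩ : ∃ m₀ : ℤ[X], m₀ = evL (X : ℤ[X]) m := ⟨_, rfl⟩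
  have hmθ : aeval θ m₀ = evL θ m := by
    rw [hm₀]
    have h1 := evL_map (aeval θ : ℤ[X] →ₐ[ℤ] 𝓞 N).toRingHom X m
    have h2 : (aeval θ : ℤ[X] →ₐ[ℤ] 𝓞 N).toRingHom X = θ := aeval_X θ
    rw [h2] at h1
    exact h1
  have hmp : m₀.map (Int.castRingHom (ZMod p)) = evL (X : (ZMod p)[X]) m := by
    rw [hm₀]
    have h1 := evL_map (mapRingHom (Int.castRingHom (ZMod p))) X m
    rw [coe_mapRingHom, map_X] at h1
    exact h1
  have hlift : ∀ q : (ZMod p)[X], ∃ q₀ : ℤ[X], q₀.map (Int.castRingHom (ZMod p)) = q :=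
    fun q => Polynomial.map_surjective _ (ZMod.ringHom_surjective _) q
  have hgv : aeval θ g ∈ v := by
    rw [← hg]
    exact v.mul_mem_left _ hx
  have hpI : ((p : ℕ) : 𝓞 N) ∈ Ideal.span {((p : ℕ) : 𝓞 N), evL θ m} :=
    Ideal.subset_span (by simp)
  have hmI : evL θ m ∈ Ideal.span {((p : ℕ) : 𝓞 N), evL θ m} :=
    Ideal.subset_span (by simp)
  by_cases hdvd : evL (X : (ZMod p)[X]) m ∣ g.map (Int.castRingHom (ZMod p))
  · obtain ⟨k, hk⟩ := hdvd
    obtain ⟨k₀, hk₀⟩ := hlift k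
    have h1 : (g - m₀ * k₀).map (Int.castRingHom (ZMod p)) = 0 := by
      rw [Polynomial.map_sub, Polynomial.map_mul, hmp, hk₀, hk, sub_self]
    have h2 := mem_of_map (θ := θ) h1
    rw [map_sub, map_mul, hmθ] at h2
    have h3 : aeval θ g ∈ Ideal.span {((p : ℕ) : 𝓞 N), evL θ m} := by
      have h4 : aeval θ g = (aeval θ g - evL θ m * aeval θ k₀) + evL θ m * aeval θ k₀ := by ring
      rw [h4]
      refine Ideal.add_mem _ ?_ (Ideal.mul_mem_right _ _ hmI)
      exact (Ideal.span_mono (by simp)) h2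
    rw [← hg] at h3
    have h4 : IsCoprime (146 : ℤ) (p : ℤ) := by
      rw [show (146 : ℤ) = ((146 : ℕ) : ℤ) from rfl, Nat.isCoprime_iff_coprime, Nat.coprime_comm,
        hp.coprime_iff_not_dvd]
      intro h5
      have h6 : p ∣ 2 * 73 := by exact h5
      rcases (Nat.Prime.dvd_mul hp).1 h6 with h7 | h7
      · exact hp2 ((Nat.prime_dvd_prime_iff_eq hp Nat.prime_two).1 h7)
      · exact hp73 ((Nat.prime_dvd_prime_iff_eq hp (by norm_num)).1 h7)
    obtain ⟨a, b, hab⟩ := h4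
    have h5 : x = (a : 𝓞 N) * (146 * x) + (b : 𝓞 N) * x * ((p : ℕ) : 𝓞 N) := by
      have h6 : ((a * 146 + b * p : ℤ) : 𝓞 N) = 1 := by
        rw [hab]
        exact Int.cast_one
      push_cast at h6
      linear_combination (-x) * h6
    rw [h5]
    exact Ideal.add_mem _ (Ideal.mul_mem_left _ _ h3) (Ideal.mul_mem_left _ _ hpI)
  · exfalso
    have h1 : IsCoprime (evL (X : (ZMod p)[X]) m) (g.map (Int.castRingHom (ZMod p))) :=
      (hm.coprime_iff_not_dvd).2 hdvd
    obtain ⟨a, b, hab⟩ := h1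
    obtain ⟨a₀, ha₀⟩ := hlift a
    obtain ⟨b₀, hb₀⟩ := hlift b
    have h2 : (a₀ * m₀ + b₀ * g - 1).map (Int.castRingHom (ZMod p)) = 0 := by
      rw [Polynomial.map_sub, Polynomial.map_add, Polynomial.map_mul, Polynomial.map_mul,
        Polynomial.map_one, hmp, ha₀, hb₀, hab, sub_self]
    have h3 := mem_of_map (θ := θ) h2
    rw [map_sub, map_add, map_mul, map_mul, hmθ, map_one] at h3
    have h4 : aeval θ a₀ * evL θ m + aeval θ b₀ * aeval θ g - 1 ∈ v :=
      ((Ideal.span_singleton_le_iff_mem v).2 hpv) h3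
    apply hv
    rw [Ideal.eq_top_iff_one]
    have h5 : (1 : 𝓞 N) = (aeval θ a₀ * evL θ m + aeval θ b₀ * aeval θ g) -
        (aeval θ a₀ * evL θ m + aeval θ b₀ * aeval θ g - 1) := by ring
    rw [h5]
    exact Ideal.sub_mem _ (Ideal.add_mem _ (Ideal.mul_mem_left _ _ hmv)
      (Ideal.mul_mem_left _ _ hgv)) h4

/-- the certificate -/
theorem check_spec {c : Crt} (hc : c.check = true) (h : RootN θ) :
    evL θ c.al * evL θ c.be = 2 ^ c.i * ((c.p : ℕ) : 𝓞 N) ∧
    evL θ c.al * evL θ c.ga = 2 ^ c.i * evL θ c.m ∧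
    evL θ c.al = evL θ c.s * evL θ c.m + ((c.p : ℕ) : 𝓞 N) * evL θ c.t := by
  unfold Crt.check at hc
  rw [Bool.and_eq_true, Bool.and_eq_true] at hc
  obtain ⟨⟨h1, h2⟩, h3⟩ := hc
  have hf : evL θ fL = 0 := by
    unfold RootN at h
    simp only [fL, evL]
    push_cast
    linear_combination h
  have e1 := evL_zero θ _ h1
  have e2 := evL_zero θ _ h2
  have e3 := evL_zero θ _ h3
  rw [evL_add, evL_mul, evL_smul, evL_add, evL_mul, hf] at e1
  rw [evL_add, evL_mul, evL_smul, evL_add, evL_smul, evL_mul, hf] at e2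
  rw [evL_add, evL_smul, evL_add, evL_mul, evL_smul] at e3
  simp only [evL] at e1
  push_cast at e1 e2 e3
  refine ⟨?_, ?_, ?_⟩
  · linear_combination e1
  · linear_combination e2
  · linear_combination e3

end

end FQN

open FQN

theorem fq : Pool.Agent.Q5.MZ.S_FQ := by
  intro N _ _ θ c v hd hθ hc hp hp2 hp73 hm hpv hmv
  have : Fact c.p.Prime := ⟨hp⟩
  have hvp : v.asIdeal.IsPrime := v.isPrime
  have hvm : v.asIdeal.IsMaximal := v.isMaximal
  obtain ⟨c1, c2, c3⟩ := check_spec hc hθ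
  have hle := ideal_le hp hp2 hp73 hd hθ hm hvp.ne_top hpv hmv
  have h2v : (2 : 𝓞 N) ∉ v.asIdeal := by
    intro h2
    obtain ⟨k, hk⟩ := hp.odd_of_ne_two hp2
    apply hvp.ne_top
    rw [Ideal.eq_top_iff_one]
    have h3 : (1 : 𝓞 N) = ((c.p : ℕ) : 𝓞 N) - 2 * (k : 𝓞 N) := by
      rw [hk]
      push_cast
      ring
    rw [h3]
    exact Ideal.sub_mem _ hpv (Ideal.mul_mem_right _ _ h2)
  have hα0 : evL θ c.al ≠ 0 := by
    intro h0
    rw [h0, zero_mul] at c1
    have h1 : (2 : 𝓞 N) ≠ 0 := two_ne_zero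
    have h3 : ((c.p : ℕ) : 𝓞 N) ≠ 0 := by exact_mod_cast hp.ne_zero
    exact (mul_ne_zero (pow_ne_zero _ h1) h3) c1.symm
  have hαN : ((evL θ c.al : 𝓞 N) : N) ≠ 0 := by
    intro h0
    exact hα0 (RingOfIntegers.ext h0)
  have hαv : evL θ c.al ∈ v.asIdeal := by
    rw [c3]
    exact Ideal.add_mem _ (Ideal.mul_mem_left _ _ hmv) (Ideal.mul_mem_right _ _ hpv)
  have hαv2 : evL θ c.al ∉ v.asIdeal ^ 2 := by
    intro h0
    have h1 : 2 ^ c.i * ((c.p : ℕ) : 𝓞 N) ∈ v.asIdeal ^ 2 := by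
      rw [← c1]
      exact Ideal.mul_mem_right _ _ h0
    have h3 : 2 ^ c.i * evL θ c.m ∈ v.asIdeal ^ 2 := by
      rw [← c2]
      exact Ideal.mul_mem_right _ _ h0
    have h4 : (2 : 𝓞 N) ^ c.i ∉ v.asIdeal := fun h => h2v (hvp.mem_of_pow_mem _ h)
    have h5 := (Ideal.IsPrime.mul_mem_pow v.asIdeal h1).resolve_left h4
    have h6 := (Ideal.IsPrime.mul_mem_pow v.asIdeal h3).resolve_left h4
    have h7 : v.asIdeal ≤ v.asIdeal ^ 2 := by
      intro x hx
      refine (Ideal.span_le.2 ?_) (hle x hx)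
      intro y hy
      rcases hy with hy | hy
      · rw [hy]
        exact h5
      · rw [Set.mem_singleton_iff.1 hy]
        exact h6
    have h8 : v.asIdeal ^ 2 < v.asIdeal ^ 1 :=
      Ideal.pow_right_strictAnti v.asIdeal v.ne_bot hvp.ne_top (by norm_num)
    rw [pow_one] at h8
    exact absurd h7 (not_le_of_gt h8)
  refine ⟨Units.mk0 ((evL θ c.al : 𝓞 N) : N) hαN, ?_, ?_⟩
  · rw [Pool.Agent.Q182.AR.prin_log, Units.val_mk0]
    have hval : v.valuation N ((evL θ c.al : 𝓞 N) : N) = v.intValuation (evL θ c.al) :=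
      HeightOneSpectrum.valuation_of_algebraMap v _
    have hne : v.intValuation (evL θ c.al) ≠ 0 := HeightOneSpectrum.intValuation_ne_zero v _ hα0
    rw [hval]
    have h1 : v.intValuation (evL θ c.al) ≤ WithZero.exp (-((1 : ℕ) : ℤ)) := by
      rw [HeightOneSpectrum.intValuation_le_pow_iff_mem, pow_one]
      exact hαv
    have h2 : ¬ v.intValuation (evL θ c.al) ≤ WithZero.exp (-((2 : ℕ) : ℤ)) := by
      rw [HeightOneSpectrum.intValuation_le_pow_iff_mem]
      exact hαv2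
    rw [← WithZero.log_le_iff_le_exp hne] at h1 h2
    omega
  · intro w hwv h2w
    rw [Pool.Agent.Q182.AR.prin_eq_zero_iff, Units.val_mk0]
    have hval : w.valuation N ((evL θ c.al : 𝓞 N) : N) = w.intValuation (evL θ c.al) :=
      HeightOneSpectrum.valuation_of_algebraMap w _
    rw [hval, HeightOneSpectrum.intValuation_eq_one_iff]
    intro h0
    have hwp : w.asIdeal.IsPrime := w.isPrime
    have h1 : 2 ^ c.i * ((c.p : ℕ) : 𝓞 N) ∈ w.asIdeal := by
      rw [← c1]
      exact Ideal.mul_mem_right _ _ h0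
    have h3 : 2 ^ c.i * evL θ c.m ∈ w.asIdeal := by
      rw [← c2]
      exact Ideal.mul_mem_right _ _ h0
    have h4 : (2 : 𝓞 N) ^ c.i ∉ w.asIdeal := fun h => h2w (hwp.mem_of_pow_mem _ h)
    have h5 := (hwp.mem_or_mem h1).resolve_left h4
    have h6 := (hwp.mem_or_mem h3).resolve_left h4
    have h7 : v.asIdeal ≤ w.asIdeal := by
      intro x hx
      refine (Ideal.span_le.2 ?_) (hle x hx)
      intro y hy
      rcases hy with hy | hy
      · rw [hy]
        exact h5
      · rw [Set.mem_singleton_iff.1 hy]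
        exact h6
    exact hwv (HeightOneSpectrum.ext (hvm.eq_of_le hwp.ne_top h7).symm)

end Pool.Agent.H429.MZQ
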