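import Pool.Graph.R_pool_sql_team_seeded_3997aac3.Q5.MZ.Stm3

set_option autoImplicit false

/-! Project MZQ: the faithful representation of the nonabelian group of order 21. -/

namespace Pool.Agent.H429.MZQ

open Pool.Agent.Q5.MZ

namespace FRN

lemma comm_pow {G : Type*} [Group G] {a b : G} (h : b * a = a ^ 2 * b) (m n : ℕ) :
    b ^ m * a ^ n = a ^ (n * 2 ^ m) * b ^ m := by
  have h1 : ∀ n : ℕ, b * a ^ n = a ^ (n * 2) * b := by
    intro n
    induction n with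
    | zero => simp
    | succ n ih =>
      rw [pow_succ, ← mul_assoc, ih, mul_assoc, h, ← mul_assoc, ← pow_add]
      congr 2
      ring
  induction m generalizing n with
  | zero => simp
  | succ m ih =>
    rw [pow_succ, mul_assoc, h1, ← mul_assoc, ih, mul_assoc]
    congr 2
    ring

lemma sep {G : Type*} [Group G] {a b : G} (ha : a ^ 7 = 1) (hb : b ^ 3 = 1) {n m n' m' : ℕ}
    (h : a ^ n * b ^ m = a ^ n' * b ^ m') : a ^ n = a ^ n' ∧ b ^ m = b ^ m' := by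
  have h1 : (a ^ n')⁻¹ * a ^ n = b ^ m' * (b ^ m)⁻¹ := by
    rw [eq_mul_inv_iff_mul_eq, mul_assoc, h, inv_mul_cancel_left]
  have h7 : ((a ^ n')⁻¹ * a ^ n) ^ 7 = 1 := by
    have hc : Commute (a ^ n')⁻¹ (a ^ n) := ((Commute.refl a).pow_pow n' n).inv_left
    rw [hc.mul_pow, inv_pow, ← pow_mul, ← pow_mul, mul_comm n', mul_comm n, pow_mul, pow_mul, ha]
    simp
  have h3 : ((a ^ n')⁻¹ * a ^ n) ^ 3 = 1 := by
    have hc : Commute (b ^ m') (b ^ m)⁻¹ := ((Commute.refl b).pow_pow m' m).inv_right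
    rw [h1, hc.mul_pow, inv_pow, ← pow_mul, ← pow_mul, mul_comm m', mul_comm m, pow_mul, pow_mul, hb]
    simp
  have hx : (a ^ n')⁻¹ * a ^ n = 1 := by
    have e1 := orderOf_dvd_of_pow_eq_one h7
    have e2 := orderOf_dvd_of_pow_eq_one h3
    have e3 := Nat.dvd_gcd e1 e2
    rw [show Nat.gcd 7 3 = 1 by norm_num, Nat.dvd_one, orderOf_eq_one_iff] at e3
    exact e3
  refine ⟨(inv_mul_eq_one.1 hx).symm, ?_⟩
  rw [hx] at h1
  exact (mul_inv_eq_one.1 h1.symm).symm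

/-- the units of order `7` and `3` -/
def uA : GL (Fin 3) (ZMod 2) := ⟨matA, matA ^ 6, by decide, by decide⟩
def uB : GL (Fin 3) (ZMod 2) := ⟨matB, matB ^ 2, by decide, by decide⟩

lemma uA7 : uA ^ 7 = 1 := by
  apply Units.ext
  rw [Units.val_pow_eq_pow_val]
  show matA ^ 7 = 1
  decide

lemma uB3 : uB ^ 3 = 1 := by
  apply Units.ext
  rw [Units.val_pow_eq_pow_val]
  show matB ^ 3 = 1
  decide

lemma uA1 : uA ≠ 1 := by
  intro h
  have h1 : matA = 1 := congrArg Units.val h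
  revert h1
  decide

lemma uB1 : uB ≠ 1 := by
  intro h
  have h1 : matB = 1 := congrArg Units.val h
  revert h1
  decide

lemma uBA : uB * uA = uA ^ 2 * uB := by
  apply Units.ext
  rw [Units.val_mul, Units.val_mul, Units.val_pow_eq_pow_val]
  show matB * matA = matA ^ 2 * matB
  decide

/-- the homomorphism from the presentation -/
lemma core {G : Type} [Group G] {a b : G} (ha : orderOf a = 7) (hb : orderOf b = 3) (h : b * a = a ^ 2 * b)
    (hs : ∀ g : G, ∃ n m : ℕ, g = a ^ n * b ^ m) :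
    ∃ r : G →* GL (Fin 3) (ZMod 2), Function.Injective r ∧
    (∃ σ, ((r σ : GL (Fin 3) (ZMod 2)) : Matrix (Fin 3) (Fin 3) (ZMod 2)) = matA) ∧
    (∃ τ, ((r τ : GL (Fin 3) (ZMod 2)) : Matrix (Fin 3) (Fin 3) (ZMod 2)) = matB) := by
  have ha7 : a ^ 7 = 1 := by rw [← ha]; exact pow_orderOf_eq_one a
  have hb3 : b ^ 3 = 1 := by rw [← hb]; exact pow_orderOf_eq_one b
  have oA : orderOf uA = 7 := by
    have : Fact (Nat.Prime 7) := ⟨by norm_num⟩
    exact orderOf_eq_prime uA7 uA1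
  have oB : orderOf uB = 3 := by
    have : Fact (Nat.Prime 3) := ⟨by norm_num⟩
    exact orderOf_eq_prime uB3 uB1
  choose n m hnm using hs
  have key : ∀ n1 m1 n2 m2 : ℕ, a ^ n1 * b ^ m1 = a ^ n2 * b ^ m2 → uA ^ n1 * uB ^ m1 = uA ^ n2 * uB ^ m2 := by
    intro n1 m1 n2 m2 h1
    obtain ⟨h2, h3⟩ := sep ha7 hb3 h1
    rw [pow_eq_pow_iff_modEq, ha, ← oA, ← pow_eq_pow_iff_modEq] at h2
    rw [pow_eq_pow_iff_modEq, hb, ← oB, ← pow_eq_pow_iff_modEq] at h3
    rw [h2, h3]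
  have key2 : ∀ n1 m1 n2 m2 : ℕ, uA ^ n1 * uB ^ m1 = uA ^ n2 * uB ^ m2 → a ^ n1 * b ^ m1 = a ^ n2 * b ^ m2 := by
    intro n1 m1 n2 m2 h1
    obtain ⟨h2, h3⟩ := sep uA7 uB3 h1
    rw [pow_eq_pow_iff_modEq, oA, ← ha, ← pow_eq_pow_iff_modEq] at h2
    rw [pow_eq_pow_iff_modEq, oB, ← hb, ← pow_eq_pow_iff_modEq] at h3
    rw [h2, h3]
  have hval : ∀ n1 m1 : ℕ, uA ^ n (a ^ n1 * b ^ m1) * uB ^ m (a ^ n1 * b ^ m1) = uA ^ n1 * uB ^ m1 := by
    intro n1 m1
    exact key _ _ _ _ (hnm _).symm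
  let r : G →* GL (Fin 3) (ZMod 2) := MonoidHom.mk' (fun g => uA ^ n g * uB ^ m g) (by
    intro g g'
    have h1 : g * g' = a ^ (n g + n g' * 2 ^ m g) * b ^ (m g + m g') := by
      conv_lhs => rw [hnm g, hnm g']
      rw [mul_assoc, ← mul_assoc (b ^ m g), comm_pow h, pow_add, pow_add]
      simp only [mul_assoc]
    have h2 := hval (n g + n g' * 2 ^ m g) (m g + m g')
    rw [← h1] at h2
    rw [h2, mul_assoc, ← mul_assoc (uB ^ m g), comm_pow uBA, pow_add, pow_add]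
    simp only [mul_assoc])
  have hr : ∀ n1 m1 : ℕ, r (a ^ n1 * b ^ m1) = uA ^ n1 * uB ^ m1 := hval
  refine ⟨r, ?_, ⟨a, ?_⟩, ⟨b, ?_⟩⟩
  · intro g g' hg
    have h1 := key2 _ _ _ _ hg
    rw [← hnm g, ← hnm g'] at h1
    exact h1
  · have h1 := hr 1 0
    rw [pow_one, pow_zero, mul_one, pow_one, pow_zero, mul_one] at h1
    rw [h1]
    rfl
  · have h1 := hr 0 1
    rw [pow_one, pow_zero, one_mul, pow_one, pow_zero, one_mul] at h1
    rw [h1]
    rfl

lemma surj {G : Type} [Group G] (hcard : Nat.card G = 21) {a b : G} (ha : orderOf a = 7) (hb : orderOf b = 3) :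
    ∀ g : G, ∃ n m : ℕ, g = a ^ n * b ^ m := by
  have : Finite G := Nat.finite_of_card_ne_zero (by rw [hcard]; norm_num)
  have ha7 : a ^ 7 = 1 := by rw [← ha]; exact pow_orderOf_eq_one a
  have hb3 : b ^ 3 = 1 := by rw [← hb]; exact pow_orderOf_eq_one b
  let f : Fin 7 × Fin 3 → G := fun p => a ^ (p.1 : ℕ) * b ^ (p.2 : ℕ)
  have hf : Function.Injective f := by
    rintro ⟨i, j⟩ ⟨i', j'⟩ h
    obtain ⟨h2, h3⟩ := sep ha7 hb3 h
    rw [pow_eq_pow_iff_modEq, ha] at h2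
    rw [pow_eq_pow_iff_modEq, hb] at h3
    have e1 : (i : ℕ) = i' := Nat.ModEq.eq_of_lt_of_lt h2 i.2 i'.2
    have e2 : (j : ℕ) = j' := Nat.ModEq.eq_of_lt_of_lt h3 j.2 j'.2
    exact Prod.ext (Fin.ext e1) (Fin.ext e2)
  have hb : Function.Bijective f := hf.bijective_of_nat_card_le (by
    rw [hcard, Nat.card_prod, Nat.card_fin, Nat.card_fin])
  intro g
  obtain ⟨p, hp⟩ := hb.2 g
  exact ⟨p.1, p.2, hp.symm⟩

end FRN

open FRN in
theorem fr : Pool.Agent.Q5.MZ.S_FR := by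
  intro G _ hcard hnc
  have : Finite G := Nat.finite_of_card_ne_zero (by rw [hcard]; norm_num)
  have : Fact (Nat.Prime 7) := ⟨by norm_num⟩
  have : Fact (Nat.Prime 3) := ⟨by norm_num⟩
  obtain ⟨a, ha⟩ := exists_prime_orderOf_dvd_card' (G := G) 7 (by rw [hcard]; norm_num)
  obtain ⟨b, hb⟩ := exists_prime_orderOf_dvd_card' (G := G) 3 (by rw [hcard]; norm_num)
  have ha7 : a ^ 7 = 1 := by rw [← ha]; exact pow_orderOf_eq_one a
  have hb3 : b ^ 3 = 1 := by rw [← hb]; exact pow_orderOf_eq_one b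
  have hN : (Subgroup.zpowers a).Normal := by
    apply Subgroup.normal_of_index_eq_minFac_card
    have h1 := (Subgroup.zpowers a).index_mul_card
    rw [Nat.card_zpowers, ha, hcard] at h1
    have h2 : (Subgroup.zpowers a).index = 3 := by omega
    rw [h2, hcard]
    norm_num
  have hmem : b * a * b⁻¹ ∈ Subgroup.zpowers a := hN.conj_mem a (Subgroup.mem_zpowers a) b
  obtain ⟨k, hk7, hk⟩ : ∃ k : ℕ, k < 7 ∧ b * a * b⁻¹ = a ^ k := by
    rw [← mem_powers_iff_mem_zpowers] at hmem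
    obtain ⟨k, hk⟩ := hmem
    refine ⟨k % 7, Nat.mod_lt _ (by norm_num), ?_⟩
    rw [← hk]
    show a ^ k = a ^ (k % 7)
    rw [pow_eq_pow_iff_modEq, ha]
    exact (Nat.mod_modEq k 7).symm
  have hc1 : ∀ n : ℕ, b * a ^ n * b⁻¹ = a ^ (k * n) := by
    intro n
    rw [← conj_pow, hk, ← pow_mul]
  have hk3 : a ^ (k ^ 3) = a ^ 1 := by
    have e1 : b ^ 3 * a * (b ^ 3)⁻¹ = a ^ (k ^ 3) := by
      have : b ^ 3 * a * (b ^ 3)⁻¹ = b * (b * (b * a * b⁻¹) * b⁻¹) * b⁻¹ := by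
        rw [pow_succ, pow_two]
        simp only [mul_inv_rev, mul_assoc]
      rw [this, hk, hc1, hc1]
      congr 1
      ring
    rw [hb3] at e1
    rw [← e1]
    simp
  rw [pow_eq_pow_iff_modEq, ha] at hk3
  have hk4 : k = 1 ∨ k = 2 ∨ k = 4 := by
    interval_cases k <;> revert hk3 <;> decide
  rcases hk4 with rfl | rfl | rfl
  · exfalso
    obtain ⟨g, h, hgh⟩ := hnc
    apply hgh
    have hba : Commute b a := by
      rw [pow_one, mul_inv_eq_iff_eq_mul] at hk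
      exact hk
    obtain ⟨n, m, rfl⟩ := surj hcard ha hb g
    obtain ⟨n', m', rfl⟩ := surj hcard ha hb h
    have c1 : Commute (a ^ n) (a ^ n') := (Commute.refl a).pow_pow _ _
    have c2 : Commute (a ^ n) (b ^ m') := (hba.symm).pow_pow _ _
    have c3 : Commute (b ^ m) (a ^ n') := hba.pow_pow _ _
    have c4 : Commute (b ^ m) (b ^ m') := (Commute.refl b).pow_pow _ _
    exact ((c1.mul_right c2).mul_left (c3.mul_right c4)).eq
  · refine core ha hb ?_ (surj hcard ha hb)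
    rw [mul_inv_eq_iff_eq_mul] at hk
    exact hk
  · have hb' : orderOf b⁻¹ = 3 := by rw [orderOf_inv, hb]
    refine core ha hb' ?_ (surj hcard ha hb')
    -- b⁻¹ a b = a ^ 2, as b a ^ 2 b⁻¹ = a ^ 8 = a
    have h8 := hc1 2
    have e8 : a ^ (4 * 2) = a := by
      rw [show 4 * 2 = 7 + 1 by norm_num, pow_add, ha7, one_mul, pow_one]
    rw [e8, mul_inv_eq_iff_eq_mul] at h8
    rw [← mul_left_cancel_iff (a := b), mul_inv_cancel_left, ← mul_assoc, h8, mul_inv_cancel_right]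

end Pool.Agent.H429.MZQ
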