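import Pool.Graph.R_pool_sql_team_seeded_3997aac3.Q5.MZ.Stm3
import Pool.Graph.R_pool_sql_team_seeded_3997aac3.Q238.MZ.Inr

set_option autoImplicit false

namespace Pool.Agent.H429.MZQ

open NumberField IsDedekindDomain
open Pool.Agent.Q92.AR (Unramified)
open Pool.Agent.Q5.MZ (RootN RootL KF)
open Pool.Agent.Q238.MZ (InrAt unr_of_inr)

namespace FUN

theorem int_N {K : Type} [Field K] [NumberField K] {θ : K} (h : RootN θ) : IsIntegral ℤ θ := by
  refine ⟨Polynomial.X ^ 7 - 8 * Polynomial.X ^ 5 - 2 * Polynomial.X ^ 4 + 16 * Polynomial.X ^ 3 +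
    6 * Polynomial.X ^ 2 - 6 * Polynomial.X - 2, ?_, ?_⟩
  · monicity!
  · unfold RootN at h
    simp only [Polynomial.eval₂_sub, Polynomial.eval₂_add, Polynomial.eval₂_mul,
      Polynomial.eval₂_pow, Polynomial.eval₂_X, Polynomial.eval₂_ofNat]
    exact h

theorem int_L {K : Type} [Field K] [NumberField K] {l : K} (h : RootL l) : IsIntegral ℤ l := by
  refine ⟨Polynomial.X ^ 3 + Polynomial.X ^ 2 - 24 * Polynomial.X - 27, ?_, ?_⟩
  · monicity!
  · unfold RootL at h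
    simp only [Polynomial.eval₂_sub, Polynomial.eval₂_add, Polynomial.eval₂_mul,
      Polynomial.eval₂_pow, Polynomial.eval₂_X, Polynomial.eval₂_ofNat]
    exact h

theorem key_N {R : Type} [CommRing R] [IsDomain R] (I : Ideal R) {t y : R} (ht : RootN t)
    (hs : RootN (t + y)) (hy : y ∈ I) (hy0 : y ≠ 0) : (438 : R) ∈ I := by
  unfold RootN at ht hs
  have h1 : y * ((7 * t ^ 6 - 40 * t ^ 4 - 8 * t ^ 3 + 48 * t ^ 2 + 12 * t - 6) +
      y * ((21 * t ^ 5 + 35 * t ^ 4 * y + 35 * t ^ 3 * y ^ 2 + 21 * t ^ 2 * y ^ 3 + 7 * t * y ^ 4 +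
        y ^ 5) - 8 * (10 * t ^ 3 + 10 * t ^ 2 * y + 5 * t * y ^ 2 + y ^ 3) -
        2 * (6 * t ^ 2 + 4 * t * y + y ^ 2) + 16 * (3 * t + y) + 6)) = 0 := by
    linear_combination hs - ht
  have h2 := (mul_eq_zero.1 h1).resolve_left hy0
  have h3 : (438 : R) = y * (-3 * (-50 - 15 * t + 186 * t ^ 2 + 29 * t ^ 3 - 104 * t ^ 4 -
      8 * t ^ 5 + 14 * t ^ 6) * ((21 * t ^ 5 + 35 * t ^ 4 * y + 35 * t ^ 3 * y ^ 2 +
        21 * t ^ 2 * y ^ 3 + 7 * t * y ^ 4 + y ^ 5) -
        8 * (10 * t ^ 3 + 10 * t ^ 2 * y + 5 * t * y ^ 2 + y ^ 3) -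
        2 * (6 * t ^ 2 + 4 * t * y + y ^ 2) + 16 * (3 * t + y) + 6)) := by
    linear_combination (3 * (77 - 486 * t - 159 * t ^ 2 + 504 * t ^ 3 + 56 * t ^ 4 -
      98 * t ^ 5)) * ht + 3 * (-50 - 15 * t + 186 * t ^ 2 + 29 * t ^ 3 - 104 * t ^ 4 -
      8 * t ^ 5 + 14 * t ^ 6) * h2
  rw [h3]
  exact I.mul_mem_right _ hy

theorem key_L {R : Type} [CommRing R] [IsDomain R] (I : Ideal R) {t y : R} (ht : RootL t)
    (hs : RootL (t + y)) (hy : y ∈ I) (hy0 : y ≠ 0) : (657 : R) ∈ I := by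
  unfold RootL at ht hs
  have h1 : y * ((3 * t ^ 2 + 2 * t - 24) + y * (3 * t + y + 1)) = 0 := by
    linear_combination hs - ht
  have h2 := (mul_eq_zero.1 h1).resolve_left hy0
  have h3 : (657 : R) = y * (-(-33 - t + 2 * t ^ 2) * (3 * t + y + 1)) := by
    linear_combination (5 - 6 * t) * ht + (-33 - t + 2 * t ^ 2) * h2
  rw [h3]
  exact I.mul_mem_right _ hy

end FUN

open FUN

theorem fu : Pool.Agent.Q5.MZ.S_FU := by
  intro K _ _ θ l hK v hv
  have hgal := hK.gal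
  refine unr_of_inr ?_
  intro P g hPv hg
  have h438 : (438 : 𝓞 K) ∉ P.asIdeal := by
    intro h
    apply hv
    rw [← hPv]
    change algebraMap (𝓞 ℚ) (𝓞 K) 438 ∈ P.asIdeal
    rw [map_ofNat]
    exact h
  refine hK.gen g ?_ ?_
  · by_contra hne
    apply h438
    obtain ⟨y, hy, hyθ⟩ := hg ⟨θ, int_N hK.rN⟩
    have hyθ' : (y : K) = g θ - θ := hyθ
    refine key_N P.asIdeal (t := ⟨θ, int_N hK.rN⟩) (y := y) ?_ ?_ hy ?_
    · apply RingOfIntegers.ext
      change θ ^ 7 - 8 * θ ^ 5 - 2 * θ ^ 4 + 16 * θ ^ 3 + 6 * θ ^ 2 - 6 * θ - 2 = 0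
      exact hK.rN
    · apply RingOfIntegers.ext
      change (θ + (y : K)) ^ 7 - 8 * (θ + (y : K)) ^ 5 - 2 * (θ + (y : K)) ^ 4 +
        16 * (θ + (y : K)) ^ 3 + 6 * (θ + (y : K)) ^ 2 - 6 * (θ + (y : K)) - 2 = 0
      rw [hyθ', add_sub_cancel]
      have h := hK.rN
      unfold RootN at h
      have h' := congrArg (g : K →+* K) h
      simp only [map_sub, map_add, map_mul, map_pow, map_ofNat, map_zero] at h'
      exact h'
    · rintro rfl
      apply hne
      have h0 : ((0 : 𝓞 K) : K) = 0 := rfl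
      rw [h0] at hyθ'
      exact (sub_eq_zero.1 hyθ'.symm)
  · by_contra hne
    apply h438
    obtain ⟨y, hy, hyθ⟩ := hg ⟨l, int_L hK.rL⟩
    have hyθ' : (y : K) = g l - l := hyθ
    have h657 : (657 : 𝓞 K) ∈ P.asIdeal := by
      refine key_L P.asIdeal (t := ⟨l, int_L hK.rL⟩) (y := y) ?_ ?_ hy ?_
      · apply RingOfIntegers.ext
        change l ^ 3 + l ^ 2 - 24 * l - 27 = 0
        exact hK.rL
      · apply RingOfIntegers.ext
        change (l + (y : K)) ^ 3 + (l + (y : K)) ^ 2 - 24 * (l + (y : K)) - 27 = 0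
        rw [hyθ', add_sub_cancel]
        have h := hK.rL
        unfold RootL at h
        have h' := congrArg (g : K →+* K) h
        simp only [map_sub, map_add, map_mul, map_pow, map_ofNat, map_zero] at h'
        exact h'
      · rintro rfl
        apply hne
        have h0 : ((0 : 𝓞 K) : K) = 0 := rfl
        rw [h0] at hyθ'
        exact (sub_eq_zero.1 hyθ'.symm)
    have hP := P.isPrime
    have e1 : (657 : 𝓞 K) = 3 * (3 * 73) := by norm_num
    rw [e1] at h657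
    rcases hP.mem_or_mem h657 with h | h
    · have e2 : (438 : 𝓞 K) = 3 * 146 := by norm_num
      rw [e2]
      exact P.asIdeal.mul_mem_right _ h
    · rcases hP.mem_or_mem h with h | h
      · have e2 : (438 : 𝓞 K) = 3 * 146 := by norm_num
        rw [e2]
        exact P.asIdeal.mul_mem_right _ h
      · have e2 : (438 : 𝓞 K) = 73 * 6 := by norm_num
        rw [e2]
        exact P.asIdeal.mul_mem_right _ h

end Pool.Agent.H429.MZQ
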