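import Pool.Graph.R_pool_sql_team_seeded_3997aac3.Q5.MZ.Stm3

/-! # Project MZ: assembly of part D (by helper790) -/

set_option autoImplicit false

namespace Pool.Agent.H429.MZQ

open NumberField IsDedekindDomain Module
open Pool.Agent.Q5.MZ

theorem fx : Pool.Agent.Q5.MZ.J_FX := by
  intro hFK hFU hFO hFC hFR
  obtain ⟨K, i1, i2, θ, l, hK⟩ := hFK
  have hgal : IsGalois ℚ K := hK.gal
  have hcard : Nat.card (K ≃ₐ[ℚ] K) = 21 := by
    rw [IsGalois.card_aut_eq_finrank ℚ K, hK.deg]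
  obtain ⟨r, hr, ha, hb⟩ := hFR (K ≃ₐ[ℚ] K) hcard hK.nc
  exact ⟨K, i1, i2, r, hK.gal, hK.deg, hr, ha, hb, hFO K θ l hK, hFC K θ l hK, hFU K θ l hK⟩

end Pool.Agent.H429.MZQ
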