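import Pool.Graph.R_pool_sql_team_seeded_3997aac3.Q5.MZ.Stm2

/-!
# Gaschütz: splitting over a subgroup of odd index
-/

set_option autoImplicit false

namespace Pool.Agent.H429.MZQ

namespace GAN

/-- Gaschütz: the splitting over `H` gives for every left coset `c` of `H` a crossed lift `ψ g c` of `g`;
the average of `ψ g c` over the cosets is a homomorphism. -/
theorem main (G X : Type) [Group G] [Group X] [Finite G] [Finite X] (π : X →* G) (H : Subgroup G)
    (s : H →* X) (hπ : Function.Surjective π) (h2 : ∀ x ∈ π.ker, x ^ 2 = 1)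
    (hc : ∀ x ∈ π.ker, ∀ y ∈ π.ker, x * y = y * x) (hodd : Odd H.index)
    (hs : ∀ h : H, π (s h) = h) : ∃ t : G →* X, ∀ g, π (t g) = g := by
  classical
  let _i :  CommGroup π.ker := { (inferInstance : Group π.ker) with
    mul_comm := fun x y => Subtype.ext (hc x x.2 y y.2) }
  let _i :  Fintype (G ⧸ H) := Fintype.ofFinite _
  obtain ⟨n, hn⟩ := hodd
  have hcard : Fintype.card (G ⧸ H) = 2 * n + 1 := by
    rw [← hn, Subgroup.index_eq_card, Nat.card_eq_fintype_card]
  -- lifts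
  let L : G → X := Function.surjInv hπ
  have hL : ∀ g, π (L g) = g := Function.surjInv_eq hπ
  have hmem : ∀ (g : G) (c : G ⧸ H), (g • c).out⁻¹ * (g * c.out) ∈ H := by
    intro g c
    have e : g • c = ((g * c.out : G) : G ⧸ H) := by
      conv_lhs => rw [← QuotientGroup.out_eq' c]
      rfl
    rw [← QuotientGroup.eq, QuotientGroup.out_eq', e]
  let ψ : G → G ⧸ H → X := fun g c => L (g • c).out * s ⟨_, hmem g c⟩ * (L c.out)⁻¹
  have hψπ : ∀ g c, π (ψ g c) = g := by
    intro g c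
    simp only [ψ, map_mul, map_inv, hL, hs]
    group
  have hψ : ∀ g g' c, ψ (g * g') c = ψ g (g' • c) * ψ g' c := by
    intro g g' c
    have e : (⟨_, hmem (g * g') c⟩ : H) = ⟨_, hmem g (g' • c)⟩ * ⟨_, hmem g' c⟩ := by
      apply Subtype.ext
      simp only [Subgroup.coe_mul, mul_smul]
      group
    simp only [ψ]
    rw [e, map_mul, mul_smul]
    group
  -- averages
  let D : X → (G ⧸ H → X) → (G ⧸ H) → π.ker := fun x f c =>
    if h : x⁻¹ * f c ∈ π.ker then ⟨x⁻¹ * f c, h⟩ else 1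
  have hD : ∀ (x : X) (f : G ⧸ H → X), (∀ c, π (f c) = π x) → ∀ c, (D x f c : X) = x⁻¹ * f c := by
    intro x f hf c
    have h : x⁻¹ * f c ∈ π.ker := by
      rw [MonoidHom.mem_ker, map_mul, map_inv, hf c, inv_mul_cancel]
    simp only [D, dif_pos h]
  let A : X → (G ⧸ H → X) → X := fun x f => x * (∏ c, D x f c : π.ker)
  have hA : ∀ (x y : X) (f : G ⧸ H → X), (∀ c, π (f c) = π x) → π x = π y → A x f = A y f := by
    intro x y f hf hxy
    have hv : y⁻¹ * x ∈ π.ker := by
      rw [MonoidHom.mem_ker, map_mul, map_inv, hxy, inv_mul_cancel]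
    have h1 : ∀ c, D x f c = (⟨y⁻¹ * x, hv⟩ : π.ker)⁻¹ * D y f c := by
      intro c
      apply Subtype.ext
      rw [Subgroup.coe_mul, hD x f hf, hD y f (fun c => (hf c).trans hxy), Subgroup.coe_inv]
      group
    have h3 : (⟨y⁻¹ * x, hv⟩ : π.ker) ^ 2 = 1 := Subtype.ext (h2 _ hv)
    have h4 : (⟨y⁻¹ * x, hv⟩ : π.ker)⁻¹ ^ (2 * n + 1) = (⟨y⁻¹ * x, hv⟩ : π.ker)⁻¹ := by
      rw [pow_succ, pow_mul, inv_pow, h3, inv_one, one_pow, one_mul]
    simp only [A]
    rw [Finset.prod_congr rfl fun c _ => h1 c, Finset.prod_mul_distrib, Finset.prod_const,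
      Finset.card_univ, hcard, h4, Subgroup.coe_mul, Subgroup.coe_inv]
    group
  refine ⟨MonoidHom.mk' (fun g => A (L g) (ψ g)) ?_, ?_⟩
  · intro g g'
    show A (L (g * g')) (ψ (g * g')) = A (L g) (ψ g) * A (L g') (ψ g')
    rw [hA (L (g * g')) (L g * L g') (ψ (g * g')) (fun c => by rw [hψπ, hL])
      (by rw [hL, map_mul, hL, hL])]
    have h1 : ∀ c, D (L g * L g') (ψ (g * g')) c =
        MulAut.conjNormal (L g')⁻¹ (D (L g) (ψ g) (g' • c)) * D (L g') (ψ g') c := by
      intro c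
      apply Subtype.ext
      rw [Subgroup.coe_mul, hD _ _ (fun c => by rw [hψπ, map_mul, hL, hL]),
        MulAut.conjNormal_apply, hD _ _ (fun c => by rw [hψπ, hL]),
        hD _ _ (fun c => by rw [hψπ, hL]), hψ]
      group
    have h3 : ∏ c, MulAut.conjNormal (L g')⁻¹ (D (L g) (ψ g) (g' • c)) =
        MulAut.conjNormal (L g')⁻¹ (∏ c, D (L g) (ψ g) c) := by
      rw [← Equiv.prod_comp (MulAction.toPerm g') (fun c => D (L g) (ψ g) c)]
      rw [map_prod]
      rfl
    simp only [A]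
    rw [Finset.prod_congr rfl fun c _ => h1 c, Finset.prod_mul_distrib, h3, Subgroup.coe_mul,
      MulAut.conjNormal_apply]
    group
  · intro g
    show π (A (L g) (ψ g)) = g
    simp only [A]
    rw [map_mul, hL]
    have h1 := (∏ c, D (L g) (ψ g) c : π.ker).2
    rw [MonoidHom.mem_ker] at h1
    rw [h1, mul_one]

end GAN

theorem ga : Pool.Agent.Q5.MZ.S_GA := by
  intro G X _ _ _ _ π H s hπ h2 hc hodd hs
  exact GAN.main G X π H s hπ h2 hc hodd hs

end Pool.Agent.H429.MZQ
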