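import Pool.Graph.R_pool_sql_team_seeded_3997aac3.Q5.MZ.Stm2
import Pool.Graph.R_pool_sql_team_seeded_3997aac3.Q149.AR.SD2

/-!
# Project MZQ: the element `y` of a splitting (`S_GM`)
-/

set_option autoImplicit false
set_option linter.unusedSectionVars false

namespace Pool.Agent.H429.MZQ

open NumberField IsDedekindDomain Module
open Pool.Agent.Q92.AR (Dv prin prin_mul prin_div sE sD sE_apply Unramified up)
open Pool.Agent.TeamU (act Over val_over)
open Pool.Agent.Q149.AR (prin_eq_neg_log prin_sE sD_apply trans_act above_nonempty act_inv_act)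
open Pool.Agent.Q5.MZ

namespace GMN

section
variable {k L : Type} [Field k] [NumberField k] [Field L] [NumberField L] [Algebra k L]

/-- the divisor of `g y` -/
theorem prin_g (g : L ≃ₐ[k] L) (y z : Lˣ) (h : (z : L) = g (y : L))
    (w : HeightOneSpectrum (𝓞 L)) : prin z w = prin y (act g⁻¹ w) := by
  have h1 : z = (sE g (Additive.ofMul y)).toMul := by
    apply Units.ext
    rw [sE_apply]
    exact h
  rw [h1, prin_sE, sD_apply]
  rfl

/-- the divisor of `a ∈ kˣ` at a prime of `L` over an unramified prime -/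
theorem prin_up (a : kˣ) (w : HeightOneSpectrum (𝓞 L)) (hu : Unramified L (w.under (𝓞 k))) :
    prin (up k L a) w = prin a (w.under (𝓞 k)) := by
  rw [prin_eq_neg_log, prin_eq_neg_log]
  have hov : Over w (w.under (𝓞 k)) := rfl
  have h1 : w.valuation L ((up k L a : Lˣ) : L) =
      (w.under (𝓞 k)).valuation k (a : k) ^
        ((w.under (𝓞 k)).asIdeal.ramificationIdx' w.asIdeal) :=
    val_over hov (a : k)
  have he : Ideal.ramificationIdx' (w.under (𝓞 k)).asIdeal w.asIdeal = 1 := by
    refine Ideal.ramificationIdx'_spec ?_ ?_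
    · rw [pow_one, Ideal.map_le_iff_le_comap]
      exact le_of_eq rfl
    · exact hu w rfl
  rw [h1, he, pow_one]

/-- Hilbert 90 for the squares of a splitting -/
theorem exists_y [IsGalois k L] (c : (L ≃ₐ[k] L) → (L ≃ₐ[k] L) → ℤˣ) (b : (L ≃ₐ[k] L) → Lˣ)
    (hb : ∀ g h, (b g : L) * g (b h : L) = (b (g * h) : L) * (((c g h : ℤˣ) : ℤ) : L)) :
    ∃ y : Lˣ, ∀ g : L ≃ₐ[k] L, g (y : L) = (y : L) * (b g : L) ^ 2 := by
  have hc : groupCohomology.IsMulCocycle₁ (fun g : L ≃ₐ[k] L => (b g) ^ 2) := by
    intro g h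
    apply Units.ext
    have h1 : ((((c g h : ℤˣ) : ℤ) : L)) ^ 2 = 1 := by
      rcases Int.units_eq_one_or (c g h) with h2 | h2 <;> rw [h2] <;> simp
    have h2 := congrArg (fun x => x ^ 2) (hb g h)
    simp only [mul_pow, h1, mul_one] at h2
    rw [AlgEquiv.smul_units_def]
    simp only [Units.val_mul, Units.val_pow_eq_pow_val, Units.coe_map, map_pow,
      MonoidHom.coe_coe]
    rw [← h2, mul_comm]
  obtain ⟨y, hy⟩ := groupCohomology.isMulCoboundary₁_of_isMulCocycle₁_of_aut_to_units _ hc
  refine ⟨y, fun g => ?_⟩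
  have h1 := hy g
  rw [div_eq_iff_eq_mul, AlgEquiv.smul_units_def] at h1
  have h2 := congrArg (fun u : Lˣ => (u : L)) h1
  simp only [Units.val_mul, Units.val_pow_eq_pow_val, Units.coe_map, MonoidHom.coe_coe] at h2
  rw [mul_comm]
  exact h2

end

end GMN

open GMN in
/-- the element `y` of a splitting -/
theorem gm : Pool.Agent.Q5.MZ.S_GM := by
  classical
  intro k L _ _ _ _ _ _ c hodd hunr hs
  obtain ⟨b, hb⟩ := hs
  obtain ⟨y, hy⟩ := exists_y c b hb
  -- the parity of the divisor of `y` only depends on the prime below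
  have hpar : ∀ w w' : HeightOneSpectrum (𝓞 L), w.under (𝓞 k) = w'.under (𝓞 k) →
      Even (prin y w - prin y w') := by
    intro w w' hw
    obtain ⟨g, hg⟩ := trans_act (F := k) hw
    have h1 := prin_g g y (y * b g ^ 2) (by
      rw [hy g, Units.val_mul, Units.val_pow_eq_pow_val]) w'
    rw [prin_mul, pow_two, prin_mul, ← hg, act_inv_act] at h1
    simp only [Finsupp.add_apply] at h1
    rw [← hg]
    exact ⟨prin (b g) (act g w), by linarith⟩
  -- the divisor of `k`
  choose s hs using above_nonempty (F := k) (E := L)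
  have hsinj : Function.Injective s := by
    intro v v' hvv
    rw [← hs v, ← hs v', hvv]
  have hfin : (Function.support fun v => prin y (s v)).Finite := by
    have : (Function.support fun v => prin y (s v)) =
        s ⁻¹' ((prin y).support : Set (HeightOneSpectrum (𝓞 L))) := by
      ext v
      simp
    rw [this]
    exact ((prin y).support.finite_toSet).preimage hsinj.injOn
  obtain ⟨D', a, hD⟩ := hodd (Finsupp.ofSupportFinite (fun v => prin y (s v)) hfin)
  refine ⟨b, y / up k L a, hb, fun g => ?_, fun w hw => ?_⟩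
  · have h1 : ((y / up k L a : Lˣ) : L) = (y : L) / algebraMap k L (a : k) := by
      rw [Units.val_div_eq_div_val]
      rfl
    rw [h1, map_div₀, AlgEquiv.commutes, hy g]
    ring
  · have h2 : (2 : 𝓞 k) ∉ (w.under (𝓞 k)).asIdeal := by
      intro h
      apply hw
      have h3 : algebraMap (𝓞 k) (𝓞 L) (2 : 𝓞 k) ∈ w.asIdeal := h
      rwa [map_ofNat] at h3
    rw [prin_div, Finsupp.sub_apply, prin_up a w (hunr _ h2)]
    have h4 := hD _ h2
    rw [Finsupp.ofSupportFinite_coe] at h4
    obtain ⟨r, hr⟩ := hpar w (s (w.under (𝓞 k))) (hs _).symm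
    exact ⟨r + D' (w.under (𝓞 k)), by linarith⟩

end Pool.Agent.H429.MZQ
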