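import Pool.Agent.H429.MZQ.StmF

/-!
# Project MZQ (helper429), job HLQ: solvability of the small embedding problems
-/

set_option autoImplicit false
set_option linter.unusedSectionVars false

namespace Pool.Agent.H429.MZQ

open NumberField IsDedekindDomain Module
open Pool.Agent.Q5.MZ (KData TwoPow TwoUnram OneDyadic OddClass matA matB S438 dfst HL S_KU S_GB S_EM S_BC IsCC)

namespace HLQN

/-! ### the kernel of `q` -/

section ring
variable {A B : Type} [CommRing A] [CommRing B] {q : B →+* A}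

theorem not_unit_of_ker [Nontrivial A] {e : B} (he : q e = 0) : ¬ IsUnit e := by
  intro h
  have h1 := h.map q
  rw [he] at h1
  exact not_isUnit_zero h1

/-- nonunits kill the kernel -/
theorem mul_ker [Nontrivial A] [IsLocalRing B] (hker : Nat.card (RingHom.ker q) = 2) {b e : B}
    (hb : ¬ IsUnit b) (he : q e = 0) : b * e = 0 := by
  by_contra hne
  have he0 : e ≠ 0 := by
    rintro rfl
    exact hne (mul_zero b)
  have h1 : b * e = e := by
    by_contra hne2
    have hfin : Finite (RingHom.ker q) := Nat.finite_of_card_ne_zero (by rw [hker]; norm_num)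
    have hinj : Function.Injective (![⟨0, map_zero q⟩, ⟨e, he⟩, ⟨b * e, by
        rw [RingHom.mem_ker, map_mul, he, mul_zero]⟩] : Fin 3 → RingHom.ker q) := by
      intro i j hij
      have h2 := congrArg (fun z : RingHom.ker q => (z : B)) hij
      fin_cases i <;> fin_cases j <;> simp at h2 ⊢
      · exact he0 h2.symm
      · exact hne h2.symm
      · exact he0 h2
      · exact hne2 h2.symm
      · exact hne h2
      · exact hne2 h2
    have h3 := Nat.card_le_card_of_injective _ hinj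
    rw [hker, Nat.card_fin] at h3
    omega
  have h2 : (1 - b) * e = 0 := by
    rw [sub_mul, one_mul, h1, sub_self]
  have h3 : IsUnit (1 - b) := by
    rcases IsLocalRing.isUnit_or_isUnit_of_add_one (show b + (1 - b) = 1 by ring) with h | h
    · exact absurd h hb
    · exact h
  exact he0 ((h3.mul_right_eq_zero).1 h2)

/-- lifting of invertible matrices -/
theorem lift_gl [Nontrivial A] [IsLocalRing B] (hq : Function.Surjective q) (a : GL (Fin 3) A) :
    ∃ y : GL (Fin 3) B, Matrix.GeneralLinearGroup.map q y = a := by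
  choose f hf using hq
  have hloc : IsLocalHom q := IsLocalHom.of_surjective q (fun x => ⟨f x, hf x⟩)
  let M : Matrix (Fin 3) (Fin 3) B := Matrix.of fun i j => f ((a : Matrix (Fin 3) (Fin 3) A) i j)
  have hM : q.mapMatrix M = (a : Matrix (Fin 3) (Fin 3) A) := by
    ext i j
    rw [RingHom.mapMatrix_apply, Matrix.map_apply]
    exact hf _
  have hdet : IsUnit M.det := by
    apply isUnit_of_map_unit q
    rw [RingHom.map_det, hM]
    exact (Matrix.isUnit_iff_isUnit_det _).1 a.isUnit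
  refine ⟨Matrix.GeneralLinearGroup.mk'' M hdet, ?_⟩
  ext i j
  change q (M i j) = _
  exact hf _

theorem entry_ker {y : GL (Fin 3) B} (hy : Matrix.GeneralLinearGroup.map q y = 1) (i j : Fin 3) :
    q (((y : Matrix (Fin 3) (Fin 3) B) - 1) i j) = 0 := by
  have h1 : q ((y : Matrix (Fin 3) (Fin 3) B) i j) = (1 : Matrix (Fin 3) (Fin 3) A) i j := by
    have h2 := congrArg (fun z : GL (Fin 3) A => (z : Matrix (Fin 3) (Fin 3) A) i j) hy
    exact h2
  rw [Matrix.sub_apply, map_sub, h1]
  have h3 : q ((1 : Matrix (Fin 3) (Fin 3) B) i j) = (1 : Matrix (Fin 3) (Fin 3) A) i j := by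
    rw [Matrix.one_apply, Matrix.one_apply]
    split_ifs
    · exact map_one q
    · exact map_zero q
  rw [h3, sub_self]

/-- products of a matrix of nonunits and a matrix with entries in the kernel -/
theorem mat_mul_ker [Nontrivial A] [IsLocalRing B] (hker : Nat.card (RingHom.ker q) = 2)
    {Z Y : Matrix (Fin 3) (Fin 3) B} (hZ : ∀ i j, ¬ IsUnit (Z i j)) (hY : ∀ i j, q (Y i j) = 0) :
    Z * Y = 0 ∧ Y * Z = 0 := by
  constructor
  · ext i j
    rw [Matrix.mul_apply, Matrix.zero_apply]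
    exact Finset.sum_eq_zero fun k _ => mul_ker hker (hZ i k) (hY k j)
  · ext i j
    rw [Matrix.mul_apply, Matrix.zero_apply]
    refine Finset.sum_eq_zero fun k _ => ?_
    rw [mul_comm]
    exact mul_ker hker (hZ k j) (hY i k)

/-- the kernel has exponent two -/
theorem sq_ker [Nontrivial A] [IsLocalRing B] (hker : Nat.card (RingHom.ker q) = 2)
    (h2 : (2 : B) = 0) {y : GL (Fin 3) B} (hy : Matrix.GeneralLinearGroup.map q y = 1) :
    y ^ 2 = 1 := by
  obtain ⟨Y, hYd⟩ : ∃ Y, Y = (y : Matrix (Fin 3) (Fin 3) B) - 1 := ⟨_, rfl⟩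
  have hY : ∀ i j, q (Y i j) = 0 := fun i j => by
    rw [hYd]
    exact entry_ker hy i j
  have hy1 : (y : Matrix (Fin 3) (Fin 3) B) = 1 + Y := by
    rw [hYd]
    abel
  have hYY : Y * Y = 0 := (mat_mul_ker hker (fun i j => not_unit_of_ker (hY i j)) hY).1
  have hY2 : Y + Y = 0 := by
    ext i j
    rw [Matrix.add_apply, Matrix.zero_apply, ← two_mul, h2, zero_mul]
  apply Units.ext
  rw [Units.val_pow_eq_pow_val, hy1, sq, Units.val_one]
  calc (1 + Y) * (1 + Y) = 1 + (Y + Y) + Y * Y := by noncomm_ring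
    _ = 1 := by rw [hY2, hYY, add_zero, add_zero]

/-- matrices which are trivial modulo the maximal ideal centralize the kernel -/
theorem comm_ker [Nontrivial A] [IsLocalRing B] (hker : Nat.card (RingHom.ker q) = 2)
    (red : A →+* ZMod 2) {y z : GL (Fin 3) B} (hy : Matrix.GeneralLinearGroup.map q y = 1)
    (hz : Matrix.GeneralLinearGroup.map red (Matrix.GeneralLinearGroup.map q z) = 1) :
    y * z = z * y := by
  obtain ⟨Y, hYd⟩ : ∃ Y, Y = (y : Matrix (Fin 3) (Fin 3) B) - 1 := ⟨_, rfl⟩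
  obtain ⟨Z, hZd⟩ : ∃ Z, Z = (z : Matrix (Fin 3) (Fin 3) B) - 1 := ⟨_, rfl⟩
  have hY : ∀ i j, q (Y i j) = 0 := fun i j => by
    rw [hYd]
    exact entry_ker hy i j
  have hZ : ∀ i j, ¬ IsUnit (Z i j) := by
    intro i j
    have h1 : (red.comp q) (Z i j) = 0 := by
      rw [hZd]
      exact entry_ker (q := red.comp q) (y := z) hz i j
    exact not_unit_of_ker h1
  obtain ⟨h1, h2⟩ := mat_mul_ker hker hZ hY
  have hy1 : (y : Matrix (Fin 3) (Fin 3) B) = 1 + Y := by
    rw [hYd]
    abel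
  have hz1 : (z : Matrix (Fin 3) (Fin 3) B) = 1 + Z := by
    rw [hZd]
    abel
  apply Units.ext
  rw [Units.val_mul, Units.val_mul, hy1, hz1]
  calc (1 + Y) * (1 + Z) = 1 + Y + Z + Y * Z := by noncomm_ring
    _ = 1 + Z + Y + Z * Y := by
      rw [h1, h2]
      abel
    _ = (1 + Z) * (1 + Y) := by noncomm_ring

end ring

/-! ### embeddings in `ℂ` -/

/-- two embeddings of a Galois extension of `ℚ` in `ℂ` differ by an automorphism -/
theorem emb_eq (E : Type) [Field E] [NumberField E] [IsGalois ℚ E] (f χ : E →+* ℂ) :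
    ∃ τ : E ≃ₐ[ℚ] E, ∀ x, χ x = f (τ x) := by
  let _ : Algebra E ℂ := f.toAlgebra
  have hT : IsScalarTower ℚ E ℂ := inferInstance
  let χ' : E →ₐ[ℚ] ℂ := χ.toRatAlgHom
  refine ⟨χ'.restrictNormal' E, fun x => ?_⟩
  have h := AlgHom.restrictNormal_commutes χ' E x
  exact h.symm

/-- the fibre product -/
def XX {A B : Type} [CommRing A] [CommRing B] (q : B →+* A) {E : Type} [Group E]
    (rA' : E →* GL (Fin 3) A) : Subgroup (GL (Fin 3) B × E) :=
  MonoidHom.eqLocus ((Matrix.GeneralLinearGroup.map q).comp (MonoidHom.fst _ _))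
    (rA'.comp (MonoidHom.snd _ _))

end HLQN

open HLQN

/-- **JOB HLQ.** -/
theorem hlq : J_HLQ := by
  intro hEM hQR hQE hQC K _ _ r hK κ rbar φ c hrb hφ A B _ _ redA q rA x hfB hloc h2 hq hker hnt
    hopen hred hKr hxc hx2
  obtain ⟨E, _, _, _, ι, hFam, hE⟩ := hQC K r hK κ (GL (Fin 3) A) rA hopen hKr
  have hιinj : Function.Injective (fun x : E => ι x) := ι.toRingHom.injective
  have hGK : IsGalois ℚ K := hK.gal
  have hGE : IsGalois ℚ E := hFam.gal
  obtain ⟨res, hsurj, -, hres⟩ := hQR E ι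
  have hle : res.ker ≤ rA.ker := by
    intro g hg
    refine hE g fun y => ?_
    have h1 := hres g y
    rw [MonoidHom.mem_ker.1 hg] at h1
    exact h1.symm
  let rA' : (E ≃ₐ[ℚ] E) →* GL (Fin 3) A := (MonoidHom.liftOfSurjective res hsurj) ⟨rA, hle⟩
  have hrA' : ∀ g, rA' (res g) = rA g := fun g =>
    MonoidHom.liftOfRightInverse_comp_apply res _ _ ⟨rA, hle⟩ g
  let X : Subgroup (GL (Fin 3) B × (E ≃ₐ[ℚ] E)) := XX q rA'
  have hXmem : ∀ p : GL (Fin 3) B × (E ≃ₐ[ℚ] E), p ∈ X ↔
      Matrix.GeneralLinearGroup.map q p.1 = rA' p.2 := fun p => Iff.rfl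
  have hfE : Finite (E ≃ₐ[ℚ] E) := inferInstance
  have hfM : Finite (Matrix (Fin 3) (Fin 3) B) := Pi.finite
  have hfGL : Finite (GL (Fin 3) B) :=
    Finite.of_injective (fun y : GL (Fin 3) B => (y : Matrix (Fin 3) (Fin 3) B))
      fun _ _ h => Units.ext h
  have hfX : Finite X := inferInstance
  let π : X →* (E ≃ₐ[ℚ] E) := (MonoidHom.snd _ _).comp X.subtype
  have hπ : ∀ p : X, π p = p.1.2 := fun _ => rfl
  have hπs : Function.Surjective π := by
    intro s
    obtain ⟨y, hy⟩ := lift_gl hq (rA' s)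
    exact ⟨⟨(y, s), hy⟩, rfl⟩
  have hkerX : ∀ p ∈ π.ker, Matrix.GeneralLinearGroup.map q p.1.1 = 1 := by
    intro p hp
    have h3 : p.1.2 = 1 := hp
    have h4 := (hXmem p.1).1 p.2
    rw [h3, map_one] at h4
    exact h4
  have h5 : ∀ p ∈ π.ker, p ^ 2 = 1 := by
    intro p hp
    apply Subtype.ext
    refine Prod.ext ?_ ?_
    · exact sq_ker hker h2 (hkerX p hp)
    · have h3 : p.1.2 = 1 := hp
      change p.1.2 ^ 2 = 1
      rw [h3, one_pow]
  have h6 : ∀ p ∈ π.ker, ∀ y : X, (∀ a : K, π y (algebraMap K E a) = algebraMap K E a) →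
      p * y = y * p := by
    intro p hp y hy
    apply Subtype.ext
    refine Prod.ext ?_ ?_
    · refine comm_ker hker redA (hkerX p hp) ?_
      rw [(hXmem y.1).1 y.2]
      obtain ⟨g, hg⟩ := hsurj y.1.2
      rw [← hg, hrA', hred]
      have h7 := hrb g 1 (fun a => ?_)
      · rw [h7, map_one]
      · rw [AlgEquiv.one_apply, ← hFam.comp a, ← hres g, hg]
        exact congrArg ι (hy a).symm
    · have h3 : p.1.2 = 1 := hp
      change p.1.2 * y.1.2 = y.1.2 * p.1.2
      rw [h3, one_mul, mul_one]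
  have h7 : ∀ σ : E ≃ₐ[ℚ] E, IsCC σ → ∃ p : X, π p = σ ∧ p ^ 2 = 1 := by
    rintro σ ⟨χ, hχ⟩
    obtain ⟨τ, hτ⟩ := emb_eq E (φ.comp (ι : E →+* QSm)) χ
    have h8 : ∀ y : E, τ (σ y) = res c (τ y) := by
      intro y
      apply hιinj
      beta_reduce
      apply φ.injective
      have e1 : φ (ι (τ (σ y))) = χ (σ y) := (hτ (σ y)).symm
      have e2 : φ (ι (res c (τ y))) = (starRingEnd ℂ) (χ y) := by
        rw [hres, hφ, hτ y]
        rfl
      rw [e1, e2, hχ]
    have hc2 : res c * res c = 1 := by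
      ext y
      apply hιinj
      beta_reduce
      apply φ.injective
      rw [AlgEquiv.mul_apply, hres, hres, hφ, hφ, AlgEquiv.one_apply]
      exact Complex.conj_conj _
    obtain ⟨z, hz⟩ := hπs τ
    let xc : X := ⟨(x, res c), by rw [hXmem]; rw [hxc, hrA']⟩
    have hxc2 : xc * xc = 1 := by
      apply Subtype.ext
      refine Prod.ext ?_ ?_
      · change x * x = 1
        rw [← sq, hx2]
      · exact hc2
    refine ⟨z⁻¹ * xc * z, ?_, ?_⟩
    · rw [map_mul, map_mul, map_inv, hz]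
      have h9 : π xc = res c := rfl
      rw [h9]
      ext y
      rw [AlgEquiv.mul_apply, AlgEquiv.mul_apply, ← h8 y]
      change (τ⁻¹ * τ) (σ y) = σ y
      rw [inv_mul_cancel, AlgEquiv.one_apply]
    · rw [sq]
      calc z⁻¹ * xc * z * (z⁻¹ * xc * z) = z⁻¹ * (xc * xc) * z := by group
        _ = 1 := by rw [hxc2, mul_one, inv_mul_cancel]
  have hodd : Odd (finrank ℚ K) := by
    rw [hK.deg]
    decide
  obtain ⟨E', _, _, _, _, _, hGE', hP', hU', ψ, hψ⟩ := hEM K E X π hodd hK.one hK.odd hFam.two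
    hFam.unr hπs h5 h6 h7
  obtain ⟨ι', hι'⟩ := (hQE K r hK).1 E E' ι hGE' hP' hU'
  have hιinj' : Function.Injective (fun x : E' => ι' x) := ι'.toRingHom.injective
  have hFam' : Fam K κ E' ι' := by
    refine ⟨hGE', hP', hU', fun a => ?_⟩
    rw [IsScalarTower.algebraMap_apply K E E', hι', hFam.comp]
  obtain ⟨res', hsurj', hop', hres'⟩ := hQR E' ι'
  let rB : GQ →* GL (Fin 3) B := (((MonoidHom.fst _ _).comp X.subtype).comp ψ).comp res'
  refine ⟨rB, ?_, ?_, ?_⟩
  · refine Subgroup.isOpen_mono ?_ hop'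
    intro g hg
    rw [MonoidHom.mem_ker]
    change ((ψ (res' g)).1).1 = 1
    rw [MonoidHom.mem_ker.1 hg, map_one]
    rfl
  · intro g hg
    have h8 : res' g = 1 := by
      ext y
      apply hιinj'
      beta_reduce
      rw [hres', AlgEquiv.one_apply]
      exact hg E' _ _ _ ι' hFam' y
    change ((ψ (res' g)).1).1 = 1
    rw [h8, map_one]
    rfl
  · intro g
    have h8 := (hXmem (ψ (res' g)).1).1 (ψ (res' g)).2
    have h9 : (ψ (res' g)).1.2 = res g := by
      have h10 := hψ (res' g)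
      rw [hπ] at h10
      rw [h10]
      ext y
      apply hιinj
      beta_reduce
      rw [hres, ← hι', AlgEquiv.restrictNormal_commutes, hres', hι']
    rw [h9, hrA'] at h8
    exact h8

end Pool.Agent.H429.MZQ
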