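import Pool.Agent.H429.MZQ.StmF

/-! Many lifts to the dual numbers (J_HTQ). -/

set_option autoImplicit false

namespace Pool.Agent.H429.MZQ

open NumberField IsDedekindDomain Module
open Pool.Agent.Q92.AR (Dv prin Unramified)
open Pool.Agent.Q5.MZ (KData TwoPow TwoUnram OneDyadic OddClass matA matB S438 dfst HL S_KU S_GB S_EM S_BC)

theorem htq : J_HTQ := by
  intro hTN hQE hQR K _ _ r hK κ rbar hrbar
  have hgalK : IsGalois ℚ K := hK.gal
  obtain ⟨E, iF, iN, iA, hgal, htp, htu, ρ, hρ1, hρ2⟩ := hTN K r hK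
  obtain ⟨ι, hι⟩ := (hQE K r hK).1 K E κ hgal htp htu
  obtain ⟨res, hsurj, hopen, hres⟩ := hQR E ι
  have hfam : Fam K κ E ι := ⟨hgal, htp, htu, hι⟩
  refine ⟨fun i => (ρ i).comp res, ?_, ?_, ?_, ?_⟩
  · intro i
    refine Subgroup.isOpen_mono (H₁ := res.ker) ?_ hopen
    intro g hg
    rw [MonoidHom.mem_ker] at hg ⊢
    rw [MonoidHom.comp_apply, hg, map_one]
  · intro i g hg
    have h1 : res g = 1 := by
      ext x
      have hinj : Function.Injective ι := ι.injective
      apply hinj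
      exact (hres g x).trans (hg E iF iN iA ι hfam x)
    rw [MonoidHom.comp_apply, h1, map_one]
  · intro i g
    rw [MonoidHom.comp_apply, hρ1]
    symm
    apply hrbar
    intro x
    rw [← hι, AlgEquiv.restrictNormal_commutes, hres, hι]
  · intro i j hij
    obtain ⟨g', hg', hne⟩ := hρ2 i j hij
    obtain ⟨g, rfl⟩ := hsurj g'
    refine ⟨g, ?_, hne⟩
    rw [hrbar g 1 ?_, map_one]
    intro x
    show κ x = g (κ x)
    rw [← hι, ← hres, hg']

end Pool.Agent.H429.MZQ
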