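import Pool.Graph.R_pool_sql_team_seeded_3997aac3.Q5.MZ.Stm

/-!
# Project MZQ (helper429), `S_IN`: inflation is injective
-/

set_option autoImplicit false
set_option linter.unusedSectionVars false

namespace Pool.Agent.H429.MZQ

open NumberField IsDedekindDomain Module
open Pool.Agent.Q5.MZ

namespace INFN

variable {k L M : Type} [Field k] [Field L] [Field M] [Algebra k L] [Algebra k M] [Algebra L M]
  [IsScalarTower k L M] [Normal k L]

theorem rn_mul (g h : M ≃ₐ[k] M) : AlgEquiv.restrictNormal (g * h) L =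
    AlgEquiv.restrictNormal g L * AlgEquiv.restrictNormal h L :=
  map_mul (AlgEquiv.restrictNormalHom (F := k) (K₁ := M) L) g h

theorem rn_inv (g : M ≃ₐ[k] M) : AlgEquiv.restrictNormal g⁻¹ L =
    (AlgEquiv.restrictNormal g L)⁻¹ :=
  map_inv (AlgEquiv.restrictNormalHom (F := k) (K₁ := M) L) g

theorem rn_scal (n : M ≃ₐ[L] M) : AlgEquiv.restrictNormal (n.restrictScalars k) L = 1 := by
  ext x
  apply (algebraMap L M).injective
  rw [AlgEquiv.restrictNormal_commutes]
  simp

/-- an automorphism which is trivial on `L` -/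
theorem exists_scal (g : M ≃ₐ[k] M) (h : AlgEquiv.restrictNormal g L = 1) :
    ∃ n : M ≃ₐ[L] M, n.restrictScalars k = g := by
  refine ⟨{ g with commutes' := fun x => ?_ }, ?_⟩
  · have := AlgEquiv.restrictNormal_commutes g L x
    rw [h] at this
    exact this.symm
  · ext x
    rfl

end INFN

open INFN

theorem inf : Pool.Agent.Q5.MZ.S_IN := by
  intro k L M _ _ _ _ _ _ _ _ _ _ _ _ c hc hsp
  obtain ⟨b', hb''⟩ := hsp
  have hb' : ∀ g h : M ≃ₐ[k] M, (b' g : M) * g (b' h : M) = (b' (g * h) : M) *
      (((c (AlgEquiv.restrictNormal g L) (AlgEquiv.restrictNormal h L) : ℤˣ) : ℤ) : M) := hb''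
  have : IsGalois L M := IsGalois.tower_top_of_isGalois k L M
  have : FiniteDimensional L M := inferInstance
  have hc1 : ∀ j, c 1 j = 1 := by
    intro j
    have := hc.coc 1 1 j
    rw [one_mul, one_mul, hc.one, one_mul] at this
    exact (mul_eq_left.1 this.symm)
  have hc2 : ∀ g, c g 1 = 1 := by
    intro g
    have := hc.coc g 1 1
    rw [mul_one, mul_one, hc.one, one_mul] at this
    exact (mul_eq_right.1 this)
  -- the restriction to `Gal(M/L)` is a cocycle
  obtain ⟨u, hu⟩ := groupCohomology.isMulCoboundary₁_of_isMulCocycle₁_of_aut_to_units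
    (K := L) (L := M) (fun n => b' (n.restrictScalars k)) (by
      intro n n'
      have h := hb' (n.restrictScalars k) (n'.restrictScalars k)
      rw [rn_scal, rn_scal, hc.one] at h
      apply Units.ext
      have e : ((n * n').restrictScalars k : M ≃ₐ[k] M) =
        n.restrictScalars k * n'.restrictScalars k := rfl
      simp only [e]
      simp only [Units.val_one, Int.cast_one, mul_one] at h
      rw [Units.val_mul, ← h, mul_comm]
      rfl)
  have hu' : ∀ n : M ≃ₐ[L] M, (n (u : M)) = (b' (n.restrictScalars k) : M) * u := by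
    intro n
    have h := hu n
    rw [div_eq_iff_eq_mul] at h
    have := congrArg (fun x : Mˣ => (x : M)) h
    exact this
  set b2 : (M ≃ₐ[k] M) → M := fun g => (b' g : M) * u / g (u : M) with hb2
  have hgu : ∀ g : M ≃ₐ[k] M, g (u : M) ≠ 0 := fun g => by
    rw [Ne, map_eq_zero_iff _ g.injective]
    exact u.ne_zero
  have hb20 : ∀ g, b2 g ≠ 0 := fun g =>
    div_ne_zero (mul_ne_zero (b' g).ne_zero u.ne_zero) (hgu g)
  have hrel : ∀ g h : M ≃ₐ[k] M, b2 g * g (b2 h) = b2 (g * h) *
      (((c (AlgEquiv.restrictNormal g L) (AlgEquiv.restrictNormal h L) : ℤˣ) : ℤ) : M) := by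
    intro g h
    have h1 := hb' g h
    simp only [hb2]
    have e1 : g ((b' h : M) * u / h (u : M)) = g (b' h : M) * g (u : M) / g (h (u : M)) := by
      rw [map_div₀, map_mul]
    have e2 : (g * h) (u : M) = g (h (u : M)) := rfl
    rw [e1, e2]
    have h3 := hgu g
    have h4 : g (h (u : M)) ≠ 0 := hgu (g * h)
    field_simp
    linear_combination h1
  have hn1 : ∀ n : M ≃ₐ[k] M, AlgEquiv.restrictNormal n L = 1 → b2 n = 1 := by
    intro n hn
    obtain ⟨n', rfl⟩ := exists_scal n hn
    simp only [hb2]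
    have : (n'.restrictScalars k) (u : M) = n' (u : M) := rfl
    rw [this, hu']
    exact div_self (mul_ne_zero (b' _).ne_zero u.ne_zero)
  have hr1 : ∀ g n : M ≃ₐ[k] M, AlgEquiv.restrictNormal n L = 1 → b2 (g * n) = b2 g := by
    intro g n hn
    have h := hrel g n
    rw [hn1 n hn, hn, hc2, map_one] at h
    simpa using h.symm
  have hl1 : ∀ g n : M ≃ₐ[k] M, AlgEquiv.restrictNormal n L = 1 → b2 (n * g) = n (b2 g) := by
    intro g n hn
    have h := hrel n g
    rw [hn1 n hn, hn, hc1] at h
    simpa using h.symm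
  have hfix : ∀ g : M ≃ₐ[k] M, ∃ x : L, algebraMap L M x = b2 g := by
    intro g
    have : b2 g ∈ Set.range (algebraMap L M) := by
      rw [IsGalois.mem_range_algebraMap_iff_fixed]
      intro n
      have hn : AlgEquiv.restrictNormal (n.restrictScalars k) L = 1 := rn_scal n
      have h1 := hl1 g (n.restrictScalars k) hn
      have h2 : (n.restrictScalars k) * g = g * (g⁻¹ * (n.restrictScalars k) * g) := by group
      have h3 : AlgEquiv.restrictNormal (g⁻¹ * (n.restrictScalars k) * g) L = 1 := by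
        rw [rn_mul, rn_mul, hn, rn_inv, mul_one, inv_mul_cancel]
      rw [h2, hr1 g _ h3] at h1
      exact h1.symm
    exact this
  choose x hx using fun g : L ≃ₐ[k] L => hfix (AlgEquiv.liftNormal g M)
  have hx0 : ∀ g, x g ≠ 0 := by
    intro g h
    apply hb20 (AlgEquiv.liftNormal g M)
    rw [← hx g, h, map_zero]
  refine ⟨fun g => Units.mk0 (x g) (hx0 g), fun g h => ?_⟩
  apply (algebraMap L M).injective
  simp only [Units.val_mk0, map_mul, map_intCast]
  have e1 : algebraMap L M (g (x h)) = (AlgEquiv.liftNormal g M) (algebraMap L M (x h)) :=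
    (AlgEquiv.liftNormal_commutes g M (x h)).symm
  have e2 : AlgEquiv.restrictNormal (AlgEquiv.liftNormal g M) L = g := AlgEquiv.restrict_liftNormal _ g
  have e3 : AlgEquiv.restrictNormal (AlgEquiv.liftNormal h M) L = h := AlgEquiv.restrict_liftNormal _ h
  have e4 : AlgEquiv.restrictNormal (AlgEquiv.liftNormal (g * h) M) L = g * h :=
    AlgEquiv.restrict_liftNormal _ (g * h)
  rw [e1, hx, hx, hx, hrel, e2, e3]
  congr 1
  have h5 : AlgEquiv.liftNormal g M * AlgEquiv.liftNormal h M = AlgEquiv.liftNormal (g * h) M *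
      ((AlgEquiv.liftNormal (g * h) M)⁻¹ * (AlgEquiv.liftNormal g M * AlgEquiv.liftNormal h M)) := by
    group
  rw [h5]
  apply hr1
  rw [rn_mul, rn_inv, rn_mul, e2, e3, e4, inv_mul_cancel]

end Pool.Agent.H429.MZQ
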