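import Pool.Graph.R_pool_sql_team_seeded_3997aac3.Q5.MZ.Stm
import Pool.Graph.R_pool_sql_team_seeded_3997aac3.Q285.MZ.VE

/-!
# Project MZQ (helper429), `S_KP`: a quadratic extension making the decomposition group smaller
-/

set_option autoImplicit false
set_option linter.unusedSectionVars false

namespace Pool.Agent.H429.MZQ

open NumberField IsDedekindDomain Module
open Pool.Agent.TeamU (act Over)
open Pool.Agent.Q5.MZ
open Pool.Agent.Q285.MZ (over_of_under under_of_over ex_above val_act_eq act_res under_under)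

namespace KPN

section A

variable {k L : Type} [Field k] [NumberField k] [Field L] [NumberField L] [Algebra k L]

theorem act_inv_self (g : L ≃ₐ[k] L) (P : HeightOneSpectrum (𝓞 L)) : act g (act g⁻¹ P) = P := by
  rw [← Pool.Agent.TeamU.act_mul, mul_inv_cancel, Pool.Agent.TeamU.act_one]

theorem act_inv_eq {g : L ≃ₐ[k] L} {P : HeightOneSpectrum (𝓞 L)} (h : act g P = P) :
    act g⁻¹ P = P := by
  conv_lhs => rw [← h]
  rw [← Pool.Agent.TeamU.act_mul, inv_mul_cancel, Pool.Agent.TeamU.act_one]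

variable (k) in
/-- the decomposition group as a subgroup -/
def DecS (P : HeightOneSpectrum (𝓞 L)) : Subgroup (L ≃ₐ[k] L) where
  carrier := {g | act g P = P}
  one_mem' := Pool.Agent.TeamU.act_one P
  mul_mem' := fun {a b} ha hb => by
    show act (a * b) P = P
    rw [Pool.Agent.TeamU.act_mul, show act b P = P from hb, show act a P = P from ha]
  inv_mem' := fun {a} ha => act_inv_eq ha

theorem mem_DecS {P : HeightOneSpectrum (𝓞 L)} {g : L ≃ₐ[k] L} : g ∈ DecS k P ↔ act g P = P :=
  Iff.rfl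

open scoped Classical in
/-- approximation of invariants of the decomposition group by elements of `k` -/
theorem exists_approx [IsGalois k L] (P : HeightOneSpectrum (𝓞 L)) (γ : 𝓞 L)
    (hγ : ∀ g : L ≃ₐ[k] L, act g P = P → g (γ : L) = γ) (e : ℕ) :
    ∃ a : k, P.valuation L (algebraMap k L a - (Nat.card (DecS k P) : L) * (γ : L)) ≤
      WithZero.exp (-(e : ℤ)) := by
  have : FiniteDimensional k L := Module.Finite.of_restrictScalars_finite ℚ k L
  set s : Finset (HeightOneSpectrum (𝓞 L)) :=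
    Finset.univ.image (fun g : L ≃ₐ[k] L => act g⁻¹ P) with hs
  obtain ⟨β, hβ⟩ := IsDedekindDomain.exists_forall_sub_mem_ideal (s := s)
    (fun v : HeightOneSpectrum (𝓞 L) => v.asIdeal) (fun _ => e) (fun v _ => v.prime)
    (fun v _ w _ hvw h => hvw (HeightOneSpectrum.ext h)) (fun v => if v.1 = P then γ else 0)
  refine ⟨Algebra.trace k L (β : L), ?_⟩
  rw [trace_eq_sum_automorphisms]
  have hsum : (Nat.card (DecS k P) : L) * (γ : L) =
      ∑ g : L ≃ₐ[k] L, g (((if act g⁻¹ P = P then γ else 0 : 𝓞 L) : L)) := by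
    have h1 : ∀ g : L ≃ₐ[k] L, g (((if act g⁻¹ P = P then γ else 0 : 𝓞 L) : L)) =
        if g ∈ DecS k P then (γ : L) else 0 := by
      intro g
      by_cases hg : act g P = P
      · rw [if_pos (act_inv_eq hg), if_pos (mem_DecS.2 hg), hγ g hg]
      · have h2 : ¬ act g⁻¹ P = P := by
          intro h3
          apply hg
          have := act_inv_eq h3
          rwa [inv_inv] at this
        rw [if_neg h2, if_neg (fun h => hg (mem_DecS.1 h))]
        simp
    rw [Finset.sum_congr rfl fun g _ => h1 g, ← Finset.sum_filter, Finset.sum_const,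
      nsmul_eq_mul]
    congr 2
    rw [Nat.card_eq_fintype_card, Fintype.card_subtype]
  rw [hsum, ← Finset.sum_sub_distrib]
  apply Valuation.map_sum_le
  intro g _
  rw [← map_sub]
  have h1 := Pool.Agent.TeamU.val_act g (act g⁻¹ P)
    ((β : L) - ((if act g⁻¹ P = P then γ else 0 : 𝓞 L) : L))
  rw [act_inv_self] at h1
  rw [h1]
  have h2 : (β : L) - ((if act g⁻¹ P = P then γ else 0 : 𝓞 L) : L) =
      ((β - (if act g⁻¹ P = P then γ else 0) : 𝓞 L) : L) := by
    simp
  rw [h2]
  have h3 := HeightOneSpectrum.valuation_of_algebraMap (K := L) (act g⁻¹ P)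
    (β - (if act g⁻¹ P = P then γ else 0))
  rw [show ((β - (if act g⁻¹ P = P then γ else 0) : 𝓞 L) : L) =
    algebraMap (𝓞 L) L (β - (if act g⁻¹ P = P then γ else 0)) from rfl, h3,
    HeightOneSpectrum.intValuation_le_pow_iff_mem]
  exact hβ (act g⁻¹ P) (Finset.mem_image.2 ⟨g, Finset.mem_univ _, rfl⟩)

open scoped Classical in
/-- a quadratic character of the decomposition group and an eigenvector -/
theorem exists_eigen [IsGalois k L] (P : HeightOneSpectrum (𝓞 L)) (h2 : TwoPow k L)
    (hne : ∃ g ∈ Dec k P, g ≠ 1) : ∃ (χ : (L ≃ₐ[k] L) → ℤ) (s : 𝓞 L), s ≠ 0 ∧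
      (∀ g, act g P = P → (χ g = 1 ∨ χ g = -1)) ∧
      (∀ g, act g P = P → g (s : L) = (χ g : L) * s) ∧ ∃ g, act g P = P ∧ χ g = -1 := by
  have : FiniteDimensional k L := Module.Finite.of_restrictScalars_finite ℚ k L
  obtain ⟨m, hm⟩ := h2
  have hG : Nat.card (L ≃ₐ[k] L) = 2 ^ m := by rw [IsGalois.card_aut_eq_finrank, hm]
  have hdvd : Nat.card (DecS k P) ∣ 2 ^ m := by
    rw [← hG]
    exact Subgroup.card_subgroup_dvd_card _
  obtain ⟨r, -, hr⟩ := (Nat.dvd_prime_pow Nat.prime_two).1 hdvd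
  obtain ⟨g₀, hg₀, hg₀1⟩ := hne
  have hr0 : r ≠ 0 := by
    rintro rfl
    rw [pow_zero, Subgroup.card_eq_one] at hr
    have h1 : g₀ ∈ DecS k P := hg₀
    rw [hr, Subgroup.mem_bot] at h1
    exact hg₀1 h1
  obtain ⟨r, rfl⟩ := Nat.exists_eq_succ_of_ne_zero hr0
  have : Fact (Nat.Prime 2) := ⟨Nat.prime_two⟩
  obtain ⟨K, hK⟩ := Sylow.exists_subgroup_card_pow_prime (G := DecS k P) 2 (n := r)
    (by rw [hr]; exact pow_dvd_pow 2 (Nat.le_succ r))
  have hidx : K.index = 2 := by
    have h1 := Subgroup.card_mul_index K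
    rw [hK, hr, pow_succ] at h1
    exact Nat.eq_of_mul_eq_mul_left (by positivity) h1
  set χ0 : DecS k P → ℤ := fun d => if d ∈ K then 1 else -1 with hχ0
  have hχmul : ∀ a b, χ0 (a * b) = χ0 a * χ0 b := by
    intro a b
    simp only [hχ0]
    have h1 := Subgroup.mul_mem_iff_of_index_two hidx (a := a) (b := b)
    by_cases ha : a ∈ K <;> by_cases hb : b ∈ K
    · rw [if_pos ha, if_pos hb, if_pos (h1.2 ⟨fun _ => hb, fun _ => ha⟩)]; norm_num
    · rw [if_pos ha, if_neg hb, if_neg (fun h => hb ((h1.1 h).1 ha))]; norm_num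
    · rw [if_neg ha, if_pos hb, if_neg (fun h => ha ((h1.1 h).2 hb))]; norm_num
    · rw [if_neg ha, if_neg hb,
        if_pos (h1.2 ⟨fun h => absurd h ha, fun h => absurd h hb⟩)]; norm_num
  have hχpm : ∀ d, χ0 d = 1 ∨ χ0 d = -1 := by
    intro d
    simp only [hχ0]
    split_ifs
    · exact Or.inl rfl
    · exact Or.inr rfl
  -- an element outside `K`
  have hout : ∃ d : DecS k P, d ∉ K := by
    by_contra h
    push Not at h
    have h1 : K = ⊤ := by
      ext d
      exact ⟨fun _ => Subgroup.mem_top d, fun _ => h d⟩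
    rw [h1, Subgroup.index_top] at hidx
    norm_num at hidx
  -- Dedekind
  have hinj : Function.Injective (fun d : DecS k P =>
      (((d : L ≃ₐ[k] L) : L →* L).comp ((algebraMap (𝓞 L) L : 𝓞 L →+* L) : 𝓞 L →* L))) := by
    intro d d' h
    apply Subtype.ext
    ext x
    obtain ⟨a, b, hb, rfl⟩ := IsFractionRing.div_surjective (A := 𝓞 L) x
    have h1 : ∀ c : 𝓞 L, (d : L ≃ₐ[k] L) (algebraMap (𝓞 L) L c) =
        (d' : L ≃ₐ[k] L) (algebraMap (𝓞 L) L c) := fun c => DFunLike.congr_fun h c
    rw [map_div₀, map_div₀, h1, h1]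
  have hli := (linearIndependent_monoidHom (𝓞 L) L).comp _ hinj
  rw [Fintype.linearIndependent_iff] at hli
  obtain ⟨θ, hθ⟩ : ∃ θ : 𝓞 L, ∑ d : DecS k P, (χ0 d : L) * (d : L ≃ₐ[k] L) (θ : L) ≠ 0 := by
    by_contra hcon
    push Not at hcon
    have h1 := hli (fun d => (χ0 d : L)) (by
      funext θ
      have h2 := hcon θ
      simpa [Finset.sum_apply] using h2) 1
    have h3 : χ0 1 = 0 := by exact_mod_cast h1
    rcases hχpm 1 with h | h <;> rw [h] at h3 <;> norm_num at h3
  have hint : IsIntegral ℤ (∑ d : DecS k P, (χ0 d : L) * (d : L ≃ₐ[k] L) (θ : L)) := by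
    apply IsIntegral.sum
    intro d _
    apply IsIntegral.mul
    · exact isIntegral_algebraMap (R := ℤ) (A := L) (x := χ0 d)
    · exact (RingOfIntegers.isIntegral_coe θ).map ((d : L ≃ₐ[k] L).toAlgHom.restrictScalars ℤ)
  have hχval : ∀ (g : L ≃ₐ[k] L) (hg : act g P = P),
      (fun g => if h : g ∈ DecS k P then χ0 ⟨g, h⟩ else 1 : (L ≃ₐ[k] L) → ℤ) g =
        χ0 ⟨g, hg⟩ := fun g hg => dif_pos hg
  refine ⟨fun g => if h : g ∈ DecS k P then χ0 ⟨g, h⟩ else 1, ⟨_, hint⟩, ?_, ?_, ?_, ?_⟩
  · intro h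
    apply hθ
    exact congrArg (fun x : 𝓞 L => (x : L)) h
  · intro g hg
    rw [hχval g hg]
    exact hχpm _
  · intro g hg
    rw [hχval g hg]
    change g (∑ d : DecS k P, (χ0 d : L) * (d : L ≃ₐ[k] L) (θ : L)) =
      (χ0 ⟨g, hg⟩ : L) * ∑ d : DecS k P, (χ0 d : L) * (d : L ≃ₐ[k] L) (θ : L)
    rw [map_sum, Finset.mul_sum, ← Equiv.sum_comp (Equiv.mulLeft (⟨g, hg⟩ : DecS k P))
      (fun d : DecS k P => (χ0 ⟨g, hg⟩ : L) * ((χ0 d : L) * (d : L ≃ₐ[k] L) (θ : L)))]
    refine Finset.sum_congr rfl fun d _ => ?_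
    rw [Equiv.coe_mulLeft, hχmul, map_mul, map_intCast]
    have h1 : ((χ0 ⟨g, hg⟩ : ℤ) : L) * ((χ0 ⟨g, hg⟩ : ℤ) : L) = 1 := by
      rcases hχpm ⟨g, hg⟩ with h | h <;> rw [h] <;> norm_num
    have h2 : (((⟨g, hg⟩ * d : DecS k P) : L ≃ₐ[k] L)) (θ : L) =
        g ((d : L ≃ₐ[k] L) (θ : L)) := rfl
    rw [h2]
    push_cast
    linear_combination (-(χ0 d : L) * g ((d : L ≃ₐ[k] L) (θ : L))) * h1
  · obtain ⟨d, hd⟩ := hout
    refine ⟨d, d.2, ?_⟩
    have h1 := hχval (d : L ≃ₐ[k] L) d.2
    rw [h1]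
    simp only [hχ0]
    exact if_neg hd

end A

section B

variable {k L M : Type} [Field k] [NumberField k] [Field L] [NumberField L] [Field M]
  [NumberField M] [Algebra k L] [Algebra k M] [Algebra L M] [IsScalarTower k L M]

/-- the Galois action commutes with restriction of primes -/
theorem under_act [Normal k L] (g : M ≃ₐ[k] M) (Q : HeightOneSpectrum (𝓞 M)) :
    (act g Q).under (𝓞 L) = act (AlgEquiv.restrictNormal g L) (Q.under (𝓞 L)) := by
  apply HeightOneSpectrum.ext
  ext x
  change algebraMap (𝓞 L) (𝓞 M) x ∈ (act g Q).asIdeal ↔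
    x ∈ (act (AlgEquiv.restrictNormal g L) (Q.under (𝓞 L))).asIdeal
  rw [Pool.Agent.TeamU.mem_act, Pool.Agent.TeamU.mem_act]
  change _ ↔ algebraMap (𝓞 L) (𝓞 M) ((RingOfIntegers.mapRingEquiv
    (AlgEquiv.restrictNormal g L).toRingEquiv).symm x) ∈ Q.asIdeal
  have h : (RingOfIntegers.mapRingEquiv g.toRingEquiv).symm (algebraMap (𝓞 L) (𝓞 M) x) =
      algebraMap (𝓞 L) (𝓞 M) ((RingOfIntegers.mapRingEquiv
        (AlgEquiv.restrictNormal g L).toRingEquiv).symm x) := by
    apply RingOfIntegers.ext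
    change g.symm (algebraMap L M (x : L)) =
      algebraMap L M ((AlgEquiv.restrictNormal g L).symm (x : L))
    rw [AlgEquiv.symm_apply_eq, ← AlgEquiv.restrictNormal_commutes, AlgEquiv.apply_symm_apply]
  rw [h]

/-- elements of the decomposition group can be lifted -/
theorem exists_lift [IsGalois k L] [IsGalois k M] {Q : HeightOneSpectrum (𝓞 M)}
    {P : HeightOneSpectrum (𝓞 L)} (hQ : Q.under (𝓞 L) = P) {d : L ≃ₐ[k] L} (hd : act d P = P) :
    ∃ g : M ≃ₐ[k] M, act g Q = Q ∧ AlgEquiv.restrictNormal g L = d := by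
  have : IsGalois L M := IsGalois.tower_top_of_isGalois k L M
  set g₀ : M ≃ₐ[k] M := AlgEquiv.liftNormal d M with hg₀
  have hr : AlgEquiv.restrictNormal g₀ L = d := AlgEquiv.restrict_liftNormal _ d
  have h1 : (act g₀ Q).under (𝓞 L) = P := by
    rw [under_act, hr, hQ, hd]
  obtain ⟨h, hh⟩ := Pool.Agent.TeamU.exists_act (k := L) (over_of_under h1) (over_of_under hQ)
  refine ⟨h.restrictScalars k * g₀, ?_, ?_⟩
  · rw [Pool.Agent.TeamU.act_mul, act_res, hh]
  · have h2 : AlgEquiv.restrictNormal (h.restrictScalars k * g₀) L =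
        AlgEquiv.restrictNormal (h.restrictScalars k) L * AlgEquiv.restrictNormal g₀ L :=
      map_mul (AlgEquiv.restrictNormalHom (F := k) (K₁ := M) L) _ _
    have h3 : AlgEquiv.restrictNormal (h.restrictScalars k) L = 1 := by
      ext x
      apply (algebraMap L M).injective
      rw [AlgEquiv.restrictNormal_commutes]
      simp
    rw [h2, h3, hr, one_mul]

end B

section C

variable {k L M : Type} [Field k] [NumberField k] [Field L] [NumberField L] [Field M]
  [NumberField M] [Algebra k L] [Algebra k M] [Algebra L M] [IsScalarTower k L M]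

theorem not_both {Q : HeightOneSpectrum (𝓞 M)} {r t : M}
    (hval : Q.valuation M (r - t) < Q.valuation M (2 * t)) :
    Q.valuation M (r + t) ≠ Q.valuation M (r - t) := by
  intro h
  have h1 : 2 * t = (r + t) - (r - t) := by ring
  have h2 : Q.valuation M (2 * t) ≤ max (Q.valuation M (r + t)) (Q.valuation M (r - t)) := by
    rw [h1]
    exact Valuation.map_sub _ _ _
  rw [h, max_self] at h2
  exact absurd hval (not_lt.2 h2)

/-- the behaviour of the square root on the decomposition group -/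
theorem key [IsGalois k L] {P : HeightOneSpectrum (𝓞 L)}
    {χ : (L ≃ₐ[k] L) → ℤ} (hχ : ∀ g, act g P = P → (χ g = 1 ∨ χ g = -1))
    {t : L} (hgt : ∀ g, act g P = P → g t = (χ g : L) * t)
    {a : k} {r : M} (hr : r ^ 2 = algebraMap k M a)
    {Q : HeightOneSpectrum (𝓞 M)} (hQ : Q.under (𝓞 L) = P)
    (hval : Q.valuation M (r - algebraMap L M t) < Q.valuation M (2 * algebraMap L M t))
    (g : M ≃ₐ[k] M) (hg : act g Q = Q) :
    act (AlgEquiv.restrictNormal g L) P = P ∧
      g r = (χ (AlgEquiv.restrictNormal g L) : M) * r := by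
  have hd : act (AlgEquiv.restrictNormal g L) P = P := by
    have h := under_act (L := L) g Q
    rw [hg, hQ] at h
    exact h.symm
  refine ⟨hd, ?_⟩
  set d := AlgEquiv.restrictNormal g L with hdd
  have hgt' : g (algebraMap L M t) = (χ d : M) * algebraMap L M t := by
    rw [← AlgEquiv.restrictNormal_commutes, ← hdd, hgt d hd, map_mul, map_intCast]
  have hgr : g r = r ∨ g r = -r := by
    have h1 : (g r) ^ 2 = r ^ 2 := by
      rw [← map_pow, hr, AlgEquiv.commutes]
    exact sq_eq_sq_iff_eq_or_eq_neg.1 h1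
  have hv : Q.valuation M (g (r - algebraMap L M t)) = Q.valuation M (r - algebraMap L M t) :=
    val_act_eq hg _
  rw [map_sub, hgt'] at hv
  rcases hχ d hd with h1 | h1
  · rw [h1] at hv ⊢
    rw [Int.cast_one, one_mul] at hv ⊢
    rcases hgr with h2 | h2
    · exact h2
    · exfalso
      rw [h2] at hv
      apply not_both hval
      rw [← hv, ← Valuation.map_neg]
      congr 1
      ring
  · rw [h1] at hv ⊢
    rw [Int.cast_neg, Int.cast_one, neg_mul, one_mul] at hv ⊢
    rcases hgr with h2 | h2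
    · exfalso
      rw [h2] at hv
      apply not_both hval
      rw [← hv]
      congr 1
      ring
    · exact h2

open IntermediateField in
theorem kp_core [IsGalois k L] [IsGalois k M] (P : HeightOneSpectrum (𝓞 L)) (h2 : TwoPow k L)
    (χ : (L ≃ₐ[k] L) → ℤ) (hχ : ∀ g, act g P = P → (χ g = 1 ∨ χ g = -1))
    (t : L) (hgt : ∀ g, act g P = P → g t = (χ g : L) * t)
    (hneg : ∃ g, act g P = P ∧ χ g = -1)
    (a : k) (r : M) (hr : r ^ 2 = algebraMap k M a)
    (Q : HeightOneSpectrum (𝓞 M)) (hQ : Q.under (𝓞 L) = P)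
    (hval : Q.valuation M (r - algebraMap L M t) < Q.valuation M (2 * algebraMap L M t))
    (hgen : ∀ g : M ≃ₐ[k] M, (∀ x : L, g (algebraMap L M x) = algebraMap L M x) →
      g r = r → g = 1) :
    ∃ (F : Type) (_ : Field F) (_ : NumberField F) (_ : Algebra k F) (_ : Algebra F M)
      (_ : IsScalarTower k F M) (_ : IsGalois k F), finrank k F = 2 ∧ TwoPow k M ∧
      Gen2 k F L M ∧ NonSplit F (P.under (𝓞 k)) ∧ Nat.card (Dec F Q) < Nat.card (Dec k P) := by
  have hfd : FiniteDimensional k M := Module.Finite.of_restrictScalars_finite ℚ k M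
  have hfdL : FiniteDimensional k L := Module.Finite.of_restrictScalars_finite ℚ k L
  have hkey := key hχ hgt hr hQ hval
  obtain ⟨d₁, hd₁, hχ₁⟩ := hneg
  obtain ⟨g₁, hg₁, hg₁d⟩ := exists_lift hQ hd₁
  have hr0 : r ≠ 0 := by
    rintro rfl
    apply not_both hval
    rw [zero_add, zero_sub, Valuation.map_neg]
  have hg₁r : g₁ r = -r := by
    have := (hkey g₁ hg₁).2
    rw [hg₁d, hχ₁] at this
    simpa using this
  have hrr : r ≠ -r := by
    intro h
    apply hr0
    have h3 : (2 : M) * r = 0 := by linear_combination h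
    rcases mul_eq_zero.1 h3 with h4 | h4
    · norm_num at h4
    · exact h4
  have hrF : r ∈ (k⟮r⟯ : IntermediateField k M) := mem_adjoin_simple_self k r
  have hint : IsIntegral k r := Algebra.IsIntegral.isIntegral r
  have hfin : finrank k k⟮r⟯ = 2 := by
    rw [adjoin.finrank hint]
    apply le_antisymm
    · have h3 : minpoly k r ∣ Polynomial.X ^ 2 - Polynomial.C a := by
        apply minpoly.dvd
        simp [hr]
      have h4 := Polynomial.natDegree_le_of_dvd h3 (Polynomial.X_pow_sub_C_ne_zero (by norm_num) a)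
      rwa [Polynomial.natDegree_X_pow_sub_C] at h4
    · rw [minpoly.two_le_natDegree_iff hint]
      rintro ⟨c, hc⟩
      apply hrr
      rw [← hg₁r, ← hc]
      exact (g₁.commutes c).symm
  have hpm : ∀ σ : M →ₐ[k] M, σ r = r ∨ σ r = -r := by
    intro σ
    have h1 : (σ r) ^ 2 = r ^ 2 := by
      rw [← map_pow, hr, AlgHom.commutes]
    exact sq_eq_sq_iff_eq_or_eq_neg.1 h1
  have hnorm : Normal k k⟮r⟯ := by
    rw [normal_iff_forall_map_le]
    intro σ
    rw [adjoin_map, adjoin_le_iff]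
    rintro x ⟨y, hy, rfl⟩
    rw [Set.mem_singleton_iff] at hy
    subst hy
    rcases hpm σ with h | h
    · change σ y ∈ k⟮y⟯
      rw [h]; exact hrF
    · change σ y ∈ k⟮y⟯
      rw [h]; exact neg_mem hrF
  have hgal : IsGalois k k⟮r⟯ := ⟨⟩
  have hG2 : Gen2 k k⟮r⟯ L M := fun g hF hL => hgen g hL (hF ⟨r, hrF⟩)
  refine ⟨k⟮r⟯, inferInstance, inferInstance, inferInstance, inferInstance, inferInstance, hgal,
    hfin, ?_, hG2, ?_, ?_⟩
  · -- `TwoPow k M`
    obtain ⟨m, hm⟩ := h2
    have hinj : Function.Injective ((AlgEquiv.restrictNormalHom (F := k) (K₁ := M) L).prod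
        (AlgEquiv.restrictNormalHom (F := k) (K₁ := M) k⟮r⟯)) := by
      rw [injective_iff_map_eq_one]
      intro g hg
      have h3 : AlgEquiv.restrictNormal g L = 1 := congrArg Prod.fst hg
      have h4 : AlgEquiv.restrictNormal g k⟮r⟯ = 1 := congrArg Prod.snd hg
      apply hG2
      · intro x
        rw [← AlgEquiv.restrictNormal_commutes, h4, AlgEquiv.one_apply]
      · intro x
        rw [← AlgEquiv.restrictNormal_commutes, h3, AlgEquiv.one_apply]
    have hdvd := Subgroup.card_dvd_of_injective _ hinj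
    rw [Nat.card_prod, IsGalois.card_aut_eq_finrank, IsGalois.card_aut_eq_finrank,
      IsGalois.card_aut_eq_finrank, hm, hfin, ← pow_succ] at hdvd
    obtain ⟨j, -, hj⟩ := (Nat.dvd_prime_pow Nat.prime_two).1 hdvd
    exact ⟨j, hj⟩
  · -- `w` does not split in `F`
    set q := Q.under (𝓞 k⟮r⟯) with hq
    have hqv : q.under (𝓞 k) = P.under (𝓞 k) := by
      rw [hq, under_under, ← hQ, under_under]
    have hact : ∀ σ : k⟮r⟯ ≃ₐ[k] k⟮r⟯, act σ q = q := by
      intro σ
      -- the extension of `σ` to `M`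
      have h3 : AlgEquiv.restrictNormal (AlgEquiv.liftNormal σ M) k⟮r⟯ = σ :=
        AlgEquiv.restrict_liftNormal _ σ
      set τ : M ≃ₐ[k] M := AlgEquiv.liftNormal σ M with hτ
      have hcoinc : ∀ g : M ≃ₐ[k] M, g r = τ r → AlgEquiv.restrictNormal g k⟮r⟯ = σ := by
        intro g hgτ
        rw [← h3]
        have h5 : ((AlgEquiv.restrictNormal g k⟮r⟯ : k⟮r⟯ ≃ₐ[k] k⟮r⟯) : k⟮r⟯ →ₐ[k] k⟮r⟯) =
            ((AlgEquiv.restrictNormal τ k⟮r⟯ : k⟮r⟯ ≃ₐ[k] k⟮r⟯) : k⟮r⟯ →ₐ[k] k⟮r⟯) := by
          apply adjoin_algHom_ext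
          intro x hx
          rw [Set.mem_singleton_iff] at hx
          subst hx
          apply (algebraMap k⟮x⟯ M).injective
          change algebraMap k⟮x⟯ M (AlgEquiv.restrictNormal g k⟮x⟯ _) =
            algebraMap k⟮x⟯ M (AlgEquiv.restrictNormal τ k⟮x⟯ _)
          rw [AlgEquiv.restrictNormal_commutes, AlgEquiv.restrictNormal_commutes]
          exact hgτ
        ext x
        exact congrArg (fun f : k⟮r⟯ →ₐ[k] k⟮r⟯ => ((f x : k⟮r⟯) : M)) h5
      rcases hpm (τ : M →ₐ[k] M) with h4 | h4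
      · have h5 : AlgEquiv.restrictNormal (1 : M ≃ₐ[k] M) k⟮r⟯ = σ := by
          apply hcoinc
          exact h4.symm
        have h6 := under_act (L := k⟮r⟯) (1 : M ≃ₐ[k] M) Q
        rw [h5, Pool.Agent.TeamU.act_one] at h6
        exact h6.symm
      · have h5 : AlgEquiv.restrictNormal g₁ k⟮r⟯ = σ := by
          apply hcoinc
          rw [hg₁r]
          exact h4.symm
        have h6 := under_act (L := k⟮r⟯) g₁ Q
        rw [h5, hg₁] at h6
        exact h6.symm
    intro w w' hw hw'
    obtain ⟨σ, hσ⟩ := Pool.Agent.TeamU.exists_act (k := k) (over_of_under hqv) (over_of_under hw)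
    obtain ⟨σ', hσ'⟩ := Pool.Agent.TeamU.exists_act (k := k) (over_of_under hqv)
      (over_of_under hw')
    rw [← hσ, ← hσ', hact, hact]
  · -- the decomposition groups
    have : Finite (L ≃ₐ[k] L) := inferInstance
    set T : Set (L ≃ₐ[k] L) := {d | act d P = P ∧ χ d = 1} with hT
    have hsub : T ⊂ Dec k P := by
      refine ⟨fun d hd => hd.1, fun h => ?_⟩
      have := (h (show d₁ ∈ Dec k P from hd₁)).2
      rw [hχ₁] at this
      norm_num at this
    have hmap : ∀ g : Dec k⟮r⟯ Q, AlgEquiv.restrictNormal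
        ((g : M ≃ₐ[k⟮r⟯] M).restrictScalars k) L ∈ T := by
      intro g
      have hg : act ((g : M ≃ₐ[k⟮r⟯] M).restrictScalars k) Q = Q := g.2
      obtain ⟨h3, h4⟩ := hkey _ hg
      refine ⟨h3, ?_⟩
      rcases hχ _ h3 with h5 | h5
      · exact h5
      · exfalso
        rw [h5] at h4
        have h6 : ((g : M ≃ₐ[k⟮r⟯] M).restrictScalars k) r = r :=
          (g : M ≃ₐ[k⟮r⟯] M).commutes ⟨r, hrF⟩
        rw [h6] at h4
        apply hrr
        simpa using h4
    have hinj : Function.Injective (fun g : Dec k⟮r⟯ Q => (⟨_, hmap g⟩ : T)) := by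
      intro g h hgh
      have h3 : AlgEquiv.restrictNormal ((g : M ≃ₐ[k⟮r⟯] M).restrictScalars k) L =
          AlgEquiv.restrictNormal ((h : M ≃ₐ[k⟮r⟯] M).restrictScalars k) L :=
        congrArg Subtype.val hgh
      have h4 : ((g : M ≃ₐ[k⟮r⟯] M).restrictScalars k)⁻¹ *
          ((h : M ≃ₐ[k⟮r⟯] M).restrictScalars k) = 1 := by
        apply hG2
        · intro x
          have h5 : ((h : M ≃ₐ[k⟮r⟯] M).restrictScalars k) (algebraMap k⟮r⟯ M x) =
              algebraMap k⟮r⟯ M x := (h : M ≃ₐ[k⟮r⟯] M).commutes x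
          have h6 : ((g : M ≃ₐ[k⟮r⟯] M).restrictScalars k) (algebraMap k⟮r⟯ M x) =
              algebraMap k⟮r⟯ M x := (g : M ≃ₐ[k⟮r⟯] M).commutes x
          change ((g : M ≃ₐ[k⟮r⟯] M).restrictScalars k).symm
            (((h : M ≃ₐ[k⟮r⟯] M).restrictScalars k) (algebraMap k⟮r⟯ M x)) = _
          rw [h5, AlgEquiv.symm_apply_eq, h6]
        · intro x
          change ((g : M ≃ₐ[k⟮r⟯] M).restrictScalars k).symm
            (((h : M ≃ₐ[k⟮r⟯] M).restrictScalars k) (algebraMap L M x)) = _
          rw [AlgEquiv.symm_apply_eq, ← AlgEquiv.restrictNormal_commutes, ← h3,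
            AlgEquiv.restrictNormal_commutes]
      rw [inv_mul_eq_one] at h4
      apply Subtype.ext
      ext x
      exact DFunLike.congr_fun h4 x
    have hcard1 : Nat.card (Dec k⟮r⟯ Q) ≤ Nat.card T :=
      Nat.card_le_card_of_injective _ hinj
    have hcard2 : T.ncard < (Dec k P).ncard := Set.ncard_lt_ncard hsub (Set.toFinite _)
    exact lt_of_le_of_lt hcard1 hcard2

end C

section D

open Polynomial in
/-- adjoining a square root -/
theorem exists_M (k L : Type) [Field k] [NumberField k] [Field L] [NumberField L] [Algebra k L]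
    [IsGalois k L] (a : k) : ∃ (M : Type) (_ : Field M) (_ : NumberField M) (_ : Algebra k M)
      (_ : Algebra L M) (_ : IsScalarTower k L M) (_ : IsGalois k M) (r : M),
      r ^ 2 = algebraMap k M a ∧ ∀ g : M ≃ₐ[k] M,
        (∀ x : L, g (algebraMap L M x) = algebraMap L M x) → g r = r → g = 1 := by
  have : FiniteDimensional k L := Module.Finite.of_restrictScalars_finite ℚ k L
  set g : k[X] := X ^ 2 - C a with hg
  have hg0 : g ≠ 0 := X_pow_sub_C_ne_zero (by norm_num) a
  have hev : ∀ (M' : Type) [Field M'] [Algebra k M'] (x : M'),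
      aeval x g = x ^ 2 - algebraMap k M' a := by
    intro M' _ _ x
    rw [hg]
    simp
  have hnf : NumberField (g.map (algebraMap k L)).SplittingField :=
    NumberField.of_module_finite L _
  have hnorm : Normal k (g.map (algebraMap k L)).SplittingField := by
    obtain ⟨f, hf, hf0⟩ : ∃ f : k[X], IsSplittingField k L f ∧ f ≠ 0 := by
      obtain ⟨f, hf⟩ := Normal.exists_isSplittingField k L
      by_cases h0 : f = 0
      · refine ⟨1, ⟨?_, ?_⟩, one_ne_zero⟩
        · rw [Polynomial.map_one]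
          exact Polynomial.Splits.one
        · have h1 := hf.adjoin_rootSet'
          rw [h0, rootSet_zero] at h1
          rw [rootSet_one]
          exact h1
      · exact ⟨f, hf, h0⟩
    have : IsSplittingField k (g.map (algebraMap k L)).SplittingField (f * g) :=
      IsSplittingField.mul (K := L) _ f g hf0 hg0
    exact Normal.of_isSplittingField (f * g)
  have hgal : IsGalois k (g.map (algebraMap k L)).SplittingField := ⟨⟩
  obtain ⟨r, hr⟩ : ∃ r : (g.map (algebraMap k L)).SplittingField, r ^ 2 = algebraMap k _ a := by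
    obtain ⟨r, hr⟩ := (SplittingField.splits (g.map (algebraMap k L))).exists_eval_eq_zero (by
      rw [Polynomial.degree_map, Polynomial.degree_map, hg, degree_X_pow_sub_C (by norm_num)]
      norm_num)
    refine ⟨r, ?_⟩
    rw [Polynomial.map_map, ← IsScalarTower.algebraMap_eq, Polynomial.eval_map,
      ← aeval_def, hev] at hr
    exact sub_eq_zero.1 hr
  refine ⟨(g.map (algebraMap k L)).SplittingField, inferInstance, hnf, inferInstance,
    inferInstance, inferInstance, hgal, r, hr, fun σ hσ hσr => ?_⟩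
  have h1 := SplittingField.adjoin_rootSet (g.map (algebraMap k L))
  have h2 : ({ (σ : (g.map (algebraMap k L)).SplittingField →+*
      (g.map (algebraMap k L)).SplittingField) with commutes' := hσ } :
      (g.map (algebraMap k L)).SplittingField →ₐ[L] (g.map (algebraMap k L)).SplittingField) =
      AlgHom.id L _ := by
    apply AlgHom.ext_of_adjoin_eq_top h1
    intro x hx
    rw [mem_rootSet] at hx
    have h3 : x ^ 2 = r ^ 2 := by
      rw [hr]
      have := hx.2
      rw [aeval_map_algebraMap, hev] at this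
      exact sub_eq_zero.1 this
    change σ x = x
    rcases sq_eq_sq_iff_eq_or_eq_neg.1 h3 with h | h
    · rw [h, hσr]
    · rw [h, map_neg, hσr]
  ext x
  exact DFunLike.congr_fun h2 x

end D

end KPN

open KPN in
theorem kp : Pool.Agent.Q5.MZ.S_KP := by
  intro k L _ _ _ _ _ _ P h2 hne
  obtain ⟨χ, s, hs0, hχ, hgs, hneg⟩ := exists_eigen P h2 hne
  set n : ℕ := Nat.card (DecS k P) with hn
  have : FiniteDimensional k L := Module.Finite.of_restrictScalars_finite ℚ k L
  have hn0 : n ≠ 0 := Nat.card_pos.ne'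
  have hsL : (s : L) ≠ 0 := by
    intro h
    exact hs0 (RingOfIntegers.ext h)
  set t : L := (n : L) * s with ht
  have ht0 : t ≠ 0 := mul_ne_zero (by exact_mod_cast hn0) hsL
  have hgt : ∀ g : L ≃ₐ[k] L, act g P = P → g t = (χ g : L) * t := by
    intro g hg
    rw [ht, map_mul, map_natCast, hgs g hg]
    ring
  -- the approximation
  have hx0 : P.valuation L (4 * t ^ 2) ≠ 0 := by
    rw [Valuation.ne_zero_iff]
    exact mul_ne_zero (by norm_num) (pow_ne_zero 2 ht0)
  obtain ⟨e, he⟩ : ∃ e : ℕ, WithZero.exp (-(e : ℤ)) < P.valuation L (4 * t ^ 2) := by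
    refine ⟨(1 - WithZero.log (P.valuation L (4 * t ^ 2))).toNat, ?_⟩
    conv_rhs => rw [← WithZero.exp_log hx0]
    rw [WithZero.exp_lt_exp]
    have := Int.self_le_toNat (1 - WithZero.log (P.valuation L (4 * t ^ 2)))
    linarith
  obtain ⟨a, ha⟩ := exists_approx (k := k) P ((n : 𝓞 L) * s ^ 2) (by
    intro g hg
    have h1 : (((n : 𝓞 L) * s ^ 2 : 𝓞 L) : L) = (n : L) * (s : L) ^ 2 := by push_cast; rfl
    rw [h1, map_mul, map_natCast, map_pow, hgs g hg]
    rcases hχ g hg with h | h <;> rw [h] <;> push_cast <;> ring) e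
  have ha2 : P.valuation L (algebraMap k L a - t ^ 2) < P.valuation L (4 * t ^ 2) := by
    refine lt_of_le_of_lt (le_of_eq_of_le ?_ ha) he
    congr 2
    rw [ht]
    push_cast
    ring
  clear_value t
  obtain ⟨M, _, _, _, _, _, _, r₀, hr₀, hgen₀⟩ := exists_M k L a
  obtain ⟨Q, hQ⟩ := ex_above (k := L) (L := M) P
  have hover : Over Q P := over_of_under hQ
  have hval : Q.valuation M (r₀ ^ 2 - (algebraMap L M t) ^ 2) <
      Q.valuation M (2 * algebraMap L M t) ^ 2 := by
    have e1 : r₀ ^ 2 - (algebraMap L M t) ^ 2 = algebraMap L M (algebraMap k L a - t ^ 2) := by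
      rw [hr₀, map_sub, map_pow, ← IsScalarTower.algebraMap_apply]
    have e2 : Q.valuation M (2 * algebraMap L M t) ^ 2 =
        Q.valuation M (algebraMap L M (4 * t ^ 2)) := by
      rw [← map_pow]
      congr 1
      rw [map_mul, map_pow]
      simp only [map_ofNat]
      ring
    rw [e1, e2, Pool.Agent.TeamU.val_over hover, Pool.Agent.TeamU.val_over hover]
    have := Pool.Agent.TeamU.liesOver_of_over hover
    exact pow_lt_pow_left₀ ha2 zero_le
      (Ideal.IsDedekindDomain.ramificationIdx'_ne_zero_of_liesOver _ P.ne_bot)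
  have hprod : Q.valuation M (r₀ ^ 2 - (algebraMap L M t) ^ 2) =
      Q.valuation M (r₀ - algebraMap L M t) * Q.valuation M (r₀ + algebraMap L M t) := by
    rw [← map_mul]
    congr 1
    ring
  rw [hprod, sq] at hval
  obtain ⟨r, hr, hgen, hvr⟩ : ∃ r : M, r ^ 2 = algebraMap k M a ∧ (∀ g : M ≃ₐ[k] M,
      (∀ x : L, g (algebraMap L M x) = algebraMap L M x) → g r = r → g = 1) ∧
      Q.valuation M (r - algebraMap L M t) < Q.valuation M (2 * algebraMap L M t) := by
    by_cases h : Q.valuation M (r₀ - algebraMap L M t) < Q.valuation M (2 * algebraMap L M t)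
    · exact ⟨r₀, hr₀, hgen₀, h⟩
    · refine ⟨-r₀, by rw [neg_sq, hr₀], fun g h1 h2 => hgen₀ g h1 ?_, ?_⟩
      · rw [map_neg] at h2
        exact neg_injective h2
      · by_contra h'
        have h3 : Q.valuation M (-r₀ - algebraMap L M t) =
            Q.valuation M (r₀ + algebraMap L M t) := by
          rw [← Valuation.map_neg]
          congr 1
          ring
        rw [h3] at h'
        exact absurd hval (not_lt.2 (mul_le_mul' (not_lt.1 h) (not_lt.1 h')))
  obtain ⟨F, _, _, _, _, _, _, h3, h4, h5, h6, h7⟩ :=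
    kp_core P h2 χ hχ t hgt hneg a r hr Q hQ hvr hgen
  exact ⟨F, M, inferInstance, inferInstance, inferInstance, inferInstance, inferInstance,
    inferInstance, inferInstance, inferInstance, inferInstance, inferInstance, inferInstance,
    inferInstance, Q, h3, h4, h5, h6, hQ, h7⟩

end Pool.Agent.H429.MZQ
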