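import Pool.Graph.R_pool_sql_team_seeded_3997aac3.Q5.MZ.Stm2
import Pool.Graph.R_pool_sql_team_seeded_3997aac3.Q238.MZ.Inr

/-!
# S_KU: adjoining square roots of elements with even valuations outside `2`
-/

set_option autoImplicit false
set_option linter.unusedSectionVars false

namespace Pool.Agent.H429.MZQ

open NumberField IsDedekindDomain Module Polynomial
open Pool.Agent.Q92.AR (Dv prin prinHom prin_mul prin_inv prin_div Unramified)
open Pool.Agent.Q238.MZ (InrAt inr_trivial unr_of_inr inr_res under_under)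
open Pool.Agent.TeamU (act act_mul act_one mem_act)

namespace KUN

section
variable {E : Type} [Field E] [NumberField E]

theorem prin_zpow (x : Eˣ) (m : ℤ) : prin (x ^ m) = m • prin x :=
  (prinHom (F := E)).map_zsmul m (Additive.ofMul x)

theorem exp_inj {a b : ℤ} (h : WithZero.exp a = WithZero.exp b) : a = b :=
  WithZero.exp_injective h

/-- a uniformizer -/
theorem exists_unif (w : HeightOneSpectrum (𝓞 E)) : ∃ π : Eˣ, prin π w = 1 := by
  obtain ⟨π, hπ⟩ := w.valuation_exists_uniformizer E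
  have h0 : π ≠ 0 := by
    rintro rfl
    rw [map_zero] at hπ
    exact WithZero.exp_ne_zero hπ.symm
  refine ⟨Units.mk0 π h0, ?_⟩
  have h1 := Pool.Agent.Q128.AR.val_prin (Units.mk0 π h0) w
  rw [Units.val_mk0, hπ] at h1
  have h2 := exp_inj h1
  omega

/-- the decomposition `u = a² n / c` -/
theorem decomp (u : Eˣ) (w : HeightOneSpectrum (𝓞 E)) (hu : Even (prin u w)) :
    ∃ (a : Eˣ) (n c : 𝓞 E), n ∉ w.asIdeal ∧ c ∉ w.asIdeal ∧
      (u : E) * algebraMap (𝓞 E) E c = (a : E) ^ 2 * algebraMap (𝓞 E) E n := by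
  obtain ⟨m, hm⟩ := hu
  obtain ⟨π, hπ⟩ := exists_unif w
  obtain ⟨a, ha⟩ : ∃ a : Eˣ, a = π ^ m := ⟨_, rfl⟩
  have hpa : prin a w = m := by
    rw [ha, prin_zpow, Finsupp.smul_apply, hπ, smul_eq_mul, mul_one]
  have hval : w.valuation E ((u / a ^ 2 : Eˣ) : E) = 1 := by
    rw [Pool.Agent.Q128.AR.val_prin, prin_div, pow_two, prin_mul, Finsupp.sub_apply,
      Finsupp.add_apply, hpa, hm, sub_self, neg_zero, WithZero.exp_zero]
  obtain ⟨n, ⟨c, hc⟩, hnc⟩ := w.exists_primeCompl_mul_eq_of_integer (K := E)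
    ((u / a ^ 2 : Eˣ) : E) hval.le
  have hc' : c ∉ w.asIdeal := hc
  have hnc' : ((u / a ^ 2 : Eˣ) : E) * algebraMap (𝓞 E) E c = algebraMap (𝓞 E) E n := hnc
  refine ⟨a, n, c, ?_, hc', ?_⟩
  · intro hn
    have h1 : w.valuation E (algebraMap (𝓞 E) E n) < 1 := by
      rw [HeightOneSpectrum.valuation_of_algebraMap, HeightOneSpectrum.intValuation_lt_one_iff_mem]
      exact hn
    have h2 : w.valuation E (algebraMap (𝓞 E) E c) = 1 := by
      rw [HeightOneSpectrum.valuation_of_algebraMap,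
        HeightOneSpectrum.intValuation_eq_one_iff_mem_primeCompl]
      exact hc
    rw [← hnc', map_mul, hval, h2, one_mul] at h1
    exact lt_irrefl _ h1
  · rw [← hnc', Units.val_div_eq_div_val, Units.val_pow_eq_pow_val]
    have ha0 : (a : E) ≠ 0 := a.ne_zero
    field_simp

theorem two_mem_act {k : Type} [Field k] [Algebra k E] (g : E ≃ₐ[k] E)
    (w : HeightOneSpectrum (𝓞 E)) : (2 : 𝓞 E) ∈ (act g w).asIdeal ↔ (2 : 𝓞 E) ∈ w.asIdeal := by
  rw [mem_act, map_ofNat]

/-- the valuations of conjugates -/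
theorem prin_conj {k : Type} [Field k] [Algebra k E] (g : E ≃ₐ[k] E) (t v : Eˣ)
    (hv : g (t : E) = v) (w : HeightOneSpectrum (𝓞 E)) : prin v (act g w) = prin t w := by
  have h1 := Pool.Agent.TeamU.valuation_actE g.toRingEquiv w (t : E)
  change (act g w).valuation E (g (t : E)) = _ at h1
  rw [hv, Pool.Agent.Q128.AR.val_prin, Pool.Agent.Q128.AR.val_prin] at h1
  have h2 := exp_inj h1
  omega

theorem even_conj {k : Type} [Field k] [Algebra k E] (g : E ≃ₐ[k] E) (t v : Eˣ)
    (hv : g (t : E) = v)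
    (ht : ∀ w : HeightOneSpectrum (𝓞 E), (2 : 𝓞 E) ∉ w.asIdeal → Even (prin t w))
    (w : HeightOneSpectrum (𝓞 E)) (hw : (2 : 𝓞 E) ∉ w.asIdeal) : Even (prin v w) := by
  have h1 : act g (act g⁻¹ w) = w := by
    rw [← act_mul, mul_inv_cancel, act_one]
  rw [← h1, prin_conj g t v hv]
  apply ht
  rw [two_mem_act]
  exact hw

end

section
variable {K E M : Type} [Field K] [Field E] [NumberField E] [Field M] [NumberField M]
  [Algebra K M] [Algebra E M]

/-- inertia elements over `E` fix the square roots -/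
theorem fix_sqrt (P : HeightOneSpectrum (𝓞 M)) (h2 : (2 : 𝓞 M) ∉ P.asIdeal) (g : M ≃ₐ[K] M)
    (hg : InrAt P g) (hfix : ∀ x : E, g (algebraMap E M x) = algebraMap E M x) (u : Eˣ)
    (hu : Even (prin u (P.under (𝓞 E)))) (s : M) (hs : s ^ 2 = algebraMap E M (u : E)) :
    g s = s := by
  obtain ⟨a, n, c, hn, hc, h⟩ := decomp u (P.under (𝓞 E)) hu
  have hc0 : algebraMap (𝓞 E) E c ≠ 0 := by
    intro h0
    have h1 : c = 0 := (map_eq_zero_iff _ (FaithfulSMul.algebraMap_injective (𝓞 E) E)).1 h0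
    rw [h1] at hc
    exact hc (Ideal.zero_mem _)
  obtain ⟨κ, hκ⟩ : ∃ κ : E, κ = algebraMap (𝓞 E) E c * (a : E)⁻¹ := ⟨_, rfl⟩
  have hκ0 : κ ≠ 0 := by
    rw [hκ]
    exact mul_ne_zero hc0 (inv_ne_zero a.ne_zero)
  obtain ⟨f, hf⟩ : ∃ f : M, f = s * algebraMap E M κ := ⟨_, rfl⟩
  have hf2 : f ^ 2 = algebraMap E M (algebraMap (𝓞 E) E (n * c)) := by
    have ha0 : (a : E) ≠ 0 := a.ne_zero
    have e : (u : E) * κ ^ 2 = algebraMap (𝓞 E) E (n * c) := by
      have e1 : (u : E) * κ ^ 2 =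
          ((u : E) * algebraMap (𝓞 E) E c) * algebraMap (𝓞 E) E c * ((a : E) ^ 2)⁻¹ := by
        rw [hκ]
        ring
      rw [e1, h, map_mul]
      field_simp
    rw [hf, mul_pow, hs, ← map_pow, ← map_mul, e]
  have hf2' : f ^ 2 = algebraMap (𝓞 M) M (algebraMap (𝓞 E) (𝓞 M) (n * c)) := hf2
  have hint : IsIntegral ℤ f := by
    refine IsIntegral.of_pow (n := 2) (by norm_num) ?_
    rw [hf2']
    exact RingOfIntegers.isIntegral_coe _
  obtain ⟨F, hF⟩ : ∃ F : 𝓞 M, (F : M) = f := ⟨⟨f, hint⟩, rfl⟩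
  have hF2 : F ^ 2 = algebraMap (𝓞 E) (𝓞 M) (n * c) := by
    apply RingOfIntegers.ext
    change (F : M) ^ 2 = algebraMap (𝓞 M) M (algebraMap (𝓞 E) (𝓞 M) (n * c))
    rw [hF, hf2']
  have hP : P.asIdeal.IsPrime := P.isPrime
  have hFP : F ∉ P.asIdeal := by
    intro hF'
    have h1 : F ^ 2 ∈ P.asIdeal := by
      rw [pow_two]
      exact P.asIdeal.mul_mem_left _ hF'
    rw [hF2] at h1
    have h3 : n * c ∈ (P.under (𝓞 E)).asIdeal := h1
    rcases (P.under (𝓞 E)).isPrime.mem_or_mem h3 with h4 | h4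
    · exact hn h4
    · exact hc h4
  have hgf2 : (g f) ^ 2 = f ^ 2 := by
    rw [← map_pow, hf2, hfix]
  have hgf : g f = f := by
    rcases sq_eq_sq_iff_eq_or_eq_neg.1 hgf2 with h1 | h1
    · exact h1
    · exfalso
      obtain ⟨y, hy, hyx⟩ := hg F
      rw [hF, h1] at hyx
      have h3 : y = -(2 * F) := by
        apply RingOfIntegers.ext
        rw [hyx]
        change -f - f = -(2 * (F : M))
        rw [hF]
        ring
      rw [h3] at hy
      have h4 : 2 * F ∈ P.asIdeal := by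
        have := P.asIdeal.neg_mem hy
        rwa [neg_neg] at this
      rcases hP.mem_or_mem h4 with h5 | h5
      · exact h2 h5
      · exact hFP h5
  have hκM : algebraMap E M κ ≠ 0 := by
    rw [Ne, map_eq_zero]
    exact hκ0
  rw [hf, map_mul, hfix] at hgf
  exact mul_right_cancel₀ hκM hgf

end

/-! ### The field -/

/-- the polynomial whose roots are the square roots of the conjugates of the elements of `T` -/
noncomputable def pol {E : Type} [Field E] [NumberField E] (T : Finset Eˣ) : ℚ[X] :=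
  ∏ t ∈ T, expand ℚ 2 (minpoly ℚ (t : E))

theorem pol_ne {E : Type} [Field E] [NumberField E] (T : Finset Eˣ) : pol T ≠ 0 := by
  unfold pol
  rw [Finset.prod_ne_zero_iff]
  intro t _
  rw [Ne, expand_eq_zero (by norm_num)]
  exact minpoly.ne_zero (Algebra.IsIntegral.isIntegral _)

/-- the roots -/
theorem root_pol {E : Type} [Field E] [NumberField E] [IsGalois ℚ E] (T : Finset Eˣ) {M : Type}
    [Field M] [CharZero M] [Algebra E M] (s : M) (hs : aeval s (pol T) = 0) :
    ∃ t ∈ T, ∃ (g : E ≃ₐ[ℚ] E) (v : Eˣ), g (t : E) = v ∧ s ^ 2 = algebraMap E M (v : E) := by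
  unfold pol at hs
  rw [map_prod, Finset.prod_eq_zero_iff] at hs
  obtain ⟨t, ht, hs⟩ := hs
  rw [expand_aeval] at hs
  refine ⟨t, ht, ?_⟩
  have hint : IsIntegral ℚ (t : E) := Algebra.IsIntegral.isIntegral _
  have hspl := (inferInstance : Normal ℚ E).splits (t : E)
  have hmem : s ^ 2 ∈ (minpoly ℚ (t : E)).rootSet M := by
    rw [mem_rootSet]
    exact ⟨minpoly.ne_zero hint, hs⟩
  rw [← hspl.image_rootSet (IsScalarTower.toAlgHom ℚ E M)] at hmem
  obtain ⟨v, hv, hvs⟩ := hmem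
  have hv0 : aeval v (minpoly ℚ (t : E)) = 0 := (mem_rootSet.1 hv).2
  obtain ⟨g, hg⟩ := minpoly.exists_algEquiv_of_root (Algebra.IsAlgebraic.isAlgebraic (t : E)) hv0
  have hv1 : v ≠ 0 := by
    intro h0
    rw [h0, map_zero] at hg
    exact t.ne_zero hg.symm
  refine ⟨g.symm, Units.mk0 v hv1, ?_, hvs.symm⟩
  rw [← hg, AlgEquiv.symm_apply_apply, Units.val_mk0]

theorem exists_root {E : Type} [Field E] [NumberField E] (T : Finset Eˣ) {M : Type}
    [Field M] [CharZero M] [Algebra E M] (hM : ((pol T).map (algebraMap ℚ M)).Splits)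
    (t : Eˣ) (ht : t ∈ T) : ∃ s : M, s ^ 2 = algebraMap E M (t : E) := by
  obtain ⟨f, hf⟩ : ∃ f : M[X], f = X ^ 2 - Polynomial.C (algebraMap E M (t : E)) := ⟨_, rfl⟩
  have hdvd : f ∣ (pol T).map (algebraMap ℚ M) := by
    unfold pol
    rw [Polynomial.map_prod]
    refine dvd_trans ?_ (Finset.dvd_prod_of_mem _ ht)
    have h1 : X - Polynomial.C (algebraMap E M (t : E)) ∣
        (minpoly ℚ (t : E)).map (algebraMap ℚ M) := by
      rw [dvd_iff_isRoot, IsRoot.def, eval_map_algebraMap, aeval_algebraMap_apply, minpoly.aeval,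
        map_zero]
    obtain ⟨r, hr⟩ := h1
    rw [map_expand, hr]
    refine ⟨expand M 2 r, ?_⟩
    rw [map_mul, map_sub, expand_X, expand_C, hf]
  have hne : (pol T).map (algebraMap ℚ M) ≠ 0 :=
    (Polynomial.map_ne_zero_iff (algebraMap ℚ M).injective).2 (pol_ne T)
  have hfs : f.Splits := hM.of_dvd hne hdvd
  have hdeg : f.degree ≠ 0 := by
    rw [hf, degree_X_pow_sub_C (by norm_num)]
    norm_num
  obtain ⟨s, hs⟩ := hfs.exists_eval_eq_zero hdeg
  rw [hf, eval_sub, eval_pow, eval_X, eval_C] at hs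
  exact ⟨s, sub_eq_zero.1 hs⟩

/-- an automorphism which fixes the generators -/
theorem eq_one_of_fix {K E M : Type} [Field K] [Field E] [Field M] [Algebra K E] [Algebra K M]
    [Algebra E M] [IsScalarTower K E M] (p : E[X]) [IsSplittingField E M p] (g : M ≃ₐ[K] M)
    (hfix : ∀ x : E, g (algebraMap E M x) = algebraMap E M x)
    (hroot : ∀ s : M, aeval s p = 0 → g s = s) : g = 1 := by
  have h1 : ∀ x ∈ Algebra.adjoin E (p.rootSet M), g x = x := by
    intro x hx
    induction hx using Algebra.adjoin_induction with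
    | mem x hx => exact hroot x (mem_rootSet.1 hx).2
    | algebraMap r => exact hfix r
    | add x y _ _ hx hy => rw [map_add, hx, hy]
    | mul x y _ _ hx hy => rw [map_mul, hx, hy]
  ext x
  rw [AlgEquiv.one_apply]
  apply h1
  rw [IsSplittingField.adjoin_rootSet M p]
  exact Algebra.mem_top

/-- a field generated by square roots has degree a power of two -/
theorem twoPow_of {E M : Type} [Field E] [Field M] [Algebra E M] [FiniteDimensional E M]
    [IsGalois E M] (p : E[X]) [IsSplittingField E M p]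
    (hroot : ∀ s : M, aeval s p = 0 → ∃ v : E, s ^ 2 = algebraMap E M v) :
    ∃ m : ℕ, finrank E M = 2 ^ m := by
  have h1 : IsPGroup 2 (M ≃ₐ[E] M) := by
    intro g
    refine ⟨1, ?_⟩
    rw [pow_one]
    refine eq_one_of_fix p _ (fun x => (g ^ 2).commutes x) (fun s hs => ?_)
    obtain ⟨v, hv⟩ := hroot s hs
    have h2 : (g s) ^ 2 = s ^ 2 := by rw [← map_pow, hv, g.commutes]
    rw [pow_two, AlgEquiv.mul_apply]
    rcases sq_eq_sq_iff_eq_or_eq_neg.1 h2 with h3 | h3
    · rw [h3, h3]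
    · rw [h3, map_neg, h3, neg_neg]
  obtain ⟨m, hm⟩ := IsPGroup.iff_card.1 h1
  exact ⟨m, by rw [← IsGalois.card_aut_eq_finrank, hm]⟩

end KUN

theorem ku : Pool.Agent.Q5.MZ.S_KU := by
  intro K E _ _ _ _ _ _ _ T hpow hunr hT
  obtain ⟨P, hP⟩ : ∃ P : E[X], P = (KUN.pol T).map (algebraMap ℚ E) := ⟨_, rfl⟩
  have hP0 : P ≠ 0 := by
    rw [hP]
    exact (Polynomial.map_ne_zero_iff (algebraMap ℚ E).injective).2 (KUN.pol_ne T)
  obtain ⟨M, iF, iA, iS⟩ : ∃ (M : Type) (_ : Field M) (_ : Algebra E M),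
      IsSplittingField E M P := ⟨SplittingField P, inferInstance, inferInstance, inferInstance⟩
  have iC : CharZero M := charZero_of_injective_algebraMap (algebraMap E M).injective
  have iFE : FiniteDimensional E M := IsSplittingField.finiteDimensional M P
  have iFQ : FiniteDimensional ℚ M := FiniteDimensional.trans ℚ E M
  have iN : NumberField M := NumberField.mk
  let iK : Algebra K M := ((algebraMap E M).comp (algebraMap K E)).toAlgebra
  have iT : IsScalarTower K E M := IsScalarTower.of_algebraMap_eq fun _ => rfl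
  -- the extension of `ℚ`
  obtain ⟨q, hq0, hq⟩ : ∃ q : ℚ[X], q ≠ 0 ∧ IsSplittingField ℚ E q := by
    obtain ⟨q, hq⟩ := Normal.exists_isSplittingField ℚ E
    by_cases h : q = 0
    · refine ⟨1, one_ne_zero, ⟨?_, ?_⟩⟩
      · rw [Polynomial.map_one]
        exact Splits.one
      · have h1 := hq.adjoin_rootSet'
        rw [h, rootSet_zero] at h1
        rw [rootSet_one]
        exact h1
    · exact ⟨q, h, hq⟩
  have iS' : IsSplittingField E M ((KUN.pol T).map (algebraMap ℚ E)) := hP ▸ iS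
  have hQ : IsSplittingField ℚ M (q * KUN.pol T) :=
    IsSplittingField.mul (F := ℚ) (K := E) M q (KUN.pol T) hq0 (KUN.pol_ne T)
  have iNo : Normal ℚ M := Normal.of_isSplittingField (q * KUN.pol T)
  have iG : IsGalois ℚ M := ⟨⟩
  have iGKM : IsGalois K M := IsGalois.tower_top_of_isGalois ℚ K M
  have iGKE : IsGalois K E := IsGalois.tower_top_of_isGalois ℚ K E
  have iGEM : IsGalois E M := IsGalois.tower_top_of_isGalois ℚ E M
  have hroot : ∀ s : M, aeval s P = 0 →
      ∃ t ∈ T, ∃ (g : E ≃ₐ[ℚ] E) (v : Eˣ), g (t : E) = v ∧ s ^ 2 = algebraMap E M (v : E) := by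
    intro s hs
    rw [hP, aeval_map_algebraMap] at hs
    exact KUN.root_pol T s hs
  refine ⟨M, iF, iN, iK, iA, iT, iG, ?_, ?_, ?_⟩
  · obtain ⟨m, hm⟩ := hpow
    obtain ⟨m', hm'⟩ := KUN.twoPow_of P fun s hs => by
      obtain ⟨t, _, g, v, _, hv⟩ := hroot s hs
      exact ⟨v, hv⟩
    refine ⟨m + m', ?_⟩
    rw [← finrank_mul_finrank K E M, hm, hm', pow_add]
  · intro v hv
    refine unr_of_inr fun Pp g hPv hg => ?_
    have h2 : (2 : 𝓞 M) ∉ Pp.asIdeal := by
      intro h
      refine hv ?_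
      rw [← hPv]
      change algebraMap (𝓞 K) (𝓞 M) 2 ∈ Pp.asIdeal
      rw [map_ofNat]
      exact h
    have hres : g.restrictNormal E = 1 := by
      refine inr_trivial (P := Pp.under (𝓞 E)) ?_ (inr_res hg)
      rw [under_under, hPv]
      exact hunr v hv
    have hfix : ∀ x : E, g (algebraMap E M x) = algebraMap E M x := by
      intro x
      rw [← AlgEquiv.restrictNormal_commutes, hres, AlgEquiv.one_apply]
    have h2E : (2 : 𝓞 E) ∉ (Pp.under (𝓞 E)).asIdeal := by
      intro h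
      refine h2 ?_
      have h3 : algebraMap (𝓞 E) (𝓞 M) 2 ∈ Pp.asIdeal := h
      rwa [map_ofNat] at h3
    refine KUN.eq_one_of_fix P g hfix fun s hs => ?_
    obtain ⟨t, ht, g', v', hgv, hsv⟩ := hroot s hs
    exact KUN.fix_sqrt Pp h2 g hg hfix v' (KUN.even_conj g' t v' hgv (hT t ht) _ h2E) s hsv
  · intro t ht
    refine KUN.exists_root T ?_ t ht
    have h1 := iS'.splits'
    rw [Polynomial.map_map] at h1
    rw [IsScalarTower.algebraMap_eq ℚ E M]
    exact h1

end Pool.Agent.H429.MZQ
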