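import Pool.Agent.H429.MZQ.StmE

set_option autoImplicit false
set_option linter.unusedSectionVars false

/-!
# The relations are generated by the entries of the square of the matrix (helper30)
-/

namespace Pool.Agent.H429.MZQ

open IsLocalRing
open Pool.Agent.Q5.MZ (MinGen idn LP HL dfst)

namespace KYQN

variable {A : Type} [CommRing A] [IsLocalRing A] [Algebra (ZMod 2) A] {h : ℕ} {e : Fin h → A}

theorem mem_idn (F : MvPolynomial (Fin h) (ZMod 2)) :
    F ∈ idn h ↔ MvPolynomial.constantCoeff F = 0 := by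
  unfold idn
  exact RingHom.mem_ker

theorem X_mem (i : Fin h) : (MvPolynomial.X i : MvPolynomial (Fin h) (ZMod 2)) ∈ idn h := by
  rw [mem_idn, MvPolynomial.constantCoeff_X]

theorem sub_mem_idn (F : MvPolynomial (Fin h) (ZMod 2)) :
    F - MvPolynomial.C (MvPolynomial.constantCoeff F) ∈ idn h := by
  rw [mem_idn, map_sub, MvPolynomial.constantCoeff_C, sub_self]

theorem phi_res (he : MinGen A e) (F : MvPolynomial (Fin h) (ZMod 2)) :
    MvPolynomial.aeval e F - algebraMap (ZMod 2) A (MvPolynomial.constantCoeff F) ∈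
      maximalIdeal A := by
  induction F using MvPolynomial.induction_on with
  | C a =>
    rw [MvPolynomial.aeval_C, MvPolynomial.constantCoeff_C, sub_self]
    exact Ideal.zero_mem _
  | add p q hp hq =>
    rw [map_add, map_add, map_add]
    have h1 : MvPolynomial.aeval e p + MvPolynomial.aeval e q -
        (algebraMap (ZMod 2) A (MvPolynomial.constantCoeff p) +
          algebraMap (ZMod 2) A (MvPolynomial.constantCoeff q)) =
        (MvPolynomial.aeval e p - algebraMap (ZMod 2) A (MvPolynomial.constantCoeff p)) +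
        (MvPolynomial.aeval e q - algebraMap (ZMod 2) A (MvPolynomial.constantCoeff q)) := by ring
    rw [h1]
    exact Ideal.add_mem _ hp hq
  | mul_X p i hp =>
    rw [map_mul, map_mul, MvPolynomial.constantCoeff_X, mul_zero, map_zero, sub_zero,
      MvPolynomial.aeval_X]
    exact Ideal.mul_mem_left _ _ (he.mem i)

theorem phi_n (he : MinGen A e) : idn h ≤ (maximalIdeal A).comap (MvPolynomial.aeval e :
    MvPolynomial (Fin h) (ZMod 2) →ₐ[ZMod 2] A) := by
  intro F hF
  rw [mem_idn] at hF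
  have h1 := phi_res he F
  rw [hF, map_zero, sub_zero] at h1
  exact h1

theorem phi_pow (he : MinGen A e) (k : ℕ) (F : MvPolynomial (Fin h) (ZMod 2))
    (hF : F ∈ idn h ^ k) : MvPolynomial.aeval e F ∈ maximalIdeal A ^ k :=
  ((Ideal.pow_right_mono (phi_n he) k).trans (Ideal.le_comap_pow _ k)) hF

/-- approximation in one step -/
theorem app (he : MinGen A e) (j : ℕ) : ∀ x ∈ maximalIdeal A ^ j,
    ∃ F ∈ idn h ^ j, x - MvPolynomial.aeval e F ∈ maximalIdeal A ^ (j + 1) := by
  induction j with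
  | zero =>
    intro x _
    rw [zero_add, pow_one]
    rcases he.res x with h1 | h1
    · exact ⟨0, Ideal.zero_mem _, by rw [map_zero, sub_zero]; exact h1⟩
    · refine ⟨1, ?_, by rw [map_one]; exact h1⟩
      rw [pow_zero, Ideal.one_eq_top]
      trivial
  | succ j ih =>
    intro x hx
    rw [pow_succ] at hx
    refine Submodule.mul_induction_on hx ?_ ?_
    · intro a ha b hb
      obtain ⟨F, hF, hF'⟩ := ih a ha
      obtain ⟨c, hc⟩ := he.gen b hb
      obtain ⟨g, hg⟩ : ∃ g : MvPolynomial (Fin h) (ZMod 2), g = ∑ i, MvPolynomial.C (c i) *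
        MvPolynomial.X i := ⟨_, rfl⟩
      have hgn : g ∈ idn h := by
        rw [hg]
        exact Ideal.sum_mem _ fun i _ => Ideal.mul_mem_left _ _ (X_mem i)
      have hge : MvPolynomial.aeval e g = ∑ i, algebraMap (ZMod 2) A (c i) * e i := by
        rw [hg, map_sum]
        exact Finset.sum_congr rfl fun i _ => by
          rw [map_mul, MvPolynomial.aeval_C, MvPolynomial.aeval_X]
      rw [← hge] at hc
      refine ⟨F * g, ?_, ?_⟩
      · rw [pow_succ]
        exact Ideal.mul_mem_mul hF hgn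
      · have h1 : a * b - MvPolynomial.aeval e (F * g) =
            (a - MvPolynomial.aeval e F) * b +
              MvPolynomial.aeval e F * (b - MvPolynomial.aeval e g) := by
          rw [map_mul]
          ring
        show a * b - MvPolynomial.aeval e (F * g) ∈ _
        rw [h1]
        refine Ideal.add_mem _ ?_ ?_
        · rw [pow_succ]
          exact Ideal.mul_mem_mul hF' hb
        · have h2 := Ideal.mul_mem_mul (phi_pow he j F hF) hc
          rw [← pow_add] at h2
          exact h2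
    · rintro a b ⟨F, hF, hF'⟩ ⟨G, hG, hG'⟩
      refine ⟨F + G, Ideal.add_mem _ hF hG, ?_⟩
      have h1 : a + b - MvPolynomial.aeval e (F + G) =
          (a - MvPolynomial.aeval e F) + (b - MvPolynomial.aeval e G) := by
        rw [map_add]
        ring
      rw [h1]
      exact Ideal.add_mem _ hF' hG'

theorem app_k (he : MinGen A e) (k : ℕ) : ∀ (j : ℕ), ∀ x ∈ maximalIdeal A ^ j,
    ∃ F ∈ idn h ^ j, x - MvPolynomial.aeval e F ∈ maximalIdeal A ^ (j + k) := by
  induction k with
  | zero =>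
    intro j x hx
    exact ⟨0, Ideal.zero_mem _, by rw [map_zero, sub_zero]; exact hx⟩
  | succ k ih =>
    intro j x hx
    obtain ⟨F, hF, hF'⟩ := ih j x hx
    obtain ⟨G, hG, hG'⟩ := app he (j + k) _ hF'
    refine ⟨F + G, Ideal.add_mem _ hF (Ideal.pow_le_pow_right (Nat.le_add_right j k) hG), ?_⟩
    have h1 : x - MvPolynomial.aeval e (F + G) =
        x - MvPolynomial.aeval e F - MvPolynomial.aeval e G := by
      rw [map_add]
      ring
    rw [h1]
    exact hG'

/-- linear parts -/
theorem lin (F : MvPolynomial (Fin h) (ZMod 2)) : ∃ a : Fin h → ZMod 2,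
    F - MvPolynomial.C (MvPolynomial.constantCoeff F) -
      ∑ i, MvPolynomial.C (a i) * MvPolynomial.X i ∈ idn h ^ 2 := by
  induction F using MvPolynomial.induction_on with
  | C a =>
    refine ⟨0, ?_⟩
    rw [MvPolynomial.constantCoeff_C, sub_self, zero_sub]
    have : ∑ i : Fin h, MvPolynomial.C ((0 : Fin h → ZMod 2) i) *
        (MvPolynomial.X i : MvPolynomial (Fin h) (ZMod 2)) = 0 := by
      refine Finset.sum_eq_zero fun i _ => ?_
      rw [Pi.zero_apply, MvPolynomial.C_0, zero_mul]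
    rw [this, neg_zero]
    exact Ideal.zero_mem _
  | add p q hp hq =>
    obtain ⟨a, ha⟩ := hp
    obtain ⟨b, hb⟩ := hq
    refine ⟨a + b, ?_⟩
    have h1 : ∑ i : Fin h, MvPolynomial.C ((a + b) i) *
        (MvPolynomial.X i : MvPolynomial (Fin h) (ZMod 2)) =
        ∑ i, MvPolynomial.C (a i) * MvPolynomial.X i +
          ∑ i, MvPolynomial.C (b i) * MvPolynomial.X i := by
      rw [← Finset.sum_add_distrib]
      refine Finset.sum_congr rfl fun i _ => ?_
      rw [Pi.add_apply, MvPolynomial.C_add, add_mul]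
    have h2 : p + q - MvPolynomial.C (MvPolynomial.constantCoeff (p + q)) -
        ∑ i : Fin h, MvPolynomial.C ((a + b) i) *
          (MvPolynomial.X i : MvPolynomial (Fin h) (ZMod 2)) =
        (p - MvPolynomial.C (MvPolynomial.constantCoeff p) -
          ∑ i, MvPolynomial.C (a i) * MvPolynomial.X i) +
        (q - MvPolynomial.C (MvPolynomial.constantCoeff q) -
          ∑ i, MvPolynomial.C (b i) * MvPolynomial.X i) := by
      rw [h1, map_add, MvPolynomial.C_add]
      ring
    rw [h2]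
    exact Ideal.add_mem _ ha hb
  | mul_X p i hp =>
    classical
    refine ⟨Pi.single i (MvPolynomial.constantCoeff p), ?_⟩
    have h1 : ∑ l : Fin h, MvPolynomial.C
        ((Pi.single i (MvPolynomial.constantCoeff p) : Fin h → ZMod 2) l) *
        (MvPolynomial.X l : MvPolynomial (Fin h) (ZMod 2)) =
        MvPolynomial.C (MvPolynomial.constantCoeff p) * MvPolynomial.X i := by
      rw [Finset.sum_eq_single i]
      · rw [Pi.single_eq_same]
      · intro l _ hl
        rw [Pi.single_eq_of_ne hl, MvPolynomial.C_0, zero_mul]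
      · intro hi
        exact absurd (Finset.mem_univ i) hi
    have h2 : p * MvPolynomial.X i - MvPolynomial.C (MvPolynomial.constantCoeff
        (p * MvPolynomial.X i)) - MvPolynomial.C (MvPolynomial.constantCoeff p) *
          MvPolynomial.X i =
        (p - MvPolynomial.C (MvPolynomial.constantCoeff p)) * MvPolynomial.X i := by
      rw [map_mul, MvPolynomial.constantCoeff_X, mul_zero, MvPolynomial.C_0]
      ring
    rw [h1, h2, pow_two]
    exact Ideal.mul_mem_mul (sub_mem_idn p) (X_mem i)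

theorem zmod2_cases (a : ZMod 2) : a = 0 ∨ a = 1 := by
  revert a
  decide

theorem sq_mem (he : MinGen A e) (F : MvPolynomial (Fin h) (ZMod 2))
    (hF : MvPolynomial.aeval e F ∈ maximalIdeal A ^ 2) : F ∈ idn h ^ 2 := by
  obtain ⟨a, ha⟩ := lin F
  have hle : maximalIdeal A ^ 2 ≤ maximalIdeal A := Ideal.pow_le_self (by norm_num)
  have h1 := phi_res he F
  have h2 : algebraMap (ZMod 2) A (MvPolynomial.constantCoeff F) ∈ maximalIdeal A := by
    have h3 := Ideal.sub_mem _ (hle hF) h1
    rw [sub_sub_cancel] at h3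
    exact h3
  have h3 : MvPolynomial.constantCoeff F = 0 := by
    rcases zmod2_cases (MvPolynomial.constantCoeff F) with h4 | h4
    · exact h4
    · rw [h4, map_one] at h2
      exact absurd ((Ideal.eq_top_iff_one _).2 h2) (Ideal.IsPrime.ne_top inferInstance)
  rw [h3, MvPolynomial.C_0, sub_zero] at ha
  have h4 := phi_pow he 2 _ ha
  rw [map_sub, map_sum] at h4
  have h5 : ∑ i, MvPolynomial.aeval e (MvPolynomial.C (a i) * MvPolynomial.X i :
      MvPolynomial (Fin h) (ZMod 2)) = ∑ i, algebraMap (ZMod 2) A (a i) * e i :=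
    Finset.sum_congr rfl fun i _ => by rw [map_mul, MvPolynomial.aeval_C, MvPolynomial.aeval_X]
  rw [h5] at h4
  have h6 : ∑ i, algebraMap (ZMod 2) A (a i) * e i ∈ maximalIdeal A ^ 2 := by
    have h7 := Ideal.sub_mem _ hF h4
    rw [sub_sub_cancel] at h7
    exact h7
  have h7 := he.ind a h6
  rw [h7] at ha
  have h8 : ∑ i : Fin h, MvPolynomial.C ((0 : Fin h → ZMod 2) i) *
        (MvPolynomial.X i : MvPolynomial (Fin h) (ZMod 2)) = 0 := by
    refine Finset.sum_eq_zero fun i _ => ?_
    rw [Pi.zero_apply, MvPolynomial.C_0, zero_mul]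
  rw [h8, sub_zero] at ha
  exact ha

/-- every polynomial or its difference with one has no constant term -/
theorem res_T (F : MvPolynomial (Fin h) (ZMod 2)) : F ∈ idn h ∨ F - 1 ∈ idn h := by
  rcases zmod2_cases (MvPolynomial.constantCoeff F) with h4 | h4
  · left
    exact (mem_idn F).2 h4
  · right
    rw [mem_idn, map_sub, h4, map_one, sub_self]

theorem idn_ne_top : idn h ≠ ⊤ := by
  intro h1
  have h2 : (1 : MvPolynomial (Fin h) (ZMod 2)) ∈ idn h := by
    rw [h1]
    trivial
  rw [mem_idn, map_one] at h2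
  exact one_ne_zero h2

section quot

variable (I : Ideal (MvPolynomial (Fin h) (ZMod 2))) (N : ℕ) (hI : idn h ^ N ≤ I)
include hI

theorem nilp {F : MvPolynomial (Fin h) (ZMod 2)} (hF : F ∈ idn h) :
    IsNilpotent (Ideal.Quotient.mk I F) := by
  refine ⟨N, ?_⟩
  rw [← map_pow, Ideal.Quotient.eq_zero_iff_mem]
  exact hI (Ideal.pow_mem_pow hF N)

theorem quot_finite : Finite (MvPolynomial (Fin h) (ZMod 2) ⧸ I) := by
  have h1 : Algebra.IsIntegral (ZMod 2) (MvPolynomial (Fin h) (ZMod 2) ⧸ I) := by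
    refine ⟨fun x => ?_⟩
    obtain ⟨F, rfl⟩ := Ideal.Quotient.mk_surjective x
    rcases res_T F with hF | hF
    · refine ⟨Polynomial.X ^ N, Polynomial.monic_X_pow N, ?_⟩
      rw [Polynomial.eval₂_pow, Polynomial.eval₂_X, ← map_pow, Ideal.Quotient.eq_zero_iff_mem]
      exact hI (Ideal.pow_mem_pow hF N)
    · refine ⟨(Polynomial.X - Polynomial.C 1) ^ N, (Polynomial.monic_X_sub_C 1).pow N, ?_⟩
      rw [Polynomial.eval₂_pow, Polynomial.eval₂_sub, Polynomial.eval₂_X, Polynomial.eval₂_C,
        map_one, ← map_one (Ideal.Quotient.mk I), ← map_sub, ← map_pow,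
        Ideal.Quotient.eq_zero_iff_mem]
      exact hI (Ideal.pow_mem_pow hF N)
  have h2 : Algebra.FiniteType (ZMod 2) (MvPolynomial (Fin h) (ZMod 2) ⧸ I) :=
    Algebra.FiniteType.of_surjective (Ideal.Quotient.mkₐ (ZMod 2) I)
      Ideal.Quotient.mk_surjective
  have h3 : Module.Finite (ZMod 2) (MvPolynomial (Fin h) (ZMod 2) ⧸ I) :=
    Algebra.IsIntegral.finite
  exact Module.finite_of_finite (ZMod 2)

theorem quot_local (hne : I ≠ ⊤) : IsLocalRing (MvPolynomial (Fin h) (ZMod 2) ⧸ I) := by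
  have h1 : Nontrivial (MvPolynomial (Fin h) (ZMod 2) ⧸ I) := Ideal.Quotient.nontrivial_iff.2 hne
  refine IsLocalRing.of_isUnit_or_isUnit_one_sub_self fun x => ?_
  obtain ⟨F, rfl⟩ := Ideal.Quotient.mk_surjective x
  rcases res_T F with hF | hF
  · right
    exact (nilp I N hI hF).isUnit_one_sub
  · left
    have h2 : Ideal.Quotient.mk I F = 1 - Ideal.Quotient.mk I (-(F - 1)) := by
      rw [← map_one (Ideal.Quotient.mk I), ← map_sub]
      congr 1
      ring
    rw [h2]
    exact (nilp I N hI (neg_mem hF)).isUnit_one_sub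

end quot

end KYQN

open KYQN in
theorem kyq : S_KYQ := by
  intro A _ _ _ _ h e M he hM hMM hLP N hN
  have hch : ∀ i j, ∃ F ∈ idn h, M i j - MvPolynomial.aeval e F ∈ maximalIdeal A ^ N := by
    intro i j
    obtain ⟨F, hF, hF'⟩ := app_k he (N - 1) 1 (M i j) (by rw [pow_one]; exact hM i j)
    rw [pow_one] at hF
    refine ⟨F, hF, ?_⟩
    have h1 : 1 + (N - 1) = N := by omega
    rw [h1] at hF'
    exact hF'
  choose M' hM'n hM' using hch
  obtain ⟨MM, hMMdef⟩ : ∃ MM : Matrix (Fin 3) (Fin 3) (MvPolynomial (Fin h) (ZMod 2)),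
    MM = Matrix.of M' := ⟨_, rfl⟩
  have hMMij : ∀ i j, MM i j = M' i j := fun i j => by rw [hMMdef]; rfl
  refine ⟨MM, fun i j => by rw [hMMij]; exact hM'n i j, ?_⟩
  obtain ⟨ψ, hψ⟩ : ∃ ψ : MvPolynomial (Fin h) (ZMod 2) →+* A ⧸ maximalIdeal A ^ N,
    ψ = (Ideal.Quotient.mk (maximalIdeal A ^ N)).comp (MvPolynomial.aeval e :
      MvPolynomial (Fin h) (ZMod 2) →ₐ[ZMod 2] A).toRingHom := ⟨_, rfl⟩
  have hψa : ∀ F, ψ F = Ideal.Quotient.mk (maximalIdeal A ^ N) (MvPolynomial.aeval e F) :=
    fun F => by rw [hψ]; rfl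
  have hψ0 : ∀ F, ψ F = 0 ↔ MvPolynomial.aeval e F ∈ maximalIdeal A ^ N := fun F => by
    rw [hψa, Ideal.Quotient.eq_zero_iff_mem]
  have hψM : MM.map ψ = M.map (Ideal.Quotient.mk (maximalIdeal A ^ N)) := by
    ext i j
    rw [Matrix.map_apply, Matrix.map_apply, hψa, hMMij, Ideal.Quotient.eq]
    have h1 := hM' i j
    rw [← neg_mem_iff, neg_sub] at h1
    exact h1
  have hent : ∀ i j, ψ ((MM * MM) i j) = 0 := by
    intro i j
    have h1 : (MM * MM).map ψ = 0 := by
      rw [Matrix.map_mul, hψM, ← Matrix.map_mul, hMM]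
      ext i j
      rw [Matrix.map_apply, Matrix.zero_apply, Matrix.zero_apply, map_zero]
    have h2 := congrFun (congrFun h1 i) j
    rw [Matrix.map_apply] at h2
    exact h2
  obtain ⟨J, hJ⟩ : ∃ J : Ideal (MvPolynomial (Fin h) (ZMod 2)), J = RingHom.ker ψ := ⟨_, rfl⟩
  have hJm : ∀ F, F ∈ J ↔ ψ F = 0 := fun F => by rw [hJ, RingHom.mem_ker]
  obtain ⟨I1, hI1⟩ : ∃ I1 : Ideal (MvPolynomial (Fin h) (ZMod 2)), I1 =
    Ideal.span (Set.range fun q : Fin 3 × Fin 3 => (MM * MM) q.1 q.2) ⊔ (idn h) ^ N := ⟨_, rfl⟩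
  have hnJ : idn h ^ N ≤ J := by
    intro F hF
    rw [hJm, hψ0]
    exact phi_pow he N F hF
  have hI1J : I1 ≤ J := by
    rw [hI1]
    refine sup_le ?_ hnJ
    rw [Ideal.span_le]
    rintro _ ⟨q, rfl⟩
    exact (hJm _).2 (hent q.1 q.2)
  have hJ2 : J ≤ idn h ^ 2 := by
    intro F hF
    rw [hJm, hψ0] at hF
    exact sq_mem he F (Ideal.pow_le_pow_right hN hF)
  have hJ1 : J ≤ idn h := hJ2.trans (Ideal.pow_le_self (by norm_num))
  have hpow_ne : maximalIdeal A ^ N ≠ ⊤ := by
    intro h1
    have h2 : maximalIdeal A ^ N ≤ maximalIdeal A := Ideal.pow_le_self (by omega)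
    rw [h1, top_le_iff] at h2
    exact Ideal.IsPrime.ne_top inferInstance h2
  -- the claim
  suffices hmain : J ≤ I1 by
    intro F hF
    rw [← hI1]
    exact hmain ((hJm F).2 ((hψ0 F).2 hF))
  by_contra hcon
  obtain ⟨I, ⟨hI1I, hIJ⟩, hImax⟩ := WellFounded.has_min
    (wellFounded_gt : WellFounded ((· > ·) : Ideal (MvPolynomial (Fin h) (ZMod 2)) →
      Ideal (MvPolynomial (Fin h) (ZMod 2)) → Prop)) {I | I1 ≤ I ∧ I < J}
    ⟨I1, le_rfl, lt_of_le_not_ge hI1J hcon⟩
  have hmax : ∀ I' : Ideal (MvPolynomial (Fin h) (ZMod 2)), I ≤ I' → I' ≤ J → I' = I ∨ I' = J := by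
    intro I' h1 h2
    rcases eq_or_lt_of_le h2 with h3 | h3
    · exact Or.inr h3
    · left
      rcases eq_or_lt_of_le h1 with h4 | h4
      · exact h4.symm
      · exact absurd h4 (hImax I' ⟨hI1I.trans h1, h3⟩)
  have hnI : idn h ^ N ≤ I := by
    refine le_trans ?_ hI1I
    rw [hI1]
    exact le_sup_right
  -- `n J ≤ I`
  have hnJI : idn h * J ≤ I := by
    rcases hmax (I ⊔ idn h * J) le_sup_left (sup_le hIJ.le Ideal.mul_le_right) with h1 | h1
    · rw [← h1]
      exact le_sup_right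
    · exfalso
      have hit : ∀ k : ℕ, J ≤ I ⊔ idn h ^ k * J := by
        intro k
        induction k with
        | zero =>
          rw [pow_zero, one_mul]
          exact le_sup_right
        | succ k ih =>
          refine (h1.symm.le).trans (sup_le le_sup_left ?_)
          refine (Ideal.mul_mono_right ih).trans ?_
          rw [Ideal.mul_sup]
          refine sup_le (Ideal.mul_le_right.trans le_sup_left) ?_
          rw [← mul_assoc, ← pow_succ']
          exact le_sup_right
      have h2 := hit N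
      have h3 : idn h ^ N * J ≤ I := Ideal.mul_le_left.trans hnI
      exact absurd (h2.trans (sup_le le_rfl h3)) (not_le_of_gt hIJ)
  have hIne : I ≠ ⊤ := by
    intro h1
    rw [h1] at hIJ
    exact not_top_lt hIJ
  obtain ⟨x, hxJ, hxI⟩ := Set.exists_of_ssubset hIJ
  -- `J = I ∪ (x + I)`
  have hJtwo : ∀ y ∈ J, y ∈ I ∨ y - x ∈ I := by
    have h1 : I ⊔ Ideal.span {x} = J := by
      rcases hmax (I ⊔ Ideal.span {x}) le_sup_left
        (sup_le hIJ.le ((Ideal.span_singleton_le_iff_mem _).2 hxJ)) with h2 | h2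
      · exfalso
        apply hxI
        show x ∈ I
        rw [← h2]
        exact (le_sup_right : Ideal.span {x} ≤ I ⊔ Ideal.span {x}) (Ideal.mem_span_singleton_self x)
      · exact h2
    intro y hy
    rw [← h1, Submodule.mem_sup] at hy
    obtain ⟨i, hi, z, hz, rfl⟩ := hy
    rw [Ideal.mem_span_singleton'] at hz
    obtain ⟨t, rfl⟩ := hz
    rcases res_T t with h2 | h2
    · left
      exact I.add_mem hi (hnJI (Ideal.mul_mem_mul h2 hxJ))
    · right
      have h3 : i + t * x - x = i + (t - 1) * x := by ring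
      rw [h3]
      exact I.add_mem hi (hnJI (Ideal.mul_mem_mul h2 hxJ))
  -- the ring `B`
  obtain ⟨q, hq⟩ : ∃ q : (MvPolynomial (Fin h) (ZMod 2) ⧸ I) →+* A ⧸ maximalIdeal A ^ N,
      ∀ F, q (Ideal.Quotient.mk I F) = ψ F :=
    ⟨Ideal.Quotient.lift I ψ fun F hF => (hJm F).1 (hIJ.le hF), fun F => Ideal.Quotient.lift_mk _ _ _⟩
  have hBfin := quot_finite I N hnI
  have hBloc := quot_local I N hnI hIne
  have hB2 : (2 : MvPolynomial (Fin h) (ZMod 2) ⧸ I) = 0 := by
    have h1 : (2 : ZMod 2) = 0 := by decide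
    have h2 := congrArg (algebraMap (ZMod 2) (MvPolynomial (Fin h) (ZMod 2) ⧸ I)) h1
    rw [map_ofNat, map_zero] at h2
    exact h2
  have hqs : Function.Surjective q := by
    intro y
    obtain ⟨a, rfl⟩ := Ideal.Quotient.mk_surjective y
    obtain ⟨F, -, hF⟩ := app_k he N 0 a (by rw [pow_zero, Ideal.one_eq_top]; trivial)
    rw [zero_add] at hF
    refine ⟨Ideal.Quotient.mk I F, ?_⟩
    rw [hq, hψa, Ideal.Quotient.eq]
    rw [← neg_mem_iff, neg_sub] at hF
    exact hF
  have hkerm : ∀ F, Ideal.Quotient.mk I F ∈ RingHom.ker q ↔ F ∈ J := fun F => by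
    rw [RingHom.mem_ker, hq, hJm]
  have hker : Nat.card (RingHom.ker q) = 2 := by
    have h1 : ((RingHom.ker q : Ideal (MvPolynomial (Fin h) (ZMod 2) ⧸ I)) :
        Set (MvPolynomial (Fin h) (ZMod 2) ⧸ I)) = {0, Ideal.Quotient.mk I x} := by
      ext b
      rw [SetLike.mem_coe, Set.mem_insert_iff, Set.mem_singleton_iff]
      obtain ⟨F, rfl⟩ := Ideal.Quotient.mk_surjective b
      rw [hkerm]
      constructor
      · intro hF
        rcases hJtwo F hF with h2 | h2
        · exact Or.inl (Ideal.Quotient.eq_zero_iff_mem.2 h2)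
        · exact Or.inr ((Ideal.Quotient.eq).2 h2)
      · rintro (h2 | h2)
        · exact hIJ.le (Ideal.Quotient.eq_zero_iff_mem.1 h2)
        · have h3 := (Ideal.Quotient.eq).1 h2
          have h4 := J.add_mem (hIJ.le h3) hxJ
          rw [sub_add_cancel] at h4
          exact h4
    have h2 : Nat.card (RingHom.ker q) = ((RingHom.ker q :
        Ideal (MvPolynomial (Fin h) (ZMod 2) ⧸ I)) :
        Set (MvPolynomial (Fin h) (ZMod 2) ⧸ I)).ncard := Nat.card_coe_set_eq _
    rw [h2, h1, Set.ncard_pair]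
    intro h3
    exact hxI (Ideal.Quotient.eq_zero_iff_mem.1 h3.symm)
  obtain ⟨X, hX⟩ : ∃ X : Matrix (Fin 3) (Fin 3) (MvPolynomial (Fin h) (ZMod 2) ⧸ I),
    X = MM.map (Ideal.Quotient.mk I) := ⟨_, rfl⟩
  have hXq : X.map q = M.map (Ideal.Quotient.mk (maximalIdeal A ^ N)) := by
    rw [← hψM, hX]
    ext i j
    rw [Matrix.map_apply, Matrix.map_apply, Matrix.map_apply, hq]
  have hXX : X * X = 0 := by
    rw [hX, ← Matrix.map_mul]
    ext i j
    rw [Matrix.map_apply, Matrix.zero_apply, Ideal.Quotient.eq_zero_iff_mem]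
    apply hI1I
    rw [hI1]
    exact (le_sup_left : Ideal.span (Set.range fun q : Fin 3 × Fin 3 => (MM * MM) q.1 q.2) ≤
      _ ⊔ _) (Ideal.subset_span ⟨(i, j), rfl⟩)
  obtain ⟨α, hα⟩ := hLP N (MvPolynomial (Fin h) (ZMod 2) ⧸ I) q hN hBfin hBloc hB2 hqs hker X hXq hXX
  have hαq : ∀ a, q (α a) = Ideal.Quotient.mk (maximalIdeal A ^ N) a := fun a => by
    rw [← hα]
    rfl
  -- the kernel of `q` is killed by `n`
  have hkill : ∀ F ∈ idn h, ∀ z ∈ RingHom.ker q, Ideal.Quotient.mk I F * z = 0 := by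
    intro F hF z hz
    obtain ⟨G, rfl⟩ := Ideal.Quotient.mk_surjective z
    rw [hkerm] at hz
    rw [← map_mul, Ideal.Quotient.eq_zero_iff_mem]
    exact hnJI (Ideal.mul_mem_mul hF hz)
  have hdiff : ∀ F, α (MvPolynomial.aeval e F) - Ideal.Quotient.mk I F ∈ RingHom.ker q := by
    intro F
    rw [RingHom.mem_ker, map_sub, hαq, hq, hψa, sub_self]
  have hshift : ∀ F ∈ idn h, ∃ G ∈ idn h, α (MvPolynomial.aeval e F) = Ideal.Quotient.mk I G := by
    intro F hF
    have h1 := hdiff F
    obtain ⟨G, hG⟩ := Ideal.Quotient.mk_surjective (α (MvPolynomial.aeval e F) -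
      Ideal.Quotient.mk I F)
    rw [← hG, hkerm] at h1
    refine ⟨F + G, Ideal.add_mem _ hF (hJ1 h1), ?_⟩
    rw [map_add, hG]
    ring
  have hsq : ∀ F ∈ idn h ^ 2, α (MvPolynomial.aeval e F) = Ideal.Quotient.mk I F := by
    intro F hF
    rw [pow_two] at hF
    refine Submodule.mul_induction_on hF ?_ ?_
    · intro a ha b hb
      obtain ⟨G, hG, hG'⟩ := hshift a ha
      have h1 := hkill G hG _ (hdiff b)
      have h2 := hkill b hb _ (hdiff a)
      rw [← hG'] at h1
      show α (MvPolynomial.aeval e (a * b)) = Ideal.Quotient.mk I (a * b)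
      rw [map_mul, map_mul, map_mul]
      linear_combination h1 + h2
    · intro a b ha hb
      rw [map_add, map_add, map_add, ha, hb]
  -- `α` is local
  have hαm : maximalIdeal A ≤ ((idn h).map (Ideal.Quotient.mk I)).comap α := by
    intro a ha
    rw [Ideal.mem_comap]
    obtain ⟨G, hG⟩ := Ideal.Quotient.mk_surjective (α a)
    rw [← hG]
    rcases res_T G with h1 | h1
    · exact Ideal.mem_map_of_mem _ h1
    · exfalso
      have h2 : IsUnit (α a) := by
        rw [← hG]
        have h3 : Ideal.Quotient.mk I G = 1 - Ideal.Quotient.mk I (-(G - 1)) := by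
          rw [← map_one (Ideal.Quotient.mk I), ← map_sub]
          congr 1
          ring
        rw [h3]
        exact (nilp I N hnI (neg_mem h1)).isUnit_one_sub
      have h3 : IsUnit (Ideal.Quotient.mk (maximalIdeal A ^ N) a) := by
        rw [← hαq]
        exact h2.map q
      have h4 : (Ideal.Quotient.mk (maximalIdeal A ^ N) a) ^ N = 0 := by
        rw [← map_pow, Ideal.Quotient.eq_zero_iff_mem]
        exact Ideal.pow_mem_pow ha N
      have h5 := h3.pow N
      rw [h4] at h5
      have h6 : Nontrivial (A ⧸ maximalIdeal A ^ N) := Ideal.Quotient.nontrivial_iff.2 hpow_ne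
      exact not_isUnit_zero h5
  have hαN : ∀ a ∈ maximalIdeal A ^ N, α a = 0 := by
    intro a ha
    have h1 := ((Ideal.pow_right_mono hαm N).trans (Ideal.le_comap_pow _ N)) ha
    rw [Ideal.mem_comap, ← Ideal.map_pow] at h1
    have h2 : (idn h ^ N).map (Ideal.Quotient.mk I) ≤ ⊥ := by
      rw [Ideal.map_le_iff_le_comap]
      intro F hF
      rw [Ideal.mem_comap, Ideal.mem_bot, Ideal.Quotient.eq_zero_iff_mem]
      exact hnI hF
    exact (Ideal.mem_bot).1 (h2 h1)
  -- the contradiction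
  have hfin : J ≤ I := by
    intro F hF
    have h1 := hsq F (hJ2 hF)
    have h2 := hαN _ ((hψ0 F).1 ((hJm F).1 hF))
    rw [h2] at h1
    exact Ideal.Quotient.eq_zero_iff_mem.1 h1.symm
  exact absurd hfin (not_le_of_gt hIJ)

end Pool.Agent.H429.MZQ
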