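import Pool.Graph.R_pool_sql_team_seeded_3997aac3.Q182.MZ.LFa
import Pool.Graph.R_pool_sql_team_seeded_3997aac3.Q111.EX.Fin
import Pool.Graph.R_pool_sql_team_seeded_3997aac3.Q53.EX.Tw0
import Pool.Graph.R_pool_sql_team_seeded_3997aac3.Q38.EX.NrmB

/-! Project MZ, job MZ-LC: the local component of the Artin character of a quadratic extension at a
prime which does not split is not trivial. -/

set_option autoImplicit false
set_option linter.unusedSectionVars false

namespace Pool.Agent.H429.MZQ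

open NumberField IsDedekindDomain Module
open Pool.Agent.Q92.AR (Dv prin Pr Ray RayD art nmD nu up puD Cong Pos frob IsFrobenius Unramified Ram
  SupF prin_mul prin_div prin_one prin_inv mem_Pr val_eq_one nmD_single art_single frob_spec all_NKer
  all_Cyc recip)
open Pool.Agent.Q20.EX (CongAt Inert Split)
open Pool.Agent.Q5.MZ (LocN NonSplit PosRam S_LC)
open Pool.Agent.Q125.AR (mem_under prin_eq_zero_of_valuation Ray_mono Ram_mono chi_frob valuation_eq_exp)
open Pool.Agent.Q5.BR (rdeg rdeg_pos absNorm_rdeg)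
open Pool.Agent.Q182.MZ (apx apxAt prin_eq_of_near nm_prin pos_nu)
open Pool.Agent.Q53.EX (CongAt_mono inert_conj)
open Pool.Agent.TeamU (act)

namespace LCN

/-- the residue degree is one if all elements of the residue field satisfy `x ^ q = x` -/
theorem rdeg_one {F L : Type} [Field F] [NumberField F] [Field L] [NumberField L] [Algebra F L]
    (w : HeightOneSpectrum (𝓞 L))
    (h : ∀ x : 𝓞 L, x ^ Ideal.absNorm (w.under (𝓞 F)).asIdeal - x ∈ w.asIdeal) : rdeg F w = 1 := by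
  classical
  have hN := absNorm_rdeg (K := F) w
  have hq2 : 1 < Ideal.absNorm (w.under (𝓞 F)).asIdeal := by
    have h0 : Ideal.absNorm (w.under (𝓞 F)).asIdeal ≠ 0 := by
      rw [Ne, Ideal.absNorm_eq_zero_iff]; exact (w.under (𝓞 F)).ne_bot
    have h1 : Ideal.absNorm (w.under (𝓞 F)).asIdeal ≠ 1 := by
      rw [Ne, Ideal.absNorm_eq_one_iff]; exact (w.under (𝓞 F)).isPrime.ne_top
    omega
  generalize Ideal.absNorm (w.under (𝓞 F)).asIdeal = q at h hN hq2
  have hm : w.asIdeal.IsMaximal := w.isMaximal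
  let _ : Field (𝓞 L ⧸ w.asIdeal) := Ideal.Quotient.field w.asIdeal
  have hf : Finite (𝓞 L ⧸ w.asIdeal) := Ideal.finiteQuotientOfFreeOfNeBot _ w.ne_bot
  let _ : Fintype (𝓞 L ⧸ w.asIdeal) := Fintype.ofFinite _
  have h1 : ∀ x : 𝓞 L ⧸ w.asIdeal, x ^ q - x = 0 := by
    intro x
    obtain ⟨a, rfl⟩ := Ideal.Quotient.mk_surjective x
    rw [← map_pow, ← map_sub, Ideal.Quotient.eq_zero_iff_mem]
    exact h a
  have hdeg := FiniteField.X_pow_card_sub_X_natDegree_eq (𝓞 L ⧸ w.asIdeal) hq2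
  have hne := FiniteField.X_pow_card_sub_X_ne_zero (𝓞 L ⧸ w.asIdeal) hq2
  have h2 : Fintype.card (𝓞 L ⧸ w.asIdeal) ≤ q := by
    have h3 : (Finset.univ : Finset (𝓞 L ⧸ w.asIdeal)).card ≤
        (Polynomial.X ^ q - Polynomial.X : Polynomial (𝓞 L ⧸ w.asIdeal)).natDegree := by
      refine Polynomial.card_le_degree_of_subset_roots (fun x _ => ?_)
      rw [Polynomial.mem_roots hne, Polynomial.IsRoot.def]
      simpa using h1 x
    rw [hdeg] at h3
    exact h3
  have h3 : Ideal.absNorm w.asIdeal = Fintype.card (𝓞 L ⧸ w.asIdeal) := by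
    rw [← Nat.card_eq_fintype_card]
    rfl
  rw [← h3, hN] at h2
  have h4 : rdeg F w ≤ 1 := by
    by_contra h5
    have h6 : q ^ 2 ≤ q ^ rdeg F w := Nat.pow_le_pow_right (by omega) (by omega)
    nlinarith
  have h5 := rdeg_pos (K := F) w
  omega

/-- a uniformizer -/
theorem exists_unif {K : Type} [Field K] [NumberField K] (v : HeightOneSpectrum (𝓞 K)) :
    ∃ x : Kˣ, prin x v = 1 := by
  obtain ⟨π, hπ⟩ := v.valuation_exists_uniformizer K
  have h0 : π ≠ 0 := by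
    rintro rfl
    rw [map_zero] at hπ
    exact WithZero.exp_ne_zero hπ.symm
  refine ⟨Units.mk0 π h0, ?_⟩
  have h1 := valuation_eq_exp (Units.mk0 π h0) v
  rw [Units.val_mk0, hπ] at h1
  have h2 := WithZero.exp_injective h1
  omega

/-- totally positive elements of order one at `v`, congruent to `1` at the other primes -/
theorem exists_el {K : Type} [Field K] [NumberField K] {N : ℕ} (hN : N ≠ 0)
    (v : HeightOneSpectrum (𝓞 K)) (hv : (N : 𝓞 K) ∈ v.asIdeal) :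
    ∃ z : Kˣ, Pos (z : K) ∧ CongAt {v}ᶜ N (z : K) ∧ prin z v = 1 := by
  obtain ⟨x, hx⟩ := exists_unif v
  obtain ⟨z, h1, h2, h3⟩ := apxAt hN v x
  refine ⟨z, h1, h2, ?_⟩
  rw [← prin_eq_of_near hv (h3 hv)]
  exact hx

section
variable {k E C : Type} [Field k] [NumberField k] [Field E] [NumberField E] [Field C] [NumberField C]
  [Algebra k E] [Algebra k C] [Algebra E C] [IsScalarTower k E C] [IsGalois k C] [IsGalois k E]

/-- a Frobenius element at a prime with prescribed value of a ramified quadratic character -/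
theorem exists_frob_neg (ψ : (E ≃ₐ[k] E) →* ℂˣ) (hinj : Function.Injective ψ)
    (h2 : ∀ g : E ≃ₐ[k] E, ψ g = 1 ∨ ψ g = -1) (v : HeightOneSpectrum (𝓞 k))
    (hv : ¬ Unramified E v) :
    ∃ (w : HeightOneSpectrum (𝓞 C)) (g : C ≃ₐ[k] C), w.under (𝓞 k) = v ∧
      (∀ x : 𝓞 C, ∃ y ∈ w.asIdeal, (y : C) = g x - (x : C) ^ Ideal.absNorm v.asIdeal) ∧
      ψ (AlgEquiv.restrictNormal g E) = -1 := by
  classical
  -- a Frobenius element
  obtain ⟨w1, hw1m, hw1v, hw1⟩ := frob_spec (M := C) v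
  have hw0 : w1 ≠ ⊥ := by
    rintro rfl
    apply v.ne_bot
    rw [← hw1v, ← RingHom.ker_eq_comap_bot]
    exact (RingHom.injective_iff_ker_eq_bot _).1 (FaithfulSMul.algebraMap_injective (𝓞 k) (𝓞 C))
  obtain ⟨w, hw⟩ : ∃ w : HeightOneSpectrum (𝓞 C), w.asIdeal = w1 := ⟨⟨w1, hw1m.isPrime, hw0⟩, rfl⟩
  subst hw
  have hwv : w.under (𝓞 k) = v := HeightOneSpectrum.ext hw1v
  -- an inertia element
  obtain ⟨w', hw', g', hg', x, hx⟩ : ∃ w' : HeightOneSpectrum (𝓞 C), w'.under (𝓞 k) = v ∧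
      ∃ g' : C ≃ₐ[k] C, Inert w' g' ∧ ∃ x : E, g' (algebraMap E C x) ≠ algebraMap E C x := by
    by_contra hcon
    push Not at hcon
    exact hv (Pool.Agent.Q111.EX.unram_of_inert (M := C) v hcon)
  obtain ⟨τ, hτ⟩ := Pool.Agent.Q149.AR.trans_act (F := k) (E := C) (hw'.trans hwv.symm)
  have ht := inert_conj τ hg'
  rw [hτ] at ht
  have hψg' : ψ (AlgEquiv.restrictNormal g' E) = -1 := by
    rcases h2 (AlgEquiv.restrictNormal g' E) with h | h
    · exfalso
      apply hx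
      have h3 : AlgEquiv.restrictNormal g' E = 1 := hinj (by rw [h, map_one])
      rw [← AlgEquiv.restrictNormal_commutes g' E x, h3]
      rfl
    · exact h
  have hres : ∀ a b : C ≃ₐ[k] C, ψ (AlgEquiv.restrictNormal (a * b) E) =
      ψ (AlgEquiv.restrictNormal a E) * ψ (AlgEquiv.restrictNormal b E) := by
    intro a b
    rw [← map_mul]
    exact congrArg ψ (map_mul (AlgEquiv.restrictNormalHom (F := k) (K₁ := C) E) a b)
  have hψt : ψ (AlgEquiv.restrictNormal (τ * g' * τ⁻¹) E) = -1 := by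
    have h3 : ψ (AlgEquiv.restrictNormal (τ * τ⁻¹) E) = 1 := by
      rw [mul_inv_cancel]
      have h4 : AlgEquiv.restrictNormal (1 : C ≃ₐ[k] C) E = 1 :=
        map_one (AlgEquiv.restrictNormalHom (F := k) (K₁ := C) E)
      rw [h4, map_one]
    rw [hres] at h3
    rw [hres, hres, mul_right_comm, h3, one_mul]
    exact hψg'
  rcases h2 (AlgEquiv.restrictNormal (frob C v) E) with h | h
  · refine ⟨w, frob C v * (τ * g' * τ⁻¹), hwv, ?_, ?_⟩
    · intro x
      have htx : IsIntegral ℤ ((τ * g' * τ⁻¹) (x : C)) := x.2.map (τ * g' * τ⁻¹)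
      obtain ⟨a, ha⟩ : ∃ a : 𝓞 C, (a : C) = (τ * g' * τ⁻¹) (x : C) := ⟨⟨_, htx⟩, rfl⟩
      have h3 : a - x ∈ w.asIdeal := by
        have h4 := ht x
        rw [← ha] at h4
        exact (w.valuation_lt_one_iff_mem (K := C) (a - x)).1 h4
      obtain ⟨y, hy, hy2⟩ := hw1 a
      refine ⟨y + (a ^ Ideal.absNorm v.asIdeal - x ^ Ideal.absNorm v.asIdeal), ?_, ?_⟩
      · exact w.asIdeal.add_mem hy (w.asIdeal.mem_of_dvd (sub_dvd_pow_sub_pow _ _ _) h3)
      · rw [AlgEquiv.mul_apply, ← ha]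
        have h5 : ((y + (a ^ Ideal.absNorm v.asIdeal - x ^ Ideal.absNorm v.asIdeal) : 𝓞 C) : C) =
          (y : C) + ((a : C) ^ Ideal.absNorm v.asIdeal - (x : C) ^ Ideal.absNorm v.asIdeal) := rfl
        rw [h5, hy2]
        ring
    · rw [hres, h, hψt, one_mul]
  · exact ⟨w, frob C v, hwv, hw1, h⟩

end

/-- the values of the character of a quadratic extension -/
theorem val_pm {k E : Type} [Field k] [NumberField k] [Field E] [NumberField E] [Algebra k E]
    [IsGalois k E] (hr : finrank k E = 2) (ψ : (E ≃ₐ[k] E) →* ℂˣ) (g : E ≃ₐ[k] E) :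
    ψ g = 1 ∨ ψ g = -1 := by
  have h1 : Nat.card (E ≃ₐ[k] E) = 2 := by
    rw [IsGalois.card_aut_eq_finrank, hr]
  have h2 : g ^ 2 = 1 := by
    rw [← h1]
    exact pow_card_eq_one'
  have h3 : (ψ g) ^ 2 = 1 := by
    rw [← map_pow, h2, map_one]
  have h4 : ((ψ g : ℂˣ) : ℂ) ^ 2 = 1 := by
    rw [← Units.val_pow_eq_pow_val, h3, Units.val_one]
  have h5 : ((ψ g : ℂˣ) : ℂ) = 1 ∨ ((ψ g : ℂˣ) : ℂ) = -1 := by
    have h6 : (((ψ g : ℂˣ) : ℂ) - 1) * (((ψ g : ℂˣ) : ℂ) + 1) = 0 := by linear_combination h4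
    rcases mul_eq_zero.1 h6 with h | h
    · exact Or.inl (sub_eq_zero.1 h)
    · exact Or.inr (eq_neg_of_add_eq_zero_left h)
  rcases h5 with h | h
  · exact Or.inl (Units.ext (by rw [h, Units.val_one]))
  · exact Or.inr (Units.ext (by rw [h, Units.val_neg, Units.val_one]))

theorem ofMul_neg_one_ne : Additive.ofMul (-1 : ℂˣ) ≠ 0 := by
  intro h
  have h1 : (-1 : ℂˣ) = 1 := congrArg Additive.toMul h
  have h2 := congrArg (fun u : ℂˣ => (u : ℂ)) h1
  simp only [Units.val_neg, Units.val_one] at h2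
  have h3 : (2 : ℂ) = 0 := by linear_combination -h2
  exact two_ne_zero h3

/-- case 1: `v` is inert -/
theorem case_unr {k E : Type} [Field k] [NumberField k] [Field E] [NumberField E] [Algebra k E]
    [IsGalois k E] (ψ : (E ≃ₐ[k] E) →* ℂˣ) (v : HeightOneSpectrum (𝓞 k)) {N : ℕ}
    (hr : finrank k E = 2) (hinj : Function.Injective ψ) (hN : N ≠ 0) (hNv : (N : 𝓞 k) ∈ v.asIdeal)
    (hns : NonSplit E v) (hv : Unramified E v) :
    ∃ z : kˣ, Pos (z : k) ∧ CongAt {v}ᶜ N (z : k) ∧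
      art ψ (prin z - Finsupp.single v (prin z v)) ≠ 0 := by
  classical
  have hf : ψ (frob E v) ≠ 1 := by
    intro h1
    have hs := Pool.Agent.Q111.EX.split_of_inj ψ hinj hv h1
    obtain ⟨w, hw⟩ := Pool.Agent.Q38.EX.exists_above (M := E) v
    have h2 : Nat.card (E ≃ₐ[k] E) = 2 := by
      rw [IsGalois.card_aut_eq_finrank, hr]
    have h3 : ∀ g : E ≃ₐ[k] E, g = 1 := fun g =>
      hs w hw g (hns _ _ (by rw [Pool.Agent.Q38.EX.under_act, hw]) hw)
    have h4 : Subsingleton (E ≃ₐ[k] E) := ⟨fun a b => by rw [h3 a, h3 b]⟩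
    have h5 := Nat.card_of_subsingleton (1 : E ≃ₐ[k] E)
    omega
  obtain ⟨N', hN', hR', h'⟩ := Pool.Agent.Q111.EX.good Pool.Agent.Q38.EX.nrm k E ψ v hv
  have hv' : ((N * N' : ℕ) : 𝓞 k) ∈ v.asIdeal := by
    rw [Nat.cast_mul]
    exact v.asIdeal.mul_mem_right _ hNv
  obtain ⟨z, hz1, hz2, hz3⟩ := exists_el (mul_ne_zero hN hN') v hv'
  refine ⟨z, hz1, CongAt_mono (dvd_mul_right N N') hz2, ?_⟩
  rw [map_sub, h' z hz1 (CongAt_mono (dvd_mul_left N' N) hz2), art_single, hz3, one_smul, zero_sub,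
    Ne, neg_eq_zero]
  intro h6
  exact hf (congrArg Additive.toMul h6)

/-- case 2: `v` is ramified -/
theorem case_ram {k E : Type} [Field k] [NumberField k] [Field E] [NumberField E] [Algebra k E]
    [IsGalois k E] (ψ : (E ≃ₐ[k] E) →* ℂˣ) (v : HeightOneSpectrum (𝓞 k)) {N : ℕ}
    (hr : finrank k E = 2) (hinj : Function.Injective ψ) (hN : N ≠ 0) (hNv : (N : 𝓞 k) ∈ v.asIdeal)
    (hv : ¬ Unramified E v) :
    ∃ z : kˣ, Pos (z : k) ∧ CongAt {v}ᶜ N (z : k) ∧
      art ψ (prin z - Finsupp.single v (prin z v)) ≠ 0 := by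
  classical
  have hq2 : 2 ≤ Ideal.absNorm v.asIdeal := by
    have h0 : Ideal.absNorm v.asIdeal ≠ 0 := by
      rw [Ne, Ideal.absNorm_eq_zero_iff]; exact v.ne_bot
    have h1 : Ideal.absNorm v.asIdeal ≠ 1 := by
      rw [Ne, Ideal.absNorm_eq_one_iff]; exact v.isPrime.ne_top
    omega
  -- the modulus `m`
  obtain ⟨m, hm0, hmc, hm⟩ := Pool.Agent.Q84.AR.ord (Ideal.absNorm v.asIdeal) 2 1 hq2 two_ne_zero
    one_ne_zero
  have hmz : NeZero m := ⟨hm0⟩
  rw [mul_one] at hmc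
  have hmv : (m : 𝓞 k) ∉ v.asIdeal := Pool.Agent.Q128.AR.not_mem_of_coprime hmc
  obtain ⟨ρ, hρ⟩ := Pool.Agent.Q111.EX.exists_char (ZMod.unitOfCoprime _ hmc.symm) (-1 : ℂˣ) (by
    refine (orderOf_dvd_of_pow_eq_one (n := 2) (by norm_num)).trans (hm _ ?_)
    have h1 := pow_orderOf_eq_one (ZMod.unitOfCoprime (Ideal.absNorm v.asIdeal) hmc.symm)
    have h2 := congrArg (fun u : (ZMod m)ˣ => (u : ZMod m)) h1
    rw [Units.val_pow_eq_pow_val, ZMod.coe_unitOfCoprime, Units.val_one, ← Nat.cast_pow,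
      ← Nat.cast_one, ZMod.natCast_eq_natCast_iff] at h2
    exact h2)
  -- the field `C`
  obtain ⟨C, _, _, _, _, _, hcyc, hCgal⟩ : ∃ (C : Type) (_ : Field C) (_ : NumberField C)
      (_ : Algebra E C) (_ : Algebra k C) (_ : IsScalarTower k E C),
      IsCyclotomicExtension {m} E C ∧ IsGalois k C :=
    ⟨CyclotomicField m E, inferInstance, inferInstance, inferInstance, inferInstance,
      inferInstance, inferInstance, Pool.Agent.Q128.AR.isGalois_tower k E (CyclotomicField m E) m⟩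
  obtain ⟨ζ, hζ⟩ := IsCyclotomicExtension.exists_isPrimitiveRoot E C (Set.mem_singleton m) hm0
  let κ : (C ≃ₐ[k] C) →* (ZMod m)ˣ := hζ.autToPow k
  have hκ : ∀ g : C ≃ₐ[k] C, ζ ^ ((κ g : (ZMod m)ˣ) : ZMod m).val = g ζ := fun g =>
    hζ.autToPow_spec k g
  let C' : IntermediateField k C := IntermediateField.adjoin k {ζ}
  have hC' : IsCyclotomicExtension {m} k C' :=
    hζ.intermediateField_adjoin_isCyclotomicExtension k
  have hC'gal : IsGalois k C' := IsCyclotomicExtension.isGalois {m} k C'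
  have hζm : ζ ∈ C' := IntermediateField.mem_adjoin_simple_self k ζ
  have hζ' : IsPrimitiveRoot (⟨ζ, hζm⟩ : C') m :=
    IsPrimitiveRoot.of_map_of_injective (f := algebraMap C' C) hζ (algebraMap C' C).injective
  let κ' : (C' ≃ₐ[k] C') →* (ZMod m)ˣ := hζ'.autToPow k
  have hκ' : ∀ g : C ≃ₐ[k] C, κ' (AlgEquiv.restrictNormal g C') = κ g := by
    intro g
    have h1 := hζ'.autToPow_spec k (AlgEquiv.restrictNormal g C')
    have h2 := congrArg (algebraMap C' C) h1
    rw [AlgEquiv.restrictNormal_commutes, map_pow] at h2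
    have h3 : ζ ^ ((κ' (AlgEquiv.restrictNormal g C') : (ZMod m)ˣ) : ZMod m).val = g ζ := h2
    rw [← hκ g, Pool.Agent.Q128.AR.root_pow_iff hm0 hζ, ← ZMod.natCast_eq_natCast_iff,
      ZMod.natCast_zmod_val, ZMod.natCast_zmod_val] at h3
    exact Units.ext h3
  -- the characters
  let ψ1 : (C ≃ₐ[k] C) →* ℂˣ := ψ.comp (AlgEquiv.restrictNormalHom E)
  let ρ1 : (C ≃ₐ[k] C) →* ℂˣ := ρ.comp κ
  obtain ⟨L, hLgal, θ', hinj', hθ'⟩ := Pool.Agent.Q111.EX.exists_quot (ψ1 * ρ1)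
  -- the Frobenius element
  obtain ⟨wC, g, hwC, hg, hψg⟩ := exists_frob_neg (C := C) ψ hinj (val_pm hr ψ) v hv
  have hgF : IsFrobenius v g := ⟨wC.asIdeal, wC.isMaximal, Pool.Agent.Q5.BR.under_eq hwC, hg⟩
  have hκg : ∀ g : C ≃ₐ[k] C, IsFrobenius v g → κ g = ZMod.unitOfCoprime _ hmc.symm := by
    intro g hgF
    have h2 := Pool.Agent.Q128.AR.frob_root hgF hmv hζ.1
    rw [← hκ, Pool.Agent.Q128.AR.root_pow_iff hm0 hζ, ← ZMod.natCast_eq_natCast_iff,
      ZMod.natCast_zmod_val] at h2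
    exact Units.ext h2
  have hg1 : (ψ1 * ρ1) g = 1 := by
    have h3 : ψ1 g = -1 := hψg
    have h4 : ρ1 g = -1 := by
      rw [← hρ, ← hκg g hgF]
      rfl
    rw [MonoidHom.mul_apply, h3, h4]
    norm_num
  have hgL : AlgEquiv.restrictNormal g L = 1 := hinj' (by rw [hθ', hg1, map_one])
  -- the prime of `L`
  obtain ⟨wL, hwL⟩ : ∃ wL : HeightOneSpectrum (𝓞 L), wL = wC.under (𝓞 L) := ⟨_, rfl⟩
  have hwLv : wL.under (𝓞 k) = v := by
    rw [hwL, Pool.Agent.Q280.AR.under_under k L C, hwC]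
  have hrd : rdeg k wL = 1 := by
    refine rdeg_one wL fun x => ?_
    rw [hwLv]
    obtain ⟨y, hy1, hy2⟩ := hg (algebraMap (𝓞 L) (𝓞 C) x)
    have h1 : g ((algebraMap (𝓞 L) (𝓞 C) x : 𝓞 C) : C) = ((algebraMap (𝓞 L) (𝓞 C) x : 𝓞 C) : C) := by
      have h2 := AlgEquiv.restrictNormal_commutes g L (x : L)
      rw [hgL] at h2
      exact h2.symm
    rw [h1] at hy2
    have h3 : algebraMap (𝓞 L) (𝓞 C) (x ^ Ideal.absNorm v.asIdeal - x) = -y := by
      apply RingOfIntegers.ext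
      have h4 : ((-y : 𝓞 C) : C) = - (y : C) := rfl
      rw [h4, hy2]
      have h5 : ((algebraMap (𝓞 L) (𝓞 C) (x ^ Ideal.absNorm v.asIdeal - x) : 𝓞 C) : C) =
        ((algebraMap (𝓞 L) (𝓞 C) x : 𝓞 C) : C) ^ Ideal.absNorm v.asIdeal -
          ((algebraMap (𝓞 L) (𝓞 C) x : 𝓞 C) : C) := by
        rw [map_sub, map_pow]
        rfl
      rw [h5]
      ring
    have h6 : algebraMap (𝓞 L) (𝓞 C) (x ^ Ideal.absNorm v.asIdeal - x) ∈ wC.asIdeal := by
      rw [h3]
      exact wC.asIdeal.neg_mem hy1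
    rw [← Pool.Agent.Q5.BR.under_eq hwL.symm]
    exact h6
  -- the modulus
  obtain ⟨N1, hN1, hR1, -⟩ := recip k C (ψ1 * ρ1)
  have hN0 : N * N1 * m ≠ 0 := mul_ne_zero (mul_ne_zero hN hN1) hm0
  have hd1 : N1 ∣ N * N1 * m := ⟨N * m, by ring⟩
  have hd2 : N ∣ N * N1 * m := ⟨N1 * m, by ring⟩
  have hd3 : m ∣ N * N1 * m := ⟨N * N1, by ring⟩
  generalize N * N1 * m = M at hN0 hd1 hd2 hd3
  have hRC : Ram k C M := Ram_mono hd1 hR1
  have hRL : Ram k L M := fun u hu => hRC u fun h => hu h.sub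
  have hMv : (M : 𝓞 k) ∈ v.asIdeal := by
    obtain ⟨j, rfl⟩ := hd2
    rw [Nat.cast_mul]
    exact v.asIdeal.mul_mem_right _ hNv
  have hMw : (M : 𝓞 L) ∈ wL.asIdeal := by
    rw [← mem_under (F := k), hwLv]
    exact hMv
  -- the elements
  obtain ⟨y, hy1, hy2, hy3⟩ := exists_el hN0 wL hMw
  have hPz : Pos (nu k L y : k) := pos_nu hy1
  have hD : prin y - Finsupp.single wL 1 ∈ Pr L M := by
    intro w hw
    rw [Finsupp.sub_apply]
    by_cases h : w = wL
    · rw [h, hy3, Finsupp.single_eq_same, sub_self]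
    · rw [Finsupp.single_eq_of_ne h, sub_zero]
      exact prin_eq_zero_of_valuation (val_eq_one hw (hy2 w (fun h1 => h h1) hw))
  have hnD : nmD k L (prin y - Finsupp.single wL 1) = prin (nu k L y) - Finsupp.single v 1 := by
    rw [map_sub, nm_prin, nmD_single, hwLv, hrd, Nat.cast_one, one_mul]
  have hPr : prin (nu k L y) - Finsupp.single v 1 ∈ Pr k M := by
    rw [← hnD]
    exact (Pool.Agent.Q106.AR.nm k L).2.2.2.1 M _ hD
  have hzv : prin (nu k L y) v = 1 := by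
    have h1 := hPr v hMv
    rw [Finsupp.sub_apply, Finsupp.single_eq_same] at h1
    omega
  have hcz : CongAt {v}ᶜ M (nu k L y : k) := by
    intro u hu hMu
    obtain ⟨w0, hw0⟩ := Pool.Agent.Q38.EX.exists_above (M := L) u
    refine Pool.Agent.Q38.EX.norm_cong u hMu y w0 hw0 fun w hw => ?_
    refine hy2 w (fun h => hu ?_) ?_
    · rw [Set.mem_singleton_iff] at h ⊢
      rw [← hw, h, hwLv]
    · rw [← mem_under (F := k), hw]
      exact hMu
  refine ⟨nu k L y, hPz, CongAt_mono hd2 hcz, ?_⟩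
  rw [hzv]
  have hunr : ∀ u, (prin (nu k L y) - Finsupp.single v 1 : Dv k) u ≠ 0 → Unramified C u := by
    intro u hu
    exact Pool.Agent.Q128.AR.Ram.unram hRC fun h => hu (hPr u h)
  have e2 : art θ' (prin (nu k L y) - Finsupp.single v 1) = 0 := by
    rw [← hnD]
    exact (all_NKer k L θ' M hN0).1 hRL _ hD
  have e3 : art θ' (prin (nu k L y) - Finsupp.single v 1) =
      art (ψ1 * ρ1) (prin (nu k L y) - Finsupp.single v 1) :=
    Pool.Agent.Q111.EX.art_quot' _ _ hθ' _ hunr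
  have e4 : art ψ (prin (nu k L y) - Finsupp.single v 1) =
      art ψ1 (prin (nu k L y) - Finsupp.single v 1) :=
    Pool.Agent.Q111.EX.art_quot' _ _ (fun _ => rfl) _ hunr
  have e5 : art (ρ.comp κ') (prin (nu k L y) - Finsupp.single v 1) =
      art ρ1 (prin (nu k L y) - Finsupp.single v 1) :=
    Pool.Agent.Q111.EX.art_quot' _ _ (fun g => by
      change ρ (κ' _) = ρ (κ g)
      rw [hκ']) _ hunr
  have e6 : art (ρ.comp κ') (prin (nu k L y)) = 0 := by
    refine all_Cyc k C' C' m m hm0 dvd_rfl (ρ.comp κ') (nu k L y) ⟨fun u hu => ?_, hPz⟩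
    have hne : u ≠ v := by
      rintro rfl
      exact hmv hu
    exact CongAt_mono hd3 hcz u hne hu
  have e7 : art (ρ.comp κ') (Finsupp.single v 1) = Additive.ofMul (-1 : ℂˣ) := by
    rw [art_single, one_smul]
    congr 1
    change ρ (κ' (frob C' v)) = -1
    have h2 := Pool.Agent.Q128.AR.frob_root (frob_spec (M := C') v) hmv hζ'.1
    rw [← hζ'.autToPow_spec k (frob C' v), Pool.Agent.Q128.AR.root_pow_iff hm0 hζ',
      ← ZMod.natCast_eq_natCast_iff, ZMod.natCast_zmod_val] at h2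
    have h3 : κ' (frob C' v) = ZMod.unitOfCoprime _ hmc.symm := Units.ext h2
    rw [h3, hρ]
  rw [e3, Pool.Agent.Q111.EX.art_mul, ← e5, ← e4, map_sub (art (ρ.comp κ')), e6, e7, zero_sub,
    add_neg_eq_zero] at e2
  rw [e2]
  exact ofMul_neg_one_ne

end LCN

/-- JOB MZ-LC. -/
theorem lc : Pool.Agent.Q5.MZ.S_LC := by
  intro k E _ _ _ _ _ _ ψ v N hr hinj hN hNv _ hns
  by_cases hv : Unramified E v
  · exact LCN.case_unr ψ v hr hinj hN hNv hns hv
  · exact LCN.case_ram ψ v hr hinj hN hNv hv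

end Pool.Agent.H429.MZQ
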