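import Mathlib
import Pool.Graph.R_pool_sql_team_seeded_3997aac3.Q5.MZ.Stm
import Pool.Graph.R_pool_sql_team_seeded_3997aac3.Q182.MZ.LFb

/-!
# The kernel of the local components is the group of the local norms (`J_LD`)
-/

set_option autoImplicit false
set_option linter.unusedSectionVars false

namespace Pool.Agent.H429.MZQ

open NumberField IsDedekindDomain Module
open Pool.Agent.Q92.AR (Dv prin Pr Ray RayD art nmD nu up puD Cong Pos frob IsFrobenius Unramified Ram
  SupF prin_mul prin_div prin_one prin_inv mem_Pr val_eq_one nmD_single art_single frob_spec)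
open Pool.Agent.Q20.EX (CongAt)
open Pool.Agent.Q5.MZ (LocN NonSplit PosRam VAData)
open Pool.Agent.Q38.EX (near_one near_mul near_inv near_div near_prod exists_exp_le val_nat_lt_one
  val_nat_ne_zero approx nu_eq val_nat norm_cong exists_above)
open Pool.Agent.Q125.AR (mem_under prin_eq_zero_of_valuation prin_mem_Pr Ray_mono Ram_mono)
open Pool.Agent.Q182.MZ (apxAt artLoc)

namespace LDN

section one
variable {k : Type} [Field k] [NumberField k]

/-- `z` approximates `x` at `v` -/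
structure Gd (N : ℕ) (v : HeightOneSpectrum (𝓞 k)) (x z : kˣ) : Prop where
  pos : Pos (z : k)
  cong : CongAt {v}ᶜ N (z : k)
  near : v.valuation k ((x : k) / (z : k) - 1) ≤ v.valuation k (N : k)

/-- the part of the divisor of `z` outside `v` -/
noncomputable def Dz (v : HeightOneSpectrum (𝓞 k)) (z : kˣ) : Dv k :=
  prin z - Finsupp.single v (prin z v)

theorem Dz_mul (v : HeightOneSpectrum (𝓞 k)) (z z' : kˣ) : Dz v (z * z') = Dz v z + Dz v z' := by
  unfold Dz
  rw [prin_mul, Finsupp.add_apply, Finsupp.single_add]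
  abel

theorem Dz_div (v : HeightOneSpectrum (𝓞 k)) (z z' : kˣ) : Dz v (z / z') = Dz v z - Dz v z' := by
  unfold Dz
  rw [prin_div, Finsupp.sub_apply, Finsupp.single_sub]
  abel

theorem Dz_one (v : HeightOneSpectrum (𝓞 k)) : Dz v (1 : kˣ) = 0 := by
  unfold Dz
  rw [prin_one, Finsupp.coe_zero, Pi.zero_apply, Finsupp.single_zero, sub_zero]

theorem Dz_of_ray {N : ℕ} {v : HeightOneSpectrum (𝓞 k)} (hv : (N : 𝓞 k) ∈ v.asIdeal) {z : kˣ}
    (hz : z ∈ Ray k N) : Dz v z = prin z := by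
  unfold Dz
  rw [prin_mem_Pr hz v hv, Finsupp.single_zero, sub_zero]

theorem exists_gd {N : ℕ} (hN : N ≠ 0) {v : HeightOneSpectrum (𝓞 k)} (hv : (N : 𝓞 k) ∈ v.asIdeal)
    (x : kˣ) : ∃ z : kˣ, Gd N v x z := by
  obtain ⟨z, h1, h2, h3⟩ := apxAt hN v x
  exact ⟨z, h1, h2, h3 hv⟩

theorem Gd.mul {N : ℕ} {v : HeightOneSpectrum (𝓞 k)} (hv : (N : 𝓞 k) ∈ v.asIdeal)
    {x x' z z' : kˣ} (h : Gd N v x z) (h' : Gd N v x' z') : Gd N v (x * x') (z * z') := by
  refine ⟨?_, ?_, ?_⟩
  · intro φ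
    rw [Units.val_mul, map_mul]
    exact mul_pos (h.pos φ) (h'.pos φ)
  · intro w hw hNw
    rw [Units.val_mul]
    exact near_mul _ (val_nat_lt_one hNw) (h.cong w hw hNw) (h'.cong w hw hNw)
  · have h1 := near_mul _ (val_nat_lt_one hv) h.near h'.near
    have e : ((x * x' : kˣ) : k) / ((z * z' : kˣ) : k) = (x : k) / (z : k) * ((x' : k) / (z' : k)) := by
      rw [Units.val_mul, Units.val_mul, mul_div_mul_comm]
    rw [e]
    exact h1

theorem Gd.ray {N : ℕ} {v : HeightOneSpectrum (𝓞 k)} (hv : (N : 𝓞 k) ∈ v.asIdeal)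
    {x z z' : kˣ} (h : Gd N v x z) (h' : Gd N v x z') : z / z' ∈ Ray k N := by
  classical
  refine ⟨?_, ?_⟩
  · intro w hw
    by_cases hwv : w = v
    · subst hwv
      have h1 := near_div _ (val_nat_lt_one hv) h'.near h.near
      have e : (x : k) / (z' : k) / ((x : k) / (z : k)) = ((z / z' : kˣ) : k) := by
        rw [Units.val_div_eq_div_val]
        have := x.ne_zero
        have := z.ne_zero
        have := z'.ne_zero
        field_simp
      rwa [e] at h1
    · have hw' : w ∈ ({v}ᶜ : Set (HeightOneSpectrum (𝓞 k))) := hwv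
      have h1 := near_div _ (val_nat_lt_one hw) (h.cong w hw' hw) (h'.cong w hw' hw)
      rwa [← Units.val_div_eq_div_val] at h1
  · intro φ
    rw [Units.val_div_eq_div_val, map_div₀]
    exact div_pos (h.pos φ) (h'.pos φ)

theorem gd_self {N : ℕ} {v : HeightOneSpectrum (𝓞 k)} {z : kˣ} (h1 : Pos (z : k))
    (h2 : CongAt {v}ᶜ N (z : k)) : Gd N v z z := by
  refine ⟨h1, h2, ?_⟩
  rw [div_self z.ne_zero, sub_self, map_zero]
  exact zero_le

theorem gd_one {N : ℕ} {v v' : HeightOneSpectrum (𝓞 k)} (hv' : (N : 𝓞 k) ∈ v'.asIdeal)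
    (hne : v' ≠ v) {z : kˣ} (h2 : CongAt {v}ᶜ N (z : k)) : Gd N v' z 1 := by
  refine ⟨?_, ?_, ?_⟩
  · intro φ
    rw [Units.val_one, map_one]
    exact one_pos
  · intro w _ _
    rw [Units.val_one, sub_self, map_zero]
    exact zero_le
  · rw [Units.val_one, div_one]
    exact h2 v' hne hv'

end one

section two
variable {k E : Type} [Field k] [NumberField k] [Field E] [NumberField E] [Algebra k E] [IsGalois k E]

theorem wd (ψ : (E ≃ₐ[k] E) →* ℂˣ) {N : ℕ} (hker : ∀ x ∈ Ray k N, art ψ (prin x) = 0)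
    {v : HeightOneSpectrum (𝓞 k)} (hv : (N : 𝓞 k) ∈ v.asIdeal) {x z z' : kˣ} (h : Gd N v x z)
    (h' : Gd N v x z') : art ψ (Dz v z) = art ψ (Dz v z') := by
  have h1 := h.ray hv h'
  have h2 := hker _ h1
  rw [← Dz_of_ray hv h1, Dz_div, map_sub] at h2
  exact sub_eq_zero.1 h2

/-- the local component of the character -/
noncomputable def Psi (ψ : (E ≃ₐ[k] E) →* ℂˣ) {N : ℕ} (hN : N ≠ 0)
    (hker : ∀ x ∈ Ray k N, art ψ (prin x) = 0)
    (v : HeightOneSpectrum (𝓞 k)) (hv : (N : 𝓞 k) ∈ v.asIdeal) :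
    kˣ →* Multiplicative (Additive ℂˣ) :=
  MonoidHom.mk' (fun x => Multiplicative.ofAdd (art ψ (Dz v (exists_gd hN hv x).choose)))
    (fun x x' => by
      rw [← ofAdd_add, ← map_add, ← Dz_mul]
      congr 1
      exact wd ψ hker hv (exists_gd hN hv (x * x')).choose_spec
        ((exists_gd hN hv x).choose_spec.mul hv (exists_gd hN hv x').choose_spec))

theorem Psi_eq (ψ : (E ≃ₐ[k] E) →* ℂˣ) {N : ℕ} (hN : N ≠ 0)
    (hker : ∀ x ∈ Ray k N, art ψ (prin x) = 0)
    (v : HeightOneSpectrum (𝓞 k)) (hv : (N : 𝓞 k) ∈ v.asIdeal) {x z : kˣ} (h : Gd N v x z) :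
    Psi ψ hN hker v hv x = Multiplicative.ofAdd (art ψ (Dz v z)) := by
  show Multiplicative.ofAdd (art ψ (Dz v (exists_gd hN hv x).choose)) = _
  rw [wd ψ hker hv (exists_gd hN hv x).choose_spec h]

end two

end LDN

open LDN in
theorem ld : Pool.Agent.Q5.MZ.J_LD := by
  intro _ hLB hLC k E _ _ _ _ _ _ σ N1 N2 A ψ h2 hVA hψ hker1 x hx
  classical
  have hN1 := hVA.n1
  have hN2 := hVA.n2
  have hR1 : Ram k E N1 := hVA.ram
  have hR2 : Ram k E N2 := Ram_mono hVA.dvd hR1
  have hker2 : ∀ x ∈ Ray k N2, art ψ (prin x) = 0 := fun x hx => hker1 x (Ray_mono hVA.dvd hx)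
  have hmem : ∀ v : HeightOneSpectrum (𝓞 k), (N1 : 𝓞 k) ∈ v.asIdeal → (N2 : 𝓞 k) ∈ v.asIdeal := by
    intro v h
    obtain ⟨c, hc⟩ := hVA.dvd
    rw [hc, Nat.cast_mul]
    exact Ideal.mul_mem_right _ _ h
  have hvalle : ∀ v : HeightOneSpectrum (𝓞 k), v.valuation k (N2 : k) ≤ v.valuation k (N1 : k) := by
    intro v
    obtain ⟨c, hc⟩ := hVA.dvd
    rw [hc, Nat.cast_mul, map_mul]
    refine mul_le_of_le_one_right' ?_
    have h1 := v.valuation_le_one (K := k) (c : 𝓞 k)
    simpa using h1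
  set B := {v : HeightOneSpectrum (𝓞 k) // (N1 : 𝓞 k) ∈ v.asIdeal ∧ NonSplit E v} with hB
  have hBfin : Finite B := by
    have hfin := Pool.Agent.Q125.AR.finite_dvd (F := k) hN1
    exact (hfin.subset (fun v hv => hv.1 :
      {v : HeightOneSpectrum (𝓞 k) | (N1 : 𝓞 k) ∈ v.asIdeal ∧ NonSplit E v} ⊆
        {v | (N1 : 𝓞 k) ∈ v.asIdeal})).to_subtype
  have : Fintype B := Fintype.ofFinite B
  let Φ : B → (kˣ →* Multiplicative (Additive ℂˣ)) := fun v =>
    Psi ψ hN2 hker2 v.1 (hmem v.1 v.2.1)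
  have hΦ : ∀ (v : B) {x z : kˣ}, Gd N2 v.1 x z →
      Φ v x = Multiplicative.ofAdd (art ψ (Dz v.1 z)) := fun v x z h =>
    Psi_eq ψ hN2 hker2 v.1 (hmem v.1 v.2.1) h
  set H := (nu k E).range ⊔ A.comap (up k E) with hH
  set K : Subgroup kˣ := ⨅ v : B, (Φ v).ker with hK
  -- `H ≤ K`
  have hHK : H ≤ K := by
    rw [hH, hK, sup_le_iff]
    constructor
    · rintro _ ⟨y, rfl⟩
      rw [Subgroup.mem_iInf]
      intro v
      rw [MonoidHom.mem_ker]
      obtain ⟨z, hz⟩ := exists_gd hN2 (hmem v.1 v.2.1) (nu k E y)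
      rw [hΦ v hz]
      have hloc : LocN E v.1 (nu k E y) := by
        intro m
        refine ⟨y, ?_⟩
        rw [div_self (nu k E y).ne_zero, sub_self, map_zero]
        exact zero_le
      have h1 := artLoc ψ hN2 hR2 hker2 (hmem v.1 v.2.1) hloc hz.pos hz.cong hz.near
      have h3 : art ψ (Dz v.1 z) = 0 := h1
      rw [h3]
      rfl
    · intro a ha
      have haA : up k E a ∈ A := Subgroup.mem_comap.1 ha
      rw [Subgroup.mem_iInf]
      intro v
      rw [MonoidHom.mem_ker]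
      obtain ⟨z, hz⟩ := exists_gd hN2 (hmem v.1 v.2.1) a
      rw [hΦ v hz]
      have hcong : ∀ w : HeightOneSpectrum (𝓞 k), (N1 : 𝓞 k) ∈ w.asIdeal →
          w.valuation k ((a : k) - 1) ≤ w.valuation k (N1 : k) := by
        intro w hw
        obtain ⟨W, hW⟩ := exists_above (M := E) w
        have hNW : (N1 : 𝓞 E) ∈ W.asIdeal := by
          rw [← mem_under (F := k), hW]
          exact hw
        have h4 := hVA.sub _ haA W hNW
        have h5 : ((up k E a : Eˣ) : E) = algebraMap k E (a : k) := rfl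
        rw [h5, val_nat, hW] at h4
        exact h4
      have hray : z ∈ Ray k N1 := by
        refine ⟨fun w hw => ?_, hz.pos⟩
        by_cases hwv : w = v.1
        · rw [hwv] at hw ⊢
          have h6 := near_div _ (val_nat_lt_one hw) (hcong _ hw) (hz.near.trans (hvalle v.1))
          have e : (a : k) / ((a : k) / (z : k)) = (z : k) := by
            have := a.ne_zero
            have := z.ne_zero
            field_simp
          rwa [e] at h6
        · exact (hz.cong w hwv (hmem w hw)).trans (hvalle w)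
      have h3 : art ψ (Dz v.1 z) = 0 := by
        rw [Dz_of_ray v.2.1 hray]
        exact hker1 z hray
      rw [h3]
      rfl
  -- elements with one nontrivial component
  have hex : ∀ v : B, ∃ z : kˣ, Φ v z ≠ 1 ∧ ∀ v' : B, v' ≠ v → Φ v' z = 1 := by
    intro v
    obtain ⟨z, hz1, hz2, hz3⟩ := hLC k E ψ v.1 N2 h2 hψ hN2 (hmem v.1 v.2.1) hR2 v.2.2
    refine ⟨z, ?_, ?_⟩
    · rw [hΦ v (gd_self hz1 hz2)]
      intro h
      exact hz3 (Multiplicative.ofAdd.injective h)
    · intro v' hne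
      rw [hΦ v' (gd_one (hmem v'.1 v'.2.1) (fun h => hne (Subtype.ext h)) hz2), Dz_one, map_zero]
      rfl
  choose zz hzz1 hzz2 using hex
  have hprod : ∀ (S : Finset B) (v : B), Φ v (∏ u ∈ S, zz u) = if v ∈ S then Φ v (zz v) else 1 := by
    intro S v
    rw [map_prod]
    by_cases hv : v ∈ S
    · rw [if_pos hv, Finset.prod_eq_single v]
      · intro u _ hu
        exact hzz2 u v (Ne.symm hu)
      · intro h
        exact absurd hv h
    · rw [if_neg hv]
      refine Finset.prod_eq_one fun u hu => hzz2 u v ?_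
      rintro rfl
      exact hv hu
  -- the index
  have hidx : H.index = 2 ^ Nat.card B := hLB k E σ N1 N2 A h2 hVA
  have hH0 : H.index ≠ 0 := by
    rw [hidx]
    exact pow_ne_zero _ two_ne_zero
  have hmul := Subgroup.relIndex_mul_index hHK
  have hK0 : K.index ≠ 0 := by
    intro h
    rw [h, mul_zero] at hmul
    exact hH0 hmul.symm
  have hKf : K.FiniteIndex := ⟨hK0⟩
  have hKge : 2 ^ Nat.card B ≤ K.index := by
    have hinj : Function.Injective fun S : Finset B => ((∏ u ∈ S, zz u : kˣ) : kˣ ⧸ K) := by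
      intro S S' h
      have h1 : (∏ u ∈ S, zz u)⁻¹ * ∏ u ∈ S', zz u ∈ K := QuotientGroup.eq.1 h
      rw [hK, Subgroup.mem_iInf] at h1
      ext v
      have h3 := h1 v
      rw [MonoidHom.mem_ker, map_mul, map_inv, inv_mul_eq_one, hprod, hprod] at h3
      by_cases hv : v ∈ S
      · by_cases hv' : v ∈ S'
        · exact ⟨fun _ => hv', fun _ => hv⟩
        · rw [if_pos hv, if_neg hv'] at h3
          exact absurd h3 (hzz1 v)
      · by_cases hv' : v ∈ S'
        · rw [if_neg hv, if_pos hv'] at h3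
          exact absurd h3.symm (hzz1 v)
        · exact ⟨fun h => absurd h hv, fun h => absurd h hv'⟩
    have hfinq : Finite (kˣ ⧸ K) := Subgroup.finite_quotient_of_finiteIndex
    have h4 := Nat.card_le_card_of_injective _ hinj
    rw [Nat.card_eq_fintype_card, Fintype.card_finset, ← Nat.card_eq_fintype_card] at h4
    exact h4
  have hrel : H.relIndex K = 1 := by
    have h5 : H.relIndex K ≠ 0 := by
      intro h
      rw [h, zero_mul] at hmul
      exact hH0 hmul.symm
    by_contra h6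
    have h7 : 2 ≤ H.relIndex K := by omega
    rw [hidx] at hmul
    have h8 : 0 < 2 ^ Nat.card B := by positivity
    nlinarith
  have hKH : K ≤ H := Subgroup.relIndex_eq_one.1 hrel
  apply hKH
  rw [hK, Subgroup.mem_iInf]
  intro v
  obtain ⟨z, hz1, hz2, hz3, hz4⟩ := hx v.1 v.2.1 v.2.2
  rw [MonoidHom.mem_ker, hΦ v ⟨hz1, hz2, hz3⟩]
  have h9 : art ψ (Dz v.1 z) = 0 := hz4
  rw [h9]
  rfl

end Pool.Agent.H429.MZQ
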