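import Pool.Agent.H429.MZQ.StmF

/-!
# Project MZQ: a homomorphism with open kernel which is trivial on `Kr` factors through a field of the family
-/

set_option autoImplicit false

namespace Pool.Agent.H429.MZQ

open NumberField IsDedekindDomain Module
open Pool.Agent.Q92.AR (Dv prin Unramified)
open Pool.Agent.Q5.MZ (KData TwoPow TwoUnram OneDyadic OddClass matA matB S438 dfst HL S_KU S_GB S_EM S_BC Gen2)

namespace QCQN

/-- the compositum of two finite Galois extensions -/
theorem comp0 (F Q E1 E2 : Type) [Field F] [CharZero F] [Field Q] [Algebra F Q] [Field E1] [Field E2]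
    [Algebra F E1] [Algebra F E2] [IsGalois F E1] [IsGalois F E2] [FiniteDimensional F E1]
    [FiniteDimensional F E2] (j1 : E1 →ₐ[F] Q) (j2 : E2 →ₐ[F] Q) :
    FiniteDimensional F (j1.fieldRange ⊔ j2.fieldRange : IntermediateField F Q) ∧
    IsGalois F (j1.fieldRange ⊔ j2.fieldRange : IntermediateField F Q) := by
  have fA : FiniteDimensional F j1.fieldRange :=
    LinearEquiv.finiteDimensional (AlgEquiv.ofInjectiveField j1).toLinearEquiv
  have fB : FiniteDimensional F j2.fieldRange :=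
    LinearEquiv.finiteDimensional (AlgEquiv.ofInjectiveField j2).toLinearEquiv
  have nA : Normal F j1.fieldRange := Normal.of_algEquiv (AlgEquiv.ofInjectiveField j1)
  have nB : Normal F j2.fieldRange := Normal.of_algEquiv (AlgEquiv.ofInjectiveField j2)
  have fL : FiniteDimensional F (j1.fieldRange ⊔ j2.fieldRange : IntermediateField F Q) :=
    IntermediateField.finiteDimensional_sup _ _
  have nL : Normal F (j1.fieldRange ⊔ j2.fieldRange : IntermediateField F Q) :=
    IntermediateField.normal_sup F Q _ _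
  exact ⟨fL, { }⟩

theorem ext0 (F Q E1 E2 : Type) [Field F] [Field Q] [Algebra F Q] [Field E1] [Field E2]
    [Algebra F E1] [Algebra F E2] (j1 : E1 →ₐ[F] Q) (j2 : E2 →ₐ[F] Q)
    (g : (j1.fieldRange ⊔ j2.fieldRange : IntermediateField F Q) →+*
      (j1.fieldRange ⊔ j2.fieldRange : IntermediateField F Q))
    (h1 : ∀ (x : E1) (hx : j1 x ∈ (j1.fieldRange ⊔ j2.fieldRange : IntermediateField F Q)),
      g ⟨j1 x, hx⟩ = ⟨j1 x, hx⟩)
    (h2 : ∀ (x : E2) (hx : j2 x ∈ (j1.fieldRange ⊔ j2.fieldRange : IntermediateField F Q)),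
      g ⟨j2 x, hx⟩ = ⟨j2 x, hx⟩) (x) : g x = x := by
  have hS : (j1.fieldRange ⊔ j2.fieldRange : IntermediateField F Q)
      = IntermediateField.adjoin F ((j1.fieldRange : Set Q) ∪ j2.fieldRange) := by
    refine le_antisymm (sup_le ?_ ?_) (IntermediateField.adjoin_le_iff.2 (Set.union_subset ?_ ?_))
    · exact fun x hx => IntermediateField.subset_adjoin F _ (Or.inl hx)
    · exact fun x hx => IntermediateField.subset_adjoin F _ (Or.inr hx)
    · exact SetLike.coe_subset_coe.2 le_sup_left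
    · exact SetLike.coe_subset_coe.2 le_sup_right
  have hc : ∀ r : F, g (algebraMap F _ r) = algebraMap F _ r := by
    intro r
    have hm : j1 (algebraMap F E1 r) ∈ (j1.fieldRange ⊔ j2.fieldRange : IntermediateField F Q) := by
      rw [AlgHom.commutes]
      exact IntermediateField.algebraMap_mem _ r
    have := h1 (algebraMap F E1 r) hm
    have e : (⟨j1 (algebraMap F E1 r), hm⟩ :
      (j1.fieldRange ⊔ j2.fieldRange : IntermediateField F Q)) = algebraMap F _ r := by
      apply Subtype.ext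
      simp
    rwa [e] at this
  let gA : (j1.fieldRange ⊔ j2.fieldRange : IntermediateField F Q) →ₐ[F]
    (j1.fieldRange ⊔ j2.fieldRange : IntermediateField F Q) := { g with commutes' := hc }
  have hg : gA = AlgHom.id F _ := by
    refine IntermediateField.algHom_ext_of_eq_adjoin F hS ?_
    intro y hy
    rcases hy with hy | hy
    · obtain ⟨z, rfl⟩ := (AlgHom.mem_fieldRange (f := j1)).1 hy
      exact h1 z _
    · obtain ⟨z, rfl⟩ := (AlgHom.mem_fieldRange (f := j2)).1 hy
      exact h2 z _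
  exact congrArg (fun f => f x) hg

theorem galQ {E : Type} [Field E] (i1 i2 : Algebra ℚ E)
    (h : @IsGalois ℚ _ E _ i1) : @IsGalois ℚ _ E _ i2 := by
  have : i1 = i2 := Subsingleton.elim _ _
  subst this
  exact h

theorem finQ {E : Type} [Field E] (i1 i2 : Algebra ℚ E)
    (h : @FiniteDimensional ℚ E _ _ i1.toModule) : @FiniteDimensional ℚ E _ _ i2.toModule := by
  have : i1 = i2 := Subsingleton.elim _ _
  subst this
  exact h

/-- the compositum of two Galois extensions inside a field -/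
theorem comp (K E1 E2 : Type) [Field K] [NumberField K] [Field E1] [NumberField E1] [Field E2]
    [NumberField E2] [Algebra K E1] [Algebra K E2] (Q : Type) [Field Q] [hQ : Algebra ℚ Q] (κ : K →+* Q)
    (ι1 : E1 →+* Q) (ι2 : E2 →+* Q) (h1 : ∀ a : K, ι1 (algebraMap K E1 a) = κ a)
    (h2 : ∀ a : K, ι2 (algebraMap K E2 a) = κ a) (hG1 : IsGalois ℚ E1) (hG2 : IsGalois ℚ E2) :
    ∃ (E : Type) (_ : Field E) (_ : NumberField E) (_ : Algebra K E) (_ : Algebra E1 E)
      (_ : Algebra E2 E) (_ : IsScalarTower K E1 E) (_ : IsScalarTower K E2 E) (ι : E →+* Q),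
      IsGalois ℚ E ∧ IsGalois K E ∧
      (∀ g : E ≃ₐ[K] E, (∀ x : E1, g (algebraMap E1 E x) = algebraMap E1 E x) →
        (∀ x : E2, g (algebraMap E2 E x) = algebraMap E2 E x) → g = 1) ∧
      (∀ x : K, ι (algebraMap K E x) = κ x) ∧ (∀ x : E1, ι (algebraMap E1 E x) = ι1 x) ∧
      ∀ x : E2, ι (algebraMap E2 E x) = ι2 x := by
  classical
  have hch : CharZero Q := algebraRat.charZero Q
  let j1 : E1 →ₐ[ℚ] Q := ι1.toRatAlgHom
  let j2 : E2 →ₐ[ℚ] Q := ι2.toRatAlgHom
  obtain ⟨c1, c2⟩ := comp0 ℚ Q E1 E2 j1 j2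
  have c3 := ext0 ℚ Q E1 E2 j1 j2
  have hA : ∀ x : E1, ι1 x ∈ (j1.fieldRange ⊔ j2.fieldRange : IntermediateField ℚ Q) := fun x =>
    (le_sup_left : j1.fieldRange ≤ j1.fieldRange ⊔ j2.fieldRange)
      ((AlgHom.mem_fieldRange (f := j1)).2 ⟨x, rfl⟩)
  have hB : ∀ x : E2, ι2 x ∈ (j1.fieldRange ⊔ j2.fieldRange : IntermediateField ℚ Q) := fun x =>
    (le_sup_right : j2.fieldRange ≤ j1.fieldRange ⊔ j2.fieldRange)
      ((AlgHom.mem_fieldRange (f := j2)).2 ⟨x, rfl⟩)
  have hK : ∀ x : K, κ x ∈ (j1.fieldRange ⊔ j2.fieldRange : IntermediateField ℚ Q) := fun x => by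
    rw [← h1]
    exact hA _
  generalize hL : (j1.fieldRange ⊔ j2.fieldRange : IntermediateField ℚ Q) = L at *
  let a1 : E1 →+* L := ι1.codRestrict L.toSubfield hA
  let a2 : E2 →+* L := ι2.codRestrict L.toSubfield hB
  let k0 : K →+* L := κ.codRestrict L.toSubfield hK
  have hcL : CharZero L := charZero_of_injective_algebraMap (FaithfulSMul.algebraMap_injective ℚ L)
  let iK : Algebra K L := k0.toAlgebra
  let i1 : Algebra E1 L := a1.toAlgebra
  let i2 : Algebra E2 L := a2.toAlgebra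
  have t1 : IsScalarTower K E1 L := IsScalarTower.of_algebraMap_eq fun x => by
    apply Subtype.ext
    exact (h1 x).symm
  have t2 : IsScalarTower K E2 L := IsScalarTower.of_algebraMap_eq fun x => by
    apply Subtype.ext
    exact (h2 x).symm
  have gQ : @IsGalois ℚ _ L _ DivisionRing.toRatAlgebra := galQ _ _ c2
  have nf : NumberField L := { to_finiteDimensional := finQ L.algebra' _ c1 }
  have tQ : @IsScalarTower ℚ K L _ _ (@Algebra.toSMul _ _ _ _ DivisionRing.toRatAlgebra) :=
    @IsScalarTower.of_algebraMap_eq' ℚ K L _ _ _ _ _ DivisionRing.toRatAlgebra (Subsingleton.elim _ _)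
  have gK : IsGalois K L := @IsGalois.tower_top_of_isGalois ℚ K L _ _ _ _ DivisionRing.toRatAlgebra _ tQ gQ
  refine ⟨L, inferInstance, nf, iK, i1, i2, t1, t2, algebraMap L Q, gQ, gK, ?_, fun _ => rfl,
    fun _ => rfl, fun _ => rfl⟩
  intro g hg1 hg2
  have := c3 (g : L →+* L) (fun x hx => hg1 x) (fun x hx => hg2 x)
  exact AlgEquiv.ext this


/-- the degree of a compositum -/
theorem two (K E1 E2 E : Type) [Field K] [NumberField K] [Field E1] [NumberField E1] [Field E2]
    [NumberField E2] [Field E] [NumberField E] [Algebra K E1] [Algebra K E2] [Algebra K E]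
    [Algebra E1 E] [Algebra E2 E] [IsScalarTower K E1 E] [IsScalarTower K E2 E] [IsGalois K E1]
    [IsGalois K E2] [IsGalois K E] (hg : Gen2 K E1 E2 E) (h1 : TwoPow K E1) (h2 : TwoPow K E2) :
    TwoPow K E := by
  obtain ⟨m1, h1⟩ := h1
  obtain ⟨m2, h2⟩ := h2
  let f : (E ≃ₐ[K] E) →* (E1 ≃ₐ[K] E1) × (E2 ≃ₐ[K] E2) :=
    (AlgEquiv.restrictNormalHom E1).prod (AlgEquiv.restrictNormalHom E2)
  have hf : Function.Injective f := by
    refine (injective_iff_map_eq_one f).2 fun g h => ?_
    have e1 : AlgEquiv.restrictNormalHom E1 g = 1 := congrArg Prod.fst h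
    have e2 : AlgEquiv.restrictNormalHom E2 g = 1 := congrArg Prod.snd h
    refine hg g (fun x => ?_) (fun x => ?_)
    · have h3 := AlgEquiv.restrictNormal_commutes g E1 x
      have h4 : g.restrictNormal E1 = 1 := e1
      rw [h4] at h3
      exact h3.symm
    · have h3 := AlgEquiv.restrictNormal_commutes g E2 x
      have h4 : g.restrictNormal E2 = 1 := e2
      rw [h4] at h3
      exact h3.symm
  have hd := Subgroup.card_dvd_of_injective f hf
  rw [Nat.card_prod, IsGalois.card_aut_eq_finrank, IsGalois.card_aut_eq_finrank,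
    IsGalois.card_aut_eq_finrank, h1, h2, ← pow_add] at hd
  obtain ⟨m, _, hm⟩ := (Nat.dvd_prime_pow Nat.prime_two).1 hd
  exact ⟨m, hm⟩

theorem self (K : Type) [Field K] [NumberField K] (v : HeightOneSpectrum (𝓞 K)) :
    Unramified K v := by
  intro w hw hle
  have hid : algebraMap (𝓞 K) (𝓞 K) = RingHom.id (𝓞 K) := by
    ext x
    rfl
  have h1 : w.asIdeal.under (𝓞 K) = v.asIdeal := congrArg HeightOneSpectrum.asIdeal hw
  rw [Ideal.under, hid, Ideal.comap_id] at h1
  have hle' : Ideal.map (RingHom.id (𝓞 K)) v.asIdeal ≤ w.asIdeal ^ 2 := hle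
  rw [Ideal.map_id, ← h1] at hle'
  have h2 : w.asIdeal ^ 2 = w.asIdeal :=
    le_antisymm (Ideal.pow_le_self two_ne_zero) hle'
  have h3 : w.asIdeal ^ 2 < w.asIdeal := by
    have := Ideal.pow_right_strictAnti w.asIdeal w.ne_bot w.isPrime.ne_top (by norm_num : 1 < 2)
    simpa using this
  exact h3.ne h2

theorem closed0 (F Q E : Type) [Field F] [Field Q] [Algebra F Q] [Field E] [Algebra F E]
    [FiniteDimensional F E] (j : E →ₐ[F] Q) :
    IsClosed {g : Gal(Q/F) | ∀ x, g (j x) = j x} := by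
  have fA : FiniteDimensional F j.fieldRange :=
    LinearEquiv.finiteDimensional (AlgEquiv.ofInjectiveField j).toLinearEquiv
  have h := IntermediateField.fixingSubgroup_isClosed j.fieldRange
  have e : {g : Gal(Q/F) | ∀ x, g (j x) = j x} = (j.fieldRange.fixingSubgroup : Set Gal(Q/F)) := by
    ext g
    rw [SetLike.mem_coe, IntermediateField.mem_fixingSubgroup_iff]
    constructor
    · intro hg y hy
      obtain ⟨x, rfl⟩ := (AlgHom.mem_fieldRange (f := j)).1 hy
      exact hg x
    · intro hg x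
      exact hg _ ((AlgHom.mem_fieldRange (f := j)).2 ⟨x, rfl⟩)
  rw [e]
  exact h

theorem closed1 (Q E : Type) [Field Q] [hQ : Algebra ℚ Q] [Field E] [NumberField E] (ι : E →+* Q) :
    IsClosed {g : Gal(Q/ℚ) | ∀ x, g (ι x) = ι x} :=
  closed0 ℚ Q E ι.toRatAlgHom

theorem algcl {A : Algebra ℚ (AlgebraicClosure ℚ)}
    [h : Module.IsTorsionFree ℚ (AlgebraicClosure ℚ)] : IsAlgClosure ℚ (AlgebraicClosure ℚ) := by
  have e : A = AlgebraicClosure.instAlgebra ℚ := Subsingleton.elim _ _
  subst e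
  infer_instance

end QCQN

open QCQN

theorem qcq : J_QCQ := by
  intro hBC hK7 K _ _ r hr κ H _ r1 hopen hKr
  have hcl : IsAlgClosure ℚ MZ.Om := algcl
  have hgal := hK7 ℚ MZ.Om S438
  have hcomp : CompactSpace GQ := inferInstance
  let I := {U : Set GQ // ∃ (E : Type) (_ : Field E) (_ : NumberField E) (_ : Algebra K E)
    (ι : E →ₐ[ℚ] QSm), Fam K κ E ι ∧ U = {g | ∀ x : E, g (ι x) = ι x}}
  have hne : Nonempty I := by
    refine ⟨⟨_, K, inferInstance, inferInstance, Algebra.id K, κ, ⟨hr.gal, ⟨0, ?_⟩, ?_, ?_⟩, rfl⟩⟩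
    · exact Module.finrank_self K
    · exact fun v _ => self K v
    · exact fun a => rfl
  have hdir : Directed (· ⊇ ·) (fun i : I => i.1) := by
    rintro ⟨U1, E1, _, _, _, ι1, h1, rfl⟩ ⟨U2, E2, _, _, _, ι2, h2, rfl⟩
    obtain ⟨E, _, _, _, _, _, _, _, ι, c1, c2, c3, c4, c5, c6⟩ :=
      comp K E1 E2 QSm (κ : K →+* QSm) (ι1 : E1 →+* QSm) (ι2 : E2 →+* QSm) h1.comp h2.comp
        h1.gal h2.gal
    have g1 : IsGalois ℚ E1 := h1.gal
    have g2 : IsGalois ℚ E2 := h2.gal
    have k1 : IsGalois K E1 := IsGalois.tower_top_of_isGalois ℚ K E1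
    have k2 : IsGalois K E2 := IsGalois.tower_top_of_isGalois ℚ K E2
    have hF : Fam K κ E ι.toRatAlgHom :=
      ⟨c1, two K E1 E2 E c3 h1.two h2.two,
        fun v hv => (hBC K E1 E2 E c3 v (h2.unr v hv)).2 (h1.unr v hv), c4⟩
    refine ⟨⟨_, E, inferInstance, inferInstance, inferInstance, ι.toRatAlgHom, hF, rfl⟩, ?_, ?_⟩
    · intro g hg x
      have := hg (algebraMap E1 E x)
      have e : ι.toRatAlgHom (algebraMap E1 E x) = ι1 x := c5 x
      rw [e] at this
      exact this
    · intro g hg x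
      have := hg (algebraMap E2 E x)
      have e : ι.toRatAlgHom (algebraMap E2 E x) = ι2 x := c6 x
      rw [e] at this
      exact this
  have hs : IsCompact ((r1.ker : Set GQ)ᶜ) := hopen.isClosed_compl.isCompact
  obtain ⟨⟨U, E, i1, i2, i3, ι, hF, hUe⟩, hU⟩ :=
    hs.elim_directed_family_closed (fun i : I => i.1) (by
      rintro ⟨U, E, _, _, _, ι, hF, rfl⟩
      exact closed1 QSm E (ι : E →+* QSm)) (by
      refine Set.eq_empty_iff_forall_notMem.2 ?_
      rintro g ⟨hg1, hg2⟩
      refine hg1 (MonoidHom.mem_ker.2 (hKr g ?_))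
      intro E _ _ _ ι hF x
      have := Set.mem_iInter.1 hg2 ⟨_, E, inferInstance, inferInstance, inferInstance, ι, hF, rfl⟩
      exact this x) hdir
  refine ⟨E, i1, i2, i3, ι, hF, fun g hg => ?_⟩
  by_contra hn
  refine Set.eq_empty_iff_forall_notMem.1 hU g ⟨fun hm => hn (MonoidHom.mem_ker.1 hm), ?_⟩
  show g ∈ U
  rw [hUe]
  exact hg

end Pool.Agent.H429.MZQ
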