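import Pool.Agent.H429.MZQ.StmF

/-!
# Project MZQ: QRQ, restriction to a Galois subfield
-/

set_option autoImplicit false
set_option linter.unusedSectionVars false

namespace Pool.Agent.H429.MZQ

open NumberField IsDedekindDomain Module
open Pool.Agent.Q5.MZ (S438)

namespace QRQN

/-- general version: restriction to the image of a finite normal extension -/
theorem gen (M : Type) [Field M] [Algebra ℚ M] [Normal ℚ M] (E : Type) [Field E] [Algebra ℚ E]
    [FiniteDimensional ℚ E] [Normal ℚ E] (ι : E →ₐ[ℚ] M) :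
    ∃ res : (M ≃ₐ[ℚ] M) →* (E ≃ₐ[ℚ] E), Function.Surjective res ∧
      IsOpen ((res.ker : Subgroup (M ≃ₐ[ℚ] M)) : Set (M ≃ₐ[ℚ] M)) ∧
      ∀ g x, ι (res g x) = g (ι x) := by
  let : Algebra E M := ι.toRingHom.toAlgebra
  have : IsScalarTower ℚ E M := IsScalarTower.of_algebraMap_eq fun x => (ι.commutes x).symm
  have hι : ∀ x : E, algebraMap E M x = ι x := fun x => rfl
  have hc : ∀ (g : M ≃ₐ[ℚ] M) (x : E), ι (AlgEquiv.restrictNormalHom E g x) = g (ι x) := by
    intro g x
    exact AlgEquiv.restrictNormal_commutes g E x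
  refine ⟨AlgEquiv.restrictNormalHom E, AlgEquiv.restrictNormalHom_surjective M, ?_, hc⟩
  have : FiniteDimensional ℚ ι.fieldRange :=
    (AlgEquiv.ofInjectiveField ι).toLinearEquiv.finiteDimensional
  have h1 := IntermediateField.fixingSubgroup_isOpen ι.fieldRange
  have h2 : ((AlgEquiv.restrictNormalHom E : (M ≃ₐ[ℚ] M) →* (E ≃ₐ[ℚ] E)).ker : Subgroup (M ≃ₐ[ℚ] M)) =
      ι.fieldRange.fixingSubgroup := by
    ext g
    rw [MonoidHom.mem_ker, IntermediateField.mem_fixingSubgroup_iff]
    constructor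
    · rintro h _ ⟨x, rfl⟩
      have h3 := hc g x
      rw [h] at h3
      exact h3.symm
    · intro h
      refine AlgEquiv.ext fun x => ?_
      have h3 : ι (AlgEquiv.restrictNormalHom E g x) = ι x := by
        rw [hc g x]
        exact h (ι x) ⟨x, rfl⟩
      exact ι.toRingHom.injective h3
  rw [h2]
  exact h1

end QRQN

theorem qrq : J_QRQ := by
  intro hK7 E _ _ _ ι
  have : IsAlgClosure ℚ MZ.Om := ⟨inferInstance, inferInstance⟩
  have : IsGalois ℚ QSm := hK7 ℚ MZ.Om S438
  have : Normal ℚ E := inferInstance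
  exact QRQN.gen QSm E ι

end Pool.Agent.H429.MZQ
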