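import Pool.Agent.H429.MZQ.StmG
import Pool.Agent.H429.MZU.BC
import Pool.Agent.H429.MZU.AsmA
import Pool.Agent.H429.MZU.Sur
import Pool.Graph.R_seed8.W413.MZ.H1
import Pool.Graph.R_seed8.W178.MZ.K6

/-!
# RESQ: restriction from `G_{F,S}` to `G_ℚ,S438` (helper120)
-/

set_option autoImplicit false
set_option linter.all false

namespace Pool.Agent.H429.MZQ

open NumberField IsDedekindDomain Module IsLocalRing
open Pool.Agent.Q5.MZ (S438)

namespace RESQN

theorem alg_clo (F : IntermediateField ℚ MZ.Om) : IsAlgClosure F MZ.Om :=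
  ⟨inferInstance, Algebra.IsAlgebraic.tower_top (K := ℚ) F⟩

theorem alg_cloQ : IsAlgClosure ℚ MZ.Om := ⟨inferInstance, inferInstance⟩

theorem le_S (F : IntermediateField ℚ MZ.Om) [NumberField F] (S : Set (HeightOneSpectrum (𝓞 F)))
    (h : ∀ v : HeightOneSpectrum (𝓞 F), (438 : 𝓞 F) ∈ v.asIdeal → v ∈ S) :
    ∀ x : MZ.Om, x ∈ (MZ.FSmax S438 : IntermediateField ℚ MZ.Om) →
      x ∈ (MZ.FSmax S : IntermediateField F MZ.Om) := by
  haveI := alg_clo F
  haveI := alg_cloQ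
  refine Pool.Agent.H429.MZU.bc MZ413.stmExH1 Pool.Agent.W178.MZK.K7 ℚ MZ.Om S438 F S ?_
  intro w v hv hwv
  apply h
  have h1 : (438 : 𝓞 ℚ) ∈ v.asIdeal := hv
  rw [← hwv, Ideal.mem_comap, map_ofNat] at h1
  exact h1

end RESQN

open RESQN in
theorem resq : S_RESQ := by
  intro F _ S hS
  haveI := alg_clo F
  haveI := alg_cloQ
  have hle := le_S F S hS
  haveI hg1 : IsGalois ℚ QSm := Pool.Agent.W178.MZK.K7 ℚ MZ.Om S438
  haveI hg2 : IsGalois F (MZ.FSmax S : IntermediateField F MZ.Om) :=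
    Pool.Agent.W178.MZK.K7 F MZ.Om S
  haveI hfd : FiniteDimensional ℚ F := inferInstance
  let i : QSm →+* (MZ.FSmax S : IntermediateField F MZ.Om) :=
    { toFun := fun x => ⟨x.1, hle x.1 x.2⟩
      map_one' := rfl
      map_mul' := fun _ _ => rfl
      map_zero' := rfl
      map_add' := fun _ _ => rfl }
  letI : Algebra QSm (MZ.FSmax S : IntermediateField F MZ.Om) := i.toAlgebra
  haveI t1 : IsScalarTower ℚ QSm (MZ.FSmax S : IntermediateField F MZ.Om) :=
    IsScalarTower.of_algebraMap_eq (fun q => by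
      rw [eq_ratCast, eq_ratCast, map_ratCast])
  haveI t2 : IsScalarTower ℚ F (MZ.FSmax S : IntermediateField F MZ.Om) :=
    IsScalarTower.of_algebraMap_eq (fun q => by
      rw [eq_ratCast, eq_ratCast, map_ratCast])
  refine ⟨Pool.Agent.H429.MZU.resU ℚ QSm F (MZ.FSmax S : IntermediateField F MZ.Om),
    Pool.Agent.H429.MZU.continuous_resU ℚ QSm F _, ?_, ?_⟩
  · have h1 := Pool.Agent.H429.MZU.isOpen_range_resU ℚ QSm F
      (MZ.FSmax S : IntermediateField F MZ.Om)
    rw [MonoidHom.coe_range] at h1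
    exact h1
  · intro K _ _ _ κ hκ s
    let c : K →ₐ[ℚ] MZ.Om := (IntermediateField.val _).comp κ
    have hc : ∀ x : K, c x = ((κ x : QSm) : MZ.Om) := fun _ => rfl
    obtain ⟨L, hL⟩ : ∃ L : IntermediateField ℚ MZ.Om, L = c.fieldRange := ⟨_, rfl⟩
    have hLm : ∀ y : MZ.Om, y ∈ L ↔ ∃ x : K, c x = y := by
      intro y
      rw [hL, AlgHom.mem_fieldRange]
    let e : K ≃ₐ[ℚ] L := (AlgEquiv.ofInjectiveField c).trans
      (IntermediateField.equivOfEq hL.symm)
    have he : ∀ x : K, ((e x : L) : MZ.Om) = c x := fun _ => rfl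
    haveI : FiniteDimensional ℚ L := LinearEquiv.finiteDimensional e.toLinearEquiv
    have hG : @IsGalois ℚ _ L _ L.algebra' := IsGalois.of_algEquiv e
    have hFL : F ⊓ L = ⊥ := by
      rw [eq_bot_iff]
      rintro y ⟨hy1, hy2⟩
      obtain ⟨x, hx⟩ := (hLm y).1 hy2
      obtain ⟨q, hq⟩ := hκ x (by rw [← hc, hx]; exact hy1)
      rw [IntermediateField.mem_bot]
      refine ⟨q, ?_⟩
      rw [← hx, hq, AlgHom.commutes]
    have hLK : ∀ x ∈ L, x ∈ (MZ.FSmax S : IntermediateField F MZ.Om) := by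
      intro y hy
      obtain ⟨x, hx⟩ := (hLm y).1 hy
      rw [← hx]
      exact hle _ (κ x).2
    obtain ⟨γ, hγ⟩ := @Pool.Agent.H429.MZU.sur_gen ℚ MZ.Om _ _ _ L F
      (MZ.FSmax S : IntermediateField F MZ.Om) _ hG _ hFL hLK ((e.symm.trans s).trans e)
    refine ⟨γ, fun x => ?_⟩
    apply Subtype.ext
    have h1 := Pool.Agent.H429.MZU.resU_apply (F₀ := ℚ) (E := QSm) γ (κ x)
    have h2 : ((Pool.Agent.H429.MZU.resU ℚ QSm F (MZ.FSmax S : IntermediateField F MZ.Om) γ
        (κ x) : QSm) : MZ.Om) = ((γ (i (κ x)) : (MZ.FSmax S : IntermediateField F MZ.Om)) :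
          MZ.Om) := congrArg Subtype.val h1
    have hxL : c x ∈ L := (hLm _).2 ⟨x, rfl⟩
    have h3 := hγ (c x) hxL
    have h4 : (⟨c x, hxL⟩ : L) = e x := Subtype.ext (he x).symm
    have h5 : (((e.symm.trans s).trans e) ⟨c x, hxL⟩ : L) = e (s x) := by
      rw [h4]
      show e (s (e.symm (e x))) = e (s x)
      rw [AlgEquiv.symm_apply_apply]
    exact (h3.trans ((congrArg Subtype.val h5).trans (he (s x)))).symm.trans h2.symm

end Pool.Agent.H429.MZQ
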