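import Pool.Agent.H429.MZQ.StmE

/-!
# Project MZQ, job RGQ: the dimension is at least five (helper376, for helper429)
-/

set_option autoImplicit false
set_option linter.unusedSectionVars false

namespace Pool.Agent.H429.MZQ

open IsLocalRing
open Pool.Agent.Q5.MZ (MinGen idn LP HL dfst)

namespace RGQN

section loc

variable {A : Type} [CommRing A] [IsLocalRing A] [Algebra (ZMod 2) A] {h : ℕ} {e : Fin h → A}

theorem mem_idn_iff (F : MvPolynomial (Fin h) (ZMod 2)) :
    F ∈ idn h ↔ MvPolynomial.constantCoeff F = 0 := RingHom.mem_ker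

theorem sub_mem (he : ∀ i, e i ∈ maximalIdeal A) (F : MvPolynomial (Fin h) (ZMod 2)) :
    MvPolynomial.aeval e F - algebraMap (ZMod 2) A (MvPolynomial.constantCoeff F) ∈
      maximalIdeal A := by
  induction F using MvPolynomial.induction_on with
  | C a =>
    rw [MvPolynomial.aeval_C, MvPolynomial.constantCoeff_C, sub_self]
    exact Ideal.zero_mem _
  | add p q hp hq =>
    rw [map_add, map_add, map_add, add_sub_add_comm]
    exact Ideal.add_mem _ hp hq
  | mul_X p i hp =>
    rw [map_mul, map_mul, MvPolynomial.aeval_X, MvPolynomial.constantCoeff_X, mul_zero, map_zero,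
      sub_zero]
    exact Ideal.mul_mem_left _ _ (he i)

theorem idn_mem (he : ∀ i, e i ∈ maximalIdeal A) {F : MvPolynomial (Fin h) (ZMod 2)}
    (hF : F ∈ idn h) : MvPolynomial.aeval e F ∈ maximalIdeal A := by
  have h1 := sub_mem he F
  rw [(mem_idn_iff F).1 hF, map_zero, sub_zero] at h1
  exact h1

theorem mem_idn (he : ∀ i, e i ∈ maximalIdeal A) {F : MvPolynomial (Fin h) (ZMod 2)}
    (hF : MvPolynomial.aeval e F ∈ maximalIdeal A) : F ∈ idn h := by
  have h1 := sub_mem he F
  have h2 : algebraMap (ZMod 2) A (MvPolynomial.constantCoeff F) ∈ maximalIdeal A := by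
    have h3 := Ideal.sub_mem _ hF h1
    rwa [sub_sub_cancel] at h3
  by_contra hne
  rw [mem_idn_iff] at hne
  exact (mem_maximalIdeal _).1 h2 ((IsUnit.mk0 _ hne).map (algebraMap (ZMod 2) A))

theorem surj_pow (hm : MinGen A e) (N : ℕ) : ∀ a ∈ (maximalIdeal A) ^ N,
    ∃ F : MvPolynomial (Fin h) (ZMod 2),
      a - MvPolynomial.aeval e F ∈ (maximalIdeal A) ^ (N + 1) := by
  induction N with
  | zero =>
    intro a _
    rw [zero_add, pow_one]
    rcases hm.res a with h1 | h1
    · exact ⟨0, by rwa [map_zero, sub_zero]⟩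
    · exact ⟨1, by rwa [map_one]⟩
  | succ N ih =>
    intro a ha
    rw [pow_succ] at ha
    refine Submodule.mul_induction_on ha ?_ ?_
    · intro x hx y hy
      obtain ⟨F, hF⟩ := ih x hx
      obtain ⟨c, hc⟩ := hm.gen y hy
      refine ⟨F * ∑ i, MvPolynomial.C (c i) * MvPolynomial.X i, ?_⟩
      have h1 : MvPolynomial.aeval e (∑ i, MvPolynomial.C (c i) * MvPolynomial.X i) =
          ∑ i, algebraMap (ZMod 2) A (c i) * e i := by
        rw [map_sum]
        refine Finset.sum_congr rfl fun i _ => ?_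
        rw [map_mul, MvPolynomial.aeval_C, MvPolynomial.aeval_X]
      rw [map_mul, h1]
      generalize ∑ i, algebraMap (ZMod 2) A (c i) * e i = S at hc
      have h2 : x * y - MvPolynomial.aeval e F * S =
          (x - MvPolynomial.aeval e F) * y + MvPolynomial.aeval e F * (y - S) := by ring
      rw [h2]
      have h3 : MvPolynomial.aeval e F ∈ (maximalIdeal A) ^ N := by
        have h4 := Ideal.sub_mem _ hx (Ideal.pow_le_pow_right (Nat.le_succ N) hF)
        rwa [sub_sub_cancel] at h4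
      refine Ideal.add_mem _ ?_ ?_
      · rw [pow_succ _ (N + 1)]
        exact Ideal.mul_mem_mul hF hy
      · have h4 := Ideal.mul_mem_mul h3 hc
        rwa [← pow_add] at h4
    · rintro x y ⟨F, hF⟩ ⟨G, hG⟩
      refine ⟨F + G, ?_⟩
      rw [map_add, add_sub_add_comm]
      exact Ideal.add_mem _ hF hG

theorem surj (hm : MinGen A e) (N : ℕ) (a : A) : ∃ F : MvPolynomial (Fin h) (ZMod 2),
    a - MvPolynomial.aeval e F ∈ (maximalIdeal A) ^ N := by
  induction N with
  | zero =>
    refine ⟨0, ?_⟩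
    rw [pow_zero, Ideal.one_eq_top]
    trivial
  | succ N ih =>
    obtain ⟨F, hF⟩ := ih
    obtain ⟨G, hG⟩ := surj_pow hm N _ hF
    refine ⟨F + G, ?_⟩
    rw [map_add, ← sub_sub]
    exact hG

theorem key (hm : MinGen A e) (s : Finset A) (k : ℕ)
    (hk : (maximalIdeal A) ^ k ≤ Ideal.span (s : Set A))
    (t' : A → MvPolynomial (Fin h) (ZMod 2)) (I₁ : Ideal (MvPolynomial (Fin h) (ZMod 2)))
    (ht' : ∀ t ∈ s, t - MvPolynomial.aeval e (t' t) ∈ (maximalIdeal A) ^ (k + 1))
    (hF : ∀ F : MvPolynomial (Fin h) (ZMod 2), MvPolynomial.aeval e F ∈ (maximalIdeal A) ^ (k + 1) →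
      F ∈ I₁ ⊔ (idn h) ^ (k + 1)) :
    (idn h) ^ k ≤ (Ideal.span (t' '' s) ⊔ I₁) ⊔ (idn h) ^ (k + 1) := by
  intro F hFk
  have h1 : MvPolynomial.aeval e F ∈ (maximalIdeal A) ^ k := by
    have h2 : idn h ≤ (maximalIdeal A).comap (MvPolynomial.aeval e :
        MvPolynomial (Fin h) (ZMod 2) →ₐ[ZMod 2] A) := fun G hG => idn_mem hm.mem hG
    exact Ideal.le_comap_pow _ k (Ideal.pow_right_mono h2 k hFk)
  obtain ⟨f, -, hf⟩ := Submodule.mem_span_finset.1 (hk h1)
  choose b' hb' using fun t : A => surj hm (k + 1) (f t)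
  have h3 : F - ∑ t ∈ s, t' t * b' t ∈ I₁ ⊔ (idn h) ^ (k + 1) := by
    apply hF
    rw [map_sub, map_sum, ← hf, ← Finset.sum_sub_distrib]
    refine Ideal.sum_mem _ fun t ht => ?_
    have h4 : f t • t - MvPolynomial.aeval e (t' t * b' t) =
        f t * (t - MvPolynomial.aeval e (t' t)) +
          MvPolynomial.aeval e (t' t) * (f t - MvPolynomial.aeval e (b' t)) := by
      rw [map_mul, smul_eq_mul]
      ring
    rw [h4]
    exact Ideal.add_mem _ (Ideal.mul_mem_left _ _ (ht' t ht)) (Ideal.mul_mem_left _ _ (hb' t))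
  have h5 : ∑ t ∈ s, t' t * b' t ∈ Ideal.span (t' '' s) := by
    refine Ideal.sum_mem _ fun t ht => Ideal.mul_mem_right _ _ (Ideal.subset_span ?_)
    exact ⟨t, ht, rfl⟩
  have h6 : F = ∑ t ∈ s, t' t * b' t + (F - ∑ t ∈ s, t' t * b' t) := by ring
  rw [h6]
  refine Ideal.add_mem _ ?_ ?_
  · exact (le_sup_left.trans le_sup_left : Ideal.span (t' '' s) ≤ _) h5
  · exact (sup_le_sup_right le_sup_right _ : I₁ ⊔ (idn h) ^ (k + 1) ≤ _) h3

end loc

theorem bot_of {Q : Type} [CommRing Q] [IsDomain Q] [IsNoetherianRing Q] (J : Ideal Q)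
    (hJ : J ≠ ⊤) (k : ℕ) (hk : J ^ k ≤ J ^ (k + 1)) : J = ⊥ := by
  have h1 : ∀ j : ℕ, J ^ k ≤ J ^ (k + j) := by
    intro j
    induction j with
    | zero => exact le_rfl
    | succ j ih =>
      calc J ^ k ≤ J ^ (k + 1) := hk
        _ = J ^ k * J := pow_succ _ _
        _ ≤ J ^ (k + j) * J := Ideal.mul_mono_left ih
        _ = J ^ (k + (j + 1)) := by rw [← pow_succ]; rfl
  have h2 : IsIdempotentElem (J ^ k) := by
    change J ^ k * J ^ k = J ^ k
    refine le_antisymm Ideal.mul_le_left ?_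
    rw [← pow_add]
    exact h1 k
  rcases (Ideal.isIdempotentElem_iff_eq_bot_or_top _ (IsNoetherian.noetherian _)).1 h2 with h3 | h3
  · exact eq_zero_of_pow_eq_zero (h3 : J ^ k = 0)
  · exfalso
    apply hJ
    rw [h3] at hk
    exact top_le_iff.1 (hk.trans (Ideal.pow_le_self (Nat.succ_ne_zero k)))

/-- the ideal of all the variables -/
noncomputable def nn (h : ℕ) : Ideal (MvPolynomial ((Fin 3 × Fin 3) ⊕ Fin h) (ZMod 2)) :=
  RingHom.ker (MvPolynomial.constantCoeff (σ := (Fin 3 × Fin 3) ⊕ Fin h) (R := ZMod 2))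

/-- the inclusion of the polynomials in the further variables -/
noncomputable def inc (h : ℕ) : MvPolynomial (Fin h) (ZMod 2) →+*
    MvPolynomial ((Fin 3 × Fin 3) ⊕ Fin h) (ZMod 2) :=
  (MvPolynomial.rename Sum.inr : MvPolynomial (Fin h) (ZMod 2) →ₐ[ZMod 2]
    MvPolynomial ((Fin 3 × Fin 3) ⊕ Fin h) (ZMod 2)).toRingHom

theorem inc_X {h : ℕ} (i : Fin h) : inc h (MvPolynomial.X i) = MvPolynomial.X (Sum.inr i) :=
  MvPolynomial.rename_X _ _

theorem inc_idn {h : ℕ} {F : MvPolynomial (Fin h) (ZMod 2)} (hF : F ∈ idn h) :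
    inc h F ∈ nn h := by
  rw [mem_idn_iff] at hF
  rw [nn, RingHom.mem_ker]
  change MvPolynomial.constantCoeff (MvPolynomial.rename Sum.inr F) = 0
  rw [MvPolynomial.constantCoeff_rename, hF]

theorem step {Q : Type} [CommRing Q] [IsDomain Q] [IsNoetherianRing Q] {h : ℕ} (k : ℕ)
    (π : MvPolynomial ((Fin 3 × Fin 3) ⊕ Fin h) (ZMod 2) →+* Q)
    (M' : Matrix (Fin 3) (Fin 3) (MvPolynomial (Fin h) (ZMod 2))) (hM' : ∀ i j, M' i j ∈ idn h)
    (tt : Set (MvPolynomial (Fin h) (ZMod 2)))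
    (hZ : ∀ a b, π ((Zm h * Zm h) a b) = 0)
    (hM : ∀ i j, π (MvPolynomial.X (Sum.inl (i, j))) = π (inc h (M' i j)))
    (htt : ∀ t ∈ tt, π (inc h t) = 0)
    (hk : (idn h) ^ k ≤ (Ideal.span tt ⊔
      Ideal.span (Set.range fun q : Fin 3 × Fin 3 => (M' * M') q.1 q.2)) ⊔ (idn h) ^ (k + 1))
    (hJ : (nn h).map π ≠ ⊤) : ∀ x ∈ nn h, π x = 0 := by
  have e1 : (nn h).map π = (idn h).map (π.comp (inc h)) := by
    apply le_antisymm
    · rw [Ideal.map_le_iff_le_comap]
      intro F hF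
      rw [Ideal.mem_comap]
      have h1 : π F - π (MvPolynomial.C (MvPolynomial.constantCoeff F)) ∈
          (idn h).map (π.comp (inc h)) := by
        clear hF
        induction F using MvPolynomial.induction_on with
        | C a =>
          rw [MvPolynomial.constantCoeff_C, sub_self]
          exact Ideal.zero_mem _
        | add p q hp hq =>
          rw [map_add, map_add, map_add, map_add, add_sub_add_comm]
          exact Ideal.add_mem _ hp hq
        | mul_X p i hp =>
          rw [map_mul, map_mul, MvPolynomial.constantCoeff_X, mul_zero, map_zero, map_zero,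
            sub_zero]
          refine Ideal.mul_mem_left _ _ ?_
          rcases i with ⟨i, j⟩ | i
          · rw [hM]
            exact Ideal.mem_map_of_mem (π.comp (inc h)) (hM' i j)
          · rw [← inc_X]
            refine Ideal.mem_map_of_mem (π.comp (inc h)) ?_
            rw [mem_idn_iff, MvPolynomial.constantCoeff_X]
      rw [nn, RingHom.mem_ker] at hF
      rw [hF, map_zero, map_zero, sub_zero] at h1
      exact h1
    · rw [← Ideal.map_map]
      refine Ideal.map_mono ?_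
      rw [Ideal.map_le_iff_le_comap]
      exact fun F hF => inc_idn hF
  have e2 : ((nn h).map π) ^ k ≤ ((nn h).map π) ^ (k + 1) := by
    rw [e1, ← Ideal.map_pow, ← Ideal.map_pow]
    refine (Ideal.map_mono hk).trans ?_
    rw [Ideal.map_sup]
    refine sup_le ?_ le_rfl
    rw [Ideal.map_le_iff_le_comap, sup_le_iff]
    constructor
    · rw [Ideal.span_le]
      intro t ht
      change π (inc h t) ∈ Ideal.map (π.comp (inc h)) (idn h ^ (k + 1))
      rw [htt t ht]
      exact Ideal.zero_mem _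
    · rw [Ideal.span_le]
      rintro _ ⟨⟨i, j⟩, rfl⟩
      change π (inc h ((M' * M') i j)) ∈ Ideal.map (π.comp (inc h)) (idn h ^ (k + 1))
      have h1 : π (inc h ((M' * M') i j)) = π ((Zm h * Zm h) i j) := by
        rw [Matrix.mul_apply, Matrix.mul_apply, map_sum, map_sum, map_sum]
        refine Finset.sum_congr rfl fun l _ => ?_
        rw [map_mul, map_mul, map_mul, ← hM, ← hM]
        rfl
      rw [h1, hZ]
      exact Ideal.zero_mem _
  have e3 := bot_of _ hJ k e2
  intro x hx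
  have h1 := Ideal.mem_map_of_mem π hx
  rw [e3] at h1
  exact h1

theorem pow_le {A : Type} [CommRing A] [IsLocalRing A] [IsNoetherianRing A]
    (hA : ¬ 5 ≤ ringKrullDim A) : ∃ (s : Finset A) (k : ℕ), s.card ≤ 4 ∧
      (∀ t ∈ s, t ∈ maximalIdeal A) ∧ 1 ≤ k ∧ (maximalIdeal A) ^ k ≤ Ideal.span (s : Set A) := by
  obtain ⟨s, h1, h2⟩ := Ideal.exists_finset_card_eq_height_of_isNoetherianRing (maximalIdeal A)
  have h3 : s.card ≤ 4 := by
    by_contra h4
    apply hA
    rw [← IsLocalRing.maximalIdeal_height_eq_ringKrullDim, ← h2]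
    have h5 : 5 ≤ s.card := by omega
    have h6 : ((5 : ℕ) : WithBot ℕ∞) ≤ ((s.card : ℕ∞) : WithBot ℕ∞) :=
      WithBot.coe_le_coe.2 (by exact_mod_cast h5)
    exact h6
  have h4 : maximalIdeal A ≤ (Ideal.span (s : Set A)).radical := by
    rw [Ideal.radical_eq_sInf]
    refine le_sInf fun p hp => ?_
    exact h1.2 ⟨hp.2, hp.1⟩ (IsLocalRing.le_maximalIdeal hp.2.ne_top)
  obtain ⟨k, hk⟩ := Ideal.exists_pow_le_of_le_radical_of_fg h4 (IsNoetherian.noetherian _)
  refine ⟨s, k + 1, h3, ?_, by omega, (Ideal.pow_le_pow_right (Nat.le_succ k)).trans hk⟩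
  intro t ht
  exact h1.1.2 (Ideal.subset_span ht)

theorem height_ge (h : ℕ) (P : Fin (h + 5) → Ideal (MvPolynomial ((Fin 3 × Fin 3) ⊕ Fin h) (ZMod 2)))
    (hP : StrictMono P) (hp : ∀ i, (P i).IsPrime)
    (I : Ideal (MvPolynomial ((Fin 3 × Fin 3) ⊕ Fin h) (ZMod 2))) (hI : ∀ i, I ≤ P i) :
    ((h + 4 : ℕ) : ℕ∞) ≤ ((P (Fin.last _)).map (Ideal.Quotient.mk I)).height := by
  have hpr : ∀ i, ((P i).map (Ideal.Quotient.mk I)).IsPrime := by
    intro i
    have := hp i
    refine Ideal.map_isPrime_of_surjective Ideal.Quotient.mk_surjective ?_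
    rw [Ideal.mk_ker]
    exact hI i
  let S : LTSeries (PrimeSpectrum (MvPolynomial ((Fin 3 × Fin 3) ⊕ Fin h) (ZMod 2) ⧸ I)) :=
    LTSeries.mk (h + 4) (fun i => ⟨(P i).map (Ideal.Quotient.mk I), hpr i⟩) (by
      intro i j hij
      rw [← PrimeSpectrum.asIdeal_lt_asIdeal]
      change (P i).map (Ideal.Quotient.mk I) < (P j).map (Ideal.Quotient.mk I)
      refine lt_of_le_not_ge (Ideal.map_mono (hP hij).le) fun hle => ?_
      have h1 := Ideal.comap_mono (f := Ideal.Quotient.mk I) hle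
      rw [Ideal.comap_map_mk (hI i), Ideal.comap_map_mk (hI j)] at h1
      exact (hP hij).not_ge h1)
  have h1 := Order.length_le_height_last (p := S)
  rw [← PrimeSpectrum.height_eq_orderHeight] at h1
  exact h1

end RGQN

open RGQN

theorem rgq : J_RGQ := by
  intro hCH A _ _ _ _ h e hm h10 hyp
  classical
  by_contra hA
  obtain ⟨s, k, hs4, hsm, hk1, hk⟩ := pow_le hA
  obtain ⟨M', hM', hF⟩ := hyp (k + 1) (by omega)
  choose t' ht' using fun t : A => surj hm (k + 1) t
  have ht'n : ∀ t ∈ s, t' t ∈ idn h := by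
    intro t ht
    apply mem_idn hm.mem
    have h1 := Ideal.pow_le_self (Nat.succ_ne_zero k) (ht' t)
    have h2 := Ideal.sub_mem _ (hsm t ht) h1
    rwa [sub_sub_cancel] at h2
  have hkey := key hm s k hk t' _ (fun t _ => ht' t) hF
  obtain ⟨P, hP1, hP2, hP3, hP4⟩ := hCH h
  set I : Ideal (MvPolynomial ((Fin 3 × Fin 3) ⊕ Fin h) (ZMod 2)) :=
    Ideal.span (Set.range fun q : Fin 3 × Fin 3 => (Zm h * Zm h) q.1 q.2) with hIdef
  have hI : ∀ i, I ≤ P i := by
    intro i
    rw [hIdef, Ideal.span_le]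
    rintro _ ⟨q, rfl⟩
    exact hP3 i q.1 q.2
  have hht := height_ge h P hP1 hP2 I hI
  rw [hP4] at hht
  have hIn : I ≤ nn h := by
    have := hI (Fin.last _)
    rw [hP4] at this
    exact this
  have hnp : (nn h).IsPrime := by
    have := hP2 (Fin.last _)
    rw [hP4] at this
    exact this
  have hNp : ((nn h).map (Ideal.Quotient.mk I)).IsPrime := by
    refine Ideal.map_isPrime_of_surjective Ideal.Quotient.mk_surjective ?_
    rw [Ideal.mk_ker]
    exact hIn
  -- the thirteen elements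
  let B : Finset (MvPolynomial ((Fin 3 × Fin 3) ⊕ Fin h) (ZMod 2)) :=
    (Finset.univ.image fun q : Fin 3 × Fin 3 =>
      MvPolynomial.X (Sum.inl q) - inc h (M' q.1 q.2)) ∪ s.image fun t => inc h (t' t)
  have hB1 : B.card ≤ 13 := by
    refine (Finset.card_union_le _ _).trans ?_
    have h1 : (Finset.univ.image fun q : Fin 3 × Fin 3 =>
        (MvPolynomial.X (Sum.inl q) - inc h (M' q.1 q.2) :
          MvPolynomial ((Fin 3 × Fin 3) ⊕ Fin h) (ZMod 2))).card ≤ 9 :=
      Finset.card_image_le.trans (by simp)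
    have h2 : (s.image fun t => inc h (t' t)).card ≤ 4 := Finset.card_image_le.trans hs4
    omega
  have hB2 : ∀ q : Fin 3 × Fin 3, (MvPolynomial.X (Sum.inl q) - inc h (M' q.1 q.2) :
      MvPolynomial ((Fin 3 × Fin 3) ⊕ Fin h) (ZMod 2)) ∈ B := fun q =>
    Finset.mem_union_left _ (Finset.mem_image.2 ⟨q, Finset.mem_univ _, rfl⟩)
  have hB3 : ∀ t ∈ s, inc h (t' t) ∈ B := fun t ht =>
    Finset.mem_union_right _ (Finset.mem_image.2 ⟨t, ht, rfl⟩)
  have hB4 : ∀ x ∈ B, x ∈ nn h := by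
    intro x hx
    rcases Finset.mem_union.1 hx with hx | hx
    · obtain ⟨q, -, rfl⟩ := Finset.mem_image.1 hx
      refine Ideal.sub_mem _ ?_ (inc_idn (hM' _ _))
      rw [nn, RingHom.mem_ker, MvPolynomial.constantCoeff_X]
    · obtain ⟨t, ht, rfl⟩ := Finset.mem_image.1 hx
      exact inc_idn (ht'n t ht)
  have hmin : (nn h).map (Ideal.Quotient.mk I) ∈
      (Ideal.span ((B.image (Ideal.Quotient.mk I) : Finset _) : Set (_ ⧸ I))).minimalPrimes := by
    refine ⟨⟨hNp, ?_⟩, ?_⟩
    · rw [Ideal.span_le]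
      intro x hx
      rw [Finset.coe_image] at hx
      obtain ⟨y, hy, rfl⟩ := hx
      exact Ideal.mem_map_of_mem _ (hB4 y hy)
    · rintro q ⟨hq, hBq⟩ hqN
      rw [Ideal.map_le_iff_le_comap]
      intro x hx
      rw [Ideal.mem_comap]
      have hmq : ∀ y : MvPolynomial ((Fin 3 × Fin 3) ⊕ Fin h) (ZMod 2),
          Ideal.Quotient.mk I y ∈ q ↔
            ((Ideal.Quotient.mk q).comp (Ideal.Quotient.mk I)) y = 0 := by
        intro y
        rw [RingHom.comp_apply, Ideal.Quotient.eq_zero_iff_mem]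
      have hBy : ∀ y ∈ B, ((Ideal.Quotient.mk q).comp (Ideal.Quotient.mk I)) y = 0 := by
        intro y hy
        rw [← hmq]
        exact hBq (Ideal.subset_span (Finset.mem_coe.2 (Finset.mem_image_of_mem _ hy)))
      rw [hmq]
      refine step (Q := (MvPolynomial ((Fin 3 × Fin 3) ⊕ Fin h) (ZMod 2) ⧸ I) ⧸ q) k ((Ideal.Quotient.mk q).comp (Ideal.Quotient.mk I)) M' hM' (t' '' s) ?_ ?_ ?_
        hkey ?_ x hx
      · intro a b
        rw [RingHom.comp_apply]
        have h1 : Ideal.Quotient.mk I ((Zm h * Zm h) a b) = 0 := by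
          rw [Ideal.Quotient.eq_zero_iff_mem]
          exact Ideal.subset_span ⟨(a, b), rfl⟩
        rw [h1, map_zero]
      · intro i j
        have h1 := hBy _ (hB2 (i, j))
        rw [map_sub, sub_eq_zero] at h1
        exact h1
      · rintro _ ⟨t, ht, rfl⟩
        exact hBy _ (hB3 t ht)
      · rw [← Ideal.map_map]
        have h1 : (((nn h).map (Ideal.Quotient.mk I)).map (Ideal.Quotient.mk q)).IsPrime := by
          refine Ideal.map_isPrime_of_surjective Ideal.Quotient.mk_surjective ?_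
          rw [Ideal.mk_ker]
          exact hqN
        exact h1.ne_top
  have hle := Ideal.height_le_card_of_mem_minimalPrimes_span_finset hmin
  have h1 : ((h + 4 : ℕ) : ℕ∞) ≤ ((B.image (Ideal.Quotient.mk I)).card : ℕ∞) := hht.trans hle
  have h2 : h + 4 ≤ (B.image (Ideal.Quotient.mk I)).card := by exact_mod_cast h1
  have h3 : (B.image (Ideal.Quotient.mk I)).card ≤ 13 := Finset.card_image_le.trans hB1
  omega

end Pool.Agent.H429.MZQ
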