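import Mathlib
import Pool.Graph.R_pool_sql_team_seeded_3997aac3.Q5.MZ.Stm

/-!
# Positivity at the ramified real places (`S_RP`)
-/

set_option autoImplicit false

namespace Pool.Agent.H429.MZQ

open NumberField Module Pool.Agent.Q5.MZ

theorem RPN.conj {k L : Type} [Field k] [NumberField k] [Field L] [NumberField L] [Algebra k L]
    [IsGalois k L] (φ : k →+* ℝ) : ∃ (φ' : L →+* ℂ) (τ : L ≃ₐ[k] L),
      (∀ a : k, φ' (algebraMap k L a) = (φ a : ℂ)) ∧
      ∀ x, φ' (τ x) = (starRingEnd ℂ) (φ' x) := by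
  let φC : k →+* ℂ := Complex.ofRealHom.comp φ
  let _ : Algebra k ℂ := φC.toAlgebra
  let f : L →ₐ[k] ℂ := IsAlgClosed.lift
  have hf : ∀ a : k, f (algebraMap k L a) = (φ a : ℂ) := fun a => f.commutes a
  obtain ⟨σ, hσ⟩ := ComplexEmbedding.exists_comp_symm_eq_of_comp_eq (k := k) (K := L)
    (f : L →+* ℂ) (ComplexEmbedding.conjugate (f : L →+* ℂ)) (by
      ext a
      show f (algebraMap k L a) = (starRingEnd ℂ) (f (algebraMap k L a))
      rw [hf, Complex.conj_ofReal])
  refine ⟨f, σ.symm, hf, fun x => ?_⟩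
  exact RingHom.congr_fun hσ x

theorem rp : S_RP := by
  intro k E L _ _ _ _ _ _ _ _ _ _ _ c x b hc hreal hrel φ hφ
  classical
  obtain ⟨f, τ, hf, hτ⟩ := RPN.conj (L := L) φ
  have hττ : τ * τ = 1 := by
    apply AlgEquiv.ext
    intro y
    apply f.injective
    show f (τ (τ y)) = f y
    rw [hτ, hτ, Complex.conj_conj]
  have hnt : ¬ TrivOn E τ := by
    intro h
    apply hφ
    have hr : ComplexEmbedding.IsReal (f.comp (algebraMap E L)) := by
      rw [ComplexEmbedding.isReal_iff]
      ext e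
      show (starRingEnd ℂ) (f (algebraMap E L e)) = f (algebraMap E L e)
      rw [← hτ, h e]
    refine ⟨hr.embedding, ?_⟩
    ext a
    have h1 : ((hr.embedding (algebraMap k E a) : ℝ) : ℂ) = f (algebraMap E L (algebraMap k E a)) :=
      ComplexEmbedding.IsReal.coe_embedding_apply hr _
    rw [← IsScalarTower.algebraMap_apply, hf] at h1
    exact Complex.ofReal_injective h1
  have hcc : c τ τ = 1 := hreal τ ⟨f, hτ⟩
  have hone : (b 1 : L) = 1 := by
    have h1 := hrel 1 1
    have ht : TrivOn E (1 : L ≃ₐ[k] L) := fun e => rfl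
    rw [if_pos (Or.inl ht), hc.one, mul_one, Units.val_one, Int.cast_one, mul_one] at h1
    have h2 : (b 1 : L) * ((1 : L ≃ₐ[k] L) (b 1 : L)) = (b 1 : L) * 1 := by
      rw [mul_one] at h1 ⊢
      exact h1
    exact mul_left_cancel₀ (b 1).ne_zero h2
  have h1 := hrel τ τ
  rw [if_neg (by rintro (h | h) <;> exact hnt h), hcc, hττ, hone, Units.val_one, Int.cast_one,
    one_mul, one_mul] at h1
  have h2 := congrArg f h1
  rw [map_mul, hτ, hf, Complex.mul_conj] at h2
  have h3 : Complex.normSq (f (b τ : L)) = φ (x : k) := Complex.ofReal_injective h2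
  rw [← h3]
  apply Complex.normSq_pos.2
  intro h4
  exact (b τ).ne_zero ((map_eq_zero f).1 h4)

end Pool.Agent.H429.MZQ
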