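import Pool.Agent.H429.MZQ.StmF

/-!
# Project MZQ, job SFQ: the set `S438` is finite and contains the prime `2`
-/

set_option autoImplicit false

namespace Pool.Agent.H429.MZQ

open NumberField IsDedekindDomain Module
open Pool.Agent.Q5.MZ (S438)

theorem sfq : S_SFQ := by
  constructor
  · have h438 : (438 : 𝓞 ℚ) ≠ 0 := by
      have h0 : (438 : 𝓞 ℚ) = ((438 : ℕ) : 𝓞 ℚ) := by norm_num
      rw [h0]
      exact Nat.cast_ne_zero.mpr (by norm_num)
    have h1 : Ideal.span {(438 : 𝓞 ℚ)} ≠ 0 := by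
      rw [Ne, Ideal.zero_eq_bot, Ideal.span_singleton_eq_bot]
      exact h438
    refine (Ideal.finite_factors h1).subset ?_
    intro v hv
    show v.asIdeal ∣ Ideal.span {(438 : 𝓞 ℚ)}
    rw [Ideal.dvd_span_singleton]
    exact hv
  · intro v hv
    show (438 : 𝓞 ℚ) ∈ v.asIdeal
    have h1 : (438 : 𝓞 ℚ) = 219 * ((2 : ℕ) : 𝓞 ℚ) := by norm_num
    rw [h1]
    exact v.asIdeal.mul_mem_left _ hv

end Pool.Agent.H429.MZQ
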