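import Pool.Agent.H429.MZQ.StmF

/-!
# Project MZQ (helper429), job TNQ (helper42): many lifts to the dual numbers, finite level

Part 1: the matrices (`decide +kernel`), `inj_sum`.  Part 2: the Kummer pairing `pr`, with values in `ZMod 2`.
Part 3: the lifts `exists_lift` and their injectivity `inj_lift`; `tnq : J_TNQ`.
-/

set_option autoImplicit false
set_option linter.unusedSectionVars false

namespace Pool.Agent.H429.MZQ.TNQN

section Part1

open Matrix

abbrev M3 : Type := Matrix (Fin 3) (Fin 3) (ZMod 2)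

def mA : M3 := !![0, 0, 1; 1, 0, 1; 0, 1, 0]
def mB : M3 := !![1, 0, 0; 0, 0, 1; 0, 1, 1]
def X0 : M3 := !![0, 0, 0; 0, 1, 0; 0, 0, 1]
def Y0 : M3 := !![1, 1, 0; 0, 0, 1; 1, 0, 0]

/-- the conjugates of `X0` under the powers of `A` -/
def MA : Fin 7 → M3 := ![!![0,0,0;0,1,0;0,0,1], !![1,0,0;1,0,0;0,0,1], !![1,0,0;0,1,0;1,1,0],
  !![1,1,1;0,0,1;0,0,1], !![1,0,0;1,1,1;1,0,0], !![1,1,0;0,0,0;0,1,1], !![1,0,1;0,1,0;0,0,0]]
def MB : Fin 3 → M3 := ![!![1,1,0;0,0,1;1,0,0], !![1,1,1;1,0,0;1,1,0], !![1,0,1;1,1,1;0,1,1]]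

theorem decA : ∀ i : Fin 7, mA ^ (i : ℕ) * X0 = MA i * mA ^ (i : ℕ) := by decide +kernel

theorem decB : ∀ j : Fin 3, mB ^ (j : ℕ) * Y0 = MB j * mB ^ (j : ℕ) := by decide +kernel

theorem decAY : mA * Y0 = Y0 * mA := by decide +kernel

theorem decBX : mB * X0 = X0 * mB := by decide +kernel

theorem decInj : ∀ p q : Fin 7 × Fin 3, mA ^ (p.1 : ℕ) * mB ^ (p.2 : ℕ) = mA ^ (q.1 : ℕ) * mB ^ (q.2 : ℕ) →
    p = q := by decide +kernel

theorem decInj' : ∀ p q : Fin 3 × Fin 7, mB ^ (p.1 : ℕ) * mA ^ (p.2 : ℕ) = mB ^ (q.1 : ℕ) * mA ^ (q.2 : ℕ) →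
    p = q := by decide +kernel


/-- the check for `decK` -/
def P (c0 c1 c2 c3 c4 c5 c6 d0 d1 d2 : ZMod 2) : Prop :=
  (∀ a b : Fin 3, (c0 * MA 0 a b + (c1 * MA 1 a b + (c2 * MA 2 a b + (c3 * MA 3 a b + (c4 * MA 4 a b +
    (c5 * MA 5 a b + c6 * MA 6 a b)))))) + (d0 * MB 0 a b + (d1 * MB 1 a b + d2 * MB 2 a b)) = 0) →
  (c1 = c0 ∧ c2 = c0 ∧ c3 = c0 ∧ c4 = c0 ∧ c5 = c0 ∧ c6 = c0) ∧ d0 = 0

instance (c0 c1 c2 c3 c4 c5 c6 d0 d1 d2 : ZMod 2) : Decidable (P c0 c1 c2 c3 c4 c5 c6 d0 d1 d2) := by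
  unfold P; infer_instance

theorem keyP : ∀ c0 c1 c2 c3 c4 c5 c6 d0 d1 d2 : ZMod 2, P c0 c1 c2 c3 c4 c5 c6 d0 d1 d2 := by decide +kernel

theorem decK : ∀ (c : Fin 7 → ZMod 2) (d : Fin 3 → ZMod 2),
    (∑ i, c i • MA i) + (∑ j, d j • MB j) = 0 → (∀ i, c i = c 0) ∧ d 0 = 0 := by
  intro c d h
  have e : ∀ a b : Fin 3, (∑ i, c i * MA i a b) + (∑ j, d j * MB j a b) = 0 := by
    intro a b
    have := congrFun (congrFun h a) b
    simpa [Matrix.add_apply, Matrix.sum_apply, Matrix.smul_apply] using this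
  have k := keyP (c 0) (c 1) (c 2) (c 3) (c 4) (c 5) (c 6) (d 0) (d 1) (d 2) (by
    intro a b
    have := e a b
    rw [Fin.sum_univ_succ, Fin.sum_univ_succ, Fin.sum_univ_succ, Fin.sum_univ_succ, Fin.sum_univ_succ,
      Fin.sum_univ_succ, Fin.sum_univ_one, Fin.sum_univ_three] at this
    rw [← add_assoc (d 0 * MB 0 a b)]
    exact this)
  refine ⟨?_, k.2⟩
  intro i
  obtain ⟨k1, k2, k3, k4, k5, k6⟩ := k.1
  fin_cases i
  · rfl
  · exact k1
  · exact k2
  · exact k3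
  · exact k4
  · exact k5
  · exact k6

/-- conjugation -/
def cj : GL (Fin 3) (ZMod 2) →* AddMonoid.End M3 where
  toFun g := { toFun := fun X => (g : M3) * X * ((g⁻¹ : GL (Fin 3) (ZMod 2)) : M3)
               map_zero' := by rw [Matrix.mul_zero, Matrix.zero_mul]
               map_add' := fun X Y => by rw [Matrix.mul_add, Matrix.add_mul] }
  map_one' := by
    ext1 X
    show ((1 : GL (Fin 3) (ZMod 2)) : M3) * X * (((1 : GL (Fin 3) (ZMod 2))⁻¹ : GL (Fin 3) (ZMod 2)) : M3) = X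
    rw [inv_one, Units.val_one, Matrix.one_mul, Matrix.mul_one]
  map_mul' g h := by
    ext1 X
    show ((g * h : GL (Fin 3) (ZMod 2)) : M3) * X * (((g * h)⁻¹ : GL (Fin 3) (ZMod 2)) : M3) =
      (g : M3) * ((h : M3) * X * ((h⁻¹ : GL (Fin 3) (ZMod 2)) : M3)) * ((g⁻¹ : GL (Fin 3) (ZMod 2)) : M3)
    rw [_root_.mul_inv_rev, Units.val_mul, Units.val_mul]
    simp only [Matrix.mul_assoc]

theorem cj_apply (g : GL (Fin 3) (ZMod 2)) (X : M3) :
    cj g X = (g : M3) * X * ((g⁻¹ : GL (Fin 3) (ZMod 2)) : M3) := rfl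

theorem cj_smul (g : GL (Fin 3) (ZMod 2)) (c : ZMod 2) (X : M3) : cj g (c • X) = c • cj g X := by
  rw [cj_apply, cj_apply, Matrix.mul_smul, Matrix.smul_mul]

theorem cj_eq {g : GL (Fin 3) (ZMod 2)} {X Z : M3} (h : (g : M3) * X = Z * (g : M3)) : cj g X = Z := by
  rw [cj_apply, h, Matrix.mul_assoc, ← Units.val_mul, mul_inv_cancel, Units.val_one, Matrix.mul_one]

theorem three (X : M3) : (3 : ℕ) • X = X := by
  ext a b
  rw [Matrix.smul_apply, nsmul_eq_mul]
  have : ((3 : ℕ) : ZMod 2) = 1 := by decide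
  rw [this, one_mul]

theorem seven (X : M3) : (7 : ℕ) • X = X := by
  ext a b
  rw [Matrix.smul_apply, nsmul_eq_mul]
  have : ((7 : ℕ) : ZMod 2) = 1 := by decide
  rw [this, one_mul]

theorem rpA {Q : Type} [Group Q] (r : Q →* GL (Fin 3) (ZMod 2)) {σ : Q} {M : M3}
    (hA : ((r σ : GL (Fin 3) (ZMod 2)) : M3) = M) (i : ℕ) : ((r (σ ^ i) : GL (Fin 3) (ZMod 2)) : M3) = M ^ i := by
  rw [map_pow, Units.val_pow_eq_pow_val, hA]

theorem rpAB {Q : Type} [Group Q] (r : Q →* GL (Fin 3) (ZMod 2)) {σ τ : Q} {M N : M3}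
    (hA : ((r σ : GL (Fin 3) (ZMod 2)) : M3) = M) (hB : ((r τ : GL (Fin 3) (ZMod 2)) : M3) = N)
    (i j : ℕ) : ((r (σ ^ i * τ ^ j) : GL (Fin 3) (ZMod 2)) : M3) = M ^ i * N ^ j := by
  rw [map_mul, map_pow, map_pow, Units.val_mul, Units.val_pow_eq_pow_val, Units.val_pow_eq_pow_val, hA, hB]

section
variable {Q : Type} [Group Q] [Fintype Q] (r : Q →* GL (Fin 3) (ZMod 2)) {σ τ : Q}
  (hA : ((r σ : GL (Fin 3) (ZMod 2)) : M3) = mA) (hB : ((r τ : GL (Fin 3) (ZMod 2)) : M3) = mB)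
  (hQ : Fintype.card Q = 21)
include hA hB hQ

theorem bijAB : Function.Bijective (fun p : Fin 7 × Fin 3 => σ ^ (p.1 : ℕ) * τ ^ (p.2 : ℕ)) := by
  rw [Fintype.bijective_iff_injective_and_card]
  refine ⟨?_, by rw [hQ]; rfl⟩
  intro p q h
  apply decInj
  have h' : σ ^ (p.1 : ℕ) * τ ^ (p.2 : ℕ) = σ ^ (q.1 : ℕ) * τ ^ (q.2 : ℕ) := h
  rw [← rpAB r hA hB, ← rpAB r hA hB, h']

theorem bijBA : Function.Bijective (fun p : Fin 3 × Fin 7 => τ ^ (p.1 : ℕ) * σ ^ (p.2 : ℕ)) := by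
  rw [Fintype.bijective_iff_injective_and_card]
  refine ⟨?_, by rw [hQ]; rfl⟩
  intro p q h
  apply decInj'
  have h' : τ ^ (p.1 : ℕ) * σ ^ (p.2 : ℕ) = τ ^ (q.1 : ℕ) * σ ^ (q.2 : ℕ) := h
  rw [← rpAB r hB hA, ← rpAB r hB hA, h']

theorem sumA (c : Q → ZMod 2) (hc : ∀ g, c (g * τ) = c g) :
    ∑ g, c g • cj (r g) X0 = ∑ i : Fin 7, c (σ ^ (i : ℕ)) • MA i := by
  rw [← (bijAB r hA hB hQ).sum_comp, Fintype.sum_prod_type]
  refine Finset.sum_congr rfl fun i _ => ?_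
  have hB' : ∀ j : ℕ, cj (r (τ ^ j)) X0 = X0 := by
    intro j
    induction j with
    | zero => rw [pow_zero, map_one, map_one]; rfl
    | succ j ih =>
      rw [pow_succ, map_mul, map_mul]
      show cj (r (τ ^ j)) (cj (r τ) X0) = X0
      have e1 : cj (r τ) X0 = X0 := cj_eq (by rw [hB]; exact decBX)
      rw [e1, ih]
  have hc' : ∀ j : ℕ, c (σ ^ (i : ℕ) * τ ^ j) = c (σ ^ (i : ℕ)) := by
    intro j
    induction j with
    | zero => rw [pow_zero, mul_one]
    | succ j ih => rw [pow_succ, ← mul_assoc, hc, ih]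
  have h1 : ∀ j : Fin 3, c (σ ^ (i : ℕ) * τ ^ (j : ℕ)) • cj (r (σ ^ (i : ℕ) * τ ^ (j : ℕ))) X0 =
      c (σ ^ (i : ℕ)) • MA i := by
    intro j
    rw [hc', map_mul, map_mul]
    show c (σ ^ (i : ℕ)) • cj (r (σ ^ (i : ℕ))) (cj (r (τ ^ (j : ℕ))) X0) = _
    rw [hB', cj_eq (Z := MA i)]
    rw [rpA r hA]
    exact decA i
  rw [Finset.sum_congr rfl fun j _ => h1 j, Finset.sum_const, Finset.card_univ, Fintype.card_fin]
  exact three _

theorem sumB (d : Q → ZMod 2) (hd : ∀ g, d (g * σ) = d g) :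
    ∑ g, d g • cj (r g) Y0 = ∑ j : Fin 3, d (τ ^ (j : ℕ)) • MB j := by
  rw [← (bijBA r hA hB hQ).sum_comp, Fintype.sum_prod_type]
  refine Finset.sum_congr rfl fun i _ => ?_
  have hB' : ∀ j : ℕ, cj (r (σ ^ j)) Y0 = Y0 := by
    intro j
    induction j with
    | zero => rw [pow_zero, map_one, map_one]; rfl
    | succ j ih =>
      rw [pow_succ, map_mul, map_mul]
      show cj (r (σ ^ j)) (cj (r σ) Y0) = Y0
      have e1 : cj (r σ) Y0 = Y0 := cj_eq (by rw [hA]; exact decAY)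
      rw [e1, ih]
  have hc' : ∀ j : ℕ, d (τ ^ (i : ℕ) * σ ^ j) = d (τ ^ (i : ℕ)) := by
    intro j
    induction j with
    | zero => rw [pow_zero, mul_one]
    | succ j ih => rw [pow_succ, ← mul_assoc, hd, ih]
  have h1 : ∀ j : Fin 7, d (τ ^ (i : ℕ) * σ ^ (j : ℕ)) • cj (r (τ ^ (i : ℕ) * σ ^ (j : ℕ))) Y0 =
      d (τ ^ (i : ℕ)) • MB i := by
    intro j
    rw [hc', map_mul, map_mul]
    show d (τ ^ (i : ℕ)) • cj (r (τ ^ (i : ℕ))) (cj (r (σ ^ (j : ℕ))) Y0) = _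
    rw [hB', cj_eq (Z := MB i)]
    rw [rpA r hB]
    exact decB i
  rw [Finset.sum_congr rfl fun j _ => h1 j, Finset.sum_const, Finset.card_univ, Fintype.card_fin]
  exact seven _

/-- the injectivity statement -/
theorem inj_sum (c d : Q → ZMod 2) (hc : ∀ g, c (g * τ) = c g) (hd : ∀ g, d (g * σ) = d g)
    (h : ∑ g, (c g • cj (r g) X0 + d g • cj (r g) Y0) = 0) : (∀ g, c g = c 1) ∧ d 1 = 0 := by
  rw [Finset.sum_add_distrib, sumA r hA hB hQ c hc, sumB r hA hB hQ d hd] at h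
  obtain ⟨h1, h2⟩ := decK (fun i => c (σ ^ (i : ℕ))) (fun j => d (τ ^ (j : ℕ))) h
  have h2' : d (τ ^ ((0 : Fin 3) : ℕ)) = 0 := h2
  rw [Fin.val_zero, pow_zero] at h2'
  refine ⟨fun g => ?_, h2'⟩
  obtain ⟨⟨i, j⟩, rfl⟩ := (bijAB r hA hB hQ).surjective g
  have hc' : ∀ j : ℕ, c (σ ^ (i : ℕ) * τ ^ j) = c (σ ^ (i : ℕ)) := by
    intro j
    induction j with
    | zero => rw [pow_zero, mul_one]
    | succ j ih => rw [pow_succ, ← mul_assoc, hc, ih]
  show c (σ ^ (i : ℕ) * τ ^ (j : ℕ)) = c 1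
  rw [hc']
  have h3 : c (σ ^ (i : ℕ)) = c (σ ^ ((0 : Fin 7) : ℕ)) := h1 i
  rw [h3, Fin.val_zero, pow_zero]

end

end Part1

section Part2

open scoped Classical

/-- the sign `± 1` -/
noncomputable def sg (E : Type) [Field E] (e : ZMod 2) : E := if e = 0 then 1 else -1

theorem zcases (e : ZMod 2) : e = 0 ∨ e = 1 := by revert e; decide

section
variable {E : Type} [Field E]

theorem sg_zero : sg E 0 = 1 := if_pos rfl
theorem sg_one : sg E 1 = -1 := if_neg (by decide)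

theorem sg_add (e f : ZMod 2) : sg E (e + f) = sg E e * sg E f := by
  rcases zcases e with rfl | rfl <;> rcases zcases f with rfl | rfl
  · rw [add_zero, sg_zero, one_mul]
  · rw [zero_add, sg_zero, one_mul]
  · rw [add_zero, sg_zero, mul_one]
  · have : (1 : ZMod 2) + 1 = 0 := by decide
    rw [this, sg_zero, sg_one]; ring

theorem map_sg {F : Type} [Field F] (a : E →+* F) (e : ZMod 2) : a (sg E e) = sg F e := by
  rcases zcases e with rfl | rfl
  · rw [sg_zero, sg_zero, map_one]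
  · rw [sg_one, sg_one, map_neg, map_one]

/-- the Kummer pairing -/
noncomputable def pr (a : E ≃+* E) (u : E) : ZMod 2 := if ∀ s : E, s ^ 2 = u → a s = s then 0 else 1

variable [CharZero E]

theorem pr_eq {a : E ≃+* E} {u s : E} (hs : s ^ 2 = u) (hu : u ≠ 0) {e : ZMod 2} (h : a s = sg E e * s) :
    pr a u = e := by
  have hs0 : s ≠ 0 := by
    rintro rfl
    apply hu
    rw [← hs]; ring
  rcases zcases e with rfl | rfl
  · apply if_pos
    intro t ht
    rw [sg_zero, one_mul] at h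
    rcases sq_eq_sq_iff_eq_or_eq_neg.1 (ht.trans hs.symm) with rfl | rfl
    · exact h
    · rw [map_neg, h]
  · apply if_neg
    intro hc
    have h1 := hc s hs
    rw [h, sg_one] at h1
    apply hs0
    have h2 : (2 : E) * s = 0 := by linear_combination -h1
    rcases mul_eq_zero.1 h2 with h3 | h3
    · exact absurd h3 two_ne_zero
    · exact h3

theorem pr_spec {a : E ≃+* E} {u s : E} (hs : s ^ 2 = u) (hu : u ≠ 0) (ha : a u = u) :
    a s = sg E (pr a u) * s := by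
  have h1 : (a s) ^ 2 = s ^ 2 := by rw [← map_pow, hs, ha]
  rcases sq_eq_sq_iff_eq_or_eq_neg.1 h1 with h2 | h2
  · have h3 : pr a u = 0 := pr_eq hs hu (by rw [sg_zero, one_mul]; exact h2)
    rw [h3, sg_zero, one_mul]; exact h2
  · have h3 : pr a u = 1 := pr_eq hs hu (by rw [sg_one]; rw [h2]; ring)
    rw [h3, sg_one, h2]; ring

theorem pr_mulL {a b : E ≃+* E} {u s : E} (hs : s ^ 2 = u) (hu : u ≠ 0) (ha : a u = u) (hb : b u = u) :
    pr (a * b) u = pr a u + pr b u := by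
  apply pr_eq hs hu
  show a (b s) = _
  rw [pr_spec hs hu hb, map_mul, pr_spec hs hu ha]
  have := map_sg (a : E →+* E) (pr b u)
  have h2 : a (sg E (pr b u)) = sg E (pr b u) := this
  rw [h2, sg_add]; ring

theorem pr_mulR {a : E ≃+* E} {u v s t : E} (hs : s ^ 2 = u) (hu : u ≠ 0) (ht : t ^ 2 = v) (hv : v ≠ 0)
    (hau : a u = u) (hav : a v = v) : pr a (u * v) = pr a u + pr a v := by
  apply pr_eq (s := s * t) (by rw [mul_pow, hs, ht]) (mul_ne_zero hu hv)
  rw [map_mul, pr_spec hs hu hau, pr_spec ht hv hav, sg_add]; ring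

theorem pr_conj {h a a' : E ≃+* E} {u s : E} (hs : s ^ 2 = u) (hu : u ≠ 0) (ha : a u = u)
    (hc : ∀ x, a' (h x) = h (a x)) : pr a' (h u) = pr a u := by
  apply pr_eq (s := h s) (by rw [← map_pow, hs]) ((map_ne_zero_iff _ h.injective).2 hu)
  rw [hc, pr_spec hs hu ha, map_mul]
  have := map_sg (h : E →+* E) (pr a u)
  have h2 : h (sg E (pr a u)) = sg E (pr a u) := this
  rw [h2]

end

end Part2

section Part3

open NumberField IsDedekindDomain Module
open Pool.Agent.Q92.AR (Dv prin Unramified)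
open Pool.Agent.Q5.MZ (KData TwoPow TwoUnram matA matB dfst S_KU S_GB)
open scoped Classical

section
variable {K : Type} [Field K] [NumberField K]

/-- action on the units -/
noncomputable def ac (g : K ≃ₐ[ℚ] K) : Kˣ →* Kˣ := Units.map ((g : K →+* K) : K →* K)

theorem ac_val (g : K ≃ₐ[ℚ] K) (u : Kˣ) : ((ac g u : Kˣ) : K) = g (u : K) := rfl

theorem ac_mul (g h : K ≃ₐ[ℚ] K) (u : Kˣ) : ac (g * h) u = ac g (ac h u) := by
  apply Units.ext
  rfl

theorem ac_one (u : Kˣ) : ac (1 : K ≃ₐ[ℚ] K) u = u := by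
  apply Units.ext
  rfl

variable (E : Type) [Field E] [NumberField E] [Algebra K E] [IsGalois ℚ K] [IsGalois ℚ E]

/-- restriction -/
noncomputable abbrev rs : (E ≃ₐ[ℚ] E) →* (K ≃ₐ[ℚ] K) := AlgEquiv.restrictNormalHom K

theorem rs_spec (h : E ≃ₐ[ℚ] E) (x : K) : algebraMap K E (rs (K := K) E h x) = h (algebraMap K E x) :=
  AlgEquiv.restrictNormal_commutes h K x

theorem rs_surj : Function.Surjective (rs (K := K) E) := AlgEquiv.restrictNormalHom_surjective E

theorem rs_one {a : E ≃ₐ[ℚ] E} : rs (K := K) E a = 1 ↔ ∀ x : K, a (algebraMap K E x) = algebraMap K E x := by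
  constructor
  · intro h x
    rw [← rs_spec, h]; rfl
  · intro h
    apply AlgEquiv.ext
    intro x
    apply (algebraMap K E).injective
    rw [rs_spec, h]; rfl

/-- being a square in `E` -/
def SqE (u : Kˣ) : Prop := ∃ s : E, s ^ 2 = algebraMap K E (u : K)

variable {E}

theorem SqE.ac {u : Kˣ} (hu : SqE E u) (g : K ≃ₐ[ℚ] K) : SqE E (ac g u) := by
  obtain ⟨h, rfl⟩ := rs_surj (K := K) E g
  obtain ⟨s, hs⟩ := hu
  refine ⟨h s, ?_⟩
  rw [← map_pow, hs, ac_val, rs_spec]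

theorem SqE.mul {u v : Kˣ} (hu : SqE E u) (hv : SqE E v) : SqE E (u * v) := by
  obtain ⟨s, hs⟩ := hu
  obtain ⟨t, ht⟩ := hv
  exact ⟨s * t, by rw [mul_pow, hs, ht, Units.val_mul, map_mul]⟩

/-- the pairing -/
noncomputable def pp (a : E ≃ₐ[ℚ] E) (u : Kˣ) : ZMod 2 := pr (a : E ≃+* E) (algebraMap K E (u : K))

theorem alg_ne (u : Kˣ) : algebraMap K E (u : K) ≠ 0 :=
  (map_ne_zero_iff _ (algebraMap K E).injective).2 u.ne_zero

theorem pp_mulL {a b : E ≃ₐ[ℚ] E} (ha : rs (K := K) E a = 1) (hb : rs (K := K) E b = 1) {u : Kˣ} (hu : SqE E u) :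
    pp (a * b) u = pp a u + pp b u := by
  obtain ⟨s, hs⟩ := hu
  exact pr_mulL (a := (a : E ≃+* E)) (b := (b : E ≃+* E)) hs (alg_ne u) ((rs_one E).1 ha _) ((rs_one E).1 hb _)

theorem pp_mulR {a : E ≃ₐ[ℚ] E} (ha : rs (K := K) E a = 1) {u v : Kˣ} (hu : SqE E u) (hv : SqE E v) :
    pp a (u * v) = pp a u + pp a v := by
  obtain ⟨s, hs⟩ := hu
  obtain ⟨t, ht⟩ := hv
  unfold pp
  rw [Units.val_mul, map_mul]
  exact pr_mulR hs (alg_ne u) ht (alg_ne v) ((rs_one E).1 ha _) ((rs_one E).1 ha _)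

theorem pp_conj {h a a' : E ≃ₐ[ℚ] E} (ha : rs (K := K) E a = 1) (hc : a' = h * a * h⁻¹) {u : Kˣ} (hu : SqE E u) :
    pp a' (ac (rs E h) u) = pp a u := by
  obtain ⟨s, hs⟩ := hu
  unfold pp
  rw [ac_val, rs_spec]
  apply pr_conj (h := (h : E ≃+* E)) hs (alg_ne u) ((rs_one E).1 ha _)
  intro x
  subst hc
  show (h * a * h⁻¹) (h x) = h (a x)
  rw [← AlgEquiv.mul_apply, mul_assoc, mul_assoc, inv_mul_cancel, mul_one, AlgEquiv.mul_apply]

theorem pp_zero {u : Kˣ} (hu : SqE E u) (h : ∀ a : E ≃ₐ[ℚ] E, rs (K := K) E a = 1 → pp a u = 0) :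
    IsSquare (u : K) := by
  obtain ⟨s, hs⟩ := hu
  have hG : IsGalois K E := IsGalois.tower_top_of_isGalois ℚ K E
  have h1 : s ∈ Set.range (algebraMap K E) := by
    rw [IsGalois.mem_range_algebraMap_iff_fixed]
    intro f
    have hf : rs (K := K) E (f.restrictScalars ℚ) = 1 := by
      rw [rs_one]
      intro x
      exact f.commutes x
    have h2 := h _ hf
    have h3 := pr_spec (a := ((f.restrictScalars ℚ : E ≃ₐ[ℚ] E) : E ≃+* E)) hs (alg_ne u) ((rs_one E).1 hf _)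
    have h4 : pr ((f.restrictScalars ℚ : E ≃ₐ[ℚ] E) : E ≃+* E) (algebraMap K E (u : K)) = 0 := h2
    rw [h4, sg_zero, one_mul] at h3
    exact h3
  obtain ⟨t, rfl⟩ := h1
  refine ⟨t, ?_⟩
  apply (algebraMap K E).injective
  rw [← hs, map_mul, sq]

end

/-! ### matrices over the dual numbers -/

/-- the matrix `A + ε B` -/
noncomputable def mk (A B : M3) : Matrix (Fin 3) (Fin 3) (DualNumber (ZMod 2)) :=
  Matrix.of fun i j => (TrivSqZeroExt.inl (A i j) + TrivSqZeroExt.inr (B i j) : DualNumber (ZMod 2))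

theorem mk_fst (A B : M3) (i j : Fin 3) : TrivSqZeroExt.fst (mk A B i j) = A i j := by
  simp [mk]

theorem mk_snd (A B : M3) (i j : Fin 3) : TrivSqZeroExt.snd (mk A B i j) = B i j := by
  simp [mk]

theorem mk_mul (A B A' B' : M3) : mk A B * mk A' B' = mk (A * A') (A * B' + B * A') := by
  ext i j
  · rw [mk_fst, Matrix.mul_apply, Matrix.mul_apply, TrivSqZeroExt.fst_sum]
    refine Finset.sum_congr rfl fun k _ => ?_
    rw [TrivSqZeroExt.fst_mul, mk_fst, mk_fst]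
  · rw [mk_snd, Matrix.mul_apply, Matrix.add_apply, Matrix.mul_apply, Matrix.mul_apply, TrivSqZeroExt.snd_sum,
      ← Finset.sum_add_distrib]
    refine Finset.sum_congr rfl fun k _ => ?_
    rw [TrivSqZeroExt.snd_mul, mk_fst, mk_fst, mk_snd, mk_snd]
    simp [smul_eq_mul]

theorem mk_one : mk 1 0 = 1 := by
  ext i j
  · rw [mk_fst, Matrix.one_apply, Matrix.one_apply]; split_ifs <;> simp
  · rw [mk_snd, Matrix.one_apply]; split_ifs <;> simp

theorem M3_two (X : M3) : X + X = 0 := by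
  ext i j
  rw [Matrix.add_apply]
  exact CharTwo.add_self_eq_zero _

/-- a representation over the dual numbers from a cocycle -/
theorem lift_of_cocycle {G : Type} [Group G] (R : G →* GL (Fin 3) (ZMod 2)) (a : G → M3)
    (ha : ∀ g g', a (g * g') = a g + cj (R g) (a g')) :
    ∃ ρ : G →* GL (Fin 3) (DualNumber (ZMod 2)), (∀ g, Matrix.GeneralLinearGroup.map dfst (ρ g) = R g) ∧
      ∀ g, R g = 1 → ∀ i j, TrivSqZeroExt.snd ((ρ g : Matrix (Fin 3) (Fin 3) (DualNumber (ZMod 2))) i j) = a g i j := by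
  have ha1 : a 1 = 0 := by
    have h := ha 1 1
    rw [mul_one, map_one, map_one] at h
    have h2 : a 1 = a 1 + a 1 := h
    rw [M3_two] at h2
    exact h2
  let N : G →* Matrix (Fin 3) (Fin 3) (DualNumber (ZMod 2)) :=
    { toFun := fun g => mk (R g : M3) (a g * (R g : M3))
      map_one' := by
        rw [ha1, map_one, Units.val_one, Matrix.zero_mul, mk_one]
      map_mul' := by
        intro g g'
        rw [mk_mul, ha, map_mul, Units.val_mul]
        congr 1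
        rw [cj_apply, Matrix.add_mul]
        have h1 : (R g : M3) * a g' * ((R g)⁻¹ : GL (Fin 3) (ZMod 2)) * ((R g : M3) * (R g' : M3)) =
            (R g : M3) * (a g' * (R g' : M3)) := by
          have h2 : (((R g)⁻¹ : GL (Fin 3) (ZMod 2)) : M3) * (R g : M3) = 1 := by
            rw [← Units.val_mul, inv_mul_cancel, Units.val_one]
          calc _ = (R g : M3) * a g' * (((((R g)⁻¹ : GL (Fin 3) (ZMod 2)) : M3) * (R g : M3)) * (R g' : M3)) := by
                simp only [Matrix.mul_assoc]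
            _ = _ := by rw [h2, Matrix.one_mul, Matrix.mul_assoc]
        rw [h1, add_comm, Matrix.mul_assoc] }
  refine ⟨N.toHomUnits, ?_, ?_⟩
  · intro g
    apply Units.ext
    ext i j
    show dfst (mk (R g : M3) (a g * (R g : M3)) i j) = (R g : M3) i j
    exact mk_fst _ _ i j
  · intro g hg i j
    show TrivSqZeroExt.snd (mk (R g : M3) (a g * (R g : M3)) i j) = a g i j
    rw [mk_snd, hg, Units.val_one, Matrix.mul_one]

section
variable {K : Type} [Field K] [NumberField K]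
variable {E : Type} [Field E] [NumberField E] [Algebra K E] [IsGalois ℚ K] [IsGalois ℚ E]
  (r : (K ≃ₐ[ℚ] K) →* GL (Fin 3) (ZMod 2))

/-- the homomorphism `f_{v,w}` -/
noncomputable def ff (v w : Kˣ) (a : E ≃ₐ[ℚ] E) : M3 :=
  ∑ g : K ≃ₐ[ℚ] K, (pp a (ac g v) • cj (r g) X0 + pp a (ac g w) • cj (r g) Y0)

theorem ff_mul {v w : Kˣ} (hv : SqE E v) (hw : SqE E w) {a b : E ≃ₐ[ℚ] E} (ha : rs (K := K) E a = 1)
    (hb : rs (K := K) E b = 1) : ff r v w (a * b) = ff r v w a + ff r v w b := by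
  unfold ff
  rw [← Finset.sum_add_distrib]
  refine Finset.sum_congr rfl fun g _ => ?_
  rw [pp_mulL ha hb (hv.ac g), pp_mulL ha hb (hw.ac g), add_smul, add_smul]
  abel

theorem ff_conj {v w : Kˣ} (hv : SqE E v) (hw : SqE E w) {h a a' : E ≃ₐ[ℚ] E} (ha : rs (K := K) E a = 1)
    (hc : a' = h * a * h⁻¹) : ff r v w a' = cj (r (rs E h)) (ff r v w a) := by
  unfold ff
  rw [map_sum, ← (Group.mulLeft_bijective (rs (K := K) E h)).sum_comp]
  refine Finset.sum_congr rfl fun g _ => ?_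
  show pp a' (ac (rs E h * g) v) • cj (r (rs E h * g)) X0 + pp a' (ac (rs E h * g) w) • cj (r (rs E h * g)) Y0 = _
  rw [ac_mul, ac_mul, pp_conj ha hc (hv.ac g), pp_conj ha hc (hw.ac g), map_add, cj_smul, cj_smul, map_mul, map_mul]
  rfl

theorem ff_add {v w v' w' : Kˣ} (hv : SqE E v) (hw : SqE E w) (hv' : SqE E v') (hw' : SqE E w') {a : E ≃ₐ[ℚ] E}
    (ha : rs (K := K) E a = 1) : ff r (v * v') (w * w') a = ff r v w a + ff r v' w' a := by
  unfold ff
  rw [← Finset.sum_add_distrib]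
  refine Finset.sum_congr rfl fun g _ => ?_
  rw [map_mul, map_mul, pp_mulR ha (hv.ac g) (hv'.ac g), pp_mulR ha (hw.ac g) (hw'.ac g), add_smul, add_smul]
  abel

theorem cardQ (hdeg : finrank ℚ K = 21) : Fintype.card (K ≃ₐ[ℚ] K) = 21 := by
  rw [← Nat.card_eq_fintype_card, IsGalois.card_aut_eq_finrank, hdeg]

/-- the lift attached to `v`, `w` -/
theorem exists_lift (hGB : S_GB) (hdeg : finrank ℚ K = 21) {v w : Kˣ} (hv : SqE E v) (hw : SqE E w) :
    ∃ ρ : (E ≃ₐ[ℚ] E) →* GL (Fin 3) (DualNumber (ZMod 2)),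
      (∀ g, Matrix.GeneralLinearGroup.map dfst (ρ g) = r (AlgEquiv.restrictNormal g K)) ∧
      ∀ g, rs (K := K) E g = 1 → ∀ i j,
        TrivSqZeroExt.snd ((ρ g : Matrix (Fin 3) (Fin 3) (DualNumber (ZMod 2))) i j) = ff r v w g i j := by
  obtain ⟨a, h1, h2⟩ := hGB (E ≃ₐ[ℚ] E) M3 (rs (K := K) E).ker (cj.comp (r.comp (rs E)))
    (fun a => ff r v w (a : E ≃ₐ[ℚ] E)) (MonoidHom.normal_ker _) (by
      rw [Subgroup.index_ker, MonoidHom.range_eq_top.2 (rs_surj E), Subgroup.card_top,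
        Nat.card_eq_fintype_card, cardQ hdeg]
      decide) M3_two (by
      intro h hh
      rw [MonoidHom.mem_ker] at hh
      show cj (r (rs E h)) = 1
      rw [hh, map_one, map_one]) (by
      intro h h'
      exact ff_mul r hv hw h.2 h'.2) (by
      intro g h h' hc
      exact ff_conj r hv hw h.2 hc)
  obtain ⟨ρ, h3, h4⟩ := lift_of_cocycle (r.comp (rs (K := K) E)) a h1
  refine ⟨ρ, h3, ?_⟩
  intro g hg i j
  have h5 : ff r v w g = a g := (h2 ⟨g, hg⟩).symm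
  rw [h5]
  exact h4 g (by show r (rs E g) = 1; rw [hg, map_one]) i j

/-- a unit has norm `± 1` -/
theorem norm_unit {u : Kˣ} (hu : prin u = 0) : Algebra.norm ℚ (u : K) = 1 ∨ Algebra.norm ℚ (u : K) = -1 := by
  have h1 : ∀ x : Kˣ, prin x = 0 → ∃ y : 𝓞 K, (y : K) = (x : K) := by
    intro x hx
    have := HeightOneSpectrum.mem_integers_of_valuation_le_one (R := 𝓞 K) K (x : K) (by
      intro v
      rw [Pool.Agent.Q128.AR.val_prin, hx]
      simp)
    obtain ⟨y, hy⟩ := this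
    exact ⟨y, hy⟩
  obtain ⟨y, hy⟩ := h1 u hu
  obtain ⟨z, hz⟩ := h1 u⁻¹ (by rw [Pool.Agent.Q92.AR.prin_inv, hu, neg_zero])
  have hyz : y * z = 1 := by
    apply RingOfIntegers.ext
    show (y : K) * (z : K) = 1
    rw [hy, hz, ← Units.val_mul, mul_inv_cancel, Units.val_one]
  have h2 : IsUnit y := IsUnit.of_mul_eq_one z hyz
  have h3 := NumberField.isUnit_iff_norm.1 h2
  rw [RingOfIntegers.coe_norm, hy] at h3
  rcases abs_eq (zero_le_one) |>.1 h3 with h4 | h4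
  · exact Or.inl h4
  · exact Or.inr h4

theorem unr_self : TwoUnram K K := by
  intro v _ w hw hle
  have h1 : w.asIdeal.comap (algebraMap (𝓞 K) (𝓞 K)) = v.asIdeal := by
    rw [← hw]; rfl
  have h2 : ∀ x : 𝓞 K, algebraMap (𝓞 K) (𝓞 K) x = x := fun x => RingOfIntegers.ext rfl
  have h3 : w.asIdeal = v.asIdeal := by
    rw [← h1]
    ext x
    rw [Ideal.mem_comap, h2]
  have h4 : w.asIdeal ≤ w.asIdeal ^ 2 := by
    refine le_trans ?_ hle
    rw [h3]
    intro x hx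
    have := Ideal.mem_map_of_mem (algebraMap (𝓞 K) (𝓞 K)) hx
    rw [h2] at this
    exact this
  have h5 : w.asIdeal * w.asIdeal = w.asIdeal * 1 := by
    rw [mul_one, ← sq]
    exact le_antisymm (Ideal.pow_le_self two_ne_zero) h4
  have h6 := mul_left_cancel₀ w.ne_bot h5
  exact w.isPrime.ne_top (by rw [h6]; exact Ideal.one_eq_top)

theorem pow_self : TwoPow K K := ⟨0, by rw [finrank_self]; rfl⟩

/-- the injectivity -/
theorem inj_lift (hdeg : finrank ℚ K = 21) {σ τ : K ≃ₐ[ℚ] K} (hA : ((r σ : GL (Fin 3) (ZMod 2)) : M3) = mA)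
    (hB : ((r τ : GL (Fin 3) (ZMod 2)) : M3) = mB) {u t : Kˣ} (hu : SqE E u) (ht : SqE E t)
    (hτ : τ (u : K) = u) (hσ : σ (t : K) = t) (hpu : prin u = 0)
    (h : ∀ a : E ≃ₐ[ℚ] E, rs (K := K) E a = 1 → ff r u t a = 0) :
    IsSquare (t : K) ∧ (IsSquare (u : K) ∨ IsSquare (-(u : K))) := by
  have hτ' : ac τ u = u := Units.ext hτ
  have hσ' : ac σ t = t := Units.ext hσ
  have key : ∀ a : E ≃ₐ[ℚ] E, rs (K := K) E a = 1 → (∀ g, pp a (ac g u) = pp a u) ∧ pp a t = 0 := by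
    intro a ha
    have h1 := inj_sum r hA hB (cardQ hdeg) (fun g => pp a (ac g u)) (fun g => pp a (ac g t)) (by
      intro g
      show pp a (ac (g * τ) u) = pp a (ac g u)
      rw [ac_mul, hτ']) (by
      intro g
      show pp a (ac (g * σ) t) = pp a (ac g t)
      rw [ac_mul, hσ']) (h a ha)
    obtain ⟨h2, h3⟩ := h1
    have h3' : pp a (ac 1 t) = 0 := h3
    rw [ac_one] at h3'
    refine ⟨fun g => ?_, h3'⟩
    have h2' : pp a (ac g u) = pp a (ac 1 u) := h2 g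
    rw [h2', ac_one]
  refine ⟨pp_zero ht fun a ha => (key a ha).2, ?_⟩
  have hs : ∀ g : K ≃ₐ[ℚ] K, IsSquare (g (u : K) * (u : K)) := by
    intro g
    have h1 : IsSquare ((ac g u * u : Kˣ) : K) := by
      apply pp_zero ((hu.ac g).mul hu)
      intro a ha
      rw [pp_mulR ha (hu.ac g) hu, (key a ha).1 g]
      exact CharTwo.add_self_eq_zero _
    exact h1
  have hp : IsSquare (∏ g : K ≃ₐ[ℚ] K, (g (u : K) * (u : K))) := by
    choose s hs' using hs
    refine ⟨∏ g, s g, ?_⟩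
    rw [← Finset.prod_mul_distrib]
    exact Finset.prod_congr rfl fun g _ => hs' g
  rw [Finset.prod_mul_distrib, ← Algebra.norm_eq_prod_automorphisms, Finset.prod_const, Finset.card_univ,
    cardQ hdeg] at hp
  obtain ⟨s, hs2⟩ := hp
  have hu0 : (u : K) ≠ 0 := u.ne_zero
  rcases norm_unit hpu with h1 | h1
  · left
    rw [h1, map_one, one_mul] at hs2
    refine ⟨s / (u : K) ^ 10, ?_⟩
    field_simp
    linear_combination hs2
  · right
    rw [h1, map_neg, map_one] at hs2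
    refine ⟨s / (u : K) ^ 10, ?_⟩
    field_simp
    linear_combination hs2

end

end Part3

end Pool.Agent.H429.MZQ.TNQN

namespace Pool.Agent.H429.MZQ

open NumberField IsDedekindDomain Module
open Pool.Agent.Q92.AR (Dv prin Unramified)
open Pool.Agent.Q5.MZ (KData TwoPow TwoUnram matA matB dfst S_KU S_GB)
open TNQN
open scoped Classical

theorem tnq : J_TNQ := by
  intro hKU hGB hUN K _ _ _ r hD
  obtain ⟨σ, hA⟩ := hD.ma
  obtain ⟨τ, hB⟩ := hD.mb
  obtain ⟨V, W, hV, hW, hVτ, hWσ, hVi, hWi⟩ := hUN K r hD σ τ hA hB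
  let T : Finset Kˣ := Finset.univ.image V ∪ Finset.univ.image W
  obtain ⟨E, i1, i2, i4, i5, i6, hG, hP, hU, hT⟩ := hKU K K T pow_self unr_self (by
    intro t ht w hw
    rcases Finset.mem_union.1 ht with h | h
    · obtain ⟨i, _, rfl⟩ := Finset.mem_image.1 h
      rw [hV]; simp
    · obtain ⟨j, _, rfl⟩ := Finset.mem_image.1 h
      exact hW j w hw)
  have hT' : ∀ t ∈ T, ∃ s : E, s ^ 2 = @algebraMap K E _ _ i4 (t : K) := by
    intro t ht
    obtain ⟨s, hs⟩ := hT t ht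
    refine ⟨s, ?_⟩
    rw [hs]
    have e := @IsScalarTower.algebraMap_eq K K E _ _ _ _ i5 i4 i6
    exact (RingHom.congr_fun e (t : K)).symm
  clear hT
  clear i6 i5
  have hSV : ∀ i, SqE E (V i) := fun i => hT' _ (Finset.mem_union_left _ (Finset.mem_image_of_mem _ (Finset.mem_univ _)))
  have hSW : ∀ j, SqE E (W j) := fun j => hT' _ (Finset.mem_union_right _ (Finset.mem_image_of_mem _ (Finset.mem_univ _)))
  refine ⟨E, i1, i2, i4, hG, hP, hU, ?_⟩
  have hL := fun p : Fin 64 × Fin 16 => exists_lift (E := E) r hGB hD.deg (hSV p.1) (hSW p.2)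
  choose ρ h1 h2 using hL
  refine ⟨fun n => ρ ((finProdFinEquiv (m := 64) (n := 16)).symm n), fun n g => h1 _ g, ?_⟩
  intro n n' hn
  by_contra hcon
  apply hn
  apply (finProdFinEquiv (m := 64) (n := 16)).symm.injective
  set p := (finProdFinEquiv (m := 64) (n := 16)).symm n with hp
  set p' := (finProdFinEquiv (m := 64) (n := 16)).symm n' with hp'
  have h3 : ∀ a : E ≃ₐ[ℚ] E, rs (K := K) E a = 1 → ff r (V p.1 * V p'.1) (W p.2 * W p'.2) a = 0 := by
    intro a ha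
    have h4 : ρ p a = ρ p' a := by
      by_contra hne
      exact hcon ⟨a, (rs_one E).1 ha, hne⟩
    rw [ff_add r (hSV _) (hSW _) (hSV _) (hSW _) ha]
    have h5 : ff r (V p.1) (W p.2) a = ff r (V p'.1) (W p'.2) a := by
      ext i j
      rw [← h2 p a ha i j, ← h2 p' a ha i j, h4]
    rw [h5]
    exact M3_two _
  obtain ⟨h6, h7⟩ := inj_lift r hD.deg hA hB ((hSV p.1).mul (hSV p'.1)) ((hSW p.2).mul (hSW p'.2))
    (by rw [Units.val_mul, map_mul, hVτ, hVτ]) (by rw [Units.val_mul, map_mul, hWσ, hWσ])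
    (by rw [Pool.Agent.Q92.AR.prin_mul, hV, hV, add_zero]) h3
  have sqd : ∀ x y : Kˣ, ∀ e : K, IsSquare (e * ((x * y : Kˣ) : K)) → IsSquare (e * ((x : K) / y)) := by
    intro x y e ⟨s, hs⟩
    have hy : (y : K) ≠ 0 := y.ne_zero
    refine ⟨s / y, ?_⟩
    rw [Units.val_mul] at hs
    field_simp
    linear_combination hs
  apply Prod.ext
  · by_contra hne
    obtain ⟨h8, h9⟩ := hVi _ _ hne
    rcases h7 with h | h
    · apply h8
      have := sqd (V p.1) (V p'.1) 1 (by rw [one_mul]; exact h)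
      rwa [one_mul] at this
    · apply h9
      have := sqd (V p.1) (V p'.1) (-1) (by rw [neg_one_mul]; exact h)
      rwa [neg_one_mul] at this
  · by_contra hne
    apply hWi _ _ hne
    have := sqd (W p.2) (W p'.2) 1 (by rw [one_mul]; exact h6)
    rwa [one_mul] at this

end Pool.Agent.H429.MZQ
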