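import Pool.Agent.H429.MZQ.StmG

/-!
# A lift is determined by its traces
-/

set_option autoImplicit false

namespace Pool.Agent.H429.MZQ.TRQN

open IsLocalRing Matrix

variable {A : Type} [CommRing A] {G : Type} [Group G] {n : ℕ}

/-- the extension of a representation to the group algebra -/
noncomputable def Ph (ρ : G →* GL (Fin n) A) :
    MonoidAlgebra A G →ₐ[A] Matrix (Fin n) (Fin n) A :=
  MonoidAlgebra.lift A (Matrix (Fin n) (Fin n) A) G ((Units.coeHom _).comp ρ)

theorem Ph_of (ρ : G →* GL (Fin n) A) (g : G) :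
    Ph ρ (MonoidAlgebra.of A G g) = (ρ g : Matrix (Fin n) (Fin n) A) :=
  MonoidAlgebra.lift_of _ _

theorem tr_eq (ρ ρ' : G →* GL (Fin n) A)
    (h : ∀ g, (ρ g : Matrix (Fin n) (Fin n) A).trace = (ρ' g : Matrix (Fin n) (Fin n) A).trace)
    (x : MonoidAlgebra A G) : (Ph ρ x).trace = (Ph ρ' x).trace := by
  induction x using MonoidAlgebra.induction_on with
  | of m => rw [Ph_of, Ph_of]; exact h m
  | add x y hx hy => rw [map_add, map_add, Matrix.trace_add, Matrix.trace_add, hx, hy]
  | smul r x hx => rw [map_smul, map_smul, Matrix.trace_smul, Matrix.trace_smul, hx]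

theorem surj (ρ : G →* GL (Fin n) A)
    (h : Submodule.span A (Set.range fun g : G => (ρ g : Matrix (Fin n) (Fin n) A)) = ⊤)
    (Y : Matrix (Fin n) (Fin n) A) : ∃ x, Ph ρ x = Y := by
  have h1 : Submodule.span A (Set.range fun g : G => (ρ g : Matrix (Fin n) (Fin n) A)) ≤
      LinearMap.range (Ph ρ).toLinearMap := by
    rw [Submodule.span_le]
    rintro _ ⟨g, rfl⟩
    exact ⟨MonoidAlgebra.of A G g, Ph_of ρ g⟩
  rw [h] at h1
  obtain ⟨x, hx⟩ := h1 (show Y ∈ (⊤ : Submodule A _) from trivial)
  exact ⟨x, hx⟩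

theorem ker_le (ρ ρ' : G →* GL (Fin n) A)
    (h : ∀ g, (ρ g : Matrix (Fin n) (Fin n) A).trace = (ρ' g : Matrix (Fin n) (Fin n) A).trace)
    (hs : Submodule.span A (Set.range fun g : G => (ρ' g : Matrix (Fin n) (Fin n) A)) = ⊤)
    (x : MonoidAlgebra A G) (hx : Ph ρ x = 0) : Ph ρ' x = 0 := by
  rw [Matrix.ext_iff_trace_mul_right]
  intro Y
  obtain ⟨y, rfl⟩ := surj ρ' hs Y
  rw [← map_mul, ← tr_eq ρ ρ' h, map_mul, hx, zero_mul, zero_mul]

/-- well-definedness -/
theorem Ph_congr (ρ ρ' : G →* GL (Fin n) A)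
    (h : ∀ g, (ρ g : Matrix (Fin n) (Fin n) A).trace = (ρ' g : Matrix (Fin n) (Fin n) A).trace)
    (hs : Submodule.span A (Set.range fun g : G => (ρ' g : Matrix (Fin n) (Fin n) A)) = ⊤)
    (x y : MonoidAlgebra A G) (hx : Ph ρ x = Ph ρ y) : Ph ρ' x = Ph ρ' y := by
  rw [← sub_eq_zero, ← map_sub]
  apply ker_le ρ ρ' h hs
  rw [map_sub, hx, sub_self]

/-- entries in the maximal ideal -/
theorem mem_smul_top (I : Ideal A) (X : Matrix (Fin n) (Fin n) A) (h : ∀ i j, X i j ∈ I) :
    X ∈ I • (⊤ : Submodule A (Matrix (Fin n) (Fin n) A)) := by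
  rw [Matrix.matrix_eq_sum_single X]
  apply Submodule.sum_mem
  intro i _
  apply Submodule.sum_mem
  intro j _
  have h1 : Matrix.single i j (X i j) = X i j • (Matrix.single i j 1 : Matrix (Fin n) (Fin n) A) := by
    rw [Matrix.smul_single, smul_eq_mul, mul_one]
  rw [h1]
  exact Submodule.smul_mem_smul (h i j) trivial

section

variable {k : Type} [Field k] [IsLocalRing A]

theorem ker_eq (π : A →+* k) (hπ : Function.Surjective π) : RingHom.ker π = maximalIdeal A :=
  IsLocalRing.eq_maximalIdeal (RingHom.ker_isMaximal_of_surjective π hπ)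

/-- Nakayama: spanning can be tested modulo the maximal ideal -/
theorem span_top (π : A →+* k) (hπ : Function.Surjective π) (ρ : G →* GL (Fin n) A)
    (h : Submodule.span k (Set.range fun g : G =>
      (Matrix.GeneralLinearGroup.map π (ρ g) : Matrix (Fin n) (Fin n) k)) = ⊤) :
    Submodule.span A (Set.range fun g : G => (ρ g : Matrix (Fin n) (Fin n) A)) = ⊤ := by
  set N := Submodule.span A (Set.range fun g : G => (ρ g : Matrix (Fin n) (Fin n) A)) with hN
  have key : ∀ Z : Matrix (Fin n) (Fin n) k, Z ∈ Submodule.span k (Set.range fun g : G =>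
      (Matrix.GeneralLinearGroup.map π (ρ g) : Matrix (Fin n) (Fin n) k)) →
      ∃ Y ∈ N, Y.map π = Z := by
    intro Z hZ
    induction hZ using Submodule.span_induction with
    | mem x hx =>
      obtain ⟨g, rfl⟩ := hx
      exact ⟨_, Submodule.subset_span ⟨g, rfl⟩, rfl⟩
    | zero => exact ⟨0, N.zero_mem, by ext i j; simp⟩
    | add x y _ _ hx hy =>
      obtain ⟨X, hX, rfl⟩ := hx
      obtain ⟨Y, hY, rfl⟩ := hy
      exact ⟨X + Y, N.add_mem hX hY, by ext i j; simp⟩
    | smul a x _ hx =>
      obtain ⟨X, hX, rfl⟩ := hx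
      obtain ⟨b, rfl⟩ := hπ a
      exact ⟨b • X, N.smul_mem b hX, by ext i j; simp⟩
  have h1 : (⊤ : Submodule A (Matrix (Fin n) (Fin n) A)) ≤
      N ⊔ maximalIdeal A • (⊤ : Submodule A (Matrix (Fin n) (Fin n) A)) := by
    intro X _
    obtain ⟨Y, hY, hYX⟩ := key (X.map π) (by rw [h]; trivial)
    rw [show X = Y + (X - Y) by abel]
    apply Submodule.add_mem_sup hY
    apply mem_smul_top
    intro i j
    rw [← ker_eq π hπ, RingHom.mem_ker]
    have h2 := congrFun (congrFun hYX i) j
    rw [Matrix.map_apply, Matrix.map_apply] at h2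
    rw [Matrix.sub_apply, map_sub, h2, sub_self]
  have h3 : (⊤ : Submodule A (Matrix (Fin n) (Fin n) A)) ≤ N :=
    Submodule.le_of_le_smul_of_le_jacobson_bot (I := maximalIdeal A) Module.Finite.fg_top
      (IsLocalRing.maximalIdeal_le_jacobson ⊥) h1
  exact top_le_iff.1 h3

omit [IsLocalRing A] in
/-- reduction of the group algebra homomorphism -/
theorem red_eq (π : A →+* k) (ρ ρ' : G →* GL (Fin n) A)
    (h : ∀ g, Matrix.GeneralLinearGroup.map π (ρ g) = Matrix.GeneralLinearGroup.map π (ρ' g))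
    (x : MonoidAlgebra A G) : (Ph ρ x).map π = (Ph ρ' x).map π := by
  induction x using MonoidAlgebra.induction_on with
  | of m =>
    rw [Ph_of, Ph_of]
    have h1 := congrArg (fun u : GL (Fin n) k => (u : Matrix (Fin n) (Fin n) k)) (h m)
    exact h1
  | add x y hx hy =>
    rw [map_add, map_add, Matrix.map_add _ (map_add π), Matrix.map_add _ (map_add π), hx, hy]
  | smul r x hx =>
    rw [map_smul, map_smul]
    ext i j
    have h1 := congrFun (congrFun hx i) j
    rw [Matrix.map_apply, Matrix.map_apply] at h1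
    rw [Matrix.map_apply, Matrix.map_apply, Matrix.smul_apply, Matrix.smul_apply, smul_eq_mul,
      smul_eq_mul, map_mul, map_mul, h1]

theorem core (π : A →+* k) (hπ : Function.Surjective π) (ρ ρ' : G →* GL (Fin n) A)
    (h : ∀ g, Matrix.GeneralLinearGroup.map π (ρ g) = Matrix.GeneralLinearGroup.map π (ρ' g))
    (hsp : Submodule.span k (Set.range fun g : G =>
      (Matrix.GeneralLinearGroup.map π (ρ g) : Matrix (Fin n) (Fin n) k)) = ⊤)
    (htr : ∀ g, (ρ g : Matrix (Fin n) (Fin n) A).trace = (ρ' g : Matrix (Fin n) (Fin n) A).trace) :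
    ∃ M : GL (Fin n) A, Matrix.GeneralLinearGroup.map π M = 1 ∧ ∀ g, ρ' g = M * ρ g * M⁻¹ := by
  rcases Nat.eq_zero_or_pos n with rfl | hn
  · exact ⟨1, map_one _, fun g => Units.ext (Subsingleton.elim _ _)⟩
  have i0 : Fin n := ⟨0, hn⟩
  have hs := span_top π hπ ρ hsp
  have hsp' : Submodule.span k (Set.range fun g : G =>
      (Matrix.GeneralLinearGroup.map π (ρ' g) : Matrix (Fin n) (Fin n) k)) = ⊤ := by
    rw [← hsp]
    congr 2
    funext g
    rw [h g]
  have hs' := span_top π hπ ρ' hsp'
  choose x hx using fun i : Fin n => surj ρ hs (Matrix.single i i0 1)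
  set P : Matrix (Fin n) (Fin n) A := ∑ i, Ph ρ' (x i) * Matrix.single i0 i 1 with hP
  -- intertwining
  have hint : ∀ g : G, (ρ' g : Matrix (Fin n) (Fin n) A) * P = P * (ρ g : Matrix (Fin n) (Fin n) A) := by
    intro g
    set R : Matrix (Fin n) (Fin n) A := (ρ g : Matrix (Fin n) (Fin n) A) with hR
    have h1 : ∀ i, (ρ' g : Matrix (Fin n) (Fin n) A) * Ph ρ' (x i) = ∑ j, R j i • Ph ρ' (x j) := by
      intro i
      have h2 : Ph ρ (MonoidAlgebra.of A G g * x i) = Ph ρ (∑ j, R j i • x j) := by
        rw [map_mul, Ph_of, hx, map_sum]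
        simp only [map_smul, hx]
        rw [← hR]
        ext a b
        rw [Matrix.sum_apply]
        simp only [Matrix.smul_apply, Matrix.single_apply, Matrix.mul_apply, smul_eq_mul]
        by_cases hb : i0 = b
        · subst hb
          simp
        · simp [hb]
      have h3 := Ph_congr ρ ρ' htr hs' _ _ h2
      rw [map_mul, Ph_of, map_sum] at h3
      simp only [map_smul] at h3
      exact h3
    rw [hP, Finset.mul_sum, Finset.sum_mul]
    have h4 : ∀ i, (ρ' g : Matrix (Fin n) (Fin n) A) * (Ph ρ' (x i) * Matrix.single i0 i 1) =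
        ∑ j, R j i • (Ph ρ' (x j) * Matrix.single i0 i 1) := by
      intro i
      rw [← mul_assoc, h1, Finset.sum_mul]
      apply Finset.sum_congr rfl
      intro j _
      rw [smul_mul_assoc]
    have h5 : ∀ j, Ph ρ' (x j) * Matrix.single i0 j 1 * R =
        ∑ i, R j i • (Ph ρ' (x j) * Matrix.single i0 i 1) := by
      intro j
      have h6 : (Matrix.single i0 j 1 : Matrix (Fin n) (Fin n) A) * R =
          ∑ i, R j i • (Matrix.single i0 i 1 : Matrix (Fin n) (Fin n) A) := by
        ext a b
        rw [Matrix.sum_apply]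
        simp only [Matrix.smul_apply, Matrix.single_apply, Matrix.mul_apply, smul_eq_mul]
        by_cases ha : i0 = a
        · subst ha
          simp
        · simp [ha]
      rw [mul_assoc, h6, Finset.mul_sum]
      apply Finset.sum_congr rfl
      intro i _
      rw [mul_smul_comm]
    simp only [h4, h5]
    rw [Finset.sum_comm]
  -- reduction
  have hred : P.map π = 1 := by
    have h1 : P.map π = ∑ i, (Ph ρ' (x i)).map π * (Matrix.single i0 i 1 : Matrix (Fin n) (Fin n) k) := by
      rw [hP]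
      have h2 : ∀ X : Matrix (Fin n) (Fin n) A, X.map π = π.mapMatrix X := fun _ => rfl
      rw [h2, map_sum]
      apply Finset.sum_congr rfl
      intro i _
      rw [map_mul]
      congr 1
      rw [RingHom.mapMatrix_apply]
      ext a b
      simp only [Matrix.map_apply, Matrix.single_apply]
      split_ifs <;> simp
    rw [h1]
    have h3 : ∀ i, (Ph ρ' (x i)).map π = (Matrix.single i i0 1 : Matrix (Fin n) (Fin n) k) := by
      intro i
      rw [← red_eq π ρ ρ' h (x i), hx]
      ext a b
      simp only [Matrix.map_apply, Matrix.single_apply]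
      split_ifs <;> simp
    simp only [h3]
    ext a b
    rw [Matrix.sum_apply]
    simp only [Matrix.single_mul_single_same, mul_one, Matrix.single_apply, Matrix.one_apply]
    by_cases hab : a = b
    · subst hab
      simp
    · rw [if_neg hab]
      apply Finset.sum_eq_zero
      intro i _
      rw [if_neg]
      rintro ⟨rfl, rfl⟩
      exact hab rfl
  have hdet : IsUnit P.det := by
    have h1 : π P.det = 1 := by
      have h2 : π P.det = (P.map π).det := by
        rw [RingHom.map_det]; rfl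
      rw [h2, hred, Matrix.det_one]
    by_contra h3
    have h4 : P.det ∈ maximalIdeal A := (IsLocalRing.mem_maximalIdeal _).2 h3
    rw [← ker_eq π hπ, RingHom.mem_ker, h1] at h4
    exact one_ne_zero h4
  set M : GL (Fin n) A := Matrix.nonsingInvUnit P hdet with hM
  have hMc : (M : Matrix (Fin n) (Fin n) A) = P := rfl
  refine ⟨M, ?_, ?_⟩
  · apply Units.ext
    rw [Units.val_one, ← hred]
    rfl
  · intro g
    rw [eq_mul_inv_iff_mul_eq]
    apply Units.ext
    rw [Units.val_mul, Units.val_mul, hMc]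
    exact hint g

end

end Pool.Agent.H429.MZQ.TRQN

namespace Pool.Agent.H429.MZQ

theorem trq : J_TRQ := by
  unfold J_TRQ
  intro hB
  unfold S_TRQ
  intro k _ A _ _ π hπ G _ n ρ ρ' h hirr htr
  have h1 := hB k G n ((Matrix.GeneralLinearGroup.map π).comp ρ) hirr
  exact TRQN.core π hπ ρ ρ' h h1 htr

end Pool.Agent.H429.MZQ
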