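import Pool.Agent.H429.MZQ.StmF
import Pool.Graph.R_pool_sql_team_seeded_3997aac3.Q149.AR.SD1

/-!
# Units of the subfields of degree 7 and 3 modulo squares (`S_UNQ`)
-/

set_option autoImplicit false
set_option linter.unusedSectionVars false

namespace Pool.Agent.H429.MZQ

namespace UNQN

open NumberField IsDedekindDomain Module
open Pool.Agent.Q92.AR (Dv prin prin_mul prin_inv prin_one)
open Pool.Agent.Q149.AR (prin_eq_neg_log)
open Pool.Agent.Q5.MZ (KData matA matB)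

section general
variable {F : Type} [Field F] [NumberField F]

/-- a unit which is a square in the field is the square of a unit -/
theorem unit_sq (u : (𝓞 F)ˣ) (h : IsSquare ((u : 𝓞 F) : F)) : ∃ a : (𝓞 F)ˣ, u = a * a := by
  obtain ⟨s, hs⟩ := h
  have hint : IsIntegral ℤ s := by
    have h1 : IsIntegral ℤ (s ^ 2) := by
      rw [sq, ← hs]
      exact RingOfIntegers.isIntegral_coe _
    exact IsIntegral.of_pow (by norm_num) h1
  obtain ⟨s₀, hs₀⟩ : ∃ s₀ : 𝓞 F, (s₀ : F) = s := ⟨⟨s, hint⟩, rfl⟩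
  have h1 : (u : 𝓞 F) = s₀ * s₀ := by
    apply RingOfIntegers.coe_injective
    have h2 : algebraMap (𝓞 F) F (u : 𝓞 F) = s * s := hs
    have h3 : algebraMap (𝓞 F) F s₀ = s := hs₀
    rw [h2, map_mul, h3]
  have hu : IsUnit s₀ := isUnit_of_mul_isUnit_left (h1 ▸ u.isUnit)
  obtain ⟨a, ha⟩ := hu
  exact ⟨a, Units.ext (by rw [h1, Units.val_mul, ha])⟩

theorem fund (hodd : Odd (finrank ℚ F)) (k : ℕ) (hk : Units.rank F = k) :
    ∃ u : Fin k → (𝓞 F)ˣ, ∀ (ζ : (𝓞 F)ˣ) (e : Fin k → ℤ), (ζ = 1 ∨ ζ = -1) →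
      IsSquare (((ζ * ∏ i, u i ^ e i : (𝓞 F)ˣ) : 𝓞 F) : F) → ζ = 1 ∧ ∀ i, Even (e i) := by
  subst hk
  refine ⟨Units.fundSystem F, fun ζ e hζ hsq => ?_⟩
  obtain ⟨a, ha⟩ := unit_sq _ hsq
  obtain ⟨⟨z, m⟩, hzm, _⟩ := Units.exist_unique_eq_mul_prod F a
  have hzm' : a = (z : (𝓞 F)ˣ) * ∏ i, (Units.fundSystem F i) ^ (m i) := hzm
  have hz2 : (z : (𝓞 F)ˣ) * z = 1 := by
    rcases Units.torsion_eq_one_or_neg_one_of_odd_finrank hodd z with h | h
    · rw [h, one_mul]
    · rw [h, neg_mul_neg, one_mul]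
  have hζt : ζ ∈ Units.torsion F := by
    rcases hζ with h | h
    · rw [h]
      exact one_mem _
    · rw [h]
      exact neg_one_mem_torsion
  have h1 : a * a = ((⟨ζ, hζt⟩, e) : Units.torsion F × (Fin (Units.rank F) → ℤ)).1 *
      ∏ i, (Units.fundSystem F i) ^
        (((⟨ζ, hζt⟩, e) : Units.torsion F × (Fin (Units.rank F) → ℤ)).2 i) := ha.symm
  have h2 : a * a = ((1, fun i => 2 * m i) : Units.torsion F × (Fin (Units.rank F) → ℤ)).1 *
      ∏ i, (Units.fundSystem F i) ^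
        (((1, fun i => 2 * m i) : Units.torsion F × (Fin (Units.rank F) → ℤ)).2 i) := by
    show a * a = ((1 : Units.torsion F) : (𝓞 F)ˣ) * ∏ i, (Units.fundSystem F i) ^ (2 * m i)
    rw [OneMemClass.coe_one, one_mul]
    have h3 : ∀ i, (Units.fundSystem F i) ^ (2 * m i) =
        (Units.fundSystem F i) ^ (m i) * (Units.fundSystem F i) ^ (m i) := by
      intro i
      rw [two_mul, zpow_add]
    rw [Finset.prod_congr rfl fun i _ => h3 i, Finset.prod_mul_distrib]
    calc a * a = (z * z : (𝓞 F)ˣ) * ((∏ i, (Units.fundSystem F i) ^ (m i)) *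
          (∏ i, (Units.fundSystem F i) ^ (m i))) := by
            conv_lhs => rw [hzm']
            rw [mul_mul_mul_comm]
      _ = _ := by rw [hz2, one_mul]
  have h4 := (Units.exist_unique_eq_mul_prod F (a * a)).unique h1 h2
  have h5 : ζ = 1 := congrArg (fun y : Units.torsion F × (Fin (Units.rank F) → ℤ) =>
    (y.1 : (𝓞 F)ˣ)) h4
  have h6 : e = fun i => 2 * m i := congrArg (fun y : Units.torsion F × (Fin (Units.rank F) → ℤ) =>
    y.2) h4
  refine ⟨h5, fun i => ?_⟩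
  rw [h6]
  exact ⟨m i, by ring⟩

theorem rank_real [IsTotallyReal F] (n : ℕ) (h : finrank ℚ F = n + 1) : Units.rank F = n := by
  have h1 := IsTotallyReal.finrank (K := F)
  unfold Units.rank
  rw [InfinitePlace.card_eq_nrRealPlaces_add_nrComplexPlaces,
    IsTotallyReal.nrComplexPlaces_eq_zero, ← h1, h]
  rfl

/-- the divisor of an integer which is not in the prime -/
theorem prin_int (x : 𝓞 F) (y : Fˣ) (hxy : (y : F) = (x : F)) (v : HeightOneSpectrum (𝓞 F))
    (hv : x ∉ v.asIdeal) : prin y v = 0 := by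
  rw [prin_eq_neg_log, hxy]
  have h1 : v.valuation F (algebraMap (𝓞 F) F x) = 1 :=
    (HeightOneSpectrum.valuation_eq_one_iff_notMem v).mpr hv
  rw [h1]
  simp

theorem isReal_of_odd (K : Type) [Field K] [NumberField K] [IsGalois ℚ K]
    (h : Odd (finrank ℚ K)) : IsTotallyReal K := by
  have h1 := IsUnramifiedAtInfinitePlaces_of_odd_finrank (k := ℚ) (K := K) h
  refine ⟨fun w => ?_⟩
  have h2 := h1.isUnramified w
  rw [InfinitePlace.isUnramified_iff] at h2
  rcases h2 with h2 | h2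
  · exact h2
  · exfalso
    have h3 : (w.comap (algebraMap ℚ K)).IsReal := by
      rw [Subsingleton.elim (w.comap (algebraMap ℚ K)) Rat.infinitePlace]
      exact Rat.isReal_infinitePlace
    exact (InfinitePlace.not_isReal_iff_isComplex.2 h2) h3

end general

section fixed
variable {K : Type} [Field K] [NumberField K]

/-- an automorphism of odd order which fixes a square fixes the root -/
theorem fix_root (g : K ≃ₐ[ℚ] K) (m : ℕ) (hm : Odd m) (hg : g ^ m = 1) (s : K)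
    (h : g (s * s) = s * s) : g s = s := by
  rw [map_mul] at h
  rcases mul_self_eq_mul_self_iff.mp h with h1 | h1
  · exact h1
  · have h2 : ∀ n : ℕ, (g ^ n) s = (-1) ^ n * s := by
      intro n
      induction n with
      | zero => simp
      | succ n ih =>
        rw [pow_succ', AlgEquiv.mul_apply, ih, map_mul, map_pow, map_neg, map_one, h1]
        ring
    have h3 := h2 m
    rw [hg, AlgEquiv.one_apply, hm.neg_one_pow, neg_one_mul] at h3
    rw [h1]
    exact h3.symm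

/-- the fixed field of an automorphism -/
noncomputable abbrev Fx (g : K ≃ₐ[ℚ] K) : IntermediateField ℚ K :=
  IntermediateField.fixedField (Subgroup.zpowers g)

theorem mem_Fx (g : K ≃ₐ[ℚ] K) (x : K) : x ∈ Fx g ↔ g x = x := by
  unfold Fx
  rw [IntermediateField.mem_fixedField_iff]
  constructor
  · intro h
    exact h g (Subgroup.mem_zpowers g)
  · intro h f hf
    have h1 : g ∈ MulAction.stabilizer (K ≃ₐ[ℚ] K) x := h
    exact (Subgroup.zpowers_le.mpr h1) hf

theorem deg_Fx (g : K ≃ₐ[ℚ] K) : finrank ℚ (Fx g) * orderOf g = finrank ℚ K := by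
  rw [← finrank_mul_finrank ℚ (Fx g) K]
  congr 1
  unfold Fx
  rw [IntermediateField.finrank_fixedField_eq_card, Nat.card_zpowers]

/-- a square root of an element of the fixed field is in the fixed field -/
theorem desc (g : K ≃ₐ[ℚ] K) (m : ℕ) (hm : Odd m) (hg : g ^ m = 1) (x : Fx g)
    (h : IsSquare (algebraMap (Fx g) K x)) : IsSquare x := by
  obtain ⟨s, hs⟩ := h
  have h1 : g (s * s) = s * s := by
    rw [← hs]
    exact (mem_Fx g _).mp x.2
  have h2 := fix_root g m hm hg s h1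
  exact ⟨⟨s, (mem_Fx g s).mpr h2⟩, Subtype.ext hs⟩

end fixed

section two
variable {L : Type} [Field L] [NumberField L]

/-- `2 u` and `u / 2` are not squares in a cubic field, `u` a unit -/
theorem nsq (hL : finrank ℚ L = 3) (w : (𝓞 L)ˣ) (d : ℤ) (hd : d = 1 ∨ d = -1) :
    ¬ IsSquare (((w : 𝓞 L) : L) * (2 : L) ^ d) := by
  rintro ⟨s, hs⟩
  have h1 : |Algebra.norm ℚ ((w : 𝓞 L) : L)| = 1 := Units.norm L w
  rcases hd with rfl | rfl
  · have h2 : Algebra.norm ℚ ((2 : L) ^ (1 : ℤ)) = 8 := by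
      have h3 : ((2 : L) ^ (1 : ℤ)) = algebraMap ℚ L 2 := by
        rw [zpow_one, map_ofNat]
      rw [h3, Algebra.norm_algebraMap, hL]
      norm_num
    have h4 := congrArg (fun y : L => |Algebra.norm ℚ y|) hs
    simp only [map_mul, abs_mul, h1, h2, one_mul] at h4
    rw [abs_mul_abs_self] at h4
    have h5 : IsSquare (8 : ℚ) := ⟨_, by rw [← h4]; norm_num⟩
    revert h5
    norm_num
  · have h2 : Algebra.norm ℚ ((2 : L) ^ (-1 : ℤ)) = 1 / 8 := by
      have h3 : ((2 : L) ^ (-1 : ℤ)) = algebraMap ℚ L (1 / 2) := by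
        rw [zpow_neg_one, one_div, map_inv₀, map_ofNat]
      rw [h3, Algebra.norm_algebraMap, hL]
      norm_num
    have h4 := congrArg (fun y : L => |Algebra.norm ℚ y|) hs
    simp only [map_mul, abs_mul, h1, h2, one_mul] at h4
    rw [abs_mul_abs_self] at h4
    have h5 : IsSquare (1 / 8 : ℚ) := ⟨_, by rw [← h4]; norm_num⟩
    revert h5
    norm_num

end two

section map
variable (F K : Type) [Field F] [NumberField F] [Field K] [NumberField K] [Algebra F K]

/-- the units of `F` in `K` -/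
noncomputable def psi : (𝓞 F)ˣ →* Kˣ :=
  (Units.map (algebraMap F K : F →* K)).comp (Units.map (algebraMap (𝓞 F) F : 𝓞 F →* F))

theorem psi_val (u : (𝓞 F)ˣ) : ((psi F K u : Kˣ) : K) = algebraMap F K ((u : 𝓞 F) : F) := rfl

theorem prin_psi (u : (𝓞 F)ˣ) : prin (psi F K u) = 0 := by
  ext v
  have h1 : IsUnit (algebraMap (𝓞 F) (𝓞 K) (u : 𝓞 F)) := u.isUnit.map _
  refine prin_int (algebraMap (𝓞 F) (𝓞 K) (u : 𝓞 F)) (psi F K u) rfl v ?_
  intro h
  exact v.isPrime.ne_top (Ideal.eq_top_of_isUnit_mem _ h h1)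

end map

section main
variable {K : Type} [Field K] [NumberField K]

/-- the elements of the first family -/
theorem famV (g : K ≃ₐ[ℚ] K) (m : ℕ) (hm : Odd m) (hg : g ^ m = 1) (k : ℕ)
    (u : Fin k → (𝓞 (Fx g))ˣ)
    (hu : ∀ (ζ : (𝓞 (Fx g))ˣ) (e : Fin k → ℤ), (ζ = 1 ∨ ζ = -1) →
      IsSquare (((ζ * ∏ i, u i ^ e i : (𝓞 (Fx g))ˣ) : 𝓞 (Fx g)) : (Fx g)) →
        ζ = 1 ∧ ∀ i, Even (e i)) (ζ : (𝓞 (Fx g))ˣ) (e : Fin k → ℤ) (hζ : ζ = 1 ∨ ζ = -1)
    (h : IsSquare ((psi (Fx g) K (ζ * ∏ i, u i ^ e i) : Kˣ) : K)) :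
    ζ = 1 ∧ ∀ i, Even (e i) := by
  rw [psi_val] at h
  exact hu ζ e hζ (desc g m hm hg _ h)

/-- the product of powers with exponents zero or one -/
noncomputable def pr {k : ℕ} {G : Type} [CommGroup G] (u : Fin k → G) (f : Fin k → Fin 2) : G :=
  ∏ i, u i ^ ((f i : ℕ) : ℤ)

theorem pr_div {k : ℕ} {G : Type} [CommGroup G] (u : Fin k → G) (f f' : Fin k → Fin 2) :
    pr u f / pr u f' = ∏ i, u i ^ (((f i : ℕ) : ℤ) - ((f' i : ℕ) : ℤ)) := by
  unfold pr
  rw [← Finset.prod_div_distrib]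
  refine Finset.prod_congr rfl fun i _ => ?_
  rw [zpow_sub, div_eq_mul_inv]

theorem eq_of_even {k : ℕ} (f f' : Fin k → Fin 2)
    (h : ∀ i, Even (((f i : ℕ) : ℤ) - ((f' i : ℕ) : ℤ))) : f = f' := by
  funext i
  obtain ⟨c, hc⟩ := h i
  apply Fin.ext
  have h1 := (f i).2
  have h2 := (f' i).2
  omega

/-- the signs -/
def sg {G : Type} [One G] [Neg G] (a : Fin 2) : G := if a = 0 then 1 else -1

theorem sg_eq {R : Type} [Ring R] (a a' : Fin 2) :
    (sg a : Rˣ) / sg a' = 1 ∨ (sg a : Rˣ) / sg a' = -1 := by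
  unfold sg
  split_ifs
  · left; rw [div_one]
  · right
    rw [div_eq_iff_eq_mul, neg_mul_neg, one_mul]
  · right; rw [div_one]
  · left; rw [div_self']

theorem sg_inj {R : Type} [Ring R] [CharZero R] (a a' : Fin 2)
    (h : (sg a : Rˣ) / sg a' = 1) : a = a' := by
  have h0 : (1 : Rˣ) ≠ -1 := by
    intro h1
    have h2 := congrArg (fun x : Rˣ => (x : R)) h1
    simp only [Units.val_one, Units.val_neg] at h2
    have h3 : (2 : R) = 0 := by
      calc (2 : R) = 1 + 1 := by norm_num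
        _ = 1 + -1 := by rw [← h2]
        _ = 0 := by norm_num
    exact two_ne_zero h3
  rw [div_eq_one] at h
  unfold sg at h
  by_cases h1 : a = 0
  · by_cases h2 : a' = 0
    · rw [h1, h2]
    · rw [if_pos h1, if_neg h2] at h
      exact absurd h h0
  · by_cases h2 : a' = 0
    · rw [if_neg h1, if_pos h2] at h
      exact absurd h.symm h0
    · omega

theorem ordA (K : Type) [Field K] [NumberField K] (r : (K ≃ₐ[ℚ] K) →* GL (Fin 3) (ZMod 2))
    (hK : KData K r) (σ : K ≃ₐ[ℚ] K)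
    (hσ : ((r σ : GL (Fin 3) (ZMod 2)) : Matrix (Fin 3) (Fin 3) (ZMod 2)) = matA) :
    orderOf σ = 7 := by
  have h1 : (r σ) ^ 7 = 1 := by
    apply Units.ext
    rw [Units.val_pow_eq_pow_val, hσ, Units.val_one]
    decide
  have h2 : σ ^ 7 = 1 := hK.inj (by rw [map_pow, h1, map_one])
  have h3 : σ ≠ 1 := by
    rintro rfl
    rw [map_one, Units.val_one] at hσ
    exact absurd hσ (by decide)
  have : Fact (Nat.Prime 7) := ⟨by norm_num⟩
  exact orderOf_eq_prime h2 h3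

theorem ordB (K : Type) [Field K] [NumberField K] (r : (K ≃ₐ[ℚ] K) →* GL (Fin 3) (ZMod 2))
    (hK : KData K r) (τ : K ≃ₐ[ℚ] K)
    (hτ : ((r τ : GL (Fin 3) (ZMod 2)) : Matrix (Fin 3) (Fin 3) (ZMod 2)) = matB) :
    orderOf τ = 3 := by
  have h1 : (r τ) ^ 3 = 1 := by
    apply Units.ext
    rw [Units.val_pow_eq_pow_val, hτ, Units.val_one]
    decide
  have h2 : τ ^ 3 = 1 := hK.inj (by rw [map_pow, h1, map_one])
  have h3 : τ ≠ 1 := by
    rintro rfl
    rw [map_one, Units.val_one] at hτ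
    exact absurd hτ (by decide)
  have : Fact (Nat.Prime 3) := ⟨by norm_num⟩
  exact orderOf_eq_prime h2 h3

/-- the unit `2` -/
noncomputable def tw (K : Type) [Field K] [NumberField K] : Kˣ := Units.mk0 2 two_ne_zero

theorem prin_tw (K : Type) [Field K] [NumberField K] (n : ℕ) (w : HeightOneSpectrum (𝓞 K))
    (hw : (2 : 𝓞 K) ∉ w.asIdeal) : prin (tw K ^ n) w = 0 := by
  refine prin_int ((2 : 𝓞 K) ^ n) (tw K ^ n) ?_ w (fun h => hw (w.isPrime.mem_of_pow_mem n h))
  show ((tw K ^ n : Kˣ) : K) = algebraMap (𝓞 K) K (2 ^ n)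
  rw [map_pow, map_ofNat, Units.val_pow_eq_pow_val]
  rfl

end main

end UNQN

open UNQN in
open NumberField IsDedekindDomain Module in
/-- **UNQ.** -/
theorem unq : S_UNQ := by
  intro K _ _ r hK σ τ hσ hτ
  have := hK.gal
  have hreal : IsTotallyReal K := isReal_of_odd K (by rw [hK.deg]; decide)
  have hσ7 := ordA K r hK σ hσ
  have hτ3 := ordB K r hK τ hτ
  have hN : finrank ℚ (Fx τ) = 7 := by
    have h := deg_Fx τ
    rw [hτ3, hK.deg] at h
    omega
  have hL : finrank ℚ (Fx σ) = 3 := by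
    have h := deg_Fx σ
    rw [hσ7, hK.deg] at h
    omega
  obtain ⟨u, hu⟩ := fund (F := Fx τ) (by rw [hN]; decide) 6 (rank_real 6 hN)
  obtain ⟨u', hu'⟩ := fund (F := Fx σ) (by rw [hL]; decide) 2 (rank_real 2 hL)
  have hτ1 : τ ^ 3 = 1 := by rw [← hτ3]; exact pow_orderOf_eq_one τ
  have hσ1 : σ ^ 7 = 1 := by rw [← hσ7]; exact pow_orderOf_eq_one σ
  obtain ⟨E6⟩ : Nonempty (Fin 64 ≃ (Fin 6 → Fin 2)) := ⟨Fintype.equivOfCardEq (by simp)⟩
  obtain ⟨E4⟩ : Nonempty (Fin 16 ≃ (Fin 2 × (Fin 2 → Fin 2) × Fin 2)) :=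
    ⟨Fintype.equivOfCardEq (by simp)⟩
  refine ⟨fun i => psi (Fx τ) K (pr u (E6 i)),
    fun j => psi (Fx σ) K (sg (E4 j).1 * pr u' (E4 j).2.1) * tw K ^ ((E4 j).2.2 : ℕ),
    fun i => prin_psi _ _ _, fun j w hw => ?_, fun i => ?_, fun j => ?_, fun i i' hii => ?_,
    fun j j' hjj => ?_⟩
  · rw [Pool.Agent.Q92.AR.prin_mul, Finsupp.add_apply, prin_psi, prin_tw K _ w hw]
    exact ⟨0, rfl⟩
  · rw [psi_val]
    exact (mem_Fx τ _).mp (SetLike.coe_mem _)
  · rw [Units.val_mul, map_mul, psi_val]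
    congr 1
    · exact (mem_Fx σ _).mp (SetLike.coe_mem _)
    · rw [Units.val_pow_eq_pow_val, map_pow]
      congr 1
      exact map_ofNat σ 2
  · have key : ∀ ζ : (𝓞 (Fx τ))ˣ, ζ = 1 ∨ ζ = -1 →
        ¬ IsSquare ((psi (Fx τ) K (ζ * (pr u (E6 i) / pr u (E6 i'))) : Kˣ) : K) := by
      intro ζ hζ h
      rw [pr_div] at h
      obtain ⟨_, h2⟩ := famV τ 3 (by decide) hτ1 6 u hu ζ _ hζ h
      exact hii (E6.injective (eq_of_even _ _ h2))
    constructor
    · intro h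
      refine key 1 (Or.inl rfl) ?_
      rw [one_mul, map_div, Units.val_div_eq_div_val]
      exact h
    · intro h
      refine key (-1) (Or.inr rfl) ?_
      have h1 : ((psi (Fx τ) K (-1) : Kˣ) : K) = -1 := by
        rw [psi_val, Units.val_neg, Units.val_one]
        show algebraMap (Fx τ) K (algebraMap (𝓞 (Fx τ)) (Fx τ) (-1)) = -1
        rw [map_neg, map_one, map_neg, map_one]
      rw [map_mul, Units.val_mul, h1, neg_one_mul, map_div, Units.val_div_eq_div_val]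
      exact h
  · intro h
    obtain ⟨x, hx⟩ : ∃ x : (𝓞 (Fx σ))ˣ, x = (sg (E4 j).1 / sg (E4 j').1) *
        (pr u' (E4 j).2.1 / pr u' (E4 j').2.1) := ⟨_, rfl⟩
    obtain ⟨d, hd⟩ : ∃ d : ℤ, d = (((E4 j).2.2 : ℕ) : ℤ) - (((E4 j').2.2 : ℕ) : ℤ) := ⟨_, rfl⟩
    have h1 : ((psi (Fx σ) K (sg (E4 j).1 * pr u' (E4 j).2.1) * tw K ^ ((E4 j).2.2 : ℕ) : Kˣ) : K) /
        ((psi (Fx σ) K (sg (E4 j').1 * pr u' (E4 j').2.1) * tw K ^ ((E4 j').2.2 : ℕ) : Kˣ) : K) =
        algebraMap (Fx σ) K (((x : 𝓞 (Fx σ)) : Fx σ) * (2 : Fx σ) ^ d) := by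
      rw [← Units.val_div_eq_div_val, mul_div_mul_comm, ← map_div, mul_div_mul_comm, ← hx,
        Units.val_mul, psi_val, map_mul]
      congr 1
      rw [div_eq_mul_inv, ← zpow_natCast, ← zpow_natCast, ← zpow_sub, ← hd,
        Units.val_zpow_eq_zpow_val, map_zpow₀, map_ofNat]
      rfl
    have h2 : IsSquare (((x : 𝓞 (Fx σ)) : Fx σ) * (2 : Fx σ) ^ d) := by
      refine desc σ 7 (by decide) hσ1 _ ?_
      rw [← h1]
      exact h
    have hb1 := (E4 j).2.2.2
    have hb2 := (E4 j').2.2.2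
    by_cases hd0 : d = 0
    · rw [hd0, zpow_zero, mul_one, hx, pr_div] at h2
      obtain ⟨h3, h4⟩ := hu' _ _ (sg_eq _ _) h2
      have h5 := sg_inj _ _ h3
      have h6 := eq_of_even _ _ h4
      have h7 : (E4 j).2.2 = (E4 j').2.2 := by
        apply Fin.ext
        omega
      exact hjj (E4.injective (Prod.ext h5 (Prod.ext h6 h7)))
    · exact nsq hL x d (by omega) h2


end Pool.Agent.H429.MZQ
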