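import Pool.Agent.H429.MZQ.LB
import Pool.Agent.H429.MZQ.LC
import Pool.Agent.H429.MZQ.LD
import Pool.Agent.H429.MZQ.RP
import Pool.Agent.H429.MZQ.DL
import Pool.Agent.H429.MZQ.INF
import Pool.Agent.H429.MZQ.KP
import Pool.Agent.H429.MZQ.AL
import Pool.Agent.H429.MZQ.BE
import Pool.Agent.H429.MZQ.GM
import Pool.Agent.H429.MZQ.KU
import Pool.Agent.H429.MZQ.GA
import Pool.Agent.H429.MZQ.EM
import Pool.Agent.H429.MZQ.FK
import Pool.Agent.H429.MZQ.FU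
import Pool.Agent.H429.MZQ.FO
import Pool.Agent.H429.MZQ.FD
import Pool.Agent.H429.MZQ.FQ
import Pool.Agent.H429.MZQ.FN
import Pool.Agent.H429.MZQ.FL
import Pool.Agent.H429.MZQ.FR
import Pool.Agent.H429.MZQ.FX
import Pool.Agent.H429.MZQ.KYQ
import Pool.Agent.H429.MZQ.CHQ
import Pool.Agent.H429.MZQ.RGQ
import Pool.Agent.H429.MZQ.CTQ
import Pool.Agent.H429.MZQ.ABSQ
import Pool.Agent.H429.MZQ.QRQ
import Pool.Agent.H429.MZQ.BRQ
import Pool.Agent.H429.MZQ.QEQ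
import Pool.Agent.H429.MZQ.QCQ
import Pool.Agent.H429.MZQ.HLQ
import Pool.Agent.H429.MZQ.UNQ
import Pool.Agent.H429.MZQ.TNQ
import Pool.Agent.H429.MZQ.HTQ
import Pool.Agent.H429.MZQ.DEQ
import Pool.Agent.H429.MZQ.AIQ
import Pool.Agent.H429.MZQ.SFQ
import Pool.Agent.H429.MZQ.TRQ
import Pool.Agent.H429.MZQ.FINBQ
import Pool.Agent.H429.MZQ.DIMCQ
import Pool.Agent.H429.MZQ.RESQ
import Pool.Agent.H429.MZU.Burn
import Pool.Agent.H429.MZU.Delta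
import Pool.Graph.R_pool_sql_team_seeded_3997aac3.Q68.MZ.LA
import Pool.Graph.R_pool_sql_team_seeded_3997aac3.Q182.MZ.LF
import Pool.Graph.R_pool_sql_team_seeded_3997aac3.Q285.MZ.LE
import Pool.Graph.R_pool_sql_team_seeded_3997aac3.Q285.MZ.QS
import Pool.Graph.R_pool_sql_team_seeded_3997aac3.Q285.MZ.VE
import Pool.Graph.R_pool_sql_team_seeded_3997aac3.Q238.MZ.BC
import Pool.Graph.R_pool_sql_team_seeded_3997aac3.Q238.MZ.EP
import Pool.Graph.R_pool_sql_team_seeded_3997aac3.Q61.MZ.GB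
import Pool.Graph.R_pool_sql_team_seeded_3997aac3.Q154.MZ.FM
import Pool.Graph.R_pool_sql_team_seeded_3997aac3.Q123.MZ.FP
import Pool.Graph.R_pool_sql_team_seeded_3997aac3.Q38.MZ.FC
import Pool.Graph.R_seed8.W294.MZ.ExFinal

/-!
# Project MZQ (helper429): assembly
-/

set_option autoImplicit false

namespace Pool.Agent.H429.MZQ

open NumberField IsDedekindDomain Module IsLocalRing
open Pool.Agent.Q5.MZ

theorem all_LB : S_LB := lb Pool.Agent.Q68.MZ.la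
theorem all_LD : S_LD := ld Pool.Agent.Q68.MZ.la all_LB lc
theorem all_LF : S_LF := Pool.Agent.Q182.MZ.lf Pool.Agent.Q68.MZ.la all_LD
theorem all_AL : S_AL := al all_LF Pool.Agent.Q285.MZ.le Pool.Agent.Q285.MZ.qs Pool.Agent.Q285.MZ.ve rp
theorem all_BE : S_BE := be all_LF Pool.Agent.Q285.MZ.le Pool.Agent.Q285.MZ.qs Pool.Agent.Q285.MZ.ve rp dl
  Pool.Agent.Q238.MZ.ep inf Pool.Agent.Q238.MZ.bc kp all_AL
theorem all_EM : S_EM := em all_BE gm ku ga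
theorem all_FP : S_FP := Pool.Agent.Q123.MZ.fp fq
theorem all_FN : S_FN := fn fd Pool.Agent.Q154.MZ.fm all_FP
theorem all_FL : S_FL := fl Pool.Agent.Q154.MZ.fm
theorem all_FC : S_FC := Pool.Agent.Q38.MZ.fc all_FN all_FL
theorem all_QR : S_QRQ := qrq Pool.Agent.W178.MZK.K7
theorem all_QE : S_QEQ := qeq brq
theorem all_QC : S_QCQ := qcq Pool.Agent.Q238.MZ.bc Pool.Agent.W178.MZK.K7
theorem all_HL : S_HLQ := hlq all_EM all_QR all_QE all_QC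
theorem all_TN : S_TNQ := tnq ku Pool.Agent.Q61.MZ.gb unq
theorem all_HT : S_HTQ := htq all_TN all_QE all_QR
theorem all_DE : S_DEQ := deq Pool.Agent.W178.MZK.K7 all_QR
theorem all_RG : S_RGQ := rgq chq
theorem all_RT : S_RTQ := rtq all_RG kyq ctq
theorem all_ABS : S_ABSQ := absq all_RT
theorem all_TR : S_TRQ := trq Pool.Agent.H429.MZU.burn
theorem all_FINB : S_FINBQ := finbq all_TR
theorem all_DIMC : S_DIMCQ := dimcq all_FINB

/-- the field `K` of degree 21 with its representation -/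
theorem kdata : ∃ (K : Type) (_ : Field K) (_ : NumberField K) (θ l : K)
    (r : (K ≃ₐ[ℚ] K) →* GL (Fin 3) (ZMod 2)), KF K θ l ∧ KData K r := by
  obtain ⟨K, i1, i2, θ, l, hK⟩ := fk
  have hgal : IsGalois ℚ K := hK.gal
  have hcard : Nat.card (K ≃ₐ[ℚ] K) = 21 := by
    rw [IsGalois.card_aut_eq_finrank ℚ K, hK.deg]
  obtain ⟨r, hr, ha, hb⟩ := fr (K ≃ₐ[ℚ] K) hcard hK.nc
  exact ⟨K, i1, i2, θ, l, r, hK, hK.gal, hK.deg, hr, ha, hb, fo K θ l hK, all_FC K θ l hK, fu K θ l hK⟩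

/-- the result over `ℚ` for the group `GQ` -/
theorem core0 (K : Type) [Field K] [NumberField K] (r : (K ≃ₐ[ℚ] K) →* GL (Fin 3) (ZMod 2))
    (hK : KData K r) (κ : K →ₐ[ℚ] QSm) :
    ∃ rbar : GQ →* GL (Fin 3) (ZMod 2), IsRbar r κ rbar ∧
      IsOpen ((rbar.ker : Subgroup GQ) : Set GQ) ∧ (∀ g, rbar g ^ 21 = 1) ∧
      (∀ s : K ≃ₐ[ℚ] K, ∃ g : GQ, ∀ x, κ (s x) = g (κ x)) ∧ MZ.AbsIrred rbar ∧
      ∀ (R : MZ.CNL 2 (ZMod 2)) (ru : GQ →* GL (Fin 3) R.A), MZ.IsUniversal rbar R ru →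
        5 ≤ ringKrullDim (R.A ⧸ Ideal.span {((2 : ℕ) : R.A)}) := by
  obtain ⟨rbar, hr, ho, hKr, h21, ⟨φ, c, hc, hc2, hrc⟩, hs⟩ := all_DE K r hK κ
  have hirr : MZ.AbsIrred rbar := by
    obtain ⟨σ, hσ⟩ := hK.ma
    obtain ⟨τ, hτ⟩ := hK.mb
    obtain ⟨g, hg⟩ := hs σ
    obtain ⟨g', hg'⟩ := hs τ
    exact aiq GQ rbar ⟨g, by rw [hr g σ hg]; exact hσ⟩ ⟨g', by rw [hr g' τ hg']; exact hτ⟩
  refine ⟨rbar, hr, ho, h21, hs, hirr, ?_⟩
  intro R ru hu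
  exact all_ABS GQ rbar (Kr K κ) c hKr hc2 hrc (all_HL K r hK κ rbar φ c hr hc)
    (all_HT K r hK κ rbar hr) R ru hu

theorem galQ : IsGalois ℚ QSm :=
  haveI : IsAlgClosure ℚ MZ.Om := RESQN.alg_cloQ
  Pool.Agent.W178.MZK.K7 ℚ MZ.Om S438

theorem compQ : CompactSpace GQ := by
  have hcl : IsAlgClosure ℚ MZ.Om := RESQN.alg_cloQ
  have hgal := Pool.Agent.W178.MZK.K7 ℚ MZ.Om S438
  exact inferInstance

theorem two_mem438 (v : HeightOneSpectrum (𝓞 ℚ)) (h : (2 : 𝓞 ℚ) ∈ v.asIdeal) : v ∈ S438 :=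
  sfq.2 v (by exact_mod_cast h)

/-- base change of the result over `ℚ` to a group `H` -/
theorem core1 (K : Type) [Field K] [NumberField K] (r : (K ≃ₐ[ℚ] K) →* GL (Fin 3) (ZMod 2))
    (hK : KData K r) (κ : K →ₐ[ℚ] QSm) (H : Type) [Group H] [TopologicalSpace H] [IsTopologicalGroup H]
    (res : H →* GQ) (hc : Continuous res) (ho : IsOpen (Set.range res))
    (hs : ∀ s : K ≃ₐ[ℚ] K, ∃ g : H, ∀ x, κ (s x) = res g (κ x)) :
    ∃ rbar : H →* GL (Fin 3) (ZMod 2), IsOpen ((rbar.ker : Subgroup H) : Set H) ∧ MZ.AbsIrred rbar ∧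
      (∀ g, rbar g ^ 21 = 1) ∧
      ∀ (R : MZ.CNL 2 (ZMod 2)) (ru : H →* GL (Fin 3) R.A), MZ.IsUniversal rbar R ru →
        5 ≤ ringKrullDim (R.A ⧸ Ideal.span {((2 : ℕ) : R.A)}) := by
  obtain ⟨rbar, hr, hop, h21, -, hirr, hdim⟩ := core0 K r hK κ
  have : IsAlgClosure ℚ MZ.Om := RESQN.alg_cloQ
  have : CompactSpace GQ := compQ
  refine ⟨rbar.comp res, ?_, ?_, fun g => h21 _, ?_⟩
  · have : (((rbar.comp res).ker : Subgroup H) : Set H) = res ⁻¹' ((rbar.ker : Subgroup GQ) : Set GQ) := rfl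
    rw [this]
    exact hop.preimage hc
  · obtain ⟨σ, hσ⟩ := hK.ma
    obtain ⟨τ, hτ⟩ := hK.mb
    obtain ⟨g, hg⟩ := hs σ
    obtain ⟨g', hg'⟩ := hs τ
    refine aiq H (rbar.comp res) ⟨g, ?_⟩ ⟨g', ?_⟩
    · show ((rbar (res g) : GL (Fin 3) (ZMod 2)) : Matrix (Fin 3) (Fin 3) (ZMod 2)) = matA
      rw [hr _ σ hg]; exact hσ
    · show ((rbar (res g') : GL (Fin 3) (ZMod 2)) : Matrix (Fin 3) (Fin 3) (ZMod 2)) = matB
      rw [hr _ τ hg']; exact hτ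
  · intro R' ru' hu'
    obtain ⟨R, ru, hu⟩ := MZEX.stmEx ℚ MZ.Om S438 sfq.1 two_mem438 (ZMod 2) 3 (by norm_num) rbar hop hirr
    exact (hdim R ru hu).trans
      (all_DIMC 2 (ZMod 2) GQ H res 3 rbar hc ho hirr R ru hu R' ru' hu')

end Pool.Agent.H429.MZQ
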