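import Pool.Agent.H429.MZQ.StmH

/-!
# Project MZQ (helper429), part I: inheritance of the failure by tensor products, arbitrary totally real base field
-/

set_option autoImplicit false
set_option linter.unusedSectionVars false

namespace Pool.Agent.H429.MZQ

open NumberField IsDedekindDomain Module IsLocalRing
open Pool.Agent.Q92.AR (Unramified)

/-- JOB DIS3Q.  Common subfields of number fields with disjoint ramification (the core of `S_DISQ`).
Proof.  Let `N ≠ 0` be such that `A` is unramified outside `N` (e.g. the discriminant).  `B` is a subfield of `A` and of `E`;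
ramification indices are multiplicative (`Pool.Agent.Q225.AR.fr` (`S_FR`), or Mathlib), so `B/ℚ` is unramified at all primes: at
`v ∋ N` because `B ⊆ E`, at the others because `B ⊆ A`.  By Minkowski's theorem (Mathlib: `NumberField.abs_discr_gt_two`; a number
field of degree `> 1` has a ramified prime: Mathlib, or the different ideal) `B = ℚ`. -/
def S_DIS3Q : Prop := ∀ (A : Type) [Field A] [NumberField A], ∃ N : ℕ, N ≠ 0 ∧
  ∀ (E : Type) [Field E] [NumberField E],
    (∀ v : HeightOneSpectrum (𝓞 ℚ), ((N : ℕ) : 𝓞 ℚ) ∈ v.asIdeal → Unramified E v) →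
    ∀ (B : Type) [Field B] [NumberField B], Nonempty (B →+* A) → Nonempty (B →+* E) → finrank ℚ B = 1

/-- JOB DJQ.  A representation `ρ` of `G_{F,S}` with open kernel and a Galois number field `E` with disjoint ramification.
Proof.  Let `A ⊆ F_S` be the fixed field of `ker ρ`, a finite extension of `F` (open subgroup), a number field; take `N` from
`S_DIS3Q` for `A`.  Let `E` be given and `ι : E → Ω` an embedding (`Ω` is algebraically closed of characteristic `0`).  `E` is
unramified outside some `N0 ≠ 0`; `S₀ = {v : N0 ∈ v}` (finite).  Let `E' = F ι(E) ⊆ Ω` (intermediate field of `Ω/F`, finite Galois over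
`F`), unramified outside `S₀` (`MZ.UnramifiedOutside`; library project MZ: Q238/MZ/BC.lean, or as in `S_BC` of MZU/Stmts.lean, proved in
MZU/BC.lean, which gives `ι(E) ⊆ FSmax` over `F` from `ι(E) ⊆ FSmax {v : N0 ∈ v}` over `ℚ`, see BRQ.lean for the latter), so
`ι(E) ⊆ MZ.FSmax S'` for `S' ⊇ S₀`.  `res` is the restriction to `F_S ⊆ F_{S'}`: `resGen` in Fin2.lean (continuous, surjective, with the
formula for the restriction).  `resE x` is the restriction of `x` to `ι(E)` (`E/ℚ` is normal), with open kernel.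
Last property: `A ∩ ι(E) = ℚ` (as subfields of `Ω`, by the choice of `N`: a common subfield `B` has degree 1), and `E/ℚ` is Galois, so
the restriction `Gal(Ω/A) → Gal(ι(E)/ℚ)` is onto (its image has fixed field `A ∩ ι(E)`; compare `sur_gen` in MZU/Sur.lean).  Given `g, t`
choose `g' ∈ G_{F,S'}` with `res g' = g`, and `y ∈ Gal(Ω/A)` with `y|E = (resE g')⁻¹ t`; take `x = g' y` (restricted to `F_{S'}`):
`res y` is trivial on `A`, so it is in `ker ρ` (an open, hence closed, subgroup; Galois correspondence). -/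
def S_DJQ : Prop := ∀ (F Ω : Type) [Field F] [NumberField F] [Field Ω] [Algebra F Ω] [IsAlgClosure F Ω]
  (S : Set (HeightOneSpectrum (𝓞 F))) (X : Type) [Group X] (ρ : MZ.GFS Ω S →* X),
  IsOpen (ρ.ker : Set (MZ.GFS Ω S)) →
  ∃ N : ℕ, N ≠ 0 ∧ ∀ (E : Type) [Field E] [NumberField E] [IsGalois ℚ E],
    (∀ v : HeightOneSpectrum (𝓞 ℚ), ((N : ℕ) : 𝓞 ℚ) ∈ v.asIdeal → Unramified E v) →
    ∃ S₀ : Set (HeightOneSpectrum (𝓞 F)), S₀.Finite ∧
      ∀ S' : Set (HeightOneSpectrum (𝓞 F)), S ⊆ S' → S₀ ⊆ S' →
      ∃ (res : MZ.GFS Ω S' →* MZ.GFS Ω S) (resE : MZ.GFS Ω S' →* (E ≃ₐ[ℚ] E)),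
        Continuous res ∧ Function.Surjective res ∧ IsOpen (resE.ker : Set (MZ.GFS Ω S')) ∧
        ∀ (g : MZ.GFS Ω S) (t : E ≃ₐ[ℚ] E), ∃ x : MZ.GFS Ω S', ρ (res x) = ρ g ∧ resE x = t

def J_DJQ : Prop := S_DIS3Q → S_DJQ

end Pool.Agent.H429.MZQ
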