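import Pool.Agent.H429.MZQ.Fin2
import Pool.Agent.H429.MZQ.StmI

/-!
# Project MZQ (helper429): inheritance of the failure by tensor products
-/

set_option autoImplicit false
set_option linter.all false

namespace Pool.Agent.H429.MZQ

open NumberField IsDedekindDomain Module IsLocalRing

/-- the image of `ρ` has odd exponent -/
def OddIm {G X : Type} [Group G] [Group X] (ρ : G →* X) : Prop := ∃ e : ℕ, Odd e ∧ ∀ g, ρ g ^ e = 1

theorem OddIm.inv {G X : Type} [Group G] [Group X] {ρ : G →* X} (h : OddIm ρ) (g : G) (hg : g * g = 1) :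
    ρ g = 1 := by
  obtain ⟨e, ⟨j, rfl⟩, he⟩ := h
  have h1 : ρ g ^ 2 = 1 := by rw [sq, ← map_mul, hg, map_one]
  have h3 := he g
  rw [pow_succ, pow_mul, h1, one_pow, one_mul] at h3
  exact h3

/-- The failure of the conjecture for `ρbar`: it is a datum of the problem (`p = 2`) with odd image, `δ = 1`, it
has a universal deformation ring, and `dim R/2R ≥ N` for every such ring. -/
def Bad (F Ω : Type) [Field F] [NumberField F] [Field Ω] [Algebra F Ω]
    (S : Set (HeightOneSpectrum (𝓞 F))) (k : Type) [Field k] [CharP k 2] (n N : ℕ)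
    (ρbar : MZ.GFS Ω S →* GL (Fin n) k) : Prop :=
  OddIm ρbar ∧ ∃ w : InfinitePlace F → InfinitePlace (MZ.FSmax S : IntermediateField F Ω),
    MZ.IsDatum F Ω S 2 k n ρbar w ∧ MZ.delta S ρbar w = 1 ∧
    (∃ (R : MZ.CNL 2 k) (ρu : MZ.GFS Ω S →* GL (Fin n) R.A), MZ.IsUniversal ρbar R ρu) ∧
    ∀ (R : MZ.CNL 2 k) (ρu : MZ.GFS Ω S →* GL (Fin n) R.A), MZ.IsUniversal ρbar R ρu →
      (N : WithBot ℕ∞) ≤ ringKrullDim (R.A ⧸ Ideal.span {((2 : ℕ) : R.A)})

/-- the tensor product representation -/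
noncomputable def tens {k k' G : Type} [Field k] [Field k'] [Algebra k k'] [Group G] {a b n : ℕ}
    (e : Fin a × Fin b ≃ Fin n) (ρ : G →* GL (Fin a) k) (τ : G →* GL (Fin b) k') : G →* GL (Fin n) k' :=
  MonoidHom.toHomUnits
    { toFun := fun g => Matrix.reindex e e (Matrix.kroneckerMap (fun x y => algebraMap k k' x * y)
        ((ρ g : Matrix (Fin a) (Fin a) k)) ((τ g : Matrix (Fin b) (Fin b) k')))
      map_one' := by
        ext i j
        obtain ⟨i, rfl⟩ := e.surjective i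
        obtain ⟨j, rfl⟩ := e.surjective j
        simp only [map_one, Matrix.reindex_apply, Matrix.submatrix_apply, Equiv.symm_apply_apply,
          Matrix.kroneckerMap_apply, Units.val_one, Matrix.one_apply, EmbeddingLike.apply_eq_iff_eq]
        by_cases h1 : i.1 = j.1 <;> by_cases h2 : i.2 = j.2 <;> simp [h1, h2, Prod.ext_iff]
      map_mul' := by
        intro g h
        ext i j
        obtain ⟨i, rfl⟩ := e.surjective i
        obtain ⟨j, rfl⟩ := e.surjective j
        simp only [map_mul, Matrix.reindex_apply, Matrix.submatrix_apply, Equiv.symm_apply_apply,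
          Matrix.kroneckerMap_apply, Units.val_mul, Matrix.mul_apply]
        rw [map_sum, Finset.sum_mul_sum, ← Finset.sum_product']
        rw [← e.sum_comp]
        refine Finset.sum_congr rfl fun x _ => ?_
        simp only [Equiv.symm_apply_apply, map_mul]
        ring }

theorem tens_isTens {k k' G : Type} [Field k] [Field k'] [Algebra k k'] [Group G] {a b n : ℕ}
    (e : Fin a × Fin b ≃ Fin n) (ρ : G →* GL (Fin a) k) (τ : G →* GL (Fin b) k') :
    IsTens e ρ τ (tens e ρ τ) := by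
  intro g i j
  show Matrix.reindex e e (Matrix.kroneckerMap (fun x y => algebraMap k k' x * y)
        ((ρ g : Matrix (Fin a) (Fin a) k)) ((τ g : Matrix (Fin b) (Fin b) k'))) (e i) (e j) = _
  rw [Matrix.reindex_apply, Matrix.submatrix_apply, Equiv.symm_apply_apply, Equiv.symm_apply_apply,
    Matrix.kroneckerMap_apply]

theorem tens_one {k k' G : Type} [Field k] [Field k'] [Algebra k k'] [Group G] {a b n : ℕ}
    (e : Fin a × Fin b ≃ Fin n) (ρ : G →* GL (Fin a) k) (τ : G →* GL (Fin b) k') (g : G)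
    (h1 : ρ g = 1) (h2 : τ g = 1) : tens e ρ τ g = 1 := by
  apply Units.ext
  ext i j
  obtain ⟨i, rfl⟩ := e.surjective i
  obtain ⟨j, rfl⟩ := e.surjective j
  rw [tens_isTens e ρ τ g i j, h1, h2]
  simp only [Units.val_one, Matrix.one_apply, EmbeddingLike.apply_eq_iff_eq]
  by_cases h1 : i.1 = j.1 <;> by_cases h2 : i.2 = j.2 <;> simp [h1, h2, Prod.ext_iff]

/-- a finite field containing `k` and `𝔽₄` -/
theorem exists_field (k : Type) [Field k] [Finite k] [CharP k 2] :
    ∃ (k' : Type) (_ : Field k') (_ : Finite k') (_ : CharP k' 2) (_ : Algebra k k'),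
      Nonempty (GaloisField 2 2 →+* k') := by
  letI : Algebra (ZMod 2) k := ZMod.algebra k 2
  letI : Algebra (ZMod 2) (AlgebraicClosure k) := ZMod.algebra (AlgebraicClosure k) 2
  let f : GaloisField 2 2 →ₐ[ZMod 2] AlgebraicClosure k := IsAlgClosed.lift
  let L : IntermediateField k (AlgebraicClosure k) := IntermediateField.adjoin k (Set.range f)
  have hfin : (Set.range f).Finite := Set.finite_range f
  haveI : FiniteDimensional k L := by
    refine IntermediateField.finiteDimensional_adjoin (S := Set.range f) ?_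
    intro x hx
    exact Algebra.IsIntegral.isIntegral x
  haveI : Finite L := Module.finite_of_finite k
  haveI : CharP L 2 := charP_of_injective_algebraMap (algebraMap k L).injective 2
  refine ⟨L, inferInstance, inferInstance, inferInstance, inferInstance, ⟨?_⟩⟩
  exact (f.toRingHom).codRestrict L fun x => IntermediateField.subset_adjoin _ _ ⟨x, rfl⟩

theorem absIrred_comp {k G H : Type} [Field k] [Group G] [Group H] {n : ℕ} (ρ : G →* GL (Fin n) k)
    (φ : H →* G) (hφ : Function.Surjective φ) (h : MZ.AbsIrred ρ) : MZ.AbsIrred (ρ.comp φ) := by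
  intro V hV
  refine h V fun g x hx => ?_
  obtain ⟨y, rfl⟩ := hφ g
  exact hV y x hx

/-- extension of the field of coefficients -/
theorem absIrred_map (hT : S_TAIQ) {k k' G : Type} [Field k] [Field k'] [Algebra k k'] [Group G] {n : ℕ}
    (ρ : G →* GL (Fin n) k) (h : MZ.AbsIrred ρ) :
    MZ.AbsIrred ((Matrix.GeneralLinearGroup.map (algebraMap k k')).comp ρ) := by
  let e : Fin n × Fin 1 ≃ Fin n := Equiv.prodUnique (Fin n) (Fin 1)
  refine hT k k' G n 1 n e ρ (1 : G →* GL (Fin 1) k') _ h ?_ (fun g h => ⟨g, rfl, rfl⟩) ?_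
  · intro V _
    by_cases hV : V = ⊥
    · exact Or.inl hV
    · right
      rw [Submodule.eq_top_iff']
      obtain ⟨x, hx, hx0⟩ := Submodule.exists_mem_ne_zero_of_ne_bot hV
      intro y
      have h0 : x 0 ≠ 0 := by
        intro h
        apply hx0
        ext i
        rw [Subsingleton.elim i 0, h]; rfl
      have : y = (y 0 * (x 0)⁻¹) • x := by
        ext i
        rw [Subsingleton.elim i 0, Pi.smul_apply, smul_eq_mul, mul_assoc, inv_mul_cancel₀ h0, mul_one]
      rw [this]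
      exact V.smul_mem _ hx
  · intro g i j
    have h1 : ∀ i : Fin n × Fin 1, e i = i.1 := fun _ => rfl
    have h2 : i.2 = j.2 := Subsingleton.elim _ _
    rw [h1, h1, h2]
    simp

theorem compG (F Ω : Type) [Field F] [NumberField F] [Field Ω] [Algebra F Ω] [IsAlgClosure F Ω]
    (S : Set (HeightOneSpectrum (𝓞 F))) : CompactSpace (MZ.GFS Ω S) := by
  haveI : IsGalois F (MZ.FSmax S : IntermediateField F Ω) := Pool.Agent.W178.MZK.K7 F Ω S
  infer_instance

/-- INHERITANCE. -/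
theorem inherit (hTENS : S_TENSQ) (hTAI : S_TAIQ) (hNT : S_NTQ) (hDJ : S_DJQ) (hDEL : S_DELNQ)
    (F Ω : Type) [Field F] [NumberField F] [Field Ω] [Algebra F Ω] [IsAlgClosure F Ω]
    (hreal : ∀ τ : F →+* ℂ, ComplexEmbedding.IsReal τ)
    (S : Set (HeightOneSpectrum (𝓞 F))) (k : Type) [Field k] [Finite k] [CharP k 2] (n N : ℕ)
    (hn : Odd n) (ρ : MZ.GFS Ω S →* GL (Fin n) k) (hbad : Bad F Ω S k n N ρ) (m : ℕ) (hm : Odd m) :
    ∃ S₀ : Set (HeightOneSpectrum (𝓞 F)), S₀.Finite ∧ ∀ S' : Set (HeightOneSpectrum (𝓞 F)),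
      S'.Finite → S₀ ⊆ S' → ∃ (k' : Type) (_ : Field k') (_ : Finite k') (_ : CharP k' 2)
        (σ : MZ.GFS Ω S' →* GL (Fin (n * m)) k'), Bad F Ω S' k' (n * m) N σ := by
  classical
  haveI : Fact (Nat.Prime 2) := ⟨Nat.prime_two⟩
  obtain ⟨⟨e1, he1, hρe⟩, w, ⟨hn1, hcop, hSf, hS2, hρo, hirr, hw⟩, hδ, ⟨R, ρu, hu⟩, hdim⟩ := hbad
  obtain ⟨N0, hN0, hE⟩ := hDJ F Ω S (GL (Fin n) k) ρ hρo
  obtain ⟨E, iE1, iE2, hgal, hodd, hunr, τ, hτ⟩ := hNT m N0 hm hN0
  obtain ⟨S₀, hS₀, hS'⟩ := hE E hunr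
  obtain ⟨k', ik', iF', iC', iA', ⟨j⟩⟩ := exists_field k
  refine ⟨S ∪ S₀, hSf.union hS₀, fun S' hfin hsub => ?_⟩
  obtain ⟨res, resE, hres, hsur, hEo, hjoint⟩ := hS' S' (Set.subset_union_left.trans hsub)
    (Set.subset_union_right.trans hsub)
  have hm0 : 0 < m := hm.pos
  -- the two representations
  letI : Algebra (GaloisField 2 2) k' := j.toAlgebra
  let ρ' : MZ.GFS Ω S' →* GL (Fin n) k := ρ.comp res
  let τ' : MZ.GFS Ω S' →* GL (Fin m) k' :=
    ((Matrix.GeneralLinearGroup.map (algebraMap (GaloisField 2 2) k')).comp τ).comp resE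
  have hresE : Function.Surjective resE := fun t => by
    obtain ⟨x, -, hx⟩ := hjoint 1 t
    exact ⟨x, hx⟩
  have hρ'irr : MZ.AbsIrred ρ' := absIrred_comp ρ res hsur hirr
  have hτ'irr : MZ.AbsIrred τ' := absIrred_comp _ resE hresE (absIrred_map hTAI τ hτ)
  have hρ'o : IsOpen (ρ'.ker : Set (MZ.GFS Ω S')) := by
    have : (ρ'.ker : Set (MZ.GFS Ω S')) = res ⁻¹' (ρ.ker : Set (MZ.GFS Ω S)) := rfl
    rw [this]
    exact hρo.preimage hres
  have hτ'o : IsOpen (τ'.ker : Set (MZ.GFS Ω S')) := by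
    refine Subgroup.isOpen_mono (H₁ := resE.ker) ?_ hEo
    intro x hx
    rw [MonoidHom.mem_ker] at hx ⊢
    show (Matrix.GeneralLinearGroup.map (algebraMap (GaloisField 2 2) k')) (τ (resE x)) = 1
    rw [hx, map_one, map_one]
  let e : Fin n × Fin m ≃ Fin (n * m) := finProdFinEquiv
  let σ : MZ.GFS Ω S' →* GL (Fin (n * m)) k' := tens e ρ' τ'
  have hσo : IsOpen (σ.ker : Set (MZ.GFS Ω S')) := by
    refine Subgroup.isOpen_mono (H₁ := ρ'.ker ⊓ τ'.ker) ?_ (hρ'o.inter hτ'o)
    intro x hx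
    exact tens_one e ρ' τ' x hx.1 hx.2
  have hσirr : MZ.AbsIrred σ := by
    refine hTAI k k' (MZ.GFS Ω S') n m (n * m) e ρ' τ' σ hρ'irr hτ'irr ?_ (tens_isTens e ρ' τ')
    intro g h
    obtain ⟨x, hx1, hx2⟩ := hjoint (res g) (resE h)
    refine ⟨x, hx1, ?_⟩
    show (Matrix.GeneralLinearGroup.map (algebraMap (GaloisField 2 2) k')) (τ (resE x)) =
      (Matrix.GeneralLinearGroup.map (algebraMap (GaloisField 2 2) k')) (τ (resE h))
    rw [hx2]
  have hσodd : OddIm σ := by
    refine ⟨e1 * finrank ℚ E, he1.mul hodd, fun g => ?_⟩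
    rw [← map_pow]
    apply tens_one
    · rw [map_pow, pow_mul]
      show (ρ (res g) ^ e1) ^ finrank ℚ E = 1
      rw [hρe, one_pow]
    · rw [map_pow, mul_comm, pow_mul]
      have h1 : resE g ^ finrank ℚ E = 1 := by
        rw [← IsGalois.card_aut_eq_finrank ℚ E]
        exact pow_card_eq_one'
      have h2 : τ' g ^ finrank ℚ E = 1 := by
        show (Matrix.GeneralLinearGroup.map (algebraMap (GaloisField 2 2) k')) (τ (resE g)) ^ finrank ℚ E = 1
        rw [← map_pow, ← map_pow, h1, map_one, map_one]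
      rw [h2, one_pow]
  have h2S : ∀ v : HeightOneSpectrum (𝓞 F), (2 : 𝓞 F) ∈ v.asIdeal → v ∈ S' := fun v hv =>
    hsub (Or.inl (hS2 v (by exact_mod_cast hv)))
  have hnm : Odd (n * m) := hn.mul hm
  haveI : Algebra.IsAlgebraic F Ω := IsAlgClosure.isAlgebraic
  haveI : Algebra.IsAlgebraic F (MZ.FSmax S' : IntermediateField F Ω) :=
    Algebra.IsAlgebraic.tower_bot (K := F) (L := (MZ.FSmax S' : IntermediateField F Ω)) (A := Ω)
  obtain ⟨w', hw'⟩ := exists_w F (MZ.FSmax S' : IntermediateField F Ω)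
  haveI hc1 : CompactSpace (MZ.GFS Ω S) := compG F Ω S
  haveI hc2 : CompactSpace (MZ.GFS Ω S') := compG F Ω S'
  refine ⟨k', ik', iF', iC', σ, hσodd, w',
    ⟨hnm.pos, (Nat.coprime_two_left).mpr hnm, hfin, fun v hv => h2S v (by exact_mod_cast hv), hσo, hσirr, hw'⟩,
    hDEL F Ω S' hreal k' (n * m) hnm σ (fun g hg => hσodd.inv g hg) w' hw', ?_, ?_⟩
  · exact MZEX.stmEx F Ω S' hfin h2S k' (n * m) hnm.pos σ hσo hσirr
  · intro R' σu hσu
    obtain ⟨R1, ρ1, hu1⟩ := MZEX.stmEx F Ω S' hfin h2S k n hn.pos ρ' hρ'o hρ'irr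
    have h1 := hdim R ρu hu
    have h2 := all_DIMC 2 k (MZ.GFS Ω S) (MZ.GFS Ω S') res n ρ hres
      (by rw [hsur.range_eq]; exact isOpen_univ) hirr R ρu hu R1 ρ1 hu1
    have h3 := hTENS 2 k k' (MZ.GFS Ω S') n m (n * m) e ρ' τ' σ hτ'o hρ'irr hm0 (tens_isTens e ρ' τ')
      R1 ρ1 hu1 R' σu hσu
    exact h1.trans (h2.trans h3)

end Pool.Agent.H429.MZQ
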