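import Pool.Agent.H429.MZQ.UF

/-!
# Project MZQ (helper429): the results in the form `Bad` / `FailsIn`
-/

set_option autoImplicit false
set_option linter.all false

namespace Pool.Agent.H429.MZQ

open NumberField IsDedekindDomain Module IsLocalRing
open Pool.Agent.Q5.MZ

/-- `F` is totally real -/
def TotR (F : Type) [Field F] : Prop := ∀ τ : F →+* ℂ, ComplexEmbedding.IsReal τ

/-- There is a finite set `S₀` of finite places of `F` such that for every finite `S ⊇ S₀` there are a finite field `k`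
of characteristic 2 and `ρbar : G_{F,S} → GL_n(k)` with `Bad F Ω S k n N ρbar`. -/
def FailsIn (F Ω : Type) [Field F] [NumberField F] [Field Ω] [Algebra F Ω] (n N : ℕ) : Prop :=
  ∃ S₀ : Set (HeightOneSpectrum (𝓞 F)), S₀.Finite ∧ ∀ S : Set (HeightOneSpectrum (𝓞 F)), S.Finite → S₀ ⊆ S →
    ∃ (k : Type) (_ : Field k) (_ : Finite k) (_ : CharP k 2) (ρbar : MZ.GFS Ω S →* GL (Fin n) k),
      Bad F Ω S k n N ρbar

/-- For every finite `S` containing the places above `2`, `3`, `73` there is `ρbar : G_{F,S} → GL_3(𝔽₂)` with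
`Bad F Ω S (ZMod 2) 3 5 ρbar`. -/
def Fails438 (F Ω : Type) [Field F] [NumberField F] [Field Ω] [Algebra F Ω] : Prop :=
  ∀ S : Set (HeightOneSpectrum (𝓞 F)), S.Finite →
    (∀ v : HeightOneSpectrum (𝓞 F), (438 : 𝓞 F) ∈ v.asIdeal → v ∈ S) →
    ∃ ρbar : MZ.GFS Ω S →* GL (Fin 3) (ZMod 2), Bad F Ω S (ZMod 2) 3 5 ρbar

theorem inherit' (hTENS : S_TENSQ) (hTAI : S_TAIQ) (hNT : S_NTQ) (hDJ : S_DJQ) (hDEL : S_DELNQ)
    (F Ω : Type) [Field F] [NumberField F] [Field Ω] [Algebra F Ω] [IsAlgClosure F Ω] (hreal : TotR F)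
    (S : Set (HeightOneSpectrum (𝓞 F))) (k : Type) [Field k] [Finite k] [CharP k 2] (n N : ℕ)
    (ρ : MZ.GFS Ω S →* GL (Fin n) k) (hbad : Bad F Ω S k n N ρ) (m : ℕ) (hm : Odd m) :
    FailsIn F Ω (n * m) N := by
  have hn : Odd n := by
    obtain ⟨-, w, ⟨-, h, -⟩, -⟩ := hbad
    exact (Nat.coprime_two_left).mp h
  exact inherit hTENS hTAI hNT hDJ hDEL F Ω hreal S k n N hn ρ hbad m hm

/-- the finite set of the places above 438 -/
theorem fin438 (F : Type) [Field F] [NumberField F] (a : 𝓞 F) (ha : a ≠ 0) :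
    {v : HeightOneSpectrum (𝓞 F) | a ∈ v.asIdeal}.Finite := by
  have h := Ideal.finite_factors (I := Ideal.span {a}) (by
    rw [Ne, Ideal.zero_eq_bot, Ideal.span_singleton_eq_bot]; exact ha)
  refine h.subset fun v hv => ?_
  show v.asIdeal ∣ Ideal.span {a}
  rw [Ideal.dvd_span_singleton]
  exact hv

theorem of438 (hTENS : S_TENSQ) (hTAI : S_TAIQ) (hNT : S_NTQ) (hDJ : S_DJQ) (hDEL : S_DELNQ)
    (F Ω : Type) [Field F] [NumberField F] [Field Ω] [Algebra F Ω] [IsAlgClosure F Ω] (hreal : TotR F)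
    (h : Fails438 F Ω) (m : ℕ) (hm : Odd m) : FailsIn F Ω (3 * m) 5 := by
  have h438 : (438 : 𝓞 F) ≠ 0 := by norm_num
  obtain ⟨ρ, hρ⟩ := h {v | (438 : 𝓞 F) ∈ v.asIdeal} (fin438 F 438 h438) (fun v hv => hv)
  exact inherit' hTENS hTAI hNT hDJ hDEL F Ω hreal _ (ZMod 2) 3 5 ρ hρ m hm

/-- the conclusion for `F`, `S` from a representation, in the form `Bad` -/
theorem conclB (F Ω : Type) [Field F] [NumberField F] [Field Ω] [Algebra F Ω] [IsAlgClosure F Ω]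
    (hreal : TotR F) (S : Set (HeightOneSpectrum (𝓞 F))) (hS : S.Finite)
    (h438 : ∀ v : HeightOneSpectrum (𝓞 F), (438 : 𝓞 F) ∈ v.asIdeal → v ∈ S)
    (rbar : MZ.GFS Ω S →* GL (Fin 3) (ZMod 2)) (ho : IsOpen (rbar.ker : Set (MZ.GFS Ω S)))
    (hirr : MZ.AbsIrred rbar) (h21 : ∀ g, rbar g ^ 21 = 1)
    (hdim : ∀ (R : MZ.CNL 2 (ZMod 2)) (ru : MZ.GFS Ω S →* GL (Fin 3) R.A), MZ.IsUniversal rbar R ru →
        5 ≤ ringKrullDim (R.A ⧸ Ideal.span {((2 : ℕ) : R.A)})) :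
    Bad F Ω S (ZMod 2) 3 5 rbar := by
  have h2 : ∀ v : HeightOneSpectrum (𝓞 F), (2 : 𝓞 F) ∈ v.asIdeal → v ∈ S := by
    intro v hv
    apply h438
    have : (438 : 𝓞 F) = 219 * 2 := by norm_num
    rw [this]
    exact Ideal.mul_mem_left _ _ hv
  haveI : Algebra.IsAlgebraic F Ω := IsAlgClosure.isAlgebraic
  haveI : Algebra.IsAlgebraic F (MZ.FSmax S : IntermediateField F Ω) :=
    Algebra.IsAlgebraic.tower_bot (K := F) (L := (MZ.FSmax S : IntermediateField F Ω)) (A := Ω)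
  obtain ⟨w, hw⟩ := exists_w F (MZ.FSmax S : IntermediateField F Ω)
  have hodd : OddIm rbar := ⟨21, by decide, h21⟩
  refine ⟨hodd, w, ⟨by norm_num, by norm_num, hS, fun v hv => h2 v (by exact_mod_cast hv), ho, hirr, hw⟩,
    ?_, ?_, fun R ru hu => by exact_mod_cast hdim R ru hu⟩
  · rw [Pool.Agent.H429.MZU.deltaR F Ω S (ZMod 2) rbar (fun g hg => hodd.inv g hg) w hw,
      Pool.Agent.H429.MZU.nrComplex_of_real F hreal]
    norm_num
  · exact MZEX.stmEx F Ω S hS h2 (ZMod 2) 3 (by norm_num) rbar ho hirr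

theorem core2B (K : Type) [Field K] [NumberField K] (r : (K ≃ₐ[ℚ] K) →* GL (Fin 3) (ZMod 2))
    (hK : KData K r) (κ : K →ₐ[ℚ] QSm) (F : IntermediateField ℚ MZ.Om) [NumberField F]
    (hreal : TotR F)
    (hdis : ∀ x : K, ((κ x : QSm) : MZ.Om) ∈ F → ∃ q : ℚ, x = algebraMap ℚ K q) : Fails438 F MZ.Om := by
  intro S hS h438
  have hcl : IsAlgClosure F MZ.Om := RESQN.alg_clo F
  obtain ⟨res, hc, ho, hs⟩ := resq F S h438
  have hgal : IsGalois ℚ K := hK.gal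
  obtain ⟨rbar, hro, hirr, h21, hdim⟩ := core1 K r hK κ (MZ.GFS MZ.Om S) res hc ho (hs K κ hdis)
  exact ⟨rbar, conclB F MZ.Om hreal S hS h438 rbar hro hirr h21 hdim⟩

theorem coreQB (K : Type) [Field K] [NumberField K] (r : (K ≃ₐ[ℚ] K) →* GL (Fin 3) (ZMod 2))
    (hK : KData K r) (κ : K →ₐ[ℚ] QSm) : Fails438 ℚ MZ.Om := by
  intro S hS h438
  have hcl : IsAlgClosure ℚ MZ.Om := RESQN.alg_cloQ
  obtain ⟨res, hc, hsur, -⟩ := resGen ℚ MZ.Om S438 S h438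
  obtain ⟨-, -, -, -, hs, -⟩ := core0 K r hK κ
  obtain ⟨rbar, hro, hirr, h21, hdim⟩ := core1 K r hK κ (MZ.GFS MZ.Om S) res hc
    (by rw [hsur.range_eq]; exact isOpen_univ) (fun s => by
      obtain ⟨g, hg⟩ := hs s
      obtain ⟨g', rfl⟩ := hsur g
      exact ⟨g', hg⟩)
  exact ⟨rbar, conclB ℚ MZ.Om realQ S hS h438 rbar hro hirr h21 hdim⟩

end Pool.Agent.H429.MZQ
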