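import Pool.Agent.H429.MZQ.StmH

/-!
# JOB INDQ: the monomial representation induced from a character (helper249, for helper429)
-/

set_option autoImplicit false
set_option linter.unusedSectionVars false

namespace Pool.Agent.H429.MZQ

open Pool.Agent.Q5.MZ (S438)

namespace INDQN

variable {k : Type} [Field k] {G : Type} [Group G] {m : ℕ} [NeZero m]
  (d : G →* Multiplicative (ZMod m)) (s : G) (ψ : d.ker →* kˣ)

open Classical in
/-- the matrix of `g` -/
noncomputable def Mx (g : G) : Matrix (Fin m) (Fin m) k := fun i j =>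
  if h : (s ^ (i : ℕ))⁻¹ * g * s ^ (j : ℕ) ∈ d.ker then ((ψ ⟨_, h⟩ : kˣ) : k) else 0

variable {d s}

theorem mem_iff (hs : d s = Multiplicative.ofAdd 1) (g : G) (i j : ℕ) :
    (s ^ i)⁻¹ * g * s ^ j ∈ d.ker ↔
      Multiplicative.toAdd (d g) + (j : ZMod m) = (i : ZMod m) := by
  have e : Multiplicative.toAdd ((Multiplicative.ofAdd (1 : ZMod m) ^ i)⁻¹ * d g *
      Multiplicative.ofAdd 1 ^ j) = -(i : ZMod m) + Multiplicative.toAdd (d g) + j := by
    rw [toAdd_mul, toAdd_mul, toAdd_inv, toAdd_pow, toAdd_pow, toAdd_ofAdd, nsmul_eq_mul,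
      nsmul_eq_mul, mul_one, mul_one]
  rw [MonoidHom.mem_ker, map_mul, map_mul, map_inv, map_pow, map_pow, hs,
    ← Multiplicative.toAdd.injective.eq_iff, e, toAdd_one]
  constructor <;> intro h <;> linear_combination h

theorem inj {i j : Fin m} (h : ((i : ℕ) : ZMod m) = ((j : ℕ) : ZMod m)) : i = j := by
  rw [ZMod.natCast_eq_natCast_iff', Nat.mod_eq_of_lt i.2, Nat.mod_eq_of_lt j.2] at h
  exact Fin.ext h

theorem exj (g : G) (i : Fin m) :
    ∃ j : Fin m, Multiplicative.toAdd (d g) + ((j : ℕ) : ZMod m) = ((i : ℕ) : ZMod m) := by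
  refine ⟨⟨(((i : ℕ) : ZMod m) - Multiplicative.toAdd (d g)).val, ZMod.val_lt _⟩, ?_⟩
  show Multiplicative.toAdd (d g) +
    (((((i : ℕ) : ZMod m) - Multiplicative.toAdd (d g)).val : ℕ) : ZMod m) = _
  rw [ZMod.natCast_zmod_val]
  ring

theorem Mx_pos {g : G} {i j : Fin m} (h : (s ^ (i : ℕ))⁻¹ * g * s ^ (j : ℕ) ∈ d.ker) :
    Mx d s ψ g i j = ((ψ ⟨_, h⟩ : kˣ) : k) := dif_pos h

theorem Mx_neg {g : G} {i j : Fin m} (h : ¬ (s ^ (i : ℕ))⁻¹ * g * s ^ (j : ℕ) ∈ d.ker) :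
    Mx d s ψ g i j = 0 := dif_neg h

theorem Mx_one (hs : d s = Multiplicative.ofAdd 1) : Mx d s ψ 1 = 1 := by
  ext i j
  by_cases hij : i = j
  · subst hij
    have e : (s ^ (i : ℕ))⁻¹ * 1 * s ^ (i : ℕ) = 1 := by rw [mul_one, inv_mul_cancel]
    have h : (s ^ (i : ℕ))⁻¹ * 1 * s ^ (i : ℕ) ∈ d.ker := by rw [e]; exact one_mem _
    have h1 : (⟨_, h⟩ : d.ker) = 1 := Subtype.ext e
    rw [Mx_pos ψ h, h1, map_one, Units.val_one, Matrix.one_apply_eq]
  · have h : ¬ (s ^ (i : ℕ))⁻¹ * 1 * s ^ (j : ℕ) ∈ d.ker := by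
      rw [mem_iff hs, map_one, toAdd_one, zero_add]
      exact fun h => hij (inj h.symm)
    rw [Mx_neg ψ h, Matrix.one_apply_ne hij]

theorem Mx_mul (hs : d s = Multiplicative.ofAdd 1) (g g' : G) :
    Mx d s ψ (g * g') = Mx d s ψ g * Mx d s ψ g' := by
  ext i l
  obtain ⟨j, hj⟩ := exj (d := d) g i
  have h1 : (s ^ (i : ℕ))⁻¹ * g * s ^ (j : ℕ) ∈ d.ker := (mem_iff hs g i j).2 hj
  rw [Matrix.mul_apply, Finset.sum_eq_single j]
  · have e : (s ^ (i : ℕ))⁻¹ * (g * g') * s ^ (l : ℕ) =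
        ((s ^ (i : ℕ))⁻¹ * g * s ^ (j : ℕ)) * ((s ^ (j : ℕ))⁻¹ * g' * s ^ (l : ℕ)) := by group
    rw [Mx_pos ψ h1]
    by_cases h2 : (s ^ (j : ℕ))⁻¹ * g' * s ^ (l : ℕ) ∈ d.ker
    · have h3 : (s ^ (i : ℕ))⁻¹ * (g * g') * s ^ (l : ℕ) ∈ d.ker := by
        rw [e]; exact mul_mem h1 h2
      have h4 : (⟨_, h3⟩ : d.ker) = ⟨_, h1⟩ * ⟨_, h2⟩ := Subtype.ext e
      rw [Mx_pos ψ h2, Mx_pos ψ h3, h4, map_mul, Units.val_mul]
    · have h3 : ¬ (s ^ (i : ℕ))⁻¹ * (g * g') * s ^ (l : ℕ) ∈ d.ker := by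
        rw [e]
        intro h
        exact h2 ((Subgroup.mul_mem_cancel_left _ h1).1 h)
      rw [Mx_neg ψ h2, Mx_neg ψ h3, mul_zero]
  · intro j' _ hj'
    have h2 : ¬ (s ^ (i : ℕ))⁻¹ * g * s ^ (j' : ℕ) ∈ d.ker := by
      rw [mem_iff hs]
      intro h
      exact hj' (inj (add_left_cancel (h.trans hj.symm)))
    rw [Mx_neg ψ h2, zero_mul]
  · intro h
    exact absurd (Finset.mem_univ j) h

/-- the representation -/
noncomputable def rep (hs : d s = Multiplicative.ofAdd 1) : G →* Matrix.GeneralLinearGroup (Fin m) k :=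
  MonoidHom.toHomUnits
    { toFun := Mx d s ψ
      map_one' := Mx_one ψ hs
      map_mul' := Mx_mul ψ hs }

theorem rep_coe (hs : d s = Multiplicative.ofAdd 1) (g : G) :
    ((rep ψ hs g : Matrix.GeneralLinearGroup (Fin m) k) : Matrix (Fin m) (Fin m) k) =
      Mx d s ψ g := rfl

/-- the diagonal entries on the kernel -/
theorem diag (hs : d s = Multiplicative.ofAdd 1) {h : G} (hh : h ∈ d.ker) {i j : Fin m}
    (hij : i ≠ j) : Mx d s ψ h i j = 0 := by
  refine Mx_neg ψ ?_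
  rw [mem_iff hs, MonoidHom.mem_ker.1 hh, toAdd_one, zero_add]
  exact fun h' => hij (inj h'.symm)

theorem conj_mem {h : G} (hh : h ∈ d.ker) (i : ℕ) : (s ^ i)⁻¹ * h * s ^ i ∈ d.ker := by
  have := (MonoidHom.normal_ker d).conj_mem h hh (s ^ i)⁻¹
  rwa [inv_inv] at this

/-- the characters are different -/
theorem sep (H : ∀ i : ℕ, 0 < i → i < m → ∃ h h' : d.ker,
      (h' : G) = (s ^ i)⁻¹ * (h : G) * s ^ i ∧ ψ h' ≠ ψ h) {i j : Fin m} (hij : i < j) :
    ∃ h ∈ d.ker, Mx d s ψ h i i ≠ Mx d s ψ h j j := by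
  have hij' : (i : ℕ) < j := hij
  obtain ⟨h, h', e, hne⟩ := H (j - i) (by omega) (by omega)
  have hm : s ^ (i : ℕ) * (h : G) * (s ^ (i : ℕ))⁻¹ ∈ d.ker :=
    (MonoidHom.normal_ker d).conj_mem h h.2 (s ^ (i : ℕ))
  refine ⟨s ^ (i : ℕ) * (h : G) * (s ^ (i : ℕ))⁻¹, hm, ?_⟩
  have e1 : (s ^ (i : ℕ))⁻¹ * (s ^ (i : ℕ) * (h : G) * (s ^ (i : ℕ))⁻¹) * s ^ (i : ℕ) = h := by
    group
  have e2 : (s ^ (j : ℕ))⁻¹ * (s ^ (i : ℕ) * (h : G) * (s ^ (i : ℕ))⁻¹) * s ^ (j : ℕ) = h' := by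
    rw [e]
    have e3 : s ^ (j : ℕ) = s ^ (i : ℕ) * s ^ ((j : ℕ) - i) := by
      rw [← pow_add, Nat.add_sub_cancel' hij'.le]
    rw [e3]
    group
  have f1 : (⟨_, conj_mem hm i⟩ : d.ker) = h := Subtype.ext e1
  have f2 : (⟨_, conj_mem hm j⟩ : d.ker) = h' := Subtype.ext e2
  rw [Mx_pos ψ (conj_mem hm i), Mx_pos ψ (conj_mem hm j), f1, f2]
  exact fun hh => hne (Units.ext hh).symm

theorem sep' (H : ∀ i : ℕ, 0 < i → i < m → ∃ h h' : d.ker,
      (h' : G) = (s ^ i)⁻¹ * (h : G) * s ^ i ∧ ψ h' ≠ ψ h) {i j : Fin m} (hij : i ≠ j) :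
    ∃ h ∈ d.ker, Mx d s ψ h i i ≠ Mx d s ψ h j j := by
  rcases lt_or_gt_of_ne hij with h | h
  · exact sep ψ H h
  · obtain ⟨x, hx, hne⟩ := sep ψ H h
    exact ⟨x, hx, hne.symm⟩

section irr

variable {K : Type} [Field K] [Algebra k K]

/-- the action on the vectors over an extension field -/
theorem diag_mulVec (hs : d s = Multiplicative.ofAdd 1) {h : G} (hh : h ∈ d.ker) (x : Fin m → K)
    (i : Fin m) : ((Mx d s ψ h).map (algebraMap k K)).mulVec x i =
      algebraMap k K (Mx d s ψ h i i) * x i := by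
  show ∑ j, algebraMap k K (Mx d s ψ h i j) * x j = _
  rw [Finset.sum_eq_single i]
  · intro j _ hj
    rw [diag ψ hs hh hj.symm, map_zero, zero_mul]
  · intro h'
    exact absurd (Finset.mem_univ i) h'

open Classical in
/-- a nonzero stable subspace contains a coordinate vector -/
theorem exists_single (hs : d s = Multiplicative.ofAdd 1)
    (H : ∀ i : ℕ, 0 < i → i < m → ∃ h h' : d.ker,
      (h' : G) = (s ^ i)⁻¹ * (h : G) * s ^ i ∧ ψ h' ≠ ψ h)
    (V : Submodule K (Fin m → K))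
    (hV : ∀ g, ∀ x ∈ V, ((Mx d s ψ g).map (algebraMap k K)).mulVec x ∈ V) :
    ∀ n : ℕ, ∀ x ∈ V, x ≠ 0 → (Finset.univ.filter fun i => x i ≠ 0).card ≤ n →
      ∃ i, Pi.single i (1 : K) ∈ V := by
  intro n
  induction n with
  | zero =>
    intro x _ hx0 hc
    exfalso
    apply hx0
    funext i
    by_contra hi
    have : i ∈ Finset.univ.filter fun i => x i ≠ 0 := Finset.mem_filter.2 ⟨Finset.mem_univ i, hi⟩
    rw [Nat.le_zero, Finset.card_eq_zero] at hc
    rw [hc] at this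
    exact absurd this (Finset.notMem_empty i)
  | succ n ih =>
    intro x hx hx0 hc
    obtain ⟨i, hi⟩ : ∃ i, x i ≠ 0 := by
      by_contra h
      push Not at h
      exact hx0 (funext h)
    by_cases hj : ∃ j, j ≠ i ∧ x j ≠ 0
    · obtain ⟨j, hji, hj⟩ := hj
      obtain ⟨h, hh, hne⟩ := sep' ψ H hji
      let y : Fin m → K := ((Mx d s ψ h).map (algebraMap k K)).mulVec x -
        algebraMap k K (Mx d s ψ h i i) • x
      have hy : y ∈ V := V.sub_mem (hV h x hx) (V.smul_mem _ hx)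
      have hyl : ∀ l, y l = (algebraMap k K (Mx d s ψ h l l) - algebraMap k K (Mx d s ψ h i i)) * x l := by
        intro l
        show ((Mx d s ψ h).map (algebraMap k K)).mulVec x l -
          algebraMap k K (Mx d s ψ h i i) * x l = _
        rw [diag_mulVec ψ hs hh]
        ring
      have hyj : y j ≠ 0 := by
        rw [hyl]
        refine mul_ne_zero ?_ hj
        rw [sub_ne_zero]
        exact fun he => hne ((algebraMap k K).injective he)
      refine ih y hy (fun h0 => hyj (by rw [h0]; rfl)) ?_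
      have hsub : (Finset.univ.filter fun l => y l ≠ 0) ⊂ Finset.univ.filter fun l => x l ≠ 0 := by
        refine Finset.ssubset_iff_of_subset (fun l hl => ?_) |>.2 ⟨i, ?_, ?_⟩
        · rw [Finset.mem_filter] at hl ⊢
          refine ⟨hl.1, fun h0 => hl.2 ?_⟩
          rw [hyl, h0, mul_zero]
        · exact Finset.mem_filter.2 ⟨Finset.mem_univ i, hi⟩
        · intro hmem
          refine (Finset.mem_filter.1 hmem).2 ?_
          rw [hyl, sub_self, zero_mul]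
      have := Finset.card_lt_card hsub
      omega
    · push Not at hj
      refine ⟨i, ?_⟩
      have he : Pi.single i (1 : K) = (x i)⁻¹ • x := by
        funext l
        by_cases hl : l = i
        · subst hl
          rw [Pi.single_eq_same, Pi.smul_apply, smul_eq_mul, inv_mul_cancel₀ hi]
        · rw [Pi.single_eq_of_ne hl, Pi.smul_apply, hj l hl, smul_zero]
      rw [he]
      exact V.smul_mem _ hx

/-- the coordinate lines are permuted transitively -/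
theorem single_all (hs : d s = Multiplicative.ofAdd 1) (V : Submodule K (Fin m → K))
    (hV : ∀ g, ∀ x ∈ V, ((Mx d s ψ g).map (algebraMap k K)).mulVec x ∈ V) (i : Fin m)
    (hi : Pi.single i (1 : K) ∈ V) (j : Fin m) : Pi.single j (1 : K) ∈ V := by
  have h := hV (s ^ (j : ℕ) * (s ^ (i : ℕ))⁻¹) _ hi
  rw [Matrix.mulVec_single_one] at h
  have e : ((Mx d s ψ (s ^ (j : ℕ) * (s ^ (i : ℕ))⁻¹)).map (algebraMap k K)).col i =
      Pi.single j (1 : K) := by
    funext l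
    show algebraMap k K (Mx d s ψ (s ^ (j : ℕ) * (s ^ (i : ℕ))⁻¹) l i) = _
    by_cases hl : l = j
    · subst hl
      have e1 : (s ^ (l : ℕ))⁻¹ * (s ^ (l : ℕ) * (s ^ (i : ℕ))⁻¹) * s ^ (i : ℕ) = 1 := by group
      have h1 : (s ^ (l : ℕ))⁻¹ * (s ^ (l : ℕ) * (s ^ (i : ℕ))⁻¹) * s ^ (i : ℕ) ∈ d.ker := by
        rw [e1]; exact one_mem _
      have h2 : (⟨_, h1⟩ : d.ker) = 1 := Subtype.ext e1
      rw [Mx_pos ψ h1, h2, map_one, Units.val_one, map_one, Pi.single_eq_same]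
    · have h1 : ¬ (s ^ (l : ℕ))⁻¹ * (s ^ (j : ℕ) * (s ^ (i : ℕ))⁻¹) * s ^ (i : ℕ) ∈ d.ker := by
        have e1 : (s ^ (l : ℕ))⁻¹ * (s ^ (j : ℕ) * (s ^ (i : ℕ))⁻¹) * s ^ (i : ℕ) =
            (s ^ (l : ℕ))⁻¹ * 1 * s ^ (j : ℕ) := by group
        rw [e1, mem_iff hs, map_one, toAdd_one, zero_add]
        exact fun h' => hl (inj h'.symm)
      rw [Mx_neg ψ h1, map_zero, Pi.single_eq_of_ne hl]
  rw [e] at h
  exact h

end irr

end INDQN

open INDQN in
theorem indq : S_INDQ := by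
  intro k _ G _ m _ d s ψ hs H
  refine ⟨rep ψ hs, ?_, ?_⟩
  · intro V hV
    have hV' : ∀ g, ∀ x ∈ V,
        ((Mx d s ψ g).map (algebraMap k (AlgebraicClosure k))).mulVec x ∈ V := hV
    rcases eq_or_ne V ⊥ with h | h
    · exact Or.inl h
    · refine Or.inr ?_
      obtain ⟨x, hx, hx0⟩ := V.ne_bot_iff.1 h
      obtain ⟨i, hi⟩ := exists_single ψ hs H V hV' _ x hx hx0 le_rfl
      rw [Submodule.eq_top_iff']
      intro y
      have hy : y = ∑ j, y j • Pi.single j (1 : AlgebraicClosure k) := pi_eq_sum_univ' y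
      rw [hy]
      exact V.sum_mem fun j _ => V.smul_mem _ (single_all ψ hs V hV' i hi j)
  · intro N hN hNψ g hg
    rw [MonoidHom.mem_ker]
    refine Units.ext ?_
    rw [rep_coe]
    obtain ⟨hgd, _⟩ := hNψ g hg
    ext i j
    by_cases hij : i = j
    · subst hij
      have h1 : (s ^ (i : ℕ))⁻¹ * g * s ^ (i : ℕ) ∈ N := by
        have := hN.conj_mem g hg (s ^ (i : ℕ))⁻¹
        rwa [inv_inv] at this
      obtain ⟨h2, h3⟩ := hNψ _ h1
      rw [Mx_pos ψ h2, h3]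
      exact (Matrix.one_apply_eq i).symm
    · rw [diag ψ hs hgd hij]
      exact (Matrix.one_apply_ne hij).symm

end Pool.Agent.H429.MZQ
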