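import Pool.Agent.H429.MZQ.StmH
import Pool.Graph.R_pool_sql_team_seeded_3997aac3.Q238.MZ.Inr
import Pool.Graph.R_pool_sql_team_seeded_3997aac3.Q285.MZ.VE

/-!
# Project MZQ, job NTQ: an odd Galois extension of `ℚ` with an absolutely irreducible
representation of odd dimension `m` over the field with four elements
-/

set_option autoImplicit false
set_option linter.unusedSectionVars false

namespace Pool.Agent.H429.MZQ

open NumberField IsDedekindDomain Module IsLocalRing
open Pool.Agent.Q92.AR (Unramified)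
open Pool.Agent.Q238.MZ (InrAt inr_trivial unr_of_inr inr_res)

namespace NTQN

/-- `y` is a root of the cubic polynomial with the parameter `c` -/
def Cub {L : Type} [Field L] (c y : L) : Prop := y ^ 3 - c * y ^ 2 - (c + 3) * y - 1 = 0

theorem Cub.map {L L' : Type} [Field L] [Field L'] (f : L →+* L') {c y : L} (h : Cub c y) :
    Cub (f c) (f y) := by
  unfold Cub at h ⊢
  have h1 := congrArg f h
  rw [map_sub, map_sub, map_sub, map_mul, map_mul, map_pow, map_pow, map_add, map_ofNat, map_one,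
    map_zero] at h1
  exact h1

section field

open Polynomial

/-- the cubic polynomial -/
noncomputable def cp {M : Type} [Field M] (c : M) : M[X] := X ^ 3 - C c * X ^ 2 - C (c + 3) * X - 1

theorem cp_degree {M : Type} [Field M] (c : M) : (cp c).degree = 3 := by
  unfold cp
  compute_degree!

theorem aeval_cp {M L : Type} [Field M] [Field L] [Algebra M L] (c : M) (y : L) :
    aeval y (cp c) = 0 ↔ Cub (algebraMap M L c) y := by
  unfold cp Cub
  simp only [map_sub, map_mul, map_pow, aeval_X, aeval_C, map_add, map_ofNat, map_one]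

theorem exists_root (M : Type) [Field M] (a : M) : ∃ (L : Type) (_ : Field L) (_ : Algebra M L),
    Algebra.IsAlgebraic M L ∧ ∃ x₀ : L, aeval x₀ (cp a) = 0 := by
  refine ⟨AlgebraicClosure M, inferInstance, inferInstance, inferInstance, ?_⟩
  refine IsAlgClosed.exists_aeval_eq_zero _ _ ?_
  rw [cp_degree]
  norm_num

theorem exists_split (M : Type) [Field M] (f : M[X]) : ∃ (L : Type) (_ : Field L)
    (_ : Algebra M L), f.IsSplittingField M L :=
  ⟨f.SplittingField, inferInstance, inferInstance, inferInstance⟩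

theorem exists_split_rat (M : Type) [Field M] [NumberField M] [IsGalois ℚ M] :
    ∃ p : ℚ[X], p ≠ 0 ∧ p.IsSplittingField ℚ M := by
  obtain ⟨p, hp⟩ := Normal.exists_isSplittingField ℚ M
  by_cases h0 : p = 0
  · refine ⟨1, one_ne_zero, ⟨?_, ?_⟩⟩
    · rw [Polynomial.map_one]
      exact Polynomial.Splits.one
    · have h1 := hp.adjoin_rootSet'
      rw [h0, rootSet_zero] at h1
      rw [rootSet_one]
      exact h1
  · exact ⟨p, h0, hp⟩

theorem fld (M : Type) [Field M] [NumberField M] [IsGalois ℚ M] (a : M) :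
    ∃ (E : Type) (_ : Field E) (_ : NumberField E) (_ : Algebra M E),
      IsGalois ℚ E ∧ (∃ x : E, Cub (algebraMap M E a) x) ∧
      ∀ h : E ≃ₐ[M] E,
        (∀ (g : M ≃ₐ[ℚ] M) (y : E), Cub (algebraMap M E (g a)) y → h y = y) → h = 1 := by
  classical
  obtain ⟨p, hp0, hp⟩ := exists_split_rat M
  obtain ⟨L, _, _, hLalg, x₀, hx₀⟩ := exists_root M a
  have hcL : CharZero L := charZero_of_injective_algebraMap (algebraMap M L).injective
  have hxM : IsIntegral M x₀ := Algebra.IsIntegral.isIntegral x₀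
  have hxQ : IsIntegral ℚ x₀ := isIntegral_trans (R := ℚ) (A := M) x₀ hxM
  obtain ⟨F₀, hF₀⟩ : ∃ F₀ : ℚ[X], F₀ = minpoly ℚ x₀ := ⟨_, rfl⟩
  have hF₀i : Irreducible F₀ := by rw [hF₀]; exact minpoly.irreducible hxQ
  have hF₀m : F₀.Monic := by rw [hF₀]; exact minpoly.monic hxQ
  obtain ⟨E, _, _, hE⟩ := exists_split M (F₀.map (algebraMap ℚ M))
  have hcE : CharZero E := charZero_of_injective_algebraMap (algebraMap M E).injective
  have hfin : FiniteDimensional M E := Polynomial.IsSplittingField.finiteDimensional E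
    (F₀.map (algebraMap ℚ M))
  have hnf : NumberField E := NumberField.of_module_finite M E
  have hsplit : (p * F₀).IsSplittingField ℚ E :=
    Polynomial.IsSplittingField.mul (K := M) E p F₀ hp0 hF₀i.ne_zero
  have hnorm : Normal ℚ E := Normal.of_isSplittingField (p * F₀)
  have hgal : IsGalois ℚ E := ⟨⟩
  -- a root of the cubic polynomial
  have hq1 : minpoly M x₀ ∣ F₀.map (algebraMap ℚ M) := by
    rw [hF₀]
    exact minpoly.dvd_map_of_isScalarTower ℚ M x₀
  have hq2 : minpoly M x₀ ∣ cp a := minpoly.dvd M x₀ hx₀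
  obtain ⟨x, hx⟩ : ∃ x : E, aeval x (minpoly M x₀) = 0 := by
    have h1 : ((minpoly M x₀).map (algebraMap M E)).Splits :=
      hE.splits'.of_dvd (by
        rw [Ne, Polynomial.map_eq_zero, Polynomial.map_eq_zero]
        exact hF₀i.ne_zero) (Polynomial.map_dvd _ hq1)
    obtain ⟨x, hx⟩ := h1.exists_eval_eq_zero (by
      rw [degree_map]
      exact (minpoly.degree_pos hxM).ne')
    exact ⟨x, by rw [aeval_def, eval₂_eq_eval_map]; exact hx⟩
  have hx1 : Cub (algebraMap M E a) x := by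
    rw [← aeval_cp]
    obtain ⟨r, hr⟩ := hq2
    rw [hr, map_mul, hx, zero_mul]
  have hroot : ∀ y : E, aeval y F₀ = 0 → minpoly ℚ y = F₀ := fun y hy =>
    (minpoly.eq_of_irreducible_of_monic hF₀i hy hF₀m).symm
  have hx2 : aeval x F₀ = 0 := by
    obtain ⟨r, hr⟩ := hq1
    rw [← aeval_map_algebraMap M x F₀, hr, map_mul, hx, zero_mul]
  refine ⟨E, inferInstance, hnf, inferInstance, hgal, ⟨x, hx1⟩, ?_⟩
  intro h hh
  have hfix : ∀ y ∈ (F₀.map (algebraMap ℚ M)).rootSet E, h y = y := by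
    intro y hy
    rw [mem_rootSet] at hy
    have hy2 : aeval y F₀ = 0 := by
      rw [← aeval_map_algebraMap M y F₀]
      exact hy.2
    have hconj : IsConjRoot ℚ y x := by
      change minpoly ℚ y = minpoly ℚ x
      rw [hroot y hy2, hroot x hx2]
    obtain ⟨τ, hτ⟩ := isConjRoot_iff_exists_algEquiv.1 hconj
    refine hh (τ.restrictNormal M) y ?_
    have h1 := Cub.map (τ : E →+* E) hx1
    have h2 : (τ : E →+* E) x = y := hτ
    have h3 : (τ : E →+* E) (algebraMap M E a) = algebraMap M E (τ.restrictNormal M a) :=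
      (AlgEquiv.restrictNormal_commutes τ M a).symm
    rw [h2, h3] at h1
    exact h1
  have hadj := Polynomial.IsSplittingField.adjoin_rootSet E (F₀.map (algebraMap ℚ M))
  apply AlgEquiv.ext
  intro z
  have hz : z ∈ Algebra.adjoin M ((F₀.map (algebraMap ℚ M)).rootSet E) := by
    rw [hadj]
    exact Algebra.mem_top
  rw [AlgEquiv.one_apply]
  induction hz using Algebra.adjoin_induction with
  | mem y hy => exact hfix y hy
  | algebraMap r => exact h.commutes r
  | add y z _ _ hy hz => rw [map_add, hy, hz]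
  | mul y z _ _ hy hz => rw [map_mul, hy, hz]

end field

section conj

variable {M : Type} [Field M] [NumberField M]

/-- the conjugate of an integer -/
noncomputable def ga (g : M ≃ₐ[ℚ] M) (a : 𝓞 M) : 𝓞 M :=
  ⟨g (a : M), (RingOfIntegers.isIntegral_coe a).map (g.toAlgHom.restrictScalars ℤ)⟩

theorem ga_coe (g : M ≃ₐ[ℚ] M) (a : 𝓞 M) : ((ga g a : 𝓞 M) : M) = g (a : M) := rfl

theorem ga_dd (g : M ≃ₐ[ℚ] M) (a : 𝓞 M) :
    ((ga g a ^ 2 + 3 * ga g a + 9 : 𝓞 M) : M) = g ((a ^ 2 + 3 * a + 9 : 𝓞 M) : M) := by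
  simp only [map_add, map_mul, map_pow, map_ofNat, ga_coe]

theorem dd_ne (g : M ≃ₐ[ℚ] M) (a : 𝓞 M) (h : a ^ 2 + 3 * a + 9 ≠ 0) :
    ga g a ^ 2 + 3 * ga g a + 9 ≠ 0 := by
  intro h1
  apply h
  have h2 := ga_dd g a
  rw [h1] at h2
  have h0 : (0 : M) = g ((a ^ 2 + 3 * a + 9 : 𝓞 M) : M) := h2
  have h3 : ((a ^ 2 + 3 * a + 9 : 𝓞 M) : M) = 0 := (map_eq_zero g).1 h0.symm
  exact RingOfIntegers.ext h3

end conj

section ext

variable {M E : Type} [Field M] [NumberField M] [Field E] [NumberField E] [Algebra M E]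

/-- an automorphism which fixes `M` -/
noncomputable def toM (g : E ≃ₐ[ℚ] E) (hg : ∀ c : M, g (algebraMap M E c) = algebraMap M E c) :
    E ≃ₐ[M] E :=
  AlgEquiv.ofRingEquiv (f := g.toRingEquiv) hg

theorem toM_apply (g : E ≃ₐ[ℚ] E) (hg : ∀ c : M, g (algebraMap M E c) = algebraMap M E c) (x : E) :
    toM g hg x = g x := rfl

variable [IsGalois ℚ M]

theorem fix_of_res (g : E ≃ₐ[ℚ] E) (hg : AlgEquiv.restrictNormalHom M g = 1) (c : M) :
    g (algebraMap M E c) = algebraMap M E c := by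
  have h1 : g.restrictNormal M = 1 := hg
  rw [← AlgEquiv.restrictNormal_commutes g M c, h1]
  rfl

/-- the kernel of a homomorphism through `Gal(M/ℚ)` -/
noncomputable def kerHom {m : ℕ} (d : (E ≃ₐ[ℚ] E) →* Multiplicative (ZMod m))
    (hd : ∀ g, d g = 1 → AlgEquiv.restrictNormalHom M g = 1) : d.ker →* (E ≃ₐ[M] E) where
  toFun g := toM g.1 (fix_of_res g.1 (hd g.1 g.2))
  map_one' := AlgEquiv.ext fun _ => rfl
  map_mul' _ _ := AlgEquiv.ext fun _ => rfl

theorem kerHom_apply {m : ℕ} (d : (E ≃ₐ[ℚ] E) →* Multiplicative (ZMod m))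
    (hd : ∀ g, d g = 1 → AlgEquiv.restrictNormalHom M g = 1) (g : d.ker) (x : E) :
    kerHom d hd g x = g.1 x := rfl

theorem inIn_of_inrAt {w : HeightOneSpectrum (𝓞 E)} {g : E ≃ₐ[ℚ] E} (h : InrAt w g)
    (hg : ∀ c : M, g (algebraMap M E c) = algebraMap M E c) : InIn w (toM g hg) := by
  intro x y hy
  obtain ⟨z, hz, hzx⟩ := h x
  have h1 : y - x = z := by
    apply RingOfIntegers.ext
    rw [hzx]
    change (y : E) - (x : E) = _
    rw [hy]
    rfl
  rw [h1]
  exact hz

end ext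

theorem two_three : ∀ t : Multiplicative (ZMod 3), t ^ 2 = 1 → t = 1 := by decide

theorem card_units : Nat.card (GaloisField 2 2)ˣ = 3 := by
  rw [Nat.card_units, GaloisField.card 2 2 (by norm_num)]
  norm_num

end NTQN

open NTQN in
theorem ntq : J_NTQ := by
  classical
  intro hind hcub hcyc m N hm hN
  obtain ⟨M, _, _, σ, Q, a, hgalM, hfr, hσ, hunr, h3, hDQ, hDQ2, hconjQ, hconjN⟩ := hcyc m N hm hN
  obtain ⟨E, _, _, _, hgalE, ⟨x, hx⟩, hfix⟩ := fld M (a : M)
  have hgalME : IsGalois M E := IsGalois.tower_top_of_isGalois ℚ M E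
  have hD0 : a ^ 2 + 3 * a + 9 ≠ 0 := by
    intro h
    apply hDQ2
    rw [h]
    exact Ideal.zero_mem _
  have hC : ∀ (g : M ≃ₐ[ℚ] M) (y : E), Cub (algebraMap M E (g (a : M))) y →
      (∃ χ : (E ≃ₐ[M] E) →* Multiplicative (ZMod 3), ∀ h, χ h = 1 ↔ h y = y) ∧
      (∀ (w : HeightOneSpectrum (𝓞 E)) (h : E ≃ₐ[M] E), InIn w h →
        ga g a ^ 2 + 3 * ga g a + 9 ∉ (w.under (𝓞 M)).asIdeal → h y = y) ∧
      ∀ v : HeightOneSpectrum (𝓞 M), (3 : 𝓞 M) ∉ v.asIdeal →
        ga g a ^ 2 + 3 * ga g a + 9 ∈ v.asIdeal →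
        ga g a ^ 2 + 3 * ga g a + 9 ∉ v.asIdeal ^ 2 →
        ∀ w : HeightOneSpectrum (𝓞 E), w.under (𝓞 M) = v → ∃ h : E ≃ₐ[M] E, InIn w h ∧ h y ≠ y :=
    fun g y hy => hcub M E (ga g a) y (dd_ne g a hD0) hy
  have hga1 : ga (1 : M ≃ₐ[ℚ] M) a = a := RingOfIntegers.ext rfl
  refine ⟨E, inferInstance, inferInstance, hgalE, ?_, ?_, ?_⟩
  · -- the degree is odd
    rw [← Module.finrank_mul_finrank ℚ M E, hfr]
    refine Odd.mul hm ?_
    rw [← IsGalois.card_aut_eq_finrank M E]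
    by_contra hodd
    have h2 : 2 ∣ Nat.card (E ≃ₐ[M] E) := (Nat.not_odd_iff_even.1 hodd).two_dvd
    obtain ⟨h, hh⟩ := exists_prime_orderOf_dvd_card' 2 h2
    have hh2 : h ^ 2 = 1 := by rw [← hh]; exact pow_orderOf_eq_one h
    have hh1 : h = 1 := by
      refine hfix h (fun g y hy => ?_)
      obtain ⟨⟨χ, hχ⟩, _, _⟩ := hC g y hy
      refine (hχ h).1 (two_three _ ?_)
      rw [← map_pow, hh2, map_one]
    rw [hh1, orderOf_one] at hh
    norm_num at hh
  · -- unramified at the primes dividing `N`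
    intro v hv
    refine unr_of_inr (fun P g hP hg => ?_)
    have h1 : InrAt (P.under (𝓞 M)) (g.restrictNormal M) := inr_res hg
    have h2 : (P.under (𝓞 M)).under (𝓞 ℚ) = v := by
      rw [Pool.Agent.Q238.MZ.under_under, hP]
    have h4 : AlgEquiv.restrictNormalHom M g = 1 := by
      refine inr_trivial ?_ h1
      rw [h2]
      exact hunr v hv
    have hgM := fix_of_res g h4
    have hN1 : ((N : ℕ) : 𝓞 M) ∈ (P.under (𝓞 M)).asIdeal := by
      have h5 : ((N : ℕ) : 𝓞 ℚ) ∈ ((P.under (𝓞 M)).under (𝓞 ℚ)).asIdeal := by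
        rw [h2]
        exact hv
      have h6 : algebraMap (𝓞 ℚ) (𝓞 M) ((N : ℕ) : 𝓞 ℚ) ∈ (P.under (𝓞 M)).asIdeal := h5
      rwa [map_natCast] at h6
    have h5 : toM g hgM = 1 := by
      refine hfix _ (fun g' y hy => ?_)
      obtain ⟨_, h6, _⟩ := hC g' y hy
      refine h6 P (toM g hgM) (inIn_of_inrAt hg hgM) ?_
      exact hconjN g' _ (ga_dd g' a) _ hN1
    apply AlgEquiv.ext
    intro z
    have h6 : toM g hgM z = z := by
      rw [h5]
      rfl
    exact h6
  · -- the representation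
    have hm0 : NeZero m := ⟨by rintro rfl; exact absurd hm (by decide)⟩
    have hord : orderOf σ = m := by
      rw [orderOf_eq_card_of_forall_mem_zpowers hσ, IsGalois.card_aut_eq_finrank ℚ M, hfr]
    have hgen : ∀ t : Multiplicative (ZMod m),
        t ∈ Subgroup.zpowers (Multiplicative.ofAdd (1 : ZMod m)) := by
      intro t
      refine ⟨((Multiplicative.toAdd t).val : ℤ), ?_⟩
      change (Multiplicative.ofAdd (1 : ZMod m)) ^ (((Multiplicative.toAdd t).val : ℕ) : ℤ) = t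
      rw [zpow_natCast, ← ofAdd_nsmul, nsmul_eq_mul, mul_one, ZMod.natCast_zmod_val]
      rfl
    have hord2 : orderOf (Multiplicative.ofAdd (1 : ZMod m)) = m := by
      rw [orderOf_eq_card_of_forall_mem_zpowers hgen]
      change Nat.card (ZMod m) = m
      exact Nat.card_zmod m
    obtain ⟨e, he⟩ : ∃ e : (M ≃ₐ[ℚ] M) ≃* Multiplicative (ZMod m),
        e σ = Multiplicative.ofAdd (1 : ZMod m) :=
      ⟨mulEquivOfOrderOfEq hσ hgen (hord.trans hord2.symm), mulEquivOfOrderOfEq_apply_gen _ _ _⟩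
    obtain ⟨d, hd⟩ : ∃ d : (E ≃ₐ[ℚ] E) →* Multiplicative (ZMod m),
        ∀ g, d g = e (AlgEquiv.restrictNormalHom M g) :=
      ⟨e.toMonoidHom.comp (AlgEquiv.restrictNormalHom M), fun _ => rfl⟩
    obtain ⟨s, hs⟩ := AlgEquiv.restrictNormalHom_surjective (F := ℚ) (K₁ := M) E σ
    have hdk : ∀ g, d g = 1 → AlgEquiv.restrictNormalHom M g = 1 := by
      intro g hg
      rw [hd] at hg
      exact (map_eq_one_iff e e.injective).1 hg
    have hx1 : Cub (algebraMap M E ((1 : M ≃ₐ[ℚ] M) (a : M))) x := hx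
    obtain ⟨⟨χ, hχ⟩, _, hram⟩ := hC 1 x hx1
    rw [hga1] at hram
    have hp3 : Fact (Nat.Prime 3) := ⟨Nat.prime_three⟩
    have hc3 : Nat.card (Multiplicative (ZMod 3)) = 3 := by
      change Nat.card (ZMod 3) = 3
      exact Nat.card_zmod 3
    obtain ⟨j⟩ : Nonempty (Multiplicative (ZMod 3) ≃* (GaloisField 2 2)ˣ) :=
      ⟨mulEquivOfPrimeCardEq (p := 3) hc3 card_units⟩
    obtain ⟨ψ, hψ⟩ : ∃ ψ : d.ker →* (GaloisField 2 2)ˣ, ∀ g, ψ g = j (χ (kerHom d hdk g)) :=
      ⟨(j.toMonoidHom.comp χ).comp (kerHom d hdk), fun _ => rfl⟩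
    obtain ⟨τ, hτ, _⟩ := hind (GaloisField 2 2) (E ≃ₐ[ℚ] E) m d s ψ (by rw [hd, hs, he]) (by
      intro i hi0 him
      obtain ⟨w, hw⟩ := Pool.Agent.Q285.MZ.ex_above (L := E) Q
      obtain ⟨h₀, hh₀, hh₀x⟩ := hram Q h3 hDQ hDQ2 w hw
      -- the element as an automorphism over `ℚ`
      have hfx : ∀ c : M, (h₀.restrictScalars ℚ) (algebraMap M E c) = algebraMap M E c :=
        fun c => h₀.commutes c
      have hres1 : AlgEquiv.restrictNormalHom M (h₀.restrictScalars ℚ) = 1 := by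
        apply AlgEquiv.ext
        intro c
        apply (algebraMap M E).injective
        have h5 := AlgEquiv.restrictNormal_commutes (h₀.restrictScalars ℚ) M c
        rw [AlgEquiv.one_apply]
        exact h5.trans (hfx c)
      have hk : (h₀.restrictScalars ℚ : E ≃ₐ[ℚ] E) ∈ d.ker := by
        rw [MonoidHom.mem_ker, hd, hres1, map_one]
      have hk' : (s ^ i)⁻¹ * (h₀.restrictScalars ℚ : E ≃ₐ[ℚ] E) * s ^ i ∈ d.ker := by
        rw [MonoidHom.mem_ker] at hk ⊢
        rw [map_mul, map_mul, hk, mul_one, ← map_mul, inv_mul_cancel, map_one]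
      refine ⟨⟨_, hk⟩, ⟨_, hk'⟩, rfl, ?_⟩
      -- `s ^ i x` is a root of the conjugate polynomial
      have hσi : σ ^ i ≠ 1 := pow_ne_one_of_lt_orderOf hi0.ne' (by rw [hord]; exact him)
      have hres2 : AlgEquiv.restrictNormalHom M (s ^ i) = σ ^ i := by rw [map_pow, hs]
      have hy : Cub (algebraMap M E ((σ ^ i) (a : M))) ((s ^ i) x) := by
        have h5 := Cub.map ((s ^ i : E ≃ₐ[ℚ] E) : E →+* E) hx
        have h6 : ((s ^ i : E ≃ₐ[ℚ] E) : E →+* E) (algebraMap M E (a : M)) =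
            algebraMap M E ((σ ^ i) (a : M)) := by
          rw [← hres2]
          exact (AlgEquiv.restrictNormal_commutes (s ^ i) M (a : M)).symm
        rw [h6] at h5
        exact h5
      have hfixy : h₀ ((s ^ i) x) = (s ^ i) x := by
        obtain ⟨_, h5, _⟩ := hC (σ ^ i) _ hy
        refine h5 w h₀ hh₀ ?_
        rw [hw]
        exact hconjQ (σ ^ i) _ (ga_dd (σ ^ i) a) hσi
      have hχ1 : χ (kerHom d hdk ⟨_, hk'⟩) = 1 := by
        rw [hχ, kerHom_apply]
        change (s ^ i)⁻¹ (h₀ ((s ^ i) x)) = x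
        rw [hfixy]
        change ((s ^ i)⁻¹ * s ^ i) x = x
        rw [inv_mul_cancel]
        rfl
      have hχ2 : χ (kerHom d hdk ⟨_, hk⟩) ≠ 1 := by
        intro h5
        apply hh₀x
        exact (hχ _).1 h5
      rw [hψ, hψ, hχ1, map_one]
      intro h5
      exact hχ2 ((map_eq_one_iff j j.injective).1 h5.symm))
    exact ⟨τ, hτ⟩

end Pool.Agent.H429.MZQ
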