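import Pool.Agent.H429.MZQ.StmH

set_option autoImplicit false
set_option linter.unusedSectionVars false

/-! # Project MZQ (helper429), job TAIQ (helper176): absolute irreducibility of tensor products -/

namespace Pool.Agent.H429.MZQ

open Module Matrix

namespace TAIQN

section

variable {k k' L : Type} [Field k] [Field k'] [Field L] [Algebra k k'] [Algebra k' L] {a b n : ℕ}

/-- the matrices over `k'` which stabilize `V` -/
def stab (V : Submodule L (Fin n → L)) : Submodule k' (Matrix (Fin n) (Fin n) k') where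
  carrier := {X | ∀ x ∈ V, (X.map (algebraMap k' L)).mulVec x ∈ V}
  add_mem' := by
    intro X Y hX hY x hx
    rw [Matrix.map_add _ (map_add _), add_mulVec]
    exact V.add_mem (hX x hx) (hY x hx)
  zero_mem' := by
    intro x _
    rw [Matrix.map_zero _ (map_zero _), zero_mulVec]
    exact V.zero_mem
  smul_mem' := by
    intro c X hX x hx
    have e : (c • X).map (algebraMap k' L) = algebraMap k' L c • X.map (algebraMap k' L) := by
      ext i j
      simp only [Matrix.map_apply, Matrix.smul_apply, smul_eq_mul, map_mul]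
    rw [e, smul_mulVec]
    exact V.smul_mem _ (hX x hx)

theorem mem_stab {V : Submodule L (Fin n → L)} {X : Matrix (Fin n) (Fin n) k'} :
    X ∈ stab (k' := k') V ↔ ∀ x ∈ V, (X.map (algebraMap k' L)).mulVec x ∈ V := Iff.rfl

/-- the tensor product of two matrices -/
def tens (e : Fin a × Fin b ≃ Fin n) (A : Matrix (Fin a) (Fin a) k) (B : Matrix (Fin b) (Fin b) k') :
    Matrix (Fin n) (Fin n) k' :=
  Matrix.of fun r s => algebraMap k k' (A (e.symm r).1 (e.symm s).1) * B (e.symm r).2 (e.symm s).2

theorem tens_apply (e : Fin a × Fin b ≃ Fin n) (A : Matrix (Fin a) (Fin a) k)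
    (B : Matrix (Fin b) (Fin b) k') (r s : Fin n) : tens e A B r s =
      algebraMap k k' (A (e.symm r).1 (e.symm s).1) * B (e.symm r).2 (e.symm s).2 := rfl

theorem tens_add_left (e : Fin a × Fin b ≃ Fin n) (A A' : Matrix (Fin a) (Fin a) k)
    (B : Matrix (Fin b) (Fin b) k') : tens e (A + A') B = tens e A B + tens e A' B := by
  ext r s
  rw [Matrix.add_apply, tens_apply, tens_apply, tens_apply, Matrix.add_apply, map_add, add_mul]

theorem tens_smul_left (e : Fin a × Fin b ≃ Fin n) (c : k) (A : Matrix (Fin a) (Fin a) k)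
    (B : Matrix (Fin b) (Fin b) k') : tens e (c • A) B = algebraMap k k' c • tens e A B := by
  ext r s
  rw [Matrix.smul_apply, tens_apply, tens_apply, Matrix.smul_apply, smul_eq_mul, smul_eq_mul, map_mul,
    mul_assoc]

theorem tens_zero_left (e : Fin a × Fin b ≃ Fin n) (B : Matrix (Fin b) (Fin b) k') :
    tens e (0 : Matrix (Fin a) (Fin a) k) B = 0 := by
  ext r s
  rw [tens_apply, Matrix.zero_apply, map_zero, zero_mul, Matrix.zero_apply]

theorem tens_add_right (e : Fin a × Fin b ≃ Fin n) (A : Matrix (Fin a) (Fin a) k)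
    (B B' : Matrix (Fin b) (Fin b) k') : tens e A (B + B') = tens e A B + tens e A B' := by
  ext r s
  rw [Matrix.add_apply, tens_apply, tens_apply, tens_apply, Matrix.add_apply, mul_add]

theorem tens_smul_right (e : Fin a × Fin b ≃ Fin n) (c : k') (A : Matrix (Fin a) (Fin a) k)
    (B : Matrix (Fin b) (Fin b) k') : tens e A (c • B) = c • tens e A B := by
  ext r s
  rw [Matrix.smul_apply, tens_apply, tens_apply, Matrix.smul_apply, smul_eq_mul, smul_eq_mul]
  ring

theorem tens_zero_right (e : Fin a × Fin b ≃ Fin n) (A : Matrix (Fin a) (Fin a) k) :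
    tens e A (0 : Matrix (Fin b) (Fin b) k') = 0 := by
  ext r s
  rw [tens_apply, Matrix.zero_apply, mul_zero, Matrix.zero_apply]

/-- if the tensor products of spanning matrices are in a subspace then all are -/
theorem tens_mem (e : Fin a × Fin b ≃ Fin n) (S : Submodule k' (Matrix (Fin n) (Fin n) k'))
    (SA : Set (Matrix (Fin a) (Fin a) k)) (SB : Set (Matrix (Fin b) (Fin b) k'))
    (hA : Submodule.span k SA = ⊤) (hB : Submodule.span k' SB = ⊤)
    (h : ∀ A ∈ SA, ∀ B ∈ SB, tens e A B ∈ S) (A : Matrix (Fin a) (Fin a) k)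
    (B : Matrix (Fin b) (Fin b) k') : tens e A B ∈ S := by
  have h1 : ∀ A ∈ SA, tens e A B ∈ S := by
    intro A hA'
    have hB' : B ∈ Submodule.span k' SB := by
      rw [hB]
      exact Submodule.mem_top
    induction hB' using Submodule.span_induction with
    | mem B hB => exact h A hA' B hB
    | zero =>
      rw [tens_zero_right]
      exact S.zero_mem
    | add B B' _ _ h1 h2 =>
      rw [tens_add_right]
      exact S.add_mem h1 h2
    | smul c B _ h1 =>
      rw [tens_smul_right]
      exact S.smul_mem _ h1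
  have hA' : A ∈ Submodule.span k SA := by
    rw [hA]
    exact Submodule.mem_top
  induction hA' using Submodule.span_induction with
  | mem A hA => exact h1 A hA
  | zero =>
    rw [tens_zero_left]
    exact S.zero_mem
  | add A A' _ _ h1 h2 =>
    rw [tens_add_left]
    exact S.add_mem h1 h2
  | smul c A _ h1 =>
    rw [tens_smul_left]
    exact S.smul_mem _ h1

theorem tens_single (e : Fin a × Fin b ≃ Fin n) (r s : Fin n) :
    tens e (Matrix.single (e.symm r).1 (e.symm s).1 (1 : k)) (Matrix.single (e.symm r).2 (e.symm s).2 (1 : k')) =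
      Matrix.single r s 1 := by
  ext r' s'
  rw [tens_apply, Matrix.single_apply, Matrix.single_apply, Matrix.single_apply]
  by_cases hr : r = r'
  · by_cases hs : s = s'
    · subst hr hs
      simp
    · have h1 : ¬ ((e.symm s).1 = (e.symm s').1 ∧ (e.symm s).2 = (e.symm s').2) := by
        rintro ⟨h1, h2⟩
        exact hs (e.symm.injective (Prod.ext h1 h2))
      rw [if_neg (c := r = r' ∧ s = s') (fun h => hs h.2)]
      by_cases h2 : (e.symm s).1 = (e.symm s').1
      · rw [if_neg (c := (e.symm r).2 = (e.symm r').2 ∧ (e.symm s).2 = (e.symm s').2)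
          (fun h => h1 ⟨h2, h.2⟩), mul_zero]
      · rw [if_neg (c := (e.symm r).1 = (e.symm r').1 ∧ (e.symm s).1 = (e.symm s').1)
          (fun h => h2 h.2), map_zero, zero_mul]
  · have h1 : ¬ ((e.symm r).1 = (e.symm r').1 ∧ (e.symm r).2 = (e.symm r').2) := by
      rintro ⟨h1, h2⟩
      exact hr (e.symm.injective (Prod.ext h1 h2))
    rw [if_neg (c := r = r' ∧ s = s') (fun h => hr h.1)]
    by_cases h2 : (e.symm r).1 = (e.symm r').1
    · rw [if_neg (c := (e.symm r).2 = (e.symm r').2 ∧ (e.symm s).2 = (e.symm s').2)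
        (fun h => h1 ⟨h2, h.1⟩), mul_zero]
    · rw [if_neg (c := (e.symm r).1 = (e.symm r').1 ∧ (e.symm s).1 = (e.symm s').1)
        (fun h => h2 h.1), map_zero, zero_mul]

/-- a subspace stable under the elementary matrices -/
theorem bot_or_top (V : Submodule L (Fin n → L))
    (h : ∀ r s, Matrix.single r s (1 : k') ∈ stab (k' := k') V) : V = ⊥ ∨ V = ⊤ := by
  by_cases hV : V = ⊥
  · exact Or.inl hV
  · refine Or.inr ?_
    obtain ⟨x, hx, hx0⟩ := (Submodule.ne_bot_iff V).1 hV
    obtain ⟨s, hs⟩ : ∃ s, x s ≠ 0 := by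
      by_contra hc
      push Not at hc
      exact hx0 (funext hc)
    have h1 : ∀ r, Pi.single r (1 : L) ∈ V := by
      intro r
      have h2 := h r s x hx
      have h3 : ((Matrix.single r s (1 : k')).map (algebraMap k' L)).mulVec x = x s • Pi.single r (1 : L) := by
        rw [Matrix.map_single, map_one]
        ext i
        rw [Matrix.single_mulVec]
        simp [Function.update_apply, Pi.single_apply]
      rw [h3] at h2
      have h4 := V.smul_mem (x s)⁻¹ h2
      rwa [smul_smul, inv_mul_cancel₀ hs, one_smul] at h4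
    rw [eq_top_iff]
    intro y _
    rw [← Finset.univ_sum_single y]
    refine V.sum_mem fun i _ => ?_
    have h5 : (Pi.single i (y i) : Fin n → L) = y i • (Pi.single i (1 : L) : Fin n → L) := by
      rw [← Pi.single_smul, smul_eq_mul, mul_one]
    rw [h5]
    exact V.smul_mem _ (h1 i)

end

end TAIQN

open TAIQN in
theorem taiq : J_TAIQ := by
  intro hB k k' _ _ _ G _ a b n e ρ τ σ hρ hτ hG hT V hV
  refine bot_or_top (k' := k') V fun r s => ?_
  rw [← tens_single (k := k) e r s]
  refine tens_mem e _ _ _ (hB k G a ρ hρ) (hB k' G b τ hτ) ?_ _ _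
  rintro _ ⟨g, rfl⟩ _ ⟨h, rfl⟩
  obtain ⟨x, hx1, hx2⟩ := hG g h
  have h1 : tens e (ρ g : Matrix (Fin a) (Fin a) k) (τ h : Matrix (Fin b) (Fin b) k') =
      (σ x : Matrix (Fin n) (Fin n) k') := by
    ext r s
    have h2 := hT x (e.symm r) (e.symm s)
    rw [Equiv.apply_symm_apply, Equiv.apply_symm_apply] at h2
    rw [h2, tens_apply, hx1, hx2]
  show tens e (ρ g : Matrix (Fin a) (Fin a) k) (τ h : Matrix (Fin b) (Fin b) k') ∈ stab V
  rw [h1]
  intro y hy
  exact hV x y hy

end Pool.Agent.H429.MZQ
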