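import Pool.Agent.H429.MZQ.StmG

/-!
# Project MZQ (helper429), part H: tensor products with representations of odd dimension `m`

Goal: the dimension conjecture fails in every dimension `n = 3 m`, `m` odd.
-/

set_option autoImplicit false
set_option linter.unusedSectionVars false

namespace Pool.Agent.H429.MZQ

open NumberField IsDedekindDomain Module IsLocalRing
open Pool.Agent.Q92.AR (Unramified)
open Pool.Agent.Q5.MZ (S438)

/-- `σ` is the tensor product of `ρ` (over `k`) and `τ` (over `k' ⊇ k`), with respect to `e` -/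
def IsTens {k k' G : Type} [Field k] [Field k'] [Algebra k k'] [Group G] {a b n : ℕ} (e : Fin a × Fin b ≃ Fin n)
    (ρ : G →* GL (Fin a) k) (τ : G →* GL (Fin b) k') (σ : G →* GL (Fin n) k') : Prop :=
  ∀ g (i j : Fin a × Fin b), (σ g : Matrix (Fin n) (Fin n) k') (e i) (e j) =
    algebraMap k k' ((ρ g : Matrix (Fin a) (Fin a) k) i.1 j.1) * (τ g : Matrix (Fin b) (Fin b) k') i.2 j.2

/-- JOB TENSQ.  The dimension does not decrease under tensor products and extension of the coefficient field.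
Proof.  Let `Rb = R.A/p`, a complete Noetherian local ring, an algebra over `k` (`W(k) → R.A → Rb` kills `p`, and `W(k)/p = k`; see
FINBQ.lean (`quo`, `pr`) for quotients of `MZ.CNL` and `W(k)`-structures) with residue field `k`, and `B = k' ⊗_k Rb` (or any model of it).
`B` is finite and free over `Rb`, so Noetherian and complete; every maximal ideal of `B` contains `m_Rb B`, `B/m_Rb B = k'`, so `B` is
local with maximal ideal `m_Rb B` and residue field `k'`, and with `W(k') → k' → B` it is a `MZ.CNL p k'`.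
`σB(g) = ρu(g) ⊗ τ(g) ∈ GL_n(B)` (entries `(e i, e j) ↦ ρu(g)_{i.1 j.1} τ(g)_{i.2 j.2}`) is a lift of `σ`; continuity: the set
`{g : σB(g) - 1 ∈ m_B^j}` is a subgroup which contains the open subgroup `ker τ ∩ {g : ρu(g) - 1 ∈ m_R^j}`.
So there are `f : R' → B` and `M` with `σB = M f(σu) M⁻¹`; `f` is local.
Claim: a prime `P` of `B` with `f(m_{R'}) ⊆ P` is maximal.  Every element of `R'` is a Witt vector modulo `m_{R'}`, so
`R' → B/P` has finite image (in the image of `k'`), so `σB mod P` takes only finitely many values; on the subgroup `ker τ` (open, of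
finite index as `G` is compact) `σB(g)` is `ρu(g) ⊗ 1`, so (`b > 0`) `ρu mod (P ∩ R.A)` takes only finitely many values on `ker τ`,
hence on `G`.  `P ∩ R.A` (preimage) is prime and contains `p`; by `S_FINBQ` it is `m_R`; so `P ⊇ m_Rb B`, `P = m_B`.
By the lemma `DIMCQN.dim_fibre` (DIMCQ.lean) for `R'/p → B`: `dim B ≤ dim R'/p` (`f(p) = 0`).  `Rb → B` is injective and
integral, so `dim Rb = dim B` (Mathlib, going up / lying over; only `dim Rb ≤ dim B` is needed). -/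
def S_TENSQ : Prop := ∀ (p : ℕ) [Fact p.Prime] (k k' : Type) [Field k] [Finite k] [CharP k p]
  [Field k'] [Finite k'] [CharP k' p] [Algebra k k']
  (G : Type) [Group G] [TopologicalSpace G] [IsTopologicalGroup G] [CompactSpace G] (a b n : ℕ)
  (e : Fin a × Fin b ≃ Fin n) (ρ : G →* GL (Fin a) k) (τ : G →* GL (Fin b) k') (σ : G →* GL (Fin n) k'),
  IsOpen (τ.ker : Set G) → MZ.AbsIrred ρ → 0 < b → IsTens e ρ τ σ →
  ∀ (R : MZ.CNL p k) (ρu : G →* GL (Fin a) R.A), MZ.IsUniversal ρ R ρu →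
  ∀ (R' : MZ.CNL p k') (σu : G →* GL (Fin n) R'.A), MZ.IsUniversal σ R' σu →
    ringKrullDim (R.A ⧸ Ideal.span {((p : ℕ) : R.A)}) ≤ ringKrullDim (R'.A ⧸ Ideal.span {((p : ℕ) : R'.A)})

def J_TENSQ : Prop := S_FINBQ → S_TENSQ

/-- JOB TAIQ.  Absolute irreducibility of tensor products.
Proof.  By `S_BurnQ` the `ρ(g)` span `M_a(k)` and the `τ(h)` span `M_b(k')`.  By the hypothesis on `G` all `ρ(g) ⊗ τ(h)` are values of
`σ`, so the values of `σ` span `M_n(k')` over `k'` (elementary matrices), and over the algebraic closure of `k'` they span `M_n`; a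
subspace stable under all matrices is `⊥` or `⊤`. -/
def S_TAIQ : Prop := ∀ (k k' : Type) [Field k] [Field k'] [Algebra k k'] (G : Type) [Group G] (a b n : ℕ)
  (e : Fin a × Fin b ≃ Fin n) (ρ : G →* GL (Fin a) k) (τ : G →* GL (Fin b) k') (σ : G →* GL (Fin n) k'),
  MZ.AbsIrred ρ → MZ.AbsIrred τ → (∀ g h, ∃ x, ρ x = ρ g ∧ τ x = τ h) → IsTens e ρ τ σ → MZ.AbsIrred σ

def J_TAIQ : Prop := S_BurnQ → S_TAIQ

/-- JOB INDQ.  The representation induced from a character `ψ` of a normal subgroup `ker d` with cyclic quotient `ℤ/m`.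
Proof.  For `g ∈ G` and `j : Fin m` let `i ≡ j + d(g) mod m`; then `s^(-i) g s^j ∈ ker d` and the matrix of `τ(g)` has the entry
`ψ(s^(-i) g s^j)` at `(i, j)` and zeros elsewhere in the column `j`.  This is a homomorphism.  For `h ∈ ker d` `τ(h)` is the diagonal
matrix with entries `ψ(s^(-i) h s^i)`; these `m` characters of `ker d` are pairwise different (by hypothesis, conjugating by a power
of `s`), so by linear independence of characters (over the algebraic closure) a subspace stable under `τ(ker d)` is spanned by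
coordinate vectors, and `τ(s)` permutes the coordinate lines transitively: absolutely irreducible.  The last property is clear
from the formula (if `g ∈ N` then `d(g) = 0` and `s^(-i) g s^i ∈ N`). -/
def S_INDQ : Prop := ∀ (k : Type) [Field k] (G : Type) [Group G] (m : ℕ) [NeZero m]
  (d : G →* Multiplicative (ZMod m)) (s : G) (ψ : d.ker →* kˣ), d s = Multiplicative.ofAdd 1 →
  (∀ i : ℕ, 0 < i → i < m → ∃ h h' : d.ker, (h' : G) = (s ^ i)⁻¹ * (h : G) * s ^ i ∧ ψ h' ≠ ψ h) →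
  ∃ τ : G →* GL (Fin m) k, MZ.AbsIrred τ ∧
    ∀ N : Subgroup G, N.Normal → (∀ g ∈ N, ∃ hg : g ∈ d.ker, ψ ⟨g, hg⟩ = 1) → N ≤ τ.ker

/-- `g` is in the inertia group of the prime `w` -/
def InIn {M L : Type} [Field M] [NumberField M] [Field L] [NumberField L] [Algebra M L] (w : HeightOneSpectrum (𝓞 L))
    (g : L ≃ₐ[M] L) : Prop :=
  ∀ x y : 𝓞 L, (y : L) = g (x : L) → y - x ∈ w.asIdeal

/-- JOB CUBQ.  The simplest cubic extensions.  `D = a² + 3 a + 9`, `x` a root of `X³ - a X² - (a + 3) X - 1`.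
Proof.  (1) `x ≠ 0, -1` and `-1/(1 + x)` is another root (`field_simp`, `linear_combination`); the three roots are `x`,
`φ(x) = -1/(1+x)`, `φ(φ(x)) = -(1+x)/x` (`φ³ = id`; they are pairwise different if `D ≠ 0`: the discriminant is `D²`; if `D = 0`
it does not matter), so for `g ∈ Gal(L/M)` `g x` is one of them, and as `φ` is defined over `ℚ`, `g φ(x) = φ(g x)`.
So `χ(g) = i` if `g x = φ^i(x)` defines a homomorphism; if `x = φ(x)` (then `x² + x + 1 = 0`, all roots are equal to `x`, so `D = 0`) —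
this case is excluded by the hypothesis `D ≠ 0`.
(2) `x` is integral.  `(x - φ x)(φ x - φ² x)(φ² x - x) = ± D`; if `g x ≠ x` then `g x - x` divides `D` up to integral elements (all roots are
units of the ring of integers: their product is `1`), so if `g` is in the inertia group of `w` then `D ∈ w`.
(3) `y = 3 x - a` satisfies `y³ = D (3 y + 2 a + 3)`.  Let `w'` be the prime of `M(x)` below `w`, `w` above `v`.  `D ∈ w'`, so `y ∈ w'`;
`(2 a + 3)² = 4 D - 27`, so `2 a + 3 ∉ v` (`3 ∉ v`), `3 y + 2 a + 3` is a unit at `w'`; so `3 w'(y) = w'(D) = e(w'/v)` (`v(D) = 1`), `e(w'/v) ≥ 3`,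
so `w'` is ramified over `v` and the inertia group of `w` is not contained in `Gal(L/M(x))`. (If all elements of the inertia group
of `w` fixed `x`, then `w'` would be unramified over `v`: library project MZ, Q238/MZ/Inr.lean, or Mathlib.) -/
def S_CUBQ : Prop := ∀ (M L : Type) [Field M] [NumberField M] [Field L] [NumberField L] [Algebra M L] [IsGalois M L]
  (a : 𝓞 M) (x : L), a ^ 2 + 3 * a + 9 ≠ 0 →
  x ^ 3 - algebraMap M L (a : M) * x ^ 2 - (algebraMap M L (a : M) + 3) * x - 1 = 0 →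
  (∃ χ : (L ≃ₐ[M] L) →* Multiplicative (ZMod 3), ∀ g, χ g = 1 ↔ g x = x) ∧
  (∀ (w : HeightOneSpectrum (𝓞 L)) (g : L ≃ₐ[M] L), InIn w g →
    a ^ 2 + 3 * a + 9 ∉ (w.under (𝓞 M)).asIdeal → g x = x) ∧
  ∀ v : HeightOneSpectrum (𝓞 M), (3 : 𝓞 M) ∉ v.asIdeal → a ^ 2 + 3 * a + 9 ∈ v.asIdeal →
    a ^ 2 + 3 * a + 9 ∉ v.asIdeal ^ 2 → ∀ w : HeightOneSpectrum (𝓞 L), w.under (𝓞 M) = v →
    ∃ g : L ≃ₐ[M] L, InIn w g ∧ g x ≠ x

/-- JOB CYCQ.  A cyclic extension `M/ℚ` of degree `m`, a prime `Q` of `M`, and an element `a`.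
Proof.  Choose a prime number `r ≡ 1 mod m`, `r ∤ N` (`Nat.exists_prime_gt_modEq_one`), `M` the subfield of degree `m` of the cyclotomic
field `ℚ(ζ_r)` (Galois group `(ℤ/r)ˣ` cyclic of order `r - 1`; fixed field of the subgroup of index `m`); it is unramified outside
`r`.  Choose a prime number `q ≡ 1 mod 3 r`, `q ∤ 6 N`; `q` splits completely in `ℚ(ζ_r)`, so in `M` (Frobenius at `q` is `ζ ↦ ζ^q = ζ`;
decomposition groups above `q` are trivial), so the conjugates `g Q` (`g ∈ Gal(M/ℚ)`) of a prime `Q` above `q` are different, the residue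
field at `Q` is `𝔽_q` and `q ∉ Q²`.  `X² + 3 X + 9` has a root `t` modulo `q` (discriminant `-27`, `q ≡ 1 mod 3`; if `ω` has order 3 modulo
`q` then `t = 3 ω`), a simple root, so there is an integer `a0` with `a0² + 3 a0 + 9 ∈ q ℤ \ q² ℤ` (replace `a0` by `a0 + q` if necessary).
By the Chinese remainder theorem there is `a ∈ 𝓞 M` with `a ≡ a0 mod Q²`, `a ∈ g Q` for `g ≠ 1`, `a ≡ 1 mod 3`, and `a ≡ 0` modulo the primes
`w ∋ N` with `3 ∉ w`.  Then `D = a² + 3 a + 9 ∈ Q \ Q²`, `D ≡ 9 mod g Q` (`g ≠ 1`), and `D ∉ w` for the primes `w ∋ N` (`D ≡ 9`, or `D ≡ 1 mod 3`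
if `3 ∈ w`).  The conditions below (`y` is the conjugate `g D`) follow: `g D ∈ w ↔ D ∈ g⁻¹ w`.  For `m = 1`: `M = ℚ`. -/
def S_CYCQ : Prop := ∀ m N : ℕ, Odd m → N ≠ 0 → ∃ (M : Type) (_ : Field M) (_ : NumberField M)
  (σ : M ≃ₐ[ℚ] M) (Q : HeightOneSpectrum (𝓞 M)) (a : 𝓞 M), IsGalois ℚ M ∧ finrank ℚ M = m ∧
  (∀ g : M ≃ₐ[ℚ] M, g ∈ Subgroup.zpowers σ) ∧
  (∀ v : HeightOneSpectrum (𝓞 ℚ), ((N : ℕ) : 𝓞 ℚ) ∈ v.asIdeal → Unramified M v) ∧
  (3 : 𝓞 M) ∉ Q.asIdeal ∧ a ^ 2 + 3 * a + 9 ∈ Q.asIdeal ∧ a ^ 2 + 3 * a + 9 ∉ Q.asIdeal ^ 2 ∧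
  (∀ (g : M ≃ₐ[ℚ] M) (y : 𝓞 M), (y : M) = g ((a ^ 2 + 3 * a + 9 : 𝓞 M) : M) → g ≠ 1 → y ∉ Q.asIdeal) ∧
  (∀ (g : M ≃ₐ[ℚ] M) (y : 𝓞 M), (y : M) = g ((a ^ 2 + 3 * a + 9 : 𝓞 M) : M) →
    ∀ w : HeightOneSpectrum (𝓞 M), ((N : ℕ) : 𝓞 M) ∈ w.asIdeal → y ∉ w.asIdeal)

/-- JOB NTQ.  An odd Galois extension of `ℚ`, unramified at given primes, with an absolutely irreducible representation of
dimension `m` over `𝔽₄`.
Proof.  `m = 1`: `E = ℚ`, `τ = 1`.  In general take `M, σ, Q, a` from `S_CYCQ` and let `E` be the Galois closure over `ℚ` of `M(x)`, where `x`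
is a root of the cubic polynomial of `a`: `E = M(x_g : g ∈ Gal(M/ℚ))`, `x_g` a root of the polynomial of `g a` (splitting field over
`M` of the product of the `m` cubic polynomials, a polynomial with rational coefficients; each polynomial splits in `M(x_g)` because
the other roots are rational functions of `x_g`), so `E/ℚ` is Galois.  `h ∈ Gal(E/M)` maps `x_g` to one of the three conjugates;
the `χ_g` of `S_CUBQ` (for `M`, `E`, `g a`, `x_g`) embed `Gal(E/M)` in `(ℤ/3)^m`: `[E : ℚ] = m 3^j` is odd.  Unramified at `v ∋ N`: an element of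
the inertia group of a prime `w` of `E` above `v` (in `Gal(E/ℚ)`) is trivial on `M` (`M` is unramified at `v`) and fixes all `x_g` by
`S_CUBQ` (2) (`g D ∉ w`), so it is trivial (library: Q238/MZ/Inr.lean, inertia groups trivial iff `Unramified`).
`τ`: `S_INDQ` for `G = Gal(E/ℚ)`, `d : G → Gal(M/ℚ) ≅ ℤ/m` (`σ ↦ 1`), `s` with `s|M = σ`, `ψ = ` (an injection `ℤ/3 → 𝔽₄ˣ`) composed with
`χ = χ_1` for `a`, `x = x_1`.  Let `0 < i < m` and `w` a prime of `E` above `Q`; by (3) there is `h` in its inertia group (in `Gal(E/M)`) with `χ(h) ≠ 1`.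
`h'= s^{-i} h s^i`: `χ(h') = 1 ↔ h'(x) = x ↔ h(s^i x) = s^i x`, and `s^i x` is a root of the polynomial of `σ^i a`, so `h(s^i x) = s^i x` by
(2) for `σ^i a`, as `σ^i D ∉ Q`.  So `ψ(h') = 1 ≠ ψ(h)`. -/
def S_NTQ : Prop := ∀ m N : ℕ, Odd m → N ≠ 0 → ∃ (E : Type) (_ : Field E) (_ : NumberField E),
  IsGalois ℚ E ∧ Odd (finrank ℚ E) ∧
  (∀ v : HeightOneSpectrum (𝓞 ℚ), ((N : ℕ) : 𝓞 ℚ) ∈ v.asIdeal → Unramified E v) ∧
  ∃ τ : (E ≃ₐ[ℚ] E) →* GL (Fin m) (GaloisField 2 2), MZ.AbsIrred τ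

def J_NTQ : Prop := S_INDQ → S_CUBQ → S_CYCQ → S_NTQ

/-- JOB DISQ.  Linear disjointness by ramification.
Proof.  Let `N ≠ 0` be such that `A` is unramified outside `N` (e.g. the discriminant).  `B = A ⊓ E` is a number field; ramification
indices are multiplicative (`Pool.Agent.Q225.AR.fr` (`S_FR`), or Mathlib), so `B/ℚ` is unramified at all primes: at `v ∋ N` because `B ⊆ E`,
at the others because `B ⊆ A`.  By Minkowski's theorem (Mathlib: `NumberField.abs_discr_gt_two`; a number field of degree `> 1`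
has a prime dividing its discriminant, i.e. a ramified prime: Mathlib's different ideal, or the library) `B = ℚ`. -/
def S_DISQ : Prop := ∀ (A : IntermediateField ℚ MZ.Om) [NumberField A], ∃ N : ℕ, N ≠ 0 ∧
  ∀ (E : IntermediateField ℚ MZ.Om) [NumberField E],
    (∀ v : HeightOneSpectrum (𝓞 ℚ), ((N : ℕ) : 𝓞 ℚ) ∈ v.asIdeal → Unramified E v) → A ⊓ E = ⊥

/-- JOB DELNQ.  `δ = 1` in odd dimension (generalises `Pool.Agent.H429.MZU.deltaR`, MZU/Delta.lean, from `3` to odd `n`; the trace zero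
matrices have dimension `n² - 1`, `r₂ = 0`). -/
def S_DELNQ : Prop := ∀ (F Ω : Type) [Field F] [NumberField F] [Field Ω] [Algebra F Ω] [IsAlgClosure F Ω]
  (S : Set (HeightOneSpectrum (𝓞 F))), (∀ τ : F →+* ℂ, ComplexEmbedding.IsReal τ) →
  ∀ (k : Type) [Field k] [CharP k 2] (n : ℕ), Odd n → ∀ (ρbar : MZ.GFS Ω S →* GL (Fin n) k),
  (∀ g : MZ.GFS Ω S, g * g = 1 → ρbar g = 1) →
  ∀ w : InfinitePlace F → InfinitePlace (MZ.FSmax S : IntermediateField F Ω),
    (∀ v : InfinitePlace F, (w v).comap (algebraMap F (MZ.FSmax S : IntermediateField F Ω)) = v) →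
    MZ.delta S ρbar w = 1

/-- JOB RES2Q.  Restriction to `ℚ_{S438}` and to a finite Galois extension `E` of `ℚ` at the same time.
Proof.  `res` is constructed in RESQ.lean (`resq`; reuse its proof).  Let `N0 ≠ 0` be such that `E/ℚ` is unramified outside `N0`, `S₀` the set of
the primes of `F` containing `N0` (finite).  For `S ⊇ S₀` `E` is contained in `MZ.FSmax S` (over `F`): first `E` is contained in
`MZ.FSmax {v : N0 ∈ v}` over `ℚ` (by definition, or `S_BRQ`, BRQ.lean), then `Pool.Agent.H429.MZU.bc` as in `RESQN.le_S`.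
`resE` is the restriction (`E/ℚ` is normal), its kernel is open.  The last property: let `K' = κ(K) ⊆ MZ.Om`; `F ⊓ K' = ⊥` and
`(F ⊔ K') ⊓ E = ⊥`, `K'`, `E` Galois over `ℚ`; so `Gal(Ω/F) → Gal(K'/ℚ)` is onto and `Gal(Ω/F K') → Gal(E/ℚ)` is onto
(`sur_gen` in MZU/Sur.lean, applied twice): given `s, t` choose `g1 ∈ Gal(Ω/F)` with `g1|K' = s`, and then `g2 ∈ Gal(Ω/F K')` with
`g2|E = (g1|E)⁻¹ t`; take `g = g1 g2` restricted to `F_S` (`MZ.FSmax S` is Galois over `F`). -/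
def S_RES2Q : Prop := ∀ (F E : IntermediateField ℚ MZ.Om) [NumberField F] [NumberField E] [IsGalois ℚ E],
  ∃ S₀ : Set (HeightOneSpectrum (𝓞 F)), S₀.Finite ∧ ∀ S : Set (HeightOneSpectrum (𝓞 F)), S₀ ⊆ S →
  (∀ v : HeightOneSpectrum (𝓞 F), (438 : 𝓞 F) ∈ v.asIdeal → v ∈ S) →
  ∃ (res : MZ.GFS MZ.Om S →* GQ) (resE : MZ.GFS MZ.Om S →* (E ≃ₐ[ℚ] E)),
    Continuous res ∧ IsOpen (Set.range res) ∧ IsOpen (resE.ker : Set (MZ.GFS MZ.Om S)) ∧
    ∀ (K : Type) [Field K] [NumberField K] [IsGalois ℚ K] (κ : K →ₐ[ℚ] QSm) (K' : IntermediateField ℚ MZ.Om),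
      (∀ y : MZ.Om, y ∈ K' ↔ ∃ x : K, ((κ x : QSm) : MZ.Om) = y) → F ⊓ K' = ⊥ → (F ⊔ K') ⊓ E = ⊥ →
      ∀ (s : K ≃ₐ[ℚ] K) (t : E ≃ₐ[ℚ] E),
        ∃ g : MZ.GFS MZ.Om S, (∀ x : K, κ (s x) = res g (κ x)) ∧ resE g = t

end Pool.Agent.H429.MZQ
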