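import Pool.Agent.H429.MZQ.FINBQ
import Pool.Agent.H429.MZQ.DIMCQ
import Pool.Agent.H429.MZQ.StmH

/-!
# Project MZQ (helper429), job TENSQ (helper161): tensor products and the dimension of deformation rings
-/

set_option autoImplicit false
set_option linter.unusedSectionVars false

namespace Pool.Agent.H429.MZQ

open IsLocalRing TensorProduct

namespace TENSQN

/-- an injective integral extension does not decrease the dimension -/
theorem dim_le (A B : Type) [CommRing A] [CommRing B] [Algebra A B] [Algebra.IsIntegral A B]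
    (hinj : Function.Injective (algebraMap A B)) : ringKrullDim A ≤ ringKrullDim B := by
  unfold ringKrullDim Order.krullDim
  refine iSup_le fun l => ?_
  obtain ⟨P, hP, hPl⟩ := Ideal.exists_ideal_over_prime_of_isIntegral (S := B) l.head.asIdeal ⊥ (by
    rw [← RingHom.ker_eq_comap_bot, (RingHom.injective_iff_ker_eq_bot _).1 hinj]
    exact bot_le)
  have : P.IsPrime := hPl.1
  have : P.LiesOver l.head.asIdeal := ⟨hPl.2.symm⟩
  obtain ⟨L, hL, -, -⟩ := Ideal.exists_ltSeries_of_hasGoingUp l P
  rw [← hL]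
  exact le_iSup (fun L : LTSeries (PrimeSpectrum B) => (L.length : WithBot ℕ∞)) L

/-- finite modules over complete rings are precomplete -/
theorem precomp (A B : Type) [CommRing A] (I : Ideal A) [IsAdicComplete I A] [AddCommGroup B]
    [Module A B] [Module.Finite A B] : IsPrecomplete I B := by
  rw [← AdicCompletion.of_surjective_iff]
  intro y
  obtain ⟨t, rfl⟩ := AdicCompletion.ofTensorProduct_surjective_of_finite I B y
  induction t using TensorProduct.induction_on with
  | zero => exact ⟨0, by rw [map_zero, map_zero]⟩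
  | tmul r x =>
    obtain ⟨a, rfl⟩ := AdicCompletion.of_surjective I A r
    refine ⟨a • x, ?_⟩
    rw [AdicCompletion.ofTensorProduct_tmul, map_smul]
    ext n
    simp only [AdicCompletion.smul_eval, AdicCompletion.of_apply]
    rfl
  | add s t hs ht =>
    obtain ⟨a, ha⟩ := hs
    obtain ⟨b, hb⟩ := ht
    exact ⟨a + b, by rw [map_add, map_add, ha, hb]⟩

section Ext

variable (k k' A : Type) [Field k] [Field k'] [Algebra k k'] [Module.Finite k k']
  [CommRing A] [Algebra k A] (res : A →ₐ[k] k)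

/-- the residue map of the tensor product -/
noncomputable def resB : A ⊗[k] k' →ₐ[k] k' :=
  Algebra.TensorProduct.productMap ((Algebra.ofId k k').comp res) (AlgHom.id k k')

theorem resB_tmul (a : A) (c : k') : resB k k' A res (a ⊗ₜ[k] c) = algebraMap k k' (res a) * c := by
  unfold resB
  rw [Algebra.TensorProduct.productMap_apply_tmul]
  rfl

theorem resB_surj : Function.Surjective (resB k k' A res) := fun c =>
  ⟨1 ⊗ₜ[k] c, by rw [resB_tmul, map_one, map_one, one_mul]⟩

theorem sub_mem (I : Ideal A) (hI : ∀ a, res a = 0 → a ∈ I) (x : A ⊗[k] k') :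
    x - (1 : A) ⊗ₜ[k] resB k k' A res x ∈ I.map (algebraMap A (A ⊗[k] k')) := by
  induction x using TensorProduct.induction_on with
  | zero => rw [map_zero, TensorProduct.tmul_zero, sub_zero]; exact Ideal.zero_mem _
  | tmul a c =>
    rw [resB_tmul]
    have h1 : (1 : A) ⊗ₜ[k] (algebraMap k k' (res a) * c) = (algebraMap k A (res a)) ⊗ₜ[k] c := by
      rw [← Algebra.smul_def, ← TensorProduct.smul_tmul, Algebra.algebraMap_eq_smul_one]
    have h2 : a ⊗ₜ[k] c - (algebraMap k A (res a)) ⊗ₜ[k] c =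
        algebraMap A (A ⊗[k] k') (a - algebraMap k A (res a)) * ((1 : A) ⊗ₜ[k] c) := by
      rw [← TensorProduct.sub_tmul, Algebra.TensorProduct.algebraMap_apply,
        Algebra.TensorProduct.tmul_mul_tmul, mul_one, one_mul]
      rfl
    rw [h1, h2]
    refine Ideal.mul_mem_right _ _ (Ideal.mem_map_of_mem _ (hI _ ?_))
    rw [map_sub, AlgHom.commutes]
    exact sub_self _
  | add x y hx hy =>
    have h : x + y - (1 : A) ⊗ₜ[k] resB k k' A res (x + y) =
        (x - (1 : A) ⊗ₜ[k] resB k k' A res x) + (y - (1 : A) ⊗ₜ[k] resB k k' A res y) := by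
      rw [map_add, TensorProduct.tmul_add]
      ring
    rw [h]
    exact Ideal.add_mem _ hx hy

theorem ker_resB [IsLocalRing A] (hr : ∀ a, res a = 0 ↔ a ∈ maximalIdeal A) :
    RingHom.ker (resB k k' A res) = (maximalIdeal A).map (algebraMap A (A ⊗[k] k')) := by
  apply le_antisymm
  · intro x hx
    have h := sub_mem k k' A res (maximalIdeal A) (fun a ha => (hr a).1 ha) x
    rw [(RingHom.mem_ker).1 hx, TensorProduct.tmul_zero, sub_zero] at h
    exact h
  · rw [Ideal.map_le_iff_le_comap]
    intro a ha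
    rw [Ideal.mem_comap, RingHom.mem_ker, Algebra.TensorProduct.algebraMap_apply, resB_tmul]
    have h1 := (hr a).2 ha
    show algebraMap k k' (res a) * 1 = 0
    rw [h1, map_zero, zero_mul]

theorem isLocal [IsLocalRing A] (hr : ∀ a, res a = 0 ↔ a ∈ maximalIdeal A) :
    ∃ _ : IsLocalRing (A ⊗[k] k'),
      (maximalIdeal A).map (algebraMap A (A ⊗[k] k')) = maximalIdeal (A ⊗[k] k') := by
  have hm : ((maximalIdeal A).map (algebraMap A (A ⊗[k] k'))).IsMaximal := by
    rw [← ker_resB k k' A res hr]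
    exact RingHom.ker_isMaximal_of_surjective _ (resB_surj k k' A res)
  have hloc : IsLocalRing (A ⊗[k] k') := by
    refine IsLocalRing.of_unique_max_ideal ⟨_, hm, fun M hM => ?_⟩
    have h1 : (M.comap (algebraMap A (A ⊗[k] k'))).IsMaximal :=
      Ideal.isMaximal_comap_of_isIntegral_of_isMaximal M
    have h2 := IsLocalRing.eq_maximalIdeal h1
    refine (hm.eq_of_le hM.ne_top ?_).symm
    rw [Ideal.map_le_iff_le_comap, h2]
  exact ⟨hloc, IsLocalRing.eq_maximalIdeal hm⟩

end Ext

/-- a coefficient ring of characteristic `p` is an algebra over the residue field -/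
theorem exists_kalg {p : ℕ} [Fact p.Prime] {k : Type} [Field k] [Finite k] [CharP k p]
    (A : MZ.CNL p k) (hA : ((p : ℕ) : A.A) = 0) : ∃ φ : k →+* A.A, ∀ c, A.res (φ c) = c := by
  have hsurj : Function.Surjective (WittVector.constantCoeff : WittVector p k →+* k) :=
    WittVector.constantCoeff_surjective p
  have hker : RingHom.ker (WittVector.constantCoeff : WittVector p k →+* k) ≤
      RingHom.ker (algebraMap (WittVector p k) A.A) := by
    intro w hw
    rw [RingHom.mem_ker] at hw ⊢
    have h3 : w ∈ Ideal.span {(p : WittVector p k)} :=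
      (WittVector.mem_span_p_iff_coeff_zero_eq_zero _).mpr hw
    obtain ⟨c, hc⟩ := Ideal.mem_span_singleton'.mp h3
    rw [← hc, map_mul, map_natCast, hA, mul_zero]
  refine ⟨RingHom.liftOfRightInverse WittVector.constantCoeff (Function.surjInv hsurj)
    (Function.rightInverse_surjInv hsurj) ⟨algebraMap (WittVector p k) A.A, hker⟩, fun c => ?_⟩
  obtain ⟨w, rfl⟩ := hsurj c
  rw [RingHom.liftOfRightInverse_comp_apply]
  exact A.res_coeff w

/-- extension of the residue field -/
theorem exists_B {p : ℕ} [Fact p.Prime] {k k' : Type} [Field k] [Finite k] [CharP k p]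
    [Field k'] [Finite k'] [CharP k' p] [Algebra k k']
    (A : MZ.CNL p k) (hA : ((p : ℕ) : A.A) = 0) :
    ∃ (B : MZ.CNL p k') (ι : A.A →+* B.A) (κ : k' →+* B.A), ((p : ℕ) : B.A) = 0 ∧
      ringKrullDim A.A ≤ ringKrullDim B.A ∧
      (∀ x, B.res (ι x) = algebraMap k k' (A.res x)) ∧ (∀ c, B.res (κ c) = c) ∧
      (maximalIdeal A.A).map ι = maximalIdeal B.A := by
  obtain ⟨φ, hφ⟩ := exists_kalg A hA
  have : Module.Finite k k' := Module.Finite.of_finite
  let _ : Algebra k A.A := φ.toAlgebra
  let res : A.A →ₐ[k] k := { A.res with commutes' := hφ }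
  have hr : ∀ a, res a = 0 ↔ a ∈ maximalIdeal A.A := fun a => (FINBQN.mem_max A a).symm
  obtain ⟨hloc, hmax⟩ := isLocal k k' A.A res hr
  have hnoeth : IsNoetherianRing (A.A ⊗[k] k') := IsNoetherianRing.of_finite A.A _
  have hinj : Function.Injective (algebraMap A.A (A.A ⊗[k] k')) :=
    FaithfulSMul.algebraMap_injective _ _
  have hcomp : IsAdicComplete (maximalIdeal (A.A ⊗[k] k')) (A.A ⊗[k] k') := by
    have hp : IsPrecomplete (maximalIdeal (A.A ⊗[k] k')) (A.A ⊗[k] k') := by
      rw [← hmax, IsPrecomplete.map_algebraMap_iff]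
      exact precomp _ _ _
    have hh : IsHausdorff (maximalIdeal (A.A ⊗[k] k')) (A.A ⊗[k] k') := inferInstance
    exact { hh, hp with }
  let al : Algebra (WittVector p k') (A.A ⊗[k] k') :=
    (((Algebra.TensorProduct.includeRight : k' →ₐ[k] A.A ⊗[k] k') : k' →+* A.A ⊗[k] k').comp
      (WittVector.constantCoeff : WittVector p k' →+* k')).toAlgebra
  refine ⟨{ A := A.A ⊗[k] k'
            isLocal := hloc
            noeth := hnoeth
            complete := hcomp
            alg := al
            res := (resB k k' A.A res : A.A ⊗[k] k' →+* k')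
            res_surj := resB_surj k k' A.A res
            res_coeff := ?_ }, algebraMap A.A (A.A ⊗[k] k'),
    (Algebra.TensorProduct.includeRight : k' →ₐ[k] A.A ⊗[k] k'), ?_, dim_le _ _ hinj, ?_, ?_, hmax⟩
  · intro x
    show resB k k' A.A res ((1 : A.A) ⊗ₜ[k] (WittVector.constantCoeff x)) = x.coeff 0
    rw [resB_tmul, map_one, map_one, one_mul]
    rfl
  · show ((p : ℕ) : A.A ⊗[k] k') = 0
    rw [← map_natCast (algebraMap A.A (A.A ⊗[k] k')) p, hA, map_zero]
  · intro x
    show resB k k' A.A res (x ⊗ₜ[k] (1 : k')) = algebraMap k k' (A.res x)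
    rw [resB_tmul, mul_one]
    rfl
  · intro c
    show resB k k' A.A res ((1 : A.A) ⊗ₜ[k] c) = c
    rw [resB_tmul, map_one, map_one, one_mul]

/-- the tensor product of two representations over the same ring -/
theorem exists_tens {B G : Type} [CommRing B] [Group G] {a b n : ℕ} (e : Fin a × Fin b ≃ Fin n)
    (ρ : G →* GL (Fin a) B) (τ : G →* GL (Fin b) B) :
    ∃ σ : G →* GL (Fin n) B, ∀ g (i j : Fin a × Fin b),
      (σ g : Matrix (Fin n) (Fin n) B) (e i) (e j) =
        (ρ g : Matrix (Fin a) (Fin a) B) i.1 j.1 * (τ g : Matrix (Fin b) (Fin b) B) i.2 j.2 := by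
  let f : G →* Matrix (Fin n) (Fin n) B :=
    { toFun := fun g => (Matrix.kroneckerMap (· * ·) (ρ g : Matrix (Fin a) (Fin a) B)
        (τ g : Matrix (Fin b) (Fin b) B)).submatrix e.symm e.symm
      map_one' := by
        rw [map_one, map_one, Units.val_one, Units.val_one, Matrix.one_kronecker_one,
          Matrix.submatrix_one_equiv]
      map_mul' := fun g h => by
        rw [map_mul, map_mul, Units.val_mul, Units.val_mul, Matrix.mul_kronecker_mul,
          Matrix.submatrix_mul_equiv] }
  refine ⟨f.toHomUnits, fun g i j => ?_⟩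
  show (Matrix.kroneckerMap (· * ·) (ρ g : Matrix (Fin a) (Fin a) B)
        (τ g : Matrix (Fin b) (Fin b) B)) (e.symm (e i)) (e.symm (e j)) = _
  rw [e.symm_apply_apply, e.symm_apply_apply]
  rfl

/-- the continuity condition can be checked near the identity -/
theorem open_of {G B : Type} [Group G] [TopologicalSpace G] [IsTopologicalGroup G] [CommRing B]
    {n : ℕ} (σ : G →* GL (Fin n) B) (I : Ideal B) (U : Set G) (hU : IsOpen U) (h1 : (1 : G) ∈ U)
    (h : ∀ u ∈ U, ∀ a b : Fin n, ((σ u : Matrix (Fin n) (Fin n) B) - 1) a b ∈ I) :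
    IsOpen {g : G | ∀ a b : Fin n, ((σ g : Matrix (Fin n) (Fin n) B) - 1) a b ∈ I} := by
  rw [isOpen_iff_forall_mem_open]
  intro g hg
  refine ⟨(fun x => g⁻¹ * x) ⁻¹' U, ?_, hU.preimage (continuous_const_mul _), ?_⟩
  · intro x hx a b
    have hy := h _ hx
    have h3 : (σ x : Matrix (Fin n) (Fin n) B) - 1 =
        (σ g : Matrix (Fin n) (Fin n) B) *
          ((σ (g⁻¹ * x) : Matrix (Fin n) (Fin n) B) - 1) +
          ((σ g : Matrix (Fin n) (Fin n) B) - 1) := by
      have h4 : (σ x : Matrix (Fin n) (Fin n) B) =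
          (σ g : Matrix (Fin n) (Fin n) B) *
            (σ (g⁻¹ * x) : Matrix (Fin n) (Fin n) B) := by
        rw [← Units.val_mul, ← map_mul, mul_inv_cancel_left]
      rw [h4]
      noncomm_ring
    rw [h3, Matrix.add_apply]
    refine Ideal.add_mem _ ?_ (hg a b)
    rw [Matrix.mul_apply]
    exact Ideal.sum_mem _ fun c _ => Ideal.mul_mem_left _ _ (hy c b)
  · show g⁻¹ * g ∈ U
    rw [inv_mul_cancel]
    exact h1

end TENSQN

open TENSQN in
/-- **JOB TENSQ** -/
theorem tensq : J_TENSQ := by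
  intro h0 p _ k k' _ _ _ _ _ _ _ G _ _ _ _ a b n e ρ τ σ hτ hρ hb hσ R ρu hR R' σu hR'
  have hpR : ((p : ℕ) : R.A) ∈ maximalIdeal R.A := DIMCQN.p_mem R
  have hP0 : Ideal.span {((p : ℕ) : R.A)} ≠ ⊤ := by
    intro h
    have h1 : Ideal.span {((p : ℕ) : R.A)} ≤ maximalIdeal R.A := by
      rw [Ideal.span_le, Set.singleton_subset_iff]
      exact hpR
    rw [h] at h1
    exact (IsLocalRing.maximalIdeal.isMaximal R.A).ne_top (top_le_iff.1 h1)
  obtain ⟨A, π, hA0, hπs, hπr, ρA, hρA, hliftA, hAdim⟩ : ∃ (A : MZ.CNL p k) (π : R.A →+* A.A),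
      ((p : ℕ) : A.A) = 0 ∧ Function.Surjective π ∧ (∀ x, A.res (π x) = R.res x) ∧
      ∃ ρA : G →* GL (Fin a) A.A, (∀ g i j, (ρA g : Matrix (Fin a) (Fin a) A.A) i j =
        π ((ρu g : Matrix (Fin a) (Fin a) R.A) i j)) ∧ MZ.IsLift ρ A ρA ∧
      ringKrullDim (R.A ⧸ Ideal.span {((p : ℕ) : R.A)}) = ringKrullDim A.A := by
    refine ⟨FINBQN.quo R _ hP0, (FINBQN.pr R _ hP0 : R.A →+* _), ?_, FINBQN.pr_surj R _ hP0,
      FINBQN.res_pr R _ hP0, _, fun g i j => rfl, FINBQN.lift_pr R ρu hR.1 _ hP0, rfl⟩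
    have h1 := (FINBQN.pr_eq_zero R _ hP0 (p : R.A)).2 (Ideal.mem_span_singleton_self _)
    rwa [map_natCast] at h1
  rw [hAdim]
  obtain ⟨B, ι, κ, hB0, hdim, hι, hκ, hmax⟩ := exists_B (k' := k') A hA0
  obtain ⟨σB, hσB⟩ := exists_tens e ((Matrix.GeneralLinearGroup.map ι).comp ρA)
    ((Matrix.GeneralLinearGroup.map κ).comp τ)
  have hσB' : ∀ g (i j : Fin a × Fin b), (σB g : Matrix (Fin n) (Fin n) B.A) (e i) (e j) =
      ι ((ρA g : Matrix (Fin a) (Fin a) A.A) i.1 j.1) *
        κ ((τ g : Matrix (Fin b) (Fin b) k') i.2 j.2) := fun g i j => hσB g i j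
  -- the values on the kernel of `τ`
  have hker : ∀ g ∈ τ.ker, ∀ i j : Fin a × Fin b,
      (σB g : Matrix (Fin n) (Fin n) B.A) (e i) (e j) =
        ι ((ρA g : Matrix (Fin a) (Fin a) A.A) i.1 j.1) * (if i.2 = j.2 then 1 else 0) := by
    intro g hg i j
    rw [hσB', (MonoidHom.mem_ker).1 hg, Units.val_one, Matrix.one_apply]
    congr 1
    split_ifs
    · exact map_one κ
    · exact map_zero κ
  have hlift : MZ.IsLift σ B σB := by
    refine ⟨fun g => ?_, fun j => ?_⟩
    · apply Units.ext
      funext x y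
      obtain ⟨i, rfl⟩ := e.surjective x
      obtain ⟨j, rfl⟩ := e.surjective y
      show B.res ((σB g : Matrix (Fin n) (Fin n) B.A) (e i) (e j)) = _
      rw [hσB', hσ, map_mul, hι, hκ]
      have h1 : A.res ((ρA g : Matrix (Fin a) (Fin a) A.A) i.1 j.1) =
          (ρ g : Matrix (Fin a) (Fin a) k) i.1 j.1 := by
        rw [← hliftA.1 g]
        rfl
      rw [h1]
    · refine open_of σB _ ({u | ∀ x y : Fin a,
        ((ρA u : Matrix (Fin a) (Fin a) A.A) - 1) x y ∈ maximalIdeal A.A ^ j} ∩ (τ.ker : Set G))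
        ((hliftA.2 j).inter hτ) ?_ ?_
      · refine ⟨fun x y => ?_, τ.ker.one_mem⟩
        rw [map_one, Units.val_one, sub_self, Matrix.zero_apply]
        exact Ideal.zero_mem _
      · rintro u ⟨hu1, hu2⟩ x y
        obtain ⟨i, rfl⟩ := e.surjective x
        obtain ⟨l, rfl⟩ := e.surjective y
        have h1 : ι (((ρA u : Matrix (Fin a) (Fin a) A.A) - 1) i.1 l.1) ∈
            maximalIdeal B.A ^ j := by
          rw [← hmax, ← Ideal.map_pow]
          exact Ideal.mem_map_of_mem ι (hu1 i.1 l.1)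
        have h2 : ((σB u : Matrix (Fin n) (Fin n) B.A) - 1) (e i) (e l) =
            ι (((ρA u : Matrix (Fin a) (Fin a) A.A) - 1) i.1 l.1) *
              (if i.2 = l.2 then 1 else 0) := by
          rw [Matrix.sub_apply, hker u hu2, Matrix.sub_apply, map_sub, sub_mul]
          congr 1
          rw [Matrix.one_apply, Matrix.one_apply]
          by_cases h3 : i.1 = l.1
          · by_cases h4 : i.2 = l.2
            · rw [if_pos (congrArg e (Prod.ext h3 h4)), if_pos h3, if_pos h4, map_one, one_mul]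
            · rw [if_neg h4, mul_zero, if_neg fun h => h4 (congrArg Prod.snd (e.injective h))]
          · rw [if_neg h3, map_zero, zero_mul,
              if_neg fun h => h3 (congrArg Prod.fst (e.injective h))]
        rw [h2]
        exact Ideal.mul_mem_right _ _ h1
  obtain ⟨f, ⟨hf, M, -, hM⟩, -⟩ := hR'.2 B σB hlift
  have hcl : ∀ P : Ideal B.A, P.IsPrime → (∀ x ∈ maximalIdeal R'.A, f x ∈ P) →
      P = maximalIdeal B.A := by
    intro P hP hm
    have hQ : (P.comap (ι.comp π)).IsPrime := Ideal.IsPrime.comap _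
    have hpQ : ((p : ℕ) : R.A) ∈ P.comap (ι.comp π) := by
      rw [Ideal.mem_comap, map_natCast, hB0]
      exact P.zero_mem
    have hfin : (Set.range fun g =>
        Matrix.GeneralLinearGroup.map (Ideal.Quotient.mk (P.comap (ι.comp π))) (ρu g)).Finite := by
      have hK : Finite (G ⧸ τ.ker) := τ.ker.quotient_finite_of_isOpen hτ
      refine DIMCQN.finite_range
        ((Matrix.GeneralLinearGroup.map (Ideal.Quotient.mk (P.comap (ι.comp π)))).comp ρu)
        τ.ker hK ?_
      have h1 : (((Matrix.GeneralLinearGroup.map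
          (Ideal.Quotient.mk (P.comap (ι.comp π)))).comp ρu : G →* _) '' (τ.ker : Set G)) =
          Set.range fun h : τ.ker => Matrix.GeneralLinearGroup.map
            (Ideal.Quotient.mk (P.comap (ι.comp π))) (ρu h) := by
        ext z
        constructor
        · rintro ⟨g, hg, rfl⟩
          exact ⟨⟨g, hg⟩, rfl⟩
        · rintro ⟨g, rfl⟩
          exact ⟨g, g.2, rfl⟩
      rw [h1]
      refine DIMCQN.finite_of_factor (fun h : τ.ker => fun x y : Fin n =>
        R'.res ((σu h : Matrix (Fin n) (Fin n) R'.A) x y)) _ ?_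
      intro h h' he
      have h2 : Matrix.GeneralLinearGroup.map (Ideal.Quotient.mk P) (σB h) =
          Matrix.GeneralLinearGroup.map (Ideal.Quotient.mk P) (σB h') := by
        rw [hM, hM, map_mul, map_mul, map_mul, map_mul]
        have h3 : Matrix.GeneralLinearGroup.map (Ideal.Quotient.mk P)
            (((Matrix.GeneralLinearGroup.map (f : R'.A →+* B.A)).comp σu) h) =
            Matrix.GeneralLinearGroup.map (Ideal.Quotient.mk P)
            (((Matrix.GeneralLinearGroup.map (f : R'.A →+* B.A)).comp σu) h') := by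
          apply Units.ext
          funext x y
          change Ideal.Quotient.mk P (f ((σu h : Matrix (Fin n) (Fin n) R'.A) x y)) =
            Ideal.Quotient.mk P (f ((σu h' : Matrix (Fin n) (Fin n) R'.A) x y))
          rw [Ideal.Quotient.eq, ← map_sub]
          apply hm
          rw [DIMCQN.mem_max, map_sub, sub_eq_zero]
          exact congrFun (congrFun he x) y
        rw [h3]
      apply Units.ext
      funext x y
      change Ideal.Quotient.mk (P.comap (ι.comp π)) ((ρu h : Matrix (Fin a) (Fin a) R.A) x y) =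
        Ideal.Quotient.mk (P.comap (ι.comp π)) ((ρu h' : Matrix (Fin a) (Fin a) R.A) x y)
      rw [Ideal.Quotient.eq, Ideal.mem_comap, map_sub, ← Ideal.Quotient.eq]
      have h4 : ∀ g : τ.ker, (σB g : Matrix (Fin n) (Fin n) B.A) (e (x, ⟨0, hb⟩)) (e (y, ⟨0, hb⟩)) =
          (ι.comp π) ((ρu g : Matrix (Fin a) (Fin a) R.A) x y) := by
        intro g
        rw [hker g g.2, if_pos rfl, mul_one, hρA]
        rfl
      rw [← h4 h, ← h4 h']
      have h5 := congrArg (fun X : GL (Fin n) (B.A ⧸ P) =>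
        (X : Matrix (Fin n) (Fin n) (B.A ⧸ P)) (e (x, ⟨0, hb⟩)) (e (y, ⟨0, hb⟩))) h2
      exact h5
    have hQmax := h0 p k G a ρ hρ R ρu hR _ hQ hpQ hfin
    refine ((IsLocalRing.maximalIdeal.isMaximal B.A).eq_of_le hP.ne_top ?_).symm
    rw [← hmax, Ideal.map_le_iff_le_comap]
    intro x hx
    obtain ⟨y, rfl⟩ := hπs x
    have hy : y ∈ P.comap (ι.comp π) := by
      rw [hQmax, DIMCQN.mem_max, ← hπr, ← DIMCQN.mem_max]
      exact hx
    exact hy
  have h1 := DIMCQN.quot B R' (f : R'.A →+* B.A) hf hcl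
  have h2 : ringKrullDim (B.A ⧸ Ideal.span {((p : ℕ) : B.A)}) = ringKrullDim B.A := by
    have h3 : Ideal.span {((p : ℕ) : B.A)} = ⊥ := by rw [hB0, Ideal.span_singleton_eq_bot]
    rw [h3]
    exact ringKrullDim_eq_of_ringEquiv (RingEquiv.quotientBot B.A)
  exact (hdim.trans h2.ge).trans h1

end Pool.Agent.H429.MZQ
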