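import Pool.Agent.H429.MZQ.Fin5
import Pool.Agent.H429.MZQ.TENSQ
import Pool.Agent.H429.MZQ.TAIQ
import Pool.Agent.H429.MZQ.INDQ
import Pool.Agent.H429.MZQ.CUBQ
import Pool.Agent.H429.MZQ.CYCQ
import Pool.Agent.H429.MZQ.NTQ
import Pool.Agent.H429.MZQ.DIS3Q
import Pool.Agent.H429.MZQ.DJQ
import Pool.Agent.H429.MZQ.DELNQ

/-!
# Project MZQ (helper429): inheritance of the failure, all parts put together
-/

set_option autoImplicit false
set_option linter.all false

namespace Pool.Agent.H429.MZQ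

open NumberField IsDedekindDomain

theorem nt : S_NTQ := ntq indq cubq cycq

theorem dj : S_DJQ := djq dis3q

/-- inheritance of the failure from dimension `n` to dimension `n m`, `m` odd -/
theorem inheritAll (F Ω : Type) [Field F] [NumberField F] [Field Ω] [Algebra F Ω] [IsAlgClosure F Ω]
    (S : Set (HeightOneSpectrum (𝓞 F))) (k : Type) [Field k] [Finite k] [CharP k 2] (n N : ℕ)
    (ρbar : MZ.GFS Ω S →* GL (Fin n) k) (hreal : TotR F) (hbad : Bad F Ω S k n N ρbar) (m : ℕ)
    (hm : Odd m) : FailsIn F Ω (n * m) N :=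
  inherit' (tensq all_FINB) (taiq Pool.Agent.H429.MZU.burn) nt dj delnq F Ω hreal S k n N ρbar hbad m hm

/-- all dimensions `3 m`, `m` odd, from dimension 3 -/
theorem all3 (F Ω : Type) [Field F] [NumberField F] [Field Ω] [Algebra F Ω] [IsAlgClosure F Ω]
    (hreal : TotR F) (h : Fails438 F Ω) (m : ℕ) (hm : Odd m) : FailsIn F Ω (3 * m) 5 :=
  of438 (tensq all_FINB) (taiq Pool.Agent.H429.MZU.burn) nt dj delnq F Ω hreal h m hm

end Pool.Agent.H429.MZQ
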