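import Pool.Graph.R_pool_sql_team_seeded_3997aac3.Q5.MZ.Stm
import Pool.Graph.R_pool_sql_team_seeded_3997aac3.Q285.EX.Apx

/-! # Project MZQ (helper429), job MZ-LB: the local norm index of a quadratic extension -/

set_option autoImplicit false
set_option linter.unusedSectionVars false
set_option linter.deprecated false

namespace Pool.Agent.H429.MZQ.LBN

open NumberField IsDedekindDomain Module Pool.Agent.Q92.AR Pool.Agent.Q5.BR
open Pool.Agent.Q5.MZ (VAData NonSplit PosRam)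
open Pool.Agent.Q182.AR (quoE quoE_mk quoE_pow_eq_one sE_pow_finrank sD_pow_finrank resE resE_isRes
  upA nuA upA_injective tr_sE res_pow_one)
open Pool.Agent.TeamU (act)

/-! ## The module `Eˣ / A` -/

section
variable {k E : Type} [Field k] [NumberField k] [Field E] [NumberField E] [Algebra k E]

/-- `A`, written additively -/
def AA (A : Subgroup Eˣ) : AddSubgroup (Additive Eˣ) := Subgroup.toAddSubgroup A

theorem mem_AA {A : Subgroup Eˣ} {x : Additive Eˣ} : x ∈ AA A ↔ x.toMul ∈ A := Iff.rfl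

/-- the quotient `Eˣ / A` -/
def CC (A : Subgroup Eˣ) : Type := Additive Eˣ ⧸ AA A

noncomputable instance (A : Subgroup Eˣ) : AddCommGroup (CC A) :=
  inferInstanceAs (AddCommGroup (Additive Eˣ ⧸ AA A))

/-- the projection -/
noncomputable def mkC (A : Subgroup Eˣ) : Additive Eˣ →+ CC A := QuotientAddGroup.mk' (AA A)

theorem mkC_surj (A : Subgroup Eˣ) : Function.Surjective (mkC A) :=
  QuotientAddGroup.mk'_surjective (AA A)

theorem mkC_zero {A : Subgroup Eˣ} {x : Additive Eˣ} : mkC A x = 0 ↔ x.toMul ∈ A :=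
  QuotientAddGroup.eq_zero_iff (N := AA A) x

theorem mkC_eq {A : Subgroup Eˣ} {x y : Additive Eˣ} : mkC A x = mkC A y ↔ x.toMul / y.toMul ∈ A := by
  rw [← sub_eq_zero, ← map_sub, mkC_zero]
  rfl

theorem sE_mem {σ : E ≃ₐ[k] E} {N1 N2 : ℕ} {A : Subgroup Eˣ} (h : VAData k E σ N1 N2 A) :
    ∀ x ∈ AA A, sE σ x ∈ AA A := fun x hx => h.stable x.toMul hx

/-- the action of `σ` on `Eˣ / A` -/
noncomputable def gam {σ : E ≃ₐ[k] E} {N1 N2 : ℕ} {A : Subgroup Eˣ} (h : VAData k E σ N1 N2 A) :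
    AddMonoid.End (CC A) := quoE (sE σ) (AA A) (sE_mem h)

theorem gam_mk {σ : E ≃ₐ[k] E} {N1 N2 : ℕ} {A : Subgroup Eˣ} (h : VAData k E σ N1 N2 A)
    (x : Additive Eˣ) : gam h (mkC A x) = mkC A (sE σ x) := rfl

theorem gam_pow {σ : E ≃ₐ[k] E} {N1 N2 : ℕ} {A : Subgroup Eˣ} (h : VAData k E σ N1 N2 A)
    [IsGalois k E] : gam h ^ finrank k E = 1 :=
  quoE_pow_eq_one _ _ _ (sE_pow_finrank σ)

theorem df_gam {σ : E ≃ₐ[k] E} {N1 N2 : ℕ} {A : Subgroup Eˣ} (h : VAData k E σ N1 N2 A)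
    (x : Additive Eˣ) : df (gam h) (mkC A x) = mkC A (sE σ x - x) := by
  rw [df_apply, gam_mk, map_sub]

theorem tr_gam {σ : E ≃ₐ[k] E} {N1 N2 : ℕ} {A : Subgroup Eˣ} (h : VAData k E σ N1 N2 A)
    [IsGalois k E] (x : Additive Eˣ) : tr (gam h) (finrank k E) (mkC A x) =
      mkC A (upA k E (nuA k E x)) := by
  have h1 := Pool.Agent.Q149.AR.tr_comm (mkC A) (sE σ) (gam h) (fun x => (gam_mk h x).symm)
    (finrank k E) x
  rw [tr_sE σ h.gen] at h1
  exact h1.symm

theorem sE_upA (σ : E ≃ₐ[k] E) (c : Additive kˣ) : sE σ (upA k E c) = upA k E c := by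
  apply Additive.toMul.injective
  apply Units.ext
  exact σ.commutes ((c.toMul : kˣ) : k)

/-- `q0` of `Eˣ / A` -/
theorem q0_gam {σ : E ≃ₐ[k] E} {N1 N2 : ℕ} {A : Subgroup Eˣ} (h : VAData k E σ N1 N2 A)
    [IsGalois k E] : q0 (gam h) (finrank k E) = ((nu k E).range ⊔ A.comap (up k E)).index := by
  let f : Additive kˣ →+ CC A := (mkC A).comp (upA k E)
  have hf : ∀ c, f c = mkC A (upA k E c) := fun _ => rfl
  have hr : f.range = (df (gam h)).ker := by
    ext u
    rw [AddMonoidHom.mem_ker, AddMonoidHom.mem_range]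
    constructor
    · rintro ⟨c, rfl⟩
      rw [hf, df_gam, sE_upA, sub_self, map_zero]
    · intro hu
      obtain ⟨x, rfl⟩ := mkC_surj A u
      rw [df_gam, mkC_zero] at hu
      obtain ⟨c, hc⟩ := h.h1 x.toMul hu
      refine ⟨Additive.ofMul c, ?_⟩
      rw [hf]
      exact (mkC_eq.2 hc).symm
  unfold q0
  rw [← hr, ← AddSubgroup.index_comap, ← Subgroup.index_toAddSubgroup]
  congr 1
  ext c
  rw [AddSubgroup.mem_comap, AddMonoidHom.mem_range]
  have h3 : (c ∈ Subgroup.toAddSubgroup ((nu k E).range ⊔ A.comap (up k E))) ↔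
    c.toMul ∈ (nu k E).range ⊔ A.comap (up k E) := Iff.rfl
  rw [h3, Subgroup.mem_sup]
  constructor
  · rintro ⟨u, hu⟩
    obtain ⟨x, rfl⟩ := mkC_surj A u
    rw [tr_gam, hf] at hu
    have h1 := mkC_eq.1 hu.symm
    refine ⟨nu k E x.toMul, ⟨_, rfl⟩, c.toMul / (nu k E x.toMul), ?_, by rw [mul_div_cancel]⟩
    rw [Subgroup.mem_comap, map_div]
    exact h1
  · rintro ⟨_, ⟨x, rfl⟩, z, hz, hc⟩
    refine ⟨mkC A (Additive.ofMul x), ?_⟩
    rw [tr_gam, hf]
    refine (mkC_eq.2 ?_).symm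
    change up k E c.toMul / (up k E (nu k E x)) ∈ A
    rw [← hc, map_mul, mul_div_cancel_left]
    exact hz

/-- an element whose image is in `A` is a unit at `N1` -/
theorem prin_up_A {σ : E ≃ₐ[k] E} {N1 N2 : ℕ} {A : Subgroup Eˣ} (h : VAData k E σ N1 N2 A)
    {x : kˣ} (hx : up k E x ∈ A) : prin x ∈ Pr k N1 := by
  intro v hv
  obtain ⟨w, rfl⟩ := Pool.Agent.Q182.AR.exists_above (E := E) v
  rw [Pool.Agent.Q182.AR.prin_eq_zero_iff, Pool.Agent.Q182.AR.val_up w]
  have hw : (N1 : 𝓞 E) ∈ w.asIdeal := Pool.Agent.Q182.AR.under_mem.1 hv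
  exact val_eq_one hw (h.sub _ hx w hw)

/-- `q1` of `Eˣ / A` -/
theorem q1_gam (hLA : Pool.Agent.Q5.MZ.S_LA) {σ : E ≃ₐ[k] E} {N1 N2 : ℕ} {A : Subgroup Eˣ}
    (h : VAData k E σ N1 N2 A) [IsGalois k E] : q1 (gam h) (finrank k E) = 1 := by
  classical
  obtain ⟨hnm1, -, -, hnm4, hnm5, -⟩ := Pool.Agent.Q106.AR.nm k E
  unfold q1
  rw [AddSubgroup.relIndex_eq_one]
  intro u hu
  rw [AddMonoidHom.mem_ker] at hu
  obtain ⟨y, rfl⟩ := mkC_surj A u
  rw [tr_gam, mkC_zero] at hu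
  have hx : up k E (nu k E y.toMul) ∈ A := hu
  have hpr := prin_up_A h hx
  -- the part of the divisor of `y` prime to `N1`
  have hD1 : (prin y.toMul).filter (fun w : HeightOneSpectrum (𝓞 E) => (N1 : 𝓞 E) ∉ w.asIdeal) ∈
      Pr E N1 := by
    intro w hw
    rw [Finsupp.filter_apply, if_neg (not_not.2 hw)]
  have hD2 : (prin y.toMul).filter (fun w : HeightOneSpectrum (𝓞 E) => ¬ (N1 : 𝓞 E) ∉ w.asIdeal) ∈
      SupE k E {v | (N1 : 𝓞 k) ∈ v.asIdeal} := by
    intro w hw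
    rw [Finsupp.filter_apply, if_neg]
    intro h1
    exact hw (Pool.Agent.Q182.AR.under_mem.2 (not_not.1 h1))
  have hsum := Finsupp.filter_pos_add_filter_neg (prin y.toMul)
    (fun w : HeightOneSpectrum (𝓞 E) => (N1 : 𝓞 E) ∉ w.asIdeal)
  have h4 := hnm1 y.toMul
  rw [← hsum, map_add] at h4
  have h5 := hnm4 N1 _ hD1
  have h6 := Pool.Agent.Q182.AR.nmD_mem _ hD2
  have h7 : nmD k E ((prin y.toMul).filter
      (fun w : HeightOneSpectrum (𝓞 E) => ¬ (N1 : 𝓞 E) ∉ w.asIdeal)) = 0 := by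
    ext v
    by_cases hv : (N1 : 𝓞 k) ∈ v.asIdeal
    · have h8 := congrArg (fun D : Dv k => D v) h4
      simp only [Finsupp.add_apply] at h8
      rw [h5 v hv, hpr v hv, zero_add] at h8
      exact h8
    · exact h6 v hv
  rw [h7, add_zero] at h4
  obtain ⟨a, haA, ha⟩ := hLA k E σ N1 N2 A h (nu k E y.toMul) hx
    (fun φ hφ => hnm5 φ y.toMul hφ) ⟨_, hD1, h4⟩
  -- Hilbert 90
  have hnorm : Algebra.norm k (((y.toMul / a : Eˣ)) : E) = 1 := by
    have h8 : nu k E (y.toMul / a) = 1 := by rw [map_div, ha, div_self']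
    exact congrArg (fun z : kˣ => (z : k)) h8
  have hcyc : IsCyclic (E ≃ₐ[k] E) := ⟨σ, h.gen⟩
  obtain ⟨t, ht⟩ := groupCohomology.exists_div_of_norm_eq_one h.gen hnorm
  obtain ⟨z, hz⟩ : ∃ z : Eˣ, Units.map (σ : E →* E) z / z = y.toMul / a := by
    refine ⟨t⁻¹, ?_⟩
    apply Units.ext
    rw [← ht]
    simp [div_eq_mul_inv, mul_comm]
  refine ⟨mkC A (Additive.ofMul z), ?_⟩
  rw [df_gam]
  refine mkC_eq.2 ?_
  change (Units.map (σ : E →* E) z / z) / y.toMul ∈ A
  rw [hz, div_div_cancel_left]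
  exact A.inv_mem haA

/-! ## The part of the divisor above `N1` -/

/-- the primes dividing `N` -/
def TT (k : Type) [Field k] [NumberField k] (N : ℕ) : Set (HeightOneSpectrum (𝓞 k)) :=
  {v | (N : 𝓞 k) ∈ v.asIdeal}

open scoped Classical in
/-- the part of the divisor of `x` above the primes dividing `N` -/
noncomputable def paE (k : Type) {E : Type} [Field k] [NumberField k] [Field E] [NumberField E]
    [Algebra k E] (N : ℕ) : Additive Eˣ →+ SupE k E (TT k N) :=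
  ((Finsupp.filterAddHom (fun w : HeightOneSpectrum (𝓞 E) => w.under (𝓞 k) ∈ TT k N)).comp
    (prinHom (F := E))).codRestrict (SupE k E (TT k N)) (fun x => by
      intro w hw
      exact Finsupp.filter_apply_neg _ _ hw)

theorem paE_apply (N : ℕ) (x : Additive Eˣ) {w : HeightOneSpectrum (𝓞 E)}
    (hw : w.under (𝓞 k) ∈ TT k N) : ((paE k N x : SupE k E (TT k N)) : Dv E) w = prin x.toMul w := by
  classical
  exact Finsupp.filter_apply_pos _ _ hw

theorem paE_eq_zero (N : ℕ) (x : Additive Eˣ) : paE k N x = 0 ↔ prin x.toMul ∈ Pr E N := by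
  constructor
  · intro h w hw
    have h1 : w.under (𝓞 k) ∈ TT k N := Pool.Agent.Q182.AR.under_mem.2 hw
    rw [← paE_apply N x h1, h]
    rfl
  · intro h
    apply Subtype.ext
    ext w
    by_cases hw : w.under (𝓞 k) ∈ TT k N
    · rw [paE_apply N x hw]
      exact h w (Pool.Agent.Q182.AR.under_mem.1 hw)
    · exact (paE k N x).2 w hw

theorem paE_surj {N : ℕ} (hN : N ≠ 0) : Function.Surjective (paE k (E := E) N) := by
  classical
  intro D
  have hfin : {w : HeightOneSpectrum (𝓞 E) | w.under (𝓞 k) ∈ TT k N}.Finite :=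
    Pool.Agent.Q182.AR.finite_above (TT k N) (Pool.Agent.Q125.AR.finite_dvd hN)
  choose ϖ hϖ using fun w : HeightOneSpectrum (𝓞 E) => w.valuation_exists_uniformizer E
  have hϖ' : ∀ w : HeightOneSpectrum (𝓞 E), w.valuation E (ϖ w) = WithZero.exp (-1 : ℤ) := hϖ
  obtain ⟨y, -, hy⟩ := Pool.Agent.Q285.EX.approx hfin.toFinset
    (fun w => ϖ w ^ ((D : Dv E) w)) (∑ w ∈ hfin.toFinset, ((D : Dv E) w).natAbs + 1)
  refine ⟨Additive.ofMul y, ?_⟩
  apply Subtype.ext
  ext w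
  by_cases hw : w.under (𝓞 k) ∈ TT k N
  · rw [paE_apply N _ hw]
    have hwm : w ∈ hfin.toFinset := hfin.mem_toFinset.2 hw
    have h1 := hy w hwm
    have h2 : w.valuation E (ϖ w ^ ((D : Dv E) w)) = WithZero.exp (-((D : Dv E) w)) := by
      rw [map_zpow₀, hϖ' w, ← WithZero.exp_zsmul]
      congr 1
      simp
    have h3 : ((D : Dv E) w).natAbs ≤ ∑ w ∈ hfin.toFinset, ((D : Dv E) w).natAbs :=
      Finset.single_le_sum (f := fun w => ((D : Dv E) w).natAbs) (fun _ _ => Nat.zero_le _) hwm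
    have h4 : w.valuation E ((y : E) - ϖ w ^ ((D : Dv E) w)) <
        w.valuation E (ϖ w ^ ((D : Dv E) w)) := by
      refine lt_of_le_of_lt h1 ?_
      rw [h2, WithZero.exp_lt_exp]
      push_cast
      have h5 : ((D : Dv E) w) ≤ (((D : Dv E) w).natAbs : ℤ) := Int.le_natAbs
      have h6 : (((D : Dv E) w).natAbs : ℤ) ≤
          ((∑ w ∈ hfin.toFinset, ((D : Dv E) w).natAbs : ℕ) : ℤ) := by exact_mod_cast h3
      push_cast at h5 h6
      linarith
    have h7 := Valuation.map_add_eq_of_lt_left (w.valuation E) h4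
    rw [add_sub_cancel, h2] at h7
    have h8 := Pool.Agent.Q125.AR.valuation_eq_exp y w
    rw [h7] at h8
    have h9 := WithZero.exp_injective h8
    change prin y w = _
    omega
  · rw [(paE k N (Additive.ofMul y)).2 w hw, D.2 w hw]

/-- elements with the same residue -/
theorem cong_of_res {N : ℕ} {x x' : Eˣ} (hxP' : prin x' ∈ Pr E N)
    {a b a' b' : 𝓞 E} (hb : (N : 𝓞 E) ∣ b - 1) (hab : (x : E) * (b : E) = a)
    (hb' : (N : 𝓞 E) ∣ b' - 1) (hab' : (x' : E) * (b' : E) = a')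
    (h1 : (N : 𝓞 E) ∣ a - a') : Cong N ((x / x' : Eˣ) : E) := by
  intro v hv
  obtain ⟨c, hc⟩ := h1
  obtain ⟨c1, hc1⟩ := hb
  obtain ⟨c2, hc2⟩ := hb'
  have hvb : ∀ b : 𝓞 E, (N : 𝓞 E) ∣ b - 1 → v.valuation E (b : E) = 1 := by
    rintro b ⟨c, hc⟩
    have h3 : v.valuation E ((b : E) - 1) ≤ v.valuation E (N : E) := by
      have h4 : (b : E) - 1 = (N : E) * (c : E) := by
        have := congrArg (algebraMap (𝓞 E) E) hc
        simpa using this
      rw [h4, map_mul]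
      exact mul_le_of_le_one_right' (v.valuation_le_one c)
    exact val_eq_one hv h3
  have hxv : v.valuation E (x' : E) = 1 := by
    rw [Pool.Agent.Q125.AR.valuation_eq_exp, hxP' v hv, neg_zero, WithZero.exp_zero]
  have hb1 := hvb b ⟨c1, hc1⟩
  have hb2 := hvb b' ⟨c2, hc2⟩
  have hb1' : (b : E) ≠ 0 := fun h0 => by rw [h0, map_zero] at hb1; exact zero_ne_one hb1
  have hb2' : (b' : E) ≠ 0 := fun h0 => by rw [h0, map_zero] at hb2; exact zero_ne_one hb2
  have hx2' : (x' : E) ≠ 0 := x'.ne_zero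
  have e1 : ((x / x' : Eˣ) : E) - 1 = (((a : E) * b' - a' * b)) /
      ((b : E) * (b') * x') := by
    rw [Units.val_div_eq_div_val, ← hab, ← hab']
    field_simp
  have e2 : ((a : E) * b' - a' * b)
      = (N : E) * ((c * b' + a' * (c2 - c1) : 𝓞 E) : E) := by
    have e3 : a * b' - a' * b = (N : 𝓞 E) * (c * b' + a' * (c2 - c1)) := by
      have e4 : a = a' + N * c := by rw [← hc]; ring
      have e5 : b = 1 + N * c1 := by rw [← hc1]; ring
      have e6 : b' = 1 + N * c2 := by rw [← hc2]; ring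
      rw [e4, e5, e6]
      ring
    have := congrArg (algebraMap (𝓞 E) E) e3
    simpa using this
  rw [e1, map_div₀, map_mul, map_mul, hb1, hb2, hxv, mul_one, mul_one, div_one, e2, map_mul]
  exact mul_le_of_le_one_right' (v.valuation_le_one _)

/-- the induced map `Eˣ / A → SupE` -/
noncomputable def pp {σ : E ≃ₐ[k] E} {N1 N2 : ℕ} {A : Subgroup Eˣ} (h : VAData k E σ N1 N2 A) :
    CC A →+ SupE k E (TT k N1) :=
  QuotientAddGroup.lift (AA A) (paE k N1) (fun x hx => (paE_eq_zero N1 x).2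
    (Pool.Agent.Q182.AR.prin_mem_Pr (h.sub _ hx)))

theorem pp_mk {σ : E ≃ₐ[k] E} {N1 N2 : ℕ} {A : Subgroup Eˣ} (h : VAData k E σ N1 N2 A)
    (x : Additive Eˣ) : pp h (mkC A x) = paE k N1 x := rfl

theorem pp_surj {σ : E ≃ₐ[k] E} {N1 N2 : ℕ} {A : Subgroup Eˣ} (h : VAData k E σ N1 N2 A) :
    Function.Surjective (pp h) := by
  intro D
  obtain ⟨x, hx⟩ := paE_surj (k := k) (E := E) h.n1 D
  exact ⟨mkC A x, by rw [pp_mk, hx]⟩

theorem pp_ker_finite {σ : E ≃ₐ[k] E} {N1 N2 : ℕ} {A : Subgroup Eˣ} (h : VAData k E σ N1 N2 A) :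
    Finite (pp h).ker := by
  classical
  have hfin : Finite (𝓞 E ⧸ Ideal.span {(N2 : 𝓞 E)}) := by
    refine Ideal.finiteQuotientOfFreeOfNeBot _ ?_
    intro h0
    have h1 : (N2 : 𝓞 E) = 0 := Ideal.span_singleton_eq_bot.1 h0
    exact h.n2 (Nat.cast_eq_zero.1 h1)
  choose x hx using mkC_surj A
  have hxP : ∀ u : (pp h).ker, prin (x (u : CC A)).toMul ∈ Pr E N2 := by
    intro u
    rw [Pool.Agent.Q182.AR.Pr_eq h.dvd h.pow, ← paE_eq_zero (k := k), ← pp_mk h, hx]
    exact u.2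
  choose a b hb hab using fun u : (pp h).ker => Pool.Agent.Q225.AR.exists_res h.n2 (hxP u)
  refine Finite.of_injective
    (fun u => (Ideal.Quotient.mk (Ideal.span {(N2 : 𝓞 E)}) (a u))) ?_
  intro u u' huu
  rw [Ideal.Quotient.eq, Ideal.mem_span_singleton] at huu
  apply Subtype.ext
  rw [← hx (u : CC A), ← hx (u' : CC A)]
  refine mkC_eq.2 (h.sup _ ?_)
  exact cong_of_res (hxP u') (hb u) (hab u) (hb u') (hab u') huu

/-- the action on the divisors above `N1` -/
noncomputable def iot (σ : E ≃ₐ[k] E) (N : ℕ) : AddMonoid.End (SupE k E (TT k N)) :=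
  resE (sD σ) (SupE k E (TT k N)) (fun _ hD => Pool.Agent.Q182.AR.sD_mem σ (TT k N) hD)

theorem pp_gam {σ : E ≃ₐ[k] E} {N1 N2 : ℕ} {A : Subgroup Eˣ} (h : VAData k E σ N1 N2 A)
    [IsGalois k E] (u : CC A) : pp h (gam h u) = iot σ N1 (pp h u) := by
  classical
  obtain ⟨x, rfl⟩ := mkC_surj A u
  rw [gam_mk, pp_mk, pp_mk]
  apply Subtype.ext
  have h1 : ((iot σ N1 (paE k N1 x) : SupE k E (TT k N1)) : Dv E) =
    sD σ ((paE k N1 x : SupE k E (TT k N1)) : Dv E) := rfl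
  rw [h1]
  ext w
  obtain ⟨w', rfl⟩ := Pool.Agent.Q225.AR.act_surj σ w
  rw [Pool.Agent.Q225.AR.sD_act]
  by_cases hw : w'.under (𝓞 k) ∈ TT k N1
  · rw [paE_apply N1 x hw, paE_apply N1 (sE σ x) (by rw [Pool.Agent.Q225.AR.under_act]; exact hw),
      (Pool.Agent.Q92.AR.all_SD k E σ h.gen).1 x, Pool.Agent.Q225.AR.sD_act]
  · rw [(paE k N1 x).2 w' hw, (paE k N1 (sE σ x)).2 _ (by rw [Pool.Agent.Q225.AR.under_act]; exact hw)]

end

/-! ## The Herbrand quotient of the divisors above `N1` -/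

section
open Pool.Agent.Q149.AR
variable {F E : Type} [Field F] [NumberField F] [Field E] [NumberField E] [Algebra F E]

/-- SD (7), with the value of `q0` -/
theorem q_SupE_val [IsGalois F E] {σ : E ≃ₐ[F] E} (hσ : ∀ g : E ≃ₐ[F] E, g ∈ Subgroup.zpowers σ)
    {T : Set (HeightOneSpectrum (𝓞 F))} (hT : T.Finite) (ι : AddMonoid.End (SupE F E T))
    (hι : IsRes (sD σ) ι) [Fintype T] :
    (∀ y : T, 0 < Nat.card {w : HeightOneSpectrum (𝓞 E) // w.under (𝓞 F) = y.1} ∧
      Nat.card {w : HeightOneSpectrum (𝓞 E) // w.under (𝓞 F) = y.1} ∣ finrank F E) ∧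
    q1 ι (finrank F E) = 1 ∧
    q0 ι (finrank F E) = ∏ y : T, finrank F E /
      Nat.card {w : HeightOneSpectrum (𝓞 E) // w.under (𝓞 F) = y.1} := by
  classical
  have hXf : Finite {w : HeightOneSpectrum (𝓞 E) // w.under (𝓞 F) ∈ T} := by
    have h1 : {w : HeightOneSpectrum (𝓞 E) | w.under (𝓞 F) ∈ T} = ⋃ v ∈ T, {w | w.under (𝓞 F) = v} := by
      ext w
      simp
    have h2 : {w : HeightOneSpectrum (𝓞 E) | w.under (𝓞 F) ∈ T}.Finite := by
      rw [h1]
      exact hT.biUnion fun v _ => above_finite v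
    exact h2
  have : Fintype {w : HeightOneSpectrum (𝓞 E) // w.under (𝓞 F) ∈ T} := Fintype.ofFinite _
  have hfinG : Finite (E ≃ₐ[F] E) := inferInstance
  -- the permutation
  let e : Equiv.Perm {w : HeightOneSpectrum (𝓞 E) // w.under (𝓞 F) ∈ T} :=
    { toFun := fun w => ⟨act σ⁻¹ w.1, by rw [act_under]; exact w.2⟩
      invFun := fun w => ⟨act σ w.1, by rw [act_under]; exact w.2⟩
      left_inv := fun w => Subtype.ext (act_act_inv σ w.1)
      right_inv := fun w => Subtype.ext (act_inv_act σ w.1) }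
  have he : ∀ w, (e w).1 = act σ⁻¹ w.1 := fun w => rfl
  have hek : ∀ (k : ℕ) w, ((e ^ k) w).1 = act ((σ⁻¹) ^ k) w.1 := by
    intro k
    induction k with
    | zero => intro w; rw [pow_zero, pow_zero, Pool.Agent.TeamU.act_one]; rfl
    | succ k ih =>
      intro w
      rw [pow_succ, Equiv.Perm.mul_apply, ih, he, pow_succ, Pool.Agent.TeamU.act_mul]
  have ho : orderOf σ = Module.finrank F E := by
    rw [← card_gal, orderOf_eq_card_of_forall_mem_zpowers hσ]
  have hn0 : 0 < Module.finrank F E := by rw [← ho]; exact orderOf_pos σ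
  have hen : e ^ (Module.finrank F E) = 1 := by
    ext w
    rw [hek, ← ho, inv_pow, pow_orderOf_eq_one, inv_one, Pool.Agent.TeamU.act_one]
    rfl
  let π : {w : HeightOneSpectrum (𝓞 E) // w.under (𝓞 F) ∈ T} → T := fun w => ⟨w.1.under (𝓞 F), w.2⟩
  have hπ : Function.Surjective π := by
    rintro ⟨v, hv⟩
    obtain ⟨w, hw⟩ := above_nonempty (E := E) v
    exact ⟨⟨w, by rw [hw]; exact hv⟩, Subtype.ext hw⟩
  have horb : ∀ x x', π x = π x' ↔ ∃ k : ℕ, (e ^ k) x = x' := by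
    intro x x'
    constructor
    · intro h
      have h1 : x.1.under (𝓞 F) = x'.1.under (𝓞 F) := congrArg Subtype.val h
      obtain ⟨g, hg⟩ := trans_act h1
      obtain ⟨k, hk⟩ : ∃ k : ℕ, (σ⁻¹) ^ k = g := by
        have h2 : g ∈ Subgroup.zpowers σ⁻¹ := by
          rw [Subgroup.zpowers_inv]
          exact hσ g
        rw [← mem_powers_iff_mem_zpowers] at h2
        exact h2
      exact ⟨k, Subtype.ext (by rw [hek, hk, hg])⟩
    · rintro ⟨k, rfl⟩
      apply Subtype.ext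
      change x.1.under (𝓞 F) = ((e ^ k) x).1.under (𝓞 F)
      rw [hek, act_under]
  -- the orders of the orbits divide the order of the group
  have hdiv : ∀ y : T, Nat.card {x // π x = y} ∣ Module.finrank F E := by
    intro y
    let _ := Pool.Agent.TeamU.galMulAction F E
    obtain ⟨x0, hx0⟩ := hπ y
    have h1 : Nat.card {x // π x = y} = Nat.card (MulAction.orbit (E ≃ₐ[F] E) x0.1) := by
      refine Nat.card_congr ⟨fun x => ⟨x.1.1, ?_⟩, fun z => ⟨⟨z.1, ?_⟩, ?_⟩, fun x => ?_, fun z => ?_⟩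
      · have h2 : x0.1.under (𝓞 F) = x.1.1.under (𝓞 F) := by
          have h3 : π x0 = π x.1 := by rw [hx0, x.2]
          exact congrArg Subtype.val h3
        obtain ⟨g, hg⟩ := trans_act h2
        exact ⟨g, hg⟩
      · obtain ⟨g, hg⟩ := z.2
        have h2 : z.1 = act g x0.1 := hg.symm
        rw [h2, act_under]
        exact x0.2
      · obtain ⟨g, hg⟩ := z.2
        have h2 : z.1 = act g x0.1 := hg.symm
        rw [← hx0]
        apply Subtype.ext
        change z.1.under (𝓞 F) = x0.1.under (𝓞 F)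
        rw [h2, act_under]
      · rfl
      · rfl
    rw [h1, ← card_gal, Nat.card_congr (MulAction.orbitEquivQuotientStabilizer (E ≃ₐ[F] E) x0.1)]
    exact (MulAction.stabilizer (E ≃ₐ[F] E) x0.1).index_dvd_card
  have hcongr : ∀ y : T, Nat.card {x // π x = y} =
      Nat.card {w : HeightOneSpectrum (𝓞 E) // w.under (𝓞 F) = y.1} := by
    intro y
    refine Nat.card_congr ⟨fun x => ⟨x.1.1, congrArg Subtype.val x.2⟩,
      fun z => ⟨⟨z.1, by rw [z.2]; exact y.2⟩, Subtype.ext z.2⟩, fun x => rfl, fun z => rfl⟩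
  -- the isomorphism with the functions
  let φ : SupE F E T ≃+ ({w : HeightOneSpectrum (𝓞 E) // w.under (𝓞 F) ∈ T} → ℤ) :=
    { toFun := fun D w => (D : Dv E) w.1
      invFun := fun a => ⟨Finsupp.ofSupportFinite (fun w => if h : w.under (𝓞 F) ∈ T then a ⟨w, h⟩ else 0) (by
          refine Set.Finite.subset (s := {w : HeightOneSpectrum (𝓞 E) | w.under (𝓞 F) ∈ T}) hXf ?_
          intro w hw
          by_contra h
          exact hw (dif_neg h)), by
          intro w hw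
          rw [Finsupp.ofSupportFinite_coe, dif_neg hw]⟩
      left_inv := by
        intro D
        apply Subtype.ext
        ext w
        change (if h : w.under (𝓞 F) ∈ T then (D : Dv E) w else 0) = (D : Dv E) w
        split_ifs with h
        · rfl
        · exact (D.2 w h).symm
      right_inv := by
        intro a
        funext w
        change (if h : w.1.under (𝓞 F) ∈ T then a ⟨w.1, h⟩ else 0) = a w
        rw [dif_pos w.2]
      map_add' := by
        intro D D'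
        rfl }
  let τ : AddMonoid.End ({w : HeightOneSpectrum (𝓞 E) // w.under (𝓞 F) ∈ T} → ℤ) :=
    { toFun := fun a w => a (e w)
      map_zero' := rfl
      map_add' := fun _ _ => rfl }
  have hφ : ∀ D, φ (ι D) = τ (φ D) := by
    intro D
    funext w
    change ((ι D : SupE F E T) : Dv E) w.1 = (D : Dv E) (act σ⁻¹ w.1)
    rw [hι D, sD_apply]
  obtain ⟨hq0, hq1⟩ := q_equiv φ ι τ hφ (Module.finrank F E)
  have hcard : ∀ y : T, Nat.card {x // π x = y} * (Module.finrank F E / Nat.card {x // π x = y}) =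
      Module.finrank F E := fun y => Nat.mul_div_cancel' (hdiv y)
  obtain ⟨h1, h0⟩ := Pool.Agent.Q225.AR.perm _ _ e (Module.finrank F E) π
    (fun y => Module.finrank F E / Nat.card {x // π x = y}) τ
    hn0 hen hπ horb hcard (fun _ _ => rfl)
  refine ⟨fun y => ⟨?_, ?_⟩, ?_, ?_⟩
  · rw [← hcongr]
    have h2 := hcard y
    refine Nat.pos_of_ne_zero fun h3 => ?_
    rw [h3, zero_mul] at h2
    omega
  · rw [← hcongr]
    exact hdiv y
  · rw [hq1, h1]
  · rw [hq0, h0]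
    exact Finset.prod_congr rfl fun y _ => by rw [hcongr]

theorem nonSplit_iff {v : HeightOneSpectrum (𝓞 F)} : NonSplit E v ↔
    Nat.card {w : HeightOneSpectrum (𝓞 E) // w.under (𝓞 F) = v} = 1 := by
  rw [Nat.card_eq_one_iff_unique]
  constructor
  · intro h
    refine ⟨⟨fun w w' => Subtype.ext (h w.1 w'.1 w.2 w'.2)⟩, ?_⟩
    obtain ⟨w, hw⟩ := Pool.Agent.Q182.AR.exists_above (E := E) v
    exact ⟨⟨w, hw⟩⟩
  · rintro ⟨h, -⟩ w w' hw hw'
    exact congrArg Subtype.val (h.elim ⟨w, hw⟩ ⟨w', hw'⟩)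

/-- degree two -/
theorem q_SupE_two [IsGalois F E] {σ : E ≃ₐ[F] E} (hσ : ∀ g : E ≃ₐ[F] E, g ∈ Subgroup.zpowers σ)
    (h2 : finrank F E = 2)
    {T : Set (HeightOneSpectrum (𝓞 F))} (hT : T.Finite) (ι : AddMonoid.End (SupE F E T))
    (hι : IsRes (sD σ) ι) :
    q1 ι (finrank F E) = 1 ∧
    q0 ι (finrank F E) = 2 ^ Nat.card {v : HeightOneSpectrum (𝓞 F) // v ∈ T ∧ NonSplit E v} := by
  classical
  have hTf : Finite T := hT
  have : Fintype T := Fintype.ofFinite _
  obtain ⟨h0, h1, h3⟩ := q_SupE_val hσ hT ι hι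
  refine ⟨h1, ?_⟩
  rw [h3]
  have h4 : ∀ y : T, finrank F E / Nat.card {w : HeightOneSpectrum (𝓞 E) // w.under (𝓞 F) = y.1} =
      if NonSplit E y.1 then 2 else 1 := by
    intro y
    obtain ⟨h5, h6⟩ := h0 y
    rw [h2] at h6 ⊢
    rcases (Nat.dvd_prime Nat.prime_two).1 h6 with h7 | h7
    · rw [if_pos (nonSplit_iff.2 h7), h7]
    · rw [if_neg (fun h => by rw [nonSplit_iff.1 h] at h7; omega), h7]
  rw [Finset.prod_congr rfl fun y _ => h4 y, Finset.prod_ite, Finset.prod_const, Finset.prod_const,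
    one_pow, mul_one]
  congr 1
  rw [← Fintype.card_subtype, ← Nat.card_eq_fintype_card]
  exact Nat.card_congr ⟨fun x => ⟨x.1.1, x.1.2, x.2⟩, fun z => ⟨⟨z.1, z.2.1⟩, z.2.2⟩,
    fun x => rfl, fun z => rfl⟩

end

end Pool.Agent.H429.MZQ.LBN

namespace Pool.Agent.H429.MZQ

open NumberField IsDedekindDomain Module Pool.Agent.Q92.AR LBN

/-- JOB MZ-LB: the local norm index of a quadratic extension. -/
theorem lb : Pool.Agent.Q5.MZ.J_LB := by
  intro hLA k E _ _ _ _ _ _ σ N1 N2 A hdeg h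
  rw [← q0_gam h]
  have hn0 : 0 < finrank k E := finrank_pos
  have hq1 := q1_gam hLA h
  obtain ⟨hi1, hi0⟩ := q_SupE_two h.gen hdeg (T := TT k N1)
    (Pool.Agent.Q125.AR.finite_dvd h.n1) (iot σ N1) (Pool.Agent.Q182.AR.resE_isRes _ _ _)
  have hkerst : ∀ u ∈ (pp h).ker, gam h u ∈ (pp h).ker := by
    intro u hu
    rw [AddMonoidHom.mem_ker] at hu ⊢
    rw [pp_gam, hu, map_zero]
  have hfin := pp_ker_finite h
  have hα : IsRes (gam h) (Pool.Agent.Q182.AR.resE (gam h) (pp h).ker hkerst) :=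
    Pool.Agent.Q182.AR.resE_isRes _ _ _
  have hαn := Pool.Agent.Q182.AR.res_pow_one hα (gam_pow h)
  obtain ⟨hα0, hα1⟩ := Pool.Agent.Q150.AR.hFin (pp h).ker
    (Pool.Agent.Q182.AR.resE (gam h) (pp h).ker hkerst) (finrank k E) hn0 hαn
  have hιn : iot σ N1 ^ finrank k E = 1 :=
    Pool.Agent.Q182.AR.res_pow_one (Pool.Agent.Q182.AR.resE_isRes _ _ _)
      (Pool.Agent.Q182.AR.sD_pow_finrank σ)
  obtain ⟨l1, -, -, l4⟩ := Pool.Agent.Q150.AR.hex (pp h).ker (CC A) (SupE k E (TT k N1))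
    (Pool.Agent.Q182.AR.resE (gam h) (pp h).ker hkerst) (gam h) (iot σ N1) (pp h).ker.subtype (pp h)
    (finrank k E) hn0 hαn (gam_pow h) hιn (AddSubgroup.subtype_injective _) (pp_surj h)
    (AddSubgroup.range_subtype _) (fun _ => rfl) (pp_gam h)
  have hα1' : q1 (Pool.Agent.Q182.AR.resE (gam h) (pp h).ker hkerst) (finrank k E) ≠ 0 := by
    rw [← hα0]; exact hα1
  have hi0' : q0 (iot σ N1) (finrank k E) ≠ 0 := by
    rw [hi0]
    exact pow_ne_zero _ two_ne_zero
  have hi1' : q1 (iot σ N1) (finrank k E) ≠ 0 := by rw [hi1]; exact one_ne_zero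
  obtain ⟨b0, b1⟩ := l1 ⟨hα1, hα1', hi0', hi1'⟩
  have e := l4 ⟨hα1, hα1', b0, b1, hi0', hi1'⟩
  rw [hi1, hq1, mul_one, one_mul, hα0, mul_comm] at e
  rw [Nat.eq_of_mul_eq_mul_left (Nat.pos_of_ne_zero hα1') e, hi0]
  rfl

end Pool.Agent.H429.MZQ
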