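import Pool.Agent.H429.MZQ.StmF

/-!
# Project MZQ (helper429), job QEQ: fields of the family embed in `ℚ_S`
-/

set_option autoImplicit false
set_option linter.unusedSectionVars false

namespace Pool.Agent.H429.MZQ

open NumberField IsDedekindDomain Module
open Pool.Agent.Q92.AR (Unramified)
open Pool.Agent.Q5.MZ (KData TwoPow TwoUnram S438)

namespace QEQN

/-- Ramification is multiplicative. -/
theorem unr_trans {F L M : Type} [Field F] [NumberField F] [Field L] [NumberField L] [Field M]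
    [NumberField M] [Algebra F L] [Algebra L M] [Algebra F M] [IsScalarTower F L M]
    {v : HeightOneSpectrum (𝓞 F)} (h1 : Unramified L v)
    (h2 : ∀ w : HeightOneSpectrum (𝓞 L), w.under (𝓞 F) = v → Unramified M w) :
    Unramified M v := by
  intro P hP hle
  have hmap : algebraMap (𝓞 F) (𝓞 M) = (algebraMap (𝓞 L) (𝓞 M)).comp (algebraMap (𝓞 F) (𝓞 L)) :=
    IsScalarTower.algebraMap_eq (𝓞 F) (𝓞 L) (𝓞 M)
  have hw : (P.under (𝓞 L)).under (𝓞 F) = v := by
    rw [← hP]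
    apply HeightOneSpectrum.ext
    change (P.asIdeal.comap (algebraMap (𝓞 L) (𝓞 M))).comap (algebraMap (𝓞 F) (𝓞 L)) =
      P.asIdeal.comap (algebraMap (𝓞 F) (𝓞 M))
    rw [hmap, ← Ideal.comap_comap]
  -- below
  have k1 := h1 _ hw
  have k2 := h2 _ hw P rfl
  set w := P.under (𝓞 L) with hwdef
  have hwP : w.asIdeal = P.asIdeal.comap (algebraMap (𝓞 L) (𝓞 M)) := rfl
  have d1 : v.asIdeal.map (algebraMap (𝓞 F) (𝓞 L)) ≤ w.asIdeal := by
    rw [Ideal.map_le_iff_le_comap, ← hw]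
    exact le_rfl
  obtain ⟨J, hJ⟩ := Ideal.dvd_iff_le.2 d1
  have hJw : ¬ J ≤ w.asIdeal := by
    intro h
    refine k1 ?_
    rw [hJ, pow_two]
    exact Ideal.mul_mono le_rfl h
  have d2 : w.asIdeal.map (algebraMap (𝓞 L) (𝓞 M)) ≤ P.asIdeal := by
    rw [Ideal.map_le_iff_le_comap, hwP]
  obtain ⟨J2, hJ2⟩ := Ideal.dvd_iff_le.2 d2
  have hJ2P : ¬ J2 ≤ P.asIdeal := by
    intro h
    refine k2 ?_
    rw [hJ2, pow_two]
    exact Ideal.mul_mono le_rfl h
  rw [hmap, ← Ideal.map_map, hJ, Ideal.map_mul, hJ2, pow_two, mul_assoc] at hle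
  have h3 : J2 * J.map (algebraMap (𝓞 L) (𝓞 M)) ≤ P.asIdeal := by
    rw [← Ideal.dvd_iff_le] at hle ⊢
    exact (mul_dvd_mul_iff_left P.ne_bot).1 hle
  rcases (P.isPrime.mul_le).1 h3 with h | h
  · exact hJ2P h
  · refine hJw ?_
    rw [hwP, ← Ideal.map_le_iff_le_comap]
    exact h

theorem two_not_mem {K : Type} [Field K] [NumberField K] {v : HeightOneSpectrum (𝓞 ℚ)}
    (hv : v ∉ S438) {w : HeightOneSpectrum (𝓞 K)} (hw : w.under (𝓞 ℚ) = v) :
    (2 : 𝓞 K) ∉ w.asIdeal := by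
  intro h2
  refine hv ?_
  change (438 : 𝓞 ℚ) ∈ v.asIdeal
  rw [← hw]
  change algebraMap (𝓞 ℚ) (𝓞 K) 438 ∈ w.asIdeal
  have e : algebraMap (𝓞 ℚ) (𝓞 K) 438 = 219 * 2 := by
    rw [map_ofNat]
    norm_num
  rw [e]
  exact w.asIdeal.mul_mem_left _ h2

/-- A field of finite degree, unramified outside `438`, with an embedding in the algebraic closure. -/
theorem lift_mem (hbr : S_BRQ) {E : Type} [Field E] [NumberField E]
    (hu : ∀ v : HeightOneSpectrum (𝓞 ℚ), v ∉ S438 → Unramified E v) (f : E →ₐ[ℚ] MZ.Om) :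
    ∃ ι : E →ₐ[ℚ] QSm, ∀ x, ((ι x : QSm) : MZ.Om) = f x := by
  have h := hbr ℚ MZ.Om S438 E f hu
  refine ⟨{ toFun := fun x => ⟨f x, h x⟩, map_one' := ?_, map_mul' := ?_, map_zero' := ?_, map_add' := ?_, commutes' := ?_ }, fun x => rfl⟩
  · exact Subtype.ext (map_one f)
  · exact fun x y => Subtype.ext (map_mul f x y)
  · exact Subtype.ext (map_zero f)
  · exact fun x y => Subtype.ext (map_add f x y)
  · exact fun q => Subtype.ext (f.commutes q)

end QEQN

open QEQN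

theorem qeq : J_QEQ := by
  intro hbr K _ _ r hK
  refine ⟨?_, ?_⟩
  · intro E E' _ _ _ _ _ _ _ _ ι _ _ htu
    have hu : ∀ v : HeightOneSpectrum (𝓞 ℚ), v ∉ S438 → Unramified E' v := by
      intro v hv
      refine unr_trans (L := K) (hK.unr v hv) fun w hw => ?_
      exact htu w (two_not_mem hv hw)
    let j : E →+* MZ.Om := ((MZ.FSmax S438 : IntermediateField ℚ MZ.Om).val : QSm →+* MZ.Om).comp
      (ι : E →+* QSm)
    let _ : Algebra E MZ.Om := j.toAlgebra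
    have : Algebra.IsAlgebraic E E' := Algebra.IsAlgebraic.tower_top (K := ℚ) E
    let f : E' →ₐ[E] MZ.Om := IsAlgClosed.lift
    obtain ⟨ι', hι'⟩ := lift_mem hbr hu (RingHom.toRatAlgHom (f : E' →+* MZ.Om))
    refine ⟨ι', fun x => Subtype.ext ?_⟩
    rw [hι']
    exact f.commutes x
  · let f : K →ₐ[ℚ] MZ.Om := IsAlgClosed.lift
    obtain ⟨ι', _⟩ := lift_mem hbr hK.unr f
    exact ⟨ι'⟩

end Pool.Agent.H429.MZQ
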