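import Pool.Graph.R_pool_sql_team_seeded_3997aac3.Q5.MZ.Stm5
import Pool.Graph.R_seed8.W566.MZ.Stmts

/-!
# Project MZQ (helper429), part E: ring theory, improved bound `5 ≤ dim R/2R`

`MinGen`, `idn`, `LP`, `HL`, `dfst`: `Pool.Graph.R_pool_sql_team_seeded_3997aac3.Q5.MZ.Stm4`.
`MZ.CNL`, `MZ.IsLift`, `MZ.IsUniversal`: `Pool.Graph.R_seed8.W566.MZ.Defs`.
-/

set_option autoImplicit false
set_option linter.unusedSectionVars false

namespace Pool.Agent.H429.MZQ

open IsLocalRing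
open Pool.Agent.Q5.MZ (MinGen idn LP HL dfst)

/-- JOB KYQ.  The relations are generated by the entries of `M²`.
Proof: steps (1) and (2) of the docstring of `Pool.Agent.Q5.MZ.S_KY` (Stm4.lean): with `I1` the ideal generated by the
entries of `M' M'` and `n^N` one shows `J = I1`, where `J` is the preimage of `m^N` under `aeval e`. -/
def S_KYQ : Prop := ∀ (A : Type) [CommRing A] [IsLocalRing A] [IsNoetherianRing A] [Algebra (ZMod 2) A] (h : ℕ)
  (e : Fin h → A) (M : Matrix (Fin 3) (Fin 3) A), MinGen A e → (∀ i j, M i j ∈ maximalIdeal A) → M * M = 0 →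
  LP A M →
  ∀ N : ℕ, 2 ≤ N → ∃ M' : Matrix (Fin 3) (Fin 3) (MvPolynomial (Fin h) (ZMod 2)), (∀ i j, M' i j ∈ idn h) ∧
    ∀ F : MvPolynomial (Fin h) (ZMod 2), MvPolynomial.aeval e F ∈ (maximalIdeal A) ^ N →
      F ∈ Ideal.span (Set.range fun q : Fin 3 × Fin 3 => (M' * M') q.1 q.2) ⊔ (idn h) ^ N

/-- the generic `3 × 3` matrix, over the polynomial ring with `h` further variables -/
noncomputable def Zm (h : ℕ) : Matrix (Fin 3) (Fin 3) (MvPolynomial ((Fin 3 × Fin 3) ⊕ Fin h) (ZMod 2)) :=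
  Matrix.of fun i j => MvPolynomial.X (Sum.inl (i, j))

/-- JOB CHQ.  A chain of `h + 5` primes containing the entries of `Z²`.
Proof.  Write `T' = 𝔽₂[z_ij, x_1, .., x_h]`, `D = 𝔽₂[u_1, u_2, u_3, v_1, v_2, v_3, x_1, .., x_h]` (a domain) and
`Φ_0 : T' → D`, `x_i ↦ x_i`, `z_ij ↦ u_i w_j`, `w = v × u = (v2 u3 - v3 u2, v3 u1 - v1 u3, v1 u2 - v2 u1)`; as `w · u = 0`, the image
of `Z` has square `u (w · u) wᵀ = 0`.  `Φ_1, Φ_2, Φ_3, Φ_4`: compose with the specialisations `u3 ↦ 0`; `u3, u2 ↦ 0`;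
`u3, u2, v2 ↦ 0`; `u3, u2, v2, v3 ↦ 0`; then `Φ_{4+i}`: moreover `x_1, .., x_i ↦ 0`.  `P_i = ker Φ_i` is prime, increasing, and strictly:
`z_31 ∈ P_1 \ P_0`, `z_21 ∈ P_2 \ P_1`, `z_13 ∈ P_3 \ P_2`, `z_12 ∈ P_4 \ P_3` (indices from 1), `x_{i+1} ∈ P_{4+i+1} \ P_{4+i}`.
In `P_4` all `z_ij` vanish, and `P_{4+h}` is the kernel of the constant coefficient (equivalently the ideal generated by all variables). -/
def S_CHQ : Prop := ∀ h : ℕ, ∃ P : Fin (h + 5) → Ideal (MvPolynomial ((Fin 3 × Fin 3) ⊕ Fin h) (ZMod 2)),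
  StrictMono P ∧ (∀ i, (P i).IsPrime) ∧ (∀ i a b, (Zm h * Zm h) a b ∈ P i) ∧
  P (Fin.last _) = RingHom.ker (MvPolynomial.constantCoeff (σ := (Fin 3 × Fin 3) ⊕ Fin h) (R := ZMod 2))

/-- JOB RGQ.  The dimension is at least five.
Proof.  `T = 𝔽₂[x_1, .., x_h]`, `n = idn h`, `φ = aeval e : T → A`.  Suppose `dim A ≤ 4`.  There are `t_1, .., t_4 ∈ m` and `k ≥ 1`
with `m^k ⊆ (t_1, .., t_4)` (Mathlib: for the maximal ideal, of height `dim A ≤ 4`, there is an ideal `J ≤ m` with at most four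
generators of the same height, `Ideal.exists_spanRank_le_and_le_height_of_le_height` or similar; so `m` is minimal over `J`,
`m^k ⊆ J` as `A` is Noetherian; pad the generators with zeros).  Put `N = k + 1` and take `M'` of the hypothesis.  There are
`t'_i ∈ n` with `φ(t'_i) - t_i ∈ m^N` (`φ` is surjective modulo `m^N` by `MinGen.gen`, induction on `N`).
Claim: `n^k ⊆ a + n^N`, `a = (t'_i, entries of M' M')`: for `F ∈ n^k`, `φ(F) ∈ m^k`, `φ(F) = ∑ t_i b_i`, `b_i ≡ φ(b'_i)`, so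
`φ(F - ∑ t'_i b'_i) ∈ m^N` and the hypothesis gives `F - ∑ t'_i b'_i ∈ (M' M') + n^N`.
Now let `T' = 𝔽₂[z_ij, x_1, .., x_h]`, `n'` the kernel of its constant coefficient, `I_Z` the ideal generated by the entries of
`Z² = Zm h * Zm h`, `C = T'/I_Z` (Noetherian), `b ⊆ T'` the ideal generated by the 9 elements `z_ij - M'_ij(x)` and the 4 elements
`t'_i(x)`.  Modulo `b` we have `z_ij ≡ M'_ij`, so `n' ⊆ n T' + b` and the entries of `M' M'` are in `b + I_Z`; so
`n'^k ⊆ n^k T' + b ⊆ b + I_Z + n'^{k+1}`.  By Nakayama in the localization at `n'` (or: there is `u ∉ n'` with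
`u n'^k ⊆ b + I_Z`) the prime `n'/I_Z` of `C` is minimal over the ideal `b C` with 13 generators, so its height is at most `13` (Krull,
`Ideal.height_le_spanRank_toENat` or `Ideal.height_le_spanFinrank`).  But the chain of `S_CHQ` gives a chain of primes of `C` of
length `h + 4 ≥ 14` ending in `n'/I_Z`: contradiction. -/
def S_RGQ : Prop := ∀ (A : Type) [CommRing A] [IsLocalRing A] [IsNoetherianRing A] [Algebra (ZMod 2) A] (h : ℕ)
  (e : Fin h → A), MinGen A e → 10 ≤ h →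
  (∀ N : ℕ, 2 ≤ N → ∃ M' : Matrix (Fin 3) (Fin 3) (MvPolynomial (Fin h) (ZMod 2)), (∀ i j, M' i j ∈ idn h) ∧
    ∀ F : MvPolynomial (Fin h) (ZMod 2), MvPolynomial.aeval e F ∈ (maximalIdeal A) ^ N →
      F ∈ Ideal.span (Set.range fun q : Fin 3 × Fin 3 => (M' * M') q.1 q.2) ⊔ (idn h) ^ N) →
  5 ≤ ringKrullDim A

def J_RGQ : Prop := S_CHQ → S_RGQ

/-- JOB CTQ.  Counting homomorphisms to the dual numbers.
Proof.  As `Pool.Agent.Q5.MZ.S_CT` (Stm4.lean): `m/m²` is a finite dimensional vector space over the residue field, which has two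
elements; let `h` be its dimension and `e_1, .., e_h ∈ m` lifts of a basis (`MinGen`).  A ring homomorphism `α : A → 𝔽₂[ε]` maps `m` to
`(ε)` and `m²` to `0`, and every element of `A` is `0` or `1` plus an element of `m`, so `α` is determined by
`(α(e_1), .., α(e_h)) ∈ (ε)^h`, a set with `2^h` elements.  So `1024 ≤ 2^h`. -/
def S_CTQ : Prop := ∀ (A : Type) [CommRing A] [IsLocalRing A] [IsNoetherianRing A] [Algebra (ZMod 2) A]
  (α : Fin 1024 → (A →+* DualNumber (ZMod 2))), (∀ a : A, a ∈ maximalIdeal A ∨ a - 1 ∈ maximalIdeal A) →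
  Function.Injective α → ∃ (h : ℕ) (e : Fin h → A), 10 ≤ h ∧ MinGen A e

/-- the ring theoretic part -/
def S_RTQ : Prop := ∀ (A : Type) [CommRing A] [IsLocalRing A] [IsNoetherianRing A] [Algebra (ZMod 2) A]
  (M : Matrix (Fin 3) (Fin 3) A) (α : Fin 1024 → (A →+* DualNumber (ZMod 2))),
  (∀ a : A, a ∈ maximalIdeal A ∨ a - 1 ∈ maximalIdeal A) → (∀ i j, M i j ∈ maximalIdeal A) → M * M = 0 →
  LP A M → Function.Injective α → 5 ≤ ringKrullDim A

/-- many lifts to the dual numbers -/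
def HTQ {G : Type} [Group G] [TopologicalSpace G] (rbar : G →* GL (Fin 3) (ZMod 2)) (Kr : Subgroup G) : Prop :=
  ∃ r : Fin 1024 → (G →* GL (Fin 3) (DualNumber (ZMod 2))),
    (∀ i, IsOpen (((r i).ker : Subgroup G) : Set G)) ∧ (∀ i, ∀ g ∈ Kr, r i g = 1) ∧
    (∀ i g, Matrix.GeneralLinearGroup.map dfst (r i g) = rbar g) ∧
    ∀ i j, i ≠ j → ∃ g, rbar g = 1 ∧ r i g ≠ r j g

/-- JOB ABSQ. **The dimension of the universal deformation ring**.
Proof.  Let `red = R.res`.  `𝔞 ⊆ R` the ideal generated by `2` and the entries of `ru(g) - 1`, `g ∈ Kr`; `𝔞 ⊆ m_R = ker red`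
(`ρ̄(g) = 1` on `Kr`).
`A = R/𝔞` is a Noetherian local ring, an `𝔽₂`-algebra, with residue field `𝔽₂`; `M = ru(c) - 1` over `A`: entries in `m`,
`(1 + M)² = 1`, so `M M = 0` (`2 = 0`).
(LP) Let `N ≥ 2`, `B`, `q`, `X` be as in `LP`.  `A/m^N` is finite (as an image of `B`) and the image `rA` of `ru` in it has
open kernel (continuity of `ru`: `m_R^N` maps to `0`) and is trivial on `Kr`.  `x = 1 + X`, `x² = 1 + X X = 1`, is a unit.  `HL` gives
`rB : G → GL₃(B)`.  `B` is a `W(𝔽₂)`-algebra through `W(𝔽₂) → 𝔽₂ → B` and a `MZ.CNL` (the maximal ideal is nilpotent; residue field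
`𝔽₂`, via `q`), `rB` is a lift of `ρ̄`.  Universality: `f : R → B` with `f(ru)` strictly equivalent to `rB`; as `rB = 1` on `Kr`,
`f(ru(g)) = 1` for `g ∈ Kr`, so `f` kills `𝔞`: `α : A → B`.  `q ∘ f` and the canonical map `R → A/m^N` both transform `ru` into a lift
strictly equivalent to `rA`, so they are equal by uniqueness (`A/m^N` is a `MZ.CNL`, too).
(1024) The `r i` of `HTQ` are lifts to `𝔽₂[ε]`, a `MZ.CNL` ring, trivial on `Kr`, so they give `f_i : R → 𝔽₂[ε]`, killing `𝔞`,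
`α_i : A → 𝔽₂[ε]`.  If `α_i = α_j` then `r i`, `r j` are strictly equivalent: `r j g = u (r i g) u⁻¹`, `u ≡ 1 mod ε`.  If `ρ̄(g) = 1` then
`r i g ≡ 1 mod ε` commutes with `u` (`ε² = 0`), so `r j g = r i g`; contradiction to the last property in `HTQ` if `i ≠ j`.
So `S_RTQ` gives `5 ≤ dim A`, and `R/2R → A` is surjective (`ringKrullDim_le_of_surjective`). -/
def S_ABSQ : Prop := ∀ (G : Type) [Group G] [TopologicalSpace G] [IsTopologicalGroup G]
  (rbar : G →* GL (Fin 3) (ZMod 2)) (Kr : Subgroup G) (c : G), (∀ g ∈ Kr, rbar g = 1) → c ^ 2 = 1 → rbar c = 1 →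
  HL rbar Kr c → HTQ rbar Kr →
  ∀ (R : MZ.CNL 2 (ZMod 2)) (ru : G →* GL (Fin 3) R.A), MZ.IsUniversal rbar R ru →
    5 ≤ ringKrullDim (R.A ⧸ Ideal.span {((2 : ℕ) : R.A)})

def J_ABSQ : Prop := S_RTQ → S_ABSQ

theorem rtq (h1 : S_RGQ) (h2 : S_KYQ) (h3 : S_CTQ) : S_RTQ := by
  intro A _ _ _ _ M α hres hM hMM hLP hα
  obtain ⟨h, e, hh, he⟩ := h3 A α hres hα
  exact h1 A h e he hh (h2 A h e M he hM hMM hLP)

end Pool.Agent.H429.MZQ
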