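import Pool.Agent.H429.MZQ.StmE

/-!
# Project MZQ (helper429), part F: the bridge between the embedding problems and the deformation ring

`S438` the set of the primes `2, 3, 73` of `ℚ`, `QSm = ℚ_S ⊆ MZ.Om = AlgebraicClosure ℚ` the field `MZ.FSmax S438`,
`GQ = MZ.GFS MZ.Om S438 = Gal(ℚ_S/ℚ)`, `K` the field of degree 21 (`KData`), embedded in `ℚ_S` by `κ`.
This is part F of the library project (`Stm5.lean`), with the field `MZ.FSmax` instead of `maxUnram`, and with
`2^10` instead of `2^9` lifts to the dual numbers.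
`ℚ_S/ℚ` is Galois: `Pool.Agent.W178.MZK.K7 : MZ.StmK7` (module `Pool.Graph.R_seed8.W178.MZ...`, see the job text).
-/

set_option autoImplicit false
set_option linter.unusedSectionVars false

namespace Pool.Agent.H429.MZQ

open NumberField IsDedekindDomain Module
open Pool.Agent.Q92.AR (Dv prin Unramified)
open Pool.Agent.Q5.MZ (KData TwoPow TwoUnram OneDyadic OddClass matA matB S438 dfst HL S_KU S_GB S_EM S_BC)

/-- the field `ℚ_S` -/
abbrev QSm : Type := (MZ.FSmax S438 : IntermediateField ℚ MZ.Om)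

/-- the group `G_{ℚ,S}` -/
abbrev GQ : Type := MZ.GFS MZ.Om S438

/-- `E` is a `2`-extension of `K`, unramified outside `2`, Galois over `ℚ`, embedded in `ℚ_S` by `ι` over `κ` -/
structure Fam (K : Type) [Field K] [NumberField K] (κ : K →ₐ[ℚ] QSm) (E : Type) [Field E] [NumberField E] [Algebra K E]
    (ι : E →ₐ[ℚ] QSm) : Prop where
  gal : IsGalois ℚ E
  two : TwoPow K E
  unr : TwoUnram K E
  comp : ∀ a : K, ι (algebraMap K E a) = κ a

/-- the automorphisms of `ℚ_S` which are trivial on all fields of the family -/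
def Kr (K : Type) [Field K] [NumberField K] (κ : K →ₐ[ℚ] QSm) : Subgroup GQ where
  carrier := {g | ∀ (E : Type) (_ : Field E) (_ : NumberField E) (_ : Algebra K E) (ι : E →ₐ[ℚ] QSm),
    Fam K κ E ι → ∀ x : E, g (ι x) = ι x}
  one_mem' := fun _ _ _ _ _ _ _ => rfl
  mul_mem' := by
    intro a b ha hb E i1 i2 i3 ι h x
    show a (b (ι x)) = ι x
    rw [hb E i1 i2 i3 ι h x, ha E i1 i2 i3 ι h x]
  inv_mem' := by
    intro a ha E i1 i2 i3 ι h x
    show a⁻¹ (ι x) = ι x
    have h1 := ha E i1 i2 i3 ι h x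
    calc a⁻¹ (ι x) = a⁻¹ (a (ι x)) := by rw [h1]
      _ = ι x := by
        show (a⁻¹ * a) (ι x) = ι x
        rw [inv_mul_cancel]; rfl

/-- `ρ̄` is the representation `r` of `Gal(K/ℚ)` composed with the restriction to `κ(K)` -/
def IsRbar {K : Type} [Field K] [NumberField K] (r : (K ≃ₐ[ℚ] K) →* GL (Fin 3) (ZMod 2)) (κ : K →ₐ[ℚ] QSm)
    (rbar : GQ →* GL (Fin 3) (ZMod 2)) : Prop :=
  ∀ (g : GQ) (s : K ≃ₐ[ℚ] K), (∀ x, κ (s x) = g (κ x)) → rbar g = r s

/-- JOB QRQ. Restriction to a Galois subfield.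
Proof.  The image of `ι` is a finite Galois subextension of `ℚ_S/ℚ` (normal, so stable under all automorphisms); restriction
(`AlgEquiv.restrictNormalHom` for the intermediate field, or for `E` with the `E`-algebra structure of `ℚ_S` given by `ι`) is
surjective, as `ℚ_S/ℚ` is normal (`AlgEquiv.restrictNormalHom_surjective`; use the hypothesis `MZ.StmK7`), and its kernel is the
fixing subgroup of a finite extension, open in the Krull topology. -/
def S_QRQ : Prop := ∀ (E : Type) [Field E] [NumberField E] [IsGalois ℚ E] (ι : E →ₐ[ℚ] QSm),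
  ∃ res : GQ →* (E ≃ₐ[ℚ] E), Function.Surjective res ∧ IsOpen ((res.ker : Subgroup GQ) : Set GQ) ∧
    ∀ g x, ι (res g x) = g (ι x)

def J_QRQ : Prop := MZ.StmK7 → S_QRQ

/-- JOB BRQ. The bridge between the two notions of unramified extensions.
Proof.  Let `L` be the image of `ι` (`ι.fieldRange`, an intermediate field of `Ω/F`), finite over `F`.  To show:
`MZ.UnramifiedOutside S L`; then `L ≤ MZ.FSmax S` by definition (`le_iSup`).  Let `w` be a prime of `L`, not above a place in `S`, and let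
`w'` be the corresponding prime of `E` (`E ≃ L`), `v = w.under`, `v ∉ S`.  By hypothesis `Unramified E v` (`Pool.Agent.Q92.AR.Unramified`:
`v 𝓞_E ⊄ w'²`), so the ramification index of `w'` over `v` is `1`; the residue fields are finite, so `𝓞_E` is unramified at `w'` over
`𝓞_F` (Mathlib: `Algebra.isUnramifiedAt_iff_of_isDedekindDomain` or similar), and transport this along `E ≃ L`
(alternatively transport `Unramified` first). -/
def S_BRQ : Prop := ∀ (F Ω : Type) [Field F] [NumberField F] [Field Ω] [Algebra F Ω]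
  (S : Set (HeightOneSpectrum (𝓞 F))) (E : Type) [Field E] [NumberField E] [Algebra F E] (ι : E →ₐ[F] Ω),
  (∀ v : HeightOneSpectrum (𝓞 F), v ∉ S → Unramified E v) → ∀ x : E, ι x ∈ (MZ.FSmax S : IntermediateField F Ω)

/-- JOB QEQ. Fields of the family can be embedded in `ℚ_S`.
Proof.  `E'/ℚ` is unramified outside `S438`: let `v ∤ 438` be a prime of `ℚ`; all primes of `K` above `v` are unramified in `E'`
(they do not contain `2`), `v` is unramified in `K` (`KData.unr`), and ramification indices are multiplicative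
(`S_FR` of the library project AR, `Pool.Agent.Q225.AR.fr`, or directly with inertia groups, or with ramification indices in Mathlib).
The algebraic closure `MZ.Om` of `ℚ` is an `E`-algebra through `ι`; there is an `E`-homomorphism of `E'` into it
(`IsAlgClosed.lift`), and its image is contained in `ℚ_S` by `S_BRQ` (with `F = ℚ`, `Ω = MZ.Om`).
The second assertion (embedding of `K` itself): `KData.unr`, `S_BRQ`, any embedding of `K` in `MZ.Om`. -/
def S_QEQ : Prop := ∀ (K : Type) [Field K] [NumberField K] (r : (K ≃ₐ[ℚ] K) →* GL (Fin 3) (ZMod 2)), KData K r →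
  (∀ (E E' : Type) [Field E] [NumberField E] [Field E'] [NumberField E'] [Algebra K E] [Algebra K E'] [Algebra E E']
    [IsScalarTower K E E'] (ι : E →ₐ[ℚ] QSm), IsGalois ℚ E' → TwoPow K E' → TwoUnram K E' →
    ∃ ι' : E' →ₐ[ℚ] QSm, ∀ x : E, ι' (algebraMap E E' x) = ι x) ∧
  Nonempty (K →ₐ[ℚ] QSm)

def J_QEQ : Prop := S_BRQ → S_QEQ

/-- JOB QCQ. A homomorphism with open kernel, trivial on `Kr`, factors through a field of the family.
Proof.  For `(E, ι)` in the family let `U(E, ι) = {g : g is trivial on ι(E)}`, an open and closed subgroup of the compact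
group `GQ` (`ℚ_S/ℚ` is Galois by `MZ.StmK7`: Mathlib has the instance that the Galois group is compact).  The intersection of all
`U(E, ι)` is `Kr`, contained in the open set `ker r1`.  The family is directed: for `(E1, ι1)`, `(E2, ι2)` let `E3` be the compositum of
`ι1(E1)` and `ι2(E2)` in `ℚ_S` (an intermediate field of `ℚ_S/ℚ`, finite, Galois over `ℚ`, `K`-algebra through `κ`); `[E3 : K]` is a power
of two (`Gal(E3/K)` embeds in the product of the two groups) and `E3/K` is unramified outside `2` by `Pool.Agent.Q5.MZ.S_BC` (2)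
(Stm.lean of the library project; proved: `Pool.Agent.Q238.MZ.bc` in Q238/MZ/BC.lean).  `K` with `κ` itself
is in the family.  By compactness (finite intersections, directedness) one `U(E, ι)` is contained in `ker r1`. -/
def S_QCQ : Prop := ∀ (K : Type) [Field K] [NumberField K] (r : (K ≃ₐ[ℚ] K) →* GL (Fin 3) (ZMod 2)), KData K r →
  ∀ (κ : K →ₐ[ℚ] QSm) (H : Type) [Group H] (r1 : GQ →* H),
    IsOpen ((r1.ker : Subgroup GQ) : Set GQ) → (∀ g ∈ Kr K κ, r1 g = 1) →
    ∃ (E : Type) (_ : Field E) (_ : NumberField E) (_ : Algebra K E) (ι : E →ₐ[ℚ] QSm), Fam K κ E ι ∧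
      ∀ g : GQ, (∀ x : E, g (ι x) = ι x) → r1 g = 1

def J_QCQ : Prop := S_BC → MZ.StmK7 → S_QCQ

/-- JOB HLQ. Solvability of the small embedding problems.
Proof.  `A, B, q, rA, x` as in `HL`.  `S_QCQ` for `rA` gives `(E, ι)`, and `S_QRQ` gives `res : G → Gal(E/ℚ)`, surjective, with kernel
contained in `ker rA`: `rA = rA' ∘ res`.  `X = {(y, s) ∈ GL₃(B) × Gal(E/ℚ) : q y = rA' s}`, a finite group, `π(y, s) = s`.
`π` is surjective: `q` is surjective and its kernel `I = {0, ε}` consists of nilpotent elements, so every matrix over `B` lifting an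
invertible one is invertible.  `m_B ε = 0`: `b ε ∈ {0, ε}`, and `b ε = ε`, `b ∈ m_B`, would give `ε = 0` (`1 - b` is a unit);
`ε ∈ m_B` (`q` is a local map: `A` is nontrivial), so `ε² = 0`.  `ker π = {(1 + Y, 1) : Y` has entries in `I}`, and
`(1 + Y)² = 1 + 2 Y + Y² = 1`.  If `(y', s') ∈ X` and `s'` is trivial on `K` then `rA' s'` reduces to `ρ̄ = 1`, so `y' ≡ 1 mod m_B` and
`y' Y = Y = Y y'`: the kernel is centralized.
Let `σ ∈ Gal(E/ℚ)` be a complex conjugation, `χ : E → ℂ`, `χ(σ x) = conj χ(x)`.  `φ ∘ ι` is another embedding, `E/ℚ` is Galois, so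
`χ = φ ∘ ι ∘ τ` with `τ ∈ Gal(E/ℚ)`; `φ ι (τ σ x) = conj φ ι (τ x) = φ(c (ι (τ x))) = φ ι (res(c) τ x)`, so `σ = τ⁻¹ res(c) τ`.
Choose `(y, τ) ∈ X`; `(y, τ)⁻¹ (x, res c) (y, τ) ∈ X` lies over `σ` and its square is `1` (`c² = 1` follows from `φ(c x) = conj φ(x)`).
`S_EM` (Stm2.lean) gives `E'`, `ψ : Gal(E'/ℚ) → X`; `S_QEQ` gives `ι' : E' → ℚ_S` extending `ι`, so `(E', ι')` is in the family, and
`res'` (`S_QRQ`).  `rB = (first component) ∘ ψ ∘ res'`: open kernel, trivial on `Kr` (`res'(g) = 1`), and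
`q (rB g) = rA' ((res' g) restricted to E) = rA' (res g) = rA g`.  (`Odd (finrank ℚ K)`: `KData.deg`.) -/
def S_HLQ : Prop := ∀ (K : Type) [Field K] [NumberField K] (r : (K ≃ₐ[ℚ] K) →* GL (Fin 3) (ZMod 2)), KData K r →
  ∀ (κ : K →ₐ[ℚ] QSm) (rbar : GQ →* GL (Fin 3) (ZMod 2)) (φ : QSm →+* ℂ) (c : GQ), IsRbar r κ rbar →
    (∀ x, φ (c x) = (starRingEnd ℂ) (φ x)) → HL rbar (Kr K κ) c

def J_HLQ : Prop := S_EM → S_QRQ → S_QEQ → S_QCQ → S_HLQ

/-- JOB UNQ. Units and elements with even valuations outside `2` of the subfields of degree 7 and 3.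
Proof.  `K` is totally real (`[K : ℚ]` is odd and `K/ℚ` Galois: a complex conjugation `s` has `s² = 1`, so `s = 1`).  `N` the fixed field
of `τ` (degree 7: `τ` has order 3 as `r` is injective and `matB` has order 3), `L` the fixed field of `σ` (degree 3).  Both are totally
real.  Dirichlet (Mathlib: `NumberField.Units`): `(𝓞 N)ˣ = {± 1} × ℤ^6`, `(𝓞 L)ˣ = {± 1} × ℤ²` (the torsion is `± 1`, real
field).  `V_i` (`64` elements): the products of subsets of a basis of the free part for `N`; `W_j` (`16` elements): the products of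
subsets of `{-1, u_1, u_2, 2}` for `L`.  If `± V_i/V_j = s²` with `s ∈ K` take the norm to `N`: `(± V_i/V_j)³ = N(s)²`, so `± V_i/V_j` is a
square in `N`, of a unit; so `i = j`.  The same for `W` (norm to `L`: exponent 7, so `W_i/W_j = 2^a u` (`a ∈ {-1, 0, 1}`, `u` a unit of `L`)
is a square in `L`; the norm to `ℚ` is `± 2^(3a)`, a square of a rational number, so `a = 0`, and then `u` is the square of a unit, `i = j`). -/
def S_UNQ : Prop := ∀ (K : Type) [Field K] [NumberField K] (r : (K ≃ₐ[ℚ] K) →* GL (Fin 3) (ZMod 2)), KData K r →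
  ∀ σ τ : K ≃ₐ[ℚ] K, ((r σ : GL (Fin 3) (ZMod 2)) : Matrix (Fin 3) (Fin 3) (ZMod 2)) = matA →
    ((r τ : GL (Fin 3) (ZMod 2)) : Matrix (Fin 3) (Fin 3) (ZMod 2)) = matB →
    ∃ (V : Fin 64 → Kˣ) (W : Fin 16 → Kˣ), (∀ i, prin (V i) = 0) ∧
      (∀ j, ∀ w : HeightOneSpectrum (𝓞 K), (2 : 𝓞 K) ∉ w.asIdeal → Even (prin (W j) w)) ∧
      (∀ i, τ (V i : K) = V i) ∧ (∀ j, σ (W j : K) = W j) ∧
      (∀ i i', i ≠ i' → ¬ IsSquare ((V i : K) / V i') ∧ ¬ IsSquare (-((V i : K) / V i'))) ∧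
      ∀ j j', j ≠ j' → ¬ IsSquare ((W j : K) / W j')

/-- JOB TNQ. Many lifts to the dual numbers, finite level.
Proof.  `r` is injective and its image (order 21) is generated by `matA`, `matB`; `σ, τ` with `r σ = matA`, `r τ = matB`.  `V`, `W` from
`S_UNQ`, `E` from `S_KU` (Stm2.lean; for `K`, `K`, `T = {V_i, W_j}`); as `E/ℚ` is Galois all conjugates `g u`, `u ∈ T`, `g ∈ G = Gal(K/ℚ)`,
are squares in `E`.  For `a ∈ H = Gal(E/K)` and `u ∈ Kˣ` a square in `E` let `⟨a, u⟩ ∈ 𝔽₂` be defined by `a(√u) = (-1)^⟨a,u⟩ √u`;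
additive in `a` and in `u`, and `⟨h a h⁻¹, u⟩ = ⟨a, h⁻¹ u⟩` for `h ∈ Gal(E/ℚ)`.  `X0 = diag(0, 1, 1)` commutes with `matB`,
`Y0 = !![1, 1, 0; 0, 0, 1; 1, 0, 0]` commutes with `matA` (`decide`; if this is not the right `Y0` take another one: what is needed is the
injectivity statement below).  For `v = V_i`, `w = W_j` put
`f_{v,w}(a) = ∑_{g ∈ G} (⟨a, g v⟩ r(g) X0 r(g)⁻¹ + ⟨a, g w⟩ r(g) Y0 r(g)⁻¹) ∈ M₃(𝔽₂)`, a homomorphism with
`f(h a h⁻¹) = r(h|K) f(a) r(h|K)⁻¹`.  By `S_GB` (Stm2.lean; `H` is normal of index 21, `V = M₃(𝔽₂)` with the action by conjugation) there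
is a cocycle `α : Gal(E/ℚ) → M₃(𝔽₂)` extending `f`, and `ρ_{i,j}(h) = (1 + ε α(h)) r(h|K)` is a homomorphism to `GL₃(𝔽₂[ε])` lifting `r`.
Injectivity: suppose `f_{v,w} = f_{v',w'}` on `H`.  With `u = v/v'` (fixed by `τ`), `t = w/w'` (fixed by `σ`): `f_{u,t} = 0`.
`G = {σ^i τ^j}`, so `f_{u,t}(a) = 3 ∑_{i<7} ⟨a, σ^i u⟩ A^i X0 A^{-i} + 7 ∑_{j<3} ⟨a, τ^j t⟩ B^j Y0 B^{-j}` (`G = {τ^j σ^i}` for the second
part).  By `decide` (`2^10` cases): `∑ n_i A^i X0 A^{-i} + ∑ m_j B^j Y0 B^{-j} = 0` implies `n_0 = .. = n_6` and `m_j = 0`.  So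
`⟨a, t⟩ = 0` for all `a ∈ H`, `√t ∈ K`, so `w = w'`, `j = j'`.  And `⟨a, u/σ^i u⟩ = 0`, so `u/σ^i u` is a square in `K` for all `i`; the product
over `i < 7` is `u^7/∏ σ^i u`, and `∏ σ^i u` is fixed by `σ` and by `τ` (`τ σ τ⁻¹ = σ²`), so it is a rational number with trivial divisor,
`± 1`.  So `± u` is a square in `K`, hence `i = i'`.  `64 · 16 = 1024` (`finProdFinEquiv`). -/
def S_TNQ : Prop := ∀ (K : Type) [Field K] [NumberField K] [IsGalois ℚ K] (r : (K ≃ₐ[ℚ] K) →* GL (Fin 3) (ZMod 2)),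
  KData K r → ∃ (E : Type) (_ : Field E) (_ : NumberField E) (_ : Algebra K E), IsGalois ℚ E ∧ TwoPow K E ∧
    TwoUnram K E ∧ ∃ ρ : Fin 1024 → ((E ≃ₐ[ℚ] E) →* GL (Fin 3) (DualNumber (ZMod 2))),
      (∀ i g, Matrix.GeneralLinearGroup.map dfst (ρ i g) = r (AlgEquiv.restrictNormal g K)) ∧
      ∀ i j, i ≠ j → ∃ g : E ≃ₐ[ℚ] E, (∀ a : K, g (algebraMap K E a) = algebraMap K E a) ∧ ρ i g ≠ ρ j g

def J_TNQ : Prop := S_KU → S_GB → S_UNQ → S_TNQ

/-- JOB HTQ. Many lifts to the dual numbers.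
Proof.  `S_TNQ`, `ι : E → ℚ_S` from `S_QEQ` (applied to `K`, `κ`, and `E`), `res` from `S_QRQ`, `r i = ρ i ∘ res`.  For the last property:
the element `g` of `Gal(E/ℚ)` is `res g'`, and `ρ̄(g') = r(1) = 1`.  (`∀ g ∈ Kr, r i g = 1`: `(E, ι)` is in the family.) -/
def S_HTQ : Prop := ∀ (K : Type) [Field K] [NumberField K] (r : (K ≃ₐ[ℚ] K) →* GL (Fin 3) (ZMod 2)), KData K r →
  ∀ (κ : K →ₐ[ℚ] QSm) (rbar : GQ →* GL (Fin 3) (ZMod 2)), IsRbar r κ rbar → HTQ rbar (Kr K κ)

def J_HTQ : Prop := S_TNQ → S_QEQ → S_QRQ → S_HTQ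

/-- JOB DEQ. The representation `ρ̄` and its complex conjugation.
Proof.  `ρ̄ = r ∘ res`, `res` from `S_QRQ` for `K`, `κ` (`KData.gal`).  `φ : ℚ_S → ℂ` given: `conj ∘ φ` is another embedding of the Galois
extension `ℚ_S/ℚ` (`MZ.StmK7`), so there is `c ∈ G` with `φ(c x) = conj φ(x)`; `c² = 1`, so the image of `c` in `Gal(K/ℚ)`, a group
of order 21, is trivial.  `ρ̄(g)^21 = 1` as `Gal(K/ℚ)` has order 21.  `ρ̄ = 1` on `Kr` since `(K, κ)` is in the family
(`TwoPow K K`: degree 1; `TwoUnram K K`: `v ⊄ v²`).  There is an embedding `φ` of `ℚ_S` in `ℂ` as `ℚ_S/ℚ` is algebraic.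
The last property: `res` is surjective. -/
def S_DEQ : Prop := ∀ (K : Type) [Field K] [NumberField K] (r : (K ≃ₐ[ℚ] K) →* GL (Fin 3) (ZMod 2)), KData K r →
  ∀ κ : K →ₐ[ℚ] QSm, ∃ rbar : GQ →* GL (Fin 3) (ZMod 2), IsRbar r κ rbar ∧
    IsOpen ((rbar.ker : Subgroup GQ) : Set GQ) ∧ (∀ g ∈ Kr K κ, rbar g = 1) ∧ (∀ g, rbar g ^ 21 = 1) ∧
    (∃ (φ : QSm →+* ℂ) (c : GQ), (∀ x, φ (c x) = (starRingEnd ℂ) (φ x)) ∧ c ^ 2 = 1 ∧ rbar c = 1) ∧
    ∀ s : K ≃ₐ[ℚ] K, ∃ g : GQ, ∀ x, κ (s x) = g (κ x)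

def J_DEQ : Prop := MZ.StmK7 → S_QRQ → S_DEQ

/-- JOB AIQ. Absolute irreducibility.
Proof.  Over any field of characteristic 2 the algebra generated by `matA`, `matB` is the full
matrix algebra (write the 9 elementary matrices as sums of products of `matA`, `matB`), and a nonzero
subspace stable under all matrices is everything. -/
def S_AIQ : Prop := ∀ (G : Type) [Group G] (ρ : G →* GL (Fin 3) (ZMod 2)),
  (∃ g, ((ρ g : GL (Fin 3) (ZMod 2)) : Matrix (Fin 3) (Fin 3) (ZMod 2)) = matA) →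
  (∃ g, ((ρ g : GL (Fin 3) (ZMod 2)) : Matrix (Fin 3) (Fin 3) (ZMod 2)) = matB) → MZ.AbsIrred ρ

/-- JOB SFQ. The set `S438` and its analogues over number fields.
Proof.  Finitely many primes contain a nonzero element of a Dedekind domain.  `2 ∈ v` implies `438 ∈ v`. -/
def S_SFQ : Prop := S438.Finite ∧ ∀ v : HeightOneSpectrum (𝓞 ℚ), ((2 : ℕ) : 𝓞 ℚ) ∈ v.asIdeal → v ∈ S438

end Pool.Agent.H429.MZQ
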