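import Pool.Agent.H429.MZQ.StmF

/-!
# Project MZQ (helper429), part G: base change of universal deformation rings
-/

set_option autoImplicit false
set_option linter.unusedSectionVars false

namespace Pool.Agent.H429.MZQ

open NumberField IsDedekindDomain Module IsLocalRing
open Pool.Agent.Q5.MZ (S438)

/-- Burnside's theorem for `MZ.AbsIrred` (proved: `Pool.Agent.H429.MZU.burn`, an identical statement) -/
def S_BurnQ : Prop :=
  ∀ (k : Type) [Field k] (G : Type) [Group G] (n : ℕ) (ρbar : G →* GL (Fin n) k), MZ.AbsIrred ρbar →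
    Submodule.span k (Set.range fun g : G => (ρbar g : Matrix (Fin n) (Fin n) k)) = ⊤

/-- JOB TRQ.  A deformation is determined by its traces.
Proof.  `ker π` is the maximal ideal `m` of `A`.  By `S_BurnQ` the matrices `ρ̄(g)` span `M_n(k)`, so by Nakayama the `ρ(g)` span
`M_n(A)` over `A`, and so do the `ρ'(g)`.  If `∑ a_g ρ(g) = 0` (finite sum) then for all `h` `∑ a_g tr ρ(g h) = 0`, so
`∑ a_g tr ρ'(g h) = 0`, `tr((∑ a_g ρ'(g)) ρ'(h)) = 0` for all `h`, and as the `ρ'(h)` span `M_n(A)` (trace form), `∑ a_g ρ'(g) = 0`; and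
conversely.  So there is a well defined `A`-linear (bijective) map `Θ : M_n(A) → M_n(A)` with `Θ(∑ a_g ρ(g)) = ∑ a_g ρ'(g)`, a ring
homomorphism, and `Θ(X) ≡ X mod m` (true for `X = ρ(g)`).  Put `P = ∑_i Θ(E_{i1}) E_{1i}` (`n = 0` is trivial).  Then
`Θ(X) P = ∑_i Θ(X E_{i1}) E_{1i} = ∑_{i,j} X_{ji} Θ(E_{j1}) E_{1i} = P X`, `P ≡ ∑ E_{i1} E_{1i} = 1 mod m`, so `P` is invertible and
`ρ'(g) = P ρ(g) P⁻¹`. -/
def S_TRQ : Prop := ∀ (k : Type) [Field k] (A : Type) [CommRing A] [IsLocalRing A] (π : A →+* k),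
  Function.Surjective π → ∀ (G : Type) [Group G] (n : ℕ) (ρ ρ' : G →* GL (Fin n) A),
  (∀ g, Matrix.GeneralLinearGroup.map π (ρ g) = Matrix.GeneralLinearGroup.map π (ρ' g)) →
  MZ.AbsIrred ((Matrix.GeneralLinearGroup.map π).comp ρ) →
  (∀ g, (ρ g : Matrix (Fin n) (Fin n) A).trace = (ρ' g : Matrix (Fin n) (Fin n) A).trace) →
  ∃ M : GL (Fin n) A, Matrix.GeneralLinearGroup.map π M = 1 ∧ ∀ g, ρ' g = M * ρ g * M⁻¹

def J_TRQ : Prop := S_BurnQ → S_TRQ

/-- JOB FINBQ.  A prime of `R/p` at which the universal representation has finite image is the maximal ideal.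
Proof.  `D = R/𝔭`, a local Noetherian domain of characteristic `p`, complete (quotient of `R`; the library has this,
`MZEX.StmExB` and its proof), residue field `k` (via the map `red` induced by `R.res`), an algebra over `W(k)`, i.e. `D` is a
`MZ.CNL p k`; `ρ_D` the image of `ρu`, a lift of `ρbar` (continuous).  Let `t = tr ρ_D(g)`.  `ρ_D(g)` has finite order `m` in a
domain, `ρ_D(g)` is a root of `x^m - 1`, so its eigenvalues in an algebraic closure of the fraction field of `D` are roots of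
unity, algebraic over `𝔽_p`; so `t` is algebraic over `𝔽_p`, and `t^(p^i) = t` for some `i ≥ 1` (the subfield generated by it over
`𝔽_p` is finite).  As there are only finitely many `t` there is one `Q = p^i` with `t^Q = t` for all traces and `z^Q = z` for
all `z ∈ k` (`k` is finite).  `Fr : D → D`, `x ↦ x^Q`, is a ring homomorphism (`iterateFrobenius`), it is the identity on the
residue field, and it is `W(k)`-linear: the image of `W(k)` in `D` is the image of `k = W(k)/p` (elements `z` with `z^Q = z`: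
`algebraMap` factors through `constantCoeff`, as `p = 0` in `D` and the kernel of `constantCoeff` is `(p)` for the perfect field `k`:
`WittVector` in Mathlib).  `Fr ∘ ρ_D` has traces `t^Q = t` (`Fr` is a ring homomorphism, so the trace of `Fr(ρ_D(g))` is
`Fr(tr ρ_D(g)) = t^Q = t`), so by `S_TRQ` it is strictly equivalent to `ρ_D`.  By the uniqueness in `MZ.IsUniversal` (with the
lift `ρ_D` to `D`) `Fr ∘ pr = pr`, `pr : R → D` the canonical map: both transform `ρu` into lifts strictly equivalent to `ρ_D`.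
As `pr` is surjective, `x^Q = x` for all `x ∈ D`.  For `x ∈ m_D`: `x (1 - x^(Q-1)) = 0`, `1 - x^(Q-1)` is a unit, `x = 0`.  So `m_D = 0` and
`𝔭 = m_R`. -/
def S_FINBQ : Prop := ∀ (p : ℕ) [Fact p.Prime] (k : Type) [Field k] [Finite k] [CharP k p]
  (G : Type) [Group G] [TopologicalSpace G] [IsTopologicalGroup G] (n : ℕ) (ρbar : G →* GL (Fin n) k),
  MZ.AbsIrred ρbar →
  ∀ (R : MZ.CNL p k) (ρu : G →* GL (Fin n) R.A), MZ.IsUniversal ρbar R ρu →
  ∀ P : Ideal R.A, P.IsPrime → ((p : ℕ) : R.A) ∈ P →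
    (Set.range fun g => Matrix.GeneralLinearGroup.map (Ideal.Quotient.mk P) (ρu g)).Finite →
    P = maximalIdeal R.A

def J_FINBQ : Prop := S_TRQ → S_FINBQ

/-- JOB DIMCQ.  Base change does not decrease the dimension: `φ : H → G` with open image.
Proof.  `ρu ∘ φ` is a lift of `ρbar ∘ φ` to `R` (continuous), so there is `f : R' → R` (`W(k)`-algebras, compatible with `res`) and
`M ∈ GL_n(R)` with `ρu(φ h) = M f(ρu'(h)) M⁻¹`.  `f` is local: `f(m_{R'}) ⊆ m_R` (`res ∘ f = res`, and `ker res` is the maximal ideal).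
Claim: a prime `P` of `R` with `f(m_{R'}) ⊆ P` is `m_R`.  Every element of `R'` is congruent modulo `m_{R'}` to the image of a
Witt vector; `R' → R/P` factors through `k = R'/m_{R'}`, a finite field, so `f(ρu'(h)) mod P` takes only finitely many values and so
does `ρu(φ h) mod P`.  The image of `φ` is an open subgroup of the compact group `G`, so it has finite index, and `ρu mod P` takes
only finitely many values on `G`.  `p ∈ P` since `p = f(p)`, `p ∈ m_{R'}`.  `S_FINBQ` gives `P = m_R`.
Let `d = dim R'/p` (finite, as `R'/p` is a Noetherian local ring).  The maximal ideal of `R'/p` is minimal over an ideal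
with `d` generators `a_1, .., a_d` (Mathlib: `Ideal.exists_spanRank_le_and_le_height_of_le_height` or similar); lift them to
`R'`.  A prime of `R/p` which contains the images of `f(a_1), .., f(a_d)` corresponds to a prime `P` of `R` whose preimage in `R'`
contains `p` and the `a_i`, so it is `m_{R'}` (the maximal ideal is the only prime of the local ring `R'` containing `p, a_i`,
by minimality), so `f(m_{R'}) ⊆ P`, `P = m_R`.  So the maximal ideal of `R/p` is minimal over an ideal with `d` generators, and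
by Krull's height theorem `dim R/p ≤ d`. -/
def S_DIMCQ : Prop := ∀ (p : ℕ) [Fact p.Prime] (k : Type) [Field k] [Finite k] [CharP k p]
  (G H : Type) [Group G] [TopologicalSpace G] [IsTopologicalGroup G] [CompactSpace G]
  [Group H] [TopologicalSpace H] [IsTopologicalGroup H] (φ : H →* G) (n : ℕ) (ρbar : G →* GL (Fin n) k),
  Continuous φ → IsOpen (Set.range φ) → MZ.AbsIrred ρbar →
  ∀ (R : MZ.CNL p k) (ρu : G →* GL (Fin n) R.A), MZ.IsUniversal ρbar R ρu →
  ∀ (R' : MZ.CNL p k) (ρu' : H →* GL (Fin n) R'.A), MZ.IsUniversal (ρbar.comp φ) R' ρu' →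
    ringKrullDim (R.A ⧸ Ideal.span {((p : ℕ) : R.A)}) ≤ ringKrullDim (R'.A ⧸ Ideal.span {((p : ℕ) : R'.A)})

def J_DIMCQ : Prop := S_FINBQ → S_DIMCQ

/-- JOB RESQ.  Restriction from `G_{F,S}` to `G_ℚ,S438`.
Proof.  `ℚ_{S438} ⊆ F_S` by `Pool.Agent.H429.MZU.bc` (file MZU/BC.lean, statement `S_BC` in MZU/Stmts.lean, with `F₀ = ℚ`,
`Ω = MZ.Om`, `S₀ = S438`; see `S30_le` in MZU/Fin1.lean for the same with `S30`).  `ℚ_{S438}/ℚ` and `F_S/F` are Galois
(`Pool.Agent.W178.MZK.K7`).  With `E = ℚ_{S438}`, `K = F_S` and the evident tower of algebras, the restriction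
homomorphism is `resU` of `Pool/Agent/H429/MZU/AsmA.lean`, which also contains its continuity (`continuous_resU`) and that
its image is open (`isOpen_range_resU`).  The last property: by Galois theory, `κ(K)` is a finite Galois extension of `ℚ`, and
`κ(K) ∩ F = ℚ`, so the restriction `Gal(Ω/F) → Gal(κ(K)/ℚ)` is surjective (`sur_gen` in Pool/Agent/H429/MZU/Sur.lean). -/
def S_RESQ : Prop := ∀ (F : IntermediateField ℚ MZ.Om) [NumberField F] (S : Set (HeightOneSpectrum (𝓞 F))),
  (∀ v : HeightOneSpectrum (𝓞 F), (438 : 𝓞 F) ∈ v.asIdeal → v ∈ S) →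
  ∃ res : MZ.GFS MZ.Om S →* GQ, Continuous res ∧ IsOpen (Set.range res) ∧
    ∀ (K : Type) [Field K] [NumberField K] [IsGalois ℚ K] (κ : K →ₐ[ℚ] QSm),
      (∀ x : K, ((κ x : QSm) : MZ.Om) ∈ F → ∃ q : ℚ, x = algebraMap ℚ K q) →
      ∀ s : K ≃ₐ[ℚ] K, ∃ g : MZ.GFS MZ.Om S, ∀ x : K, κ (s x) = res g (κ x)

end Pool.Agent.H429.MZQ
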